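import Pool.Agent.H170_FG.Inst2

/-!
# Finite generation for algebras satisfying the relations
-/

universe u

open Finset Module

namespace Pool.Agent.H170_FG

section

variable {k : Type u} [Field k] {C : Type} [CommGroup C] [Fintype C] [DecidableEq C]
  {n : ℕ} {χ : Fin n → C} {A : Type u} [Ring A] [Algebra k A]
  {e g : C → A} {w : Fin n ⊕ Fin n → A} (H : Rels.Full k χ e g w)
  {L : Type} [Fintype L] [DecidableEq L] {m : L → ℕ} [∀ l, NeZero (m l)]
  (ψ : C ≃* Multiplicative (∀ l, ZMod (m l)))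

namespace Rels

/-- coordinates -/
noncomputable def PhiE : FF m (sN k e w) ≃+ A :=
  AddEquiv.ofBijective (⟨⟨PhiF k e g w ψ, by simp [PhiF]⟩, fun f f' => by
    simp [PhiF, mul_add, sum_add_distrib]⟩ : FF m (sN k e w) →+ A) (PhiF_bijective H ψ)

lemma PhiE_mul (l : L) (f : FF m (sN k e w)) :
    PhiE H ψ f * vg g ψ l = PhiE H ψ (VF l f) := vg_mul_PhiF H ψ l f

lemma PhiE_mul_pow (l : L) (f : FF m (sN k e w)) (i : ℕ) :
    PhiE H ψ f * vg g ψ l ^ i = PhiE H ψ ((VF l)^[i] f) := by
  induction i with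
  | zero => simp
  | succ i ih => rw [pow_succ, ← mul_assoc, ih, PhiE_mul, Function.iterate_succ_apply']

lemma PhiE_mul_sum (l : L) (f : FF m (sN k e w)) :
    PhiE H ψ f * ∑ i ∈ range (m l), vg g ψ l ^ i =
      PhiE H ψ (fun c => ∑ i ∈ range (m l), (VF l)^[i] f c) := by
  rw [mul_sum]
  simp only [PhiE_mul_pow]
  rw [← map_sum]
  congr 1
  funext c
  rw [Finset.sum_apply]

/-- first homotopy -/
noncomputable def ss (l : L) : A →+ A :=
  (PhiE H ψ).toAddMonoidHom.comp ((SF l).comp (PhiE H ψ).symm.toAddMonoidHom)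

/-- second homotopy -/
noncomputable def ss' (l : L) : A →+ A :=
  (PhiE H ψ).toAddMonoidHom.comp ((SF' l).comp (PhiE H ψ).symm.toAddMonoidHom)

lemma ss_PhiE (l : L) (f : FF m (sN k e w)) :
    ss H ψ l (PhiE H ψ f) = PhiE H ψ (SF l f) := by
  simp [ss]

lemma ss'_PhiE (l : L) (f : FF m (sN k e w)) :
    ss' H ψ l (PhiE H ψ f) = PhiE H ψ (SF' l f) := by
  simp [ss']

lemma ss_eq (l : L) (b : A) : ss H ψ l b * (vg g ψ l - 1) +
    ss' H ψ l (b * ∑ i ∈ range (m l), vg g ψ l ^ i) = b := by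
  obtain ⟨f, rfl⟩ := (PhiE H ψ).surjective b
  rw [ss_PhiE, PhiE_mul_sum, ss'_PhiE, mul_sub, mul_one, PhiE_mul, ← map_sub, ← map_add, SF_eq]

lemma ss'_eq (l : L) (b : A) : ss' H ψ l b * (∑ i ∈ range (m l), vg g ψ l ^ i) +
    ss H ψ l (b * (vg g ψ l - 1)) = b := by
  obtain ⟨f, rfl⟩ := (PhiE H ψ).surjective b
  rw [ss'_PhiE, PhiE_mul_sum, mul_sub, mul_one, PhiE_mul, ← map_sub, ss_PhiE, ← map_add, SF'_eq]

lemma ss_v {l l' : L} (h : l ≠ l') (b : A) : ss H ψ l (b * vg g ψ l') = ss H ψ l b * vg g ψ l' := by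
  obtain ⟨f, rfl⟩ := (PhiE H ψ).surjective b
  rw [PhiE_mul, ss_PhiE, ss_PhiE, PhiE_mul, SF_VF h]

lemma ss'_v {l l' : L} (h : l ≠ l') (b : A) :
    ss' H ψ l (b * vg g ψ l') = ss' H ψ l b * vg g ψ l' := by
  obtain ⟨f, rfl⟩ := (PhiE H ψ).surjective b
  rw [PhiE_mul, ss'_PhiE, ss'_PhiE, PhiE_mul, SF'_VF h]

omit [Fintype L] [∀ l, NeZero (m l)] in
include H in
lemma vg_pow (l : L) (i : ℕ) : vg g ψ l ^ i =
    g (ψ.symm (Multiplicative.ofAdd (i • Pi.single l 1))) := by
  induction i with
  | zero =>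
    rw [pow_zero, zero_smul, ofAdd_zero, map_one, H.rels.g_one]
  | succ i ih => rw [pow_succ, ih, vg, H.rels.g_mul, ← map_mul, ← ofAdd_add, succ_nsmul]

omit [Fintype L] [∀ l, NeZero (m l)] in
include H in
lemma vg_pow_ord (l : L) : vg g ψ l ^ m l = 1 := by
  rw [vg_pow H, ← Pi.single_smul, nsmul_one, CharP.cast_eq_zero, Pi.single_zero, ofAdd_zero,
    map_one, H.rels.g_one]

include H in
/-- decomposition of `g c - 1` -/
lemma exists_co (P : A → Prop) (hP0 : P 0) (hP1 : P 1) (hPg : ∀ c, P (g c))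
    (hPa : ∀ x y, P x → P y → P (x + y)) (hPm : ∀ x y, P x → P y → P (x * y)) (c : C) :
    ∃ co : L → A, (∀ l, P (co l)) ∧ g c - 1 = ∑ l, (vg g ψ l - 1) * co l := by
  have hprod : ∀ c c', (∃ co : L → A, (∀ l, P (co l)) ∧ g c - 1 = ∑ l, (vg g ψ l - 1) * co l) →
      (∃ co : L → A, (∀ l, P (co l)) ∧ g c' - 1 = ∑ l, (vg g ψ l - 1) * co l) →
      (∃ co : L → A, (∀ l, P (co l)) ∧ g (c * c') - 1 = ∑ l, (vg g ψ l - 1) * co l) := by
    rintro c c' ⟨co, h1, h2⟩ ⟨co', h1', h2'⟩
    refine ⟨fun l => co l * g c' + co' l, fun l => hPa _ _ (hPm _ _ (h1 l) (hPg c')) (h1' l), ?_⟩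
    rw [← H.rels.g_mul]
    have : g c * g c' - 1 = (g c - 1) * g c' + (g c' - 1) := by noncomm_ring
    rw [this, h2, h2', sum_mul, ← sum_add_distrib]
    refine sum_congr rfl fun l _ => ?_
    rw [mul_add, mul_assoc]
  have hone : ∃ co : L → A, (∀ l, P (co l)) ∧ g 1 - 1 = ∑ l, (vg g ψ l - 1) * co l :=
    ⟨fun _ => 0, fun _ => hP0, by simp [H.rels.g_one]⟩
  have hgen : ∀ (l : L) (i : ℕ), ∃ co : L → A, (∀ l, P (co l)) ∧
      g (ψ.symm (Multiplicative.ofAdd (i • Pi.single l 1))) - 1 =
        ∑ l, (vg g ψ l - 1) * co l := by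
    intro l i
    induction i with
    | zero =>
      rw [zero_smul, ofAdd_zero, map_one]
      exact hone
    | succ i ih =>
      rw [succ_nsmul, ofAdd_add, map_mul]
      refine hprod _ _ ih ⟨fun l' => if l' = l then 1 else 0, ?_, ?_⟩
      · intro l'
        by_cases h : l' = l
        · simpa [h] using hP1
        · simpa [h] using hP0
      · simp [vg]
  have hall : ∀ (s : Finset L) (z : ∀ l, ZMod (m l)), ∃ co : L → A, (∀ l, P (co l)) ∧
      g (ψ.symm (Multiplicative.ofAdd (∑ l ∈ s, Pi.single l (z l)))) - 1 =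
        ∑ l, (vg g ψ l - 1) * co l := by
    intro s z
    induction s using Finset.induction_on with
    | empty =>
      rw [sum_empty, ofAdd_zero, map_one]
      exact hone
    | insert l s hl ih =>
      rw [sum_insert hl, ofAdd_add, map_mul]
      refine hprod _ _ ?_ ih
      have : (Pi.single l (z l) : ∀ l, ZMod (m l)) = (z l).val • Pi.single l 1 := by
        rw [← Pi.single_smul]
        simp
      rw [this]
      exact hgen l _
  have := hall univ (Multiplicative.toAdd (ψ c))
  rw [Finset.univ_sum_single] at this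
  simpa using this

end Rels

end

section

variable {k : Type u} [Field k] {C : Type} [CommGroup C] [Fintype C] [DecidableEq C]
  {n : ℕ} {χ : Fin n → C} {A : Type u} [Ring A] [Algebra k A]
  {e g : C → A} {w : Fin n ⊕ Fin n → A} (H : Rels.Full k χ e g w)
  {L : Type} [Fintype L] [LinearOrder L] {m : L → ℕ} [∀ l, NeZero (m l)]
  (ψ : C ≃* Multiplicative (∀ l, ZMod (m l)))

namespace Rels

include H in
lemma span_e (eps : A →ₐ[k] k) (h1 : eps (e 1) = 1) (hg : ∀ c, eps (g c) = 1)
    (hw : ∀ a, eps (w a) = 0) (b : A) (hb : eps b = 0) :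
    ∃ (bw : Fin n ⊕ Fin n → A) (bl : L → A),
      b * e 1 = ∑ l, bl l * (vg g ψ l - 1) + ∑ a, bw a * w a := by
  let J : Ideal A := Ideal.span (Set.range (Sum.elim (fun l : L => vg g ψ l - 1) w))
  have he : ∀ c, c ≠ 1 → eps (e c) = 0 := by
    intro c hc
    have := congrArg eps (H.rels.ee c 1)
    rwa [map_mul, h1, mul_one, if_neg hc, map_zero] at this
  have key : ∀ b : A, b * e 1 - algebraMap k A (eps b) * e 1 ∈ J := by
    intro b
    have hb : b ∈ Algebra.adjoin k (Set.range e ∪ Set.range g ∪ Set.range w) := by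
      rw [H.gen]; trivial
    induction hb using Algebra.adjoin_induction with
    | mem x hx =>
      rcases hx with (⟨c, rfl⟩ | ⟨c, rfl⟩) | ⟨a, rfl⟩
      · by_cases hc : c = 1
        · subst hc
          rw [h1, H.rels.ee, if_pos rfl, map_one, one_mul, sub_self]
          exact J.zero_mem
        · rw [he c hc, H.rels.ee, if_neg hc, map_zero, zero_mul, sub_self]
          exact J.zero_mem
      · obtain ⟨co, -, h⟩ := exists_co H ψ (fun _ => True) trivial trivial (fun _ => trivial)
          (fun _ _ _ _ => trivial) (fun _ _ _ _ => trivial) c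
        rw [hg, map_one, ← sub_mul, h, sum_mul]
        refine J.sum_mem fun l _ => ?_
        have : (vg g ψ l - 1) * co l * e 1 = (co l * e 1) * (vg g ψ l - 1) := by
          rw [sub_mul, sub_mul, mul_sub, one_mul, mul_one, mul_assoc]
          congr 1
          exact g_central H _ _
        rw [this]
        exact J.mul_mem_left _ (Ideal.subset_span ⟨Sum.inl l, rfl⟩)
      · rw [hw, map_zero, zero_mul, sub_zero, H.rels.w_e]
        exact J.mul_mem_left _ (Ideal.subset_span ⟨Sum.inr a, rfl⟩)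
    | algebraMap r =>
      rw [AlgHom.commutes, Algebra.algebraMap_self, RingHom.id_apply, sub_self]
      exact J.zero_mem
    | add x y _ _ hx hy =>
      have : (x + y) * e 1 - algebraMap k A (eps (x + y)) * e 1 =
          (x * e 1 - algebraMap k A (eps x) * e 1) + (y * e 1 - algebraMap k A (eps y) * e 1) := by
        rw [map_add, map_add]
        noncomm_ring
      rw [this]
      exact J.add_mem hx hy
    | mul x y _ _ hx hy =>
      have : x * y * e 1 - algebraMap k A (eps (x * y)) * e 1 =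
          x * (y * e 1 - algebraMap k A (eps y) * e 1) +
          algebraMap k A (eps y) * (x * e 1 - algebraMap k A (eps x) * e 1) := by
        rw [map_mul eps, mul_comm (eps x), map_mul (algebraMap k A), mul_sub, mul_sub,
          ← mul_assoc x (algebraMap k A (eps y)), ← Algebra.commutes (eps y) x]
        simp only [mul_assoc]
        abel
      rw [this]
      exact J.add_mem (J.mul_mem_left _ hy) (J.mul_mem_left _ hx)
  have h := key b
  rw [hb, map_zero, zero_mul, sub_zero] at h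
  obtain ⟨c, hc⟩ := (Submodule.mem_span_range_iff_exists_fun A).mp h
  refine ⟨fun a => c (Sum.inr a), fun l => c (Sum.inl l), ?_⟩
  rw [← hc, Fintype.sum_sum_type]
  rfl

include H in
lemma exists_co' (χ' : Fin n → C) : ∃ co : Fin n → L → A, (∀ i l b, co i l * b = b * co i l) ∧
    (∀ a i l b, (exists_tau H a).choose (b * co i l) = (exists_tau H a).choose b * co i l) ∧
    ∀ i, g (χ' i) - 1 = ∑ l, (vg g ψ l - 1) * co i l := by
  have h := fun i => exists_co H ψ (fun x => (∀ b, x * b = b * x) ∧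
    ∀ a b, (exists_tau H a).choose (b * x) = (exists_tau H a).choose b * x) (by simp) (by simp)
      (fun c => ⟨fun b => g_central H c b, fun a b => (exists_tau H a).choose_spec.2.2 c b⟩)
      (fun x y hx hy => ⟨fun b => by rw [add_mul, mul_add, hx.1, hy.1], fun a b => by
        rw [mul_add, map_add, hx.2, hy.2, mul_add]⟩)
      (fun x y hx hy => ⟨fun b => by rw [mul_assoc, hy.1, ← mul_assoc, hx.1, mul_assoc],
        fun a b => by rw [← mul_assoc, hy.2, hx.2, mul_assoc]⟩) (χ' i)
  choose co h1 h2 using h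
  exact ⟨co, fun i l b => (h1 i l).1 b, fun a i l b => (h1 i l).2 a b, h2⟩

/-- the data of `KDA` -/
noncomputable def kda (eps : A →ₐ[k] k) (h1 : eps (e 1) = 1) (hg : ∀ c, eps (g c) = 1)
    (hw : ∀ a, eps (w a) = 0) : KDA k A L (Fin n) C where
  e := e
  e_idem c := by rw [H.rels.ee, if_pos rfl]
  v := vg g ψ
  ord := m
  v_pow := vg_pow_ord H ψ
  v_central l b := g_central H _ b
  w := w
  wt := om χ
  w_e := H.rels.w_e
  wt_swap i := by simp [om]
  w_sq := H.rels.w_sq
  q i := g (χ i) - 1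
  w_pair := H.rels.w_pair
  w_anti := H.rels.w_anti
  co := (exists_co' H ψ χ).choose
  co_central := (exists_co' H ψ χ).choose_spec.1
  q_eq := (exists_co' H ψ χ).choose_spec.2.2
  tau a := (exists_tau H a).choose
  tau_same a := (exists_tau H a).choose_spec.1
  tau_diff a := (exists_tau H a).choose_spec.2.1
  tau_v a l := (exists_tau H a).choose_spec.2.2 _
  tau_co := (exists_co' H ψ χ).choose_spec.2.1
  s := ss H ψ
  s' := ss' H ψ
  s_eq := ss_eq H ψ
  s'_eq := ss'_eq H ψ
  s_v l l' h := ss_v H ψ h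
  s'_v l l' h := ss'_v H ψ h
  eps := eps
  eps_w := hw
  eps_v l := hg _
  eps_e := h1
  span := span_e H ψ eps h1 hg hw
  M0 := Fintype.card C
  M0_ne := Fintype.card_ne_zero
  wt_pow a := by rw [mul_comm, pow_mul, pow_card_eq_one, one_pow]

end Rels

end

section

variable {k : Type u} [Field k] {C : Type} [CommGroup C] [Fintype C] [DecidableEq C]
  {n : ℕ} {χ : Fin n → C} {A : Type u} [Ring A] [Algebra k A]
  {e g : C → A} {w : Fin n ⊕ Fin n → A}

lemma exists_psi (C : Type) [CommGroup C] [Finite C] : ∃ (L : Type) (_ : Fintype L)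
    (m : L → ℕ) (_ : ∀ l, NeZero (m l)), Nonempty (C ≃* Multiplicative (∀ l, ZMod (m l))) := by
  obtain ⟨L, hL, m, hm, ⟨f⟩⟩ := CommGroup.equiv_prod_multiplicative_zmod_of_finite C
  refine ⟨L, hL, m, fun l => ⟨by have := hm l; omega⟩, ⟨f.trans ?_⟩⟩
  exact { toFun := fun x => Multiplicative.ofAdd fun l => Multiplicative.toAdd (x l)
          invFun := fun x l => Multiplicative.ofAdd (Multiplicative.toAdd x l)
          left_inv := fun x => rfl
          right_inv := fun x => rfl
          map_mul' := fun x y => rfl }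

/-- Finite generation of cohomology for the algebras satisfying the relations. -/
theorem Rels.Full.fgc (H : Rels.Full k χ e g w) (eps : A →ₐ[k] k) (h1 : eps (e 1) = 1)
    (hg : ∀ c, eps (g c) = 1) (hw : ∀ a, eps (w a) = 0) : FGC k eps := by
  obtain ⟨L, hL, m, hm, ⟨ψ⟩⟩ := exists_psi C
  let _ : LinearOrder L := LinearOrder.lift' (Fintype.equivFin L) (Equiv.injective _)
  have hB : FiniteDimensional k (BB k χ) ∧ finrank k (BB k χ) ≤ (2 ^ n * Fintype.card C) ^ 2 :=
    (BB.rels k χ).finrank_le (BB.adjoin_gens (k := k) (χ := χ))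
  have := hB.1
  have : Module.Finite k A := Module.Finite.of_surjective (BB.lift (k := k) H.rels).toLinearMap
    (Rels.lift_bijective H).2
  exact (Rels.kda H ψ eps h1 hg hw).fgc

end

end Pool.Agent.H170_FG
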