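import Mathlib

/-!
# An explicit complex over an algebra generated by central group-like elements, orthogonal
idempotents and odd elements
-/

universe u

open Finset

namespace Pool.Agent.H170_FG

/-- Variables of the resolution: one for every cyclic factor, two for every odd weight vector. -/
abbrev Var (L I : Type) : Type := L ⊕ (I ⊕ I)

/-- Exponents of the resolution. -/
abbrev Idx (L I : Type) : Type := Var L I →₀ ℕ

section Idx

variable {L I : Type}

/-- unit exponent vector -/
noncomputable abbrev ee (w : Var L I) : Idx L I := Finsupp.single w 1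

/-- the variable of a central generator -/
abbrev vl (l : L) : Var L I := Sum.inl l

/-- the variable of an odd generator -/
abbrev vw (a : I ⊕ I) : Var L I := Sum.inr a

lemma add_ee_same (t : Idx L I) (w : Var L I) : (t + ee w) w = t w + 1 := by
  classical
  simp

lemma add_ee_ne (t : Idx L I) {w w' : Var L I} (h : w ≠ w') : (t + ee w) w' = t w' := by
  classical
  simp [h]

lemma exists_eq_add_ee (t : Idx L I) (w : Var L I) (h : t w ≠ 0) : ∃ t', t = t' + ee w := by
  classical
  refine ⟨t - ee w, ?_⟩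
  rw [tsub_add_cancel_of_le]
  rw [Finsupp.single_le_iff]
  omega

variable [Fintype L] [LinearOrder L]

/-- the number of steps in the directions `m < l` -/
def sL (l : L) (t : Idx L I) : ℕ := ∑ m with m < l, t (vl m)

/-- the number of steps in all the directions `m` -/
def eL (t : Idx L I) : ℕ := ∑ m, t (vl m)

lemma sL_add_lt {l m : L} (h : m < l) (t : Idx L I) : sL l (t + ee (vl m)) = sL l t + 1 := by
  classical
  simp only [sL, Finsupp.add_apply, sum_add_distrib, Finsupp.single_apply, add_right_inj]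
  rw [Finset.sum_eq_single m]
  · simp
  · intro b _ hb
    simp [vl, hb.symm]
  · simp [h]

lemma sL_add_not_lt {l m : L} (h : ¬ m < l) (t : Idx L I) : sL l (t + ee (vl m)) = sL l t := by
  classical
  simp only [sL, Finsupp.add_apply, sum_add_distrib, Finsupp.single_apply, add_eq_left]
  refine Finset.sum_eq_zero fun b hb => ?_
  simp only [mem_filter, mem_univ, true_and] at hb
  have : m ≠ b := by rintro rfl; exact h hb
  simp [vl, this]

lemma sL_self (l : L) (t : Idx L I) : sL l (t + ee (vl l)) = sL l t :=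
  sL_add_not_lt (lt_irrefl l) t

lemma sL_add_w (l : L) (a : I ⊕ I) (t : Idx L I) : sL l (t + ee (vw a)) = sL l t := by
  classical
  simp only [sL, Finsupp.add_apply, sum_add_distrib, Finsupp.single_apply, add_eq_left]
  refine Finset.sum_eq_zero fun b hb => ?_
  simp

omit [LinearOrder L] in
lemma eL_add_l [DecidableEq L] (m : L) (t : Idx L I) : eL (t + ee (vl m)) = eL t + 1 := by
  classical
  simp only [eL, Finsupp.add_apply, sum_add_distrib, Finsupp.single_apply, add_right_inj]
  rw [Finset.sum_eq_single m]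
  · simp
  · intro b _ hb
    simp [vl, hb.symm]
  · simp

omit [LinearOrder L] in
lemma eL_add_w (a : I ⊕ I) (t : Idx L I) : eL (t + ee (vw a)) = eL t := by
  classical
  simp only [eL, Finsupp.add_apply, sum_add_distrib, Finsupp.single_apply, add_eq_left]
  refine Finset.sum_eq_zero fun b hb => ?_
  simp

end Idx

/-- Algebras generated by central group-like elements `v l`, orthogonal idempotents `e c` and odd
elements `w a`. -/
structure KD (k : Type u) [Field k] (B : Type u) [Ring B] [Algebra k B] (L I : Type)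
    [Fintype L] [LinearOrder L] [Fintype I] [DecidableEq I] (C : Type*) [CommGroup C] where
  e : C → B
  e_idem : ∀ c, e c * e c = e c
  v : L → B
  ord : L → ℕ
  v_pow : ∀ l, v l ^ ord l = 1
  v_central : ∀ l b, v l * b = b * v l
  w : I ⊕ I → B
  wt : I ⊕ I → C
  w_e : ∀ a c, w a * e c = e (wt a * c) * w a
  wt_swap : ∀ i, wt (Sum.inl i) * wt (Sum.inr i) = 1
  w_sq : ∀ a, w a * w a = 0
  q : I → B
  w_pair : ∀ i, w (Sum.inl i) * w (Sum.inr i) + w (Sum.inr i) * w (Sum.inl i) = q i
  w_anti : ∀ a b, a ≠ b → a ≠ b.swap → w a * w b + w b * w a = 0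
  co : I → L → B
  co_central : ∀ i l b, co i l * b = b * co i l
  q_eq : ∀ i, q i = ∑ l, (v l - 1) * co i l
  tau : I ⊕ I → B →+ B
  tau_same : ∀ a b, tau a (b * w a) = b - tau a b * w a
  tau_diff : ∀ a a', a ≠ a' → ∀ b, tau a (b * w a') = - (tau a b * w a')
  tau_v : ∀ a l b, tau a (b * v l) = tau a b * v l
  tau_co : ∀ a i l b, tau a (b * co i l) = tau a b * co i l
  s : L → B →+ B
  s' : L → B →+ B
  s_eq : ∀ l b, s l b * (v l - 1) + s' l (b * ∑ i ∈ range (ord l), v l ^ i) = b
  s'_eq : ∀ l b, s' l b * (∑ i ∈ range (ord l), v l ^ i) + s l (b * (v l - 1)) = b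
  s_v : ∀ l m, l ≠ m → ∀ b, s l (b * v m) = s l b * v m
  s'_v : ∀ l m, l ≠ m → ∀ b, s' l (b * v m) = s' l b * v m

namespace KD

variable {k : Type u} [Field k] {B : Type u} [Ring B] [Algebra k B] {L I : Type}
    [Fintype L] [LinearOrder L] [Fintype I] [DecidableEq I] {C : Type*} [CommGroup C]
    (K : KD k B L I C)

/-- norm element -/
def nm (l : L) : B := ∑ i ∈ range (K.ord l), K.v l ^ i

/-- coefficients of the periodic resolution of a cyclic group -/
def cf (l : L) (n : ℕ) : B := if Even n then K.v l - 1 else K.nm l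

lemma v_sub_mul_nm (l : L) : (K.v l - 1) * K.nm l = 0 := by
  rw [nm, mul_geom_sum, K.v_pow, sub_self]

lemma nm_mul_v_sub (l : L) : K.nm l * (K.v l - 1) = 0 := by
  rw [nm, geom_sum_mul, K.v_pow, sub_self]

lemma nm_central (l : L) (b : B) : K.nm l * b = b * K.nm l := by
  have h : Commute (K.v l) b := K.v_central l b
  rw [nm, sum_mul, mul_sum]
  exact sum_congr rfl fun i _ => (h.pow_left i).eq

lemma cf_central (l : L) (n : ℕ) (b : B) : K.cf l n * b = b * K.cf l n := by
  unfold cf
  split_ifs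
  · rw [sub_mul, mul_sub, K.v_central, one_mul, mul_one]
  · exact K.nm_central l b

lemma cf_mul_cf (l : L) (n : ℕ) : K.cf l (n + 1) * K.cf l n = 0 := by
  unfold cf
  rcases Nat.even_or_odd n with h | h
  · rw [if_pos h, if_neg (by rw [Nat.even_add_one]; exact fun h' => h' h)]
    exact K.nm_mul_v_sub l
  · have h' : ¬ Even n := Nat.not_even_iff_odd.mpr h
    rw [if_neg h', if_pos (by rw [Nat.even_add_one]; exact h')]
    exact K.v_sub_mul_nm l

lemma tau_nm (a : I ⊕ I) (l : L) (b : B) : K.tau a (b * K.nm l) = K.tau a b * K.nm l := by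
  have key : ∀ i : ℕ, K.tau a (b * K.v l ^ i) = K.tau a b * K.v l ^ i := by
    intro i
    induction i with
    | zero => simp
    | succ i ih => rw [pow_succ, ← mul_assoc, K.tau_v, ih, mul_assoc]
  rw [nm, mul_sum, mul_sum, map_sum]
  exact sum_congr rfl fun i _ => key i

lemma tau_cf (a : I ⊕ I) (l : L) (n : ℕ) (b : B) :
    K.tau a (b * K.cf l n) = K.tau a b * K.cf l n := by
  unfold cf
  split_ifs
  · rw [mul_sub, mul_sub, map_sub, K.tau_v, mul_one, mul_one]
  · exact K.tau_nm a l b

lemma comm_nm_of {f : B →+ B} {m : L} (hf : ∀ b, f (b * K.v m) = f b * K.v m) (b : B) :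
    f (b * K.nm m) = f b * K.nm m := by
  have key : ∀ i : ℕ, f (b * K.v m ^ i) = f b * K.v m ^ i := by
    intro i
    induction i with
    | zero => simp
    | succ i ih => rw [pow_succ, ← mul_assoc, hf, ih, mul_assoc]
  rw [nm, mul_sum, mul_sum, map_sum]
  exact sum_congr rfl fun i _ => key i

lemma comm_cf_of {f : B →+ B} {m : L} (hf : ∀ b, f (b * K.v m) = f b * K.v m) (n : ℕ) (b : B) :
    f (b * K.cf m n) = f b * K.cf m n := by
  unfold cf
  split_ifs
  · rw [mul_sub, mul_sub, map_sub, hf, mul_one, mul_one]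
  · exact K.comm_nm_of hf b

/-- sign -/
def sg (n : ℕ) : ℤ := (-1) ^ n

lemma sg_add_one (n : ℕ) : sg (n + 1) = - sg n := by simp [sg, pow_succ]

lemma sg_mul_self (n : ℕ) : sg n * sg n = 1 := by
  rw [sg, ← mul_pow]
  simp

lemma sg_even {n : ℕ} (h : Even n) : sg n = 1 := h.neg_one_pow

/-- The total module of the resolution. -/
abbrev PP (B : Type u) (L I : Type) : Type u := Idx L I → B

/-- The part of the differential in the direction of a central generator. -/
noncomputable def dl (l : L) : PP B L I →ₗ[B] PP B L I where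
  toFun z t := sg (sL l t) • (z (t + ee (vl l)) * K.cf l (t (vl l)))
  map_add' z z' := by
    ext t
    simp only [Pi.add_apply, add_mul, smul_add]
  map_smul' b z := by
    ext t
    simp only [Pi.smul_apply, smul_eq_mul, mul_smul_comm, mul_assoc, RingHom.id_apply]

/-- The part of the differential in the direction of an odd generator. -/
noncomputable def dw (a : I ⊕ I) : PP B L I →ₗ[B] PP B L I where
  toFun z t := sg (eL t) • (z (t + ee (vw a)) * K.w a)
  map_add' z z' := by
    ext t
    simp only [Pi.add_apply, add_mul, smul_add]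
  map_smul' b z := by
    ext t
    simp only [Pi.smul_apply, smul_eq_mul, mul_smul_comm, mul_assoc, RingHom.id_apply]

/-- The part of the differential cancelling the curvature. -/
noncomputable def dh (i : I) (l : L) : PP B L I →ₗ[B] PP B L I where
  toFun z t := if Odd (t (vl l)) then
    sg (sL l t) • (z (t - ee (vl l) + ee (vw (Sum.inl i)) + ee (vw (Sum.inr i))) * K.co i l) else 0
  map_add' z z' := by
    ext t
    by_cases h : Odd (t (vl l)) <;> simp only [Pi.add_apply, add_mul, smul_add, h, if_true,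
      if_false, add_zero]
  map_smul' b z := by
    ext t
    by_cases h : Odd (t (vl l)) <;> simp only [Pi.smul_apply, smul_eq_mul, mul_smul_comm,
      mul_assoc, RingHom.id_apply, h, if_true, if_false, mul_zero]

/-- double shift in the direction of `w (inl i)` and `w (inr i)` -/
noncomputable def sh2 (i : I) : PP B L I →ₗ[B] PP B L I where
  toFun z t := z (t + ee (vw (Sum.inl i)) + ee (vw (Sum.inr i)))
  map_add' _ _ := rfl
  map_smul' _ _ := rfl

/-- right multiplication by a central element -/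
noncomputable def rm (r : B) : PP B L I →ₗ[B] PP B L I where
  toFun z t := z t * r
  map_add' z z' := by
    ext t
    simp only [Pi.add_apply, add_mul]
  map_smul' b z := by
    ext t
    simp only [Pi.smul_apply, smul_eq_mul, mul_assoc, RingHom.id_apply]

lemma dl_apply (l : L) (z : PP B L I) (t : Idx L I) :
    K.dl l z t = sg (sL l t) • (z (t + ee (vl l)) * K.cf l (t (vl l))) := rfl

lemma dw_apply (a : I ⊕ I) (z : PP B L I) (t : Idx L I) :
    K.dw a z t = sg (eL t) • (z (t + ee (vw a)) * K.w a) := rfl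

lemma dh_apply (i : I) (l : L) (z : PP B L I) (t : Idx L I) :
    K.dh i l z t = if Odd (t (vl l)) then
    sg (sL l t) • (z (t - ee (vl l) + ee (vw (Sum.inl i)) + ee (vw (Sum.inr i))) * K.co i l)
    else 0 := rfl

lemma dl_dl (l : L) : K.dl l * K.dl l = 0 := by
  ext1 z
  funext t
  change K.dl l (K.dl l z) t = 0
  simp only [dl_apply, smul_mul_assoc, mul_assoc]
  rw [add_ee_same, K.cf_mul_cf]
  simp

lemma dl_dl_anti {l m : L} (h : l ≠ m) : K.dl l * K.dl m + K.dl m * K.dl l = 0 := by
  wlog hlm : l < m generalizing l m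
  · rw [add_comm]
    exact this h.symm (lt_of_le_of_ne (not_lt.mp hlm) h.symm)
  ext1 z
  funext t
  change K.dl l (K.dl m z) t + K.dl m (K.dl l z) t = 0
  simp only [dl_apply, smul_mul_assoc, mul_assoc]
  rw [sL_add_lt hlm, sL_add_not_lt (not_lt.mpr hlm.le), sg_add_one]
  rw [add_ee_ne t (w := vl l) (w' := vl m) (by simp [vl, h]),
    add_ee_ne t (w := vl m) (w' := vl l) (by simp [vl, h.symm])]
  rw [K.cf_central m, add_right_comm t]
  rw [smul_smul, smul_smul, mul_comm (sg (sL m t)), mul_neg, neg_smul]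
  exact neg_add_cancel _

lemma dw_dw (a : I ⊕ I) : K.dw a * K.dw a = 0 := by
  ext1 z
  funext t
  change K.dw a (K.dw a z) t = 0
  simp only [dw_apply, smul_mul_assoc, mul_assoc, K.w_sq]
  simp

lemma dw_dw_anti {a b : I ⊕ I} (h : a ≠ b) (h' : a ≠ b.swap) :
    K.dw a * K.dw b + K.dw b * K.dw a = 0 := by
  ext1 z
  funext t
  change K.dw a (K.dw b z) t + K.dw b (K.dw a z) t = 0
  simp only [dw_apply, smul_mul_assoc, mul_assoc, eL_add_w, smul_smul, sg_mul_self, one_smul]
  rw [add_right_comm t, ← mul_add, add_comm (K.w b * K.w a), K.w_anti a b h h', mul_zero]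

lemma dw_pair (i : I) : K.dw (Sum.inl i) * K.dw (Sum.inr i) +
    K.dw (Sum.inr i) * K.dw (Sum.inl i) = rm (K.q i) * (sh2 i : PP B L I →ₗ[B] PP B L I) := by
  ext1 z
  funext t
  change K.dw (Sum.inl i) (K.dw (Sum.inr i) z) t + K.dw (Sum.inr i) (K.dw (Sum.inl i) z) t =
    z (t + ee (vw (Sum.inl i)) + ee (vw (Sum.inr i))) * K.q i
  simp only [dw_apply, smul_mul_assoc, mul_assoc, eL_add_w, smul_smul, sg_mul_self, one_smul]
  rw [add_right_comm t, ← mul_add, add_comm (K.w (Sum.inr i) * K.w (Sum.inl i)), K.w_pair,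
    add_right_comm t]

lemma dl_dw (l : L) (a : I ⊕ I) : K.dl l * K.dw a + K.dw a * K.dl l = 0 := by
  ext1 z
  funext t
  change K.dl l (K.dw a z) t + K.dw a (K.dl l z) t = 0
  simp only [dw_apply, dl_apply, smul_mul_assoc, mul_assoc, eL_add_l, sL_add_w, smul_smul,
    sg_add_one]
  rw [add_ee_ne t (w := vw a) (w' := vl l) (by simp), add_right_comm t, K.cf_central, mul_comm,
    neg_mul, neg_smul]
  exact neg_add_cancel _

lemma dl_dh {m l : L} (h : m ≠ l) (i : I) : K.dl m * K.dh i l + K.dh i l * K.dl m = 0 := by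
  ext1 z
  funext t
  change K.dl m (K.dh i l z) t + K.dh i l (K.dl m z) t = 0
  simp only [dl_apply, dh_apply]
  rw [add_ee_ne t (w := vl m) (w' := vl l) (by simp [vl, h])]
  by_cases ho : Odd (t (vl l))
  · obtain ⟨t, rfl⟩ := exists_eq_add_ee t (vl l) (by intro h0; simp [h0] at ho)
    simp only [ho, if_true]
    rw [add_right_comm t, add_tsub_cancel_right, add_tsub_cancel_right]
    simp only [sL_add_w, add_ee_ne _ (w := vl l) (w' := vl m) (by simp [vl, h.symm]),
      smul_mul_assoc, mul_assoc, smul_smul]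
    rw [add_ee_ne _ (w := vw (Sum.inr i)) (w' := vl m) (by simp),
      add_ee_ne _ (w := vw (Sum.inl i)) (w' := vl m) (by simp),
      add_right_comm _ _ (ee (vl m)), add_right_comm _ _ (ee (vl m)), K.co_central]
    rcases lt_or_gt_of_ne h with hml | hml
    · simp only [sL_self, sL_add_lt hml, sL_add_not_lt (not_lt.mpr hml.le), sg_add_one]
      rw [mul_neg, neg_smul, mul_comm (sg (sL m t))]
      exact neg_add_cancel _
    · simp only [sL_self, sL_add_lt hml, sL_add_not_lt (not_lt.mpr hml.le), sg_add_one]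
      rw [neg_mul, neg_smul, mul_comm (sg (sL l t))]
      exact neg_add_cancel _
  · simp only [ho, if_false]
    simp

lemma dl_dh_same (l : L) (i : I) : K.dl l * K.dh i l + K.dh i l * K.dl l =
    rm ((K.v l - 1) * K.co i l) * (sh2 i : PP B L I →ₗ[B] PP B L I) := by
  ext1 z
  funext t
  change K.dl l (K.dh i l z) t + K.dh i l (K.dl l z) t =
    z (t + ee (vw (Sum.inl i)) + ee (vw (Sum.inr i))) * ((K.v l - 1) * K.co i l)
  simp only [dl_apply, dh_apply, add_ee_same]
  by_cases ho : Odd (t (vl l))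
  · have h1 : ¬ Odd (t (vl l) + 1) := by
      rw [Nat.odd_add_one]; exact fun h => h ho
    simp only [ho, h1, if_true, if_false]
    obtain ⟨t, rfl⟩ := exists_eq_add_ee t (vl l) (by intro h0; simp [h0] at ho)
    rw [add_tsub_cancel_right]
    have h2 : Even (t (vl l)) := by
      rw [add_ee_same, Nat.odd_add_one, Nat.not_odd_iff_even] at ho
      exact ho
    simp only [sL_add_w, smul_mul_assoc, mul_assoc, smul_smul,
      sL_add_not_lt (l := l) (m := l) (lt_irrefl l), sg_mul_self, one_smul]
    rw [add_ee_ne _ (w := vw (Sum.inr i)) (w' := vl l) (by simp),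
      add_ee_ne _ (w := vw (Sum.inl i)) (w' := vl l) (by simp)]
    simp only [cf, h2, if_true]
    rw [add_right_comm _ _ (ee (vl l)), add_right_comm _ _ (ee (vl l))]
    simp
  · have h1 : Odd (t (vl l) + 1) := by
      rw [Nat.odd_add_one]; exact ho
    simp only [ho, h1, if_true, if_false]
    rw [add_tsub_cancel_right]
    simp only [smul_mul_assoc, mul_assoc, smul_smul,
      sL_add_not_lt (l := l) (m := l) (lt_irrefl l), sg_mul_self, one_smul]
    simp only [cf, Nat.not_odd_iff_even.mp ho, if_true, add_zero]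
    rw [K.co_central]

lemma dw_dh (a : I ⊕ I) (l : L) (i : I) : K.dw a * K.dh i l + K.dh i l * K.dw a = 0 := by
  ext1 z
  funext t
  change K.dw a (K.dh i l z) t + K.dh i l (K.dw a z) t = 0
  simp only [dw_apply, dh_apply]
  rw [add_ee_ne t (w := vw a) (w' := vl l) (by simp)]
  by_cases ho : Odd (t (vl l))
  · obtain ⟨t, rfl⟩ := exists_eq_add_ee t (vl l) (by intro h0; simp [h0] at ho)
    simp only [ho, if_true]
    rw [add_right_comm t, add_tsub_cancel_right, add_tsub_cancel_right]
    simp only [eL_add_w, eL_add_l, smul_mul_assoc, mul_assoc, smul_smul, sg_add_one]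
    rw [add_right_comm _ _ (ee (vw a)), add_right_comm _ _ (ee (vw a)), K.co_central,
      add_right_comm t, sL_add_w]
    rw [neg_mul, neg_smul, mul_comm (sg (eL t))]
    exact neg_add_cancel _
  · simp only [ho, if_false]
    simp

lemma dh_dh_same (l : L) (i j : I) : K.dh i l * K.dh j l = 0 := by
  ext1 z
  funext t
  change K.dh i l (K.dh j l z) t = 0
  simp only [dh_apply]
  by_cases ho : Odd (t (vl l))
  · obtain ⟨t, rfl⟩ := exists_eq_add_ee t (vl l) (by intro h0; simp [h0] at ho)
    have h2 : ¬ Odd (t (vl l)) := by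
      rw [add_ee_same, Nat.odd_add_one] at ho
      exact ho
    rw [if_pos ho, add_tsub_cancel_right,
      add_ee_ne _ (w := vw (Sum.inr i)) (w' := vl l) (by simp),
      add_ee_ne _ (w := vw (Sum.inl i)) (w' := vl l) (by simp), if_neg h2]
    simp
  · rw [if_neg ho]

lemma dh_dh {l m : L} (h : l ≠ m) (i j : I) : K.dh i l * K.dh j m + K.dh j m * K.dh i l = 0 := by
  wlog hlm : l < m generalizing l m i j
  · rw [add_comm]
    exact this h.symm j i (lt_of_le_of_ne (not_lt.mp hlm) h.symm)
  ext1 z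
  funext t
  change K.dh i l (K.dh j m z) t + K.dh j m (K.dh i l z) t = 0
  simp only [dh_apply]
  by_cases ho : Odd (t (vl l))
  · obtain ⟨t, rfl⟩ := exists_eq_add_ee t (vl l) (by intro h0; simp [h0] at ho)
    simp only [ho, if_true]
    rw [add_tsub_cancel_right,
      add_ee_ne _ (w := vw (Sum.inr i)) (w' := vl m) (by simp),
      add_ee_ne _ (w := vw (Sum.inl i)) (w' := vl m) (by simp),
      add_ee_ne t (w := vl l) (w' := vl m) (by simp [vl, h])]
    by_cases ho' : Odd (t (vl m))
    · obtain ⟨t, rfl⟩ := exists_eq_add_ee t (vl m) (by intro h0; simp [h0] at ho')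
      have ho'' : Odd (t (vl l) + 1) := by
        rw [add_ee_same, add_ee_ne _ (w := vl m) (w' := vl l) (by simp [vl, h.symm])] at ho
        exact ho
      have e1 : t + ee (vl m) + ee (vw (Sum.inl i)) + ee (vw (Sum.inr i)) - ee (vl m) =
          t + ee (vw (Sum.inl i)) + ee (vw (Sum.inr i)) := by
        rw [add_right_comm t, add_right_comm _ (ee (vl m)), add_tsub_cancel_right]
      have e2 : t + ee (vl m) + ee (vl l) - ee (vl m) + ee (vw (Sum.inl j)) +
          ee (vw (Sum.inr j)) - ee (vl l) = t + ee (vw (Sum.inl j)) + ee (vw (Sum.inr j)) := by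
        rw [add_right_comm t, add_tsub_cancel_right, add_right_comm t, add_right_comm _ (ee (vl l)),
          add_tsub_cancel_right]
      have e3 : t + ee (vl m) + ee (vl l) - ee (vl m) = t + ee (vl l) := by
        rw [add_right_comm t, add_tsub_cancel_right]
      have e4 : t + ee (vw (Sum.inl i)) + ee (vw (Sum.inr i)) + ee (vw (Sum.inl j)) +
          ee (vw (Sum.inr j)) = t + ee (vw (Sum.inl j)) + ee (vw (Sum.inr j)) +
          ee (vw (Sum.inl i)) + ee (vw (Sum.inr i)) := by abel
      rw [if_pos ho', if_pos ho', e1, e2, e3,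
        add_ee_ne _ (w := vw (Sum.inr j)) (w' := vl l) (by simp),
        add_ee_ne _ (w := vw (Sum.inl j)) (w' := vl l) (by simp), add_ee_same, if_pos ho'', e4]
      simp only [sL_self, sL_add_w, sL_add_lt hlm, sL_add_not_lt (not_lt.mpr hlm.le), sg_add_one,
        smul_mul_assoc, mul_assoc, smul_smul]
      rw [K.co_central j m, neg_mul, neg_smul, mul_comm (sg (sL m t))]
      exact add_neg_cancel _
    · rw [if_neg ho', if_neg ho']
      simp
  · rw [if_neg ho]
    by_cases ho' : Odd (t (vl m))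
    · rw [if_pos ho', if_neg]
      · simp
      · obtain ⟨t, rfl⟩ := exists_eq_add_ee t (vl m) (by intro h0; simp [h0] at ho')
        rw [add_tsub_cancel_right,
          add_ee_ne _ (w := vw (Sum.inr j)) (w' := vl l) (by simp),
          add_ee_ne _ (w := vw (Sum.inl j)) (w' := vl l) (by simp)]
        rw [add_ee_ne _ (w := vl m) (w' := vl l) (by simp [vl, h.symm])] at ho
        exact ho
    · rw [if_neg ho']
      simp

lemma sum_anti {R ι : Type*} [Ring R] [DecidableEq ι] (s : Finset ι) (f : ι → R) (x : R)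
    (h : ∀ i ∈ s, x * f i + f i * x = 0) : x * (∑ i ∈ s, f i) + (∑ i ∈ s, f i) * x = 0 := by
  rw [mul_sum, sum_mul, ← sum_add_distrib]
  exact sum_eq_zero h

lemma sum_sq {R ι : Type*} [Ring R] [DecidableEq ι] (s : Finset ι) (f : ι → R)
    (h1 : ∀ i, f i * f i = 0) (h2 : ∀ i j, i ≠ j → f i * f j + f j * f i = 0) :
    (∑ i ∈ s, f i) * (∑ i ∈ s, f i) = 0 := by
  induction s using Finset.induction_on with
  | empty => simp
  | insert a s ha ih =>
    rw [sum_insert ha]
    have := sum_anti s f (f a) (fun i hi => h2 a i (by rintro rfl; exact ha hi))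
    calc (f a + ∑ i ∈ s, f i) * (f a + ∑ i ∈ s, f i) = f a * f a +
        (f a * (∑ i ∈ s, f i) + (∑ i ∈ s, f i) * f a) + (∑ i ∈ s, f i) * (∑ i ∈ s, f i) := by
          noncomm_ring
      _ = 0 := by rw [h1, ih, this]; simp

lemma ring_id1 {R : Type*} [Ring R] (A x y z : R) : A * (x + y - z) + (x + y - z) * A =
    (A * x + x * A) + (A * y + y * A) - (A * z + z * A) := by noncomm_ring

lemma ring_id2 {R : Type*} [Ring R] (x y z : R) : (x + y - z) * (x + y - z) =
    (x * y + y * x) + x * x + y * y + z * z - (x * z + z * x) - (y * z + z * y) := by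
  noncomm_ring

lemma ring_id3 {R : Type*} [Ring R] (x y z x' y' z' : R) :
    (x + y - z) * (x' + y' - z') + (x' + y' - z') * (x + y - z) =
      (x * x' + x' * x) + (x * y' + y' * x) + (y * x' + x' * y) + (y * y' + y' * y) -
      (x * z' + z' * x) - (y * z' + z' * y) - (x' * z + z * x') - (y' * z + z * y') +
      (z * z' + z' * z) := by noncomm_ring

/-- the part of the differential in the directions of the central generators -/
noncomputable def dA : PP B L I →ₗ[B] PP B L I := ∑ l, K.dl l

/-- the part of the differential belonging to a pair of odd generators -/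
noncomputable def dG (i : I) : PP B L I →ₗ[B] PP B L I :=
  K.dw (Sum.inl i) + K.dw (Sum.inr i) - ∑ l, K.dh i l

/-- the differential -/
noncomputable def d : PP B L I →ₗ[B] PP B L I := K.dA + ∑ i, K.dG i

lemma dA_dA : K.dA * K.dA = 0 :=
  sum_sq (R := Module.End B (PP B L I)) univ K.dl K.dl_dl fun _ _ h => K.dl_dl_anti h

omit [Fintype L] [LinearOrder L] [Fintype I] [DecidableEq I] in
lemma rm_sum {ι : Type*} (s : Finset ι) (f : ι → B) :
    (rm (∑ i ∈ s, f i) : PP B L I →ₗ[B] PP B L I) = ∑ i ∈ s, rm (f i) := by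
  ext1 z
  funext t
  simp only [LinearMap.sum_apply, Finset.sum_apply]
  change z t * _ = ∑ i ∈ s, z t * f i
  rw [mul_sum]

lemma dA_dw (a : I ⊕ I) : K.dA * K.dw a + K.dw a * K.dA = 0 := by
  rw [add_comm]
  exact sum_anti (R := Module.End B (PP B L I)) univ K.dl (K.dw a) fun l _ => by
    rw [add_comm]; exact K.dl_dw l a

lemma dA_sum_dh (i : I) : K.dA * (∑ l, K.dh i l) + (∑ l, K.dh i l) * K.dA =
    rm (K.q i) * (sh2 i : PP B L I →ₗ[B] PP B L I) := by
  classical
  have h1 : ∀ m, K.dl m * (∑ l, K.dh i l) + (∑ l, K.dh i l) * K.dl m =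
      rm ((K.v m - 1) * K.co i m) * (sh2 i : PP B L I →ₗ[B] PP B L I) := by
    intro m
    rw [← Finset.add_sum_erase univ (K.dh i) (mem_univ m)]
    have := sum_anti (R := Module.End B (PP B L I)) (univ.erase m) (K.dh i) (K.dl m)
      (fun l hl => K.dl_dh (Finset.ne_of_mem_erase hl).symm i)
    have h2 := K.dl_dh_same m i
    calc K.dl m * (K.dh i m + ∑ x ∈ univ.erase m, K.dh i x) +
        (K.dh i m + ∑ x ∈ univ.erase m, K.dh i x) * K.dl m =
        (K.dl m * K.dh i m + K.dh i m * K.dl m) +
        (K.dl m * (∑ x ∈ univ.erase m, K.dh i x) + (∑ x ∈ univ.erase m, K.dh i x) * K.dl m) := by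
          noncomm_ring
      _ = _ := by rw [this, h2, add_zero]
  rw [dA, K.q_eq, rm_sum, sum_mul, mul_sum, ← sum_add_distrib]
  rw [sum_mul]
  exact sum_congr rfl fun m _ => h1 m

lemma dA_dG (i : I) : K.dA * K.dG i + K.dG i * K.dA =
    - (rm (K.q i) * (sh2 i : PP B L I →ₗ[B] PP B L I)) := by
  have h1 := K.dA_dw (Sum.inl i)
  have h2 := K.dA_dw (Sum.inr i)
  have h3 := K.dA_sum_dh i
  rw [← h3, dG]
  refine (ring_id1 (R := Module.End B (PP B L I)) _ _ _ _).trans ?_
  rw [h1, h2]
  simp

lemma dw_sum_dh (a : I ⊕ I) (i : I) :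
    K.dw a * (∑ l, K.dh i l) + (∑ l, K.dh i l) * K.dw a = 0 :=
  sum_anti (R := Module.End B (PP B L I)) univ (K.dh i) (K.dw a) fun l _ => K.dw_dh a l i

lemma sum_dh_sum_dh (i j : I) :
    (∑ l, K.dh i l) * (∑ l, K.dh j l) + (∑ l, K.dh j l) * (∑ l, K.dh i l) = 0 := by
  refine sum_anti (R := Module.End B (PP B L I)) univ (K.dh j) (∑ l, K.dh i l) fun l _ => ?_
  rw [add_comm]
  refine sum_anti (R := Module.End B (PP B L I)) univ (K.dh i) (K.dh j l) fun m _ => ?_
  by_cases h : l = m
  · subst h
    rw [K.dh_dh_same, K.dh_dh_same, add_zero]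
  · exact K.dh_dh h j i

lemma sum_dh_sq (i : I) : (∑ l, K.dh i l) * (∑ l, K.dh i l) = 0 :=
  sum_sq (R := Module.End B (PP B L I)) univ (K.dh i) (fun l => K.dh_dh_same l i i)
    fun _ _ h => K.dh_dh h i i

lemma dG_sq (i : I) : K.dG i * K.dG i = rm (K.q i) * (sh2 i : PP B L I →ₗ[B] PP B L I) := by
  rw [← K.dw_pair, dG]
  refine (ring_id2 (R := Module.End B (PP B L I)) _ _ _).trans ?_
  rw [K.dw_dw, K.dw_dw, sum_dh_sq, dw_sum_dh, dw_sum_dh]
  simp

lemma dG_dG {i j : I} (h : i ≠ j) : K.dG i * K.dG j + K.dG j * K.dG i = 0 := by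
  have h1 : K.dw (Sum.inl i) * K.dw (Sum.inl j) + K.dw (Sum.inl j) * K.dw (Sum.inl i) = 0 :=
    K.dw_dw_anti (by simpa using h) (by simp)
  have h2 : K.dw (Sum.inl i) * K.dw (Sum.inr j) + K.dw (Sum.inr j) * K.dw (Sum.inl i) = 0 :=
    K.dw_dw_anti (by simp) (by simpa using h)
  have h3 : K.dw (Sum.inr i) * K.dw (Sum.inl j) + K.dw (Sum.inl j) * K.dw (Sum.inr i) = 0 :=
    K.dw_dw_anti (by simp) (by simpa using h)
  have h4 : K.dw (Sum.inr i) * K.dw (Sum.inr j) + K.dw (Sum.inr j) * K.dw (Sum.inr i) = 0 :=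
    K.dw_dw_anti (by simpa using h) (by simp)
  have h5 := K.dw_sum_dh (Sum.inl i) j
  have h6 := K.dw_sum_dh (Sum.inr i) j
  have h7 := K.dw_sum_dh (Sum.inl j) i
  have h8 := K.dw_sum_dh (Sum.inr j) i
  have h9 := K.sum_dh_sum_dh i j
  rw [dG, dG]
  generalize K.dw (Sum.inl i) = x at *
  generalize K.dw (Sum.inr i) = y at *
  generalize K.dw (Sum.inl j) = x' at *
  generalize K.dw (Sum.inr j) = y' at *
  generalize ∑ l, K.dh i l = z at *
  generalize ∑ l, K.dh j l = z' at *
  refine (ring_id3 (R := Module.End B (PP B L I)) _ _ _ _ _ _).trans ?_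
  rw [h1, h2, h3, h4, h5, h6, h7, h8, h9]
  simp

lemma d_d : K.d * K.d = 0 := by
  classical
  have key : ∀ s : Finset I, (K.dA + ∑ i ∈ s, K.dG i) * (K.dA + ∑ i ∈ s, K.dG i) = 0 := by
    intro s
    induction s using Finset.induction_on with
    | empty => simp [K.dA_dA]
    | insert j s hj ih =>
      rw [sum_insert hj]
      have h1 := sum_anti (R := Module.End B (PP B L I)) s K.dG (K.dG j)
        (fun i hi => K.dG_dG (by rintro rfl; exact hj hi))
      have h2 := K.dA_dG j
      have h3 := K.dG_sq j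
      calc (K.dA + (K.dG j + ∑ i ∈ s, K.dG i)) * (K.dA + (K.dG j + ∑ i ∈ s, K.dG i)) =
          (K.dA + ∑ i ∈ s, K.dG i) * (K.dA + ∑ i ∈ s, K.dG i) +
          (K.dA * K.dG j + K.dG j * K.dA) + K.dG j * K.dG j +
          (K.dG j * (∑ i ∈ s, K.dG i) + (∑ i ∈ s, K.dG i) * K.dG j) := by noncomm_ring
        _ = 0 := by rw [ih, h1, h2, h3]; simp
  exact key univ

/-! ### Homotopies -/

/-- homotopy in the direction of an odd generator -/
noncomputable def et (a : I ⊕ I) : PP B L I →+ PP B L I where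
  toFun z t := if t (vw a) = 0 then 0 else sg (eL t) • K.tau a (z (t - ee (vw a)))
  map_zero' := by
    funext t
    simp
  map_add' z z' := by
    funext t
    by_cases h : t (vw a) = 0 <;> simp [h]

/-- homotopy in the direction of a central generator -/
noncomputable def es (l : L) : PP B L I →+ PP B L I where
  toFun z t := if t (vl l) = 0 then 0 else
    if Odd (t (vl l)) then sg (sL l t) • K.s l (z (t - ee (vl l)))
    else sg (sL l t) • K.s' l (z (t - ee (vl l)))
  map_zero' := by
    funext t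
    simp
  map_add' z z' := by
    funext t
    by_cases h : t (vl l) = 0
    · simp [h]
    · by_cases h' : Odd (t (vl l)) <;> simp [h, h']

lemma et_apply (a : I ⊕ I) (z : PP B L I) (t : Idx L I) : K.et a z t =
    if t (vw a) = 0 then 0 else sg (eL t) • K.tau a (z (t - ee (vw a))) := rfl

lemma et_apply_add (a : I ⊕ I) (z : PP B L I) (t : Idx L I) : K.et a z (t + ee (vw a)) =
    sg (eL t) • K.tau a (z t) := by
  rw [et_apply, if_neg (by rw [add_ee_same]; omega), add_tsub_cancel_right, eL_add_w]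

lemma es_apply (l : L) (z : PP B L I) (t : Idx L I) : K.es l z t =
    if t (vl l) = 0 then 0 else
    if Odd (t (vl l)) then sg (sL l t) • K.s l (z (t - ee (vl l)))
    else sg (sL l t) • K.s' l (z (t - ee (vl l))) := rfl

lemma dl_et (l : L) (a : I ⊕ I) (z : PP B L I) (t : Idx L I) :
    K.dl l (K.et a z) (t + ee (vw a)) + K.et a (K.dl l z) (t + ee (vw a)) = 0 := by
  rw [dl_apply, add_right_comm t, et_apply_add, et_apply_add, dl_apply, map_zsmul, K.tau_cf,
    sL_add_w, eL_add_l, sg_add_one, add_ee_ne _ (w := vw a) (w' := vl l) (by simp),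
    smul_mul_assoc, smul_smul, smul_smul, mul_neg, neg_smul, mul_comm]
  exact neg_add_cancel _

lemma dw_et_same (a : I ⊕ I) (z : PP B L I) (t : Idx L I) :
    K.dw a (K.et a z) (t + ee (vw a)) + K.et a (K.dw a z) (t + ee (vw a)) =
      z (t + ee (vw a)) := by
  rw [dw_apply, et_apply_add, et_apply_add, dw_apply, map_zsmul, K.tau_same,
    eL_add_w, smul_mul_assoc, smul_smul, smul_smul, sg_mul_self, one_smul, one_smul]
  abel

lemma dw_et {a b : I ⊕ I} (h : a ≠ b) (z : PP B L I) (t : Idx L I) :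
    K.dw b (K.et a z) (t + ee (vw a)) + K.et a (K.dw b z) (t + ee (vw a)) = 0 := by
  rw [dw_apply, add_right_comm t, et_apply_add, et_apply_add, dw_apply, map_zsmul,
    K.tau_diff a b h, eL_add_w, eL_add_w, smul_mul_assoc, smul_smul, smul_smul, sg_mul_self,
    one_smul, one_smul]
  exact add_neg_cancel _

lemma dh_et (i : I) (l : L) (a : I ⊕ I) (z : PP B L I) (t : Idx L I) :
    K.dh i l (K.et a z) (t + ee (vw a)) + K.et a (K.dh i l z) (t + ee (vw a)) = 0 := by
  rw [dh_apply, et_apply_add, dh_apply, add_ee_ne _ (w := vw a) (w' := vl l) (by simp)]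
  by_cases ho : Odd (t (vl l))
  · obtain ⟨t, rfl⟩ := exists_eq_add_ee t (vl l) (by intro h0; simp [h0] at ho)
    have e1 : t + ee (vl l) + ee (vw a) - ee (vl l) + ee (vw (Sum.inl i)) +
        ee (vw (Sum.inr i)) = t + ee (vw (Sum.inl i)) + ee (vw (Sum.inr i)) + ee (vw a) := by
      rw [add_right_comm t, add_tsub_cancel_right]
      abel
    rw [if_pos ho, if_pos ho, e1, add_tsub_cancel_right, et_apply_add, map_zsmul,
      K.tau_co, eL_add_w, eL_add_w, eL_add_l, sg_add_one, sL_add_w, sL_self,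
      smul_mul_assoc, smul_smul, smul_smul, neg_mul, neg_smul, mul_comm (sg (eL t))]
    exact add_neg_cancel _
  · rw [if_neg ho, if_neg ho]
    simp

lemma d_apply (z : PP B L I) (t : Idx L I) : K.d z t = (∑ l, K.dl l z t) +
    ∑ i, (K.dw (Sum.inl i) z t + K.dw (Sum.inr i) z t - ∑ l, K.dh i l z t) := by
  simp [d, dA, dG, LinearMap.sum_apply, Finset.sum_apply]

lemma d_eq (z : PP B L I) : K.d z = (∑ l, K.dl l z) +
    ∑ i, (K.dw (Sum.inl i) z + K.dw (Sum.inr i) z - ∑ l, K.dh i l z) := by
  funext t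
  simp [d_apply]

lemma d_et (a : I ⊕ I) (z : PP B L I) (t : Idx L I) :
    K.d (K.et a z) (t + ee (vw a)) + K.et a (K.d z) (t + ee (vw a)) = z (t + ee (vw a)) := by
  rw [d_apply, K.d_eq z]
  simp only [map_add, map_sum, map_sub, Pi.add_apply, Finset.sum_apply, Pi.sub_apply]
  have h1 : (∑ l, K.dl l (K.et a z) (t + ee (vw a))) +
      (∑ l, K.et a (K.dl l z) (t + ee (vw a))) = 0 := by
    rw [← sum_add_distrib]
    exact sum_eq_zero fun l _ => K.dl_et l a z t
  have h2 : ∀ i, (∑ l, K.dh i l (K.et a z) (t + ee (vw a))) +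
      (∑ l, K.et a (K.dh i l z) (t + ee (vw a))) = 0 := by
    intro i
    rw [← sum_add_distrib]
    exact sum_eq_zero fun l _ => K.dh_et i l a z t
  have h3 : (∑ i, (K.dw (Sum.inl i) (K.et a z) (t + ee (vw a)) +
      K.dw (Sum.inr i) (K.et a z) (t + ee (vw a)) - ∑ l, K.dh i l (K.et a z) (t + ee (vw a)))) +
      (∑ i, (K.et a (K.dw (Sum.inl i) z) (t + ee (vw a)) +
      K.et a (K.dw (Sum.inr i) z) (t + ee (vw a)) - ∑ l, K.et a (K.dh i l z) (t + ee (vw a)))) =
      z (t + ee (vw a)) := by
    rw [← sum_add_distrib]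
    have h4 : ∀ i, (K.dw (Sum.inl i) (K.et a z) (t + ee (vw a)) +
      K.dw (Sum.inr i) (K.et a z) (t + ee (vw a)) - ∑ l, K.dh i l (K.et a z) (t + ee (vw a))) +
      (K.et a (K.dw (Sum.inl i) z) (t + ee (vw a)) +
      K.et a (K.dw (Sum.inr i) z) (t + ee (vw a)) - ∑ l, K.et a (K.dh i l z) (t + ee (vw a))) =
      (K.dw (Sum.inl i) (K.et a z) (t + ee (vw a)) + K.et a (K.dw (Sum.inl i) z) (t + ee (vw a))) +
      (K.dw (Sum.inr i) (K.et a z) (t + ee (vw a)) +
        K.et a (K.dw (Sum.inr i) z) (t + ee (vw a))) := by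
      intro i
      have := h2 i
      rw [eq_comm, ← sub_eq_zero, ← neg_eq_zero]
      rw [← sub_eq_zero] at this
      rw [← neg_eq_zero] at this
      rw [← this]
      abel
    rw [sum_congr rfl fun i _ => h4 i]
    rcases a with j | j
    · rw [Finset.sum_eq_single j]
      · rw [K.dw_et_same, K.dw_et (by simp), add_zero]
      · intro b _ hb
        rw [K.dw_et (by simpa using hb.symm), K.dw_et (by simp), add_zero]
      · simp
    · rw [Finset.sum_eq_single j]
      · rw [K.dw_et_same, K.dw_et (by simp), zero_add]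
      · intro b _ hb
        rw [K.dw_et (by simp), K.dw_et (by simpa using hb.symm), add_zero]
      · simp
  rw [add_add_add_comm, h1, h3, zero_add]

lemma es_apply_add (l : L) (z : PP B L I) (t : Idx L I) : K.es l z (t + ee (vl l)) =
    if Even (t (vl l)) then sg (sL l t) • K.s l (z t) else sg (sL l t) • K.s' l (z t) := by
  rw [es_apply, if_neg (by rw [add_ee_same]; omega), add_tsub_cancel_right, sL_self, add_ee_same]
  by_cases h : Even (t (vl l))
  · rw [if_pos (by rw [Nat.odd_add_one, Nat.not_odd_iff_even]; exact h), if_pos h]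
  · rw [if_neg (by rw [Nat.odd_add_one, Nat.not_odd_iff_even]; exact h), if_neg h]

lemma dl_es_same (l : L) (z : PP B L I) (t : Idx L I) :
    K.dl l (K.es l z) (t + ee (vl l)) + K.es l (K.dl l z) (t + ee (vl l)) =
      z (t + ee (vl l)) := by
  rw [dl_apply, es_apply_add, es_apply_add, dl_apply, add_ee_same, sL_self]
  by_cases h : Even (t (vl l))
  · have h' : ¬ Even (t (vl l) + 1) := by rw [Nat.even_add_one]; exact fun h' => h' h
    rw [if_pos h, if_neg h', map_zsmul, smul_mul_assoc, smul_smul, smul_smul, sg_mul_self,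
      one_smul, one_smul, cf, cf, if_neg h', if_pos h]
    exact K.s'_eq l _
  · have h' : Even (t (vl l) + 1) := by rw [Nat.even_add_one]; exact h
    rw [if_neg h, if_pos h', map_zsmul, smul_mul_assoc, smul_smul, smul_smul, sg_mul_self,
      one_smul, one_smul, cf, cf, if_pos h', if_neg h]
    exact K.s_eq l _

lemma dl_es {l m : L} (h : l ≠ m) (z : PP B L I) (t : Idx L I) :
    K.dl m (K.es l z) (t + ee (vl l)) + K.es l (K.dl m z) (t + ee (vl l)) = 0 := by
  have hsg : ∀ x : B, (sg (sL m (t + ee (vl l))) * sg (sL l (t + ee (vl m)))) • x +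
      (sg (sL l t) * sg (sL m t)) • x = 0 := by
    intro x
    rcases lt_or_gt_of_ne h with hml | hml
    · rw [sL_add_lt hml, sL_add_not_lt (not_lt.mpr hml.le), sg_add_one, neg_mul, neg_smul, mul_comm]
      exact neg_add_cancel _
    · rw [sL_add_lt hml, sL_add_not_lt (not_lt.mpr hml.le), sg_add_one, mul_neg, neg_smul, mul_comm]
      exact neg_add_cancel _
  rw [dl_apply, add_right_comm t, es_apply_add, es_apply_add, dl_apply,
    add_ee_ne _ (w := vl m) (w' := vl l) (by simp [vl, h.symm]),
    add_ee_ne _ (w := vl l) (w' := vl m) (by simp [vl, h])]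
  by_cases h1 : Even (t (vl l))
  · rw [if_pos h1, if_pos h1, map_zsmul, K.comm_cf_of (K.s_v l m h), smul_mul_assoc, smul_smul,
      smul_smul]
    exact hsg _
  · rw [if_neg h1, if_neg h1, map_zsmul, K.comm_cf_of (K.s'_v l m h), smul_mul_assoc, smul_smul,
      smul_smul]
    exact hsg _

lemma dA_apply (z : PP B L I) (t : Idx L I) : K.dA z t = ∑ l, K.dl l z t := by
  simp [dA, LinearMap.sum_apply, Finset.sum_apply]

lemma dA_eq (z : PP B L I) : K.dA z = ∑ l, K.dl l z := by
  simp [dA, LinearMap.sum_apply]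

lemma dA_es (l : L) (z : PP B L I) (t : Idx L I) :
    K.dA (K.es l z) (t + ee (vl l)) + K.es l (K.dA z) (t + ee (vl l)) = z (t + ee (vl l)) := by
  classical
  rw [dA_apply, K.dA_eq z, map_sum, Finset.sum_apply, ← sum_add_distrib,
    Finset.sum_eq_single l]
  · exact K.dl_es_same l z t
  · intro m _ hm
    exact K.dl_es hm.symm z t
  · simp

/-- vanishing on all indices with a positive exponent of `w` -/
def supp1 (w : Var L I) (z : PP B L I) : Prop := ∀ t, t w ≠ 0 → z t = 0

omit [Fintype L] [LinearOrder L] [Fintype I] [DecidableEq I] in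
lemma supp1_sub {w : Var L I} {z z' : PP B L I} (h : supp1 w z) (h' : supp1 w z') :
    supp1 w (z - z') := by
  intro t ht
  rw [Pi.sub_apply, h t ht, h' t ht, sub_zero]

omit [Fintype L] [LinearOrder L] [Fintype I] [DecidableEq I] in
lemma add_ee_apply_ne_zero (t : Idx L I) (w w' : Var L I) (h : t w ≠ 0) : (t + ee w') w ≠ 0 := by
  rw [Finsupp.add_apply]
  omega

lemma supp1_dl {w : Var L I} {z : PP B L I} (h : supp1 w z) (l : L) : supp1 w (K.dl l z) := by
  intro t ht
  rw [dl_apply, h _ (add_ee_apply_ne_zero t w _ ht)]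
  simp

lemma supp1_dw {w : Var L I} {z : PP B L I} (h : supp1 w z) (a : I ⊕ I) :
    supp1 w (K.dw a z) := by
  intro t ht
  rw [dw_apply, h _ (add_ee_apply_ne_zero t w _ ht)]
  simp

lemma supp1_dh {a : I ⊕ I} {z : PP B L I} (h : supp1 (vw a) z) (i : I) (l : L) :
    supp1 (vw a) (K.dh i l z) := by
  intro t ht
  rw [dh_apply]
  by_cases ho : Odd (t (vl l))
  · obtain ⟨t, rfl⟩ := exists_eq_add_ee t (vl l) (by intro h0; simp [h0] at ho)
    rw [if_pos ho, add_tsub_cancel_right, h, zero_mul, smul_zero]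
    rw [add_ee_ne _ (w := vl l) (w' := vw a) (by simp)] at ht
    exact add_ee_apply_ne_zero _ _ _ (add_ee_apply_ne_zero _ _ _ ht)
  · rw [if_neg ho]

lemma supp1_d {a : I ⊕ I} {z : PP B L I} (h : supp1 (vw a) z) : supp1 (vw a) (K.d z) := by
  intro t ht
  rw [d_apply, sum_eq_zero (fun l _ => K.supp1_dl h l t ht), zero_add]
  refine sum_eq_zero fun i _ => ?_
  rw [K.supp1_dw h _ t ht, K.supp1_dw h _ t ht,
    sum_eq_zero (fun l _ => K.supp1_dh h i l t ht)]
  simp

lemma supp1_dA {w : Var L I} {z : PP B L I} (h : supp1 w z) : supp1 w (K.dA z) := by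
  intro t ht
  rw [dA_apply]
  exact sum_eq_zero (fun l _ => K.supp1_dl h l t ht)

lemma supp1_et {w : Var L I} {z : PP B L I} (h : supp1 w z) (a : I ⊕ I) (hw : vw a ≠ w) :
    supp1 w (K.et a z) := by
  intro t ht
  by_cases h0 : t (vw a) = 0
  · rw [et_apply, if_pos h0]
  · obtain ⟨t, rfl⟩ := exists_eq_add_ee t (vw a) h0
    rw [et_apply_add, h, map_zero, smul_zero]
    rwa [add_ee_ne _ hw] at ht

lemma supp1_es {w : Var L I} {z : PP B L I} (h : supp1 w z) (l : L) (hw : vl l ≠ w) :
    supp1 w (K.es l z) := by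
  intro t ht
  by_cases h0 : t (vl l) = 0
  · rw [es_apply, if_pos h0]
  · obtain ⟨t, rfl⟩ := exists_eq_add_ee t (vl l) h0
    rw [es_apply_add, h, map_zero, map_zero, smul_zero, ite_self]
    rwa [add_ee_ne _ hw] at ht

lemma d_d_apply (z : PP B L I) : K.d (K.d z) = 0 := LinearMap.congr_fun K.d_d z

/-- On functions supported in W-degree zero the differential is the simple one. -/
lemma d_eq_dA {z : PP B L I} (h : ∀ a : I ⊕ I, supp1 (vw a) z) : K.d z = K.dA z := by
  funext t
  rw [d_apply, dA_apply, add_eq_left]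
  refine sum_eq_zero fun i _ => ?_
  have h1 : ∀ a : I ⊕ I, K.dw a z t = 0 := by
    intro a
    rw [dw_apply, h a _ (by rw [add_ee_same]; omega)]
    simp
  have h2 : ∀ l, K.dh i l z t = 0 := by
    intro l
    rw [dh_apply, h (Sum.inr i) _ (by rw [add_ee_same]; omega)]
    simp
  rw [h1, h1, sum_eq_zero fun l _ => h2 l]
  simp

lemma exists_W (z : PP B L I) (hz : K.d z = 0) :
    ∃ y, ∀ a : I ⊕ I, supp1 (vw a) (z - K.d y) := by
  classical
  have key : ∀ s : Finset (I ⊕ I), ∃ y, ∀ a ∈ s, supp1 (vw a) (z - K.d y) := by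
    intro s
    induction s using Finset.induction_on with
    | empty => exact ⟨0, by simp⟩
    | insert a s ha ih =>
      obtain ⟨y, hy⟩ := ih
      set z' := z - K.d y with hz'
      have hdz' : K.d z' = 0 := by rw [hz', map_sub, hz, K.d_d_apply, sub_zero]
      refine ⟨y + K.et a z', ?_⟩
      intro b hb
      rw [map_add, ← sub_sub, ← hz']
      rcases Finset.mem_insert.mp hb with rfl | hb
      · intro t ht
        obtain ⟨t, rfl⟩ := exists_eq_add_ee t (vw b) ht
        have := K.d_et b z' t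
        rw [hdz', map_zero, Pi.zero_apply, add_zero] at this
        rw [Pi.sub_apply, this, sub_self]
      · refine supp1_sub (hy b hb) (K.supp1_d (K.supp1_et (hy b hb) a ?_))
        simp only [vw, ne_eq, Sum.inr.injEq]
        rintro rfl
        exact ha hb
  obtain ⟨y, hy⟩ := key univ
  exact ⟨y, fun a => hy a (mem_univ a)⟩

lemma exists_L (z : PP B L I) (hz : K.d z = 0) (hW : ∀ a : I ⊕ I, supp1 (vw a) z) :
    ∃ y, (∀ a : I ⊕ I, supp1 (vw a) (z - K.d y)) ∧ ∀ l : L, supp1 (vl l) (z - K.d y) := by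
  classical
  have key : ∀ s : Finset L, ∃ y, (∀ a : I ⊕ I, supp1 (vw a) (z - K.d y)) ∧
      ∀ l ∈ s, supp1 (vl l) (z - K.d y) := by
    intro s
    induction s using Finset.induction_on with
    | empty => exact ⟨0, by simpa using hW⟩
    | insert l s hl ih =>
      obtain ⟨y, hyW, hy⟩ := ih
      set z' := z - K.d y with hz'
      have hdz' : K.d z' = 0 := by rw [hz', map_sub, hz, K.d_d_apply, sub_zero]
      have hesW : ∀ a, supp1 (vw a) (K.es l z') := fun a => K.supp1_es (hyW a) l (by simp)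
      refine ⟨y + K.es l z', ?_, ?_⟩
      · intro a
        rw [map_add, ← sub_sub, ← hz']
        exact supp1_sub (hyW a) (K.supp1_d (hesW a))
      · intro m hm
        rw [map_add, ← sub_sub, ← hz', K.d_eq_dA hesW]
        rcases Finset.mem_insert.mp hm with rfl | hm
        · intro t ht
          obtain ⟨t, rfl⟩ := exists_eq_add_ee t (vl m) ht
          have := K.dA_es m z' t
          rw [← K.d_eq_dA hyW, hdz', map_zero, Pi.zero_apply, add_zero] at this
          rw [Pi.sub_apply, this, sub_self]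
        · refine supp1_sub (hy m hm) (K.supp1_dA (K.supp1_es (hy m hm) l ?_))
          simp only [vl, ne_eq, Sum.inl.injEq]
          rintro rfl
          exact hl hm
  obtain ⟨y, hyW, hy⟩ := key univ
  exact ⟨y, hyW, fun a => hy a (mem_univ a)⟩

/-- Exactness away from degree zero. -/
theorem exists_primitive (z : PP B L I) (hz : K.d z = 0) :
    ∃ y, ∀ t, t ≠ 0 → (z - K.d y) t = 0 := by
  obtain ⟨y, hy⟩ := K.exists_W z hz
  obtain ⟨y', hW, hL⟩ := K.exists_L (z - K.d y) (by rw [map_sub, hz, K.d_d_apply, sub_zero]) hy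
  refine ⟨y + y', fun t ht => ?_⟩
  rw [map_add, ← sub_sub]
  obtain ⟨w, hw⟩ : ∃ w, t w ≠ 0 := by
    by_contra h
    push Not at h
    exact ht (Finsupp.ext h)
  rcases w with l | a
  · exact hL l t hw
  · exact hW a t hw

end KD

end Pool.Agent.H170_FG
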