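import Pool.Agent.H170_FG.Fam
import Pool.Agent.H170_FG.Res

/-!
# Finite generation of cohomology for the algebras of `KD`
-/

universe u

open Finset CategoryTheory DirectSum

namespace Pool.Agent.H170_FG

/-- The trivial module of an augmented algebra. -/
noncomputable def trivMod {k : Type u} [Field k] {B : Type u} [Ring B] [Algebra k B]
    (eps : B →ₐ[k] k) : ModuleCat.{u} B :=
  (ModuleCat.restrictScalars (eps : B →+* k)).obj (ModuleCat.of k k)

/-- The finite generation property of an augmented algebra `B`: with `k` the trivial module,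
the algebra `Ext^•_B(k, k)` is finitely generated and `Ext^•_B(k, M)` is a finitely generated
module over it for every finitely generated `B`-module `M`. -/
def FGC (k : Type u) [Field k] {B : Type u} [Ring B] [Algebra k B] (eps : B →ₐ[k] k) : Prop :=
  Algebra.FiniteType k (⨁ n : ℕ, EndExt.{u} (trivMod eps) n) ∧
  ∀ M : ModuleCat.{u} B, Module.Finite B M →
    Module.Finite (⨁ n : ℕ, EndExt.{u} (trivMod eps) n) (⨁ n : ℕ, HomExt.{u} (trivMod eps) M n)

/-- An augmentation for the algebras of `KD`, and an exponent. -/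
structure KDA (k : Type u) [Field k] (B : Type u) [Ring B] [Algebra k B] (L I : Type)
    [Fintype L] [LinearOrder L] [Fintype I] [DecidableEq I] (C : Type*) [CommGroup C] extends
    KD k B L I C where
  eps : B →ₐ[k] k
  eps_w : ∀ a, eps (w a) = 0
  eps_v : ∀ l, eps (v l) = 1
  eps_e : eps (e 1) = 1
  span : ∀ b, eps b = 0 → ∃ (bw : I ⊕ I → B) (bl : L → B),
    b * e 1 = ∑ l, bl l * (v l - 1) + ∑ a, bw a * w a
  M0 : ℕ
  M0_ne : M0 ≠ 0
  wt_pow : ∀ a, wt a ^ (2 * M0) = 1

namespace KDA

open KD (PP)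

variable {k : Type u} [Field k] {B : Type u} [Ring B] [Algebra k B] {L I : Type}
    [Fintype L] [LinearOrder L] [Fintype I] [DecidableEq I] {C : Type*} [CommGroup C]
    (K : KDA k B L I C)

/-- weight of an exponent vector -/
def wtt (t : Idx L I) : C := ∏ a, K.wt a ^ t (vw a)

lemma wtt_add (t s : Idx L I) : K.wtt (t + s) = K.wtt t * K.wtt s := by
  simp [wtt, pow_add, prod_mul_distrib]

lemma wtt_ee_l (l : L) : K.wtt (ee (vl l)) = 1 := by
  simp [wtt]

lemma wtt_single_w (a : I ⊕ I) (n : ℕ) : K.wtt (Finsupp.single (vw a) n) = K.wt a ^ n := by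
  classical
  rw [wtt, Finset.prod_eq_single a]
  · simp
  · intro b _ hb
    rw [Finsupp.single_apply, if_neg (by simpa using hb.symm), pow_zero]
  · simp

lemma wtt_single_l (l : L) (n : ℕ) : K.wtt (Finsupp.single (vl l) n) = 1 := by
  simp [wtt]

lemma wtt_ee_w (a : I ⊕ I) : K.wtt (ee (vw a)) = K.wt a := by
  rw [ee, wtt_single_w, pow_one]

lemma wtt_zero : K.wtt 0 = 1 := by simp [wtt]

/-- the idempotents belonging to the weights -/
def ff (t : Idx L I) : B := K.e (K.wtt t)

lemma ff_idem (t : Idx L I) : K.ff t * K.ff t = K.ff t := K.e_idem _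

lemma ff_lam (w : Var L I) (t : Idx L I) :
    K.ff (t + Finsupp.single w (2 * K.M0)) = K.ff t := by
  rw [ff, wtt_add]
  rcases w with l | a
  · rw [wtt_single_l, mul_one]; rfl
  · rw [wtt_single_w, K.wt_pow, mul_one]; rfl

lemma d_phi (z : PP B L I) : K.d (phi K.ff z) = phi K.ff (K.d z) := by
  funext t
  rw [phi_apply, K.d_apply, K.d_apply, add_mul, sum_mul, sum_mul]
  congr 1
  · refine sum_congr rfl fun l _ => ?_
    rw [K.dl_apply, K.dl_apply, phi_apply, smul_mul_assoc, mul_assoc, mul_assoc, ff, wtt_add,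
      wtt_ee_l, mul_one, K.cf_central]
    rfl
  · refine sum_congr rfl fun i _ => ?_
    rw [sub_mul, add_mul, sum_mul]
    have h1 : ∀ a, K.dw a (phi K.ff z) t = K.dw a z t * K.ff t := by
      intro a
      rw [K.dw_apply, K.dw_apply, phi_apply, smul_mul_assoc, mul_assoc, mul_assoc, ff, wtt_add,
        wtt_ee_w, ff, K.w_e, mul_comm (K.wtt t)]
    congr 1
    · rw [h1, h1]
    · refine sum_congr rfl fun l _ => ?_
      rw [K.dh_apply, K.dh_apply]
      by_cases ho : Odd (t (vl l))
      · obtain ⟨t, rfl⟩ := exists_eq_add_ee t (vl l) (by intro h0; simp [h0] at ho)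
        rw [if_pos ho, if_pos ho, add_tsub_cancel_right, phi_apply, smul_mul_assoc, mul_assoc,
          mul_assoc, ff, ff, wtt_add, wtt_add, wtt_add, wtt_ee_w, wtt_ee_w, wtt_ee_l, mul_assoc,
          K.wt_swap, K.co_central]
      · rw [if_neg ho, if_neg ho, zero_mul]

lemma d_hom (n : ℕ) (z : PP B L I) : K.d (hom (n + 1) z) = hom n (K.d z) := by
  funext t
  rw [hom_apply, K.d_apply, K.d_apply]
  have h1 : ∀ w, hom (B := B) (n + 1) z (t + ee w) = if dg t = n then z (t + ee w) else 0 := by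
    intro w
    rw [hom_apply, dg_add, dg_single]
    simp
  have hl : ∀ l, K.dl l (hom (n + 1) z) t = if dg t = n then K.dl l z t else 0 := by
    intro l
    rw [K.dl_apply, h1]
    split_ifs
    · rfl
    · simp
  have hw : ∀ a, K.dw a (hom (n + 1) z) t = if dg t = n then K.dw a z t else 0 := by
    intro l
    rw [K.dw_apply, h1]
    split_ifs
    · rfl
    · simp
  have hh : ∀ i l, K.dh i l (hom (n + 1) z) t = if dg t = n then K.dh i l z t else 0 := by
    intro i l
    rw [K.dh_apply, K.dh_apply]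
    by_cases ho : Odd (t (vl l))
    · obtain ⟨t, rfl⟩ := exists_eq_add_ee t (vl l) (by intro h0; simp [h0] at ho)
      rw [if_pos ho, if_pos ho, add_tsub_cancel_right, hom_apply, dg_add, dg_add, dg_add, dg_single,
        dg_single, dg_single]
      by_cases h : dg t + 1 = n
      · rw [if_pos (by omega), if_pos h]
      · rw [if_neg (by omega), if_neg h]
        simp
    · rw [if_neg ho, if_neg ho, ite_self]
  simp only [hl, hw, hh]
  split_ifs
  · rfl
  · simp

lemma d_mem (n : ℕ) (z : PP B L I) (hz : z ∈ RR K.ff (n + 1)) : K.d z ∈ RR K.ff n := by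
  have h1 : z = phi K.ff (hom (n + 1) z) := by
    funext t
    rw [phi_apply, hom_apply]
    by_cases h : dg t = n + 1
    · rw [if_pos h, (hz t).1]
    · rw [if_neg h, zero_mul, (hz t).2 h]
  rw [h1, d_phi, d_hom]
  exact phi_hom_mem K.ff K.ff_idem n _

lemma phi_hom_eq {n : ℕ} {z : PP B L I} (hz : z ∈ RR K.ff n) : phi K.ff (hom n z) = z := by
  funext t
  rw [phi_apply, hom_apply]
  by_cases h : dg t = n
  · rw [if_pos h, (hz t).1]
  · rw [if_neg h, zero_mul, (hz t).2 h]

lemma exact (n : ℕ) (z : PP B L I) (hz : z ∈ RR K.ff (n + 1)) (hd : K.d z = 0) :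
    ∃ y ∈ RR K.ff (n + 2), K.d y = z := by
  obtain ⟨y, hy⟩ := K.exists_primitive z hd
  refine ⟨phi K.ff (hom (n + 2) y), phi_hom_mem K.ff K.ff_idem _ _, ?_⟩
  rw [d_phi, d_hom]
  rw [← K.phi_hom_eq hz]
  congr 1
  funext t
  rw [hom_apply, hom_apply]
  by_cases h : dg t = n + 1
  · rw [if_pos h, if_pos h]
    have := hy t (by rintro rfl; rw [dg_zero] at h; omega)
    rw [Pi.sub_apply, sub_eq_zero] at this
    exact this.symm
  · rw [if_neg h, if_neg h]

lemma d_zero_apply (z : PP B L I) : K.d z 0 = ∑ l, z (ee (vl l)) * (K.v l - 1) +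
    ∑ a, z (ee (vw a)) * K.w a := by
  rw [K.d_apply]
  have h1 : ∀ l, K.dl l z 0 = z (ee (vl l)) * (K.v l - 1) := by
    intro l
    rw [K.dl_apply, KD.cf, if_pos (by simp), zero_add]
    simp [sL, KD.sg]
  have h2 : ∀ a, K.dw a z 0 = z (ee (vw a)) * K.w a := by
    intro l
    rw [K.dw_apply, zero_add]
    simp [eL, KD.sg]
  have h3 : ∀ i l, K.dh i l z 0 = 0 := by
    intro i l
    rw [K.dh_apply, if_neg (by simp)]
  simp only [h1, h2, h3, Fintype.sum_sum_type, sum_add_distrib, Finset.sum_const_zero, sub_zero]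

/-- augmentation -/
noncomputable def aug : RR K.ff 0 →ₗ[B] trivMod K.eps where
  toFun z := K.eps (z.1 0)
  map_add' z z' := by
    change K.eps (z.1 0 + z'.1 0) = _
    rw [map_add]
    rfl
  map_smul' b z := by
    change K.eps (b * z.1 0) = K.eps b * K.eps (z.1 0)
    rw [map_mul]

lemma aug_surj : Function.Surjective K.aug := by
  intro c
  refine ⟨⟨(algebraMap k B c) • kap K.ff 0, (RR K.ff 0).smul_mem _
    (kap_mem K.ff K.ff_idem dg_zero)⟩, ?_⟩
  change K.eps (algebraMap k B c * kap K.ff 0 0) = c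
  rw [kap_same, map_mul, ff, wtt_zero, K.eps_e, mul_one]
  exact AlgHom.commutes K.eps c

lemma aug_exact (z : RR K.ff 0) (hz : K.aug z = 0) : ∃ y ∈ RR K.ff 1, K.d y = z := by
  classical
  have hz' : K.eps (z.1 0) = 0 := hz
  obtain ⟨bw, bl, hb⟩ := K.span _ hz'
  let y0 : PP B L I := fun t => (∑ l, if t = ee (vl l) then bl l else 0) +
    ∑ a, if t = ee (vw a) then bw a else 0
  have hinj : ∀ w w' : Var L I, (ee w : Idx L I) = ee w' ↔ w = w' := fun w w' =>
    ⟨fun h => Finsupp.single_left_injective one_ne_zero h, fun h => by rw [h]⟩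
  have h1 : ∀ l, y0 (ee (vl l)) = bl l := by
    intro l
    simp only [y0, hinj, vl, vw, Sum.inl.injEq, reduceCtorEq, if_false, Finset.sum_const_zero,
      add_zero, Finset.sum_ite_eq, mem_univ, if_true]
  have h2 : ∀ a, y0 (ee (vw a)) = bw a := by
    intro l
    simp only [y0, hinj, vl, vw, Sum.inr.injEq, reduceCtorEq, if_false, Finset.sum_const_zero,
      zero_add, Finset.sum_ite_eq, mem_univ, if_true]
  refine ⟨phi K.ff (hom 1 y0), phi_hom_mem K.ff K.ff_idem _ _, ?_⟩
  rw [d_phi, K.d_hom 0]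
  rw [← K.phi_hom_eq z.2]
  congr 1
  funext t
  rw [hom_apply, hom_apply]
  by_cases h : dg t = 0
  · rw [if_pos h, if_pos h, dg_eq_zero h, d_zero_apply]
    simp only [h1, h2]
    rw [← hb]
    have := (z.2 0).1
    rw [ff, wtt_zero] at this
    exact this
  · rw [if_neg h, if_neg h]

lemma aug_d (y : PP B L I) (hy : y ∈ RR K.ff 1) : K.aug ⟨K.d y, K.d_mem 0 y hy⟩ = 0 := by
  change K.eps (K.d y 0) = 0
  rw [d_zero_apply]
  simp [K.eps_v, K.eps_w]

/-- the projective resolution of the trivial module -/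
noncomputable def tot : TotRes B (trivMod K.eps) (PP B L I) where
  R := RR K.ff
  d := K.d
  d_mem n x hx := K.d_mem n x hx
  d_d x := K.d_d_apply x
  exact n x hx hd := K.exact n x hx hd
  aug := K.aug
  aug_surj := K.aug_surj
  aug_exact x hx := K.aug_exact x hx
  aug_d y hy := K.aug_d y hy
  proj n := projective_RR K.ff K.ff_idem n

end KDA

end Pool.Agent.H170_FG
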