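import Pool.Agent.H170_FG.Tw9
import Pool.Agent.H170_FG.Concrete

/-!
# The finite generation theorem for the algebras of `TWD`
-/

set_option linter.unusedSectionVars false

universe u

open Finset CategoryTheory DirectSum

namespace Pool.Agent.H170_FG

lemma finite_trivMod {k : Type u} [Field k] {B : Type u} [Ring B] [Algebra k B]
    (eps : B →ₐ[k] k) : Module.Finite B (trivMod eps) := by
  let x1 : trivMod eps := (1 : k)
  refine ⟨⟨{x1}, ?_⟩⟩
  rw [eq_top_iff]
  rintro c -
  have key : ∀ c : k, c = eps (algebraMap k B c) * 1 := by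
    intro c
    rw [mul_one]
    exact (AlgHom.commutes eps c).symm
  have : c = (algebraMap k B c) • x1 := key c
  rw [this]
  exact Submodule.smul_mem _ _ (Submodule.subset_span (by simp))

namespace TWD

variable {k : Type u} [Field k] {R : Type u} [Ring R] [Algebra k R] {L I : Type}
    [Fintype L] [LinearOrder L] [Fintype I] [DecidableEq I] {C : Type} [CommGroup C]
    [Fintype C] [DecidableEq C] (K : TWD k R L I C)

/-- The finite generation property for the algebras of `TWD`. -/
theorem fgc [Module.Finite k R] (eps : R →ₐ[k] k) (A : K.Aug (trivMod eps)) : FGC k eps := by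
  refine ⟨?_, ?_⟩
  · obtain ⟨S, hS⟩ := K.exists_gen A (trivMod eps) (finite_trivMod eps)
    exact CutRes.algebra_finiteType (K.tot A).cut k _ S hS
  · intro M hM
    obtain ⟨S, hS⟩ := K.exists_gen A M hM
    exact CutRes.module_finite (K.tot A).cut k _ M S hS

/-- the augmentation datum of the trivial module -/
def augTriv (eps : R →ₐ[k] k) (he : eps (K.e 1) = 1) (hg : ∀ l, eps (K.g (K.cl l)) = 1)
    (hw : ∀ a, eps (K.w a) = 0)
    (hs : ∀ b : R, eps b = 0 → ∃ (bw : I ⊕ I → R) (bl : L → R),
      b * K.e 1 = ∑ l, bl l * (K.g (K.cl l) - 1) + ∑ a, bw a * K.w a) :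
    K.Aug (trivMod eps) where
  t0 := (1 : k)
  e_t0 := by
    change eps (K.e 1) * (1 : k) = 1
    rw [he, one_mul]
  g_t0 l := by
    change eps _ * (1 : k) = 1
    rw [hg, one_mul]
  w_t0 a := by
    change eps _ * (1 : k) = 0
    rw [hw, zero_mul]
  surj t := ⟨algebraMap k R t, by
    change eps (algebraMap k R t) * (1 : k) = t
    rw [mul_one]
    exact AlgHom.commutes eps t⟩
  span b hb := by
    refine hs b ?_
    have : eps b * (1 : k) = 0 := hb
    rwa [mul_one] at this

end TWD

end Pool.Agent.H170_FG
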