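import Pool.Agent.H170_FG.Hom2
import Pool.Agent.H170_FG.Inst3
import Pool.Agent.H170_FG.Tw10

/-!
# The twisted data of an algebra satisfying the relations
-/

set_option linter.unusedSectionVars false

universe u

open Finset Module

namespace Pool.Agent.H170_FG

section co

variable {C : Type} [CommGroup C] {L : Type} [Fintype L] [DecidableEq L] {m : L → ℕ}
  [∀ l, NeZero (m l)] (ψ : C ≃* Multiplicative (∀ l, ZMod (m l)))

/-- the generator of a cyclic factor -/
def clq (l : L) : C := ψ.symm (Multiplicative.ofAdd (Pi.single l 1))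

/-- group element in the group ring -/
noncomputable abbrev og (c : C) : MonoidAlgebra ℤ C := MonoidAlgebra.of ℤ C c

omit [Fintype L] [DecidableEq L] in
lemma og_mul (c c' : C) : og (c * c') = og c * og c' := map_mul (MonoidAlgebra.of ℤ C) c c'

lemma og_one : og (1 : C) = 1 := map_one (MonoidAlgebra.of ℤ C)

lemma exists_coq (c : C) : ∃ co : L → MonoidAlgebra ℤ C,
    og c - 1 = ∑ l, (og (clq ψ l) - 1) * co l := by
  have hprod : ∀ c c' : C, (∃ co : L → MonoidAlgebra ℤ C, og c - 1 = ∑ l, (og (clq ψ l) - 1) * co l) →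
      (∃ co : L → MonoidAlgebra ℤ C, og c' - 1 = ∑ l, (og (clq ψ l) - 1) * co l) →
      (∃ co : L → MonoidAlgebra ℤ C, og (c * c') - 1 = ∑ l, (og (clq ψ l) - 1) * co l) := by
    rintro c c' ⟨co, h2⟩ ⟨co', h2'⟩
    refine ⟨fun l => co l * og c' + co' l, ?_⟩
    have : (og (c * c') - 1 : MonoidAlgebra ℤ C) = (og c - 1) * og c' + (og c' - 1) := by
      rw [og_mul]
      ring
    rw [this, h2, h2', sum_mul, ← sum_add_distrib]
    refine sum_congr rfl fun l _ => ?_
    ring
  have hone : ∃ co : L → MonoidAlgebra ℤ C, og 1 - 1 = ∑ l, (og (clq ψ l) - 1) * co l :=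
    ⟨fun _ => 0, by rw [og_one]; simp⟩
  have hgen : ∀ (l : L) (i : ℕ), ∃ co : L → MonoidAlgebra ℤ C,
      og (ψ.symm (Multiplicative.ofAdd (i • Pi.single l 1))) - 1 =
        ∑ l, (og (clq ψ l) - 1) * co l := by
    intro l i
    induction i with
    | zero =>
      rw [zero_smul, ofAdd_zero, map_one]
      exact hone
    | succ i ih =>
      rw [succ_nsmul, ofAdd_add, map_mul]
      refine hprod _ _ ih ⟨fun l' => if l' = l then 1 else 0, ?_⟩
      simp [clq]
  have hall : ∀ (s : Finset L) (z : ∀ l, ZMod (m l)), ∃ co : L → MonoidAlgebra ℤ C,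
      og (ψ.symm (Multiplicative.ofAdd (∑ l ∈ s, Pi.single l (z l)))) - 1 =
        ∑ l, (og (clq ψ l) - 1) * co l := by
    intro s z
    induction s using Finset.induction_on with
    | empty =>
      rw [sum_empty, ofAdd_zero, map_one]
      exact hone
    | insert l s hl ih =>
      rw [sum_insert hl, ofAdd_add, map_mul]
      refine hprod _ _ ?_ ih
      have : (Pi.single l (z l) : ∀ l, ZMod (m l)) = (z l).val • Pi.single l 1 := by
        rw [← Pi.single_smul]
        simp
      rw [this]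
      exact hgen l _
  have := hall univ (Multiplicative.toAdd (ψ c))
  rw [Finset.univ_sum_single] at this
  simpa using this

/-- coefficients of `c - 1` -/
noncomputable def coq (c : C) : L → MonoidAlgebra ℤ C := (exists_coq ψ c).choose

lemma coq_eq (c : C) : og c - 1 = ∑ l, (og (clq ψ l) - 1) * coq ψ c l :=
  (exists_coq ψ c).choose_spec

omit [Fintype L] [∀ l, NeZero (m l)] in
lemma clq_pow (l : L) : clq ψ l ^ m l = 1 := by
  rw [clq, ← map_pow, ← ofAdd_nsmul, ← Pi.single_smul, nsmul_one, CharP.cast_eq_zero,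
    Pi.single_zero, ofAdd_zero, map_one]

end co

section

variable {k : Type u} [Field k] {C : Type} [CommGroup C] [Fintype C] [DecidableEq C]
  {n : ℕ} {D : SGrp k C n} {A : Type u} [Ring A] [Algebra k A]
  {e g : C → A} {x t : Fin n → A}

namespace Rels2

section YQ

variable (D)

/-- the characters on which the bracket vanishes -/
def Y : Subgroup C where
  carrier := {c | ∀ i j, D.β i j c = 0}
  mul_mem' {a b} ha hb i j := by rw [D.β_mul, ha i j, hb i j, add_zero]
  one_mem' i j := D.β_one i j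
  inv_mem' {a} ha i j := by rw [D.β_inv, ha i j, neg_zero]

lemma mem_Y {c : C} : c ∈ Y D ↔ ∀ i j, D.β i j c = 0 := Iff.rfl

lemma χ_mem_Y (i : Fin n) : D.χ i ∈ Y D := fun j l => D.β_χ j l i

lemma ga_Y {c : C} (hc : c ∈ Y D) (i j : Fin n) : D.ga i j c = 0 := by
  unfold SGrp.ga
  split_ifs
  · exact hc _ _
  · rw [hc, mul_zero]

/-- two-power torsion -/
noncomputable def av (C : Type) [Fintype C] [CommGroup C] : ℕ :=
  (Nat.exists_eq_two_pow_mul_odd (Fintype.card_ne_zero (α := C))).choose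

/-- odd part of the order -/
noncomputable def Nv (C : Type) [Fintype C] [CommGroup C] : ℕ :=
  (Nat.exists_eq_two_pow_mul_odd (Fintype.card_ne_zero (α := C))).choose_spec.choose

lemma Nv_odd : Odd (Nv C) :=
  (Nat.exists_eq_two_pow_mul_odd (Fintype.card_ne_zero (α := C))).choose_spec.choose_spec.1

lemma card_eq_av : Fintype.card C = 2 ^ av C * Nv C :=
  (Nat.exists_eq_two_pow_mul_odd (Fintype.card_ne_zero (α := C))).choose_spec.choose_spec.2

/-- the two-primary part of `Y` -/
noncomputable def Q : Subgroup C := Y D ⊓ (powMonoidHom (2 ^ av C)).ker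

lemma mem_Q {c : C} : c ∈ Q D ↔ c ∈ Y D ∧ c ^ (2 ^ av C) = 1 := by
  rw [Q, Subgroup.mem_inf, MonoidHom.mem_ker, powMonoidHom_apply]

lemma pow_mem_Q {c : C} (hc : c ∈ Y D) : c ^ Nv C ∈ Q D := by
  rw [mem_Q]
  refine ⟨pow_mem hc _, ?_⟩
  rw [← pow_mul, mul_comm, ← card_eq_av, pow_card_eq_one]

lemma card_Q_ne (h2 : (2 : k) ≠ 0) : ((Nat.card (Q D) : ℕ) : k) ≠ 0 := by
  have h1 : IsPGroup 2 (Q D) := by
    intro q
    refine ⟨av C, ?_⟩
    exact Subtype.ext ((mem_Q D).mp q.2).2
  obtain ⟨b, hb⟩ := IsPGroup.iff_card.mp h1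
  rw [hb]
  push_cast
  exact pow_ne_zero _ h2

open Classical in
/-- indicator function of `Y` -/
noncomputable def fY (c : C) : k := if c ∈ Y D then 1 else 0

lemma fY_sq (c : C) : fY D c * fY D c = fY D c := by
  unfold fY
  split_ifs <;> simp

lemma fY_χ (i : Fin n) (c : C) : fY D ((D.χ i)⁻¹ * c) = fY D c := by
  have : (D.χ i)⁻¹ * c ∈ Y D ↔ c ∈ Y D :=
    Subgroup.mul_mem_cancel_left _ (inv_mem (χ_mem_Y D i))
  unfold fY
  by_cases h : c ∈ Y D
  · rw [if_pos h, if_pos (this.mpr h)]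
  · rw [if_neg h, if_neg (fun h' => h (this.mp h'))]

lemma fY_χ' (i : Fin n) (c : C) : fY D (D.χ i * c) = fY D c := by
  have := fY_χ D i (D.χ i * c)
  rw [inv_mul_cancel_left] at this
  exact this.symm

lemma β_fY (i j : Fin n) (c : C) : D.β i j c * fY D c = 0 := by
  unfold fY
  split_ifs with h
  · rw [h, zero_mul]
  · rw [mul_zero]

lemma fY_one : fY D 1 = 1 := by
  rw [fY, if_pos (one_mem _)]

end YQ

variable (H : Full k D e g x t) (h2 : (2 : k) ≠ 0)

/-- commuting with all generators -/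
lemma central_of (H : Full k D e g x t) {z : A} (he : ∀ c, z * e c = e c * z)
    (hg : ∀ c, z * g c = g c * z) (hx : ∀ c, z * x c = x c * z) (ht : ∀ c, z * t c = t c * z)
    (b : A) : z * b = b * z := by
  have hb : b ∈ Algebra.adjoin k (gens e g x t) := by
    rw [H.gen]; trivial
  induction hb using Algebra.adjoin_induction with
  | mem b hb =>
    rcases hb with ((⟨c, rfl⟩ | ⟨c, rfl⟩) | ⟨a, rfl⟩) | ⟨a, rfl⟩
    · exact he c
    · exact hg c
    · exact hx a
    · exact ht a
  | algebraMap r => exact (Algebra.commutes r z).symm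
  | add x y _ _ hx hy => rw [mul_add, add_mul, hx, hy]
  | mul x y _ _ hx hy => rw [← mul_assoc, hx, mul_assoc, hy, mul_assoc]

include H in
lemma g_central {c : C} (hc : c ∈ Y D) (b : A) : g c * b = b * g c := by
  refine central_of H (fun c' => H.rels.g_e c c') (fun c' => ?_) (fun i => ?_)
    (fun j => H.rels.g_t c j) b
  · rw [H.rels.g_mul, H.rels.g_mul, mul_comm]
  · rw [H.rels.x_g, sum_eq_zero fun m _ => by rw [ga_Y D hc, zero_smul], add_zero]

/-- the idempotent of `Y` -/
noncomputable def eY (D : SGrp k C n) (e : C → A) : A := ∑ c, fY D c • e c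

include H in
lemma eY_idem : eY D e * eY D e = eY D e := by
  rw [eY, H.rels.hr.sum_smul_mul_sum_smul]
  simp only [fY_sq]

include H in
lemma eY_central (b : A) : eY D e * b = b * eY D e := by
  refine central_of H (fun c' => ?_) (fun c' => ?_) (fun i => ?_) (fun j => ?_) b
  · rw [eY, H.rels.hr.sum_smul_mul, H.rels.hr.mul_sum_smul]
  · rw [eY, sum_mul, mul_sum]
    refine sum_congr rfl fun c _ => ?_
    rw [smul_mul_assoc, mul_smul_comm, H.rels.g_e]
  · rw [eY, H.rels.hr.x_sum_smul]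
    simp only [fY_χ]
  · rw [eY, mul_sum, sum_mul]
    refine Fintype.sum_equiv (Equiv.mulLeft (D.χ j)) _ _ fun c => ?_
    rw [smul_mul_assoc, mul_smul_comm, H.rels.t_e, Equiv.coe_mulLeft, inv_mul_cancel_left, fY_χ']

include H in
lemma β_eY (i j : Fin n) : (∑ c, D.β i j c • e c) * eY D e = 0 := by
  rw [eY, H.rels.hr.sum_smul_mul_sum_smul]
  simp only [β_fY, zero_smul, sum_const_zero]

open Classical in
/-- the idempotent of `Q` -/
noncomputable def eQ (D : SGrp k C n) (g : C → A) : A :=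
  ((Nat.card (Q D) : ℕ) : k)⁻¹ • ∑ c with c ∈ Q D, g c

include H in
lemma g_eQ {c : C} (hc : c ∈ Q D) : g c * eQ D g = eQ D g := by
  classical
  rw [eQ, mul_smul_comm, mul_sum]
  congr 1
  simp only [H.rels.g_mul]
  refine Finset.sum_nbij (fun c' => c * c') ?_ ?_ ?_ ?_
  · intro c' hc'
    rw [mem_filter] at hc' ⊢
    exact ⟨mem_univ _, mul_mem hc hc'.2⟩
  · intro a _ b _ hab
    exact mul_left_cancel hab
  · intro c' hc'
    rw [mem_coe, mem_filter] at hc'
    refine ⟨c⁻¹ * c', ?_, mul_inv_cancel_left _ _⟩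
    rw [mem_coe, mem_filter]
    exact ⟨mem_univ _, mul_mem (inv_mem hc) hc'.2⟩
  · intro c' _
    rfl

include H h2 in
lemma eQ_idem : eQ D g * eQ D g = eQ D g := by
  classical
  change (((Nat.card (Q D) : ℕ) : k)⁻¹ • ∑ c with c ∈ Q D, g c) * eQ D g = eQ D g
  rw [smul_mul_assoc, sum_mul, sum_congr rfl (fun c hc => g_eQ H (mem_filter.mp hc).2), sum_const]
  have h1 : #{c | c ∈ Q D} = Nat.card (Q D) := by
    rw [Nat.card_eq_fintype_card, Fintype.card_subtype]
  rw [h1, ← Nat.cast_smul_eq_nsmul k, smul_smul, inv_mul_cancel₀ (card_Q_ne D h2), one_smul]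

include H in
lemma eQ_central (b : A) : eQ D g * b = b * eQ D g := by
  classical
  rw [eQ, smul_mul_assoc, mul_smul_comm, sum_mul, mul_sum]
  congr 1
  refine sum_congr rfl fun c hc => ?_
  exact g_central H ((mem_Q D).mp (mem_filter.mp hc).2).1 b

/-- the idempotent -/
noncomputable def ep (D : SGrp k C n) (e g : C → A) : A := eY D e * eQ D g

include H in
lemma ep_central (b : A) : ep D e g * b = b * ep D e g := by
  rw [ep, mul_assoc, eQ_central H, ← mul_assoc, eY_central H, mul_assoc]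

include H h2 in
lemma ep_idem : ep D e g * ep D e g = ep D e g := by
  conv_lhs => rw [ep]
  rw [mul_assoc, ep, eQ_central H, mul_assoc, eQ_idem H h2, ← mul_assoc, eY_idem H]

include H in
lemma g_ep {c : C} (hc : c ∈ Q D) : g c * ep D e g = ep D e g := by
  rw [ep, eY_central H, ← mul_assoc, g_eQ H hc]

include H in
lemma β_ep (i j : Fin n) : (∑ c, D.β i j c • e c) * ep D e g = 0 := by
  rw [ep, ← mul_assoc, β_eY H, zero_mul]

/-- `(1 + g (χ j)⁻¹) / 2` -/
noncomputable def ci (D : SGrp k C n) (g : C → A) (j : Fin n) : A :=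
  (2⁻¹ : k) • (1 + g (D.χ j)⁻¹)

/-- the inverse of the last element -/
noncomputable def vi (D : SGrp k C n) (g : C → A) (j : Fin n) : A :=
  ∑ i ∈ range (Nv C), (- g (D.χ j)⁻¹) ^ i

include H in
lemma ci_central (j : Fin n) (b : A) : ci D g j * b = b * ci D g j := by
  rw [ci, smul_mul_assoc, mul_smul_comm, add_mul, mul_add, one_mul, mul_one,
    g_central H (inv_mem (χ_mem_Y D j))]

include H in
lemma vi_central (j : Fin n) (b : A) : vi D g j * b = b * vi D g j := by
  have h1 : Commute (- g (D.χ j)⁻¹) b := by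
    rw [Commute.neg_left_iff]
    exact g_central H (inv_mem (χ_mem_Y D j)) b
  rw [vi, sum_mul, mul_sum]
  exact sum_congr rfl fun i _ => (h1.pow_left i).eq

include H in
lemma g_pow (c : C) (i : ℕ) : g c ^ i = g (c ^ i) := by
  induction i with
  | zero => rw [pow_zero, pow_zero, H.rels.g_one]
  | succ i ih => rw [pow_succ, pow_succ, ih, H.rels.g_mul]

include H h2 in
lemma ci_vi (j : Fin n) : ci D g j * vi D g j * ep D e g = ep D e g := by
  have h1 : (1 + g (D.χ j)⁻¹) * vi D g j = 1 + g (D.χ j)⁻¹ ^ Nv C := by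
    have := mul_neg_geom_sum (- g (D.χ j)⁻¹) (Nv C)
    rw [sub_neg_eq_add, Odd.neg_pow Nv_odd, sub_neg_eq_add] at this
    exact this
  rw [ci, smul_mul_assoc, h1, g_pow H, smul_mul_assoc, add_mul, one_mul,
    g_ep H (pow_mem_Q D (inv_mem (χ_mem_Y D j))), ← two_smul k, smul_smul,
    inv_mul_cancel₀ h2, one_smul]

/-- symmetrized odd elements -/
noncomputable def yy (D : SGrp k C n) (g : C → A) (t : Fin n → A) (j : Fin n) : A := ci D g j * t j

lemma yy_def (j : Fin n) : yy D g t j = ci D g j * t j := rfl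

/-- the odd elements -/
noncomputable def ww (D : SGrp k C n) (e g : C → A) (x t : Fin n → A) : Fin n ⊕ Fin n → A :=
  Sum.elim (fun i => x i * ep D e g) (fun j => yy D g t j * ep D e g)

include H h2 in
lemma ep_mul_ep (a b : A) : a * ep D e g * (b * ep D e g) = a * b * ep D e g := by
  rw [mul_assoc, ← mul_assoc (ep D e g), ep_central H b, mul_assoc b, ep_idem H h2, mul_assoc]

include H in
lemma yy_yy (i j : Fin n) : yy D g t i * yy D g t j = ci D g i * ci D g j * (t i * t j) := by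
  rw [yy, yy, mul_assoc, ← mul_assoc (t i), ← ci_central H, mul_assoc, mul_assoc]

include H in
lemma x_yy (i j : Fin n) : x i * yy D g t j + yy D g t j * x i =
    if i = j then (2⁻¹ : k) • (g (D.χ i) - g (D.χ i)⁻¹) else 0 := by
  rw [yy, ← mul_assoc, ← ci_central H, mul_assoc, mul_assoc, ← mul_add, H.rels.x_t]
  by_cases h : i = j
  · subst h
    rw [if_pos rfl, if_pos rfl, ci, smul_mul_assoc]
    congr 1
    rw [add_mul, one_mul, mul_sub, mul_one, H.rels.g_mul, inv_mul_cancel, H.rels.g_one]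
    abel
  · rw [if_neg h, if_neg h, mul_zero]

include H in
lemma yy_e (j : Fin n) (c : C) : yy D g t j * e c = e ((D.χ j)⁻¹ * c) * yy D g t j := by
  rw [yy, mul_assoc, H.rels.t_e, ← mul_assoc, ci_central H, mul_assoc]

include H in
lemma g_yy (j : Fin n) (c : C) : g c * yy D g t j = yy D g t j * g c := by
  rw [yy, ← mul_assoc, ← ci_central H, mul_assoc, H.rels.g_t, mul_assoc]

variable {L : Type} [Fintype L] [LinearOrder L] {m : L → ℕ} [∀ l, NeZero (m l)]
  (ψ : C ≃* Multiplicative (∀ l, ZMod (m l)))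

/-- the twisted data -/
noncomputable def tw (H : Full k D e g x t) (h2 : (2 : k) ≠ 0)
    (ψ : C ≃* Multiplicative (∀ l, ZMod (m l))) : TW k A L (Fin n) C where
  χ := D.χ
  B i j c := 2 * D.ga i j c
  B_mul i j c c' := by rw [D.ga_mul, mul_add]
  B_symm i j c := by rw [D.ga_symm]
  B_wt i j h c := by rw [D.ga_wt i j h, mul_zero]
  B_χ i j l := by rw [D.ga_χ, mul_zero]
  h := 2⁻¹
  h_two := inv_mul_cancel₀ h2
  ε := ep D e g
  ε_idem := ep_idem H h2
  ε_g c := ep_central H _
  ε_w a := ep_central H _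
  g := g
  g_one := H.rels.g_one
  g_mul := H.rels.g_mul
  w := ww D e g x t
  w_ε a := by
    rcases a with i | i
    · change x i * ep D e g * ep D e g = x i * ep D e g
      rw [mul_assoc, ep_idem H h2]
    · change yy D g t i * ep D e g * ep D e g = yy D g t i * ep D e g
      rw [mul_assoc, ep_idem H h2]
  w_sq a := by
    rcases a with i | i
    · change x i * ep D e g * (x i * ep D e g) = 0
      rw [ep_mul_ep H h2, H.rels.hr.x_sq, β_ep H]
    · change yy D g t i * ep D e g * (yy D g t i * ep D e g) = 0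
      rw [ep_mul_ep H h2, yy_yy H, H.rels.t_sq, mul_zero, zero_mul]
  w_pair i := by
    change x i * ep D e g * (yy D g t i * ep D e g) + yy D g t i * ep D e g * (x i * ep D e g) = _
    rw [ep_mul_ep H h2, ep_mul_ep H h2, ← add_mul, x_yy H, if_pos rfl, smul_mul_assoc,
      ep_central H]
  w_anti a b hab hab' := by
    rcases a with i | i <;> rcases b with j | j
    · change x i * ep D e g * (x j * ep D e g) + x j * ep D e g * (x i * ep D e g) = _
      rw [ep_mul_ep H h2, ep_mul_ep H h2, ← add_mul, H.rels.hr.x_anti i j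
        (by rintro rfl; exact hab rfl), β_ep H]
    · change x i * ep D e g * (yy D g t j * ep D e g) + yy D g t j * ep D e g * (x i * ep D e g) = _
      have hij : i ≠ j := by rintro rfl; exact hab' rfl
      rw [ep_mul_ep H h2, ep_mul_ep H h2, ← add_mul, x_yy H, if_neg hij, zero_mul]
    · change yy D g t i * ep D e g * (x j * ep D e g) + x j * ep D e g * (yy D g t i * ep D e g) = _
      have hij : j ≠ i := by rintro rfl; exact hab' rfl
      rw [ep_mul_ep H h2, ep_mul_ep H h2, ← add_mul, add_comm, x_yy H, if_neg hij, zero_mul]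
    · change yy D g t i * ep D e g * (yy D g t j * ep D e g) +
        yy D g t j * ep D e g * (yy D g t i * ep D e g) = _
      have hij : i ≠ j := by rintro rfl; exact hab rfl
      rw [ep_mul_ep H h2, ep_mul_ep H h2, ← add_mul, yy_yy H, yy_yy H, ci_central H j (ci D g i),
        ← mul_add, H.rels.t_anti i j hij, mul_zero, zero_mul]
  g_y c j := by
    change g c * (yy D g t j * ep D e g) = yy D g t j * ep D e g * g c
    rw [← mul_assoc, g_yy H, mul_assoc, mul_assoc, ep_central H]
  x_g i c := by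
    change x i * ep D e g * g c = g c * (x i * ep D e g) +
      ∑ j, (2 * D.ga i j c) • (yy D g t j * ep D e g * g c)
    rw [mul_assoc, ep_central H, ← mul_assoc, H.rels.x_g, add_mul, sum_mul, mul_assoc]
    congr 1
    refine sum_congr rfl fun j _ => ?_
    rw [mul_assoc (yy D g t j), ep_central H, yy, ci, mul_comm (2 : k), mul_smul]
    simp only [smul_mul_assoc, smul_smul]
    rw [mul_assoc, mul_inv_cancel₀ h2, mul_one]
    simp only [mul_assoc]
  cl := clq ψ
  ord := m
  cl_pow := clq_pow ψ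
  a i l := coq ψ (D.χ i) l - coq ψ (D.χ i)⁻¹ l
  a_eq i := by
    have h3 := coq_eq ψ (D.χ i)
    have h4 := coq_eq ψ (D.χ i)⁻¹
    have h5 : (og (D.χ i) - og (D.χ i)⁻¹ : MonoidAlgebra ℤ C) =
        (og (D.χ i) - 1) - (og (D.χ i)⁻¹ - 1) := by ring
    simp only [mul_sub, sum_sub_distrib]
    rw [← h3, ← h4]
    exact h5
  a_anti i j l h := by
    rw [eq_inv_of_mul_eq_one_right h, inv_inv, neg_sub]

/-- the twisted data with idempotents -/
noncomputable def twe (H : Full k D e g x t) (h2 : (2 : k) ≠ 0)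
    (ψ : C ≃* Multiplicative (∀ l, ZMod (m l))) : TWE k A L (Fin n) C where
  toTW := tw H h2 ψ
  e c := e c * ep D e g
  e_idem c := by
    rw [ep_mul_ep H h2, H.rels.hr.ee, if_pos rfl]
  g_e c c' := by
    change g c * (e c' * ep D e g) = e c' * ep D e g * g c
    rw [← mul_assoc, H.rels.g_e, mul_assoc, mul_assoc, ep_central H]
  x_e i c := by
    change x i * ep D e g * (e c * ep D e g) = e (D.χ i * c) * ep D e g * (x i * ep D e g)
    rw [ep_mul_ep H h2, ep_mul_ep H h2, H.rels.hr.x_e]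
  y_e i c := by
    change yy D g t i * ep D e g * (e c * ep D e g) =
      e ((D.χ i)⁻¹ * c) * ep D e g * (yy D g t i * ep D e g)
    rw [ep_mul_ep H h2, ep_mul_ep H h2, yy_e H]
  ε_e c := ep_central H _

/-! ### The homotopies -/

/-- coordinates in functions on the product of cyclic groups -/
noncomputable def PhL (H : Full k D e g x t) (h2 : (2 : k) ≠ 0)
    (ψ : C ≃* Multiplicative (∀ l, ZMod (m l))) : FF m (NN H) ≃ₗ[k] A :=
  (LinearEquiv.funCongrLeft k (NN H) (ψ.toEquiv.trans Multiplicative.toAdd)).trans (Psi2E H h2)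

lemma PhL_apply (f : FF m (NN H)) :
    PhL H h2 ψ f = Psi2E H h2 (fun c => f (Multiplicative.toAdd (ψ c))) := rfl

lemma PhL_mul (l : L) (f : FF m (NN H)) :
    PhL H h2 ψ f * g (clq ψ l) = PhL H h2 ψ (VF l f) := by
  rw [PhL_apply, Psi2E_mul_g, PhL_apply]
  congr 1
  funext c
  rw [VF, map_mul, map_inv, clq, MulEquiv.apply_symm_apply, toAdd_mul, toAdd_inv, toAdd_ofAdd,
    sub_eq_add_neg]

lemma PhL_mul_pow (l : L) (f : FF m (NN H)) (i : ℕ) :
    PhL H h2 ψ f * g (clq ψ l) ^ i = PhL H h2 ψ ((VF l)^[i] f) := by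
  induction i with
  | zero => simp
  | succ i ih => rw [pow_succ, ← mul_assoc, ih, PhL_mul, Function.iterate_succ_apply']

lemma PhL_mul_sum (l : L) (f : FF m (NN H)) :
    PhL H h2 ψ f * ∑ i ∈ range (m l), g (clq ψ l) ^ i =
      PhL H h2 ψ (fun c => ∑ i ∈ range (m l), (VF l)^[i] f c) := by
  rw [mul_sum]
  simp only [PhL_mul_pow]
  rw [← map_sum]
  congr 1
  funext c
  rw [Finset.sum_apply]

/-- first homotopy -/
noncomputable def s2 (H : Full k D e g x t) (h2 : (2 : k) ≠ 0)
    (ψ : C ≃* Multiplicative (∀ l, ZMod (m l))) (l : L) : A →ₗ[k] A :=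
  (PhL H h2 ψ).toLinearMap ∘ₗ SFl k l ∘ₗ (PhL H h2 ψ).symm.toLinearMap

/-- second homotopy -/
noncomputable def s2' (H : Full k D e g x t) (h2 : (2 : k) ≠ 0)
    (ψ : C ≃* Multiplicative (∀ l, ZMod (m l))) (l : L) : A →ₗ[k] A :=
  (PhL H h2 ψ).toLinearMap ∘ₗ SFl' k l ∘ₗ (PhL H h2 ψ).symm.toLinearMap

lemma s2_PhL (l : L) (f : FF m (NN H)) :
    s2 H h2 ψ l (PhL H h2 ψ f) = PhL H h2 ψ (SF l f) := by
  change PhL H h2 ψ (SF l ((PhL H h2 ψ).symm (PhL H h2 ψ f))) = _
  rw [LinearEquiv.symm_apply_apply]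

lemma s2'_PhL (l : L) (f : FF m (NN H)) :
    s2' H h2 ψ l (PhL H h2 ψ f) = PhL H h2 ψ (SF' l f) := by
  change PhL H h2 ψ (SF' l ((PhL H h2 ψ).symm (PhL H h2 ψ f))) = _
  rw [LinearEquiv.symm_apply_apply]

lemma s2_eq (l : L) (b : A) : s2 H h2 ψ l b * (g (clq ψ l) - 1) +
    s2' H h2 ψ l (b * ∑ i ∈ range (m l), g (clq ψ l) ^ i) = b := by
  obtain ⟨f, rfl⟩ := (PhL H h2 ψ).surjective b
  rw [s2_PhL, PhL_mul_sum, s2'_PhL, mul_sub, mul_one, PhL_mul, ← map_sub, ← map_add, SF_eq]

lemma s2'_eq (l : L) (b : A) : s2' H h2 ψ l b * (∑ i ∈ range (m l), g (clq ψ l) ^ i) +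
    s2 H h2 ψ l (b * (g (clq ψ l) - 1)) = b := by
  obtain ⟨f, rfl⟩ := (PhL H h2 ψ).surjective b
  rw [s2'_PhL, PhL_mul_sum, mul_sub, mul_one, PhL_mul, ← map_sub, s2_PhL, ← map_add, SF'_eq]

lemma s2_g {l l' : L} (h : l ≠ l') (b : A) :
    s2 H h2 ψ l (b * g (clq ψ l')) = s2 H h2 ψ l b * g (clq ψ l') := by
  obtain ⟨f, rfl⟩ := (PhL H h2 ψ).surjective b
  rw [PhL_mul, s2_PhL, s2_PhL, PhL_mul, SF_VF h]

lemma s2'_g {l l' : L} (h : l ≠ l') (b : A) :
    s2' H h2 ψ l (b * g (clq ψ l')) = s2' H h2 ψ l b * g (clq ψ l') := by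
  obtain ⟨f, rfl⟩ := (PhL H h2 ψ).surjective b
  rw [PhL_mul, s2'_PhL, s2'_PhL, PhL_mul, SF'_VF h]

/-- skew derivation -/
noncomputable def tauX (H : Full k D e g x t) (h2 : (2 : k) ≠ 0) (a : Fin n) : A →ₗ[k] A :=
  (exists_tau H h2 a).choose

/-- compression by the idempotent -/
noncomputable def comp2 (D : SGrp k C n) (e g : C → A) (τ : A →ₗ[k] A) (z : A) : A →ₗ[k] A :=
  LinearMap.mulRight k (z * ep D e g) ∘ₗ τ ∘ₗ LinearMap.mulRight k (ep D e g)

lemma comp2_apply (τ : A →ₗ[k] A) (z b : A) :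
    comp2 D e g τ z b = τ (b * ep D e g) * (z * ep D e g) := rfl

include H in
lemma tau_yy {τ : A →ₗ[k] A} (hg : ∀ c b, τ (b * g c) = τ b * g c) (j : Fin n) (b : A) :
    τ (b * yy D g t j) = τ (b * t j) * ci D g j := by
  have h1 : b * yy D g t j = (2⁻¹ : k) • (b * t j + b * t j * g (D.χ j)⁻¹) := by
    rw [yy, ci_central H, ← mul_assoc, ci, mul_smul_comm, mul_add, mul_one]
  rw [h1, map_smul, map_add, hg, ci, mul_smul_comm, mul_add, mul_one]

include H h2 in
lemma comp2_mul (τ : A →ₗ[k] A) (z b y : A) :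
    comp2 D e g τ z (b * (y * ep D e g)) = τ (b * ep D e g * y) * (z * ep D e g) := by
  rw [comp2_apply]
  congr 2
  rw [mul_assoc b, mul_assoc y, ep_idem H h2, ← ep_central H y, mul_assoc]

include H h2 in
lemma comp2_mul' (τ : A →ₗ[k] A) {z : A} (hz : ∀ b, z * b = b * z) (b y : A) :
    comp2 D e g τ z b * (y * ep D e g) = τ (b * ep D e g) * y * (z * ep D e g) := by
  rw [comp2_apply, mul_assoc, mul_assoc z, ← mul_assoc (ep D e g), ep_central H y,
    mul_assoc y, ep_idem H h2, ← mul_assoc z, hz y, mul_assoc y, ← mul_assoc (τ _)]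

include H h2 in
lemma comp2_g (τ : A →ₗ[k] A) (hg : ∀ c b, τ (b * g c) = τ b * g c) {z : A}
    (hz : ∀ b, z * b = b * z) (c : C) (b : A) :
    comp2 D e g τ z (b * g c) = comp2 D e g τ z b * g c := by
  rw [comp2_apply, comp2_apply, mul_assoc b, ← ep_central H (g c), ← mul_assoc b, hg, mul_assoc,
    mul_assoc, mul_assoc z, ep_central H (g c), ← mul_assoc z, hz (g c), mul_assoc (g c)]

include H h2 in
lemma comp2_ε (τ : A →ₗ[k] A) (z b : A) :
    comp2 D e g τ z b * ep D e g = comp2 D e g τ z b := by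
  rw [comp2_apply, mul_assoc, mul_assoc z, ep_idem H h2]

include H h2 in
lemma comp2_ε' (τ : A →ₗ[k] A) (z b : A) :
    comp2 D e g τ z (b * ep D e g) = comp2 D e g τ z b := by
  rw [comp2_apply, comp2_apply, mul_assoc b, ep_idem H h2]

lemma tauX_g (i : Fin n) (c : C) (b : A) : tauX H h2 i (b * g c) = tauX H h2 i b * g c :=
  (exists_tau H h2 i).choose_spec.2.2.2 c b

lemma tauX_t (i j : Fin n) (b : A) : tauX H h2 i (b * t j) = - (tauX H h2 i b * t j) :=
  (exists_tau H h2 i).choose_spec.2.2.1 j b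

lemma tauX_x (i : Fin n) (b : A) : tauX H h2 i (b * x i) = b - tauX H h2 i b * x i :=
  (exists_tau H h2 i).choose_spec.1 b

lemma tauX_x' {i j : Fin n} (h : i ≠ j) (b : A) :
    tauX H h2 i (b * x j) = - (tauX H h2 i b * x j) :=
  (exists_tau H h2 i).choose_spec.2.1 j h b

theorem isTau_x (i : Fin n) : (tw H h2 ψ).IsTau (comp2 D e g (tauX H h2 i) 1) (Sum.inl i) ∅ where
  same b := by
    change comp2 D e g (tauX H h2 i) 1 (b * (x i * ep D e g)) +
      comp2 D e g (tauX H h2 i) 1 b * (x i * ep D e g) = b * ep D e g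
    rw [comp2_mul H h2, comp2_mul' H h2 _ (by simp), tauX_x, ← add_mul, sub_add_cancel, one_mul,
      mul_assoc, ep_idem H h2]
  diff a' _ ha' b := by
    rcases a' with j | j
    · change comp2 D e g (tauX H h2 i) 1 (b * (x j * ep D e g)) +
        comp2 D e g (tauX H h2 i) 1 b * (x j * ep D e g) = 0
      rw [comp2_mul H h2, comp2_mul' H h2 _ (by simp),
        tauX_x' H h2 (by rintro rfl; exact ha' rfl), ← add_mul, neg_add_cancel, zero_mul]
    · change comp2 D e g (tauX H h2 i) 1 (b * (yy D g t j * ep D e g)) +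
        comp2 D e g (tauX H h2 i) 1 b * (yy D g t j * ep D e g) = 0
      rw [comp2_mul H h2, comp2_mul' H h2 _ (by simp), tau_yy H (tauX_g H h2 i), tauX_t,
        ← add_mul, yy, ci_central H, neg_mul, mul_assoc, neg_add_cancel, zero_mul]
  g c b := comp2_g H h2 _ (tauX_g H h2 i) (by simp) c b
  ε b := comp2_ε H h2 _ _ b
  ε' b := comp2_ε' H h2 _ _ b

theorem isTau_y (l : Fin n) : (tw H h2 ψ).IsTau (comp2 D e g (tauT H h2 l) (vi D g l))
    (Sum.inr l) (Set.range Sum.inl) where
  same b := by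
    change comp2 D e g (tauT H h2 l) (vi D g l) (b * (yy D g t l * ep D e g)) +
      comp2 D e g (tauT H h2 l) (vi D g l) b * (yy D g t l * ep D e g) = b * ep D e g
    rw [comp2_mul H h2, comp2_mul' H h2 _ (vi_central H l), tau_yy H (fun c b => tauT_g H h2 l c b),
      tauT_t, if_pos rfl, ← add_mul, yy, ci_central H, ← mul_assoc _ (t l), ← add_mul,
      sub_add_cancel, mul_assoc, ← mul_assoc (ci D g l), ci_vi H h2, mul_assoc, ep_idem H h2]
  diff a' ht ha' b := by
    rcases a' with j | j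
    · exact absurd ⟨j, rfl⟩ ht
    · change comp2 D e g (tauT H h2 l) (vi D g l) (b * (yy D g t j * ep D e g)) +
        comp2 D e g (tauT H h2 l) (vi D g l) b * (yy D g t j * ep D e g) = 0
      have hlj : l ≠ j := by rintro rfl; exact ha' rfl
      rw [comp2_mul H h2, comp2_mul' H h2 _ (vi_central H l),
        tau_yy H (fun c b => tauT_g H h2 l c b), tauT_t, if_neg hlj, ← add_mul, yy, ci_central H,
        ← mul_assoc _ (t j), ← add_mul, sub_add_cancel, zero_mul, zero_mul]
  g c b := comp2_g H h2 _ (fun c b => tauT_g H h2 l c b) (vi_central H l) c b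
  ε b := comp2_ε H h2 _ _ b
  ε' b := comp2_ε' H h2 _ _ b

/-- the homotopies -/
noncomputable def htp : (tw H h2 ψ).Htp where
  τ := Sum.elim (fun i => comp2 D e g (tauX H h2 i) 1)
    (fun l => comp2 D e g (tauT H h2 l) (vi D g l))
  τx i := isTau_x H h2 ψ i
  τy j := isTau_y H h2 ψ j
  s l := LinearMap.mulRight k (ep D e g) ∘ₗ s2 H h2 ψ l
  s' l := LinearMap.mulRight k (ep D e g) ∘ₗ s2' H h2 ψ l
  s_ε l b := by
    change s2 H h2 ψ l b * ep D e g * ep D e g = s2 H h2 ψ l b * ep D e g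
    rw [mul_assoc, ep_idem H h2]
  s'_ε l b := by
    change s2' H h2 ψ l b * ep D e g * ep D e g = s2' H h2 ψ l b * ep D e g
    rw [mul_assoc, ep_idem H h2]
  s_eq l b := by
    change s2 H h2 ψ l b * ep D e g * (g (clq ψ l) - 1) +
      s2' H h2 ψ l (b * ∑ i ∈ range (m l), g (clq ψ l) ^ i) * ep D e g = b * ep D e g
    rw [mul_assoc, ep_central H, ← mul_assoc, ← add_mul, s2_eq]
  s'_eq l b := by
    change s2' H h2 ψ l b * ep D e g * (∑ i ∈ range (m l), g (clq ψ l) ^ i) +
      s2 H h2 ψ l (b * (g (clq ψ l) - 1)) * ep D e g = b * ep D e g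
    rw [mul_assoc, ep_central H, ← mul_assoc, ← add_mul, s2'_eq]
  s_g l l' h b := by
    change s2 H h2 ψ l (b * g (clq ψ l')) * ep D e g = s2 H h2 ψ l b * ep D e g * g (clq ψ l')
    rw [s2_g H h2 ψ h, mul_assoc, mul_assoc, ep_central H]
  s'_g l l' h b := by
    change s2' H h2 ψ l (b * g (clq ψ l')) * ep D e g = s2' H h2 ψ l b * ep D e g * g (clq ψ l')
    rw [s2'_g H h2 ψ h, mul_assoc, mul_assoc, ep_central H]

/-- the complete data -/
noncomputable def twd : TWD k A L (Fin n) C where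
  toTWE := twe H h2 ψ
  e_ε t := by
    change e _ * ep D e g * ep D e g = e _ * ep D e g
    rw [mul_assoc, ep_idem H h2]
  H := htp H h2 ψ

/-- the image of the group ring -/
noncomputable def gr (H : Full k D e g x t) : MonoidAlgebra ℤ C →ₐ[ℤ] A :=
  MonoidAlgebra.lift ℤ A C
    { toFun := g
      map_one' := H.rels.g_one
      map_mul' := fun c c' => (H.rels.g_mul c c').symm }

lemma gr_og (c : C) : gr H (og c) = g c := by
  rw [gr, MonoidAlgebra.lift_of]
  rfl

include H h2 ψ in
lemma span_e2 (eps : A →ₐ[k] k) (h1 : eps (e 1) = 1) (hg : ∀ c, eps (g c) = 1)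
    (hx : ∀ a, eps (x a) = 0) (ht : ∀ a, eps (t a) = 0) (b : A) (hb : eps b = 0) :
    ∃ (bw : Fin n ⊕ Fin n → A) (bl : L → A),
      b * (e 1 * ep D e g) = ∑ l, bl l * (g (clq ψ l) - 1) + ∑ a, bw a * ww D e g x t a := by
  let J : Ideal A := Ideal.span (Set.range (Sum.elim (fun l : L => g (clq ψ l) - 1)
    (Sum.elim x t)))
  have he : ∀ c, c ≠ 1 → eps (e c) = 0 := by
    intro c hc
    have := congrArg eps (H.rels.hr.ee c 1)
    rwa [map_mul, h1, mul_one, if_neg hc, map_zero] at this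
  have key : ∀ b : A, b * e 1 - algebraMap k A (eps b) * e 1 ∈ J := by
    intro b
    have hb : b ∈ Algebra.adjoin k (gens e g x t) := by
      rw [H.gen]; trivial
    induction hb using Algebra.adjoin_induction with
    | mem x hx' =>
      rcases hx' with ((⟨c, rfl⟩ | ⟨c, rfl⟩) | ⟨a, rfl⟩) | ⟨a, rfl⟩
      · by_cases hc : c = 1
        · subst hc
          rw [h1, H.rels.hr.ee, if_pos rfl, map_one, one_mul, sub_self]
          exact J.zero_mem
        · rw [he c hc, H.rels.hr.ee, if_neg hc, map_zero, zero_mul, sub_self]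
          exact J.zero_mem
      · have h3 := congrArg (gr H) (coq_eq ψ c)
        rw [map_sub, map_one, map_sum, gr_og] at h3
        rw [hg, map_one, one_mul, H.rels.g_e]
        have h4 : e 1 * g c - e 1 = e 1 * (g c - 1) := by rw [mul_sub, mul_one]
        rw [h4, h3, mul_sum]
        refine J.sum_mem fun l _ => ?_
        rw [mul_comm (og (clq ψ l) - 1), map_mul, map_sub, map_one, gr_og, ← mul_assoc]
        exact J.mul_mem_left _ (Ideal.subset_span ⟨Sum.inl l, rfl⟩)
      · rw [hx, map_zero, zero_mul, sub_zero, H.rels.hr.x_e]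
        exact J.mul_mem_left _ (Ideal.subset_span ⟨Sum.inr (Sum.inl a), rfl⟩)
      · rw [ht, map_zero, zero_mul, sub_zero, H.rels.t_e]
        exact J.mul_mem_left _ (Ideal.subset_span ⟨Sum.inr (Sum.inr a), rfl⟩)
    | algebraMap r =>
      rw [AlgHom.commutes, Algebra.algebraMap_self, RingHom.id_apply, sub_self]
      exact J.zero_mem
    | add x y _ _ hx hy =>
      have : (x + y) * e 1 - algebraMap k A (eps (x + y)) * e 1 =
          (x * e 1 - algebraMap k A (eps x) * e 1) + (y * e 1 - algebraMap k A (eps y) * e 1) := by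
        rw [map_add, map_add]
        noncomm_ring
      rw [this]
      exact J.add_mem hx hy
    | mul x y _ _ hx hy =>
      have : x * y * e 1 - algebraMap k A (eps (x * y)) * e 1 =
          x * (y * e 1 - algebraMap k A (eps y) * e 1) +
          algebraMap k A (eps y) * (x * e 1 - algebraMap k A (eps x) * e 1) := by
        rw [map_mul eps, mul_comm (eps x), map_mul (algebraMap k A), mul_sub, mul_sub,
          ← mul_assoc x (algebraMap k A (eps y)), ← Algebra.commutes (eps y) x]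
        simp only [mul_assoc]
        abel
      rw [this]
      exact J.add_mem (J.mul_mem_left _ hy) (J.mul_mem_left _ hx)
  have h := key b
  rw [hb, map_zero, zero_mul, sub_zero] at h
  obtain ⟨c, hc⟩ := (Submodule.mem_span_range_iff_exists_fun A).mp h
  refine ⟨Sum.elim (fun i => c (Sum.inr (Sum.inl i))) (fun j => c (Sum.inr (Sum.inr j)) * vi D g j),
    fun l => c (Sum.inl l) * ep D e g, ?_⟩
  rw [← mul_assoc, ← hc, Fintype.sum_sum_type, Fintype.sum_sum_type, Fintype.sum_sum_type,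
    add_mul, add_mul, sum_mul, sum_mul, sum_mul]
  congr 1
  · refine sum_congr rfl fun l _ => ?_
    change c (Sum.inl l) * (g (clq ψ l) - 1) * ep D e g = _
    rw [mul_assoc, ← ep_central H, ← mul_assoc]
  · congr 1
    · refine sum_congr rfl fun i _ => ?_
      exact mul_assoc _ _ _
    · refine sum_congr rfl fun j _ => ?_
      change c (Sum.inr (Sum.inr j)) * t j * ep D e g = c (Sum.inr (Sum.inr j)) * vi D g j *
        (ci D g j * t j * ep D e g)
      have h5 : vi D g j * (ci D g j * t j * ep D e g) = t j * ep D e g := by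
        rw [← mul_assoc, ← mul_assoc, vi_central H j (ci D g j), mul_assoc, ← ep_central H (t j),
          ← mul_assoc, ci_vi H h2]
      rw [mul_assoc, mul_assoc, h5]

include H h2 in
lemma eps_ep (eps : A →ₐ[k] k) (h1 : eps (e 1) = 1) (hg : ∀ c, eps (g c) = 1) :
    eps (ep D e g) = 1 := by
  classical
  have he : ∀ c, c ≠ 1 → eps (e c) = 0 := by
    intro c hc
    have := congrArg eps (H.rels.hr.ee c 1)
    rwa [map_mul, h1, mul_one, if_neg hc, map_zero] at this
  have h3 : eps (eY D e) = 1 := by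
    rw [eY, map_sum, Finset.sum_eq_single 1]
    · rw [map_smul, h1, fY_one, smul_eq_mul, mul_one]
    · intro c _ hc
      rw [map_smul, he c hc, smul_zero]
    · simp
  have h4 : eps (eQ D g) = 1 := by
    rw [eQ, map_smul, map_sum]
    simp only [hg, sum_const]
    have h5 : #{c | c ∈ Q D} = Nat.card (Q D) := by
      rw [Nat.card_eq_fintype_card, Fintype.card_subtype]
    rw [h5, nsmul_eq_mul, mul_one, smul_eq_mul, inv_mul_cancel₀ (card_Q_ne D h2)]
  rw [ep, map_mul, h3, h4, one_mul]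

end Rels2

/-- Finite generation of cohomology for the algebras satisfying the relations. -/
theorem Rels2.Full.fgc (H : Rels2.Full k D e g x t) (h2 : (2 : k) ≠ 0) (eps : A →ₐ[k] k)
    (h1 : eps (e 1) = 1)
    (hg : ∀ c, eps (g c) = 1) (hx : ∀ a, eps (x a) = 0) (ht : ∀ a, eps (t a) = 0) :
    FGC k eps := by
  obtain ⟨L, hL, m, hm, ⟨ψ⟩⟩ := exists_psi C
  let _ : LinearOrder L := LinearOrder.lift' (Fintype.equivFin L) (Equiv.injective _)
  have : Module.Finite k A := (H.rels.finrank_le h2 H.gen).1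
  have he := Rels2.eps_ep H h2 eps h1 hg
  refine (Rels2.twd H h2 ψ).fgc eps (TWD.augTriv _ eps ?_ (fun l => hg _) ?_ ?_)
  · change eps (e 1 * Rels2.ep D e g) = 1
    rw [map_mul, h1, he, one_mul]
  · rintro (i | j)
    · change eps (x i * Rels2.ep D e g) = 0
      rw [map_mul, hx, zero_mul]
    · change eps (Rels2.ci D g j * t j * Rels2.ep D e g) = 0
      rw [map_mul, map_mul, ht, mul_zero, zero_mul]
  · exact Rels2.span_e2 H h2 ψ eps h1 hg hx ht

end

end Pool.Agent.H170_FG
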