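import Mathlib

/-!
# Group superalgebras of supergroup schemes with diagonalizable even part, bosonized
-/

set_option linter.unusedSectionVars false

universe u

open Finset TensorProduct

namespace Pool.Agent.H170_FG

/-- Generators: weight idempotents `e c` and odd elements `x i`. -/
inductive HGen (C : Type) (n : ℕ) : Type
  | e (c : C)
  | x (i : Fin n)

/-- Structure constants of a supergroup scheme with diagonalizable even part. The group `C` is the
group of characters, `σ` is the parity, `χ i` is the weight of the `i`-th basis vector of the odd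
part, and `β` is the bracket of the odd part. -/
structure SGrp (k : Type u) [Field k] (C : Type) [CommGroup C] (n : ℕ) where
  σ : C →* ℤˣ
  χ : Fin n → C
  σ_χ : ∀ i, σ (χ i) = -1
  β : Fin n → Fin n → C → k
  β_mul : ∀ i j c c', β i j (c * c') = β i j c + β i j c'
  β_symm : ∀ i j c, β i j c = β j i c
  β_wt : ∀ i j, χ i * χ j ≠ 1 → ∀ c, β i j c = 0
  β_χ : ∀ i j l, β i j (χ l) = 0

variable {k : Type u} [Field k] {C : Type} [CommGroup C] [Fintype C] [DecidableEq C] {n : ℕ}

namespace SGrp

/-- the sign of a character, as an element of the field -/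
def sg (D : SGrp k C n) (c : C) : k := ((D.σ c : ℤ) : k)

lemma sg_one (D : SGrp k C n) : D.sg 1 = 1 := by simp [sg]

lemma sg_mul (D : SGrp k C n) (c c' : C) : D.sg (c * c') = D.sg c * D.sg c' := by simp [sg]

lemma sg_sq (D : SGrp k C n) (c : C) : D.sg c * D.sg c = 1 := by
  rw [← sg_mul, sg]
  rcases Int.units_eq_one_or (D.σ c) with h | h <;> simp [h]

lemma sg_χ (D : SGrp k C n) (i : Fin n) : D.sg (D.χ i) = -1 := by simp [sg, D.σ_χ]

lemma sg_inv (D : SGrp k C n) (c : C) : D.sg c⁻¹ = D.sg c := by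
  have h1 : D.sg c * D.sg c⁻¹ = 1 := by rw [← sg_mul, mul_inv_cancel, sg_one]
  have h2 := D.sg_sq c
  calc D.sg c⁻¹ = (D.sg c * D.sg c) * D.sg c⁻¹ := by rw [h2, one_mul]
    _ = D.sg c := by rw [mul_assoc, h1, mul_one]

lemma β_one (D : SGrp k C n) (i j : Fin n) : D.β i j 1 = 0 := by
  have := D.β_mul i j 1 1
  rw [mul_one] at this
  simpa using this

lemma β_inv (D : SGrp k C n) (i j : Fin n) (c : C) : D.β i j c⁻¹ = - D.β i j c := by
  have := D.β_mul i j c c⁻¹
  rw [mul_inv_cancel, D.β_one] at this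
  exact (neg_eq_of_add_eq_zero_right this.symm).symm

/-- The relations: the `e c` are orthogonal idempotents with sum `1`, the `x i` shift the weight,
and their anticommutators are given by `β`. -/
structure HRels (D : SGrp k C n) {A : Type*} [Ring A] [Algebra k A] (e : C → A) (x : Fin n → A) :
    Prop where
  ee : ∀ c c', e c * e c' = if c = c' then e c else 0
  e_sum : ∑ c, e c = 1
  x_e : ∀ i c, x i * e c = e (D.χ i * c) * x i
  x_sq : ∀ i, x i * x i = ∑ c, D.β i i c • e c
  x_anti : ∀ i j, i ≠ j → x i * x j + x j * x i = ∑ c, D.β i j c • e c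

/-- idempotents in the free algebra -/
def he (k : Type u) [Field k] {C : Type} {n : ℕ} (c : C) : FreeAlgebra k (HGen C n) :=
  FreeAlgebra.ι k (HGen.e c)
/-- odd elements in the free algebra -/
def hx (k : Type u) [Field k] {C : Type} {n : ℕ} (i : Fin n) : FreeAlgebra k (HGen C n) :=
  FreeAlgebra.ι k (HGen.x i)

/-- The defining relations, in the free algebra. -/
inductive HRel (D : SGrp k C n) : FreeAlgebra k (HGen C n) → FreeAlgebra k (HGen C n) → Prop
  | ee (c c' : C) : HRel D (he k c * he k c') (if c = c' then he k c else 0)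
  | e_sum : HRel D (∑ c, he k c) 1
  | x_e (i : Fin n) (c : C) : HRel D (hx k i * he k c) (he k (D.χ i * c) * hx k i)
  | x_sq (i : Fin n) : HRel D (hx k i * hx k i) (∑ c, D.β i i c • he k c)
  | x_anti (i j : Fin n) : i ≠ j → HRel D (hx k i * hx k j + hx k j * hx k i)
      (∑ c, D.β i j c • he k c)

/-- The presented algebra. -/
def H (D : SGrp k C n) : Type u := RingQuot (HRel D)

noncomputable instance (D : SGrp k C n) : Ring D.H := inferInstanceAs (Ring (RingQuot (HRel D)))
noncomputable instance (D : SGrp k C n) : Algebra k D.H :=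
  inferInstanceAs (Algebra k (RingQuot (HRel D)))

/-- the quotient map -/
noncomputable def mkH (D : SGrp k C n) : FreeAlgebra k (HGen C n) →ₐ[k] D.H :=
  RingQuot.mkAlgHom k (HRel D)

lemma mkH_rel (D : SGrp k C n) {a b : FreeAlgebra k (HGen C n)} (h : HRel D a b) :
    D.mkH a = D.mkH b := RingQuot.mkAlgHom_rel k h

/-- idempotents -/
noncomputable def e (D : SGrp k C n) (c : C) : D.H := D.mkH (he k c)
/-- odd elements -/
noncomputable def x (D : SGrp k C n) (i : Fin n) : D.H := D.mkH (hx k i)

theorem hrels (D : SGrp k C n) : HRels D D.e D.x where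
  ee c c' := by
    have := D.mkH_rel (HRel.ee c c')
    rw [map_mul] at this
    rw [e, e, this]
    split_ifs <;> simp
  e_sum := by
    have := D.mkH_rel HRel.e_sum
    rw [map_sum, map_one] at this
    exact this
  x_e i c := by
    have := D.mkH_rel (HRel.x_e i c)
    rw [map_mul, map_mul] at this
    exact this
  x_sq i := by
    have := D.mkH_rel (HRel.x_sq i)
    rw [map_mul, map_sum] at this
    simp only [map_smul] at this
    exact this
  x_anti i j h := by
    have := D.mkH_rel (HRel.x_anti i j h)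
    rw [map_add, map_mul, map_mul, map_sum] at this
    simp only [map_smul] at this
    exact this

/-- values on the generators -/
def hgenMap {A : Type*} (e' : C → A) (x' : Fin n → A) : HGen C n → A
  | HGen.e c => e' c
  | HGen.x i => x' i

section lift

variable {D : SGrp k C n} {A : Type*} [Ring A] [Algebra k A] {e' : C → A} {x' : Fin n → A}

lemma lift_aux (h : HRels D e' x') ⦃a b : FreeAlgebra k (HGen C n)⦄ (hab : HRel D a b) :
    FreeAlgebra.lift k (hgenMap e' x') a = FreeAlgebra.lift k (hgenMap e' x') b := by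
  have he : ∀ c, FreeAlgebra.lift k (hgenMap e' x') (he k c) = e' c := fun c => by
    simp [SGrp.he, hgenMap]
  have hx : ∀ a, FreeAlgebra.lift k (hgenMap e' x') (hx k a) = x' a := fun a => by
    simp [SGrp.hx, hgenMap]
  cases hab with
  | ee c c' =>
    rw [map_mul, he, he, h.ee]
    split_ifs <;> simp [he]
  | e_sum => simp [he, h.e_sum]
  | x_e i c => simp [he, hx, h.x_e]
  | x_sq i => simp [hx, he, h.x_sq]
  | x_anti i j hij => simp [hx, he, h.x_anti i j hij]

/-- The universal property. -/
noncomputable def lift (h : HRels D e' x') : D.H →ₐ[k] A :=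
  RingQuot.liftAlgHom k ⟨FreeAlgebra.lift k (hgenMap e' x'), lift_aux h⟩

lemma lift_mkH (h : HRels D e' x') (a : FreeAlgebra k (HGen C n)) :
    lift h (D.mkH a) = FreeAlgebra.lift k (hgenMap e' x') a :=
  RingQuot.liftAlgHom_mkAlgHom_apply k (FreeAlgebra.lift k (hgenMap e' x')) (lift_aux h) a

lemma lift_e (h : HRels D e' x') (c : C) : lift h (D.e c) = e' c := by
  rw [e, lift_mkH]
  simp [SGrp.he, hgenMap]

lemma lift_x (h : HRels D e' x') (i : Fin n) : lift h (D.x i) = x' i := by
  rw [x, lift_mkH]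
  simp [SGrp.hx, hgenMap]

lemma hom_ext {f g : D.H →ₐ[k] A} (he : ∀ c, f (D.e c) = g (D.e c))
    (hx : ∀ i, f (D.x i) = g (D.x i)) : f = g := by
  refine RingQuot.ringQuot_ext' k f g ?_
  refine FreeAlgebra.hom_ext ?_
  funext a
  cases a with
  | e c => exact he c
  | x i => exact hx i

end lift

theorem adjoin_eq_top (D : SGrp k C n) :
    Algebra.adjoin k (Set.range D.e ∪ Set.range D.x) = ⊤ := by
  have h1 : Algebra.adjoin k (Set.range (FreeAlgebra.ι k : HGen C n → _)) = ⊤ :=
    FreeAlgebra.adjoin_range_ι k (HGen C n)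
  have h2 : Function.Surjective D.mkH := RingQuot.mkAlgHom_surjective k _
  have h3 : (Algebra.adjoin k (Set.range (FreeAlgebra.ι k : HGen C n → _))).map D.mkH = ⊤ := by
    rw [h1, Algebra.map_top, AlgHom.range_eq_top]
    exact h2
  rw [← h3, AlgHom.map_adjoin]
  congr 1
  ext y
  constructor
  · rintro (⟨c, rfl⟩ | ⟨a, rfl⟩)
    · exact ⟨_, ⟨HGen.e c, rfl⟩, rfl⟩
    · exact ⟨_, ⟨HGen.x a, rfl⟩, rfl⟩
  · rintro ⟨_, ⟨c | a, rfl⟩, rfl⟩
    · exact Or.inl ⟨c, rfl⟩
    · exact Or.inr ⟨a, rfl⟩

/-- Induction principle. -/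
theorem induction_on {D : SGrp k C n} {P : D.H → Prop} (y : D.H) (he : ∀ c, P (D.e c))
    (hx : ∀ i, P (D.x i)) (hr : ∀ r : k, P (algebraMap k D.H r))
    (ha : ∀ a b, P a → P b → P (a + b)) (hm : ∀ a b, P a → P b → P (a * b)) : P y := by
  have hy : y ∈ Algebra.adjoin k (Set.range D.e ∪ Set.range D.x) := by
    rw [D.adjoin_eq_top]; trivial
  induction hy using Algebra.adjoin_induction with
  | mem x hx' =>
    rcases hx' with ⟨c, rfl⟩ | ⟨i, rfl⟩
    · exact he c
    · exact hx i
  | algebraMap r => exact hr r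
  | add a b _ _ h1 h2 => exact ha a b h1 h2
  | mul a b _ _ h1 h2 => exact hm a b h1 h2

namespace HRels

variable {D : SGrp k C n} {A : Type*} [Ring A] [Algebra k A] {e : C → A} {x : Fin n → A}
  (h : HRels D e x)

/-- the parity element -/
def sel (D : SGrp k C n) {A : Type*} [Ring A] [Algebra k A] (e : C → A) : A := ∑ c, D.sg c • e c

include h in
lemma sum_smul_mul (f : C → k) (c : C) : (∑ a, f a • e a) * e c = f c • e c := by
  rw [sum_mul, Finset.sum_eq_single c]
  · rw [smul_mul_assoc, h.ee, if_pos rfl]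
  · intro b _ hb
    rw [smul_mul_assoc, h.ee, if_neg hb, smul_zero]
  · simp

include h in
lemma mul_sum_smul (f : C → k) (c : C) : e c * (∑ a, f a • e a) = f c • e c := by
  rw [mul_sum, Finset.sum_eq_single c]
  · rw [mul_smul_comm, h.ee, if_pos rfl]
  · intro b _ hb
    rw [mul_smul_comm, h.ee, if_neg hb.symm, smul_zero]
  · simp

include h in
lemma sum_smul_mul_sum_smul (f g : C → k) : (∑ a, f a • e a) * (∑ a, g a • e a) =
    ∑ a, (f a * g a) • e a := by
  rw [mul_sum]
  refine sum_congr rfl fun c _ => ?_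
  rw [mul_smul_comm, h.sum_smul_mul, smul_smul, mul_comm]

include h in
lemma x_sum_smul (f : C → k) (i : Fin n) : x i * (∑ a, f a • e a) =
    (∑ a, f ((D.χ i)⁻¹ * a) • e a) * x i := by
  rw [mul_sum, sum_mul]
  refine Fintype.sum_equiv (Equiv.mulLeft (D.χ i)) _ _ fun c => ?_
  rw [mul_smul_comm, h.x_e, smul_mul_assoc]
  simp

include h in
lemma sel_sel : sel D e * sel D e = 1 := by
  rw [sel, h.sum_smul_mul_sum_smul, ← h.e_sum]
  simp [D.sg_sq]

include h in
lemma sel_e (c : C) : sel D e * e c = D.sg c • e c := h.sum_smul_mul _ _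

include h in
lemma e_sel (c : C) : e c * sel D e = D.sg c • e c := h.mul_sum_smul _ _

include h in
lemma x_sel (i : Fin n) : x i * sel D e = - (sel D e * x i) := by
  rw [sel, h.x_sum_smul, ← neg_mul, ← sum_neg_distrib]
  congr 1
  refine sum_congr rfl fun c _ => ?_
  rw [D.sg_mul, D.sg_inv, D.sg_χ, neg_one_mul, neg_smul]

end HRels

end SGrp

end Pool.Agent.H170_FG
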