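import Pool.Agent.H170_FG.Bos

/-!
# The Hopf algebra structure
-/

set_option linter.unusedSectionVars false

universe u

open Finset TensorProduct

namespace Pool.Agent.H170_FG

variable {k : Type u} [Field k] {C : Type} [CommGroup C] [Fintype C] [DecidableEq C] {n : ℕ}

namespace SGrp

variable (D : SGrp k C n)

/-- the parity element -/
noncomputable def s : D.H := HRels.sel D D.e

/-- coproduct of the idempotents -/
noncomputable def de (c : C) : D.H ⊗[k] D.H := ∑ a, D.e a ⊗ₜ[k] D.e (a⁻¹ * c)

/-- coproduct of the odd elements -/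
noncomputable def dx (i : Fin n) : D.H ⊗[k] D.H := D.x i ⊗ₜ[k] 1 + D.s ⊗ₜ[k] D.x i

lemma sum_smul_de (f : C → k) : ∑ c, f c • D.de c =
    ∑ a, ∑ b, f (a * b) • (D.e a ⊗ₜ[k] D.e b) := by
  simp only [de, smul_sum]
  rw [sum_comm]
  refine sum_congr rfl fun a _ => ?_
  refine Fintype.sum_equiv (Equiv.mulLeft a⁻¹) _ _ fun c => ?_
  simp

lemma s_s : D.s * D.s = 1 := D.hrels.sel_sel

lemma x_s (i : Fin n) : D.x i * D.s = - (D.s * D.x i) := D.hrels.x_sel i

lemma drels : HRels D D.de D.dx where
  ee c c' := by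
    have h1 : ∀ a, D.e a ⊗ₜ[k] D.e (a⁻¹ * c) * D.de c' = if c = c' then D.e a ⊗ₜ[k] D.e (a⁻¹ * c)
        else 0 := by
      intro a
      rw [de, mul_sum, Finset.sum_eq_single a]
      · rw [Algebra.TensorProduct.tmul_mul_tmul, D.hrels.ee, D.hrels.ee, if_pos rfl]
        by_cases h : c = c'
        · simp [h]
        · simp [h]
      · intro b _ hb
        rw [Algebra.TensorProduct.tmul_mul_tmul, D.hrels.ee, if_neg hb.symm, zero_tmul]
      · simp
    conv_lhs => rw [de]
    rw [sum_mul, sum_congr rfl fun a _ => h1 a]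
    split_ifs
    · rfl
    · simp
  e_sum := by
    have := D.sum_smul_de (fun _ => 1)
    simp only [one_smul] at this
    rw [this, ← sum_comm]
    simp only [← sum_tmul, D.hrels.e_sum, ← tmul_sum]
    rfl
  x_e i c := by
    rw [dx, add_mul, mul_add, de, de, mul_sum, mul_sum, sum_mul, sum_mul]
    congr 1
    · refine Fintype.sum_equiv (Equiv.mulLeft (D.χ i)) _ _ fun a => ?_
      rw [Algebra.TensorProduct.tmul_mul_tmul, Algebra.TensorProduct.tmul_mul_tmul, one_mul,
        mul_one, D.hrels.x_e]
      congr 2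
      simp only [Equiv.coe_mulLeft, mul_inv_rev]
      rw [mul_assoc, inv_mul_cancel_left]
    · refine sum_congr rfl fun a _ => ?_
      rw [Algebra.TensorProduct.tmul_mul_tmul, Algebra.TensorProduct.tmul_mul_tmul, s,
        D.hrels.sel_e, D.hrels.e_sel, D.hrels.x_e, mul_left_comm]
  x_sq i := by
    rw [D.sum_smul_de]
    simp only [D.β_mul, add_smul, sum_add_distrib]
    have h1 : D.dx i * D.dx i = (D.x i * D.x i) ⊗ₜ[k] 1 + 1 ⊗ₜ[k] (D.x i * D.x i) := by
      rw [dx, add_mul, mul_add, mul_add]
      simp only [Algebra.TensorProduct.tmul_mul_tmul, one_mul, mul_one, D.s_s, D.x_s, neg_tmul]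
      abel
    rw [h1, D.hrels.x_sq, sum_tmul, tmul_sum]
    congr 1
    · refine sum_congr rfl fun a _ => ?_
      rw [← smul_sum, ← tmul_sum, D.hrels.e_sum, smul_tmul']
    · rw [sum_comm]
      refine sum_congr rfl fun a _ => ?_
      rw [← smul_sum, ← sum_tmul, D.hrels.e_sum, tmul_smul]
  x_anti i j hij := by
    rw [D.sum_smul_de]
    simp only [D.β_mul, add_smul, sum_add_distrib]
    have h1 : D.dx i * D.dx j + D.dx j * D.dx i =
        (D.x i * D.x j + D.x j * D.x i) ⊗ₜ[k] 1 + 1 ⊗ₜ[k] (D.x i * D.x j + D.x j * D.x i) := by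
      rw [dx, dx, add_mul, mul_add, mul_add, add_mul, mul_add, mul_add]
      simp only [Algebra.TensorProduct.tmul_mul_tmul, one_mul, mul_one, D.s_s, D.x_s, neg_tmul,
        add_tmul, tmul_add]
      abel
    rw [h1, D.hrels.x_anti i j hij, sum_tmul, tmul_sum]
    congr 1
    · refine sum_congr rfl fun a _ => ?_
      rw [← smul_sum, ← tmul_sum, D.hrels.e_sum, smul_tmul']
    · rw [sum_comm]
      refine sum_congr rfl fun a _ => ?_
      rw [← smul_sum, ← sum_tmul, D.hrels.e_sum, tmul_smul]

/-- the coproduct -/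
noncomputable def comulA : D.H →ₐ[k] D.H ⊗[k] D.H := lift D.drels

lemma comulA_e (c : C) : D.comulA (D.e c) = D.de c := lift_e _ c

lemma comulA_x (i : Fin n) : D.comulA (D.x i) = D.dx i := lift_x _ i

/-- values of the counit -/
def ce (k : Type u) [Field k] {C : Type} [CommGroup C] [DecidableEq C] (c : C) : k :=
  if c = 1 then 1 else 0

lemma crels : HRels D (ce k) (fun _ : Fin n => (0 : k)) where
  ee c c' := by
    unfold ce
    by_cases h : c = c'
    · subst h
      by_cases h1 : c = 1 <;> simp [h1]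
    · by_cases h1 : c = 1
      · subst h1
        simp [h, Ne.symm h]
      · simp [h1, h]
  e_sum := by simp [ce]
  x_e i c := by simp
  x_sq i := by
    rw [zero_mul, Finset.sum_eq_single 1]
    · rw [D.β_one, zero_smul]
    · intro c _ hc
      simp [ce, hc]
    · simp
  x_anti i j _ := by
    rw [zero_mul, zero_add, Finset.sum_eq_single 1]
    · rw [D.β_one, zero_smul]
    · intro c _ hc
      simp [ce, hc]
    · simp

/-- the counit -/
noncomputable def counitA : D.H →ₐ[k] k := lift D.crels

lemma counitA_e (c : C) : D.counitA (D.e c) = if c = 1 then 1 else 0 := lift_e _ c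

lemma counitA_x (i : Fin n) : D.counitA (D.x i) = 0 := lift_x _ i

lemma counitA_s : D.counitA D.s = 1 := by
  rw [s, HRels.sel, map_sum]
  simp only [map_smul, D.counitA_e, smul_eq_mul, mul_ite, mul_one, mul_zero, Finset.sum_ite_eq',
    mem_univ, if_true, D.sg_one]

lemma comulA_s : D.comulA D.s = D.s ⊗ₜ[k] D.s := by
  rw [s, HRels.sel, map_sum]
  simp only [map_smul, D.comulA_e]
  rw [D.sum_smul_de, sum_tmul]
  refine sum_congr rfl fun a _ => ?_
  rw [tmul_sum]
  refine sum_congr rfl fun b _ => ?_
  rw [D.sg_mul, smul_tmul_smul]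

lemma coassocA : (Algebra.TensorProduct.assoc k k k D.H D.H D.H).toAlgHom.comp
      ((Algebra.TensorProduct.map D.comulA (.id k D.H)).comp D.comulA)
      = (Algebra.TensorProduct.map (.id k D.H) D.comulA).comp D.comulA := by
  refine hom_ext (fun c => ?_) (fun i => ?_)
  · simp only [AlgHom.comp_apply, D.comulA_e, de, map_sum, Algebra.TensorProduct.map_tmul,
      AlgHom.id_apply]
    simp only [sum_tmul, tmul_sum, map_sum]
    rw [sum_comm]
    refine sum_congr rfl fun a _ => ?_
    refine Fintype.sum_equiv (Equiv.mulLeft a⁻¹) _ _ fun b => ?_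
    simp [mul_assoc]
  · simp only [AlgHom.comp_apply, D.comulA_x, dx, map_add, Algebra.TensorProduct.map_tmul,
      AlgHom.id_apply, D.comulA_s, map_one, Algebra.TensorProduct.one_def, add_tmul, tmul_add]
    simp [add_assoc]

lemma rTensorA : (Algebra.TensorProduct.map D.counitA (.id k D.H)).comp D.comulA
      = (Algebra.TensorProduct.lid k D.H).symm := by
  refine hom_ext (fun c => ?_) (fun i => ?_)
  · simp only [AlgHom.comp_apply, D.comulA_e, de, map_sum, Algebra.TensorProduct.map_tmul,
      AlgHom.id_apply, D.counitA_e]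
    rw [Finset.sum_eq_single 1]
    · simp
    · intro b _ hb
      simp [hb]
    · simp
  · simp [AlgHom.comp_apply, D.comulA_x, dx, map_add, Algebra.TensorProduct.map_tmul,
      AlgHom.id_apply, D.counitA_s, D.counitA_x]

lemma lTensorA : (Algebra.TensorProduct.map (.id k D.H) D.counitA).comp D.comulA
      = (Algebra.TensorProduct.rid k k D.H).symm := by
  refine hom_ext (fun c => ?_) (fun i => ?_)
  · simp only [AlgHom.comp_apply, D.comulA_e, de, map_sum, Algebra.TensorProduct.map_tmul,
      AlgHom.id_apply, D.counitA_e]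
    rw [Finset.sum_eq_single c]
    · simp
    · intro b _ hb
      have : ¬ b⁻¹ * c = 1 := fun h => hb (inv_mul_eq_one.mp h)
      simp [this]
    · simp
  · simp [AlgHom.comp_apply, D.comulA_x, dx, map_add, Algebra.TensorProduct.map_tmul,
      AlgHom.id_apply, D.counitA_s, D.counitA_x]

noncomputable instance : Bialgebra k D.H := Bialgebra.ofAlgHom D.comulA D.counitA
  D.coassocA D.rTensorA D.lTensorA

lemma comul_eq (y : D.H) : Coalgebra.comul (R := k) y = D.comulA y := rfl

lemma counit_eq (y : D.H) : Coalgebra.counit (R := k) y = D.counitA y := rfl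

/-! ### Antipode -/

lemma arels : HRels D (fun c => MulOpposite.op (D.e c⁻¹))
    (fun i => MulOpposite.op (- (D.s * D.x i))) where
  ee c c' := by
    rw [← MulOpposite.op_mul, D.hrels.ee]
    by_cases h : c = c'
    · simp [h]
    · simp [h, Ne.symm h]
  e_sum := by
    rw [← Finset.op_sum, ← MulOpposite.op_one, ← D.hrels.e_sum]
    congr 1
    exact Equiv.sum_comp (Equiv.inv C) D.e
  x_e i c := by
    rw [← MulOpposite.op_mul, ← MulOpposite.op_mul]
    congr 1
    rw [mul_neg, neg_mul, ← mul_assoc, mul_assoc D.s, D.hrels.x_e, s, D.hrels.e_sel,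
      ← mul_assoc, D.hrels.sel_e]
    simp [D.sg_mul]
  x_sq i := by
    rw [← MulOpposite.op_mul, neg_mul_neg, mul_assoc, ← mul_assoc (D.x i), D.x_s, neg_mul, mul_neg,
      ← mul_assoc, ← mul_assoc, D.s_s, one_mul, D.hrels.x_sq, ← sum_neg_distrib,
      ← Equiv.sum_comp (Equiv.inv C)]
    simp only [Equiv.inv_apply, D.β_inv, neg_smul, neg_neg]
    rw [Finset.op_sum]
    simp
  x_anti i j hij := by
    have h1 : ∀ i j, (- (D.s * D.x i)) * (- (D.s * D.x j)) = - (D.x i * D.x j) := by
      intro i j
      rw [neg_mul_neg, mul_assoc, ← mul_assoc (D.x i), D.x_s, neg_mul, mul_neg,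
        ← mul_assoc, ← mul_assoc, D.s_s, one_mul]
    rw [← MulOpposite.op_mul, ← MulOpposite.op_mul, ← MulOpposite.op_add, h1, h1, ← neg_add,
      D.hrels.x_anti j i hij.symm, ← sum_neg_distrib, ← Equiv.sum_comp (Equiv.inv C)]
    simp only [Equiv.inv_apply, D.β_inv, neg_smul, neg_neg]
    rw [Finset.op_sum]
    simp [D.β_symm j i]

/-- the antipode, as an algebra homomorphism to the opposite algebra -/
noncomputable def antA : D.H →ₐ[k] D.Hᵐᵒᵖ := lift D.arels

/-- the antipode -/
noncomputable def ant : D.H →ₗ[k] D.H :=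
  (MulOpposite.opLinearEquiv k).symm.toLinearMap ∘ₗ D.antA.toLinearMap

lemma ant_apply (y : D.H) : D.ant y = (D.antA y).unop := rfl

lemma ant_e (c : C) : D.ant (D.e c) = D.e c⁻¹ := by
  rw [ant_apply, antA, lift_e, MulOpposite.unop_op]

lemma ant_x (i : Fin n) : D.ant (D.x i) = - (D.s * D.x i) := by
  rw [ant_apply, antA, lift_x, MulOpposite.unop_op]

lemma ant_mul (y z : D.H) : D.ant (y * z) = D.ant z * D.ant y := by
  rw [ant_apply, map_mul, MulOpposite.unop_mul]
  rfl

lemma ant_one : D.ant 1 = 1 := by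
  rw [ant_apply, map_one, MulOpposite.unop_one]

lemma ant_s : D.ant D.s = D.s := by
  rw [s, HRels.sel, map_sum, ← Equiv.sum_comp (Equiv.inv C)]
  simp [D.ant_e, D.sg_inv]

lemma ant_algebraMap (r : k) : D.ant (algebraMap k D.H r) = algebraMap k D.H r := by
  rw [ant_apply, AlgHom.commutes]
  rfl

/-- A twisted convolution identity is multiplicative. -/
lemma conv_mul_aux (F : D.H ⊗[k] D.H →ₗ[k] D.H)
    (hF : ∀ b b' : D.H, ∃ p q : D.H, F (b ⊗ₜ[k] b') = p * q ∧
      ∀ a, F (a * b ⊗ₜ[k] b') = p * F a * q) {y z : D.H}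
    (hy : F (Coalgebra.comul y) = algebraMap k D.H (Coalgebra.counit y))
    (hz : F (Coalgebra.comul z) = algebraMap k D.H (Coalgebra.counit z)) :
    F (Coalgebra.comul (y * z)) = algebraMap k D.H (Coalgebra.counit (y * z)) := by
  rw [Bialgebra.comul_mul, Bialgebra.counit_mul, map_mul (algebraMap k D.H), ← hz]
  have key : ∀ a b : D.H ⊗[k] D.H, F a = algebraMap k D.H (Coalgebra.counit y) →
      F (a * b) = algebraMap k D.H (Coalgebra.counit y) * F b := by
    intro a b ha
    induction b using TensorProduct.induction_on with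
    | zero => simp
    | add b b' h h' => rw [mul_add, map_add, h, h', map_add, mul_add]
    | tmul b b' =>
      obtain ⟨p, q, h1, h2⟩ := hF b b'
      rw [h2, ha, h1, ← Algebra.commutes, mul_assoc]
  exact key _ _ hy

lemma conv_mul_aux' (F : D.H ⊗[k] D.H →ₗ[k] D.H)
    (hF : ∀ b b' : D.H, ∃ p q : D.H, F (b ⊗ₜ[k] b') = p * q ∧
      ∀ a, F (b ⊗ₜ[k] b' * a) = p * F a * q) {y z : D.H}
    (hy : F (Coalgebra.comul y) = algebraMap k D.H (Coalgebra.counit y))
    (hz : F (Coalgebra.comul z) = algebraMap k D.H (Coalgebra.counit z)) :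
    F (Coalgebra.comul (y * z)) = algebraMap k D.H (Coalgebra.counit (y * z)) := by
  rw [Bialgebra.comul_mul, Bialgebra.counit_mul, map_mul (algebraMap k D.H), ← hy]
  have key : ∀ a b : D.H ⊗[k] D.H, F a = algebraMap k D.H (Coalgebra.counit z) →
      F (b * a) = F b * algebraMap k D.H (Coalgebra.counit z) := by
    intro a b ha
    induction b using TensorProduct.induction_on with
    | zero => simp
    | add b b' h h' => rw [add_mul, map_add, h, h', map_add, add_mul]
    | tmul b b' =>
      obtain ⟨p, q, h1, h2⟩ := hF b b'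
      rw [h2, ha, h1, ← Algebra.commutes, mul_assoc, ← Algebra.commutes]
  exact key _ _ hz

lemma comul_s : Coalgebra.comul (R := k) D.s = D.s ⊗ₜ[k] D.s := D.comulA_s

lemma ant_left (y : D.H) : LinearMap.mul' k D.H (D.ant.rTensor D.H (Coalgebra.comul y)) =
    algebraMap k D.H (Coalgebra.counit y) := by
  induction y using induction_on with
  | he c =>
    rw [comul_eq, comulA_e, de, map_sum, map_sum, counit_eq, counitA_e]
    simp only [LinearMap.rTensor_tmul, LinearMap.mul'_apply, D.ant_e, D.hrels.ee]
    by_cases h : c = 1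
    · subst h
      have := (Equiv.sum_comp (Equiv.inv C) D.e).trans D.hrels.e_sum
      simpa using this
    · rw [if_neg h, map_zero]
      refine sum_eq_zero fun a _ => ?_
      rw [if_neg]
      intro h'
      exact h (by simpa using h'.symm)
  | hx i =>
    rw [comul_eq, comulA_x, dx, counit_eq, counitA_x, map_zero, map_add, map_add,
      LinearMap.rTensor_tmul, LinearMap.rTensor_tmul, LinearMap.mul'_apply, LinearMap.mul'_apply,
      D.ant_x, D.ant_s, mul_one, neg_add_cancel]
  | hr r =>
    rw [Algebra.algebraMap_eq_smul_one, map_smul, map_smul, map_smul, map_smul,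
      Bialgebra.comul_one, Bialgebra.counit_one, Algebra.TensorProduct.one_def,
      LinearMap.rTensor_tmul, LinearMap.mul'_apply, D.ant_one, mul_one,
      Algebra.algebraMap_eq_smul_one, smul_assoc, one_smul]
  | ha a b h1 h2 => rw [map_add, map_add, map_add, h1, h2, map_add, map_add]
  | hm a b h1 h2 =>
    refine D.conv_mul_aux (LinearMap.mul' k D.H ∘ₗ D.ant.rTensor D.H) ?_ h1 h2
    intro b b'
    refine ⟨D.ant b, b', rfl, fun a => ?_⟩
    induction a using TensorProduct.induction_on with
    | zero => simp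
    | add a a' h h' => rw [add_mul, map_add, h, h', map_add, mul_add, add_mul]
    | tmul a a' =>
      rw [Algebra.TensorProduct.tmul_mul_tmul]
      simp [D.ant_mul, mul_assoc]

lemma ant_right (y : D.H) : LinearMap.mul' k D.H (D.ant.lTensor D.H (Coalgebra.comul y)) =
    algebraMap k D.H (Coalgebra.counit y) := by
  induction y using induction_on with
  | he c =>
    rw [comul_eq, comulA_e, de, map_sum, map_sum, counit_eq, counitA_e]
    simp only [LinearMap.lTensor_tmul, LinearMap.mul'_apply, D.ant_e, D.hrels.ee]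
    by_cases h : c = 1
    · subst h
      simp [D.hrels.e_sum]
    · rw [if_neg h, map_zero]
      refine sum_eq_zero fun a _ => ?_
      rw [if_neg]
      intro h'
      refine h ?_
      rw [mul_inv_rev, inv_inv, eq_comm, inv_mul_eq_iff_eq_mul] at h'
      simpa using h'.symm
  | hx i =>
    rw [comul_eq, comulA_x, dx, counit_eq, counitA_x, map_zero, map_add, map_add,
      LinearMap.lTensor_tmul, LinearMap.lTensor_tmul, LinearMap.mul'_apply, LinearMap.mul'_apply,
      D.ant_x, D.ant_one, mul_one, mul_neg, ← mul_assoc, D.s_s, one_mul, add_neg_cancel]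
  | hr r =>
    rw [Algebra.algebraMap_eq_smul_one, map_smul, map_smul, map_smul, map_smul,
      Bialgebra.comul_one, Bialgebra.counit_one, Algebra.TensorProduct.one_def,
      LinearMap.lTensor_tmul, LinearMap.mul'_apply, D.ant_one, mul_one,
      Algebra.algebraMap_eq_smul_one, smul_assoc, one_smul]
  | ha a b h1 h2 => rw [map_add, map_add, map_add, h1, h2, map_add, map_add]
  | hm a b h1 h2 =>
    refine D.conv_mul_aux' (LinearMap.mul' k D.H ∘ₗ D.ant.lTensor D.H) ?_ h1 h2
    intro b b'
    refine ⟨b, D.ant b', rfl, fun a => ?_⟩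
    induction a using TensorProduct.induction_on with
    | zero => simp
    | add a a' h h' => rw [mul_add, map_add, h, h', map_add, mul_add, add_mul]
    | tmul a a' =>
      rw [Algebra.TensorProduct.tmul_mul_tmul]
      simp [D.ant_mul, mul_assoc]

noncomputable instance : HopfAlgebra k D.H where
  antipode := D.ant
  mul_antipode_rTensor_comul := LinearMap.ext D.ant_left
  mul_antipode_lTensor_comul := LinearMap.ext D.ant_right

/-- the skew antipode -/
noncomputable def sant : D.H →ₗ[k] D.H := D.ant ∘ₗ D.ant ∘ₗ D.ant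

lemma sant_mul (y z : D.H) : D.sant (y * z) = D.sant z * D.sant y := by
  simp [sant, D.ant_mul]

lemma sant_x (i : Fin n) : D.sant (D.x i) = D.s * D.x i := by
  simp only [sant, LinearMap.comp_apply, D.ant_x, map_neg, D.ant_mul, D.ant_s, neg_mul, neg_neg]
  rw [mul_assoc, D.x_s, mul_neg, ← mul_assoc, D.s_s, one_mul, neg_neg]

lemma sant_left (y : D.H) : LinearMap.mul' k D.H (D.sant.rTensor D.H
    (TensorProduct.comm k D.H D.H (Coalgebra.comul y))) =
    algebraMap k D.H (Coalgebra.counit y) := by
  induction y using induction_on with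
  | he c =>
    rw [comul_eq, comulA_e, de, map_sum, map_sum, map_sum, counit_eq, counitA_e]
    simp only [TensorProduct.comm_tmul, LinearMap.rTensor_tmul, LinearMap.mul'_apply, sant,
      LinearMap.comp_apply, D.ant_e, D.hrels.ee]
    by_cases h : c = 1
    · subst h
      simp [D.hrels.e_sum]
    · rw [if_neg h, map_zero]
      refine sum_eq_zero fun a _ => ?_
      rw [if_neg]
      intro h'
      refine h ?_
      rw [inv_inv, mul_inv_rev, inv_inv, inv_mul_eq_iff_eq_mul] at h'
      simpa using h'.symm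
  | hx i =>
    rw [comul_eq, comulA_x, dx, counit_eq, counitA_x, map_zero, map_add, map_add, map_add,
      TensorProduct.comm_tmul, TensorProduct.comm_tmul,
      LinearMap.rTensor_tmul, LinearMap.rTensor_tmul, LinearMap.mul'_apply, LinearMap.mul'_apply,
      D.sant_x]
    have : D.sant 1 = 1 := by simp [sant, D.ant_one]
    rw [this, one_mul, mul_assoc, D.x_s, mul_neg, ← mul_assoc, D.s_s, one_mul, add_neg_cancel]
  | hr r =>
    have : D.sant 1 = 1 := by simp [sant, D.ant_one]
    rw [Algebra.algebraMap_eq_smul_one, map_smul, map_smul, map_smul, map_smul, map_smul,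
      Bialgebra.comul_one, Bialgebra.counit_one, Algebra.TensorProduct.one_def,
      TensorProduct.comm_tmul,
      LinearMap.rTensor_tmul, LinearMap.mul'_apply, this, mul_one,
      Algebra.algebraMap_eq_smul_one, smul_assoc, one_smul]
  | ha a b h1 h2 => rw [map_add, map_add, map_add, map_add, h1, h2, map_add, map_add]
  | hm a b h1 h2 =>
    refine D.conv_mul_aux (LinearMap.mul' k D.H ∘ₗ D.sant.rTensor D.H ∘ₗ
      (TensorProduct.comm k D.H D.H).toLinearMap) ?_ h1 h2
    intro b b'
    refine ⟨D.sant b', b, rfl, fun a => ?_⟩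
    induction a using TensorProduct.induction_on with
    | zero => simp
    | add a a' h h' => rw [add_mul, map_add, h, h', map_add, mul_add, add_mul]
    | tmul a a' =>
      rw [Algebra.TensorProduct.tmul_mul_tmul]
      simp [D.sant_mul, mul_assoc]

end SGrp

end Pool.Agent.H170_FG
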