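import Pool.Agent.H170_FG.Fock

/-!
# The convolution ring of functionals
-/

set_option linter.unusedSectionVars false

universe u

open Finset TensorProduct Module WithConv

namespace Pool.Agent.H170_FG

variable {k : Type u} [Field k] {C : Type} [CommGroup C] [Fintype C] [DecidableEq C] {n : ℕ}

namespace SGrp

variable (D : SGrp k C n)

/-- the convolution ring -/
abbrev QQ : Type u := WithConv (D.H →ₗ[k] k)

noncomputable instance : Ring D.QQ := inferInstance

variable {D}

lemma qneg_mul (p q : D.QQ) : -p * q = - (p * q) := neg_mul p q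

lemma qmul_neg (p q : D.QQ) : p * -q = - (p * q) := mul_neg p q

/-- left translation -/
noncomputable def lL (y : D.H) : D.QQ →ₗ[k] D.QQ where
  toFun q := toConv (q.ofConv ∘ₗ LinearMap.mulLeft k y)
  map_add' _ _ := rfl
  map_smul' _ _ := rfl

/-- right translation -/
noncomputable def rR (y : D.H) : D.QQ →ₗ[k] D.QQ where
  toFun q := toConv (q.ofConv ∘ₗ LinearMap.mulRight k y)
  map_add' _ _ := rfl
  map_smul' _ _ := rfl

lemma lL_apply (y z : D.H) (q : D.QQ) : lL y q z = q (y * z) := rfl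

lemma rR_apply (y z : D.H) (q : D.QQ) : rR y q z = q (z * y) := rfl

lemma qext {p q : D.QQ} (h : ∀ z, p z = q z) : p = q := WithConv.ext (LinearMap.ext h)

lemma lL_lL (y z : D.H) (q : D.QQ) : lL z (lL y q) = lL (y * z) q := by
  refine qext fun w => ?_
  rw [lL_apply, lL_apply, lL_apply, mul_assoc]

lemma lL_rR (y z : D.H) (q : D.QQ) : lL y (rR z q) = rR z (lL y q) := by
  refine qext fun w => ?_
  rw [lL_apply, rR_apply, rR_apply, lL_apply, mul_assoc]

lemma lL_one (q : D.QQ) : lL 1 q = q := by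
  refine qext fun w => ?_
  rw [lL_apply, one_mul]

lemma rR_one (q : D.QQ) : rR 1 q = q := by
  refine qext fun w => ?_
  rw [rR_apply, mul_one]

lemma mul_apply' (p q : D.QQ) (y : D.H) : (p * q) y =
    LinearMap.mul' k k (TensorProduct.map p.ofConv q.ofConv (Coalgebra.comul y)) := rfl

lemma lL_mul (p q : D.QQ) {ι : Type*} [Fintype ι] (a b : ι → D.H) (y : D.H)
    (hab : Coalgebra.comul (R := k) y = ∑ i, a i ⊗ₜ[k] b i) :
    lL y (p * q) = ∑ i, lL (a i) p * lL (b i) q := by
  refine qext fun z => ?_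
  have h1 : (∑ i, lL (a i) p * lL (b i) q : D.QQ) z = ∑ i, (lL (a i) p * lL (b i) q : D.QQ) z := by
    rw [ofConv_sum, LinearMap.sum_apply]
  rw [h1, lL_apply, mul_apply', Bialgebra.comul_mul, hab, sum_mul, map_sum, map_sum]
  refine sum_congr rfl fun i _ => ?_
  rw [mul_apply']
  generalize Coalgebra.comul (R := k) z = Z
  induction Z using TensorProduct.induction_on with
  | zero => simp
  | add X X' h h' => simp only [mul_add, map_add, h, h']
  | tmul c d =>
    rw [Algebra.TensorProduct.tmul_mul_tmul]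
    rfl

lemma rR_mul (p q : D.QQ) {ι : Type*} [Fintype ι] (a b : ι → D.H) (y : D.H)
    (hab : Coalgebra.comul (R := k) y = ∑ i, a i ⊗ₜ[k] b i) :
    rR y (p * q) = ∑ i, rR (a i) p * rR (b i) q := by
  refine qext fun z => ?_
  have h1 : (∑ i, rR (a i) p * rR (b i) q : D.QQ) z = ∑ i, (rR (a i) p * rR (b i) q : D.QQ) z := by
    rw [ofConv_sum, LinearMap.sum_apply]
  rw [h1, rR_apply, mul_apply', Bialgebra.comul_mul, hab, mul_sum, map_sum, map_sum]
  refine sum_congr rfl fun i _ => ?_
  rw [mul_apply']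
  generalize Coalgebra.comul (R := k) z = Z
  induction Z using TensorProduct.induction_on with
  | zero => simp
  | add X X' h h' => simp only [add_mul, map_add, h, h']
  | tmul c d =>
    rw [Algebra.TensorProduct.tmul_mul_tmul]
    rfl

lemma comul_e' (c : C) : Coalgebra.comul (R := k) (D.e c) = ∑ a, D.e a ⊗ₜ[k] D.e (a⁻¹ * c) :=
  D.comulA_e c

lemma comul_x' (i : Fin n) : Coalgebra.comul (R := k) (D.x i) =
    ∑ j, (![D.x i, D.s] : Fin 2 → D.H) j ⊗ₜ[k] (![1, D.x i] : Fin 2 → D.H) j := by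
  rw [Fin.sum_univ_two]
  exact D.comulA_x i

lemma lL_x_mul (i : Fin n) (p q : D.QQ) :
    lL (D.x i) (p * q) = lL (D.x i) p * q + lL D.s p * lL (D.x i) q := by
  rw [lL_mul p q _ _ _ (comul_x' i), Fin.sum_univ_two]
  simp only [Matrix.cons_val_zero, Matrix.cons_val_one, lL_one]

lemma rR_x_mul (i : Fin n) (p q : D.QQ) :
    rR (D.x i) (p * q) = rR (D.x i) p * q + rR D.s p * rR (D.x i) q := by
  rw [rR_mul p q _ _ _ (comul_x' i), Fin.sum_univ_two]
  simp only [Matrix.cons_val_zero, Matrix.cons_val_one, rR_one]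

/-- left weight -/
def Wt (p : D.QQ) (c : C) : Prop := ∀ a, lL (D.e a) p = if a = c then p else 0

/-- right weight -/
def WtR (p : D.QQ) (c : C) : Prop := ∀ a, rR (D.e a) p = if a = c then p else 0

lemma Wt.mul {p q : D.QQ} {c c' : C} (hp : Wt p c) (hq : Wt q c') : Wt (p * q) (c * c') := by
  intro a
  rw [lL_mul p q _ _ _ (comul_e' a), Finset.sum_eq_single c]
  · rw [hp, if_pos rfl, hq]
    by_cases h : a = c * c'
    · subst h
      simp
    · have : ¬ c⁻¹ * a = c' := fun h' => h (by rw [← h', mul_inv_cancel_left])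
      rw [if_neg h, if_neg this, mul_zero]
  · intro b _ hb
    rw [hp, if_neg hb, zero_mul]
  · simp

lemma WtR.mul {p q : D.QQ} {c c' : C} (hp : WtR p c) (hq : WtR q c') : WtR (p * q) (c * c') := by
  intro a
  rw [rR_mul p q _ _ _ (comul_e' a), Finset.sum_eq_single c]
  · rw [hp, if_pos rfl, hq]
    by_cases h : a = c * c'
    · subst h
      simp
    · have : ¬ c⁻¹ * a = c' := fun h' => h (by rw [← h', mul_inv_cancel_left])
      rw [if_neg h, if_neg this, mul_zero]
  · intro b _ hb
    rw [hp, if_neg hb, zero_mul]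
  · simp

lemma Wt.sub {p q : D.QQ} {c : C} (hp : Wt p c) (hq : Wt q c) : Wt (p - q) c := by
  intro a
  rw [map_sub, hp, hq]
  split_ifs <;> simp

lemma Wt.smul {p : D.QQ} {c : C} (r : k) (hp : Wt p c) : Wt (r • p) c := by
  intro a
  rw [map_smul, hp]
  split_ifs <;> simp

lemma Wt.neg {p : D.QQ} {c : C} (hp : Wt p c) : Wt (- p) c := by
  intro a
  rw [map_neg, hp]
  split_ifs <;> simp

lemma Wt.zero {c : C} : Wt (0 : D.QQ) c := by
  intro a
  rw [map_zero]
  split_ifs <;> simp

lemma Wt.sum {ι : Type*} (s : Finset ι) {p : ι → D.QQ} {c : C} (hp : ∀ i ∈ s, Wt (p i) c) :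
    Wt (∑ i ∈ s, p i) c := by
  intro a
  rw [map_sum, sum_congr rfl fun i hi => hp i hi a]
  split_ifs <;> simp

lemma Wt.sum_e {p : D.QQ} {c : C} (hp : Wt p c) (f : C → k) :
    lL (∑ a, f a • D.e a) p = f c • p := by
  refine qext fun z => ?_
  rw [lL_apply, sum_mul, map_sum, Finset.sum_eq_single c]
  · rw [smul_mul_assoc, map_smul, ← lL_apply, hp, if_pos rfl]
    rfl
  · intro b _ hb
    rw [smul_mul_assoc, map_smul, ← lL_apply, hp, if_neg hb]
    exact smul_zero _
  · simp

lemma WtR.sum_e {p : D.QQ} {c : C} (hp : WtR p c) (f : C → k) :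
    rR (∑ a, f a • D.e a) p = f c • p := by
  refine qext fun z => ?_
  rw [rR_apply, mul_sum, map_sum, Finset.sum_eq_single c]
  · rw [mul_smul_comm, map_smul, ← rR_apply, hp, if_pos rfl]
    rfl
  · intro b _ hb
    rw [mul_smul_comm, map_smul, ← rR_apply, hp, if_neg hb]
    exact smul_zero _
  · simp

lemma Wt.s {p : D.QQ} {c : C} (hp : Wt p c) : lL D.s p = D.sg c • p := hp.sum_e _

lemma WtR.s {p : D.QQ} {c : C} (hp : WtR p c) : rR D.s p = D.sg c • p := hp.sum_e _

variable (D)

/-- the functional dual to `x j`, in the convolution ring -/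
noncomputable def tq (j : Fin n) : D.QQ := toConv (D.th j)

lemma tq_apply (j : Fin n) (y : D.H) : D.tq j y = D.th j y := rfl

lemma tq_wt (j : Fin n) : Wt (D.tq j) (D.χ j) := by
  intro a
  refine qext fun z => ?_
  rw [lL_apply, tq_apply, th_mul, uA_e, th_e]
  split_ifs
  · simp [tq_apply]
  · simp

lemma tq_wtR (j : Fin n) : WtR (D.tq j) 1 := by
  intro a
  refine qext fun z => ?_
  rw [rR_apply, tq_apply, th_mul, counitA_e, th_e]
  split_ifs
  · simp [tq_apply]
  · simp

lemma one_apply' (y : D.H) : (1 : D.QQ) y = D.counitA y := rfl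

lemma lL_x_tq (i j : Fin n) : lL (D.x i) (D.tq j) = if i = j then 1 else 0 := by
  refine qext fun z => ?_
  rw [lL_apply, tq_apply, th_mul, uA_x, th_x]
  split_ifs
  · rw [one_apply', zero_mul, zero_add, one_mul]
  · simp

lemma rR_x_tq (i j : Fin n) : rR (D.x i) (D.tq j) = if i = j then toConv (D.uw j) else 0 := by
  refine qext fun z => ?_
  rw [rR_apply, tq_apply, th_mul, counitA_x, th_x]
  split_ifs
  · rw [mul_one, mul_zero, add_zero]
    rfl
  · simp

lemma lL_x_tq_mul (i j : Fin n) (q : D.QQ) : lL (D.x i) (D.tq j * q) =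
    (if i = j then q else 0) - D.tq j * lL (D.x i) q := by
  rw [lL_x_mul, lL_x_tq, (D.tq_wt j).s, sg_χ, neg_one_smul, qneg_mul, ← sub_eq_add_neg]
  split_ifs <;> simp

lemma rR_x_tq_mul (i j : Fin n) (q : D.QQ) : rR (D.x i) (D.tq j * q) =
    (if i = j then toConv (D.uw j) * q else 0) + D.tq j * rR (D.x i) q := by
  rw [rR_x_mul, rR_x_tq, (D.tq_wtR j).s, sg_one, one_smul]
  split_ifs <;> simp

lemma mul_apply_one (p q : D.QQ) : (p * q) 1 = p 1 * q 1 := by
  rw [mul_apply', Bialgebra.comul_one, Algebra.TensorProduct.one_def]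
  rfl

lemma tq_one (j : Fin n) : D.tq j 1 = 0 := D.th_one j

lemma tq_tq (i j : Fin n) : D.tq i * D.tq j + D.tq j * D.tq i = 0 :=
  WithConv.ext (D.conv_th_th i j)

lemma tq_sq (i : Fin n) : D.tq i * D.tq i = 0 := WithConv.ext (D.conv_th_self i)

variable {D}

/-- A space of functionals stable under left translations and vanishing at `1` is zero. -/
lemma eq_zero_of_mem (W : Submodule k D.QQ) (he : ∀ a, ∀ q ∈ W, lL (D.e a) q ∈ W)
    (hx : ∀ i, ∀ q ∈ W, lL (D.x i) q ∈ W) (h1 : ∀ q ∈ W, q 1 = 0) : ∀ q ∈ W, q = 0 := by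
  have key : ∀ y : D.H, ∀ q ∈ W, lL y q ∈ W := by
    intro y
    induction y using induction_on with
    | he c => exact he c
    | hx i => exact hx i
    | hr r =>
      intro q hq
      have : lL (algebraMap k D.H r) q = r • q := by
        refine qext fun z => ?_
        rw [lL_apply, ← Algebra.smul_def, map_smul]
        rfl
      rw [this]
      exact W.smul_mem _ hq
    | ha a b h2 h3 =>
      intro q hq
      have : lL (a + b) q = lL a q + lL b q := by
        refine qext fun z => ?_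
        rw [lL_apply, add_mul, map_add]
        rfl
      rw [this]
      exact W.add_mem (h2 q hq) (h3 q hq)
    | hm a b h2 h3 =>
      intro q hq
      rw [← lL_lL]
      exact h3 _ (h2 q hq)
  intro q hq
  refine qext fun z => ?_
  have := h1 _ (key z q hq)
  rw [lL_apply, mul_one] at this
  exact this

/-- Uniqueness. -/
lemma eq_zero_of_wt {p : D.QQ} {c : C} (f : Fin n → Fin n → k) (hp : Wt p c)
    (hx : ∀ i, lL (D.x i) p = ∑ j, f i j • (D.tq j * p)) (h1 : p 1 = 0) : p = 0 := by
  let W : Submodule k D.QQ := Submodule.span k (Set.range fun l : List (Fin n) =>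
    (l.map D.tq).prod * p)
  have hW : ∀ l : List (Fin n), (l.map D.tq).prod * p ∈ W := fun l => Submodule.subset_span ⟨l, rfl⟩
  have htW : ∀ j, ∀ q ∈ W, D.tq j * q ∈ W := by
    intro j q hq
    induction hq using Submodule.span_induction with
    | mem q hq =>
      obtain ⟨l, rfl⟩ := hq
      have := hW (j :: l)
      rwa [List.map_cons, List.prod_cons, mul_assoc] at this
    | zero => rw [mul_zero]; exact W.zero_mem
    | add q q' _ _ h h' => rw [mul_add]; exact W.add_mem h h'
    | smul r q _ h => rw [mul_smul_comm]; exact W.smul_mem _ h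
  have hwt : ∀ l : List (Fin n), Wt ((l.map D.tq).prod * p) ((l.map D.χ).prod * c) := by
    intro l
    induction l with
    | nil => simpa using hp
    | cons j l ih =>
      rw [List.map_cons, List.prod_cons, mul_assoc, List.map_cons, List.prod_cons, mul_assoc]
      exact (D.tq_wt j).mul ih
  have hpW : p ∈ W := by simpa using hW []
  have hxl : ∀ i, ∀ l : List (Fin n), lL (D.x i) ((l.map D.tq).prod * p) ∈ W := by
    intro i l
    induction l with
    | nil =>
      simp only [List.map_nil, List.prod_nil, one_mul]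
      rw [hx]
      exact W.sum_mem fun j _ => W.smul_mem _ (htW j p hpW)
    | cons j l ih =>
      rw [List.map_cons, List.prod_cons, mul_assoc, lL_x_tq_mul]
      refine W.sub_mem ?_ (htW j _ ih)
      split_ifs
      · exact hW l
      · exact W.zero_mem
  refine eq_zero_of_mem W ?_ ?_ ?_ p hpW
  · intro a q hq
    induction hq using Submodule.span_induction with
    | mem q hq =>
      obtain ⟨l, rfl⟩ := hq
      change lL (D.e a) ((l.map D.tq).prod * p) ∈ W
      rw [hwt l]
      split_ifs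
      · exact hW l
      · exact W.zero_mem
    | zero => rw [map_zero]; exact W.zero_mem
    | add q q' _ _ h h' => rw [map_add]; exact W.add_mem h h'
    | smul r q _ h => rw [map_smul]; exact W.smul_mem _ h
  · intro i q hq
    induction hq using Submodule.span_induction with
    | mem q hq =>
      obtain ⟨l, rfl⟩ := hq
      exact hxl i l
    | zero => rw [map_zero]; exact W.zero_mem
    | add q q' _ _ h h' => rw [map_add]; exact W.add_mem h h'
    | smul r q _ h => rw [map_smul]; exact W.smul_mem _ h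
  · intro q hq
    induction hq using Submodule.span_induction with
    | mem q hq =>
      obtain ⟨l, rfl⟩ := hq
      change ((l.map D.tq).prod * p) 1 = 0
      rw [mul_apply_one, h1, mul_zero]
    | zero => rfl
    | add q q' _ _ h h' =>
      change q 1 + q' 1 = 0
      rw [h, h', add_zero]
    | smul r q _ h =>
      change r • q 1 = 0
      rw [h, smul_zero]

variable (D)

/-- the functionals `u c` in the convolution ring -/
noncomputable def uq (h2 : (2 : k) ≠ 0) (c : C) : D.QQ := toConv (D.ex h2 c)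

variable (h2 : (2 : k) ≠ 0)

lemma uq_apply (c : C) (y : D.H) : D.uq h2 c y = D.ex h2 c y := rfl

lemma uq_wt (c : C) : Wt (D.uq h2 c) c := by
  intro a
  refine qext fun z => ?_
  rw [lL_apply, uq_apply, ex_e_mul]
  split_ifs <;> rfl

lemma uq_wtR (c : C) : WtR (D.uq h2 c) c := by
  intro a
  refine qext fun z => ?_
  rw [rR_apply, uq_apply, ex_mul_e]
  split_ifs <;> rfl

lemma uq_apply_one (c : C) : D.uq h2 c 1 = 1 := D.ex_one h2 c

lemma uq_apply_e (c a : C) : D.uq h2 c (D.e a) = if a = c then 1 else 0 := by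
  have := D.ex_mul_e h2 c a 1
  rw [one_mul, ex_one] at this
  exact this

lemma mul_apply_lmb (p q : D.QQ) (y : D.H) : (p * q) y = q (D.lmb p.ofConv y) := by
  rw [mul_apply']
  change _ = q (TensorProduct.lid k D.H (p.ofConv.rTensor D.H (D.comulA y)))
  change LinearMap.mul' k k (TensorProduct.map p.ofConv q.ofConv (D.comulA y)) = _
  generalize D.comulA y = Y
  induction Y using TensorProduct.induction_on with
  | zero => simp
  | add X X' h h' => simp only [map_add, h, h']
  | tmul a b => simp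

omit [CommGroup C] [Fintype C] [DecidableEq C] in
lemma dd_eq_sum (v : Fin n → k) (w : Ex k n) :
    dd v w = ∑ j, v j • dd (Pi.single j 1) w := by
  have h1 : dua v = ∑ j, v j • dua (Pi.single j (1 : k)) := by
    refine LinearMap.pi_ext' fun i => LinearMap.ext_ring ?_
    simp only [LinearMap.comp_apply, LinearMap.single_apply, dua_single, LinearMap.sum_apply,
      LinearMap.smul_apply]
    simp [Pi.single_apply]
  change CliffordAlgebra.contractLeft (dua v) w = _
  rw [h1, map_sum, LinearMap.sum_apply]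
  refine sum_congr rfl fun j _ => ?_
  rw [map_smul]
  rfl

lemma fD_vac (j : Fin n) (c : C) : D.fD j (vac c) = 0 := by
  funext a
  rw [fD_apply, vac]
  by_cases h : D.χ j * a = c
  · rw [← h, Pi.single_eq_same]
    exact CliffordAlgebra.contractLeft_one (Q := (0 : QuadraticForm k (Fin n → k))) _
  · rw [Pi.single_eq_of_ne h, map_zero]
    rfl

lemma tq_uq_apply (j : Fin n) (c : C) (y : D.H) :
    (D.tq j * D.uq h2 c) y = scal (dd (Pi.single j 1) (D.fock h2 y (vac c) (D.χ j * c))) := by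
  have h1 := LinearMap.congr_fun (D.fD_fock h2 j y) (vac c)
  rw [Module.End.mul_apply, LinearMap.add_apply, Module.End.mul_apply, fD_vac, map_zero,
    zero_add] at h1
  have h3 := congrFun h1 c
  rw [fD_apply] at h3
  rw [mul_apply_lmb, uq_apply, ex_apply, h3]
  rfl

lemma lL_x_uq (i : Fin n) (c : C) :
    lL (D.x i) (D.uq h2 c) = ∑ j, D.ga i j c • (D.tq j * D.uq h2 c) := by
  refine qext fun z => ?_
  have h1 : (∑ j, D.ga i j c • (D.tq j * D.uq h2 c) : D.QQ) z =
      ∑ j, D.ga i j c • (D.tq j * D.uq h2 c : D.QQ) z := by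
    rw [ofConv_sum, LinearMap.sum_apply]
    rfl
  rw [h1, lL_apply, uq_apply, ex_apply, map_mul, Module.End.mul_apply, fock_x, fX_apply, XX,
    LinearMap.add_apply, map_add, scal_io, zero_add, dd_eq_sum, map_sum]
  refine sum_congr rfl fun j _ => ?_
  rw [map_smul, tq_uq_apply]
  by_cases h : D.χ i * D.χ j = 1
  · rw [inv_eq_of_mul_eq_one_right h]
  · rw [D.ga_wt i j h, zero_smul, zero_smul]

lemma eq_uq {p : D.QQ} {c : C} (hp : Wt p c)
    (hx : ∀ i, lL (D.x i) p = ∑ j, D.ga i j c • (D.tq j * p)) (h1 : p 1 = 1) :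
    p = D.uq h2 c := by
  rw [← sub_eq_zero]
  refine eq_zero_of_wt (fun i j => D.ga i j c) (hp.sub (D.uq_wt h2 c)) ?_ ?_
  · intro i
    rw [map_sub, hx, lL_x_uq, ← sum_sub_distrib]
    refine sum_congr rfl fun j _ => ?_
    rw [mul_sub, smul_sub]
  · change p 1 - D.uq h2 c 1 = 0
    rw [h1, uq_apply_one, sub_self]

lemma uw_eq (j : Fin n) : (toConv (D.uw j) : D.QQ) = D.uq h2 (D.χ j) := by
  refine D.eq_uq h2 ?_ ?_ ?_
  · intro a
    refine qext fun z => ?_
    rw [lL_apply]
    change D.uu _ (D.e a * z) = _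
    rw [uu_mul, uu_apply, uA_e]
    split_ifs
    · rw [one_mul]
    · rw [zero_mul]; rfl
  · intro i
    rw [sum_eq_zero fun l _ => by rw [ga_χ, zero_smul]]
    refine qext fun z => ?_
    rw [lL_apply]
    change D.uu _ (D.x i * z) = _
    rw [uu_mul, uu_apply, uA_x, zero_mul]
    rfl
  · change D.uu _ 1 = 1
    rw [uu_apply, map_one]

lemma uq_one : D.uq h2 1 = 1 := by
  symm
  refine D.eq_uq h2 ?_ ?_ ?_
  · intro a
    refine qext fun z => ?_
    rw [lL_apply, one_apply', map_mul, counitA_e]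
    split_ifs
    · rw [one_mul]; rfl
    · rw [zero_mul]; rfl
  · intro i
    rw [sum_eq_zero fun l _ => by rw [ga_one, zero_smul]]
    refine qext fun z => ?_
    rw [lL_apply, one_apply', map_mul, counitA_x, zero_mul]
    rfl
  · rw [one_apply', map_one]

lemma uq_tq (c : C) (j : Fin n) : D.uq h2 c * D.tq j = D.sg c • (D.tq j * D.uq h2 c) := by
  rw [← sub_eq_zero]
  have hw1 : Wt (D.uq h2 c * D.tq j) (c * D.χ j) := (D.uq_wt h2 c).mul (D.tq_wt j)
  have hw2 : Wt (D.sg c • (D.tq j * D.uq h2 c)) (c * D.χ j) := by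
    rw [mul_comm c]
    exact ((D.tq_wt j).mul (D.uq_wt h2 c)).smul _
  refine eq_zero_of_wt (fun i l => D.ga i l c) (hw1.sub hw2) ?_ ?_
  · intro i
    rw [map_sub, lL_x_mul, map_smul, lL_x_tq_mul, lL_x_uq, (D.uq_wt h2 c).s, lL_x_tq, sum_mul,
      mul_sum]
    have h3 : ∀ l, D.tq j * (D.ga i l c • (D.tq l * D.uq h2 c)) =
        - (D.ga i l c • (D.tq l * (D.tq j * D.uq h2 c))) := by
      intro l
      rw [mul_smul_comm, ← mul_assoc, ← mul_assoc, ← smul_neg, ← qneg_mul,
        eq_neg_of_add_eq_zero_left (D.tq_tq j l)]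
    simp only [h3, sum_neg_distrib, sub_neg_eq_add, smul_add, smul_sum, mul_sub, smul_sub,
      sum_sub_distrib]
    have h4 : D.sg c • D.uq h2 c * (if i = j then (1 : D.QQ) else 0) =
        D.sg c • (if i = j then D.uq h2 c else 0) := by
      split_ifs <;> simp
    rw [h4]
    have h5 : ∀ l, D.ga i l c • (D.tq l * D.uq h2 c) * D.tq j =
        D.ga i l c • (D.tq l * (D.uq h2 c * D.tq j)) := by
      intro l
      rw [smul_mul_assoc, mul_assoc]
    have h6 : ∀ l, D.ga i l c • (D.tq l * (D.sg c • (D.tq j * D.uq h2 c))) =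
        D.sg c • (D.ga i l c • (D.tq l * (D.tq j * D.uq h2 c))) := by
      intro l
      rw [mul_smul_comm, smul_comm]
    simp only [h5, h6]
    abel
  · change (D.uq h2 c * D.tq j) 1 - D.sg c • (D.tq j * D.uq h2 c) 1 = 0
    rw [mul_apply_one, mul_apply_one, tq_one, mul_zero, zero_mul, smul_zero, sub_zero]

lemma uq_uq (c c' : C) : D.uq h2 c * D.uq h2 c' = D.uq h2 (c * c') := by
  refine D.eq_uq h2 ((D.uq_wt h2 c).mul (D.uq_wt h2 c')) ?_ ?_
  · intro i
    rw [lL_x_mul, lL_x_uq, (D.uq_wt h2 c).s, lL_x_uq, sum_mul, mul_sum, ← sum_add_distrib]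
    refine sum_congr rfl fun j _ => ?_
    rw [ga_mul, add_smul, smul_mul_assoc, mul_assoc, mul_smul_comm, smul_mul_assoc,
      ← mul_assoc (D.uq h2 c), uq_tq, smul_mul_assoc, smul_smul (D.sg c), D.sg_sq, one_smul,
      mul_assoc]
  · rw [mul_apply_one, uq_apply_one, uq_apply_one, one_mul]

lemma uq_inv_mul (c : C) : D.uq h2 c⁻¹ * D.uq h2 c = 1 := by
  rw [uq_uq, inv_mul_cancel, uq_one]

lemma rR_x_uq (i : Fin n) (c : C) : rR (D.x i) (D.uq h2 c) =
    - ∑ m, D.ga i m c • (D.uq h2 (D.χ m)⁻¹ * (D.tq m * D.uq h2 c)) := by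
  have hwt : ∀ m, Wt (D.uq h2 (D.χ m)⁻¹ * (D.tq m * D.uq h2 c)) c := by
    intro m
    have := (D.uq_wt h2 (D.χ m)⁻¹).mul ((D.tq_wt m).mul (D.uq_wt h2 c))
    rwa [inv_mul_cancel_left] at this
  have hwt0 : Wt (rR (D.x i) (D.uq h2 c)) c := by
    intro a
    rw [lL_rR, D.uq_wt h2 c]
    split_ifs
    · rfl
    · rw [map_zero]
  rw [← sub_eq_zero, sub_neg_eq_add]
  have hadd : Wt (rR (D.x i) (D.uq h2 c) +
      ∑ m, D.ga i m c • (D.uq h2 (D.χ m)⁻¹ * (D.tq m * D.uq h2 c))) c := by
    have := hwt0.sub (Wt.sum univ fun m _ => ((hwt m).smul (D.ga i m c))).neg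
    rwa [sub_neg_eq_add] at this
  refine eq_zero_of_wt (fun l j => D.ga l j c) hadd ?_ ?_
  · intro l
    rw [map_add, lL_rR, lL_x_uq, map_sum, map_sum]
    have h3 : ∀ j, rR (D.x i) (D.ga l j c • (D.tq j * D.uq h2 c)) =
        (if i = j then D.ga l j c • (D.uq h2 (D.χ j) * D.uq h2 c) else 0) +
          D.ga l j c • (D.tq j * rR (D.x i) (D.uq h2 c)) := by
      intro j
      rw [map_smul, rR_x_tq_mul, D.uw_eq h2, smul_add]
      congr 1
      split_ifs <;> simp
    have h4 : ∀ m, lL (D.x l) (D.ga i m c • (D.uq h2 (D.χ m)⁻¹ * (D.tq m * D.uq h2 c))) =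
        - (if l = m then D.ga i m c • (D.uq h2 (D.χ m)⁻¹ * D.uq h2 c) else 0) +
        ∑ j, D.ga l j c • (D.ga i m c • (D.tq j * (D.uq h2 (D.χ m)⁻¹ * (D.tq m * D.uq h2 c)))) := by
      intro m
      have h5 : lL (D.x l) (D.uq h2 (D.χ m)⁻¹) = 0 := by
        rw [lL_x_uq]
        refine sum_eq_zero fun j _ => ?_
        rw [ga_inv, ga_χ, neg_zero, zero_smul]
      rw [map_smul, lL_x_mul, h5, zero_mul, zero_add, (D.uq_wt h2 _).s, sg_inv, sg_χ, neg_one_smul,
        lL_x_tq_mul, lL_x_uq, qneg_mul, mul_sub, neg_sub, smul_sub, sub_eq_add_neg, add_comm]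
      congr 1
      · congr 1
        split_ifs <;> simp
      · rw [mul_sum, mul_sum, smul_sum]
        refine sum_congr rfl fun j _ => ?_
        rw [mul_smul_comm, mul_smul_comm, smul_comm]
        congr 2
        rw [← mul_assoc (D.tq m), ← mul_assoc, ← mul_assoc (D.tq j), ← mul_assoc (D.tq j * _),
          eq_neg_of_add_eq_zero_left (D.tq_tq m j), mul_neg, ← mul_assoc, uq_tq, sg_inv, sg_χ,
          neg_one_smul, qneg_mul, qneg_mul, qneg_mul, neg_neg]
    simp only [h3, h4, sum_add_distrib, sum_neg_distrib, Finset.sum_ite_eq, mem_univ, if_true]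
    have h6 : D.ga l i c • (D.uq h2 (D.χ i) * D.uq h2 c) =
        D.ga i l c • (D.uq h2 (D.χ l)⁻¹ * D.uq h2 c) := by
      by_cases h : D.χ i * D.χ l = 1
      · rw [D.ga_symm l i, eq_inv_of_mul_eq_one_left h]
      · rw [D.ga_wt i l h, D.ga_wt l i (by rwa [mul_comm]), zero_smul, zero_smul]
    rw [h6, sum_comm]
    simp only [mul_add, mul_sum, smul_add, smul_sum, sum_add_distrib, mul_smul_comm]
    abel
  · change (rR (D.x i) (D.uq h2 c)) 1 + (∑ m, D.ga i m c • (D.uq h2 (D.χ m)⁻¹ *
      (D.tq m * D.uq h2 c)) : D.QQ) 1 = 0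
    have h7 : (∑ m, D.ga i m c • (D.uq h2 (D.χ m)⁻¹ * (D.tq m * D.uq h2 c)) : D.QQ) 1 =
        ∑ m, D.ga i m c • (D.uq h2 (D.χ m)⁻¹ * (D.tq m * D.uq h2 c) : D.QQ) 1 := by
      rw [ofConv_sum, LinearMap.sum_apply]
      rfl
    rw [h7, rR_apply, one_mul]
    have h8 : D.uq h2 c (D.x i) = 0 := by
      have := congrArg (fun q : D.QQ => q 1) (D.lL_x_uq h2 i c)
      change lL (D.x i) (D.uq h2 c) 1 = (∑ j, D.ga i j c • (D.tq j * D.uq h2 c) : D.QQ) 1 at this
      rw [lL_apply, mul_one, ofConv_sum, LinearMap.sum_apply] at this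
      rw [this]
      refine sum_eq_zero fun j _ => ?_
      change D.ga i j c • (D.tq j * D.uq h2 c : D.QQ) 1 = 0
      rw [mul_apply_one, tq_one, zero_mul, smul_zero]
    rw [h8, zero_add]
    refine sum_eq_zero fun m _ => ?_
    rw [mul_apply_one, mul_apply_one, tq_one, zero_mul, mul_zero, smul_zero]

end SGrp

end Pool.Agent.H170_FG
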