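import Mathlib

/-!
# Homotopies for translations on functions on a product of cyclic groups
-/

open Finset

namespace Pool.Agent.H170_FG

section

variable {L : Type} [DecidableEq L] {m : L → ℕ} [∀ l, NeZero (m l)] {N : Type*} [AddCommGroup N]

/-- functions on a product of cyclic groups -/
abbrev FF (m : L → ℕ) (N : Type*) : Type _ := (∀ l, ZMod (m l)) → N

/-- translation -/
def VF (l : L) (f : FF m N) : FF m N := fun c => f (c - Pi.single l 1)

/-- first homotopy -/
def SF (l : L) : FF m N →+ FF m N where
  toFun f c := ∑ j ∈ Ico ((c l).val + 1) (m l), f (Function.update c l (j : ZMod (m l)))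
  map_zero' := by
    funext c
    simp
  map_add' f f' := by
    funext c
    simp [sum_add_distrib]

/-- second homotopy -/
def SF' (l : L) : FF m N →+ FF m N where
  toFun f c := if c l = 0 then f (Function.update c l (-1)) else 0
  map_zero' := by
    funext c
    simp
  map_add' f f' := by
    funext c
    by_cases h : c l = 0 <;> simp [h]

lemma SF_apply (l : L) (f : FF m N) (c : ∀ l, ZMod (m l)) :
    SF l f c = ∑ j ∈ Ico ((c l).val + 1) (m l), f (Function.update c l (j : ZMod (m l))) := rfl

lemma SF'_apply (l : L) (f : FF m N) (c : ∀ l, ZMod (m l)) :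
    SF' l f c = if c l = 0 then f (Function.update c l (-1)) else 0 := rfl

omit [∀ l, NeZero (m l)] in
lemma VF_iter (l : L) (f : FF m N) (i : ℕ) (c : ∀ l, ZMod (m l)) :
    (VF l)^[i] f c = f (Function.update c l (c l - i)) := by
  induction i generalizing c with
  | zero => simp
  | succ i ih =>
    rw [Function.iterate_succ_apply']
    change ((VF l)^[i] f) (c - Pi.single l 1) = _
    rw [ih]
    congr 1
    funext l'
    by_cases h : l' = l
    · subst h
      simp
      ring
    · simp [h]

omit [DecidableEq L] in
lemma sum_range_natCast {n : ℕ} [NeZero n] (F : ZMod n → N) :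
    ∑ j ∈ range n, F (j : ZMod n) = ∑ z, F z := by
  refine Finset.sum_nbij (fun j : ℕ => (j : ZMod n)) ?_ ?_ ?_ ?_
  · intro j _
    simp
  · intro i hi j hj hij
    have hi' := mem_range.mp (mem_coe.mp hi)
    have hj' := mem_range.mp (mem_coe.mp hj)
    have := congrArg ZMod.val hij
    simpa [ZMod.val_natCast_of_lt hi', ZMod.val_natCast_of_lt hj'] using this
  · intro z _
    exact ⟨z.val, by simpa using ZMod.val_lt z, by simp⟩
  · intro j _
    rfl

lemma NF_apply (l : L) (f : FF m N) (c : ∀ l, ZMod (m l)) :
    ∑ i ∈ range (m l), (VF l)^[i] f c =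
      ∑ j ∈ range (m l), f (Function.update c l (j : ZMod (m l))) := by
  simp only [VF_iter]
  rw [sum_range_natCast (fun z : ZMod (m l) => f (Function.update c l (c l - z))),
    sum_range_natCast (fun z : ZMod (m l) => f (Function.update c l z))]
  exact Fintype.sum_equiv (Equiv.subLeft (c l)) _ _ (fun z => rfl)

lemma val_sub_one {n : ℕ} [NeZero n] (z : ZMod n) (h : z ≠ 0) : (z - 1).val + 1 = z.val := by
  have h1 : z.val ≠ 0 := by rwa [Ne, ZMod.val_eq_zero]
  have h2 : z - 1 = ((z.val - 1 : ℕ) : ZMod n) := by
    rw [Nat.cast_sub (by omega)]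
    simp
  have h3 := ZMod.val_lt z
  rw [h2, ZMod.val_natCast_of_lt (by omega)]
  omega

lemma val_zero_sub_one {n : ℕ} [NeZero n] : ((0 : ZMod n) - 1).val + 1 = n := by
  have h1 : (0 : ZMod n) - 1 = ((n - 1 : ℕ) : ZMod n) := by
    rw [Nat.cast_sub (NeZero.one_le)]
    simp
  have : 0 < n := NeZero.pos n
  rw [h1, ZMod.val_natCast_of_lt (by omega)]
  omega

/-- first homotopy identity -/
lemma SF_eq (l : L) (f : FF m N) :
    VF l (SF l f) - SF l f + SF' l (fun c => ∑ i ∈ range (m l), (VF l)^[i] f c) = f := by
  funext c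
  simp only [Pi.add_apply, Pi.sub_apply]
  rw [SF'_apply]
  simp only [NF_apply, VF, Function.update_idem]
  rw [SF_apply, SF_apply]
  have hu : ∀ j : ℕ, Function.update (c - Pi.single l 1) l (j : ZMod (m l)) =
      Function.update c l (j : ZMod (m l)) := by
    intro j
    funext l'
    by_cases h : l' = l
    · subst h
      simp
    · simp [h]
  simp only [hu, Pi.sub_apply, Pi.single_eq_same]
  have hself : Function.update c l (((c l).val : ℕ) : ZMod (m l)) = c := by simp
  by_cases h : c l = 0
  · rw [if_pos h, h, val_zero_sub_one, Ico_self, sum_empty, ZMod.val_zero, zero_add, zero_sub]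
    have h0 : 0 < m l := NeZero.pos (m l)
    rw [range_eq_Ico, Finset.sum_eq_sum_Ico_succ_bot h0]
    rw [h, ZMod.val_zero] at hself
    rw [hself]
    abel
  · rw [if_neg h, val_sub_one (c l) h, add_zero, Finset.sum_eq_sum_Ico_succ_bot (ZMod.val_lt (c l)),
      hself]
    abel

/-- second homotopy identity -/
lemma SF'_eq (l : L) (f : FF m N) :
    (fun c => ∑ i ∈ range (m l), (VF l)^[i] (SF' l f) c) + SF l (VF l f - f) = f := by
  funext c
  simp only [Pi.add_apply]
  rw [NF_apply, SF_apply]
  simp only [SF'_apply, Function.update_self, Function.update_idem]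
  have h0 : 0 < m l := NeZero.pos (m l)
  rw [Finset.sum_eq_single 0]
  · have hlt := ZMod.val_lt (c l)
    have hF : ∀ j ∈ Ico ((c l).val + 1) (m l), (VF l f - f) (Function.update c l (j : ZMod (m l))) =
        f (Function.update c l ((j - 1 : ℕ) : ZMod (m l))) -
        f (Function.update c l (j : ZMod (m l))) := by
      intro j hj
      rw [Finset.mem_Ico] at hj
      rw [Pi.sub_apply]
      congr 1
      change f (Function.update c l (j : ZMod (m l)) - Pi.single l 1) = _
      congr 1
      funext l'
      by_cases h : l' = l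
      · subst h
        rw [Nat.cast_sub (by omega)]
        simp
      · simp [h]
    rw [Finset.sum_congr rfl hF]
    have hself : Function.update c l (((c l).val : ℕ) : ZMod (m l)) = c := by simp
    have htel : ∀ b, (c l).val + 1 ≤ b → ∑ j ∈ Ico ((c l).val + 1) b,
        (f (Function.update c l ((j - 1 : ℕ) : ZMod (m l))) -
        f (Function.update c l (j : ZMod (m l)))) =
        f c - f (Function.update c l ((b - 1 : ℕ) : ZMod (m l))) := by
      intro b hb
      induction b, hb using Nat.le_induction with
      | base => rw [Ico_self, sum_empty, Nat.add_sub_cancel, hself, sub_self]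
      | succ b hb ih =>
        rw [Finset.sum_Ico_succ_top hb, ih, Nat.add_sub_cancel]
        abel
    rw [htel (m l) (by omega)]
    have h1 : ((m l - 1 : ℕ) : ZMod (m l)) = -1 := by
      rw [Nat.cast_sub (by omega)]
      simp
    rw [h1, Nat.cast_zero, if_pos rfl]
    abel
  · intro j hj hj0
    rw [mem_range] at hj
    rw [if_neg]
    intro h
    apply hj0
    have := congrArg ZMod.val h
    rwa [ZMod.val_natCast_of_lt hj, ZMod.val_zero] at this
  · intro h
    exact absurd (mem_range.mpr h0) h

omit [∀ l, NeZero (m l)] in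
lemma update_sub_single {l l' : L} (h : l ≠ l') (c : ∀ l, ZMod (m l)) (z : ZMod (m l)) :
    Function.update (c - Pi.single l' 1) l z = Function.update c l z - Pi.single l' 1 := by
  funext l''
  by_cases h1 : l'' = l
  · subst h1
    simp [h]
  · simp [h1]

lemma SF_VF {l l' : L} (h : l ≠ l') (f : FF m N) : SF l (VF l' f) = VF l' (SF l f) := by
  funext c
  rw [SF_apply]
  change _ = SF l f (c - Pi.single l' 1)
  rw [SF_apply, Pi.sub_apply, Pi.single_eq_of_ne h, sub_zero]
  refine sum_congr rfl fun j _ => ?_
  change f (_ - _) = _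
  rw [update_sub_single h]

lemma SF'_VF {l l' : L} (h : l ≠ l') (f : FF m N) : SF' l (VF l' f) = VF l' (SF' l f) := by
  funext c
  rw [SF'_apply]
  change _ = SF' l f (c - Pi.single l' 1)
  rw [SF'_apply, Pi.sub_apply, Pi.single_eq_of_ne h, sub_zero]
  by_cases h1 : c l = 0
  · rw [if_pos h1, if_pos h1]
    change f (_ - _) = _
    rw [update_sub_single h]
  · rw [if_neg h1, if_neg h1]

end

end Pool.Agent.H170_FG
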