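import Pool.Agent.H170_FG.FH3
import Pool.Agent.H170_FG.Inst3

/-!
# Relations in the Drinfeld double
-/

set_option linter.unusedSectionVars false

universe u

open Finset TensorProduct Module

namespace Pool.Agent.H170_FG

variable {k : Type u} [Field k] {C : Type} [CommGroup C] [Fintype C] [DecidableEq C] {n : ℕ}

lemma Dbl.cross' {H : Type u} [Ring H] [Bialgebra k H] (p : Dual k H) (h : H) {ι : Type*}
    [Fintype ι] (a b : ι → H) (hab : ∑ i, a i ⊗ₜ[k] b i = Coalgebra.comul h) :
    ∑ i, iH k H (a i) * iD k H (p ∘ₗ LinearMap.mulLeft k (b i)) =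
      ∑ i, iD k H (p ∘ₗ LinearMap.mulRight k (a i)) * iH k H (b i) := by
  classical
  let e := (Fintype.equivFin ι).symm
  have h1 := Dbl.cross k H p h (fun j => a (e j)) (fun j => b (e j)) (by
    rw [← hab]
    exact Equiv.sum_comp e (fun i => a i ⊗ₜ[k] b i))
  rw [Equiv.sum_comp e (fun i => iH k H (a i) * iD k H (p ∘ₗ LinearMap.mulLeft k (b i))),
    Equiv.sum_comp e (fun i => iD k H (p ∘ₗ LinearMap.mulRight k (a i)) * iH k H (b i))] at h1
  exact h1

namespace SGrp

variable (D : SGrp k C n)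

/-- image of an idempotent -/
noncomputable def E (c : C) : Dbl k D.H := Dbl.iH k D.H (D.e c)
/-- image of an odd element -/
noncomputable def X (i : Fin n) : Dbl k D.H := Dbl.iH k D.H (D.x i)
/-- image of the parity element -/
noncomputable def S : Dbl k D.H := Dbl.iH k D.H D.s
/-- image of a functional -/
noncomputable def T (j : Fin n) : Dbl k D.H := Dbl.iD k D.H (D.th j)

lemma E_hrels : HRels D D.E D.X where
  ee c c' := by
    rw [E, E, ← map_mul, D.hrels.ee]
    split_ifs <;> simp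
  e_sum := by
    simp only [E]
    rw [← map_sum, D.hrels.e_sum, map_one]
  x_e i c := by
    rw [X, E, E, ← map_mul, D.hrels.x_e, map_mul]
  x_sq i := by
    rw [X, ← map_mul, D.hrels.x_sq, map_sum]
    simp [E]
  x_anti i j h := by
    rw [X, X, ← map_mul, ← map_mul, ← map_add, D.hrels.x_anti i j h, map_sum]
    simp [E]

lemma S_eq : D.S = HRels.sel D D.E := by
  rw [S, s, HRels.sel, HRels.sel, map_sum]
  simp [E]

lemma S_S : D.S * D.S = 1 := by rw [S_eq, D.E_hrels.sel_sel]

lemma X_S (i : Fin n) : D.X i * D.S = - (D.S * D.X i) := by rw [S_eq, D.E_hrels.x_sel]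

lemma S_E (c : C) : D.S * D.E c = D.E c * D.S := by
  rw [S_eq, D.E_hrels.sel_e, D.E_hrels.e_sel]

/-- The relation with an idempotent, for a functional which is homogeneous. -/
lemma E_iD {p : Dual k D.H} {c c' : C}
    (h1 : ∀ a, p ∘ₗ LinearMap.mulLeft k (D.e a) = if a = c then p else 0)
    (h2 : ∀ a, p ∘ₗ LinearMap.mulRight k (D.e a) = if a = c' then p else 0) (a : C) :
    D.E (a * c⁻¹) * Dbl.iD k D.H p = Dbl.iD k D.H p * D.E (c'⁻¹ * a) := by
  have h := Dbl.cross' p (D.e a) (fun b : C => D.e b) (fun b => D.e (b⁻¹ * a))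
    (by rw [comul_eq, comulA_e]; rfl)
  rw [Finset.sum_eq_single (a * c⁻¹), Finset.sum_eq_single c'] at h
  · rw [h1, h2, if_pos rfl, if_pos (by rw [mul_inv_rev, inv_inv, inv_mul_cancel_right])] at h
    exact h
  · intro b _ hb
    rw [h2, if_neg hb, map_zero, zero_mul]
  · simp
  · intro b _ hb
    rw [h1, if_neg, map_zero, mul_zero]
    intro h'
    apply hb
    rw [← h', mul_inv_rev, inv_inv, mul_inv_cancel_left]
  · simp

lemma uu_left {c : C} (hc : ∀ i j, D.β i j c = 0) (a : C) :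
    D.uu hc ∘ₗ LinearMap.mulLeft k (D.e a) = if a = c then D.uu hc else 0 := by
  ext y
  rw [LinearMap.comp_apply, LinearMap.mulLeft_apply, uu_mul, uu_apply, uA_e]
  split_ifs <;> simp

lemma uu_right {c : C} (hc : ∀ i j, D.β i j c = 0) (a : C) :
    D.uu hc ∘ₗ LinearMap.mulRight k (D.e a) = if a = c then D.uu hc else 0 := by
  ext y
  rw [LinearMap.comp_apply, LinearMap.mulRight_apply, uu_mul, mul_comm, uu_apply, uA_e]
  split_ifs <;> simp

lemma th_left (j : Fin n) (a : C) :
    D.th j ∘ₗ LinearMap.mulLeft k (D.e a) = if a = D.χ j then D.th j else 0 := by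
  ext y
  rw [LinearMap.comp_apply, LinearMap.mulLeft_apply, th_mul, uA_e, th_e]
  split_ifs <;> simp

lemma th_right (j : Fin n) (a : C) :
    D.th j ∘ₗ LinearMap.mulRight k (D.e a) = if a = 1 then D.th j else 0 := by
  ext y
  rw [LinearMap.comp_apply, LinearMap.mulRight_apply, th_mul, counitA_e, th_e]
  split_ifs <;> simp

lemma E_T (j : Fin n) (a : C) : D.T j * D.E a = D.E ((D.χ j)⁻¹ * a) * D.T j := by
  have := D.E_iD (D.th_left j) (D.th_right j) a
  rw [inv_one, one_mul, mul_comm a] at this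
  exact this.symm

lemma S_T (j : Fin n) : D.S * D.T j = - (D.T j * D.S) := by
  rw [S_eq, HRels.sel, sum_mul, mul_sum, ← sum_neg_distrib]
  refine Fintype.sum_equiv (Equiv.mulLeft (D.χ j)) _ _ fun a => ?_
  rw [Equiv.coe_mulLeft, smul_mul_assoc, mul_smul_comm, D.E_T, inv_mul_cancel_left, D.sg_mul,
    D.sg_χ, neg_one_mul, neg_smul, neg_neg]

/-- The relation with an odd element. -/
lemma X_iD (p : Dual k D.H) (i : Fin n) : D.X i * Dbl.iD k D.H p +
    D.S * Dbl.iD k D.H (p ∘ₗ LinearMap.mulLeft k (D.x i)) =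
      Dbl.iD k D.H (p ∘ₗ LinearMap.mulRight k (D.x i)) +
        Dbl.iD k D.H (p ∘ₗ LinearMap.mulRight k D.s) * D.X i := by
  have h := Dbl.cross' p (D.x i) (![D.x i, D.s]) (![1, D.x i])
    (by rw [comul_eq, comulA_x]; simp [dx])
  simp only [Fin.sum_univ_two, Matrix.cons_val_zero, Matrix.cons_val_one] at h
  have h1 : p ∘ₗ LinearMap.mulLeft k (1 : D.H) = p := by
    ext y
    simp
  rw [h1, map_one, mul_one] at h
  exact h

lemma X_T (i j : Fin n) : D.X i * D.T j - D.T j * D.X i =
    if i = j then Dbl.iD k D.H (D.uw j) - D.S else 0 := by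
  have h := D.X_iD (D.th j) i
  have h1 : D.th j ∘ₗ LinearMap.mulLeft k (D.x i) =
      if i = j then (Coalgebra.counit : Dual k D.H) else 0 := by
    ext y
    rw [LinearMap.comp_apply, LinearMap.mulLeft_apply, th_mul, uA_x, th_x]
    split_ifs
    · simp
      rfl
    · simp
  have h2 : D.th j ∘ₗ LinearMap.mulRight k (D.x i) = if i = j then D.uw j else 0 := by
    ext y
    rw [LinearMap.comp_apply, LinearMap.mulRight_apply, th_mul, counitA_x, th_x]
    split_ifs
    · simp
      rfl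
    · simp
  have h3 : D.th j ∘ₗ LinearMap.mulRight k D.s = D.th j := by
    ext y
    rw [LinearMap.comp_apply, LinearMap.mulRight_apply, th_mul, counitA_s, th_s]
    simp
  rw [h1, h2, h3] at h
  by_cases hij : i = j
  · rw [if_pos hij, if_pos hij, Dbl.iD_counit, mul_one] at h
    rw [if_pos hij, sub_eq_sub_iff_add_eq_add]
    exact h
  · rw [if_neg hij, if_neg hij, map_zero, mul_zero, add_zero, zero_add] at h
    rw [if_neg hij, sub_eq_zero]
    exact h

lemma X_uu {c : C} (hc : ∀ i j, D.β i j c = 0) (i : Fin n) :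
    D.X i * Dbl.iD k D.H (D.uu hc) = D.sg c • (Dbl.iD k D.H (D.uu hc) * D.X i) := by
  have h := D.X_iD (D.uu hc) i
  have h1 : D.uu hc ∘ₗ LinearMap.mulLeft k (D.x i) = 0 := by
    ext y
    rw [LinearMap.comp_apply, LinearMap.mulLeft_apply, uu_mul, uu_apply, uA_x]
    simp
  have h2 : D.uu hc ∘ₗ LinearMap.mulRight k (D.x i) = 0 := by
    ext y
    rw [LinearMap.comp_apply, LinearMap.mulRight_apply, uu_mul, D.uu_apply hc (D.x i), uA_x]
    simp
  have h3 : D.uu hc ∘ₗ LinearMap.mulRight k D.s = D.sg c • D.uu hc := by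
    ext y
    rw [LinearMap.comp_apply, LinearMap.mulRight_apply, uu_mul, D.uu_apply hc D.s, uA_s]
    simp [mul_comm]
  rw [h1, h2, h3, map_zero, mul_zero, add_zero, zero_add, map_smul, smul_mul_assoc] at h
  exact h

lemma T_T (i j : Fin n) : D.T i * D.T j + D.T j * D.T i = 0 := by
  rw [T, T, ← Dbl.iD_conv, ← Dbl.iD_conv, ← map_add, conv_th_th, map_zero]

lemma T_self (i : Fin n) : D.T i * D.T i = 0 := by
  rw [T, ← Dbl.iD_conv, conv_th_self, map_zero]

lemma uu_T {c : C} (hc : ∀ i j, D.β i j c = 0) (j : Fin n) :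
    Dbl.iD k D.H (D.uu hc) * D.T j = D.sg c • (D.T j * Dbl.iD k D.H (D.uu hc)) := by
  rw [T, ← Dbl.iD_conv, ← Dbl.iD_conv, conv_u_th, map_smul]

/-! ### Trivial bracket -/

section flat

variable (h0 : ∀ i j c, D.β i j c = 0)

/-- image of a character -/
noncomputable def U (c : C) : Dbl k D.H := Dbl.iD k D.H (D.uu (c := c) (fun i j => h0 i j c))

lemma U_one : D.U h0 1 = 1 := by rw [U, uu_one_eq, Dbl.iD_counit]

lemma U_mul (c c' : C) : D.U h0 c * D.U h0 c' = D.U h0 (c * c') := by
  rw [U, U, ← Dbl.iD_conv, conv_uu]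
  rfl

lemma U_E (c a : C) : D.U h0 c * D.E a = D.E a * D.U h0 c := by
  have := D.E_iD (D.uu_left (c := c) (fun i j => h0 i j c))
    (D.uu_right (c := c) (fun i j => h0 i j c)) (a * c)
  rw [mul_inv_cancel_right, mul_comm a, inv_mul_cancel_left] at this
  exact this.symm

lemma U_S (c : C) : D.U h0 c * D.S = D.S * D.U h0 c := by
  rw [S_eq, HRels.sel, sum_mul, mul_sum]
  refine sum_congr rfl fun a _ => ?_
  rw [smul_mul_assoc, mul_smul_comm, U_E]

/-- power of the parity element -/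
noncomputable def Sp (c : C) : Dbl k D.H := if D.σ c = 1 then 1 else D.S

lemma Sp_mul (c c' : C) : D.Sp c * D.Sp c' = D.Sp (c * c') := by
  unfold Sp
  rw [map_mul]
  rcases Int.units_eq_one_or (D.σ c) with h | h <;>
    rcases Int.units_eq_one_or (D.σ c') with h' | h' <;> simp [h, h', D.S_S]

lemma Sp_one : D.Sp 1 = 1 := by simp [Sp]

lemma Sp_χ (i : Fin n) : D.Sp (D.χ i) = D.S := by
  rw [Sp, D.σ_χ, if_neg (by decide)]

lemma Sp_E (c a : C) : D.Sp c * D.E a = D.E a * D.Sp c := by
  unfold Sp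
  split_ifs
  · simp
  · exact D.S_E a

lemma Sp_X (c : C) (i : Fin n) : D.Sp c * D.X i = D.sg c • (D.X i * D.Sp c) := by
  unfold Sp sg
  rcases Int.units_eq_one_or (D.σ c) with h | h
  · simp [h]
  · rw [h, if_neg (by decide), D.X_S]
    simp

lemma Sp_T (c : C) (i : Fin n) : D.Sp c * D.T i = D.sg c • (D.T i * D.Sp c) := by
  unfold Sp sg
  rcases Int.units_eq_one_or (D.σ c) with h | h
  · simp [h]
  · rw [h, if_neg (by decide), D.S_T]
    simp

lemma Sp_S (c : C) : D.Sp c * D.S = D.S * D.Sp c := by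
  unfold Sp
  split_ifs <;> simp

lemma U_Sp (c c' : C) : D.U h0 c * D.Sp c' = D.Sp c' * D.U h0 c := by
  unfold Sp
  split_ifs
  · simp
  · exact D.U_S h0 c

/-- normalized group-like elements -/
noncomputable def g (c : C) : Dbl k D.H := D.U h0 c * D.Sp c

/-- odd elements of the double -/
noncomputable def w : Fin n ⊕ Fin n → Dbl k D.H := Sum.elim D.X (fun j => D.T j * D.S)

theorem drels_flat : Rels D.χ D.E (D.g h0) D.w where
  ee := D.E_hrels.ee
  e_sum := D.E_hrels.e_sum
  g_one := by rw [g, U_one, Sp_one, mul_one]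
  g_mul c c' := by
    rw [g, g, g, mul_assoc, ← mul_assoc (D.Sp c), ← U_Sp, mul_assoc, Sp_mul, ← mul_assoc, U_mul]
  g_e c c' := by
    rw [g, mul_assoc, Sp_E, ← mul_assoc, U_E, mul_assoc]
  g_w c a := by
    rcases a with i | i
    · change D.g h0 c * D.X i = D.X i * D.g h0 c
      rw [g, mul_assoc, Sp_X, mul_smul_comm, ← mul_assoc, ← mul_assoc (D.X i), U, D.X_uu,
        smul_mul_assoc]
    · change D.g h0 c * (D.T i * D.S) = D.T i * D.S * D.g h0 c
      have h1 : D.U h0 c * D.T i = D.sg c • (D.T i * D.U h0 c) := D.uu_T _ i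
      have h2 : D.g h0 c * D.T i = D.T i * D.g h0 c := by
        rw [g, mul_assoc, Sp_T, mul_smul_comm, ← mul_assoc, h1, smul_mul_assoc, smul_smul,
          D.sg_sq, one_smul, mul_assoc]
      have h3 : D.g h0 c * D.S = D.S * D.g h0 c := by
        rw [g, mul_assoc, Sp_S, ← mul_assoc, U_S, mul_assoc]
      rw [← mul_assoc, h2, mul_assoc, h3, mul_assoc]
  w_e a c := by
    rcases a with i | i
    · exact D.E_hrels.x_e i c
    · change D.T i * D.S * D.E c = D.E ((D.χ i)⁻¹ * c) * (D.T i * D.S)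
      rw [mul_assoc, S_E, ← mul_assoc, E_T, mul_assoc]
  w_sq a := by
    rcases a with i | i
    · change D.X i * D.X i = 0
      rw [D.E_hrels.x_sq]
      simp [h0]
    · change D.T i * D.S * (D.T i * D.S) = 0
      rw [mul_assoc, ← mul_assoc D.S, S_T, neg_mul, mul_neg, mul_assoc, S_S, mul_one, T_self,
        neg_zero]
  w_pair i := by
    change D.X i * (D.T i * D.S) + D.T i * D.S * D.X i = D.g h0 (D.χ i) - 1
    have h1 : D.T i * D.S * D.X i = - (D.T i * D.X i * D.S) := by
      rw [mul_assoc, mul_assoc, X_S, mul_neg, neg_neg]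
    rw [h1, ← mul_assoc, ← sub_eq_add_neg, ← sub_mul, X_T, if_pos rfl, sub_mul, S_S, g, Sp_χ]
    rfl
  w_anti a b hab hab' := by
    rcases a with i | i <;> rcases b with j | j
    · change D.X i * D.X j + D.X j * D.X i = 0
      rw [D.E_hrels.x_anti i j (by rintro rfl; exact hab rfl)]
      simp [h0]
    · have hij : i ≠ j := by rintro rfl; exact hab' rfl
      change D.X i * (D.T j * D.S) + D.T j * D.S * D.X i = 0
      have h1 : D.T j * D.S * D.X i = - (D.T j * D.X i * D.S) := by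
        rw [mul_assoc, mul_assoc, X_S, mul_neg, neg_neg]
      rw [h1, ← mul_assoc, ← sub_eq_add_neg, ← sub_mul, X_T, if_neg hij, zero_mul]
    · have hij : j ≠ i := by rintro rfl; exact hab' rfl
      change D.T i * D.S * D.X j + D.X j * (D.T i * D.S) = 0
      have h1 : D.T i * D.S * D.X j = - (D.T i * D.X j * D.S) := by
        rw [mul_assoc, mul_assoc, X_S, mul_neg, neg_neg]
      rw [h1, ← mul_assoc, neg_add_eq_sub, ← sub_mul, X_T, if_neg hij, zero_mul]
    · change D.T i * D.S * (D.T j * D.S) + D.T j * D.S * (D.T i * D.S) = 0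
      have h1 : ∀ i j, D.T i * D.S * (D.T j * D.S) = - (D.T i * D.T j) := by
        intro i j
        rw [mul_assoc, ← mul_assoc D.S, S_T, neg_mul, mul_neg, mul_assoc, S_S, mul_one]
      rw [h1, h1, ← neg_add, T_T, neg_zero]

include h0 in
lemma ne_zero_flat (c : C) : D.e c ≠ 0 := by
  intro h
  have := D.uA_e (c := c) (fun i j => h0 i j c) c
  rw [h, map_zero, if_pos rfl] at this
  exact zero_ne_one this

theorem gen_flat : Algebra.adjoin k (Set.range D.E ∪ Set.range (D.g h0) ∪ Set.range D.w) = ⊤ := by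
  have hfin := D.finrank_eq (D.ne_zero_flat h0)
  have := hfin.1
  set A := Algebra.adjoin k (Set.range D.E ∪ Set.range (D.g h0) ∪ Set.range D.w) with hA
  have hE : ∀ c, D.E c ∈ A := fun c => Algebra.subset_adjoin (Or.inl (Or.inl ⟨c, rfl⟩))
  have hg : ∀ c, D.g h0 c ∈ A := fun c => Algebra.subset_adjoin (Or.inl (Or.inr ⟨c, rfl⟩))
  have hw : ∀ a, D.w a ∈ A := fun a => Algebra.subset_adjoin (Or.inr ⟨a, rfl⟩)
  have hS : D.S ∈ A := by
    rw [S_eq]
    exact Subalgebra.sum_mem _ fun c _ => Subalgebra.smul_mem _ (hE c) _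
  have hSp : ∀ c, D.Sp c ∈ A := by
    intro c
    unfold Sp
    split_ifs
    · exact one_mem _
    · exact hS
  have hU : ∀ c, D.U h0 c ∈ A := by
    intro c
    have : D.U h0 c = D.g h0 c * D.Sp c⁻¹ := by
      rw [g, mul_assoc, Sp_mul, mul_inv_cancel, Sp_one, mul_one]
    rw [this]
    exact mul_mem (hg c) (hSp _)
  have hT : ∀ j, D.T j ∈ A := by
    intro j
    have : D.T j = D.w (Sum.inr j) * D.S := by
      change _ = D.T j * D.S * D.S
      rw [mul_assoc, S_S, mul_one]
    rw [this]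
    exact mul_mem (hw _) hS
  have hiH : ∀ y, Dbl.iH k D.H y ∈ A := by
    intro y
    induction y using induction_on with
    | he c => exact hE c
    | hx i => exact hw (Sum.inl i)
    | hr r =>
      rw [AlgHom.commutes]
      exact Subalgebra.algebraMap_mem _ r
    | ha a b h1 h2 =>
      rw [map_add]
      exact add_mem h1 h2
    | hm a b h1 h2 =>
      rw [map_mul]
      exact mul_mem h1 h2
  have hiD : ∀ p, Dbl.iD k D.H p ∈ A := by
    have := D.eq_top_of ((Subalgebra.toSubmodule A).comap (Dbl.iD k D.H)) ?_ ?_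
    · intro p
      have h1 : p ∈ (Subalgebra.toSubmodule A).comap (Dbl.iD k D.H) := by
        rw [this]
        trivial
      exact h1
    · intro j p hp
      change Dbl.iD k D.H (conv p (D.th j)) ∈ A
      rw [Dbl.iD_conv]
      exact mul_mem hp (hT j)
    · intro c
      refine ⟨D.uu (c := c) (fun i j => h0 i j c), hU c, ?_⟩
      intro a
      rw [uu_apply, uA_e]
  rw [eq_top_iff, ← Dbl.adjoin_eq_top k D.H, Algebra.adjoin_le_iff]
  rintro _ (⟨y, rfl⟩ | ⟨p, rfl⟩)
  · exact hiH y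
  · exact hiD p

theorem full_flat : Rels.Full k D.χ D.E (D.g h0) D.w where
  rels := D.drels_flat h0
  gen := D.gen_flat h0
  rank := by
    have hfin := D.finrank_eq (D.ne_zero_flat h0)
    have h1 := hfin.1
    have h2 := ((D.drels_flat h0).finrank_le (D.gen_flat h0)).1
    have h3 := Dbl.le_finrank (k := k) (H := D.H) D.sant D.sant_left
    rwa [hfin.2] at h3

include h0 in
lemma eps_flat : Dbl.eps k D.H (D.E 1) = 1 ∧ (∀ c, Dbl.eps k D.H (D.g h0 c) = 1) ∧
    ∀ a, Dbl.eps k D.H (D.w a) = 0 := by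
  refine ⟨?_, ?_, ?_⟩
  · rw [E, Dbl.eps_iH, counit_eq, counitA_e, if_pos rfl]
  · intro c
    have h1 : Dbl.eps k D.H (D.U h0 c) = 1 := by
      rw [U, Dbl.eps_iD, uu_apply, map_one]
    have h2 : Dbl.eps k D.H (D.Sp c) = 1 := by
      unfold Sp
      split_ifs
      · exact map_one _
      · rw [S, Dbl.eps_iH, counit_eq, counitA_s]
    rw [g, map_mul, h1, h2, mul_one]
  · rintro (i | i)
    · change Dbl.eps k D.H (D.X i) = 0
      rw [X, Dbl.eps_iH, counit_eq, counitA_x]
    · change Dbl.eps k D.H (D.T i * D.S) = 0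
      rw [map_mul, T, Dbl.eps_iD, th_one, zero_mul]

include h0 in
/-- Finite generation for the Drinfeld double, trivial bracket. -/
theorem fgc_flat : FGC k (Dbl.eps k D.H) :=
  (D.full_flat h0).fgc (Dbl.eps k D.H) (D.eps_flat h0).1 (D.eps_flat h0).2.1 (D.eps_flat h0).2.2

end flat

end SGrp

end Pool.Agent.H170_FG
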