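import Pool.Agent.H170_FG.CRing
import Pool.Agent.H170_FG.DH

/-!
# Relations in the Drinfeld double, arbitrary bracket
-/

set_option linter.unusedSectionVars false

universe u

open Finset TensorProduct Module WithConv

namespace Pool.Agent.H170_FG

variable {k : Type u} [Field k] {C : Type} [CommGroup C] [Fintype C] [DecidableEq C] {n : ℕ}

/-- The relations of the double. -/
structure Rels2 (D : SGrp k C n) {A : Type u} [Ring A] [Algebra k A] (e g : C → A)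
    (x t : Fin n → A) : Prop where
  hr : SGrp.HRels D e x
  g_one : g 1 = 1
  g_mul : ∀ c c', g c * g c' = g (c * c')
  g_e : ∀ c c', g c * e c' = e c' * g c
  g_t : ∀ c j, g c * t j = t j * g c
  t_e : ∀ j c, t j * e c = e ((D.χ j)⁻¹ * c) * t j
  t_sq : ∀ j, t j * t j = 0
  t_anti : ∀ i j, i ≠ j → t i * t j + t j * t i = 0
  x_t : ∀ i j, x i * t j + t j * x i = if i = j then g (D.χ i) - 1 else 0
  x_g : ∀ i c, x i * g c = g c * x i +
    ∑ m, D.ga i m c • ((1 + g (D.χ m)⁻¹) * (t m * g c))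

namespace SGrp

variable (D : SGrp k C n) (h2 : (2 : k) ≠ 0)

/-- the image of a functional -/
noncomputable def iQ (p : D.QQ) : Dbl k D.H := Dbl.iD k D.H p.ofConv

lemma iQ_mul (p q : D.QQ) : D.iQ (p * q) = D.iQ p * D.iQ q := Dbl.iD_conv k D.H p.ofConv q.ofConv

lemma iQ_smul (r : k) (p : D.QQ) : D.iQ (r • p) = r • D.iQ p := map_smul (Dbl.iD k D.H) r p.ofConv

lemma iQ_neg (p : D.QQ) : D.iQ (-p) = - D.iQ p := map_neg (Dbl.iD k D.H) p.ofConv

lemma iQ_sum {ι : Type*} (s : Finset ι) (p : ι → D.QQ) :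
    D.iQ (∑ i ∈ s, p i) = ∑ i ∈ s, D.iQ (p i) := by
  rw [iQ, ofConv_sum, map_sum]
  rfl

lemma iQ_tq (j : Fin n) : D.iQ (D.tq j) = D.T j := rfl

lemma iQ_one : D.iQ 1 = 1 := by
  have : (1 : D.QQ).ofConv = Coalgebra.counit := by
    ext y
    rfl
  rw [iQ, this, Dbl.iD_counit]

/-- the element belonging to `u c` -/
noncomputable def Uh (c : C) : Dbl k D.H := D.iQ (D.uq h2 c)

lemma Uh_one : D.Uh h2 1 = 1 := by rw [Uh, uq_one, iQ_one]

lemma Uh_mul (c c' : C) : D.Uh h2 c * D.Uh h2 c' = D.Uh h2 (c * c') := by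
  rw [Uh, Uh, ← iQ_mul, uq_uq]
  rfl

lemma Uh_T (c : C) (j : Fin n) : D.Uh h2 c * D.T j = D.sg c • (D.T j * D.Uh h2 c) := by
  rw [Uh, ← iQ_tq, ← iQ_mul, uq_tq, iQ_smul, iQ_mul]

lemma Uh_χ (j : Fin n) : Dbl.iD k D.H (D.uw j) = D.Uh h2 (D.χ j) := by
  rw [Uh, ← D.uw_eq h2]
  rfl

lemma Uh_E (c a : C) : D.Uh h2 c * D.E a = D.E a * D.Uh h2 c := by
  have h1 : ∀ a, D.ex h2 c ∘ₗ LinearMap.mulLeft k (D.e a) = if a = c then D.ex h2 c else 0 := by
    intro a
    ext y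
    rw [LinearMap.comp_apply, LinearMap.mulLeft_apply, ex_e_mul]
    split_ifs <;> rfl
  have h3 : ∀ a, D.ex h2 c ∘ₗ LinearMap.mulRight k (D.e a) = if a = c then D.ex h2 c else 0 := by
    intro a
    ext y
    rw [LinearMap.comp_apply, LinearMap.mulRight_apply, ex_mul_e]
    split_ifs <;> rfl
  have := D.E_iD h1 h3 (a * c)
  rw [mul_inv_cancel_right, mul_comm a, inv_mul_cancel_left] at this
  exact this.symm

lemma Uh_S (c : C) : D.Uh h2 c * D.S = D.S * D.Uh h2 c := by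
  rw [S_eq, HRels.sel, sum_mul, mul_sum]
  refine sum_congr rfl fun a _ => ?_
  rw [smul_mul_assoc, mul_smul_comm, Uh_E]

lemma Uh_Sp (c c' : C) : D.Uh h2 c * D.Sp c' = D.Sp c' * D.Uh h2 c := by
  unfold Sp
  split_ifs
  · simp
  · exact D.Uh_S h2 c

/-- normalized group-like elements -/
noncomputable def gg (c : C) : Dbl k D.H := D.Uh h2 c * D.Sp c

/-- odd elements -/
noncomputable def tt (j : Fin n) : Dbl k D.H := D.T j * D.S

lemma gg_T (c : C) (j : Fin n) : D.gg h2 c * D.T j = D.T j * D.gg h2 c := by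
  rw [gg, mul_assoc, Sp_T, mul_smul_comm, ← mul_assoc, Uh_T, smul_mul_assoc, smul_smul,
    D.sg_sq, one_smul, mul_assoc]

lemma gg_S (c : C) : D.gg h2 c * D.S = D.S * D.gg h2 c := by
  rw [gg, mul_assoc, Sp_S, ← mul_assoc, Uh_S, mul_assoc]

lemma X_Uh (i : Fin n) (c : C) : D.X i * D.Uh h2 c = D.sg c • (D.Uh h2 c * D.X i) +
    ∑ m, D.ga i m c • ((1 + D.gg h2 (D.χ m)⁻¹) * (D.tt m * D.Uh h2 c)) := by
  have h := D.X_iD (D.ex h2 c) i
  have e1 : Dbl.iD k D.H (D.ex h2 c ∘ₗ LinearMap.mulLeft k (D.x i)) =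
      ∑ m, D.ga i m c • (D.T m * D.Uh h2 c) := by
    have := congrArg D.iQ (D.lL_x_uq h2 i c)
    rw [iQ_sum] at this
    refine this.trans (sum_congr rfl fun m _ => ?_)
    rw [iQ_smul, iQ_mul]
    rfl
  have e2 : Dbl.iD k D.H (D.ex h2 c ∘ₗ LinearMap.mulRight k (D.x i)) =
      - ∑ m, D.ga i m c • (D.Uh h2 (D.χ m)⁻¹ * (D.T m * D.Uh h2 c)) := by
    have := congrArg D.iQ (D.rR_x_uq h2 i c)
    rw [iQ_neg, iQ_sum] at this
    refine this.trans (congrArg _ (sum_congr rfl fun m _ => ?_))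
    rw [iQ_smul, iQ_mul, iQ_mul]
    rfl
  have e3 : Dbl.iD k D.H (D.ex h2 c ∘ₗ LinearMap.mulRight k D.s) = D.sg c • D.Uh h2 c := by
    have := congrArg D.iQ (D.uq_wtR h2 c).s
    rw [iQ_smul] at this
    exact this
  rw [e1, e2, e3] at h
  have h' : D.X i * D.Uh h2 c = D.sg c • (D.Uh h2 c * D.X i) -
      (∑ m, D.ga i m c • (D.Uh h2 (D.χ m)⁻¹ * (D.T m * D.Uh h2 c)) +
      D.S * ∑ m, D.ga i m c • (D.T m * D.Uh h2 c)) := by
    rw [smul_mul_assoc] at h
    rw [eq_sub_iff_add_eq, ← add_assoc, add_right_comm]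
    change D.X i * D.Uh h2 c + D.S * _ = _ at h
    rw [h]
    abel
  rw [h', sub_eq_add_neg]
  congr 1
  rw [mul_sum, ← sum_add_distrib, ← sum_neg_distrib]
  refine sum_congr rfl fun m _ => ?_
  rw [mul_smul_comm, ← smul_add, ← smul_neg]
  congr 1
  have h5 : D.gg h2 (D.χ m)⁻¹ = D.Uh h2 (D.χ m)⁻¹ * D.S := by
    have : D.σ (D.χ m)⁻¹ ≠ 1 := by
      rw [map_inv, D.σ_χ]
      decide
    rw [gg, Sp, if_neg this]
  have h6 : D.Uh h2 (D.χ m)⁻¹ * D.T m = - (D.T m * D.Uh h2 (D.χ m)⁻¹) := by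
    rw [Uh_T, D.sg_inv, D.sg_χ, neg_one_smul]
  have h7 : (1 + D.gg h2 (D.χ m)⁻¹) * D.tt m = D.T m * D.S + D.T m * D.Uh h2 (D.χ m)⁻¹ := by
    rw [tt, add_mul, one_mul, ← mul_assoc, gg_T, mul_assoc, gg_S, h5, ← mul_assoc D.S,
      ← Uh_S, mul_assoc (D.Uh h2 _), S_S, mul_one]
  rw [← mul_assoc, h6, ← mul_assoc D.S, S_T, ← mul_assoc, h7]
  noncomm_ring

theorem drels2 : Rels2 D D.E (D.gg h2) D.X D.tt where
  hr := D.E_hrels
  g_one := by rw [gg, Uh_one, Sp_one, mul_one]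
  g_mul c c' := by
    rw [gg, gg, gg, mul_assoc, ← mul_assoc (D.Sp c), ← Uh_Sp, mul_assoc, Sp_mul, ← mul_assoc,
      Uh_mul]
  g_e c c' := by
    rw [gg, mul_assoc, Sp_E, ← mul_assoc, Uh_E, mul_assoc]
  g_t c j := by
    rw [tt, ← mul_assoc, gg_T, mul_assoc, gg_S, mul_assoc]
  t_e i c := by
    change D.T i * D.S * D.E c = D.E ((D.χ i)⁻¹ * c) * (D.T i * D.S)
    rw [mul_assoc, S_E, ← mul_assoc, E_T, mul_assoc]
  t_sq i := by
    change D.T i * D.S * (D.T i * D.S) = 0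
    rw [mul_assoc, ← mul_assoc D.S, S_T, neg_mul, mul_neg, mul_assoc, S_S, mul_one, T_self,
      neg_zero]
  t_anti i j _ := by
    change D.T i * D.S * (D.T j * D.S) + D.T j * D.S * (D.T i * D.S) = 0
    have h1 : ∀ i j, D.T i * D.S * (D.T j * D.S) = - (D.T i * D.T j) := by
      intro i j
      rw [mul_assoc, ← mul_assoc D.S, S_T, neg_mul, mul_neg, mul_assoc, S_S, mul_one]
    rw [h1, h1, ← neg_add, T_T, neg_zero]
  x_t i j := by
    change D.X i * (D.T j * D.S) + D.T j * D.S * D.X i = _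
    have h1 : D.T j * D.S * D.X i = - (D.T j * D.X i * D.S) := by
      rw [mul_assoc, mul_assoc, X_S, mul_neg, neg_neg]
    rw [h1, ← mul_assoc, ← sub_eq_add_neg, ← sub_mul, X_T]
    by_cases hij : i = j
    · subst hij
      rw [if_pos rfl, if_pos rfl, sub_mul, S_S, gg, Sp_χ, D.Uh_χ h2]
    · rw [if_neg hij, if_neg hij, zero_mul]
  x_g i c := by
    rw [gg, ← mul_assoc, X_Uh, add_mul, smul_mul_assoc, mul_assoc _ (D.X i), sum_mul]
    congr 1
    · rw [mul_assoc (D.Uh h2 c), Sp_X, mul_smul_comm]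
    · refine sum_congr rfl fun m _ => ?_
      rw [smul_mul_assoc]
      simp only [mul_assoc]

theorem gen2 : Algebra.adjoin k (Set.range D.E ∪ Set.range (D.gg h2) ∪ Set.range D.X ∪
    Set.range D.tt) = ⊤ := by
  have hfin := D.finrank_eq (D.ne_zero h2)
  have := hfin.1
  set A := Algebra.adjoin k (Set.range D.E ∪ Set.range (D.gg h2) ∪ Set.range D.X ∪
    Set.range D.tt) with hA
  have hE : ∀ c, D.E c ∈ A := fun c => Algebra.subset_adjoin (Or.inl (Or.inl (Or.inl ⟨c, rfl⟩)))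
  have hg : ∀ c, D.gg h2 c ∈ A := fun c =>
    Algebra.subset_adjoin (Or.inl (Or.inl (Or.inr ⟨c, rfl⟩)))
  have hX : ∀ a, D.X a ∈ A := fun a => Algebra.subset_adjoin (Or.inl (Or.inr ⟨a, rfl⟩))
  have ht : ∀ a, D.tt a ∈ A := fun a => Algebra.subset_adjoin (Or.inr ⟨a, rfl⟩)
  have hS : D.S ∈ A := by
    rw [S_eq]
    exact Subalgebra.sum_mem _ fun c _ => Subalgebra.smul_mem _ (hE c) _
  have hSp : ∀ c, D.Sp c ∈ A := by
    intro c
    unfold Sp
    split_ifs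
    · exact one_mem _
    · exact hS
  have hU : ∀ c, D.Uh h2 c ∈ A := by
    intro c
    have : D.Uh h2 c = D.gg h2 c * D.Sp c⁻¹ := by
      rw [gg, mul_assoc, Sp_mul, mul_inv_cancel, Sp_one, mul_one]
    rw [this]
    exact mul_mem (hg c) (hSp _)
  have hT : ∀ j, D.T j ∈ A := by
    intro j
    have : D.T j = D.tt j * D.S := by
      change _ = D.T j * D.S * D.S
      rw [mul_assoc, S_S, mul_one]
    rw [this]
    exact mul_mem (ht _) hS
  have hiH : ∀ y, Dbl.iH k D.H y ∈ A := by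
    intro y
    induction y using induction_on with
    | he c => exact hE c
    | hx i => exact hX i
    | hr r =>
      rw [AlgHom.commutes]
      exact Subalgebra.algebraMap_mem _ r
    | ha a b h1 h2 =>
      rw [map_add]
      exact add_mem h1 h2
    | hm a b h1 h2 =>
      rw [map_mul]
      exact mul_mem h1 h2
  have hiD : ∀ p, Dbl.iD k D.H p ∈ A := by
    have := D.eq_top_of ((Subalgebra.toSubmodule A).comap (Dbl.iD k D.H)) ?_ ?_
    · intro p
      have h1 : p ∈ (Subalgebra.toSubmodule A).comap (Dbl.iD k D.H) := by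
        rw [this]
        trivial
      exact h1
    · intro j p hp
      change Dbl.iD k D.H (conv p (D.th j)) ∈ A
      rw [Dbl.iD_conv]
      exact mul_mem hp (hT j)
    · intro c
      exact ⟨D.ex h2 c, hU c, fun a => D.uq_apply_e h2 c a⟩
  rw [eq_top_iff, ← Dbl.adjoin_eq_top k D.H, Algebra.adjoin_le_iff]
  rintro _ (⟨y, rfl⟩ | ⟨p, rfl⟩)
  · exact hiH y
  · exact hiD p

lemma eps2 : Dbl.eps k D.H (D.E 1) = 1 ∧ (∀ c, Dbl.eps k D.H (D.gg h2 c) = 1) ∧
    (∀ a, Dbl.eps k D.H (D.X a) = 0) ∧ ∀ a, Dbl.eps k D.H (D.tt a) = 0 := by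
  refine ⟨?_, ?_, ?_, ?_⟩
  · rw [E, Dbl.eps_iH, counit_eq, counitA_e, if_pos rfl]
  · intro c
    have h1 : Dbl.eps k D.H (D.Uh h2 c) = 1 := by
      rw [Uh, iQ, Dbl.eps_iD]
      exact D.ex_one h2 c
    have h2' : Dbl.eps k D.H (D.Sp c) = 1 := by
      unfold Sp
      split_ifs
      · exact map_one _
      · rw [S, Dbl.eps_iH, counit_eq, counitA_s]
    rw [gg, map_mul, h1, h2', mul_one]
  · intro i
    rw [X, Dbl.eps_iH, counit_eq, counitA_x]
  · intro i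
    change Dbl.eps k D.H (D.T i * D.S) = 0
    rw [map_mul, T, Dbl.eps_iD, th_one, zero_mul]

end SGrp

end Pool.Agent.H170_FG
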