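import Mathlib

/-!
# The Drinfeld double of a bialgebra: definition
-/

set_option linter.unusedSectionVars false

universe u

open Finset TensorProduct Module

namespace Pool.Agent.H170_FG

section

variable (k : Type u) [Field k] (H : Type u) [Ring H] [Bialgebra k H]

variable {k H} in
/-- The convolution product of two linear functionals: `(p * q)(y) = ∑ p(y₁) q(y₂)`. -/
noncomputable def conv (p q : Dual k H) : Dual k H :=
  LinearMap.mul' k k ∘ₗ TensorProduct.map p q ∘ₗ Coalgebra.comul

/-- an element of `H` in the free algebra -/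
def fl (h : H) : FreeAlgebra k (H ⊕ Dual k H) := FreeAlgebra.ι k (Sum.inl h)

/-- an element of the dual of `H` in the free algebra -/
def fr (p : Dual k H) : FreeAlgebra k (H ⊕ Dual k H) := FreeAlgebra.ι k (Sum.inr p)

/-- The relations of the Drinfeld double: `H` and its dual (with the convolution product) are
subalgebras, and `∑ h₁ · p(h₂ ?) = ∑ p(? h₁) · h₂` for `h` in `H` and `p` in the dual. -/
inductive DRel : FreeAlgebra k (H ⊕ Dual k H) → FreeAlgebra k (H ⊕ Dual k H) → Prop
  | l_add (h h' : H) : DRel (fl k H (h + h')) (fl k H h + fl k H h')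
  | l_smul (r : k) (h : H) : DRel (fl k H (r • h)) (r • fl k H h)
  | l_mul (h h' : H) : DRel (fl k H (h * h')) (fl k H h * fl k H h')
  | l_one : DRel (fl k H 1) 1
  | r_add (p q : Dual k H) : DRel (fr k H (p + q)) (fr k H p + fr k H q)
  | r_smul (r : k) (p : Dual k H) : DRel (fr k H (r • p)) (r • fr k H p)
  | r_mul (p q : Dual k H) : DRel (fr k H (conv p q)) (fr k H p * fr k H q)
  | r_one : DRel (fr k H Coalgebra.counit) 1
  | cross (p : Dual k H) (h : H) {m : ℕ} (a b : Fin m → H)
      (hab : ∑ i, a i ⊗ₜ[k] b i = Coalgebra.comul h) :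
      DRel (∑ i, fl k H (a i) * fr k H (p ∘ₗ LinearMap.mulLeft k (b i)))
        (∑ i, fr k H (p ∘ₗ LinearMap.mulRight k (a i)) * fl k H (b i))

/-- The Drinfeld double `D(H)`. Its modules are the Yetter-Drinfeld modules over `H`. -/
abbrev Double : Type u := RingQuot (DRel k H)

/-- The counit on the free algebra: `h ↦ ε(h)`, `p ↦ p(1)`. -/
noncomputable def epsF : FreeAlgebra k (H ⊕ Dual k H) →ₐ[k] k :=
  FreeAlgebra.lift k (Sum.elim (fun h => Coalgebra.counit h) (fun p => p 1))

lemma epsF_fl (h : H) : epsF k H (fl k H h) = Coalgebra.counit h := by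
  simp [fl, epsF]

lemma epsF_fr (p : Dual k H) : epsF k H (fr k H p) = p 1 := by
  simp [fr, epsF]

lemma epsF_rel ⦃a b : FreeAlgebra k (H ⊕ Dual k H)⦄ (hab : DRel k H a b) :
    epsF k H a = epsF k H b := by
  cases hab with
  | l_add h h' => simp only [map_add, epsF_fl]
  | l_smul r h => simp only [map_smul, epsF_fl]
  | l_mul h h' => simp only [map_mul, epsF_fl, Bialgebra.counit_mul]
  | l_one => simp only [map_one, epsF_fl, Bialgebra.counit_one]
  | r_add p q => simp only [map_add, epsF_fr, LinearMap.add_apply]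
  | r_smul r p => simp only [map_smul, epsF_fr, LinearMap.smul_apply]
  | r_mul p q => simp [epsF_fr, conv, Algebra.TensorProduct.one_def]
  | r_one => simp only [map_one, epsF_fr, Bialgebra.counit_one]
  | cross p h a b hab =>
    have h1 := congrArg (fun t => p (TensorProduct.lid k H
      ((Coalgebra.counit (R := k) (A := H)).rTensor H t))) hab
    have h2 := congrArg (fun t => p (TensorProduct.rid k H
      ((Coalgebra.counit (R := k) (A := H)).lTensor H t))) hab
    simp only [map_sum, LinearMap.rTensor_tmul, TensorProduct.lid_tmul,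
      Coalgebra.rTensor_counit_comul, one_smul, map_smul, smul_eq_mul] at h1
    simp only [map_sum, LinearMap.lTensor_tmul, TensorProduct.rid_tmul,
      Coalgebra.lTensor_counit_comul, one_smul, map_smul, smul_eq_mul] at h2
    simp only [map_sum, map_mul, epsF_fl, epsF_fr, LinearMap.comp_apply,
      LinearMap.mulLeft_apply, LinearMap.mulRight_apply, mul_one, one_mul]
    rw [h1, ← h2]
    exact sum_congr rfl fun i _ => mul_comm _ _

/-- The counit of the double: `h ↦ ε(h)`, `p ↦ p(1)`. -/
noncomputable def Double.eps : Double k H →ₐ[k] k :=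
  RingQuot.liftAlgHom k ⟨epsF k H, epsF_rel k H⟩

lemma Double.eps_mk (a : FreeAlgebra k (H ⊕ Dual k H)) :
    Double.eps k H (RingQuot.mkAlgHom k (DRel k H) a) = epsF k H a :=
  RingQuot.liftAlgHom_mkAlgHom_apply k (epsF k H) (epsF_rel k H) a

end

end Pool.Agent.H170_FG
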