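import Pool.Agent.H170_FG.DRel

/-!
# The Drinfeld double of a bialgebra
-/

set_option linter.unusedSectionVars false

universe u

open Finset TensorProduct Module

namespace Pool.Agent.H170_FG

section

variable (k : Type u) [Field k] (H : Type u) [Ring H] [Bialgebra k H]

/-- The Drinfeld double `D(H)`. Its modules are the Yetter-Drinfeld modules over `H`. -/
def Dbl : Type u := RingQuot (DRel k H)

noncomputable instance instRingDbl : Ring (Dbl k H) := inferInstanceAs (Ring (RingQuot (DRel k H)))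

noncomputable instance instAlgebraDbl : Algebra k (Dbl k H) :=
  inferInstanceAs (Algebra k (RingQuot (DRel k H)))

namespace Dbl

/-- the quotient map -/
noncomputable def mkD : FreeAlgebra k (H ⊕ Dual k H) →ₐ[k] Dbl k H :=
  RingQuot.mkAlgHom k (DRel k H)

lemma mkD_rel {a b : FreeAlgebra k (H ⊕ Dual k H)} (h : DRel k H a b) :
    mkD k H a = mkD k H b := RingQuot.mkAlgHom_rel k h

/-- the embedding of `H` -/
noncomputable def iH : H →ₐ[k] Dbl k H :=
  AlgHom.ofLinearMap
    { toFun := fun h => mkD k H (fl k H h)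
      map_add' := fun h h' => by rw [mkD_rel k H (DRel.l_add h h'), map_add]
      map_smul' := fun r h => by rw [mkD_rel k H (DRel.l_smul r h), map_smul]; rfl }
    ((mkD_rel k H DRel.l_one).trans (map_one _))
    (fun h h' => (mkD_rel k H (DRel.l_mul h h')).trans (map_mul _ _ _))

/-- the embedding of the dual -/
noncomputable def iD : Dual k H →ₗ[k] Dbl k H where
  toFun p := mkD k H (fr k H p)
  map_add' h h' := by rw [mkD_rel k H (DRel.r_add h h'), map_add]
  map_smul' r h := by rw [mkD_rel k H (DRel.r_smul r h), map_smul]; rfl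

lemma mkD_fl (h : H) : mkD k H (fl k H h) = iH k H h := rfl

lemma mkD_fr (p : Dual k H) : mkD k H (fr k H p) = iD k H p := rfl

lemma iD_conv (p q : Dual k H) : iD k H (conv p q) = iD k H p * iD k H q :=
  (mkD_rel k H (DRel.r_mul p q)).trans (map_mul _ _ _)

lemma iD_counit : iD k H Coalgebra.counit = 1 := (mkD_rel k H DRel.r_one).trans (map_one _)

lemma cross (p : Dual k H) (h : H) {m : ℕ} (a b : Fin m → H)
    (hab : ∑ i, a i ⊗ₜ[k] b i = Coalgebra.comul h) :
    ∑ i, iH k H (a i) * iD k H (p ∘ₗ LinearMap.mulLeft k (b i)) =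
      ∑ i, iD k H (p ∘ₗ LinearMap.mulRight k (a i)) * iH k H (b i) := by
  have := mkD_rel k H (DRel.cross p h a b hab)
  simpa only [map_sum, map_mul, mkD_fl, mkD_fr] using this

variable {k H} in
/-- The data for a homomorphism out of the double. -/
structure DRels {A : Type*} [Ring A] [Algebra k A] (f : H → A) (g : Dual k H → A) : Prop where
  l_add : ∀ h h', f (h + h') = f h + f h'
  l_smul : ∀ (r : k) h, f (r • h) = r • f h
  l_mul : ∀ h h', f (h * h') = f h * f h'
  l_one : f 1 = 1
  r_add : ∀ p q, g (p + q) = g p + g q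
  r_smul : ∀ (r : k) p, g (r • p) = r • g p
  r_mul : ∀ p q, g (conv p q) = g p * g q
  r_one : g Coalgebra.counit = 1
  cross : ∀ (p : Dual k H) (h : H) (m : ℕ) (a b : Fin m → H),
    ∑ i, a i ⊗ₜ[k] b i = Coalgebra.comul h →
    ∑ i, f (a i) * g (p ∘ₗ LinearMap.mulLeft k (b i)) =
        ∑ i, g (p ∘ₗ LinearMap.mulRight k (a i)) * f (b i)

section lift

variable {k H} {A : Type*} [Ring A] [Algebra k A] {f : H → A} {g : Dual k H → A}

lemma lift_fl (h : H) : FreeAlgebra.lift k (Sum.elim f g) (fl k H h) = f h := by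
  simp [fl]

lemma lift_fr (p : Dual k H) : FreeAlgebra.lift k (Sum.elim f g) (fr k H p) = g p := by
  simp [fr]

lemma lift_aux (hfg : DRels f g) ⦃a b : FreeAlgebra k (H ⊕ Dual k H)⦄ (hab : DRel k H a b) :
    FreeAlgebra.lift k (Sum.elim f g) a = FreeAlgebra.lift k (Sum.elim f g) b := by
  cases hab with
  | l_add h h' => simp only [map_add, lift_fl, hfg.l_add]
  | l_smul r h => simp only [map_smul, lift_fl, hfg.l_smul]
  | l_mul h h' => simp only [map_mul, lift_fl, hfg.l_mul]
  | l_one => simp only [map_one, lift_fl, hfg.l_one]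
  | r_add p q => simp only [map_add, lift_fr, hfg.r_add]
  | r_smul r p => simp only [map_smul, lift_fr, hfg.r_smul]
  | r_mul p q => simp only [map_mul, lift_fr, hfg.r_mul]
  | r_one => simp only [map_one, lift_fr, hfg.r_one]
  | cross p h a b hab => simp only [map_sum, map_mul, lift_fl, lift_fr, hfg.cross p h _ a b hab]

/-- The universal property. -/
noncomputable def lift (hfg : DRels f g) : Dbl k H →ₐ[k] A :=
  RingQuot.liftAlgHom k ⟨FreeAlgebra.lift k (Sum.elim f g), lift_aux hfg⟩

lemma lift_mkD (hfg : DRels f g) (a : FreeAlgebra k (H ⊕ Dual k H)) :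
    lift hfg (mkD k H a) = FreeAlgebra.lift k (Sum.elim f g) a :=
  RingQuot.liftAlgHom_mkAlgHom_apply k (FreeAlgebra.lift k (Sum.elim f g)) (lift_aux hfg) a

lemma lift_iH (hfg : DRels f g) (h : H) : lift hfg (iH k H h) = f h := by
  rw [← mkD_fl, lift_mkD, lift_fl]

lemma lift_iD (hfg : DRels f g) (p : Dual k H) : lift hfg (iD k H p) = g p := by
  rw [← mkD_fr, lift_mkD, lift_fr]

end lift

theorem adjoin_eq_top :
    Algebra.adjoin k (Set.range (iH k H) ∪ Set.range (iD k H)) = ⊤ := by
  have h1 : Algebra.adjoin k (Set.range (FreeAlgebra.ι k : H ⊕ Dual k H → _)) = ⊤ :=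
    FreeAlgebra.adjoin_range_ι k (H ⊕ Dual k H)
  have h2 : Function.Surjective (mkD k H) := RingQuot.mkAlgHom_surjective k _
  have h3 : (Algebra.adjoin k (Set.range (FreeAlgebra.ι k : H ⊕ Dual k H → _))).map
      (mkD k H) = ⊤ := by
    rw [h1, Algebra.map_top, AlgHom.range_eq_top]
    exact h2
  rw [← h3, AlgHom.map_adjoin]
  congr 1
  ext y
  constructor
  · rintro (⟨c, rfl⟩ | ⟨a, rfl⟩)
    · exact ⟨_, ⟨Sum.inl c, rfl⟩, rfl⟩
    · exact ⟨_, ⟨Sum.inr a, rfl⟩, rfl⟩
  · rintro ⟨_, ⟨c | a, rfl⟩, rfl⟩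
    · exact Or.inl ⟨c, rfl⟩
    · exact Or.inr ⟨a, rfl⟩

lemma counit_rels : DRels (k := k) (H := H) (fun h => (Coalgebra.counit h : k)) (fun p => p 1) where
  l_add h h' := map_add _ _ _
  l_smul r h := map_smul _ _ _
  l_mul h h' := Bialgebra.counit_mul _ _
  l_one := Bialgebra.counit_one
  r_add p q := rfl
  r_smul r p := rfl
  r_mul p q := by
    simp [conv, Algebra.TensorProduct.one_def]
  r_one := Bialgebra.counit_one
  cross p h m a b hab := by
    have h1 := congrArg (fun t => p (TensorProduct.lid k H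
      ((Coalgebra.counit (R := k) (A := H)).rTensor H t))) hab
    have h2 := congrArg (fun t => p (TensorProduct.rid k H
      ((Coalgebra.counit (R := k) (A := H)).lTensor H t))) hab
    simp only [map_sum, LinearMap.rTensor_tmul, TensorProduct.lid_tmul,
      Coalgebra.rTensor_counit_comul, one_smul, map_smul, smul_eq_mul] at h1
    simp only [map_sum, LinearMap.lTensor_tmul, TensorProduct.rid_tmul,
      Coalgebra.lTensor_counit_comul, one_smul, map_smul, smul_eq_mul] at h2
    simp only [LinearMap.comp_apply, LinearMap.mulLeft_apply, LinearMap.mulRight_apply, mul_one,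
      one_mul]
    rw [h1, ← h2]
    exact sum_congr rfl fun i _ => mul_comm _ _

/-- The counit of the double: `h ↦ ε(h)`, `p ↦ p(1)`. -/
noncomputable def eps : Dbl k H →ₐ[k] k := lift (counit_rels k H)

lemma eps_iH (h : H) : eps k H (iH k H h) = Coalgebra.counit h := lift_iH _ _

lemma eps_iD (p : Dual k H) : eps k H (iD k H p) = p 1 := lift_iD _ _

end Dbl

/-- the comparison of the two copies of the double -/
noncomputable def Dbl.toDouble : Dbl k H ≃ₐ[k] Double k H where
  toFun x := x
  invFun x := x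
  left_inv _ := rfl
  right_inv _ := rfl
  map_mul' _ _ := rfl
  map_add' _ _ := rfl
  commutes' _ := rfl

lemma Dbl.eps_toDouble (y : Dbl k H) : Double.eps k H (Dbl.toDouble k H y) = Dbl.eps k H y := by
  obtain ⟨a, rfl⟩ := RingQuot.mkAlgHom_surjective k (DRel k H) y
  have h1 : Dbl.eps k H (Dbl.mkD k H a) = epsF k H a := Dbl.lift_mkD _ _
  exact (Double.eps_mk k H a).trans h1.symm

end

end Pool.Agent.H170_FG
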