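import Pool.Agent.H170_FG.Dbl

/-!
# A representation of the Drinfeld double, and its dimension
-/

set_option linter.unusedSectionVars false

universe u

open Finset TensorProduct Module

namespace Pool.Agent.H170_FG

section

variable {k : Type u} [Field k] {H : Type u} [Ring H] [Bialgebra k H]

namespace Dbl

/-- `a ⊗ b ↦ p(b) a` -/
noncomputable def idp (p : Dual k H) : H ⊗[k] H →ₗ[k] H :=
  (TensorProduct.rid k H).toLinearMap ∘ₗ p.lTensor H

@[simp] lemma idp_tmul (p : Dual k H) (a b : H) : idp p (a ⊗ₜ[k] b) = p b • a := by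
  simp [idp]

lemma idp_left (p : Dual k H) (a b : H) (Y : H ⊗[k] H) :
    idp p ((a ⊗ₜ[k] b) * Y) = a * idp (p ∘ₗ LinearMap.mulLeft k b) Y := by
  induction Y using TensorProduct.induction_on with
  | zero => simp
  | add Y Y' h h' => rw [mul_add, map_add, h, h', map_add, mul_add]
  | tmul c d => simp

lemma idp_right (p : Dual k H) (a : H) (Y : H ⊗[k] H) :
    idp p (Y * (1 ⊗ₜ[k] a)) = idp (p ∘ₗ LinearMap.mulRight k a) Y := by
  induction Y using TensorProduct.induction_on with
  | zero => simp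
  | add Y Y' h h' => rw [add_mul, map_add, h, h', map_add]
  | tmul c d => simp

/-- `κ(z ⊗ z') = Δ(φ(z')) (1 ⊗ z)` -/
noncomputable def kp (φ : H →ₗ[k] H) : H ⊗[k] H →ₗ[k] H ⊗[k] H :=
  TensorProduct.lift (LinearMap.mk₂ k
    (fun z z' => Coalgebra.comul (R := k) (φ z') * ((1 : H) ⊗ₜ[k] z))
    (fun a b c => by rw [tmul_add, mul_add])
    (fun r a b => by rw [tmul_smul, mul_smul_comm])
    (fun a b c => by rw [map_add, map_add, add_mul])
    (fun r a b => by rw [map_smul, map_smul, smul_mul_assoc]))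

@[simp] lemma kp_tmul (φ : H →ₗ[k] H) (z z' : H) : kp φ (z ⊗ₜ[k] z') =
    Coalgebra.comul (R := k) (φ z') * ((1 : H) ⊗ₜ[k] z) := by
  simp [kp]

lemma kp_add (φ ψ : H →ₗ[k] H) (Z : H ⊗[k] H) : kp (φ + ψ) Z = kp φ Z + kp ψ Z := by
  induction Z using TensorProduct.induction_on with
  | zero => simp
  | add Y Y' h h' => rw [map_add, map_add, map_add, h, h']; abel
  | tmul c d => simp [add_mul]

lemma kp_smul (r : k) (φ : H →ₗ[k] H) (Z : H ⊗[k] H) : kp (r • φ) Z = r • kp φ Z := by
  induction Z using TensorProduct.induction_on with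
  | zero => simp
  | add Y Y' h h' => rw [map_add, map_add, smul_add, h, h']
  | tmul c d => simp

/-- `(a ⊗ b) ↦ (z ↦ b φ(z a))` -/
noncomputable def lf (φ : H →ₗ[k] H) : H ⊗[k] H →ₗ[k] (H →ₗ[k] H) :=
  TensorProduct.lift (LinearMap.mk₂ k
    (fun a b => LinearMap.mulLeft k b ∘ₗ φ ∘ₗ LinearMap.mulRight k a)
    (fun a b c => by ext z; simp [mul_add])
    (fun r a b => by ext z; simp)
    (fun a b c => by ext z; simp [add_mul])
    (fun r a b => by ext z; simp))

@[simp] lemma lf_tmul (φ : H →ₗ[k] H) (a b z : H) : lf φ (a ⊗ₜ[k] b) z = b * φ (z * a) := by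
  simp [lf]

lemma lf_add (φ ψ : H →ₗ[k] H) (Z : H ⊗[k] H) : lf (φ + ψ) Z = lf φ Z + lf ψ Z := by
  induction Z using TensorProduct.induction_on with
  | zero => simp
  | add Y Y' h h' => rw [map_add, map_add, map_add, h, h']; abel
  | tmul c d => ext z; simp [mul_add]

lemma lf_smul (r : k) (φ : H →ₗ[k] H) (Z : H ⊗[k] H) : lf (r • φ) Z = r • lf φ Z := by
  induction Z using TensorProduct.induction_on with
  | zero => simp
  | add Y Y' h h' => rw [map_add, map_add, smul_add, h, h']
  | tmul c d => ext z; simp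

lemma lf_mul (φ : H →ₗ[k] H) (X Y : H ⊗[k] H) : lf φ (X * Y) = lf (lf φ Y) X := by
  induction X using TensorProduct.induction_on with
  | zero => simp
  | add X X' h h' => rw [add_mul, map_add, h, h', map_add]
  | tmul a b =>
    induction Y using TensorProduct.induction_on with
    | zero => rw [mul_zero, map_zero, show (0 : H →ₗ[k] H) = (0 : k) • 0 by simp, lf_smul]; simp
    | add Y Y' h h' => rw [mul_add, map_add, h, h', map_add, lf_add]
    | tmul c d => ext z; simp [mul_assoc]

/-- action of `h` -/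
noncomputable def Lop (h : H) : Module.End k (H →ₗ[k] H) where
  toFun φ := lf φ (Coalgebra.comul h)
  map_add' φ ψ := lf_add φ ψ _
  map_smul' r φ := lf_smul r φ _

/-- action of `p` -/
noncomputable def Rop (p : Dual k H) : Module.End k (H →ₗ[k] H) where
  toFun φ := idp p ∘ₗ kp φ ∘ₗ Coalgebra.comul
  map_add' φ ψ := by
    ext z
    simp [kp_add]
  map_smul' r φ := by
    ext z
    simp [kp_smul]

lemma Lop_apply (h : H) (φ : H →ₗ[k] H) (z : H) :
    Lop (k := k) h φ z = lf φ (Coalgebra.comul h) z := rfl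

lemma Rop_apply (p : Dual k H) (φ : H →ₗ[k] H) (z : H) :
    Rop p φ z = idp p (kp φ (Coalgebra.comul z)) := rfl

/-- The common value of the two sides of the cross relation. -/
noncomputable def Psi (p : Dual k H) (φ : H →ₗ[k] H) (z : H) :
    (H ⊗[k] H) ⊗[k] (H ⊗[k] H) →ₗ[k] H :=
  TensorProduct.lift (LinearMap.mk₂ k
    (fun X Y => idp p (Y * kp φ (Coalgebra.comul z * X)))
    (fun a b c => by rw [mul_add, map_add, mul_add, map_add])
    (fun r a b => by rw [mul_smul_comm, map_smul, mul_smul_comm, map_smul])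
    (fun a b c => by rw [add_mul, map_add])
    (fun r a b => by rw [smul_mul_assoc, map_smul]))

@[simp] lemma Psi_tmul (p : Dual k H) (φ : H →ₗ[k] H) (z : H) (X Y : H ⊗[k] H) :
    Psi p φ z (X ⊗ₜ[k] Y) = idp p (Y * kp φ (Coalgebra.comul z * X)) := by
  simp [Psi]

lemma Psi_left (p : Dual k H) (φ : H →ₗ[k] H) (z b : H) (t : H ⊗[k] H) :
    lf (Rop (p ∘ₗ LinearMap.mulLeft k b) φ) t z =
      Psi p φ z (TensorProduct.map Coalgebra.comul LinearMap.id
        (TensorProduct.assoc k H H H (t ⊗ₜ[k] b))) := by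
  induction t using TensorProduct.induction_on with
  | zero => simp
  | add X X' h h' => rw [map_add, LinearMap.add_apply, h, h', add_tmul, map_add, map_add, map_add]
  | tmul c d =>
    rw [lf_tmul, Rop_apply, Bialgebra.comul_mul, TensorProduct.assoc_tmul, TensorProduct.map_tmul,
      Psi_tmul, LinearMap.id_apply, idp_left]

lemma kp_lf (φ : H →ₗ[k] H) (b c a : H) (Z : H ⊗[k] H) :
    kp (lf φ (b ⊗ₜ[k] c)) Z * (1 ⊗ₜ[k] a) =
      Coalgebra.comul (R := k) c * kp φ (Z * (a ⊗ₜ[k] b)) := by
  induction Z using TensorProduct.induction_on with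
  | zero => simp
  | add X X' h h' => rw [map_add, add_mul, h, h', add_mul, map_add, mul_add]
  | tmul z z' =>
    rw [kp_tmul, lf_tmul, Bialgebra.comul_mul, Algebra.TensorProduct.tmul_mul_tmul, kp_tmul,
      mul_assoc, mul_assoc, Algebra.TensorProduct.tmul_mul_tmul, one_mul]

lemma kp_zero (Z : H ⊗[k] H) : kp (0 : H →ₗ[k] H) Z = 0 := by
  have := kp_smul (0 : k) (0 : H →ₗ[k] H) Z
  simpa using this

lemma Psi_right (p : Dual k H) (φ : H →ₗ[k] H) (z a : H) (t : H ⊗[k] H) :
    Rop (p ∘ₗ LinearMap.mulRight k a) (lf φ t) z =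
      Psi p φ z (TensorProduct.map LinearMap.id Coalgebra.comul
        ((TensorProduct.assoc k H H H).symm (a ⊗ₜ[k] t))) := by
  rw [Rop_apply]
  induction t using TensorProduct.induction_on with
  | zero => simp [kp_zero]
  | add X X' h h' => rw [map_add, kp_add, map_add, h, h', tmul_add, map_add, map_add, map_add]
  | tmul c d =>
    rw [← idp_right, kp_lf, TensorProduct.assoc_symm_tmul, TensorProduct.map_tmul,
      Psi_tmul, LinearMap.id_apply]

lemma Psi_left_eq (h : H) {m : ℕ} (a b : Fin m → H)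
    (hab : ∑ i, a i ⊗ₜ[k] b i = Coalgebra.comul h) (p : Dual k H) (φ : H →ₗ[k] H) (z : H) :
    (∑ i, Lop (k := k) (a i) * Rop (p ∘ₗ LinearMap.mulLeft k (b i))) φ z =
      Psi p φ z (TensorProduct.map Coalgebra.comul Coalgebra.comul (Coalgebra.comul h)) := by
  rw [LinearMap.sum_apply, LinearMap.sum_apply]
  simp only [Module.End.mul_apply, Lop_apply, Psi_left]
  rw [← map_sum, ← map_sum, ← map_sum]
  congr 1
  have h1 : ∑ i, Coalgebra.comul (R := k) (a i) ⊗ₜ[k] b i =
      Coalgebra.comul.rTensor H (Coalgebra.comul (R := k) h) := by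
    rw [← hab, map_sum]
    rfl
  rw [h1, Coalgebra.coassoc_apply, LinearMap.map_lTensor, LinearMap.id_comp]

lemma Psi_right_eq (h : H) {m : ℕ} (a b : Fin m → H)
    (hab : ∑ i, a i ⊗ₜ[k] b i = Coalgebra.comul h) (p : Dual k H) (φ : H →ₗ[k] H) (z : H) :
    (∑ i, Rop (p ∘ₗ LinearMap.mulRight k (a i)) * Lop (k := k) (b i)) φ z =
      Psi p φ z (TensorProduct.map Coalgebra.comul Coalgebra.comul (Coalgebra.comul h)) := by
  rw [LinearMap.sum_apply, LinearMap.sum_apply]
  have h0 : ∀ i, Lop (k := k) (b i) φ = lf φ (Coalgebra.comul (b i)) := fun i => rfl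
  simp only [Module.End.mul_apply, h0, Psi_right]
  rw [← map_sum, ← map_sum, ← map_sum]
  congr 1
  have h1 : ∑ i, a i ⊗ₜ[k] Coalgebra.comul (R := k) (b i) =
      Coalgebra.comul.lTensor H (Coalgebra.comul (R := k) h) := by
    rw [← hab, map_sum]
    rfl
  rw [h1, Coalgebra.coassoc_symm_apply, LinearMap.map_rTensor, LinearMap.id_comp]

lemma Lop_mul (h h' : H) : Lop (k := k) (h * h') = Lop (k := k) h * Lop (k := k) h' := by
  ext φ z
  rw [Module.End.mul_apply, Lop_apply, Bialgebra.comul_mul, lf_mul]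
  rfl

lemma Lop_one : Lop (k := k) (1 : H) = 1 := by
  ext φ z
  rw [Lop_apply, Bialgebra.comul_one, Algebra.TensorProduct.one_def, lf_tmul, one_mul, mul_one]
  rfl

lemma Rop_one : Rop (k := k) (Coalgebra.counit : Dual k H) = 1 := by
  ext φ z
  have key : ∀ Z : H ⊗[k] H, idp (Coalgebra.counit : Dual k H) (kp φ Z) =
      φ (TensorProduct.lid k H ((Coalgebra.counit (R := k) (A := H)).rTensor H Z)) := by
    intro Z
    induction Z using TensorProduct.induction_on with
    | zero => simp
    | add X X' h h' => rw [map_add, map_add, h, h', map_add, map_add, map_add]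
    | tmul c d =>
      rw [kp_tmul, idp_right]
      have h2 : ((Coalgebra.counit : Dual k H) ∘ₗ LinearMap.mulRight k c) =
          (Coalgebra.counit c : k) • (Coalgebra.counit : Dual k H) := by
        ext y
        simp [mul_comm]
      rw [h2, LinearMap.rTensor_tmul, TensorProduct.lid_tmul, map_smul]
      have h3 : ∀ (r : k) (q : Dual k H) (Y : H ⊗[k] H), idp (r • q) Y = r • idp q Y := by
        intro r q Y
        induction Y using TensorProduct.induction_on with
        | zero => simp
        | add X X' h h' => rw [map_add, map_add, h, h', smul_add]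
        | tmul c d => simp [smul_smul]
      rw [h3, idp, LinearMap.comp_apply, Coalgebra.lTensor_counit_comul]
      simp
  rw [Rop_apply, key, Coalgebra.rTensor_counit_comul]
  simp

/-- `a ⊗ (b ⊗ c) ↦ p(b) q(c) a` -/
noncomputable def t3 (p q : Dual k H) : H ⊗[k] (H ⊗[k] H) →ₗ[k] H :=
  (TensorProduct.rid k H).toLinearMap ∘ₗ
    (LinearMap.mul' k k ∘ₗ TensorProduct.map p q).lTensor H

@[simp] lemma t3_tmul (p q : Dual k H) (a b c : H) :
    t3 p q (a ⊗ₜ[k] (b ⊗ₜ[k] c)) = (p b * q c) • a := by
  simp [t3]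

lemma t3_conv (p q : Dual k H) (Y : H ⊗[k] H) :
    idp (conv p q) Y = t3 p q (Coalgebra.comul.lTensor H Y) := by
  induction Y using TensorProduct.induction_on with
  | zero => simp
  | add X X' h h' => rw [map_add, map_add, map_add, h, h']
  | tmul a b => simp [t3, conv]

lemma lTensor_comul_mul (X Y : H ⊗[k] H) :
    Coalgebra.comul.lTensor H (X * Y) =
      (Coalgebra.comul (R := k)).lTensor H X * (Coalgebra.comul (R := k)).lTensor H Y := by
  induction X using TensorProduct.induction_on with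
  | zero => simp
  | add X X' h h' => rw [add_mul, map_add, map_add, h, h', add_mul]
  | tmul a b =>
    induction Y using TensorProduct.induction_on with
    | zero => simp
    | add X X' h h' => rw [mul_add, map_add, map_add, h, h', mul_add]
    | tmul c d => simp

lemma t3_key (p q : Dual k H) (V : H ⊗[k] H) (z z' : H) :
    idp p (Coalgebra.comul (R := k) (idp q (V * (1 ⊗ₜ[k] z'))) * (1 ⊗ₜ[k] z)) =
      t3 p q (TensorProduct.assoc k H H H (Coalgebra.comul.rTensor H V) *
        (1 ⊗ₜ[k] (z ⊗ₜ[k] z'))) := by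
  induction V using TensorProduct.induction_on with
  | zero => simp
  | add X X' h h' => simp only [add_mul, map_add, h, h']
  | tmul a b =>
    rw [Algebra.TensorProduct.tmul_mul_tmul, mul_one, idp_tmul, map_smul, smul_mul_assoc,
      map_smul, LinearMap.rTensor_tmul]
    generalize Coalgebra.comul (R := k) a = t
    induction t using TensorProduct.induction_on with
    | zero => simp
    | add X X' h h' => simp only [add_mul, map_add, smul_add, h, h', add_tmul]
    | tmul c d =>
      rw [Algebra.TensorProduct.tmul_mul_tmul, mul_one, idp_tmul, TensorProduct.assoc_tmul,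
        Algebra.TensorProduct.tmul_mul_tmul, mul_one, Algebra.TensorProduct.tmul_mul_tmul,
        t3_tmul, smul_smul, mul_comm]

/-- `z ⊗ Y ↦ ∑ (ψ(Y))₁ p((ψ(Y))₂ z)`, with `ψ(Y) = (id ⊗ q) κ(Y)` -/
noncomputable def lam3 (p q : Dual k H) (φ : H →ₗ[k] H) : H ⊗[k] (H ⊗[k] H) →ₗ[k] H :=
  TensorProduct.lift (LinearMap.mk₂ k
    (fun z Y => idp p (Coalgebra.comul (R := k) (idp q (kp φ Y)) * ((1 : H) ⊗ₜ[k] z)))
    (fun a b c => by rw [tmul_add, mul_add, map_add])
    (fun r a b => by rw [tmul_smul, mul_smul_comm, map_smul])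
    (fun a b c => by simp only [map_add, add_mul])
    (fun r a b => by simp only [map_smul, smul_mul_assoc]))

@[simp] lemma lam3_tmul (p q : Dual k H) (φ : H →ₗ[k] H) (z : H) (Y : H ⊗[k] H) :
    lam3 p q φ (z ⊗ₜ[k] Y) =
      idp p (Coalgebra.comul (R := k) (idp q (kp φ Y)) * ((1 : H) ⊗ₜ[k] z)) := by
  simp [lam3]

lemma Rop_mul (p q : Dual k H) : Rop (conv p q) = Rop p * Rop q := by
  ext φ z
  have h1 : ∀ Z : H ⊗[k] H, idp p (kp (Rop q φ) Z) =
      lam3 p q φ (Coalgebra.comul.lTensor H Z) := by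
    intro Z
    induction Z using TensorProduct.induction_on with
    | zero => simp
    | add X X' h h' => simp only [map_add, h, h']
    | tmul a b => simp [Rop_apply]
  have h2 : ∀ (X : H ⊗[k] H) (z : H), lam3 p q φ (TensorProduct.assoc k H H H (X ⊗ₜ[k] z)) =
      t3 p q ((Coalgebra.comul.lTensor H (Coalgebra.comul (R := k) (φ z))) * (1 ⊗ₜ[k] X)) := by
    intro X z
    induction X using TensorProduct.induction_on with
    | zero => simp
    | add X X' h h' => simp only [map_add, h, h', add_tmul, tmul_add, mul_add]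
    | tmul a b =>
      rw [TensorProduct.assoc_tmul, lam3_tmul, kp_tmul, t3_key, Coalgebra.coassoc_apply]
  have h3 : ∀ Z : H ⊗[k] H, idp (conv p q) (kp φ Z) =
      lam3 p q φ (TensorProduct.assoc k H H H (Coalgebra.comul.rTensor H Z)) := by
    intro Z
    induction Z using TensorProduct.induction_on with
    | zero => simp
    | add X X' h h' => simp only [map_add, h, h']
    | tmul a b =>
      rw [LinearMap.rTensor_tmul, h2, kp_tmul, t3_conv, lTensor_comul_mul, LinearMap.lTensor_tmul]
  rw [Rop_apply, h3, Coalgebra.coassoc_apply, ← h1]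
  rfl

lemma Lop_add (h h' : H) : Lop (k := k) (h + h') = Lop (k := k) h + Lop (k := k) h' := by
  ext φ z
  simp [Lop_apply]

lemma Lop_smul (r : k) (h : H) : Lop (k := k) (r • h) = r • Lop (k := k) h := by
  ext φ z
  simp [Lop_apply]

lemma idp_add (p q : Dual k H) (Y : H ⊗[k] H) : idp (p + q) Y = idp p Y + idp q Y := by
  simp [idp, LinearMap.lTensor_add]

lemma idp_smul (r : k) (q : Dual k H) (Y : H ⊗[k] H) : idp (r • q) Y = r • idp q Y := by
  simp [idp, LinearMap.lTensor_smul]

/-- The representation of the double on the linear endomorphisms of `H`. -/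
theorem rep_rels : DRels (k := k) (H := H) (Lop (k := k)) Rop where
  l_add := Lop_add
  l_smul := Lop_smul
  l_mul := Lop_mul
  l_one := Lop_one
  r_add p q := by
    ext φ z
    simp [Rop_apply, idp_add]
  r_smul r p := by
    ext φ z
    simp [Rop_apply, idp_smul]
  r_mul := Rop_mul
  r_one := Rop_one
  cross p h m a b hab := by
    ext φ z
    rw [Psi_left_eq h a b hab, Psi_right_eq h a b hab]

end Dbl

end

end Pool.Agent.H170_FG
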