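import Pool.Agent.H170_FG.Dbl2

/-!
# A lower bound for the dimension of the double
-/

set_option linter.unusedSectionVars false

universe u

open Finset TensorProduct Module

namespace Pool.Agent.H170_FG

section

variable {k : Type u} [Field k] {H : Type u} [Ring H] [Bialgebra k H]

namespace Dbl

/-- The representation on the endomorphisms. -/
noncomputable def rep : Dbl k H →ₐ[k] Module.End k (H →ₗ[k] H) := lift rep_rels

lemma rep_iH (h : H) : rep (iH k H h) = Lop (k := k) h := lift_iH _ _

lemma rep_iD (p : Dual k H) : rep (iD k H p) = Rop p := lift_iD _ _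

/-- rank one operators -/
noncomputable def rk (q : Dual k H) (h : H) : H →ₗ[k] H := q.smulRight h

lemma rk_apply (q : Dual k H) (h z : H) : rk q h z = q z • h := rfl

lemma Lop_rk (h : H) : Lop (k := k) h (rk Coalgebra.counit 1) = rk Coalgebra.counit h := by
  ext z
  have key : ∀ Z : H ⊗[k] H, lf (rk Coalgebra.counit 1) Z z =
      (Coalgebra.counit z : k) •
        TensorProduct.lid k H ((Coalgebra.counit (R := k) (A := H)).rTensor H Z) := by
    intro Z
    induction Z using TensorProduct.induction_on with
    | zero => simp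
    | add X X' h h' => rw [map_add, LinearMap.add_apply, h, h', map_add, map_add, smul_add]
    | tmul a b => simp [rk_apply, smul_smul]
  rw [Lop_apply, key, Coalgebra.rTensor_counit_comul, TensorProduct.lid_tmul, one_smul, rk_apply]

lemma Rop_rk (p : Dual k H) (h z : H) : Rop p (rk Coalgebra.counit h) z =
    idp p (Coalgebra.comul (R := k) h * (1 ⊗ₜ[k] z)) := by
  have key : ∀ Z : H ⊗[k] H, idp p (kp (rk Coalgebra.counit h) Z) =
      idp p (Coalgebra.comul (R := k) h *
        (1 ⊗ₜ[k] TensorProduct.rid k H ((Coalgebra.counit (R := k) (A := H)).lTensor H Z))) := by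
    intro Z
    induction Z using TensorProduct.induction_on with
    | zero => simp
    | add X X' h h' => simp only [map_add, h, h', tmul_add, mul_add]
    | tmul a b => simp [rk_apply]
  rw [Rop_apply, key, Coalgebra.lTensor_counit_comul, TensorProduct.rid_tmul, one_smul]

/-- evaluation of the representation at a vector -/
noncomputable def ev : Dbl k H →ₗ[k] (H →ₗ[k] H) :=
  LinearMap.applyₗ (rk Coalgebra.counit 1) ∘ₗ (rep (k := k) (H := H)).toLinearMap

lemma ev_apply (p : Dual k H) (h z : H) : ev (iD k H p * iH k H h) z =
    idp p (Coalgebra.comul (R := k) h * (1 ⊗ₜ[k] z)) := by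
  change rep (iD k H p * iH k H h) (rk Coalgebra.counit 1) z = _
  rw [map_mul, rep_iD, rep_iH, Module.End.mul_apply, Lop_rk, Rop_rk]

lemma exists_ev (z0 : H →ₗ[k] H) (hz0 : ∀ h : H, LinearMap.mul' k H (z0.rTensor H
    (TensorProduct.comm k H H (Coalgebra.comul h))) = algebraMap k H (Coalgebra.counit h))
    (q : Dual k H) (h : H) : ∃ d : Dbl k H, ev d = rk q h := by
  let M : H ⊗[k] H →ₗ[k] Dbl k H := TensorProduct.lift (LinearMap.mk₂ k
    (fun a b => iD k H (q ∘ₗ LinearMap.mulLeft k (z0 b)) * iH k H a)
    (fun a b c => by rw [map_add, mul_add])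
    (fun r a b => by rw [map_smul, mul_smul_comm])
    (fun a b c => by
      rw [← add_mul, ← map_add, ← LinearMap.comp_add]
      congr 4
      ext y
      simp [add_mul])
    (fun r a b => by
      rw [← smul_mul_assoc, ← map_smul, ← LinearMap.comp_smul]
      congr 4
      ext y
      simp))
  have hM : ∀ a b, M (a ⊗ₜ[k] b) = iD k H (q ∘ₗ LinearMap.mulLeft k (z0 b)) * iH k H a := by
    intro a b
    simp [M]
  refine ⟨M (Coalgebra.comul h), ?_⟩
  ext z
  let N : H ⊗[k] (H ⊗[k] H) →ₗ[k] H := (TensorProduct.rid k H).toLinearMap ∘ₗ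
    (q ∘ₗ LinearMap.mulRight k z ∘ₗ LinearMap.mul' k H ∘ₗ z0.rTensor H ∘ₗ
      (TensorProduct.comm k H H).toLinearMap).lTensor H
  have hN : ∀ a b c, N (a ⊗ₜ[k] (b ⊗ₜ[k] c)) = q (z0 c * b * z) • a := by
    intro a b c
    simp [N]
  have key : ∀ X : H ⊗[k] H, ev (M X) z = N (TensorProduct.assoc k H H H
      (Coalgebra.comul.rTensor H X)) := by
    intro X
    induction X using TensorProduct.induction_on with
    | zero => simp
    | add X X' h h' => simp only [map_add, LinearMap.add_apply, h, h']
    | tmul a b =>
      rw [hM, ev_apply, LinearMap.rTensor_tmul]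
      generalize Coalgebra.comul (R := k) a = t
      induction t using TensorProduct.induction_on with
      | zero => simp
      | add X X' h h' => simp only [add_mul, map_add, h, h', add_tmul]
      | tmul c d =>
        rw [Algebra.TensorProduct.tmul_mul_tmul, mul_one, idp_tmul, TensorProduct.assoc_tmul, hN]
        simp [mul_assoc]
  rw [key, Coalgebra.coassoc_apply]
  have key2 : ∀ X : H ⊗[k] H, N (Coalgebra.comul.lTensor H X) =
      q z • TensorProduct.rid k H ((Coalgebra.counit (R := k) (A := H)).lTensor H X) := by
    intro X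
    induction X using TensorProduct.induction_on with
    | zero => simp
    | add X X' h h' => simp only [map_add, smul_add, h, h']
    | tmul a b =>
      simp only [N, LinearMap.comp_apply, LinearMap.lTensor_tmul, LinearEquiv.coe_coe,
        TensorProduct.rid_tmul, hz0, LinearMap.mulRight_apply]
      rw [← Algebra.smul_def, map_smul, smul_eq_mul, mul_comm, smul_smul]
  rw [key2, Coalgebra.lTensor_counit_comul, TensorProduct.rid_tmul, one_smul, rk_apply]

/-- The dimension of the double is at least the square of the dimension of `H`. -/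
theorem le_finrank (z0 : H →ₗ[k] H) (hz0 : ∀ h : H, LinearMap.mul' k H (z0.rTensor H
    (TensorProduct.comm k H H (Coalgebra.comul h))) = algebraMap k H (Coalgebra.counit h))
    [FiniteDimensional k H] [FiniteDimensional k (Dbl k H)] :
    finrank k H ^ 2 ≤ finrank k (Dbl k H) := by
  have hs : Function.Surjective (ev (k := k) (H := H)) := by
    rw [← LinearMap.range_eq_top, eq_top_iff]
    intro f _
    let b := Module.finBasis k H
    have : f = ∑ i, rk (b.coord i) (f (b i)) := by
      ext z
      rw [LinearMap.sum_apply]
      simp only [rk_apply]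
      conv_lhs => rw [← b.sum_repr z, map_sum]
      simp
    rw [this]
    refine Submodule.sum_mem _ fun i _ => ?_
    obtain ⟨d, hd⟩ := exists_ev z0 hz0 (b.coord i) (f (b i))
    exact ⟨d, hd⟩
  have h1 := LinearMap.finrank_le_finrank_of_surjective hs
  rwa [Module.finrank_linearMap, ← sq] at h1

end Dbl

end

end Pool.Agent.H170_FG
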