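import Pool.Agent.H170_FG.ExtRing

/-!
# Finite generation of Ext from a projective resolution with chain operators
-/

universe w v u t

open CategoryTheory CategoryTheory.Abelian DirectSum

namespace Pool.Agent.H170_FG

variable {C : Type u} [Category.{v} C] [Abelian C]

/-- A projective resolution of `T`, cut into short exact sequences
`0 ⟶ W (n + 1) ⟶ R n ⟶ W n ⟶ 0`, with `T ≅ W 0`. -/
structure CutRes (T : C) where
  W : ℕ → C
  R : ℕ → C
  f : ∀ n, W (n + 1) ⟶ R n
  g : ∀ n, R n ⟶ W n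
  zero : ∀ n, f n ≫ g n = 0
  exact : ∀ n, (ShortComplex.mk (f n) (g n) (zero n)).ShortExact
  proj : ∀ n, Projective (R n)
  iso : T ≅ W 0

/-- An operator of degree `a` on a cut resolution. -/
structure CutRes.Op {T : C} (X : CutRes T) (a : ℕ) where
  w : ∀ m n, m = n + a → (X.W m ⟶ X.W n)
  r : ∀ m n, m = n + a → (X.R m ⟶ X.R n)
  commf : ∀ m n (h : m = n + a), X.f m ≫ r m n h = w (m + 1) (n + 1) (by omega) ≫ X.f n
  commg : ∀ m n (h : m = n + a), X.g m ≫ w m n h = r m n h ≫ X.g n

namespace CutRes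

variable {T : C} (X : CutRes T) [HasExt.{w} C]

/-- The iterated extension class in `Ext^n(T, W n)`. -/
noncomputable def c : ∀ n, Ext.{w} T (X.W n) n
  | 0 => Ext.mk₀ X.iso.hom
  | (n + 1) => (c n).comp (X.exact n).extClass rfl

lemma c_zero : X.c 0 = Ext.mk₀ X.iso.hom := rfl

lemma c_succ (n : ℕ) : X.c (n + 1) = (X.c n).comp (X.exact n).extClass rfl := rfl

lemma exists_factor {M : C} (a : ℕ) : ∀ (b n : ℕ) (h : a + b = n) (x : Ext.{w} T M n),
    ∃ y : Ext.{w} (X.W a) M b, x = (X.c a).comp y h := by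
  induction a with
  | zero =>
    intro b n h x
    obtain rfl : b = n := by omega
    refine ⟨(Ext.mk₀ X.iso.inv).comp x (zero_add b), ?_⟩
    rw [c_zero, Ext.mk₀_comp_mk₀_assoc]
    simp
  | succ a ih =>
    intro b n h x
    obtain ⟨y, hy⟩ := ih (b + 1) n (by omega) x
    have := X.proj a
    obtain ⟨y', hy'⟩ := Ext.contravariant_sequence_exact₃ (X.exact a) M y
      (Ext.eq_zero_of_projective (P := X.R a) _) (by omega : 1 + b = b + 1)
    refine ⟨y', ?_⟩
    rw [c_succ, Ext.comp_assoc (a₂₃ := b + 1) _ _ _ (by omega) (by omega) (by omega), hy', hy]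

/-- The class in `Ext^n(T, M)` of a map `W n ⟶ M`. -/
noncomputable def phi {M : C} (n : ℕ) (g : X.W n ⟶ M) : Ext.{w} T M n :=
  (X.c n).comp (Ext.mk₀ g) (add_zero n)

lemma phi_surjective {M : C} (n : ℕ) (x : Ext.{w} T M n) : ∃ g, X.phi n g = x := by
  obtain ⟨y, hy⟩ := X.exists_factor n 0 n (add_zero n) x
  obtain ⟨g, rfl⟩ := (Ext.mk₀_bijective _ _).2 y
  exact ⟨g, hy.symm⟩

lemma phi_add {M : C} (n : ℕ) (g g' : X.W n ⟶ M) :
    X.phi n (g + g') = (X.phi n g + X.phi n g' : Ext.{w} T M n) := by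
  simp [phi, Ext.mk₀_add]

lemma phi_zero {M : C} (n : ℕ) : X.phi n (0 : X.W n ⟶ M) = (0 : Ext.{w} T M n) := by
  simp [phi]

lemma phi_smul {k : Type t} [Field k] [Linear k C] {M : C} (n : ℕ) (r : k) (g : X.W n ⟶ M) :
    X.phi n (r • g) = (r • X.phi n g : Ext.{w} T M n) := by
  simp [phi, Ext.mk₀_smul]

/-- The class in `Ext^a(T, T)` of an operator of degree `a`. -/
noncomputable def Op.cls {X : CutRes T} {a : ℕ} (L : X.Op a) : Ext.{w} T T a :=
  X.phi a (L.w a 0 (by omega) ≫ X.iso.inv)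

lemma Op.naturality {X : CutRes T} {a : ℕ} (L : X.Op a) (m n : ℕ) (h : m = n + a) :
    (X.exact m).extClass.comp (Ext.mk₀ (L.w (m + 1) (n + 1) (by omega))) (add_zero 1) =
      (Ext.mk₀ (L.w m n h)).comp (X.exact n).extClass (zero_add 1) :=
  ShortComplex.ShortExact.extClass_naturality (X.exact m) (X.exact n)
    { τ₁ := L.w (m + 1) (n + 1) (by omega)
      τ₂ := L.r m n h
      τ₃ := L.w m n h
      comm₁₂ := (L.commf m n h).symm
      comm₂₃ := (L.commg m n h).symm }

lemma Op.cls_comp {X : CutRes T} {a : ℕ} (L : X.Op a) (n : ℕ) : ∀ (m : ℕ) (h : m = n + a),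
    (X.c m).comp (Ext.mk₀ (L.w m n h)) (add_zero m) =
      (L.cls : Ext.{w} T T a).comp (X.c n) (by omega) := by
  induction n with
  | zero =>
    intro m h
    obtain rfl : m = a := by omega
    simp [c_zero, Op.cls, phi]
  | succ n ih =>
    intro m h
    obtain ⟨m, rfl⟩ : ∃ m', m = m' + 1 := ⟨m - 1, by omega⟩
    rw [c_succ, c_succ, Ext.comp_assoc_of_third_deg_zero, L.naturality m n (by omega),
      ← Ext.comp_assoc (a₁₂ := m) _ _ _ (by omega) (by omega) (by omega), ih m (by omega),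
      Ext.comp_assoc (a₁₂ := m) (a₂₃ := n + 1) _ _ _ (by omega) (by omega) (by omega)]

lemma Op.cls_comp_phi {X : CutRes T} {a : ℕ} (L : X.Op a) {M : C} (m n : ℕ) (h : m = n + a)
    (g : X.W n ⟶ M) :
    X.phi m (L.w m n h ≫ g) = (L.cls : Ext.{w} T T a).comp (X.phi n g) (by omega) := by
  rw [phi, ← Ext.mk₀_comp_mk₀, ← Ext.comp_assoc (a₁₂ := m) _ _ _ (by omega) (by omega) (by omega),
    L.cls_comp n m h, phi, Ext.comp_assoc (a₂₃ := n) _ _ _ (by omega) (by omega) (by omega)]

/-- A family of sets of maps `W n ⟶ M` which is closed under linear combinations and under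
precomposition with the given operators. -/
structure Closed (k : Type t) [Field k] [Linear k C] {X : CutRes T} {J : Type*} {a : J → ℕ}
    (L : ∀ j, X.Op (a j)) {M : C} (Q : ∀ n, (X.W n ⟶ M) → Prop) : Prop where
  zero : ∀ n, Q n 0
  add : ∀ n g g', Q n g → Q n g' → Q n (g + g')
  smul : ∀ n (r : k) g, Q n g → Q n (r • g)
  op : ∀ j m n (h : m = n + a j) g, Q n g → Q m ((L j).w m n h ≫ g)

lemma smul_of_eq {k : Type t} [Field k] [Linear k C] {M : C} (n : ℕ) (r : k)
    (x : Ext.{w} T M n) :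
    (DirectSum.of (HomExt.{w} T M) n (r • x)) =
      (DirectSum.of (EndExt.{w} T) 0 (r • Ext.mk₀ (𝟙 T))) • DirectSum.of (HomExt.{w} T M) n x := by
  rw [DirectSum.Gmodule.of_smul_of]
  refine DFinsupp.single_eq_of_sigma_eq ?_
  refine sigma_ext' T M _ _ (by simp) ?_
  change (r • x).comp (Ext.mk₀ (𝟙 M)) _ = (r • Ext.mk₀ (𝟙 T)).comp x _
  obtain ⟨j, hj⟩ : ∃ j, j = 0 + n := ⟨_, rfl⟩
  simp only [Ext.smul_comp]
  congr 1
  have key : ∀ (j : ℕ) (h1 : n + 0 = j) (h2 : 0 + n = j),
      x.comp (Ext.mk₀ (𝟙 M)) h1 = (Ext.mk₀ (𝟙 T)).comp x h2 := by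
    intro j h1 h2
    obtain rfl : n = j := by omega
    simp
  exact key _ _ _

theorem module_finite (k : Type t) [Field k] [Linear k C] {J : Type*} {a : J → ℕ}
    (L : ∀ j, X.Op (a j)) (M : C) (S : Finset (Σ n, X.W n ⟶ M))
    (hS : ∀ Q : ∀ n, (X.W n ⟶ M) → Prop, Closed k L Q → (∀ s ∈ S, Q s.1 s.2) → ∀ n g, Q n g) :
    Module.Finite (⨁ n, EndExt.{w} T n) (⨁ n, HomExt.{w} T M n) := by
  classical
  refine ⟨⟨S.image (fun s => DirectSum.of (HomExt.{w} T M) s.1 (X.phi s.1 s.2)), ?_⟩⟩
  set N := Submodule.span (⨁ n, EndExt.{w} T n)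
    (S.image (fun s => DirectSum.of (HomExt.{w} T M) s.1 (X.phi s.1 s.2)) :
      Set (⨁ n, HomExt.{w} T M n)) with hN
  rw [eq_top_iff]
  rintro x -
  have key := hS (fun n g => DirectSum.of (HomExt.{w} T M) n (X.phi n g) ∈ N)
    { zero := fun n => by
        rw [phi_zero, map_zero]
        exact N.zero_mem
      add := fun n g g' hg hg' => by
        rw [phi_add, map_add]
        exact N.add_mem hg hg'
      smul := fun n r g hg => by
        rw [phi_smul, smul_of_eq]
        exact N.smul_mem _ hg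
      op := fun j m n h g hg => by
        rw [Op.cls_comp_phi]
        obtain rfl : m = a j + n := by omega
        have := N.smul_mem (DirectSum.of (EndExt.{w} T) (a j) (L j).cls) hg
        rw [DirectSum.Gmodule.of_smul_of] at this
        exact this }
    (fun s hs => Submodule.subset_span (by
      simp only [Finset.coe_image, Set.mem_image, Finset.mem_coe]
      exact ⟨s, hs, rfl⟩))
  induction x using DirectSum.induction_on with
  | zero => exact N.zero_mem
  | of n x =>
    obtain ⟨g, rfl⟩ := X.phi_surjective n x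
    exact key n g
  | add x y hx hy => exact N.add_mem hx hy

theorem algebra_finiteType (k : Type t) [Field k] [Linear k C] {J : Type*} [Finite J]
    {a : J → ℕ} (L : ∀ j, X.Op (a j)) (S : Finset (Σ n, X.W n ⟶ T))
    (hS : ∀ Q : ∀ n, (X.W n ⟶ T) → Prop, Closed k L Q → (∀ s ∈ S, Q s.1 s.2) → ∀ n g, Q n g) :
    Algebra.FiniteType k (⨁ n, EndExt.{w} T n) := by
  classical
  have := Fintype.ofFinite J
  refine ⟨⟨S.image (fun s => DirectSum.of (EndExt.{w} T) s.1 (X.phi s.1 s.2)) ∪
    Finset.univ.image (fun j => DirectSum.of (EndExt.{w} T) (a j) (L j).cls), ?_⟩⟩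
  set N := Algebra.adjoin k
    ((S.image (fun s => DirectSum.of (EndExt.{w} T) s.1 (X.phi s.1 s.2)) ∪
    Finset.univ.image (fun j => DirectSum.of (EndExt.{w} T) (a j) (L j).cls) : Finset _) :
      Set (⨁ n, EndExt.{w} T n)) with hN
  rw [eq_top_iff]
  rintro x -
  have key := hS (fun n g => DirectSum.of (EndExt.{w} T) n (X.phi n g) ∈ N)
    { zero := fun n => by
        rw [phi_zero, map_zero]
        exact N.zero_mem
      add := fun n g g' hg hg' => by
        rw [phi_add, map_add]
        exact N.add_mem hg hg'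
      smul := fun n r g hg => by
        rw [phi_smul, DirectSum.of_smul]
        exact N.smul_mem hg _
      op := fun j m n h g hg => by
        rw [Op.cls_comp_phi]
        obtain rfl : m = a j + n := by omega
        have hj : DirectSum.of (EndExt.{w} T) (a j) (L j).cls ∈ N :=
          Algebra.subset_adjoin (by simp)
        have := N.mul_mem hj hg
        rw [DirectSum.of_mul_of] at this
        exact this }
    (fun s hs => Algebra.subset_adjoin (by
      simp only [Finset.coe_union, Finset.coe_image, Set.mem_union, Set.mem_image, Finset.mem_coe]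
      exact Or.inl ⟨s, hs, rfl⟩))
  change x ∈ N
  induction x using DirectSum.induction_on with
  | zero => exact N.zero_mem
  | of n x =>
    obtain ⟨g, rfl⟩ := X.phi_surjective n x
    exact key n g
  | add x y hx hy => exact N.add_mem hx hy

end CutRes

end Pool.Agent.H170_FG
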