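import Pool.Agent.H170_FG.Noeth
import Pool.Agent.H170_FG.Concrete

/-!
# Finite generation for a retract
-/

set_option linter.unusedSectionVars false

universe w v u t

open CategoryTheory CategoryTheory.Abelian DirectSum

namespace Pool.Agent.H170_FG

section

variable {C : Type u} [Category.{v} C] [Abelian C]

namespace CutRes

variable {T : C} (X : CutRes T) [HasExt.{w} C]

theorem module_finite_corner (k : Type t) [Field k] [Linear k C] {J : Type*} {a : J → ℕ}
    (L : ∀ j, X.Op (a j)) {T' : C} (i : T' ⟶ T) (p : T ⟶ T') (hip : i ≫ p = 𝟙 T') (M : C)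
    (S : Finset (Σ n, X.W n ⟶ M))
    (hSA : ∀ s ∈ S, ∃ x : Ext.{w} T' M s.1, X.phi s.1 s.2 = (Ext.mk₀ p).comp x (zero_add _))
    (hS : ∀ Q : ∀ n, (X.W n ⟶ M) → Prop, Closed k L Q → (∀ s ∈ S, Q s.1 s.2) → ∀ n g,
      (∃ x : Ext.{w} T' M n, X.phi n g = (Ext.mk₀ p).comp x (zero_add _)) → Q n g) :
    Module.Finite (⨁ n, EndExt.{w} T' n) (⨁ n, HomExt.{w} T' M n) := by
  classical
  choose x hx using hSA
  refine ⟨⟨S.attach.image (fun s => DirectSum.of (HomExt.{w} T' M) s.1.1 (x s.1 s.2)), ?_⟩⟩
  set N := Submodule.span (⨁ n, EndExt.{w} T' n)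
    (S.attach.image (fun s => DirectSum.of (HomExt.{w} T' M) s.1.1 (x s.1 s.2)) :
      Set (⨁ n, HomExt.{w} T' M n)) with hN
  rw [eq_top_iff]
  rintro y -
  have key := hS (fun m g => ∀ (j d : ℕ) (h : j + m = d) (l : Ext.{w} T' T j),
      DirectSum.of (HomExt.{w} T' M) d (l.comp (X.phi m g) h) ∈ N)
    { zero := fun n j d h l => by
        rw [phi_zero, Ext.comp_zero, map_zero]
        exact N.zero_mem
      add := fun n g g' hg hg' j d h l => by
        rw [phi_add, Ext.comp_add, map_add]
        exact N.add_mem (hg j d h l) (hg' j d h l)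
      smul := fun n r g hg j d h l => by
        rw [phi_smul, Ext.comp_smul, smul_of_eq]
        exact N.smul_mem _ (hg j d h l)
      op := fun j' m n h g hg j d h' l => by
        rw [Op.cls_comp_phi (L := L j') m n h g,
          ← Ext.comp_assoc (a₁₂ := j + a j') _ _ _ rfl (by omega) (by omega)]
        exact hg _ _ _ _ }
    (fun s hs j d h l => by
      subst h
      rw [hx s hs, ← Ext.comp_assoc (a₁₂ := j) _ _ _ (by omega) (by omega) (by omega)]
      have h1 : DirectSum.of (HomExt.{w} T' M) s.1 (x s hs) ∈ N := by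
        refine Submodule.subset_span ?_
        simp only [Finset.coe_image, Set.mem_image]
        exact ⟨⟨s, hs⟩, by simp, rfl⟩
      have := N.smul_mem (DirectSum.of (EndExt.{w} T') j (l.comp (Ext.mk₀ p) (add_zero j))) h1
      rw [DirectSum.Gmodule.of_smul_of] at this
      exact this)
  induction y using DirectSum.induction_on with
  | zero => exact N.zero_mem
  | of n y =>
    obtain ⟨g, hg⟩ := X.phi_surjective n ((Ext.mk₀ p).comp y (zero_add n))
    have := key n g ⟨y, hg⟩ 0 n (zero_add n) (Ext.mk₀ i)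
    rw [hg, Ext.mk₀_comp_mk₀_assoc, hip, Ext.mk₀_id_comp] at this
    exact this
  | add x y hx hy => exact N.add_mem hx hy

theorem algebra_finiteType_corner (k : Type t) [Field k] [Linear k C] {J : Type*}
    {a : J → ℕ} (L : ∀ j, X.Op (a j)) {T' : C} (i : T' ⟶ T) (p : T ⟶ T') (hip : i ≫ p = 𝟙 T')
    (h0 : ∀ f : T' ⟶ T', ∃ r : k, f = r • 𝟙 T')
    (S : Finset (Σ n, X.W n ⟶ T'))
    (hSA : ∀ s ∈ S, (s.1 = 0 → s.2 = 0) ∧
      ∃ x : Ext.{w} T' T' s.1, X.phi s.1 s.2 = (Ext.mk₀ p).comp x (zero_add _))
    (hS : ∀ Q : ∀ n, (X.W n ⟶ T') → Prop, Closed k L Q → (∀ s ∈ S, Q s.1 s.2) → ∀ n g,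
      ((n = 0 → g = 0) ∧ ∃ x : Ext.{w} T' T' n, X.phi n g = (Ext.mk₀ p).comp x (zero_add _)) →
        Q n g) :
    Algebra.FiniteType k (⨁ n, EndExt.{w} T' n) := by
  classical
  choose hs0 x hx using hSA
  refine ⟨⟨S.attach.image (fun s => DirectSum.of (EndExt.{w} T') s.1.1 (x s.1 s.2)), ?_⟩⟩
  set N := Algebra.adjoin k
    (S.attach.image (fun s => DirectSum.of (EndExt.{w} T') s.1.1 (x s.1 s.2)) :
      Set (⨁ n, EndExt.{w} T' n)) with hN
  rw [eq_top_iff]
  rintro y -
  have main : ∀ n (y : Ext.{w} T' T' n), DirectSum.of (EndExt.{w} T') n y ∈ N := by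
    intro n
    induction n using Nat.strong_induction_on with
    | _ n ih =>
    intro y
    by_cases hn : n = 0
    · subst hn
      obtain ⟨f, rfl⟩ := (Ext.mk₀_bijective _ _).2 y
      obtain ⟨r, rfl⟩ := h0 f
      rw [Ext.mk₀_smul]
      exact N.algebraMap_mem r
    have key := hS (fun m g => ∀ (j : ℕ) (h : j + m = n) (l : Ext.{w} T' T j),
        DirectSum.of (EndExt.{w} T') n (l.comp (X.phi m g) h) ∈ N)
      { zero := fun n j h l => by
          rw [phi_zero, Ext.comp_zero, map_zero]
          exact N.zero_mem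
        add := fun n g g' hg hg' j h l => by
          rw [phi_add, Ext.comp_add, map_add]
          exact N.add_mem (hg j h l) (hg' j h l)
        smul := fun n r g hg j h l => by
          rw [phi_smul, Ext.comp_smul, DirectSum.of_smul]
          exact N.smul_mem (hg j h l) _
        op := fun j' m n h g hg j h' l => by
          rw [Op.cls_comp_phi (L := L j') m n h g,
            ← Ext.comp_assoc (a₁₂ := j + a j') _ _ _ rfl (by omega) (by omega)]
          exact hg _ _ _ }
      (fun s hs j h l => by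
        by_cases hs1 : s.1 = 0
        · rw [hs0 s hs hs1, phi_zero, Ext.comp_zero, map_zero]
          exact N.zero_mem
        subst h
        rw [hx s hs, ← Ext.comp_assoc (a₁₂ := j) _ _ _ (by omega) (by omega) (by omega)]
        have h1 : DirectSum.of (EndExt.{w} T') s.1 (x s hs) ∈ N := by
          refine Algebra.subset_adjoin ?_
          simp only [Finset.coe_image, Set.mem_image]
          exact ⟨⟨s, hs⟩, by simp, rfl⟩
        have h2 : DirectSum.of (EndExt.{w} T') j (l.comp (Ext.mk₀ p) (add_zero j)) ∈ N :=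
          ih j (by omega) _
        have := N.mul_mem h2 h1
        rw [DirectSum.of_mul_of] at this
        exact this)
    obtain ⟨g, hg⟩ := X.phi_surjective n ((Ext.mk₀ p).comp y (zero_add n))
    have := key n g ⟨fun h => absurd h hn, y, hg⟩ 0 (zero_add n) (Ext.mk₀ i)
    rw [hg, Ext.mk₀_comp_mk₀_assoc, hip, Ext.mk₀_id_comp] at this
    exact this
  change y ∈ N
  induction y using DirectSum.induction_on with
  | zero => exact N.zero_mem
  | of n y => exact main n y
  | add x y hx hy => exact N.add_mem hx hy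

end CutRes

end

namespace TotRes

namespace Fam

variable {B : Type u} [Ring B] {T : ModuleCat.{u} B}
    {P : Type u} [AddCommGroup P] [Module B P] {X : TotRes B T P}
    {k : Type u} [Field k] [Algebra k B] {J : Type} {lam : J → P →ₗ[B] P} {a : J → ℕ}
    {ha : ∀ j m n, m = n + a j → ∀ x ∈ X.R m, lam j x ∈ X.R n} {M : ModuleCat.{u} B}
    {F : Type u} [AddCommGroup F] [Module (MvPolynomial J k) F] (Φ : Fam X k lam ha M F)

include Φ in
/-- A noetherian version of finite generation. -/
theorem exists_finset' [Finite J] [Module.Finite (MvPolynomial J k) F]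
    (hd : ∀ j x, lam j (X.d x) = X.d (lam j x)) (A : ∀ n, (X.cut.W n ⟶ M) → Prop)
    (hA0 : ∀ n, A n 0) :
    ∃ S : Finset (Σ n, X.cut.W n ⟶ M), (∀ s ∈ S, A s.1 s.2) ∧
      ∀ Q : ∀ n, (X.cut.W n ⟶ M) → Prop,
      CutRes.Closed k (fun j => X.op (lam j) (hd j) (ha j)) Q → (∀ s ∈ S, Q s.1 s.2) →
        ∀ n g, A n g → Q n g := by
  classical
  have hN : IsNoetherian (MvPolynomial J k) F := inferInstance
  obtain ⟨A', hA'sub, hA'⟩ := (Submodule.fg_span_iff_fg_span_finset_subset
    {q : F | ∃ h : Φ.IsCo q, ∀ n, A n (Φ.gb n q h)}).mp (hN.noetherian _)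
  choose N hNb using Φ.bound
  have hAco : ∀ q ∈ A', Φ.IsCo q := fun q hq => (hA'sub hq).1
  have hspan : ∀ q ∈ Submodule.span (MvPolynomial J k) (A' : Set F), Φ.IsCo q := by
    intro q hq
    have h1 : Submodule.span (MvPolynomial J k) (A' : Set F) ≤ Φ.co hd :=
      Submodule.span_le.mpr fun q hq => hAco q hq
    exact h1 hq
  refine ⟨A'.attach.biUnion (fun q => (Finset.range (N q.1)).image
    (fun n => ⟨n, Φ.gb n q.1 (hAco q.1 q.2)⟩)), ?_, ?_⟩
  · intro s hs
    simp only [Finset.mem_biUnion, Finset.mem_attach, true_and, Subtype.exists,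
      Finset.mem_image, Finset.mem_range] at hs
    obtain ⟨q, hq, n, hn, rfl⟩ := hs
    exact (hA'sub hq).2 n
  intro Q hQ hS
  have hgb0 : ∀ n q (hq : Φ.IsCo q), Φ.psi n q = 0 → Q n (Φ.gb n q hq) := by
    intro n q hq h
    have : Φ.gb n q hq = 0 := by
      apply hom_ext'
      intro x
      rw [gb_mk, h]
      rfl
    rw [this]
    exact hQ.zero n
  have hsm : ∀ p : MvPolynomial J k, ∀ q, Φ.IsCo q → (∀ h n, Q n (Φ.gb n q h)) →
      ∀ h n, Q n (Φ.gb n (p • q) h) := by
    intro p
    induction p using MvPolynomial.induction_on with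
    | C r =>
      intro q hq hQq h n
      have : Φ.gb n ((MvPolynomial.C r : MvPolynomial J k) • q) h = r • Φ.gb n q hq := by
        apply hom_ext'
        intro x
        rw [gb_mk, Φ.psi_C]
        rfl
      rw [this]
      exact hQ.smul n r _ (hQq hq n)
    | add p p' hp hp' =>
      intro q hq hQq h n
      have h1 := Φ.isCo_smul hd p q hq
      have h2 := Φ.isCo_smul hd p' q hq
      have : Φ.gb n ((p + p') • q) h = Φ.gb n (p • q) h1 + Φ.gb n (p' • q) h2 := by
        apply hom_ext'
        intro x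
        rw [gb_mk, add_smul, map_add]
        rfl
      rw [this]
      exact hQ.add n _ _ (hp q hq hQq h1 n) (hp' q hq hQq h2 n)
    | mul_X p j hp =>
      intro q hq hQq h n
      have h1 := Φ.isCo_X hd j q hq
      have h2 := Φ.isCo_smul hd p _ h1
      have h3 : Φ.gb n ((p * MvPolynomial.X j) • q) h = Φ.gb n (p • (MvPolynomial.X j :
          MvPolynomial J k) • q) h2 := by
        apply hom_ext'
        intro x
        rw [gb_mk, gb_mk, mul_smul]
      rw [h3]
      refine hp _ h1 ?_ h2 n
      intro h4 m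
      by_cases hm : m < a j
      · exact hgb0 m _ h4 (Φ.psi_X_lt j m hm q)
      · obtain ⟨n', rfl⟩ : ∃ n', m = n' + a j := ⟨m - a j, by omega⟩
        have h5 : Φ.gb (n' + a j) ((MvPolynomial.X j : MvPolynomial J k) • q) h4 =
            (X.op (lam j) (hd j) (ha j)).w (n' + a j) n' rfl ≫ Φ.gb n' q hq := by
          apply hom_ext'
          intro x
          rw [gb_mk, Φ.psi_X j _ n' rfl]
          rfl
        rw [h5]
        exact hQ.op j _ n' rfl _ (hQq hq n')
  have key : ∀ q, q ∈ Submodule.span (MvPolynomial J k) (A' : Set F) → ∀ h n,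
      Q n (Φ.gb n q h) := by
    intro q hq
    induction hq using Submodule.span_induction with
    | mem q hq =>
      intro h n
      by_cases hn : N q ≤ n
      · exact hgb0 n q h (hNb q n hn)
      · refine hS ⟨n, Φ.gb n q h⟩ ?_
        simp only [Finset.mem_biUnion, Finset.mem_attach, true_and, Subtype.exists,
          Finset.mem_image, Finset.mem_range]
        exact ⟨q, hq, n, by omega, rfl⟩
    | zero =>
      intro h n
      exact hgb0 n 0 h (map_zero _)
    | add q q' hq hq' ih ih' =>
      intro h n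
      have h1 : Φ.IsCo q := hspan q hq
      have h2 : Φ.IsCo q' := hspan q' hq'
      have : Φ.gb n (q + q') h = Φ.gb n q h1 + Φ.gb n q' h2 := by
        apply hom_ext'
        intro x
        rw [gb_mk, map_add]
        rfl
      rw [this]
      exact hQ.add n _ _ (ih h1 n) (ih' h2 n)
    | smul p q hq ih =>
      have h1 : Φ.IsCo q := hspan q hq
      exact hsm p q h1 ih
  intro n g hAg
  obtain ⟨q, hq, hq'⟩ := Φ.surj n (g.hom.comp (X.gW n))
  have hco : Φ.IsCo q := by
    intro m x
    by_cases hm : m = n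
    · subst hm
      rw [hq]
      change g.hom (X.gW m (X.dR m x)) = 0
      have : X.gW m (X.dR m x) = 0 := (Submodule.Quotient.mk_eq_zero _).mpr ⟨x, rfl⟩
      rw [this]
      exact map_zero _
    · rw [hq' m hm]
      rfl
  have hg : g = Φ.gb n q hco := by
    apply hom_ext'
    intro x
    rw [gb_mk, hq]
    rfl
  have hqA : q ∈ Submodule.span (MvPolynomial J k) (A' : Set F) := by
    rw [← hA']
    refine Submodule.subset_span ⟨hco, fun m => ?_⟩
    by_cases hm : m = n
    · subst hm
      rw [← hg]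
      exact hAg
    · have : Φ.gb m q hco = 0 := by
        apply hom_ext'
        intro x
        rw [gb_mk, hq' m hm]
        rfl
      rw [this]
      exact hA0 m
  rw [hg]
  exact key q hqA hco n

end Fam

end TotRes

end Pool.Agent.H170_FG
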