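import Mathlib

/-!
# The graded Yoneda ring and its graded modules

For an object `T` of an abelian category with Ext groups, `⨁ n, Ext T T n` is a ring (product:
composition of Ext classes, first the left factor, then the right one), and
`⨁ n, Ext T M n` is a left module over it.
-/

universe w v u t

open CategoryTheory CategoryTheory.Abelian DirectSum

namespace Pool.Agent.H170_FG

section General

variable {C : Type u} [Category.{v} C] [Abelian C] [HasExt.{w} C]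

/-- The homogeneous pieces of the Yoneda ring of `T`. -/
abbrev EndExt (T : C) (n : ℕ) : Type w := Ext.{w} T T n

/-- The homogeneous pieces of the Yoneda module `Ext^•(T, M)`. -/
abbrev HomExt (T M : C) (n : ℕ) : Type w := Ext.{w} T M n

lemma sigma_comp_zero (T M : C) {n m : ℕ} (x : Ext.{w} T M n) (h : n = m) :
    (⟨n, x⟩ : Σ i : ℕ, Ext.{w} T M i) = ⟨m, x.comp (Ext.mk₀ (𝟙 M)) (by omega)⟩ := by
  subst h
  simp

lemma sigma_ext' (T M : C) {n m : ℕ} (x : Ext.{w} T M n) (y : Ext.{w} T M m) (h : n = m)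
    (hxy : x.comp (Ext.mk₀ (𝟙 M)) (by omega) = y) :
    (⟨n, x⟩ : Σ i : ℕ, Ext.{w} T M i) = ⟨m, y⟩ := by
  subst h
  simpa using hxy

lemma comp_id_eq_id_comp {T : C} {i j : ℕ} (x : Ext.{w} T T i) (h1 : i + 0 = j)
    (h2 : 0 + i = j) : x.comp (Ext.mk₀ (𝟙 T)) h1 = (Ext.mk₀ (𝟙 T)).comp x h2 := by
  obtain rfl : i = j := by omega
  simp

noncomputable instance extGOne (T : C) : GradedMonoid.GOne (EndExt.{w} T) where
  one := Ext.mk₀ (𝟙 T)

noncomputable instance extGMul (T : C) : GradedMonoid.GMul (EndExt.{w} T) where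
  mul a b := Ext.comp a b rfl

noncomputable instance extGMonoid (T : C) : GradedMonoid.GMonoid (EndExt.{w} T) where
  one_mul := by
    rintro ⟨i, a⟩
    refine sigma_ext' T T _ _ (Nat.zero_add i) ?_
    change ((Ext.mk₀ (𝟙 T)).comp a rfl).comp (Ext.mk₀ (𝟙 T)) _ = a
    rw [Ext.comp_assoc (a₂₃ := i) _ _ _ _ (by omega) (by omega)]
    simp
  mul_one := by
    rintro ⟨i, a⟩
    refine sigma_ext' T T _ _ (Nat.add_zero i) ?_
    change ((a).comp (Ext.mk₀ (𝟙 T)) rfl).comp (Ext.mk₀ (𝟙 T)) _ = a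
    simp
  mul_assoc := by
    rintro ⟨i, a⟩ ⟨j, b⟩ ⟨l, c⟩
    refine sigma_ext' T T _ _ (Nat.add_assoc i j l) ?_
    change ((a.comp b rfl).comp c rfl).comp (Ext.mk₀ (𝟙 T)) _ = a.comp (b.comp c rfl) rfl
    rw [Ext.comp_assoc (a₂₃ := l) _ _ _ _ (by omega) (by omega)]
    rw [Ext.comp_assoc (a₂₃ := j + l) _ _ _ _ (by omega) (by omega)]
    simp

noncomputable instance extGRing (T : C) : DirectSum.GRing (EndExt.{w} T) where
  mul_zero a := Ext.comp_zero _ _ _ _ _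
  zero_mul b := Ext.zero_comp _ _ _ _ _
  mul_add a b c := Ext.comp_add _ _ _ _
  add_mul a b c := Ext.add_comp _ _ _ _
  natCast n := n • Ext.mk₀ (𝟙 T)
  natCast_zero := by simp
  natCast_succ n := by
    change (n + 1) • Ext.mk₀ (𝟙 T) = n • Ext.mk₀ (𝟙 T) + Ext.mk₀ (𝟙 T)
    rw [add_smul, one_smul]
  intCast n := n • Ext.mk₀ (𝟙 T)
  intCast_ofNat n := by
    change ((n : ℤ)) • Ext.mk₀ (𝟙 T) = n • Ext.mk₀ (𝟙 T)
    simp
  intCast_negSucc_ofNat n := by
    change (Int.negSucc n) • Ext.mk₀ (𝟙 T) = - ((n + 1) • Ext.mk₀ (𝟙 T))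
    simp [negSucc_zsmul]

lemma endExt_mul {T : C} {i j : ℕ} (a : EndExt.{w} T i) (b : EndExt.{w} T j) :
    GradedMonoid.GMul.mul a b = Ext.comp a b rfl := rfl

noncomputable instance extGmodule (T M : C) :
    DirectSum.Gmodule (EndExt.{w} T) (HomExt.{w} T M) where
  smul {i j} a b := Ext.comp a b rfl
  one_smul := by
    rintro ⟨i, a⟩
    refine sigma_ext' T M _ _ (Nat.zero_add i) ?_
    change ((Ext.mk₀ (𝟙 T)).comp a rfl).comp (Ext.mk₀ (𝟙 M)) _ = a
    rw [Ext.comp_assoc (a₂₃ := i) _ _ _ _ (by omega) (by omega)]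
    simp
  mul_smul := by
    rintro ⟨i, a⟩ ⟨j, b⟩ ⟨l, c⟩
    refine sigma_ext' T M _ _ (Nat.add_assoc i j l) ?_
    change ((a.comp b rfl).comp c rfl).comp (Ext.mk₀ (𝟙 M)) _ = a.comp (b.comp c rfl) rfl
    rw [Ext.comp_assoc (a₂₃ := l) _ _ _ _ (by omega) (by omega)]
    rw [Ext.comp_assoc (a₂₃ := j + l) _ _ _ _ (by omega) (by omega)]
    simp
  smul_add a b c := Ext.comp_add _ _ _ _
  smul_zero a := Ext.comp_zero _ _ _ _ _
  add_smul a b c := Ext.add_comp _ _ _ _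
  zero_smul b := Ext.zero_comp _ _ _ _ _

lemma homExt_smul {T M : C} {i j : ℕ} (a : EndExt.{w} T i) (b : HomExt.{w} T M j) :
    (GradedMonoid.GSMul.smul a b : HomExt.{w} T M (i +ᵥ j)) = Ext.comp a b rfl := rfl

end General

section Linear

variable {k : Type t} [Field k] {C : Type u} [Category.{v} C] [Abelian C] [Linear k C]
  [HasExt.{w} C]

noncomputable instance extGAlgebra (T : C) : DirectSum.GAlgebra k (EndExt.{w} T) where
  toFun :=
    { toFun := fun r => r • Ext.mk₀ (𝟙 T)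
      map_zero' := by simp
      map_add' := fun a b => by rw [add_smul] }
  map_one := by
    change (1 : k) • Ext.mk₀ (𝟙 T) = Ext.mk₀ (𝟙 T)
    simp
  map_mul r s := by
    refine sigma_ext' T T _ _ rfl ?_
    change ((r * s) • Ext.mk₀ (𝟙 T)).comp (Ext.mk₀ (𝟙 T)) _ =
      (r • Ext.mk₀ (𝟙 T)).comp (s • Ext.mk₀ (𝟙 T)) rfl
    simp [mul_smul, smul_comm r s]
  commutes := by
    rintro r ⟨i, x⟩
    refine sigma_ext' T T _ _ (by omega : 0 + i = i + 0) ?_
    change ((r • Ext.mk₀ (𝟙 T)).comp x rfl).comp (Ext.mk₀ (𝟙 T)) _ =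
      x.comp (r • Ext.mk₀ (𝟙 T)) rfl
    rw [Ext.comp_assoc (a₂₃ := i) _ _ _ _ (by omega) (by omega)]
    simp only [Ext.smul_comp, Ext.comp_smul, Ext.comp_mk₀_id, Ext.mk₀_id_comp]
  smul_def := by
    rintro r ⟨i, x⟩
    refine sigma_ext' T T _ _ (by omega : i = 0 + i) ?_
    change (r • x).comp (Ext.mk₀ (𝟙 T)) _ = (r • Ext.mk₀ (𝟙 T)).comp x rfl
    simp only [Ext.smul_comp]
    rw [comp_id_eq_id_comp]

end Linear

end Pool.Agent.H170_FG
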