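import Pool.Agent.H170_FG.Bos2
import Pool.Agent.H170_FG.Dbl3

/-!
# Functionals on the Hopf algebra
-/

set_option linter.unusedSectionVars false

universe u

open Finset TensorProduct Module

namespace Pool.Agent.H170_FG

variable {k : Type u} [Field k] {C : Type} [CommGroup C] [Fintype C] [DecidableEq C] {n : ℕ}

namespace SGrp

variable (D : SGrp k C n)

lemma urels {c : C} (hc : ∀ i j, D.β i j c = 0) :
    HRels D (fun a => if a = c then (1 : k) else 0) (fun _ => 0) where
  ee a b := by
    by_cases h : a = b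
    · subst h
      by_cases h1 : a = c <;> simp [h1]
    · by_cases h1 : a = c
      · subst h1
        simp [h, Ne.symm h]
      · simp [h1, h]
  e_sum := by simp
  x_e i a := by simp
  x_sq i := by
    rw [zero_mul, Finset.sum_eq_single c]
    · rw [hc, zero_smul]
    · intro b _ hb
      simp [hb]
    · simp
  x_anti i j _ := by
    rw [zero_mul, zero_add, Finset.sum_eq_single c]
    · rw [hc, zero_smul]
    · intro b _ hb
      simp [hb]
    · simp

/-- The character of `H` belonging to `c`. -/
noncomputable def uA {c : C} (hc : ∀ i j, D.β i j c = 0) : D.H →ₐ[k] k := lift (D.urels hc)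

lemma uA_e {c : C} (hc : ∀ i j, D.β i j c = 0) (a : C) :
    D.uA hc (D.e a) = if a = c then 1 else 0 := lift_e _ a

lemma uA_x {c : C} (hc : ∀ i j, D.β i j c = 0) (i : Fin n) : D.uA hc (D.x i) = 0 := lift_x _ i

lemma uA_s {c : C} (hc : ∀ i j, D.β i j c = 0) : D.uA hc D.s = D.sg c := by
  rw [s, HRels.sel, map_sum]
  simp only [map_smul, D.uA_e, smul_eq_mul, mul_ite, mul_one, mul_zero, Finset.sum_ite_eq',
    mem_univ, if_true]

lemma mrels (j : Fin n) : HRels D
    (fun a => (!![if a = D.χ j then 1 else 0, 0; 0, if a = 1 then 1 else 0] :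
      Matrix (Fin 2) (Fin 2) k)) (fun i => !![0, if i = j then 1 else 0; 0, 0]) where
  ee a b := by
    rw [Matrix.mul_fin_two]
    by_cases h : a = b
    · subst h
      ext i j'
      by_cases h1 : a = 1 <;> by_cases h2 : a = D.χ j <;>
        fin_cases i <;> fin_cases j' <;> simp [h1, h2]
    · rw [if_neg h]
      ext i j'
      by_cases h1 : a = 1 <;> by_cases h2 : a = D.χ j <;> by_cases h3 : b = 1 <;>
        by_cases h4 : b = D.χ j <;>
        fin_cases i <;> fin_cases j' <;> simp_all
  e_sum := by
    ext i j'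
    rw [Matrix.sum_apply]
    fin_cases i <;> fin_cases j' <;> simp
  x_e i a := by
    rw [Matrix.mul_fin_two, Matrix.mul_fin_two]
    by_cases h : i = j
    · subst h
      simp
    · simp [h]
  x_sq i := by
    rw [Matrix.mul_fin_two]
    ext i' j'
    rw [Matrix.sum_apply]
    fin_cases i' <;> fin_cases j' <;> simp [D.β_χ, D.β_one]
  x_anti i i' _ := by
    rw [Matrix.mul_fin_two, Matrix.mul_fin_two]
    ext i' j'
    rw [Matrix.sum_apply]
    fin_cases i' <;> fin_cases j' <;> simp [D.β_χ, D.β_one]

/-- The two-dimensional representation belonging to `j`. -/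
noncomputable def mA (j : Fin n) : D.H →ₐ[k] Matrix (Fin 2) (Fin 2) k := lift (D.mrels j)

lemma mA_e (j : Fin n) (a : C) : D.mA j (D.e a) =
    !![if a = D.χ j then 1 else 0, 0; 0, if a = 1 then 1 else 0] := lift_e _ a

lemma mA_x (j i : Fin n) : D.mA j (D.x i) = !![0, if i = j then 1 else 0; 0, 0] := lift_x _ i

/-- the functional dual to `x j` -/
noncomputable def th (j : Fin n) : Dual k D.H where
  toFun y := D.mA j y 0 1
  map_add' y z := by rw [map_add]; rfl
  map_smul' r y := by rw [map_smul]; rfl

lemma mA_entries (j : Fin n) (y : D.H) : D.mA j y 0 0 = D.uA (fun i i' => D.β_χ i i' j) y ∧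
    D.mA j y 1 0 = 0 ∧ D.mA j y 1 1 = D.counitA y := by
  induction y using induction_on with
  | he c => rw [mA_e, uA_e, counitA_e]; simp
  | hx i => rw [mA_x, uA_x, counitA_x]; simp
  | hr r =>
    rw [AlgHom.commutes, AlgHom.commutes, AlgHom.commutes]
    simp [Matrix.algebraMap_matrix_apply]
  | ha a b h1 h2 =>
    rw [map_add, map_add, map_add]
    simp [h1, h2]
  | hm a b h1 h2 =>
    rw [map_mul, map_mul, map_mul, Matrix.mul_apply, Matrix.mul_apply, Matrix.mul_apply]
    simp [h1, h2]

lemma th_mul (j : Fin n) (y z : D.H) : D.th j (y * z) =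
    D.uA (fun i i' => D.β_χ i i' j) y * D.th j z + D.th j y * D.counitA z := by
  change D.mA j (y * z) 0 1 = _
  rw [map_mul, Matrix.mul_apply]
  simp only [Fin.sum_univ_two, (D.mA_entries j y).1, (D.mA_entries j z).2.2]
  rfl

lemma th_e (j : Fin n) (a : C) : D.th j (D.e a) = 0 := by
  change D.mA j (D.e a) 0 1 = _
  rw [mA_e]
  simp

lemma th_x (j i : Fin n) : D.th j (D.x i) = if i = j then 1 else 0 := by
  change D.mA j (D.x i) 0 1 = _
  rw [mA_x]
  simp

lemma th_one (j : Fin n) : D.th j 1 = 0 := by
  change D.mA j 1 0 1 = _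
  rw [map_one]
  simp

lemma th_s (j : Fin n) : D.th j D.s = 0 := by
  rw [s, HRels.sel, map_sum]
  simp [th_e]

/-! ### Convolution -/

lemma conv_apply (p q : Dual k D.H) (y : D.H) :
    conv p q y = LinearMap.mul' k k (TensorProduct.map p q (D.comulA y)) := rfl

lemma conv_e (p q : Dual k D.H) (c : C) :
    conv p q (D.e c) = ∑ a, p (D.e a) * q (D.e (a⁻¹ * c)) := by
  rw [conv_apply, comulA_e, de, map_sum, map_sum]
  simp

lemma conv_x (p q : Dual k D.H) (i : Fin n) :
    conv p q (D.x i) = p (D.x i) * q 1 + p D.s * q (D.x i) := by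
  rw [conv_apply, comulA_x, dx, map_add, map_add]
  simp

lemma conv_one (p q : Dual k D.H) : conv p q 1 = p 1 * q 1 := by
  rw [conv_apply, map_one, Algebra.TensorProduct.one_def]
  simp

/-- The convolution of two functionals on a product. -/
lemma conv_mul_apply {p q : Dual k D.H} {ι κ : Type*} (s : Finset ι) (t : Finset κ)
    (p1 p2 : ι → Dual k D.H) (q1 q2 : κ → Dual k D.H)
    (hp : ∀ y z, p (y * z) = ∑ a ∈ s, p1 a y * p2 a z)
    (hq : ∀ y z, q (y * z) = ∑ b ∈ t, q1 b y * q2 b z) (y z : D.H) :
    conv p q (y * z) = ∑ a ∈ s, ∑ b ∈ t, conv (p1 a) (q1 b) y * conv (p2 a) (q2 b) z := by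
  simp only [conv_apply, map_mul]
  generalize D.comulA y = Y
  generalize D.comulA z = Z
  induction Y using TensorProduct.induction_on with
  | zero => simp
  | add X X' h h' => simp only [add_mul, map_add, h, h', sum_add_distrib]
  | tmul a b =>
    induction Z using TensorProduct.induction_on with
    | zero => simp
    | add X X' h h' => simp only [mul_add, map_add, h, h', sum_add_distrib]
    | tmul c d =>
      simp only [Algebra.TensorProduct.tmul_mul_tmul, TensorProduct.map_tmul,
        LinearMap.mul'_apply, hp, hq]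
      rw [sum_mul_sum]
      refine sum_congr rfl fun i _ => sum_congr rfl fun j _ => ?_
      ring

/-- A functional satisfying a twisted Leibniz rule vanishes if it does so on the generators. -/
lemma eq_zero_of {ψ : Dual k D.H} (f g : D.H → k)
    (h : ∀ y z, ψ (y * z) = f y * ψ z + ψ y * g z) (h1 : ψ 1 = 0) (he : ∀ c, ψ (D.e c) = 0)
    (hx : ∀ i, ψ (D.x i) = 0) : ψ = 0 := by
  ext y
  induction y using induction_on with
  | he c => exact he c
  | hx i => exact hx i
  | hr r =>
    rw [Algebra.algebraMap_eq_smul_one, map_smul, h1]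
    simp
  | ha a b h1 h2 =>
    rw [map_add, h1, h2]
    simp
  | hm a b h1 h2 =>
    rw [h, h1, h2]
    simp

end SGrp

end Pool.Agent.H170_FG
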