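import Pool.Agent.H170_FG.FH

/-!
# Relations between the functionals
-/

set_option linter.unusedSectionVars false

universe u

open Finset TensorProduct Module

namespace Pool.Agent.H170_FG

variable {k : Type u} [Field k] {C : Type} [CommGroup C] [Fintype C] [DecidableEq C] {n : ℕ}

namespace SGrp

variable (D : SGrp k C n)

/-- the character as a linear functional -/
noncomputable def uu {c : C} (hc : ∀ i j, D.β i j c = 0) : Dual k D.H := (D.uA hc).toLinearMap

lemma uu_apply {c : C} (hc : ∀ i j, D.β i j c = 0) (y : D.H) : D.uu hc y = D.uA hc y := rfl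

lemma uu_mul {c : C} (hc : ∀ i j, D.β i j c = 0) (y z : D.H) :
    D.uu hc (y * z) = D.uu hc y * D.uu hc z := map_mul (D.uA hc) y z

lemma β_mul_zero {c c' : C} (hc : ∀ i j, D.β i j c = 0) (hc' : ∀ i j, D.β i j c' = 0) :
    ∀ i j, D.β i j (c * c') = 0 := by
  intro i j
  rw [D.β_mul, hc, hc', add_zero]

lemma uu_one_eq : D.uu (c := 1) D.β_one = Coalgebra.counit := by
  have : D.uA (c := 1) D.β_one = D.counitA :=
    hom_ext (fun c => by rw [uA_e, counitA_e]) (fun i => by rw [uA_x, counitA_x])
  rw [uu, this]
  rfl

lemma conv_u_mul {p q : Dual k D.H} (hp : ∀ y z, p (y * z) = p y * p z)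
    (hq : ∀ y z, q (y * z) = q y * q z) (y z : D.H) :
    conv p q (y * z) = conv p q y * conv p q z := by
  have := D.conv_mul_apply (p := p) (q := q) (univ : Finset Unit) (univ : Finset Unit)
    (fun _ => p) (fun _ => p) (fun _ => q) (fun _ => q) (by simpa using hp) (by simpa using hq) y z
  simpa using this

lemma conv_uu {c c' : C} (hc : ∀ i j, D.β i j c = 0) (hc' : ∀ i j, D.β i j c' = 0) :
    conv (D.uu hc) (D.uu hc') = D.uu (D.β_mul_zero hc hc') := by
  rw [← sub_eq_zero]
  refine D.eq_zero_of (conv (D.uu hc) (D.uu hc')) (D.uu (D.β_mul_zero hc hc')) ?_ ?_ ?_ ?_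
  · intro y z
    rw [LinearMap.sub_apply, LinearMap.sub_apply, LinearMap.sub_apply,
      D.conv_u_mul (D.uu_mul hc) (D.uu_mul hc'), uu_mul]
    ring
  · rw [LinearMap.sub_apply, conv_one]
    simp [uu_apply]
  · intro a
    rw [LinearMap.sub_apply, conv_e]
    simp only [uu_apply, uA_e]
    rw [Finset.sum_eq_single c]
    · simp only [if_true, one_mul]
      by_cases h : a = c * c'
      · subst h
        simp
      · have : ¬ c⁻¹ * a = c' := fun h' => h (by rw [← h']; simp)
        simp [h, this]
    · intro b _ hb
      simp [hb]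
    · simp
  · intro i
    rw [LinearMap.sub_apply, conv_x]
    simp [uu_apply, uA_x]

lemma conv_counit_left (p : Dual k D.H) : conv Coalgebra.counit p = p := by
  ext y
  change LinearMap.mul' k k (TensorProduct.map Coalgebra.counit p (Coalgebra.comul y)) = _
  have : ∀ Z : D.H ⊗[k] D.H, LinearMap.mul' k k (TensorProduct.map Coalgebra.counit p Z) =
      p (TensorProduct.lid k D.H ((Coalgebra.counit (R := k) (A := D.H)).rTensor D.H Z)) := by
    intro Z
    induction Z using TensorProduct.induction_on with
    | zero => simp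
    | add X X' h h' => simp only [map_add, h, h']
    | tmul a b => simp
  rw [this, Coalgebra.rTensor_counit_comul]
  simp

lemma conv_counit_right (p : Dual k D.H) : conv p Coalgebra.counit = p := by
  ext y
  change LinearMap.mul' k k (TensorProduct.map p Coalgebra.counit (Coalgebra.comul y)) = _
  have : ∀ Z : D.H ⊗[k] D.H, LinearMap.mul' k k (TensorProduct.map p Coalgebra.counit Z) =
      p (TensorProduct.rid k D.H ((Coalgebra.counit (R := k) (A := D.H)).lTensor D.H Z)) := by
    intro Z
    induction Z using TensorProduct.induction_on with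
    | zero => simp
    | add X X' h h' => simp only [map_add, h, h']
    | tmul a b => simp [mul_comm]
  rw [this, Coalgebra.lTensor_counit_comul]
  simp

/-- weight of the functional `th j` -/
noncomputable abbrev uw (j : Fin n) : Dual k D.H := D.uu (c := D.χ j) (fun i i' => D.β_χ i i' j)

lemma th_mul' (j : Fin n) (y z : D.H) : D.th j (y * z) =
    ∑ b ∈ (univ : Finset Bool), (if b then D.uw j else D.th j) y *
      (if b then D.th j else (Coalgebra.counit : Dual k D.H)) z := by
  rw [th_mul]
  simp
  rfl

lemma conv_u_th {c : C} (hc : ∀ i j, D.β i j c = 0) (j : Fin n) :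
    conv (D.uu hc) (D.th j) = D.sg c • conv (D.th j) (D.uu hc) := by
  rw [← sub_eq_zero]
  have h1 : ∀ y z, conv (D.uu hc) (D.th j) (y * z) =
      conv (D.uu hc) (D.uw j) y * conv (D.uu hc) (D.th j) z +
        conv (D.uu hc) (D.th j) y * D.uu hc z := by
    intro y z
    have := D.conv_mul_apply (p := D.uu hc) (q := D.th j) (univ : Finset Unit)
      (univ : Finset Bool) (fun _ => D.uu hc) (fun _ => D.uu hc)
      (fun b => if b then D.uw j else D.th j)
      (fun b => if b then D.th j else (Coalgebra.counit : Dual k D.H)) (by simpa using D.uu_mul hc)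
      (D.th_mul' j) y z
    simpa [conv_counit_right] using this
  have h2 : ∀ y z, conv (D.th j) (D.uu hc) (y * z) =
      conv (D.uw j) (D.uu hc) y * conv (D.th j) (D.uu hc) z +
        conv (D.th j) (D.uu hc) y * D.uu hc z := by
    intro y z
    have := D.conv_mul_apply (p := D.th j) (q := D.uu hc) (univ : Finset Bool)
      (univ : Finset Unit)
      (fun b => if b then D.uw j else D.th j)
      (fun b => if b then D.th j else (Coalgebra.counit : Dual k D.H))
      (fun _ => D.uu hc) (fun _ => D.uu hc)
      (D.th_mul' j) (by simpa using D.uu_mul hc) y z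
    simpa [conv_counit_left] using this
  have h3 : conv (D.uw j) (D.uu hc) = conv (D.uu hc) (D.uw j) := by
    rw [conv_uu, conv_uu]
    congr 1
    exact mul_comm _ _
  refine D.eq_zero_of (conv (D.uu hc) (D.uw j)) (D.uu hc) ?_ ?_ ?_ ?_
  · intro y z
    simp only [LinearMap.sub_apply, LinearMap.smul_apply, h1, h2, h3, smul_eq_mul]
    ring
  · rw [LinearMap.sub_apply, LinearMap.smul_apply, conv_one, conv_one, th_one]
    simp
  · intro a
    rw [LinearMap.sub_apply, LinearMap.smul_apply, conv_e, conv_e]
    simp [th_e]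
  · intro i
    rw [LinearMap.sub_apply, LinearMap.smul_apply, conv_x, conv_x, th_one, th_x, th_s]
    simp [uu_apply, uA_x, uA_s]

lemma conv_th_th_mul (i j : Fin n) (y z : D.H) : conv (D.th i) (D.th j) (y * z) =
    conv (D.uw i) (D.uw j) y * conv (D.th i) (D.th j) z + conv (D.uw i) (D.th j) y * D.th i z +
    conv (D.th i) (D.uw j) y * D.th j z + conv (D.th i) (D.th j) y * D.counitA z := by
  have := D.conv_mul_apply (p := D.th i) (q := D.th j) (univ : Finset Bool)
      (univ : Finset Bool)
      (fun b => if b then D.uw i else D.th i)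
      (fun b => if b then D.th i else (Coalgebra.counit : Dual k D.H))
      (fun b => if b then D.uw j else D.th j)
      (fun b => if b then D.th j else (Coalgebra.counit : Dual k D.H))
      (D.th_mul' i) (D.th_mul' j) y z
  rw [this]
  simp [conv_counit_left, conv_counit_right, add_assoc]
  exact Or.inl rfl

lemma conv_th_th (i j : Fin n) : conv (D.th i) (D.th j) + conv (D.th j) (D.th i) = 0 := by
  have h3 : conv (D.uw j) (D.uw i) = conv (D.uw i) (D.uw j) := by
    rw [conv_uu, conv_uu]
    congr 1
    exact mul_comm _ _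
  have h4 : ∀ i j y, conv (D.uw i) (D.th j) y = - conv (D.th j) (D.uw i) y := by
    intro i j y
    rw [conv_u_th, sg_χ]
    simp
  refine D.eq_zero_of (conv (D.uw i) (D.uw j)) D.counitA ?_ ?_ ?_ ?_
  · intro y z
    simp only [LinearMap.add_apply, D.conv_th_th_mul, h3, h4]
    ring
  · rw [LinearMap.add_apply, conv_one, conv_one, th_one]
    simp
  · intro a
    rw [LinearMap.add_apply, conv_e, conv_e]
    simp [th_e]
  · intro l
    rw [LinearMap.add_apply, conv_x, conv_x, th_one, th_one, th_s, th_s]
    simp

lemma conv_th_self (i : Fin n) : conv (D.th i) (D.th i) = 0 := by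
  refine D.eq_zero_of (conv (D.uw i) (D.uw i)) D.counitA ?_ ?_ ?_ ?_
  · intro y z
    rw [D.conv_th_th_mul, conv_u_th, sg_χ]
    simp
  · rw [conv_one, th_one]
    simp
  · intro a
    rw [conv_e]
    simp [th_e]
  · intro l
    rw [conv_x, th_one, th_s]
    simp

end SGrp

end Pool.Agent.H170_FG
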