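import Pool.Agent.H170_FG.FH2

/-!
# Contraction operators, the dimension of the Hopf algebra, and generation of its dual
-/

set_option linter.unusedSectionVars false

universe u

open Finset TensorProduct Module

namespace Pool.Agent.H170_FG

variable {k : Type u} [Field k] {C : Type} [CommGroup C] [Fintype C] [DecidableEq C] {n : ℕ}

namespace SGrp

variable (D : SGrp k C n)

/-- `y ↦ ∑ y₁ p(y₂)` -/
noncomputable def rho (p : Dual k D.H) : D.H →ₗ[k] D.H :=
  Dbl.idp p ∘ₗ D.comulA.toLinearMap

lemma rho_apply (p : Dual k D.H) (y : D.H) : D.rho p y = Dbl.idp p (D.comulA y) := rfl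

lemma rho_e (p : Dual k D.H) (c : C) : D.rho p (D.e c) = ∑ a, p (D.e (a⁻¹ * c)) • D.e a := by
  rw [rho_apply, comulA_e, de, map_sum]
  simp

lemma rho_x (p : Dual k D.H) (i : Fin n) :
    D.rho p (D.x i) = p 1 • D.x i + p (D.x i) • D.s := by
  rw [rho_apply, comulA_x, dx, map_add]
  simp

lemma rho_one (p : Dual k D.H) : D.rho p 1 = p 1 • 1 := by
  rw [rho_apply, map_one, Algebra.TensorProduct.one_def]
  simp

lemma idp_mul_th (j : Fin n) (Y Z : D.H ⊗[k] D.H) : Dbl.idp (D.th j) (Y * Z) =
    Dbl.idp (D.uw j) Y * Dbl.idp (D.th j) Z +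
      Dbl.idp (D.th j) Y * Dbl.idp (Coalgebra.counit : Dual k D.H) Z := by
  induction Y using TensorProduct.induction_on with
  | zero => simp
  | add X X' h h' => simp only [add_mul, map_add, h, h']; abel
  | tmul a b =>
    induction Z using TensorProduct.induction_on with
    | zero => simp
    | add X X' h h' => simp only [mul_add, map_add, h, h']; abel
    | tmul c d =>
      have h : (Coalgebra.counit : Dual k D.H) d = D.counitA d := rfl
      rw [Algebra.TensorProduct.tmul_mul_tmul, Dbl.idp_tmul, th_mul, Dbl.idp_tmul, Dbl.idp_tmul,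
        Dbl.idp_tmul, Dbl.idp_tmul, smul_mul_smul_comm, smul_mul_smul_comm, ← add_smul, h]
      rfl

lemma rho_th_mul (j : Fin n) (y z : D.H) : D.rho (D.th j) (y * z) =
    D.rho (D.uw j) y * D.rho (D.th j) z + D.rho (D.th j) y * z := by
  rw [rho_apply, map_mul, idp_mul_th]
  congr 2
  have := Coalgebra.lTensor_counit_comul (R := k) z
  change (TensorProduct.rid k D.H) ((Coalgebra.counit (R := k)).lTensor D.H
    (Coalgebra.comul z)) = z
  rw [this]
  simp

lemma rho_th_e (j : Fin n) (c : C) : D.rho (D.th j) (D.e c) = 0 := by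
  rw [rho_e]
  simp [th_e]

lemma rho_th_x (j i : Fin n) : D.rho (D.th j) (D.x i) = if i = j then D.s else 0 := by
  rw [rho_x, th_one, th_x]
  split_ifs <;> simp

lemma rho_uw_x (j i : Fin n) : D.rho (D.uw j) (D.x i) = D.x i := by
  rw [rho_x]
  simp [uw, uu_apply, uA_x]

lemma apply_rho (p q : Dual k D.H) (y : D.H) : q (D.rho p y) = conv q p y := by
  rw [rho_apply, conv_apply]
  generalize D.comulA y = Y
  induction Y using TensorProduct.induction_on with
  | zero => simp
  | add X X' h h' => simp only [map_add, h, h']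
  | tmul a b => simp [mul_comm]

/-- the subalgebra generated by the idempotents and the last odd generators -/
noncomputable def sA (i : ℕ) : Subalgebra k D.H :=
  Algebra.adjoin k (Set.range D.e ∪ D.x '' {j | i ≤ j.val})

lemma e_mem (i : ℕ) (c : C) : D.e c ∈ D.sA i := Algebra.subset_adjoin (Or.inl ⟨c, rfl⟩)

lemma x_mem {i : ℕ} {j : Fin n} (h : i ≤ j.val) : D.x j ∈ D.sA i :=
  Algebra.subset_adjoin (Or.inr ⟨j, h, rfl⟩)

lemma sum_e_mem (i : ℕ) (f : C → k) : ∑ c, f c • D.e c ∈ D.sA i :=
  Subalgebra.sum_mem _ fun c _ => Subalgebra.smul_mem _ (D.e_mem i c) _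

lemma s_mem (i : ℕ) : D.s ∈ D.sA i := D.sum_e_mem i _

lemma sA_zero : D.sA 0 = ⊤ := by
  rw [← D.adjoin_eq_top, sA]
  congr 2
  ext y
  simp

lemma sA_mono {i j : ℕ} (h : i ≤ j) : D.sA j ≤ D.sA i :=
  Algebra.adjoin_mono (Set.union_subset_union_right _ (Set.image_mono fun _ h' => h.trans h'))

lemma e_x (i : Fin n) (c : C) : D.e c * D.x i = D.x i * D.e ((D.χ i)⁻¹ * c) := by
  rw [D.hrels.x_e, mul_inv_cancel_left]

lemma rho_th_sA (i : Fin n) {y : D.H} (hy : y ∈ D.sA (i.val + 1)) : D.rho (D.th i) y = 0 := by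
  induction hy using Algebra.adjoin_induction with
  | mem y hy =>
    rcases hy with ⟨c, rfl⟩ | ⟨j, hj, rfl⟩
    · exact D.rho_th_e i c
    · rw [rho_th_x, if_neg]
      rintro rfl
      exact absurd hj (by simp)
  | algebraMap r =>
    rw [Algebra.algebraMap_eq_smul_one, map_smul, rho_one, th_one]
    simp
  | add y z _ _ hy hz => rw [map_add, hy, hz, add_zero]
  | mul y z _ _ hy hz => rw [rho_th_mul, hy, hz, mul_zero, zero_mul, add_zero]

lemma exists_decomp (i : Fin n) {y : D.H} (hy : y ∈ D.sA i.val) :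
    ∃ a ∈ D.sA (i.val + 1), ∃ b ∈ D.sA (i.val + 1), y = a + D.x i * b := by
  have key : ∀ z, (∃ a ∈ D.sA (i.val + 1), ∃ b ∈ D.sA (i.val + 1), z = a + D.x i * b) →
      ∃ a ∈ D.sA (i.val + 1), ∃ b ∈ D.sA (i.val + 1), y * z = a + D.x i * b := by
    induction hy using Algebra.adjoin_induction with
    | mem y hy =>
      rintro z ⟨a, ha, b, hb, rfl⟩
      rcases hy with ⟨c, rfl⟩ | ⟨j, hj, rfl⟩
      · refine ⟨D.e c * a, mul_mem (D.e_mem _ c) ha, D.e ((D.χ i)⁻¹ * c) * b,
          mul_mem (D.e_mem _ _) hb, ?_⟩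
        rw [mul_add, ← mul_assoc, e_x, mul_assoc]
      · have hj : i.val ≤ j.val := hj
        by_cases hij : i = j
        · subst hij
          refine ⟨(D.x i * D.x i) * b, mul_mem ?_ hb, a, ha, ?_⟩
          · rw [D.hrels.x_sq]
            exact D.sum_e_mem _ _
          · rw [mul_add, add_comm, mul_assoc]
        · have hlt : i.val + 1 ≤ j.val := by
            have : i.val ≠ j.val := fun h => hij (Fin.ext h)
            omega
          refine ⟨D.x j * a + (D.x i * D.x j + D.x j * D.x i) * b,
            add_mem (mul_mem (D.x_mem hlt) ha) (mul_mem ?_ hb), -(D.x j * b),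
            neg_mem (mul_mem (D.x_mem hlt) hb), ?_⟩
          · rw [D.hrels.x_anti i j hij]
            exact D.sum_e_mem _ _
          · noncomm_ring
    | algebraMap r =>
      rintro z ⟨a, ha, b, hb, rfl⟩
      refine ⟨algebraMap k D.H r * a, mul_mem (Subalgebra.algebraMap_mem _ r) ha,
        algebraMap k D.H r * b, mul_mem (Subalgebra.algebraMap_mem _ r) hb, ?_⟩
      rw [mul_add, ← mul_assoc, Algebra.commutes, mul_assoc, ← mul_assoc, ← mul_assoc,
        Algebra.commutes]
    | add y y' _ _ hy hy' =>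
      intro z hz
      obtain ⟨a, ha, b, hb, h1⟩ := hy z hz
      obtain ⟨a', ha', b', hb', h2⟩ := hy' z hz
      refine ⟨a + a', add_mem ha ha', b + b', add_mem hb hb', ?_⟩
      rw [add_mul, h1, h2]
      noncomm_ring
    | mul y y' _ _ hy hy' =>
      intro z hz
      rw [mul_assoc]
      exact hy _ (hy' z hz)
  obtain ⟨a, ha, b, hb, h⟩ := key 1 ⟨1, one_mem _, 0, zero_mem _, by simp⟩
  exact ⟨a, ha, b, hb, by rw [← h, mul_one]⟩

lemma rho_th_decomp (i : Fin n) {a b : D.H} (ha : a ∈ D.sA (i.val + 1))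
    (hb : b ∈ D.sA (i.val + 1)) : D.rho (D.th i) (a + D.x i * b) = D.s * b := by
  rw [map_add, D.rho_th_sA i ha, rho_th_mul, D.rho_th_sA i hb, rho_th_x, if_pos rfl]
  simp

lemma s_mul_eq_zero {b : D.H} (h : D.s * b = 0) : b = 0 := by
  rw [← one_mul b, ← D.s_s, mul_assoc, h, mul_zero]

lemma mem_of_rho_eq_zero (i : Fin n) {y : D.H} (hy : y ∈ D.sA i.val)
    (h : D.rho (D.th i) y = 0) : y ∈ D.sA (i.val + 1) := by
  obtain ⟨a, ha, b, hb, rfl⟩ := D.exists_decomp i hy
  rw [D.rho_th_decomp i ha hb] at h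
  rw [D.s_mul_eq_zero h, mul_zero, add_zero]
  exact ha

lemma rho_mem (i : Fin n) {y : D.H} (hy : y ∈ D.sA i.val) :
    D.rho (D.th i) y ∈ D.sA (i.val + 1) := by
  obtain ⟨a, ha, b, hb, rfl⟩ := D.exists_decomp i hy
  rw [D.rho_th_decomp i ha hb]
  exact mul_mem (D.s_mem _) hb

lemma mem_sA_n {y : D.H} (hy : y ∈ D.sA n) : ∃ f : C → k, y = ∑ c, f c • D.e c := by
  induction hy using Algebra.adjoin_induction with
  | mem y hy =>
    rcases hy with ⟨c, rfl⟩ | ⟨j, hj, rfl⟩
    · exact ⟨fun a => if a = c then 1 else 0, by simp⟩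
    · exact absurd hj (by simp [j.2])
  | algebraMap r =>
    refine ⟨fun _ => r, ?_⟩
    rw [← smul_sum, D.hrels.e_sum, Algebra.algebraMap_eq_smul_one]
  | add y z _ _ hy hz =>
    obtain ⟨f, rfl⟩ := hy
    obtain ⟨g, rfl⟩ := hz
    exact ⟨fun c => f c + g c, by simp [add_smul, sum_add_distrib]⟩
  | mul y z _ _ hy hz =>
    obtain ⟨f, rfl⟩ := hy
    obtain ⟨g, rfl⟩ := hz
    exact ⟨fun c => f c * g c, D.hrels.sum_smul_mul_sum_smul f g⟩

/-- A subspace stable under the contractions which meets the span of the idempotents trivially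
is zero. -/
theorem eq_bot_of (K : Submodule k D.H) (hK : ∀ j, ∀ y ∈ K, D.rho (D.th j) y ∈ K)
    (h0 : ∀ f : C → k, ∑ c, f c • D.e c ∈ K → ∀ c, f c = 0) : K = ⊥ := by
  have key : ∀ m ≤ n, ∀ y ∈ K, y ∈ D.sA (n - m) → y = 0 := by
    intro m
    induction m with
    | zero =>
      intro _ y hy hy'
      obtain ⟨f, rfl⟩ := D.mem_sA_n (by simpa using hy')
      have := h0 f hy
      simp [this]
    | succ m ih =>
      intro hm y hy hy'
      let i : Fin n := ⟨n - (m + 1), by omega⟩
      have hi : i.val + 1 = n - m := by simp only [i]; omega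
      have h1 : D.rho (D.th i) y ∈ D.sA (n - m) := by
        rw [← hi]
        exact D.rho_mem i hy'
      have h2 := ih (by omega) _ (hK i y hy) h1
      have h3 := D.mem_of_rho_eq_zero i hy' h2
      rw [hi] at h3
      exact ih (by omega) y hy h3
  rw [eq_bot_iff]
  intro y hy
  exact key n le_rfl y hy (by simp [D.sA_zero])

theorem finrank_eq (hne : ∀ c, D.e c ≠ 0) :
    FiniteDimensional k D.H ∧ finrank k D.H = 2 ^ n * Fintype.card C := by
  have key : ∀ m ≤ n, FiniteDimensional k (D.sA (n - m)) ∧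
      finrank k (D.sA (n - m)) = 2 ^ m * Fintype.card C := by
    intro m
    induction m with
    | zero =>
      intro _
      let F : (C → k) →ₗ[k] D.sA (n - 0) :=
        { toFun := fun f => ⟨∑ c, f c • D.e c, D.sum_e_mem _ f⟩
          map_add' := fun f g => Subtype.ext (by simp [add_smul, sum_add_distrib])
          map_smul' := fun r f => Subtype.ext (by simp [smul_sum, smul_smul]) }
      have hF : Function.Bijective F := by
        constructor
        · rw [← LinearMap.ker_eq_bot, eq_bot_iff]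
          intro f hf
          have hf' : ∑ c, f c • D.e c = 0 := congrArg Subtype.val hf
          have : f = 0 := by
            funext c
            have := congrArg (fun y => y * D.e c) hf'
            simp only [D.hrels.sum_smul_mul, zero_mul] at this
            exact (smul_eq_zero.mp this).resolve_right (hne c)
          rw [this]
          exact Submodule.zero_mem _
        · rintro ⟨y, hy⟩
          obtain ⟨f, rfl⟩ := D.mem_sA_n (by simpa using hy)
          exact ⟨f, rfl⟩
      refine ⟨Module.Finite.of_surjective F hF.2, ?_⟩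
      rw [← (LinearEquiv.ofBijective F hF).finrank_eq]
      simp
    | succ m ih =>
      intro hm
      obtain ⟨ih1, ih2⟩ := ih (by omega)
      let i : Fin n := ⟨n - (m + 1), by omega⟩
      have hi : i.val + 1 = n - m := by simp only [i]; omega
      let F : (D.sA (n - m) × D.sA (n - m)) →ₗ[k] D.sA (n - (m + 1)) :=
        { toFun := fun f => ⟨f.1 + D.x i * f.2, add_mem (D.sA_mono (by omega) f.1.2)
            (mul_mem (D.x_mem le_rfl) (D.sA_mono (by omega) f.2.2))⟩
          map_add' := fun f g => Subtype.ext (by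
            simp only [Prod.fst_add, Prod.snd_add, Subalgebra.coe_add]
            noncomm_ring)
          map_smul' := fun r f => Subtype.ext (by simp [smul_add]) }
      have hF : Function.Bijective F := by
        constructor
        · rw [← LinearMap.ker_eq_bot, eq_bot_iff]
          rintro ⟨⟨a, ha⟩, ⟨b, hb⟩⟩ hf
          have hf' : a + D.x i * b = 0 := congrArg Subtype.val hf
          have h1 : D.s * b = 0 := by
            rw [← D.rho_th_decomp i (a := a) (b := b) (by rw [hi]; exact ha)
              (by rw [hi]; exact hb), hf', map_zero]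
          have h2 := D.s_mul_eq_zero h1
          subst h2
          rw [mul_zero, add_zero] at hf'
          subst hf'
          exact Submodule.zero_mem _
        · rintro ⟨y, hy⟩
          obtain ⟨a, ha, b, hb, rfl⟩ := D.exists_decomp i hy
          rw [hi] at ha hb
          exact ⟨⟨⟨a, ha⟩, ⟨b, hb⟩⟩, rfl⟩
      refine ⟨Module.Finite.of_surjective F hF.2, ?_⟩
      rw [← (LinearEquiv.ofBijective F hF).finrank_eq, Module.finrank_prod, ih2]
      ring
  have h := key n le_rfl
  rw [Nat.sub_self, sA_zero] at h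
  obtain ⟨h1, h2⟩ := h
  refine ⟨Module.Finite.of_surjective (Subalgebra.topEquiv (R := k) (A := D.H)).toLinearMap
    (Subalgebra.topEquiv (R := k) (A := D.H)).surjective, ?_⟩
  rw [← h2]
  exact ((Subalgebra.topEquiv (R := k) (A := D.H)).toLinearEquiv.finrank_eq).symm

/-- Generation of the dual. -/
theorem eq_top_of [FiniteDimensional k D.H] (W : Submodule k (Dual k D.H))
    (hW : ∀ j, ∀ p ∈ W, conv p (D.th j) ∈ W)
    (h0 : ∀ c, ∃ p ∈ W, ∀ a, p (D.e a) = if a = c then 1 else 0) : W = ⊤ := by
  have h1 : W.dualCoannihilator = ⊥ := by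
    refine D.eq_bot_of _ ?_ ?_
    · intro j y hy
      rw [Submodule.mem_dualCoannihilator] at hy ⊢
      intro p hp
      rw [apply_rho]
      exact hy _ (hW j p hp)
    · intro f hf c
      rw [Submodule.mem_dualCoannihilator] at hf
      obtain ⟨p, hp, hp'⟩ := h0 c
      have := hf p hp
      rw [map_sum] at this
      simpa [hp'] using this
  have h2 := Subspace.dualCoannihilator_dualAnnihilator_eq (W := W)
  rw [← h2, h1]
  simp

end SGrp

end Pool.Agent.H170_FG
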