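import Mathlib

/-!
# Polynomial vectors with the action through powers of the variables
-/

universe u

namespace Pool.Agent.H170_FG

/-- Vectors of polynomials; a polynomial `p` acts by `p(X^N)`. -/
def ExpMod (k : Type u) [Field k] (J : Type) (r : ℕ) (_N : ℕ) : Type u := Fin r → MvPolynomial J k

namespace ExpMod

variable {k : Type u} [Field k] {J : Type} {r N : ℕ}

noncomputable instance : AddCommGroup (ExpMod k J r N) :=
  inferInstanceAs (AddCommGroup (Fin r → MvPolynomial J k))

noncomputable instance : Module (MvPolynomial J k) (ExpMod k J r N) :=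
  Module.compHom (Fin r → MvPolynomial J k)
    ((MvPolynomial.expand N : MvPolynomial J k →ₐ[k] MvPolynomial J k) :
      MvPolynomial J k →+* MvPolynomial J k)

lemma smul_apply (p : MvPolynomial J k) (q : ExpMod k J r N) (i : Fin r) :
    (p • q) i = MvPolynomial.expand N p * q i := rfl

lemma expand_finite [Finite J] (hN : N ≠ 0) :
    ((MvPolynomial.expand N : MvPolynomial J k →ₐ[k] MvPolynomial J k) :
      MvPolynomial J k →+* MvPolynomial J k).Finite := by
  refine RingHom.IsIntegral.to_finite ?_ ?_
  · intro p
    induction p using MvPolynomial.induction_on with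
    | C a =>
      have : MvPolynomial.C a = ((MvPolynomial.expand N : MvPolynomial J k →ₐ[k]
          MvPolynomial J k) : MvPolynomial J k →+* MvPolynomial J k) (MvPolynomial.C a) := by
        simp
      rw [this]
      exact RingHom.isIntegralElem_map _
    | add p q hp hq => exact hp.add _ hq
    | mul_X p j hp =>
      refine hp.mul _ ?_
      refine ⟨Polynomial.X ^ N - Polynomial.C (MvPolynomial.X j),
        Polynomial.monic_X_pow_sub_C _ hN, ?_⟩
      simp
  · have h : (MvPolynomial.C : k →+* MvPolynomial J k).FiniteType :=
      (RingHom.finiteType_algebraMap (A := k) (B := MvPolynomial J k)).mpr inferInstance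
    have h2 : (((MvPolynomial.expand N : MvPolynomial J k →ₐ[k] MvPolynomial J k) :
      MvPolynomial J k →+* MvPolynomial J k).comp MvPolynomial.C) = MvPolynomial.C := by
      ext <;> simp
    refine RingHom.FiniteType.of_comp_finiteType (f := MvPolynomial.C) ?_
    rw [h2]
    exact h

lemma finite_pi {R S : Type*} [CommRing R] [CommRing S] (f : R →+* S) (hf : f.Finite) (r : ℕ) :
    @Module.Finite R (Fin r → S) _ _ (Module.compHom (Fin r → S) f) := by
  let _ := f.toAlgebra
  have : Module.Finite R S := hf
  exact (inferInstance : Module.Finite R (Fin r → S))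

theorem finite [Finite J] (hN : N ≠ 0) :
    Module.Finite (MvPolynomial J k) (ExpMod k J r N) :=
  finite_pi _ (expand_finite hN) r

end ExpMod

end Pool.Agent.H170_FG
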