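import Pool.Agent.H170_FG.Noeth
import Pool.Agent.H170_FG.Poly

/-!
# Polynomial families for modules of functions on exponent vectors
-/

universe u

open Finset

namespace Pool.Agent.H170_FG

section

variable {V : Type} [Fintype V]

/-- total degree of an exponent vector -/
def dg (t : V →₀ ℕ) : ℕ := ∑ w, t w

lemma dg_add (t s : V →₀ ℕ) : dg (t + s) = dg t + dg s := by
  simp [dg, sum_add_distrib]

lemma dg_single (w : V) (n : ℕ) : dg (Finsupp.single w n) = n := by
  classical
  simp [dg, Finsupp.single_apply]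

lemma dg_zero : dg (0 : V →₀ ℕ) = 0 := by simp [dg]

lemma dg_eq_zero {t : V →₀ ℕ} (h : dg t = 0) : t = 0 := by
  ext w
  have := (Finset.sum_eq_zero_iff.mp h) w (mem_univ w)
  simpa using this

open Classical in
/-- the exponent vectors of degree `n` -/
noncomputable def DG (V : Type) [Fintype V] (n : ℕ) : Finset (V →₀ ℕ) :=
  Finset.finsuppAntidiag univ n

lemma mem_DG {n : ℕ} {t : V →₀ ℕ} : t ∈ DG V n ↔ dg t = n := by
  classical
  rw [DG, Finset.mem_finsuppAntidiag]
  simp [dg]

variable {B : Type u} [Ring B] (f : (V →₀ ℕ) → B)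

/-- the homogeneous functions `z` with `z t * f t = z t` -/
def RR (n : ℕ) : Submodule B ((V →₀ ℕ) → B) where
  carrier := {z | ∀ t, z t * f t = z t ∧ (dg t ≠ n → z t = 0)}
  add_mem' {z z'} hz hz' t := by
    refine ⟨?_, fun ht => ?_⟩
    · rw [Pi.add_apply, add_mul, (hz t).1, (hz' t).1]
    · rw [Pi.add_apply, (hz t).2 ht, (hz' t).2 ht, add_zero]
  zero_mem' t := by simp
  smul_mem' b z hz t := by
    refine ⟨?_, fun ht => ?_⟩
    · rw [Pi.smul_apply, smul_eq_mul, mul_assoc, (hz t).1]
    · rw [Pi.smul_apply, smul_eq_mul, (hz t).2 ht, mul_zero]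

lemma mem_RR {n : ℕ} {z : (V →₀ ℕ) → B} :
    z ∈ RR f n ↔ ∀ t, z t * f t = z t ∧ (dg t ≠ n → z t = 0) := Iff.rfl

/-- right multiplication by the idempotents -/
noncomputable def phi : ((V →₀ ℕ) → B) →ₗ[B] ((V →₀ ℕ) → B) where
  toFun z t := z t * f t
  map_add' z z' := by
    ext t
    simp only [Pi.add_apply, add_mul]
  map_smul' b z := by
    ext t
    simp only [Pi.smul_apply, smul_eq_mul, mul_assoc, RingHom.id_apply]

omit [Fintype V] in
lemma phi_apply (z : (V →₀ ℕ) → B) (t : V →₀ ℕ) : phi f z t = z t * f t := rfl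

/-- the homogeneous part -/
noncomputable def hom (n : ℕ) : ((V →₀ ℕ) → B) →ₗ[B] ((V →₀ ℕ) → B) where
  toFun z t := if dg t = n then z t else 0
  map_add' z z' := by
    ext t
    by_cases h : dg t = n <;> simp [h]
  map_smul' b z := by
    ext t
    by_cases h : dg t = n <;> simp [h]

omit [Fintype V] in
lemma phi_idem (hf : ∀ t, f t * f t = f t) (z : (V →₀ ℕ) → B) (t : V →₀ ℕ) :
    phi f z t * f t = phi f z t := by
  rw [phi_apply, mul_assoc, hf]

lemma hom_apply (n : ℕ) (z : (V →₀ ℕ) → B) (t : V →₀ ℕ) :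
    hom (B := B) n z t = if dg t = n then z t else 0 := rfl

lemma phi_hom_mem (hf : ∀ t, f t * f t = f t) (n : ℕ) (z : (V →₀ ℕ) → B) :
    phi f (hom n z) ∈ RR f n := by
  intro t
  refine ⟨phi_idem f hf _ t, fun ht => ?_⟩
  rw [phi_apply, hom_apply, if_neg ht, zero_mul]

lemma projective_RR (hf : ∀ t, f t * f t = f t) (n : ℕ) : Module.Projective B (RR f n) := by
  classical
  let i : RR f n →ₗ[B] (DG V n → B) :=
    { toFun := fun z t => z.1 t.1
      map_add' := fun _ _ => rfl
      map_smul' := fun _ _ => rfl }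
  let s : (DG V n → B) →ₗ[B] RR f n :=
    { toFun := fun z => ⟨phi f (fun t => if h : dg t = n then z ⟨t, mem_DG.mpr h⟩ else 0), by
        intro t
        refine ⟨phi_idem f hf _ t, fun ht => ?_⟩
        rw [phi_apply, dif_neg ht, zero_mul]⟩
      map_add' := fun z z' => by
        apply Subtype.ext
        funext t
        simp only [phi_apply, Submodule.coe_add, Pi.add_apply]
        by_cases h : dg t = n <;> simp [h, add_mul]
      map_smul' := fun b z => by
        apply Subtype.ext
        funext t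
        simp only [phi_apply, Pi.smul_apply, RingHom.id_apply, Submodule.coe_smul]
        by_cases h : dg t = n <;> simp [h, mul_assoc] }
  refine Module.Projective.of_split i s ?_
  refine LinearMap.ext fun z => Subtype.ext (funext fun t => ?_)
  change (if h : dg t = n then z.1 t else 0) * f t = z.1 t
  by_cases h : dg t = n
  · rw [dif_pos h, (z.2 t).1]
  · rw [dif_neg h, zero_mul, (z.2 t).2 h]

/-- the shift by `N` in the variable `w` -/
noncomputable def lam (N : ℕ) (w : V) : ((V →₀ ℕ) → B) →ₗ[B] ((V →₀ ℕ) → B) where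
  toFun z t := z (t + Finsupp.single w N)
  map_add' _ _ := rfl
  map_smul' _ _ := rfl

omit [Fintype V] in
lemma lam_apply (N : ℕ) (w : V) (z : (V →₀ ℕ) → B) (t : V →₀ ℕ) :
    lam (B := B) N w z t = z (t + Finsupp.single w N) := rfl

lemma lam_mem {N : ℕ} (hN : ∀ w t, f (t + Finsupp.single w N) = f t) (w : V) (m n : ℕ)
    (h : m = n + N) (z : (V →₀ ℕ) → B) (hz : z ∈ RR f m) : lam N w z ∈ RR f n := by
  intro t
  refine ⟨?_, fun ht => ?_⟩
  · rw [lam_apply, ← hN w t, (hz _).1]
  · rw [lam_apply]
    refine (hz _).2 ?_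
    rw [dg_add, dg_single]
    omega

/-- the function supported at `t` -/
noncomputable def kap (t : V →₀ ℕ) : (V →₀ ℕ) → B := by
  classical
  exact Pi.single t (f t)

omit [Fintype V] in
lemma kap_same (t : V →₀ ℕ) : kap f t t = f t := by
  classical
  simp [kap]

omit [Fintype V] in
lemma kap_ne {t s : V →₀ ℕ} (h : s ≠ t) : kap f t s = 0 := by
  classical
  simp [kap, h]

lemma kap_mem (hf : ∀ t, f t * f t = f t) {n : ℕ} {t : V →₀ ℕ} (ht : dg t = n) :
    kap f t ∈ RR f n := by
  intro s
  by_cases h : s = t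
  · subst h
    rw [kap_same, hf]
    exact ⟨rfl, fun h => absurd ht h⟩
  · rw [kap_ne f h]
    simp

lemma eq_sum_kap {n : ℕ} {z : (V →₀ ℕ) → B} (hz : z ∈ RR f n) :
    z = ∑ t ∈ DG V n, z t • kap f t := by
  classical
  funext s
  rw [Finset.sum_apply]
  by_cases h : dg s = n
  · rw [Finset.sum_eq_single s]
    · rw [Pi.smul_apply, kap_same, smul_eq_mul, (hz s).1]
    · intro t _ hts
      rw [Pi.smul_apply, kap_ne f hts.symm, smul_zero]
    · intro h'
      exact absurd (mem_DG.mpr h) h'
  · rw [(hz s).2 h, Finset.sum_eq_zero]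
    intro t ht
    rw [Pi.smul_apply, kap_ne, smul_zero]
    rintro rfl
    exact h (mem_DG.mp ht)

section Fam

variable {k : Type u} [Field k] [Algebra k B] {M : Type u} [AddCommGroup M] [Module B M]
  {r N : ℕ} (m : Fin r → M)

/-- the value of a vector of polynomials at an exponent -/
noncomputable def cval (q : ExpMod k V r N) (t : V →₀ ℕ) : M :=
  ∑ i, algebraMap k B (MvPolynomial.coeff t (q i)) • m i

omit [Fintype V] in
lemma cval_add (q q' : ExpMod k V r N) (t : V →₀ ℕ) :
    cval (B := B) m (q + q') t = cval (B := B) m q t + cval (B := B) m q' t := by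
  rw [cval, cval, cval, ← sum_add_distrib]
  refine sum_congr rfl fun i _ => ?_
  rw [← add_smul, ← map_add]
  rfl

omit [Fintype V] in
lemma cval_zero (t : V →₀ ℕ) : cval (B := B) m (0 : ExpMod k V r N) t = 0 := by
  rw [cval]
  refine sum_eq_zero fun i _ => ?_
  change algebraMap k B (MvPolynomial.coeff t (0 : MvPolynomial V k)) • m i = 0
  simp

omit [Fintype V] in
lemma cval_C (c : k) (q : ExpMod k V r N) (t : V →₀ ℕ) :
    cval (B := B) m ((MvPolynomial.C c : MvPolynomial V k) • q) t =
      algebraMap k B c • cval (B := B) m q t := by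
  rw [cval, cval, smul_sum]
  refine sum_congr rfl fun i _ => ?_
  rw [ExpMod.smul_apply, smul_smul, ← map_mul]
  simp

omit [Fintype V] in
lemma cval_X (w : V) (q : ExpMod k V r N) (t : V →₀ ℕ) :
    cval (B := B) m ((MvPolynomial.X w : MvPolynomial V k) • q) (t + Finsupp.single w N) =
      cval (B := B) m q t := by
  rw [cval, cval]
  refine sum_congr rfl fun i _ => ?_
  rw [ExpMod.smul_apply, MvPolynomial.expand_X, MvPolynomial.X_pow_eq_monomial,
    MvPolynomial.coeff_monomial_mul', if_pos le_add_self, add_tsub_cancel_right, one_mul]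

omit [Fintype V] in
lemma cval_X_not_le (w : V) (q : ExpMod k V r N) (t : V →₀ ℕ) (h : ¬ N ≤ t w) :
    cval (B := B) m ((MvPolynomial.X w : MvPolynomial V k) • q) t = 0 := by
  rw [cval]
  refine sum_eq_zero fun i _ => ?_
  rw [ExpMod.smul_apply, MvPolynomial.expand_X, MvPolynomial.X_pow_eq_monomial,
    MvPolynomial.coeff_monomial_mul', if_neg (by rwa [Finsupp.single_le_iff])]
  simp

/-- the homomorphism belonging to a vector of polynomials -/
noncomputable def psiL (n : ℕ) (q : ExpMod k V r N) : RR f n →ₗ[B] M where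
  toFun z := ∑ t ∈ DG V n, z.1 t • cval (B := B) m q t
  map_add' z z' := by
    rw [← sum_add_distrib]
    refine sum_congr rfl fun t _ => ?_
    rw [← add_smul]
    rfl
  map_smul' b z := by
    rw [smul_sum]
    refine sum_congr rfl fun t _ => ?_
    rw [RingHom.id_apply, smul_smul]
    rfl

lemma psiL_apply (n : ℕ) (q : ExpMod k V r N) (z : RR f n) :
    psiL f m n q z = ∑ t ∈ DG V n, z.1 t • cval (B := B) m q t := rfl

/-- the homomorphisms belonging to vectors of polynomials -/
noncomputable def psi (n : ℕ) : ExpMod k V r N →+ (RR f n →ₗ[B] M) where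
  toFun q := psiL f m n q
  map_zero' := by
    ext z
    rw [psiL_apply, LinearMap.zero_apply]
    exact sum_eq_zero fun t _ => by rw [cval_zero, smul_zero]
  map_add' q q' := by
    ext z
    rw [psiL_apply, LinearMap.add_apply, psiL_apply, psiL_apply, ← sum_add_distrib]
    exact sum_congr rfl fun t _ => by rw [cval_add, smul_add]

lemma psi_apply (n : ℕ) (q : ExpMod k V r N) (z : RR f n) :
    psi f m n q z = ∑ t ∈ DG V n, z.1 t • cval (B := B) m q t := rfl

lemma psi_C (n : ℕ) (c : k) (q : ExpMod k V r N) (z : RR f n) :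
    psi f m n ((MvPolynomial.C c : MvPolynomial V k) • q) z =
      algebraMap k B c • psi f m n q z := by
  rw [psi_apply, psi_apply, smul_sum]
  refine sum_congr rfl fun t _ => ?_
  rw [cval_C, smul_smul, smul_smul, Algebra.commutes]

lemma psi_X_lt (w : V) (n : ℕ) (h : n < N) (q : ExpMod k V r N) :
    psi f m n ((MvPolynomial.X w : MvPolynomial V k) • q) = 0 := by
  ext z
  rw [psi_apply, LinearMap.zero_apply]
  refine sum_eq_zero fun t ht => ?_
  rw [cval_X_not_le, smul_zero]
  intro h'
  have h1 : t w ≤ dg t := Finset.single_le_sum (f := fun w => t w) (fun _ _ => Nat.zero_le _)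
    (mem_univ w)
  rw [mem_DG.mp ht] at h1
  omega

lemma psi_X (w : V) (n : ℕ) (q : ExpMod k V r N) (z : RR f (n + N)) (z' : RR f n)
    (hz : z'.1 = lam N w z.1) :
    psi f m (n + N) ((MvPolynomial.X w : MvPolynomial V k) • q) z = psi f m n q z' := by
  classical
  rw [psi_apply, psi_apply]
  symm
  refine Finset.sum_of_injOn (fun t => t + Finsupp.single w N) ?_ ?_ ?_ ?_
  · intro t _ s _ h
    exact add_right_cancel h
  · intro t ht
    rw [mem_coe, mem_DG] at ht ⊢
    rw [dg_add, dg_single, ht]
  · intro t ht ht'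
    by_cases h : N ≤ t w
    · exfalso
      apply ht'
      refine ⟨t - Finsupp.single w N, ?_, ?_⟩
      · rw [mem_coe, mem_DG]
        have h2 : t - Finsupp.single w N + Finsupp.single w N = t :=
          tsub_add_cancel_of_le (by rwa [Finsupp.single_le_iff])
        have h1 := mem_DG.mp ht
        rw [← h2, dg_add, dg_single] at h1
        omega
      · exact tsub_add_cancel_of_le (by rwa [Finsupp.single_le_iff])
    · rw [cval_X_not_le (B := B) m w q t h, smul_zero]
  · intro t _
    rw [cval_X, hz, lam_apply]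

lemma psi_bound (q : ExpMod k V r N) : ∃ N', ∀ n, N' ≤ n → psi f m n q = 0 := by
  refine ⟨(univ.sup fun i => (q i).totalDegree) + 1, fun n hn => ?_⟩
  ext z
  rw [psi_apply, LinearMap.zero_apply]
  refine sum_eq_zero fun t ht => ?_
  rw [cval, sum_eq_zero, smul_zero]
  intro i _
  rw [MvPolynomial.coeff_eq_zero_of_totalDegree_lt, map_zero, zero_smul]
  have h1 : (q i).totalDegree ≤ univ.sup fun i => (q i).totalDegree :=
    Finset.le_sup (f := fun i => (q i).totalDegree) (mem_univ i)
  have h2 : ∑ i ∈ t.support, t i = dg t := by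
    rw [dg]
    exact Finset.sum_subset (subset_univ _) (fun x _ hx => by simpa using hx)
  rw [h2, mem_DG.mp ht]
  omega

lemma psi_surj (hf : ∀ t, f t * f t = f t)
    (hm : ∀ x : M, ∃ c : Fin r → k, x = ∑ i, algebraMap k B (c i) • m i) (n : ℕ)
    (g : RR f n →ₗ[B] M) : ∃ q : ExpMod k V r N, psi f m n q = g ∧
      ∀ n', n' ≠ n → psi f m n' q = 0 := by
  classical
  choose c hc using fun x => hm x
  let κ : (V →₀ ℕ) → M := fun t => if h : dg t = n then g ⟨kap f t, kap_mem f hf h⟩ else 0
  let q : ExpMod k V r N := fun i => ∑ t ∈ DG V n, MvPolynomial.monomial t (c (κ t) i)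
  have hq : ∀ t i, MvPolynomial.coeff t (q i) = if dg t = n then c (κ t) i else 0 := by
    intro t i
    change MvPolynomial.coeff t (∑ s ∈ DG V n, MvPolynomial.monomial s (c (κ s) i)) = _
    rw [MvPolynomial.coeff_sum]
    simp only [MvPolynomial.coeff_monomial]
    rw [Finset.sum_ite_eq' (DG V n) t]
    simp only [mem_DG]
  have hcv : ∀ t, dg t = n → cval (B := B) m q t = κ t := by
    intro t ht
    rw [cval]
    conv_rhs => rw [hc (κ t)]
    refine sum_congr rfl fun i _ => ?_
    rw [hq, if_pos ht]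
  have hcv' : ∀ t, dg t ≠ n → cval (B := B) m q t = 0 := by
    intro t ht
    rw [cval]
    refine sum_eq_zero fun i _ => ?_
    rw [hq, if_neg ht, map_zero, zero_smul]
  refine ⟨q, ?_, ?_⟩
  · ext z
    rw [psi_apply]
    have h1 : z = ∑ t ∈ (DG V n).attach, z.1 t.1 •
        (⟨kap f t.1, kap_mem f hf (mem_DG.mp t.2)⟩ : RR f n) := by
      apply Subtype.ext
      rw [Submodule.coe_sum]
      simp only [Submodule.coe_smul]
      rw [Finset.sum_attach (DG V n) (fun t => z.1 t • kap f t)]
      exact eq_sum_kap f z.2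
    conv_rhs => rw [h1, map_sum]
    rw [← Finset.sum_attach (DG V n)]
    refine sum_congr rfl fun t _ => ?_
    rw [hcv _ (mem_DG.mp t.2), map_smul]
    simp only [κ]
    rw [dif_pos (mem_DG.mp t.2)]
  · intro n' hn'
    ext z
    rw [psi_apply, LinearMap.zero_apply]
    refine sum_eq_zero fun t ht => ?_
    rw [hcv' t, smul_zero]
    rw [mem_DG.mp ht]
    exact hn'

end Fam

lemma exists_span {k : Type u} [Field k] {B : Type u} [Ring B] [Algebra k B]
    [Module.Finite k B] (M : Type u) [AddCommGroup M] [Module B M] [Module.Finite B M] :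
    ∃ (r : ℕ) (m : Fin r → M), ∀ x : M, ∃ c : Fin r → k, x = ∑ i, algebraMap k B (c i) • m i := by
  let _ : Module k M := Module.compHom M (algebraMap k B)
  have : IsScalarTower k B M := ⟨fun a b x => by
    change (a • b) • x = algebraMap k B a • b • x
    rw [Algebra.smul_def, mul_smul]⟩
  have : Module.Finite k M := Module.Finite.trans B M
  obtain ⟨r, m, hm⟩ := Module.Finite.exists_fin (R := k) (M := M)
  refine ⟨r, m, fun x => ?_⟩
  have hx : x ∈ Submodule.span k (Set.range m) := by rw [hm]; trivial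
  obtain ⟨c, hc⟩ := (Submodule.mem_span_range_iff_exists_fun k).mp hx
  exact ⟨c, hc.symm⟩

end

end Pool.Agent.H170_FG
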