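import Pool.Agent.H170_FG.FH3

/-!
# The Fock representation
-/

set_option linter.unusedSectionVars false

universe u

open Finset TensorProduct Module

namespace Pool.Agent.H170_FG

section ext

variable (k : Type u) [Field k] (n : ℕ)

/-- the exterior algebra -/
abbrev Ex : Type u := ExteriorAlgebra k (Fin n → k)

variable {k n}

/-- left multiplication by a generator -/
noncomputable def io (i : Fin n) : Module.End k (Ex k n) :=
  LinearMap.mulLeft k (ExteriorAlgebra.ι k (Pi.single i 1))

/-- the functional with given coordinates -/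
noncomputable def dua (v : Fin n → k) : Dual k (Fin n → k) := ∑ j, v j • LinearMap.proj j

lemma dua_single (v : Fin n → k) (i : Fin n) : dua v (Pi.single i 1) = v i := by
  rw [dua, LinearMap.sum_apply, Finset.sum_eq_single i]
  · simp
  · intro b _ hb
    simp [hb]
  · simp

/-- contraction -/
noncomputable def dd (v : Fin n → k) : Module.End k (Ex k n) :=
  CliffordAlgebra.contractLeft (dua v)

lemma io_io (i j : Fin n) : (io i * io j + io j * io i : Module.End k (Ex k n)) = 0 := by
  refine LinearMap.ext fun z => ?_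
  change ExteriorAlgebra.ι k (Pi.single i 1) * (ExteriorAlgebra.ι k (Pi.single j 1) * z) +
    ExteriorAlgebra.ι k (Pi.single j 1) * (ExteriorAlgebra.ι k (Pi.single i 1) * z) = 0
  rw [← mul_assoc, ← mul_assoc, ← add_mul, ExteriorAlgebra.ι_add_mul_swap, zero_mul]

lemma io_sq (i : Fin n) : (io i * io i : Module.End k (Ex k n)) = 0 := by
  refine LinearMap.ext fun z => ?_
  change ExteriorAlgebra.ι k (Pi.single i 1) * (ExteriorAlgebra.ι k (Pi.single i 1) * z) = 0
  rw [← mul_assoc, ExteriorAlgebra.ι_sq_zero, zero_mul]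

lemma dd_dd (v w : Fin n → k) : (dd v * dd w : Module.End k (Ex k n)) = - (dd w * dd v) := by
  refine LinearMap.ext fun z => ?_
  exact CliffordAlgebra.contractLeft_comm (dua v) (dua w) z

lemma dd_sq (v : Fin n → k) : (dd v * dd v : Module.End k (Ex k n)) = 0 := by
  refine LinearMap.ext fun z => ?_
  exact CliffordAlgebra.contractLeft_contractLeft (dua v) z

lemma dd_io (v : Fin n → k) (i : Fin n) :
    (dd v * io i + io i * dd v : Module.End k (Ex k n)) = v i • 1 := by
  refine LinearMap.ext fun z => ?_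
  have h := CliffordAlgebra.contractLeft_ι_mul (Q := (0 : QuadraticForm k (Fin n → k)))
    (d := dua v) (Pi.single i 1) z
  change CliffordAlgebra.contractLeft (dua v) (ExteriorAlgebra.ι k (Pi.single i 1) * z) +
    ExteriorAlgebra.ι k (Pi.single i 1) * CliffordAlgebra.contractLeft (dua v) z = v i • z
  rw [dua_single] at h
  refine (congrArg (· + _) h).trans ?_
  exact sub_add_cancel _ _

end ext

variable {k : Type u} [Field k] {C : Type} [CommGroup C] [Fintype C] [DecidableEq C] {n : ℕ}

namespace SGrp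

variable (D : SGrp k C n)

/-- half of the bracket -/
def ga (i j : Fin n) (c : C) : k := if i = j then D.β i i c else 2⁻¹ * D.β i j c

lemma ga_mul (i j : Fin n) (c c' : C) : D.ga i j (c * c') = D.ga i j c + D.ga i j c' := by
  unfold ga
  split_ifs
  · exact D.β_mul _ _ _ _
  · rw [D.β_mul, mul_add]

lemma ga_symm (i j : Fin n) (c : C) : D.ga i j c = D.ga j i c := by
  unfold ga
  by_cases h : i = j
  · subst h; rfl
  · rw [if_neg h, if_neg (Ne.symm h), D.β_symm]

lemma ga_wt (i j : Fin n) (h : D.χ i * D.χ j ≠ 1) (c : C) : D.ga i j c = 0 := by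
  unfold ga
  split_ifs with hij
  · subst hij
    exact D.β_wt i i h c
  · rw [D.β_wt i j h, mul_zero]

lemma ga_χ (i j l : Fin n) : D.ga i j (D.χ l) = 0 := by
  unfold ga
  split_ifs
  · exact D.β_χ _ _ _
  · rw [D.β_χ, mul_zero]

lemma ga_one (i j : Fin n) : D.ga i j 1 = 0 := by
  have := D.ga_mul i j 1 1
  rw [mul_one] at this
  simpa using this

lemma ga_inv (i j : Fin n) (c : C) : D.ga i j c⁻¹ = - D.ga i j c := by
  have := D.ga_mul i j c c⁻¹
  rw [mul_inv_cancel, D.ga_one] at this
  exact (neg_eq_of_add_eq_zero_right this.symm).symm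

lemma ga_χ_mul (i j l : Fin n) (c : C) : D.ga i j (D.χ l * c) = D.ga i j c := by
  rw [ga_mul, ga_χ, zero_add]

lemma ga_χ_inv_mul (i j l : Fin n) (c : C) : D.ga i j ((D.χ l)⁻¹ * c) = D.ga i j c := by
  rw [ga_mul, ga_inv, ga_χ, neg_zero, zero_add]

lemma ga_self (i : Fin n) (c : C) : D.ga i i c = D.β i i c := by
  rw [ga, if_pos rfl]

lemma ga_add (h2 : (2 : k) ≠ 0) {i j : Fin n} (h : i ≠ j) (c : C) :
    D.ga i j c + D.ga j i c = D.β i j c := by
  rw [D.ga_symm j i, ga, if_neg h, ← add_mul, ← two_mul, mul_inv_cancel₀ h2, one_mul]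

/-- the operators of the Fock representation -/
noncomputable def XX (i : Fin n) (a : C) : Module.End k (Ex k n) := io i + dd (fun j => D.ga i j a)

lemma XX_χ_inv_mul (i l : Fin n) (a : C) : D.XX i ((D.χ l)⁻¹ * a) = D.XX i a := by
  simp only [XX, ga_χ_inv_mul]

lemma XX_χ_mul (i l : Fin n) (a : C) : D.XX i (D.χ l * a) = D.XX i a := by
  simp only [XX, ga_χ_mul]

lemma XX_sq (i : Fin n) (a : C) : D.XX i a * D.XX i a = D.β i i a • 1 := by
  have h := dd_io (k := k) (fun j => D.ga i j a) i
  have h1 := io_sq (k := k) (n := n) i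
  have h2 := dd_sq (k := k) (fun j => D.ga i j a)
  rw [ga_self] at h
  rw [XX, ← h]
  have h3 : ∀ x y : Module.End k (Ex k n), (x + y) * (x + y) = x * x + y * y + (y * x + x * y) := by
    intro x y
    noncomm_ring
  rw [h3, h1, h2, add_zero, zero_add]

lemma XX_anti (h2 : (2 : k) ≠ 0) {i j : Fin n} (hij : i ≠ j) (a : C) :
    D.XX i a * D.XX j a + D.XX j a * D.XX i a = D.β i j a • 1 := by
  have h3 : ∀ x y x' y' : Module.End k (Ex k n), (x + y) * (x' + y') + (x' + y') * (x + y) =
      (x * x' + x' * x) + (y * y' + y' * y) + ((y * x' + x' * y) + (y' * x + x * y')) := by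
    intro x y x' y'
    noncomm_ring
  rw [XX, XX, h3, io_io, dd_dd, neg_add_cancel, dd_io, dd_io, add_zero, zero_add, ← add_smul,
    D.ga_add h2 hij]

/-- idempotents of the Fock representation -/
noncomputable def fE (c : C) : Module.End k (C → Ex k n) where
  toFun f a := if a = c then f a else 0
  map_add' f g := by
    funext a
    by_cases h : a = c <;> simp [h]
  map_smul' r f := by
    funext a
    by_cases h : a = c <;> simp [h]

/-- odd elements of the Fock representation -/
noncomputable def fX (i : Fin n) : Module.End k (C → Ex k n) where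
  toFun f a := D.XX i a (f ((D.χ i)⁻¹ * a))
  map_add' f g := by
    funext a
    simp
  map_smul' r f := by
    funext a
    simp

lemma fE_apply (c : C) (f : C → Ex k n) (a : C) : fE c f a = if a = c then f a else 0 := rfl

lemma fX_apply (i : Fin n) (f : C → Ex k n) (a : C) :
    D.fX i f a = D.XX i a (f ((D.χ i)⁻¹ * a)) := rfl

lemma sum_fE (φ : C → k) (f : C → Ex k n) (a : C) :
    (∑ c, φ c • fE c) f a = φ a • f a := by
  rw [LinearMap.sum_apply, Finset.sum_apply, Finset.sum_eq_single a]
  · rw [LinearMap.smul_apply, Pi.smul_apply, fE_apply, if_pos rfl]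
  · intro b _ hb
    rw [LinearMap.smul_apply, Pi.smul_apply, fE_apply, if_neg hb.symm, smul_zero]
  · simp

lemma frels (h2 : (2 : k) ≠ 0) : HRels D (fE (k := k) (n := n)) D.fX where
  ee c c' := by
    refine LinearMap.ext fun f => funext fun a => ?_
    rw [Module.End.mul_apply, fE_apply, fE_apply]
    by_cases h : c = c'
    · subst h
      rw [if_pos rfl, fE_apply]
      by_cases h1 : a = c <;> simp [h1]
    · rw [if_neg h]
      by_cases h1 : a = c
      · subst h1
        simp [h]
      · simp [h1]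
  e_sum := by
    refine LinearMap.ext fun f => funext fun a => ?_
    have := sum_fE (k := k) (n := n) (fun _ : C => 1) f a
    simp only [one_smul] at this
    exact this
  x_e i c := by
    refine LinearMap.ext fun f => funext fun a => ?_
    rw [Module.End.mul_apply, Module.End.mul_apply, fX_apply, fE_apply, fE_apply, fX_apply]
    by_cases h : a = D.χ i * c
    · rw [if_pos h, if_pos (by rw [h, inv_mul_cancel_left])]
    · rw [if_neg h, if_neg, map_zero]
      intro h'
      exact h (by rw [← h', mul_inv_cancel_left])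
  x_sq i := by
    refine LinearMap.ext fun f => funext fun a => ?_
    rw [sum_fE, Module.End.mul_apply, fX_apply, fX_apply, XX_χ_inv_mul, ← Module.End.mul_apply,
      XX_sq, LinearMap.smul_apply, Module.End.one_apply]
    by_cases h : D.χ i * D.χ i = 1
    · rw [← mul_assoc, ← mul_inv_rev, h, inv_one, one_mul]
    · rw [D.β_wt i i h, zero_smul, zero_smul]
  x_anti i j hij := by
    refine LinearMap.ext fun f => funext fun a => ?_
    rw [sum_fE, LinearMap.add_apply, Pi.add_apply, Module.End.mul_apply, Module.End.mul_apply,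
      fX_apply, fX_apply, fX_apply, fX_apply, XX_χ_inv_mul, XX_χ_inv_mul, ← mul_assoc, ← mul_assoc,
      ← mul_inv_rev, ← mul_inv_rev, mul_comm (D.χ j), ← Module.End.mul_apply,
      ← Module.End.mul_apply, ← LinearMap.add_apply, D.XX_anti h2 hij, LinearMap.smul_apply,
      Module.End.one_apply]
    by_cases h : D.χ i * D.χ j = 1
    · rw [h, inv_one, one_mul]
    · rw [D.β_wt i j h, zero_smul, zero_smul]

/-- The Fock representation. -/
noncomputable def fock (h2 : (2 : k) ≠ 0) : D.H →ₐ[k] Module.End k (C → Ex k n) := lift (D.frels h2)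

lemma fock_e (h2 : (2 : k) ≠ 0) (c : C) : D.fock h2 (D.e c) = fE c := lift_e _ c

lemma fock_x (h2 : (2 : k) ≠ 0) (i : Fin n) : D.fock h2 (D.x i) = D.fX i := lift_x _ i

/-- vacuum vector -/
noncomputable def vac (c : C) : C → Ex k n := Pi.single c 1

lemma fE_vac (a c : C) : fE a (vac c : C → Ex k n) = if a = c then vac c else 0 := by
  funext b
  rw [fE_apply, vac]
  by_cases h : a = c
  · subst h
    by_cases h1 : b = a
    · simp [h1]
    · simp [h1]
  · rw [if_neg h]
    by_cases h1 : b = a
    · subst h1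
      simp [h]
    · simp [h1]

lemma ne_zero (h2 : (2 : k) ≠ 0) (c : C) : D.e c ≠ 0 := by
  intro h
  have h1 := D.fock_e h2 c
  rw [h, map_zero] at h1
  have h3 := fE_vac (k := k) (n := n) c c
  rw [← h1, if_pos rfl] at h3
  have h4 := congrFun h3 c
  rw [vac, Pi.single_eq_same] at h4
  exact zero_ne_one h4

/-- scalar part -/
noncomputable def scal : Ex k n →ₗ[k] k := ExteriorAlgebra.algebraMapInv.toLinearMap

lemma scal_io (i : Fin n) (z : Ex k n) : scal (io i z) = 0 := by
  change ExteriorAlgebra.algebraMapInv (ExteriorAlgebra.ι k (Pi.single i 1) * z) = 0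
  rw [map_mul]
  simp [ExteriorAlgebra.algebraMapInv]

lemma scal_one : scal (1 : Ex k n) = 1 := map_one ExteriorAlgebra.algebraMapInv

/-- vacuum expectation -/
noncomputable def ex (h2 : (2 : k) ≠ 0) (c : C) : Dual k D.H :=
  scal ∘ₗ LinearMap.proj c ∘ₗ (LinearMap.applyₗ (vac c)) ∘ₗ (D.fock h2).toLinearMap

lemma ex_apply (h2 : (2 : k) ≠ 0) (c : C) (y : D.H) :
    D.ex h2 c y = scal (D.fock h2 y (vac c) c) := rfl

lemma ex_one (h2 : (2 : k) ≠ 0) (c : C) : D.ex h2 c 1 = 1 := by
  rw [ex_apply, map_one, Module.End.one_apply, vac, Pi.single_eq_same, scal_one]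

lemma ex_e_mul (h2 : (2 : k) ≠ 0) (c a : C) (y : D.H) :
    D.ex h2 c (D.e a * y) = if a = c then D.ex h2 c y else 0 := by
  rw [ex_apply, map_mul, fock_e, Module.End.mul_apply, fE_apply]
  by_cases h : a = c
  · rw [if_pos h, if_pos h.symm]; rfl
  · rw [if_neg h, if_neg (Ne.symm h), map_zero]

lemma ex_mul_e (h2 : (2 : k) ≠ 0) (c a : C) (y : D.H) :
    D.ex h2 c (y * D.e a) = if a = c then D.ex h2 c y else 0 := by
  rw [ex_apply, map_mul, fock_e, Module.End.mul_apply, fE_vac]
  by_cases h : a = c
  · rw [if_pos h, if_pos h]; rfl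
  · rw [if_neg h, if_neg h, map_zero, Pi.zero_apply, map_zero]

/-- contraction on the Fock representation -/
noncomputable def fD (j : Fin n) : Module.End k (C → Ex k n) where
  toFun f a := dd (Pi.single j 1) (f (D.χ j * a))
  map_add' f g := by
    funext a
    simp
  map_smul' r f := by
    funext a
    simp

lemma fD_apply (j : Fin n) (f : C → Ex k n) (a : C) :
    D.fD j f a = dd (Pi.single j 1) (f (D.χ j * a)) := rfl

/-- `y ↦ ∑ p(y₁) y₂` -/
noncomputable def lmb (p : Dual k D.H) : D.H →ₗ[k] D.H :=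
  (TensorProduct.lid k D.H).toLinearMap ∘ₗ p.rTensor D.H ∘ₗ D.comulA.toLinearMap

lemma lmb_e (p : Dual k D.H) (c : C) : D.lmb p (D.e c) = ∑ a, p (D.e a) • D.e (a⁻¹ * c) := by
  change (TensorProduct.lid k D.H) (p.rTensor D.H (D.comulA (D.e c))) = _
  rw [comulA_e, de, map_sum, map_sum]
  simp

lemma lmb_x (p : Dual k D.H) (i : Fin n) :
    D.lmb p (D.x i) = p (D.x i) • 1 + p D.s • D.x i := by
  change (TensorProduct.lid k D.H) (p.rTensor D.H (D.comulA (D.x i))) = _
  rw [comulA_x, dx, map_add, map_add]
  simp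

lemma lmb_one (p : Dual k D.H) : D.lmb p 1 = p 1 • 1 := by
  change (TensorProduct.lid k D.H) (p.rTensor D.H (D.comulA 1)) = _
  rw [map_one, Algebra.TensorProduct.one_def]
  simp

lemma lmb_mul {ι : Type*} (s : Finset ι) (p : Dual k D.H) (p1 p2 : ι → Dual k D.H)
    (hp : ∀ y z, p (y * z) = ∑ a ∈ s, p1 a y * p2 a z) (y z : D.H) :
    D.lmb p (y * z) = ∑ a ∈ s, D.lmb (p1 a) y * D.lmb (p2 a) z := by
  change (TensorProduct.lid k D.H) (p.rTensor D.H (D.comulA (y * z))) =
    ∑ a ∈ s, (TensorProduct.lid k D.H) ((p1 a).rTensor D.H (D.comulA y)) *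
      (TensorProduct.lid k D.H) ((p2 a).rTensor D.H (D.comulA z))
  rw [map_mul]
  generalize D.comulA y = Y
  generalize D.comulA z = Z
  induction Y using TensorProduct.induction_on with
  | zero => simp
  | add X X' h h' => simp only [add_mul, map_add, h, h', sum_add_distrib]
  | tmul a b =>
    induction Z using TensorProduct.induction_on with
    | zero => simp
    | add X X' h h' => simp only [mul_add, map_add, h, h', sum_add_distrib]
    | tmul c d =>
      simp only [Algebra.TensorProduct.tmul_mul_tmul, LinearMap.rTensor_tmul,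
        TensorProduct.lid_tmul, hp, sum_smul, smul_mul_smul_comm]

lemma lmb_counit (y : D.H) : D.lmb Coalgebra.counit y = y := by
  have := Coalgebra.rTensor_counit_comul (R := k) y
  change (TensorProduct.lid k D.H) ((Coalgebra.counit (R := k)).rTensor D.H
    (Coalgebra.comul y)) = y
  rw [this]
  simp

lemma fD_fock (h2 : (2 : k) ≠ 0) (j : Fin n) (y : D.H) : D.fD j * D.fock h2 y =
    D.fock h2 (D.lmb (D.uw j) y) * D.fD j + D.fock h2 (D.lmb (D.th j) y) := by
  induction y using induction_on with
  | he c =>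
    have h1 : D.lmb (D.uw j) (D.e c) = D.e ((D.χ j)⁻¹ * c) := by
      rw [lmb_e, Finset.sum_eq_single (D.χ j)]
      · simp [uw, uu_apply, uA_e]
      · intro b _ hb
        simp [uw, uu_apply, uA_e, hb]
      · simp
    have h3 : D.lmb (D.th j) (D.e c) = 0 := by
      rw [lmb_e]
      simp [th_e]
    rw [h1, h3, map_zero, add_zero, fock_e, fock_e]
    refine LinearMap.ext fun f => funext fun a => ?_
    rw [Module.End.mul_apply, Module.End.mul_apply, fD_apply, fE_apply, fE_apply, fD_apply]
    by_cases h : D.χ j * a = c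
    · rw [if_pos h, if_pos (by rw [← h, inv_mul_cancel_left])]
    · rw [if_neg h, if_neg, map_zero]
      intro h'
      exact h (by rw [h', mul_inv_cancel_left])
  | hx i =>
    have h1 : D.lmb (D.uw j) (D.x i) = - D.x i := by
      rw [lmb_x]
      simp [uw, uu_apply, uA_x, uA_s, sg_χ]
    have h3 : D.lmb (D.th j) (D.x i) = if i = j then 1 else 0 := by
      rw [lmb_x, th_x, th_s]
      split_ifs <;> simp
    rw [h1, h3, map_neg, fock_x]
    refine LinearMap.ext fun f => funext fun a => ?_
    have h4 : (dd (Pi.single j 1) * D.XX i a + D.XX i a * dd (Pi.single j 1) :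
        Module.End k (Ex k n)) = (if i = j then (1 : k) else 0) • 1 := by
      rw [XX, mul_add, add_mul, add_add_add_comm, dd_io, dd_dd, neg_add_cancel, add_zero,
        Pi.single_apply]
    have h5 := LinearMap.congr_fun h4 (f (D.χ j * ((D.χ i)⁻¹ * a)))
    have h6 : D.χ j * ((D.χ i)⁻¹ * a) = (D.χ i)⁻¹ * (D.χ j * a) := mul_left_comm _ _ _
    have h7 : D.fock h2 (if i = j then 1 else 0) f a = (if i = j then (1 : k) else 0) • f (D.χ j * ((D.χ i)⁻¹ * a)) := by
      by_cases h : i = j
      · subst h
        rw [if_pos rfl, if_pos rfl, map_one, Module.End.one_apply, mul_inv_cancel_left, one_smul]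
      · rw [if_neg h, if_neg h, map_zero, zero_smul]
        rfl
    change dd (Pi.single j 1) (D.XX i (D.χ j * a) (f ((D.χ i)⁻¹ * (D.χ j * a)))) =
      - D.XX i a (dd (Pi.single j 1) (f (D.χ j * ((D.χ i)⁻¹ * a)))) +
        D.fock h2 (if i = j then 1 else 0) f a
    rw [XX_χ_mul, h7, ← h6, eq_neg_add_iff_add_eq, add_comm]
    exact h5
  | hr r =>
    have e1 : D.lmb (D.uw j) (algebraMap k D.H r) = r • 1 := by
      rw [Algebra.algebraMap_eq_smul_one, map_smul, lmb_one]
      simp [uw, uu_apply]
    have e2 : D.lmb (D.th j) (algebraMap k D.H r) = 0 := by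
      rw [Algebra.algebraMap_eq_smul_one, map_smul, lmb_one, th_one]
      simp
    rw [e1, e2, map_zero, add_zero, AlgHom.commutes, map_smul, map_one,
      Algebra.algebraMap_eq_smul_one, smul_mul_assoc, mul_smul_comm, one_mul, mul_one]
  | ha a b h1 h3 =>
    simp only [map_add, mul_add, add_mul, h1, h3]
    abel
  | hm a b h1 h3 =>
    have hu : ∀ y z, D.uw j (y * z) = ∑ _b ∈ (univ : Finset Unit), D.uw j y * D.uw j z := by
      intro y z
      simp [D.uu_mul]
    have e1 := D.lmb_mul (univ : Finset Unit) (D.uw j) (fun _ => D.uw j) (fun _ => D.uw j) hu a b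
    have e2 := D.lmb_mul (univ : Finset Bool) (D.th j) (fun b => if b then D.uw j else D.th j)
      (fun b => if b then D.th j else (Coalgebra.counit : Dual k D.H)) (D.th_mul' j) a b
    simp only [univ_unique, sum_const, card_singleton, one_smul] at e1
    simp only [Fintype.sum_bool, if_true, Bool.false_eq_true, if_false, lmb_counit] at e2
    rw [e1, e2, map_mul, map_mul, map_add, map_mul, map_mul, ← mul_assoc, h1, add_mul, mul_assoc,
      h3, mul_add]
    simp only [mul_assoc, add_assoc]

end SGrp

end Pool.Agent.H170_FG
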