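import Pool.Agent.H170_FG.Span2
import Pool.Agent.H170_FG.Cyc

/-!
# Homotopies for algebras satisfying the relations, arbitrary bracket
-/

set_option linter.unusedSectionVars false

universe u

open Finset Module

namespace Pool.Agent.H170_FG

section SFl

variable {k : Type u} [Field k] {L : Type} [DecidableEq L] {m : L → ℕ} [∀ l, NeZero (m l)]
  {N : Type u} [AddCommGroup N] [Module k N]

/-- first homotopy, linear version -/
def SFl (k : Type u) [Field k] [Module k N] (l : L) : FF m N →ₗ[k] FF m N where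
  toFun := SF l
  map_add' := map_add _
  map_smul' r f := by
    funext c
    simp only [SF_apply, Pi.smul_apply, smul_sum, RingHom.id_apply]

/-- second homotopy, linear version -/
def SFl' (k : Type u) [Field k] [Module k N] (l : L) : FF m N →ₗ[k] FF m N where
  toFun := SF' l
  map_add' := map_add _
  map_smul' r f := by
    funext c
    simp only [SF'_apply, Pi.smul_apply, RingHom.id_apply]
    split_ifs <;> simp

end SFl

section

variable {k : Type u} [Field k] {C : Type} [CommGroup C] [Fintype C] [DecidableEq C]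
  {n : ℕ} {D : SGrp k C n} {A : Type u} [Ring A] [Algebra k A]
  {e g : C → A} {x t : Fin n → A}

namespace Rels2

variable (H : Full k D e g x t) (h2 : (2 : k) ≠ 0)

include H h2 in
lemma lift_bijective : Function.Bijective (BB2.lift H.rels) := by
  have hB : FiniteDimensional k (BB2 D) ∧ finrank k (BB2 D) ≤ (2 ^ n * Fintype.card C) ^ 2 :=
    (BB2.rels D).finrank_le h2 (BB2.adjoin_gens (D := D))
  have := hB.1
  have hs : Function.Surjective (BB2.lift H.rels) := by
    rw [← AlgHom.range_eq_top, eq_top_iff, ← H.gen, Algebra.adjoin_le_iff]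
    rintro _ (((⟨c, rfl⟩ | ⟨c, rfl⟩) | ⟨a, rfl⟩) | ⟨a, rfl⟩)
    · exact ⟨_, BB2.lift_e H.rels c⟩
    · exact ⟨_, BB2.lift_g H.rels c⟩
    · exact ⟨_, BB2.lift_x H.rels a⟩
    · exact ⟨_, BB2.lift_t H.rels a⟩
  have hA : FiniteDimensional k A := Module.Finite.of_surjective (BB2.lift H.rels).toLinearMap hs
  have h3 : finrank k (BB2 D) = finrank k A :=
    le_antisymm (hB.2.trans H.rank)
      (LinearMap.finrank_le_finrank_of_surjective (f := (BB2.lift H.rels).toLinearMap) hs)
  exact ⟨(LinearMap.injective_iff_surjective_of_finrank_eq_finrank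
    (f := (BB2.lift H.rels).toLinearMap) h3).mpr hs, hs⟩

include H h2 in
/-- The universal property. -/
theorem exists_lift {A' : Type u} [Ring A'] [Algebra k A'] {e' g' : C → A'}
    {x' t' : Fin n → A'} (h' : Rels2 D e' g' x' t') : ∃ F : A →ₐ[k] A',
      (∀ c, F (e c) = e' c) ∧ (∀ c, F (g c) = g' c) ∧ (∀ a, F (x a) = x' a) ∧
        ∀ a, F (t a) = t' a := by
  let E := AlgEquiv.ofBijective _ (lift_bijective H h2)
  have hE : ∀ b, E b = BB2.lift H.rels b := fun b => rfl
  refine ⟨(BB2.lift h').comp E.symm.toAlgHom, ?_, ?_, ?_, ?_⟩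
  · intro c
    have : E.symm (e c) = BB2.e D c := by
      rw [AlgEquiv.symm_apply_eq, hE, BB2.lift_e]
    change BB2.lift h' (E.symm (e c)) = _
    rw [this, BB2.lift_e]
  · intro c
    have : E.symm (g c) = BB2.g D c := by
      rw [AlgEquiv.symm_apply_eq, hE, BB2.lift_g]
    change BB2.lift h' (E.symm (g c)) = _
    rw [this, BB2.lift_g]
  · intro c
    have : E.symm (x c) = BB2.x D c := by
      rw [AlgEquiv.symm_apply_eq, hE, BB2.lift_x]
    change BB2.lift h' (E.symm (x c)) = _
    rw [this, BB2.lift_x]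
  · intro c
    have : E.symm (t c) = BB2.t D c := by
      rw [AlgEquiv.symm_apply_eq, hE, BB2.lift_t]
    change BB2.lift h' (E.symm (t c)) = _
    rw [this, BB2.lift_t]

lemma sum_diag (f : C → k) (p q : C → A) :
    ∑ c, f c • (!![p c, 0; 0, q c] : Matrix (Fin 2) (Fin 2) A) =
      !![∑ c, f c • p c, 0; 0, ∑ c, f c • q c] := by
  ext i j
  rw [Matrix.sum_apply]
  fin_cases i <;> fin_cases j <;> simp

lemma sum_diag' {ι : Type*} (s : Finset ι) (f : ι → k) (p q : ι → A) :
    ∑ c ∈ s, f c • (!![p c, 0; 0, q c] : Matrix (Fin 2) (Fin 2) A) =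
      !![∑ c ∈ s, f c • p c, 0; 0, ∑ c ∈ s, f c • q c] := by
  ext i j
  rw [Matrix.sum_apply]
  fin_cases i <;> fin_cases j <;> simp

lemma matRels2 (h : Rels2 D e g x t) (a : Fin n) : Rels2 D
    (fun c => (!![e c, 0; 0, e (D.χ a * c)] : Matrix (Fin 2) (Fin 2) A))
    (fun c => !![g c, 0; 0, g c])
    (fun b => !![x b, if a = b then 1 else 0; 0, - x b])
    (fun b => !![t b, 0; 0, - t b]) where
  hr :=
    { ee := fun c c' => by
        rw [Matrix.mul_fin_two]
        simp only [h.hr.ee, mul_zero, zero_mul, add_zero, zero_add]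
        by_cases hc : c = c'
        · simp [hc]
        · have : ¬ D.χ a * c = D.χ a * c' := fun h' => hc (mul_left_cancel h')
          rw [if_neg hc, if_neg hc, if_neg this]
          ext i j
          fin_cases i <;> fin_cases j <;> rfl
      e_sum := by
        have h1 : ∑ c, e (D.χ a * c) = 1 := by
          rw [← h.hr.e_sum]
          exact Fintype.sum_equiv (Equiv.mulLeft (D.χ a)) _ _ (fun _ => rfl)
        ext i j
        rw [Matrix.sum_apply]
        fin_cases i <;> fin_cases j <;> simp [h.hr.e_sum, h1]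
      x_e := fun b c => by
        rw [Matrix.mul_fin_two, Matrix.mul_fin_two]
        by_cases hab : a = b
        · subst hab
          simp [h.hr.x_e]
        · simp [h.hr.x_e, hab, mul_left_comm]
      x_sq := fun b => by
        rw [sum_diag, Matrix.mul_fin_two]
        have h1 : ∑ c, D.β b b c • e (D.χ a * c) = x b * x b := by
          rw [h.hr.x_sq]
          refine Fintype.sum_equiv (Equiv.mulLeft (D.χ a)) _ _ (fun c => ?_)
          rw [Equiv.coe_mulLeft, D.β_mul, D.β_χ, zero_add]
        rw [h1, ← h.hr.x_sq]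
        ext i j
        fin_cases i <;> fin_cases j <;> simp
      x_anti := fun b b' hb => by
        rw [sum_diag, Matrix.mul_fin_two, Matrix.mul_fin_two]
        have h1 : ∑ c, D.β b b' c • e (D.χ a * c) = x b * x b' + x b' * x b := by
          rw [h.hr.x_anti b b' hb]
          refine Fintype.sum_equiv (Equiv.mulLeft (D.χ a)) _ _ (fun c => ?_)
          rw [Equiv.coe_mulLeft, D.β_mul, D.β_χ, zero_add]
        rw [h1, ← h.hr.x_anti b b' hb]
        ext i j
        by_cases hab : a = b <;> by_cases hab' : a = b' <;>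
          fin_cases i <;> fin_cases j <;> simp [hab, hab'] }
  g_one := by
    ext i j
    fin_cases i <;> fin_cases j <;> simp [h.g_one]
  g_mul c c' := by
    rw [Matrix.mul_fin_two]
    simp [h.g_mul]
  g_e c c' := by
    rw [Matrix.mul_fin_two, Matrix.mul_fin_two]
    simp [h.g_e]
  g_t c b := by
    rw [Matrix.mul_fin_two, Matrix.mul_fin_two]
    simp [h.g_t]
  t_e b c := by
    rw [Matrix.mul_fin_two, Matrix.mul_fin_two]
    simp [h.t_e, mul_left_comm]
  t_sq b := by
    rw [Matrix.mul_fin_two]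
    ext i j
    fin_cases i <;> fin_cases j <;> simp [h.t_sq]
  t_anti b b' hb := by
    rw [Matrix.mul_fin_two, Matrix.mul_fin_two]
    have hp := h.t_anti b b' hb
    ext i j
    fin_cases i <;> fin_cases j <;> simp [hp]
  x_t i j := by
    rw [Matrix.mul_fin_two, Matrix.mul_fin_two]
    have hp := h.x_t i j
    by_cases hij : i = j
    · subst hij
      rw [if_pos rfl] at hp ⊢
      ext i' j'
      by_cases hab : a = i <;>
        fin_cases i' <;> fin_cases j' <;> simp [hp, hab]
    · rw [if_neg hij] at hp ⊢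
      ext i' j'
      by_cases hab : a = i <;>
        fin_cases i' <;> fin_cases j' <;> simp [hp, hab]
  x_g i c := by
    have hp := h.x_g i c
    have h1 : ∀ m, (1 + (!![g (D.χ m)⁻¹, 0; 0, g (D.χ m)⁻¹] : Matrix (Fin 2) (Fin 2) A)) *
        ((!![t m, 0; 0, - t m] : Matrix (Fin 2) (Fin 2) A) * !![g c, 0; 0, g c]) =
        !![(1 + g (D.χ m)⁻¹) * (t m * g c), 0; 0, - ((1 + g (D.χ m)⁻¹) * (t m * g c))] := by
      intro m
      rw [Matrix.mul_fin_two]
      have h3 : (1 + (!![g (D.χ m)⁻¹, 0; 0, g (D.χ m)⁻¹] : Matrix (Fin 2) (Fin 2) A)) =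
          !![1 + g (D.χ m)⁻¹, 0; 0, 1 + g (D.χ m)⁻¹] := by
        ext i j
        fin_cases i <;> fin_cases j <;> simp
      rw [h3, Matrix.mul_fin_two]
      simp
    simp only [h1, sum_diag']
    rw [Matrix.mul_fin_two, Matrix.mul_fin_two]
    ext i' j'
    by_cases hab : a = i <;>
        fin_cases i' <;> fin_cases j' <;> simp [hp, hab, add_comm]

include H h2 in
/-- Skew derivations. -/
theorem exists_tau (a : Fin n) : ∃ τ : A →ₗ[k] A,
    (∀ b, τ (b * x a) = b - τ b * x a) ∧ (∀ a', a ≠ a' → ∀ b, τ (b * x a') = - (τ b * x a')) ∧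
    (∀ a' b, τ (b * t a') = - (τ b * t a')) ∧
    ∀ c b, τ (b * g c) = τ b * g c := by
  obtain ⟨F, hFe, hFg, hFx, hFt⟩ := exists_lift H h2 (H.rels.matRels2 a)
  have h00 : ∀ b, F b 0 0 = b ∧ F b 1 0 = 0 := by
    intro b
    have hb : b ∈ Algebra.adjoin k (gens e g x t) := by
      rw [H.gen]; trivial
    induction hb using Algebra.adjoin_induction with
    | mem x hx =>
      rcases hx with ((⟨c, rfl⟩ | ⟨c, rfl⟩) | ⟨a, rfl⟩) | ⟨a, rfl⟩
      · rw [hFe]; simp
      · rw [hFg]; simp
      · rw [hFx]; simp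
      · rw [hFt]; simp
    | algebraMap r =>
      rw [AlgHom.commutes]
      simp [Matrix.algebraMap_matrix_apply]
    | add x y _ _ hx hy =>
      rw [map_add]
      simp [hx.1, hx.2, hy.1, hy.2]
    | mul x y _ _ hx hy =>
      rw [map_mul, Matrix.mul_apply, Matrix.mul_apply]
      simp [hx.1, hx.2, hy.1, hy.2]
  have h01 : ∀ b b', F (b * b') 0 1 = b * F b' 0 1 + F b 0 1 * F b' 1 1 := by
    intro b b'
    rw [map_mul, Matrix.mul_apply]
    simp [(h00 b).1]
  refine ⟨{ toFun := fun b => F b 0 1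
            map_add' := fun b b' => by simp
            map_smul' := fun r b => by simp }, ?_, ?_, ?_, ?_⟩
  · intro b
    change F (b * x a) 0 1 = b - F b 0 1 * x a
    rw [h01, hFx]
    simp
    abel
  · intro a' ha b
    change F (b * x a') 0 1 = - (F b 0 1 * x a')
    rw [h01, hFx]
    simp [ha]
  · intro a' b
    change F (b * t a') 0 1 = - (F b 0 1 * t a')
    rw [h01, hFt]
    simp
  · intro c b
    change F (b * g c) 0 1 = F b 0 1 * g c
    rw [h01, hFg]
    simp

/-! ### The basis -/

/-- the rank of the first factor -/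
noncomputable def rM (H : Full k D e g x t) : ℕ := finrank k H.rels.sM

include h2 in
lemma rM_le : rM H ≤ 2 ^ n * Fintype.card C := (H.rels.finrank_sM h2).2

/-- a basis of the first factor -/
noncomputable def bM (h2 : (2 : k) ≠ 0) : Fin (rM H) → A :=
  have := (H.rels.finrank_sM h2).1
  fun j => (Module.finBasis k H.rels.sM j : A)

/-- the values of the functions -/
abbrev NN (_H : Full k D e g x t) : Type u := Fin (rM _H) → Ex k n

/-- the expansion map -/
noncomputable def Psi2 : (C → NN H) →ₗ[k] A where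
  toFun f := ∑ c, ∑ j, bM H h2 j * H.rels.Ft (f c j) * g c
  map_add' f f' := by
    simp only [Pi.add_apply, map_add, mul_add, add_mul, sum_add_distrib]
  map_smul' r f := by
    simp only [Pi.smul_apply, map_smul, mul_smul_comm, smul_mul_assoc, smul_sum, RingHom.id_apply]

lemma Psi2_apply (f : C → NN H) :
    Psi2 H h2 f = ∑ c, ∑ j, bM H h2 j * H.rels.Ft (f c j) * g c := rfl

lemma Psi2_surjective : Function.Surjective (Psi2 H h2) := by
  rw [← LinearMap.range_eq_top, eq_top_iff, ← H.rels.sV_eq_top H.gen]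
  have hM := (H.rels.finrank_sM h2).1
  rw [sV, Submodule.mul_le]
  intro m hm s hs
  obtain ⟨f, rfl⟩ := H.rels.sS_le hs
  have hm' : m = ∑ j, (Module.finBasis k H.rels.sM).repr ⟨m, hm⟩ j • bM H h2 j := by
    have := (Module.finBasis k H.rels.sM).sum_repr ⟨m, hm⟩
    have h3 := congrArg (Subtype.val) this
    simp only [AddSubmonoidClass.coe_finsetSum, Subalgebra.coe_smul] at h3
    exact h3.symm
  refine ⟨fun c j => (Module.finBasis k H.rels.sM).repr ⟨m, hm⟩ j • f c, ?_⟩
  rw [Psi2_apply, PhS_apply, mul_sum]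
  refine sum_congr rfl fun c _ => ?_
  conv_rhs => rw [hm']
  rw [sum_mul]
  refine sum_congr rfl fun j _ => ?_
  rw [map_smul, mul_smul_comm, smul_mul_assoc, smul_mul_assoc, mul_assoc]

lemma Psi2_bijective : Function.Bijective (Psi2 H h2) := by
  have hA := (H.rels.finrank_le h2 H.gen).1
  have h3 : finrank k (C → NN H) = finrank k A := by
    refine le_antisymm ?_ (LinearMap.finrank_le_finrank_of_surjective (Psi2_surjective H h2))
    refine le_trans ?_ H.rank
    rw [Module.finrank_pi_fintype]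
    have h4 : finrank k (NN H) = rM H * 2 ^ n := by
      rw [Module.finrank_pi_fintype]
      simp [finrank_Ex]
    rw [h4]
    simp only [Finset.sum_const, Finset.card_univ, smul_eq_mul]
    calc Fintype.card C * (rM H * 2 ^ n) ≤
        Fintype.card C * ((2 ^ n * Fintype.card C) * 2 ^ n) :=
        Nat.mul_le_mul_left _ (Nat.mul_le_mul_right _ (rM_le H h2))
      _ = (2 ^ n * Fintype.card C) ^ 2 := by ring
  exact ⟨(LinearMap.injective_iff_surjective_of_finrank_eq_finrank h3).mpr
    (Psi2_surjective H h2), Psi2_surjective H h2⟩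

/-- coordinates -/
noncomputable def Psi2E : (C → NN H) ≃ₗ[k] A := LinearEquiv.ofBijective _ (Psi2_bijective H h2)

lemma Psi2E_mul_g (f : C → NN H) (c : C) :
    Psi2E H h2 f * g c = Psi2E H h2 (fun c' => f (c' * c⁻¹)) := by
  change Psi2 H h2 f * g c = Psi2 H h2 _
  rw [Psi2_apply, Psi2_apply, sum_mul]
  refine Fintype.sum_equiv (Equiv.mulRight c) _ _ fun c' => ?_
  rw [Equiv.coe_mulRight, mul_inv_cancel_right, sum_mul]
  refine sum_congr rfl fun j _ => ?_
  rw [mul_assoc, H.rels.g_mul]

lemma Psi2E_mul_t (f : C → NN H) (l : Fin n) :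
    Psi2E H h2 f * t l = Psi2E H h2 (fun c j => f c j * ei k l) := by
  change Psi2 H h2 f * t l = Psi2 H h2 _
  rw [Psi2_apply, Psi2_apply, sum_mul]
  refine sum_congr rfl fun c' _ => ?_
  rw [sum_mul]
  refine sum_congr rfl fun j _ => ?_
  rw [map_mul, Ft_ei, mul_assoc, H.rels.g_t]
  simp only [mul_assoc]

/-- right contraction -/
noncomputable def cr (l : Fin n) : Ex k n →ₗ[k] Ex k n :=
  CliffordAlgebra.contractRight.flip (dua (Pi.single l 1))

omit [CommGroup C] [Fintype C] [DecidableEq C] in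
lemma cr_mul (l m : Fin n) (z : Ex k n) :
    cr l (z * ei k m) = (if l = m then z else 0) - cr l z * ei k m := by
  have := CliffordAlgebra.contractRight_mul_ι (Q := (0 : QuadraticForm k (Fin n → k)))
    (d := dua (Pi.single l 1)) (Pi.single m 1) z
  rw [dua_single] at this
  refine this.trans ?_
  by_cases h : l = m
  · subst h
    simp [cr, ei]
  · simp [cr, ei, h, Ne.symm h]

/-- homotopy in the direction of `t l` -/
noncomputable def tauT (l : Fin n) : A →ₗ[k] A :=
  (Psi2E H h2).toLinearMap ∘ₗ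
    (LinearMap.pi fun c => LinearMap.pi fun j => cr l ∘ₗ LinearMap.proj j ∘ₗ LinearMap.proj c) ∘ₗ
      (Psi2E H h2).symm.toLinearMap

lemma tauT_Psi (l : Fin n) (f : C → NN H) :
    tauT H h2 l (Psi2E H h2 f) = Psi2E H h2 (fun c j => cr l (f c j)) := by
  change Psi2E H h2 (fun c j => cr l ((Psi2E H h2).symm (Psi2E H h2 f) c j)) = _
  rw [LinearEquiv.symm_apply_apply]

lemma tauT_g (l : Fin n) (c : C) (b : A) : tauT H h2 l (b * g c) = tauT H h2 l b * g c := by
  obtain ⟨f, rfl⟩ := (Psi2E H h2).surjective b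
  rw [Psi2E_mul_g, tauT_Psi, tauT_Psi, Psi2E_mul_g]

lemma tauT_t (l m : Fin n) (b : A) :
    tauT H h2 l (b * t m) = (if l = m then b else 0) - tauT H h2 l b * t m := by
  obtain ⟨f, rfl⟩ := (Psi2E H h2).surjective b
  rw [Psi2E_mul_t, tauT_Psi, tauT_Psi, Psi2E_mul_t]
  simp only [cr_mul]
  have h1 : (if l = m then (Psi2E H h2) f else 0) =
      Psi2E H h2 (fun c j => if l = m then f c j else 0) := by
    split_ifs
    · rfl
    · exact (map_zero _).symm
  rw [h1, ← map_sub]
  rfl

end Rels2

end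

end Pool.Agent.H170_FG
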