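import Pool.Agent.H170_FG.Concrete

/-!
# The finite generation theorem for the algebras of `KDA`
-/

universe u

open Finset CategoryTheory DirectSum

namespace Pool.Agent.H170_FG

namespace KDA

open KD (PP)

variable {k : Type u} [Field k] {B : Type u} [Ring B] [Algebra k B] {L I : Type}
    [Fintype L] [LinearOrder L] [Fintype I] [DecidableEq I] {C : Type*} [CommGroup C]
    (K : KDA k B L I C)

omit [Fintype I] [DecidableEq I] in
lemma sg_sL_two (l : L) (w : Var L I) (t : Idx L I) :
    KD.sg (sL l (t + ee w + ee w)) = KD.sg (sL l t) := by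
  rcases w with m | a
  · by_cases h : m < l
    · rw [sL_add_lt h, sL_add_lt h, KD.sg_add_one, KD.sg_add_one, neg_neg]
    · rw [sL_add_not_lt h, sL_add_not_lt h]
  · rw [sL_add_w, sL_add_w]

omit [LinearOrder L] [Fintype I] [DecidableEq I] in
lemma sg_eL_two [DecidableEq L] (w : Var L I) (t : Idx L I) :
    KD.sg (eL (t + ee w + ee w)) = KD.sg (eL t) := by
  rcases w with m | a
  · rw [eL_add_l, eL_add_l, KD.sg_add_one, KD.sg_add_one, neg_neg]
  · rw [eL_add_w, eL_add_w]

omit [Fintype L] [LinearOrder L] [Fintype I] [DecidableEq I] in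
lemma odd_two (w w' : Var L I) (t : Idx L I) :
    Odd ((t + ee w + ee w) w') ↔ Odd (t w') := by
  by_cases h : w = w'
  · subst h
    rw [add_ee_same, add_ee_same, Nat.odd_add_one, Nat.odd_add_one, not_not]
  · rw [add_ee_ne _ h, add_ee_ne _ h]

lemma cf_two (l : L) (w : Var L I) (t : Idx L I) :
    K.cf l ((t + ee w + ee w) (vl l)) = K.cf l (t (vl l)) := by
  unfold KD.cf
  have h : Even ((t + ee w + ee w) (vl l)) ↔ Even (t (vl l)) := by
    rw [← Nat.not_odd_iff_even, odd_two, Nat.not_odd_iff_even]
  by_cases h' : Even (t (vl l))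
  · rw [if_pos (h.mpr h'), if_pos h']
  · rw [if_neg (fun h'' => h' (h.mp h'')), if_neg h']

omit [Fintype L] [LinearOrder L] [Fintype I] [DecidableEq I] in
lemma lam_two_apply (w : Var L I) (z : PP B L I) (t : Idx L I) :
    lam (B := B) 2 w z t = z (t + ee w + ee w) := by
  rw [lam_apply, add_assoc]
  congr 2
  rw [ee, ← Finsupp.single_add]

lemma dl_lam_two (l : L) (w : Var L I) (z : PP B L I) :
    K.dl l (lam 2 w z) = lam 2 w (K.dl l z) := by
  funext t
  rw [K.dl_apply, lam_two_apply, lam_two_apply, K.dl_apply, sg_sL_two, cf_two,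
    add_right_comm _ (ee w) (ee (vl l)), add_right_comm _ (ee w) (ee (vl l))]

lemma dw_lam_two (a : I ⊕ I) (w : Var L I) (z : PP B L I) :
    K.dw a (lam 2 w z) = lam 2 w (K.dw a z) := by
  funext t
  rw [K.dw_apply, lam_two_apply, lam_two_apply, K.dw_apply, sg_eL_two,
    add_right_comm _ (ee w) (ee (vw a)), add_right_comm _ (ee w) (ee (vw a))]

lemma dh_lam_two (i : I) (l : L) (w : Var L I) (z : PP B L I) :
    K.dh i l (lam 2 w z) = lam 2 w (K.dh i l z) := by
  funext t
  rw [K.dh_apply, lam_two_apply, lam_two_apply, K.dh_apply, sg_sL_two]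
  by_cases ho : Odd (t (vl l))
  · rw [if_pos ho, if_pos ((odd_two w (vl l) t).mpr ho)]
    obtain ⟨t, rfl⟩ := exists_eq_add_ee t (vl l) (by intro h0; simp [h0] at ho)
    have e1 : t + ee (vl l) - ee (vl l) + ee (vw (Sum.inl i)) + ee (vw (Sum.inr i)) + ee w + ee w =
        t + ee (vl l) + ee w + ee w - ee (vl l) + ee (vw (Sum.inl i)) + ee (vw (Sum.inr i)) := by
      rw [add_tsub_cancel_right, add_right_comm t (ee (vl l)) (ee w),
        add_right_comm _ (ee (vl l)) (ee w), add_tsub_cancel_right]
      abel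
    rw [e1]
  · rw [if_neg ho, if_neg (fun h => ho ((odd_two w (vl l) t).mp h))]

lemma d_lam_two (w : Var L I) (z : PP B L I) : K.d (lam 2 w z) = lam 2 w (K.d z) := by
  funext t
  have h : ∀ z : PP B L I, lam (B := B) 2 w z t = z (t + Finsupp.single w 2) := fun z => rfl
  rw [h, K.d_apply, K.d_apply]
  simp only [dl_lam_two, dw_lam_two, dh_lam_two, h]

lemma d_lam (M : ℕ) (w : Var L I) (z : PP B L I) :
    K.d (lam (2 * M) w z) = lam (2 * M) w (K.d z) := by
  induction M with
  | zero =>
    have h : ∀ z : PP B L I, lam (B := B) (2 * 0) w z = z := by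
      intro z
      funext t
      rw [lam_apply]
      simp
    rw [h, h]
  | succ M ih =>
    have h : ∀ z : PP B L I, lam (B := B) (2 * (M + 1)) w z = lam 2 w (lam (2 * M) w z) := by
      intro z
      funext t
      rw [lam_apply, lam_apply, lam_apply, add_assoc, ← Finsupp.single_add]
      congr 3
      ring
    rw [h, h, d_lam_two, ih]

/-- The polynomial family of maps to a module. -/
noncomputable def fam (M : ModuleCat.{u} B) {r : ℕ} (m : Fin r → M)
    (hm : ∀ x : M, ∃ c : Fin r → k, x = ∑ i, algebraMap k B (c i) • m i) :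
    TotRes.Fam K.tot k (lam (2 * K.M0)) (a := fun _ => 2 * K.M0)
      (fun w m n h x hx => lam_mem K.ff (K.ff_lam) w m n h x hx) M
      (ExpMod k (Var L I) r (2 * K.M0)) where
  psi n := psi K.ff m n
  psi_C n c q x := psi_C K.ff m n c q x
  psi_X w m' n h q x := by
    subst h
    exact psi_X K.ff m w n q x _ rfl
  psi_X_lt w n h q := psi_X_lt K.ff m w n h q
  bound q := psi_bound K.ff m q
  surj n g := psi_surj K.ff m K.ff_idem hm n g

theorem exists_gen [Module.Finite k B] (M : ModuleCat.{u} B) (hM : Module.Finite B M) :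
    ∃ S : Finset (Σ n, K.tot.cut.W n ⟶ M), ∀ Q : ∀ n, (K.tot.cut.W n ⟶ M) → Prop,
      CutRes.Closed k (fun w => K.tot.op (a := 2 * K.M0) (lam (2 * K.M0) w)
        (fun x => (K.d_lam K.M0 w x).symm)
        (fun m n h x hx => lam_mem K.ff (K.ff_lam) w m n h x hx)) Q →
        (∀ s ∈ S, Q s.1 s.2) → ∀ n g, Q n g := by
  obtain ⟨r, m, hm⟩ := exists_span (k := k) (B := B) M
  have : Module.Finite (MvPolynomial (Var L I) k) (ExpMod k (Var L I) r (2 * K.M0)) :=
    ExpMod.finite (by have := K.M0_ne; omega)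
  exact (K.fam M m hm).exists_finset (fun w x => (K.d_lam K.M0 w x).symm)

/-- The finite generation property for the algebras of `KDA`. -/
theorem fgc [Module.Finite k B] : FGC k K.eps := by
  refine ⟨?_, ?_⟩
  · have hT : Module.Finite B (trivMod K.eps) := by
      let x1 : trivMod K.eps := (1 : k)
      refine ⟨⟨{x1}, ?_⟩⟩
      rw [eq_top_iff]
      rintro c -
      have key : ∀ c : k, c = K.eps (algebraMap k B c) * 1 := by
        intro c
        rw [mul_one]
        exact (AlgHom.commutes K.eps c).symm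
      have : c = (algebraMap k B c) • x1 := key c
      rw [this]
      exact Submodule.smul_mem _ _ (Submodule.subset_span (by simp))
    obtain ⟨S, hS⟩ := K.exists_gen (trivMod K.eps) hT
    exact CutRes.algebra_finiteType K.tot.cut k _ S hS
  · intro M hM
    obtain ⟨S, hS⟩ := K.exists_gen M hM
    exact CutRes.module_finite K.tot.cut k _ M S hS

end KDA

end Pool.Agent.H170_FG
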