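import Pool.Agent.H170_FG.Span
import Pool.Agent.H170_FG.Cyc
import Pool.Agent.H170_FG.Main1

/-!
# Algebras satisfying the relations, of the right dimension
-/

universe u

open Finset Module

namespace Pool.Agent.H170_FG

section

variable {k : Type u} [Field k] {C : Type} [CommGroup C] [Fintype C] [DecidableEq C]
  {n : ℕ} {χ : Fin n → C} {A : Type u} [Ring A] [Algebra k A]
  {e g : C → A} {w : Fin n ⊕ Fin n → A} (h : Rels χ e g w)

namespace Rels

/-- The hypotheses on the algebra. -/
structure Full (k : Type u) [Field k] [Algebra k A] (χ : Fin n → C) (e g : C → A)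
    (w : Fin n ⊕ Fin n → A) : Prop where
  rels : Rels χ e g w
  gen : Algebra.adjoin k (Set.range e ∪ Set.range g ∪ Set.range w) = ⊤
  rank : (2 ^ n * Fintype.card C) ^ 2 ≤ finrank k A

variable (H : Full k χ e g w)

include H in
lemma lift_bijective : Function.Bijective (BB.lift (k := k) H.rels) := by
  have hB : FiniteDimensional k (BB k χ) ∧ finrank k (BB k χ) ≤ (2 ^ n * Fintype.card C) ^ 2 :=
    (BB.rels k χ).finrank_le (BB.adjoin_gens (k := k) (χ := χ))
  have := hB.1
  have hs : Function.Surjective (BB.lift (k := k) H.rels) := by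
    rw [← AlgHom.range_eq_top, eq_top_iff, ← H.gen, Algebra.adjoin_le_iff]
    rintro _ ((⟨c, rfl⟩ | ⟨c, rfl⟩) | ⟨a, rfl⟩)
    · exact ⟨_, BB.lift_e H.rels c⟩
    · exact ⟨_, BB.lift_g H.rels c⟩
    · exact ⟨_, BB.lift_w H.rels a⟩
  have hA : FiniteDimensional k A := Module.Finite.of_surjective (BB.lift (k := k) H.rels).toLinearMap hs
  have h3 : finrank k (BB k χ) = finrank k A :=
    le_antisymm (hB.2.trans H.rank)
      (LinearMap.finrank_le_finrank_of_surjective (f := (BB.lift (k := k) H.rels).toLinearMap) hs)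
  exact ⟨(LinearMap.injective_iff_surjective_of_finrank_eq_finrank
    (f := (BB.lift (k := k) H.rels).toLinearMap) h3).mpr hs, hs⟩

include H in
/-- The universal property. -/
theorem exists_lift {A' : Type u} [Ring A'] [Algebra k A'] {e' g' : C → A'}
    {w' : Fin n ⊕ Fin n → A'} (h' : Rels χ e' g' w') : ∃ F : A →ₐ[k] A',
      (∀ c, F (e c) = e' c) ∧ (∀ c, F (g c) = g' c) ∧ ∀ a, F (w a) = w' a := by
  let E := AlgEquiv.ofBijective _ (lift_bijective H)
  have hE : ∀ b, E b = BB.lift (k := k) H.rels b := fun b => rfl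
  refine ⟨(BB.lift h').comp E.symm.toAlgHom, ?_, ?_, ?_⟩
  · intro c
    have : E.symm (e c) = BB.e k χ c := by
      rw [AlgEquiv.symm_apply_eq, hE, BB.lift_e]
    change BB.lift h' (E.symm (e c)) = _
    rw [this, BB.lift_e]
  · intro c
    have : E.symm (g c) = BB.g k χ c := by
      rw [AlgEquiv.symm_apply_eq, hE, BB.lift_g]
    change BB.lift h' (E.symm (g c)) = _
    rw [this, BB.lift_g]
  · intro c
    have : E.symm (w c) = BB.w k χ c := by
      rw [AlgEquiv.symm_apply_eq, hE, BB.lift_w]
    change BB.lift h' (E.symm (w c)) = _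
    rw [this, BB.lift_w]

lemma om_pair (i : Fin n) : om χ (Sum.inl i) * om χ (Sum.inr i) = 1 := by simp [om]

include h in
lemma matRels (a : Fin n ⊕ Fin n) : Rels χ
    (fun c => (!![e c, 0; 0, e (om χ a * c)] : Matrix (Fin 2) (Fin 2) A))
    (fun c => !![g c, 0; 0, g c])
    (fun b => !![w b, if a = b then 1 else 0; 0, - w b]) where
  ee c c' := by
    rw [Matrix.mul_fin_two]
    simp only [h.ee, mul_zero, zero_mul, add_zero, zero_add]
    by_cases hc : c = c'
    · simp [hc]
    · have : ¬ om χ a * c = om χ a * c' := fun h' => hc (mul_left_cancel h')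
      rw [if_neg hc, if_neg hc, if_neg this]
      ext i j
      fin_cases i <;> fin_cases j <;> rfl
  e_sum := by
    have h1 : ∑ c, e (om χ a * c) = 1 := by
      rw [← h.e_sum]
      exact Fintype.sum_equiv (Equiv.mulLeft (om χ a)) _ _ (fun _ => rfl)
    ext i j
    rw [Matrix.sum_apply]
    fin_cases i <;> fin_cases j <;> simp [h.e_sum, h1]
  g_one := by
    ext i j
    fin_cases i <;> fin_cases j <;> simp [h.g_one]
  g_mul c c' := by
    rw [Matrix.mul_fin_two]
    simp [h.g_mul]
  g_e c c' := by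
    rw [Matrix.mul_fin_two, Matrix.mul_fin_two]
    simp [h.g_e]
  g_w c b := by
    rw [Matrix.mul_fin_two, Matrix.mul_fin_two]
    simp [h.g_w]
  w_e b c := by
    rw [Matrix.mul_fin_two, Matrix.mul_fin_two]
    by_cases hab : a = b
    · subst hab
      simp [h.w_e]
    · simp [h.w_e, hab, mul_left_comm]
  w_sq b := by
    rw [Matrix.mul_fin_two]
    ext i j
    fin_cases i <;> fin_cases j <;> simp [h.w_sq]
  w_pair i := by
    rw [Matrix.mul_fin_two, Matrix.mul_fin_two]
    have hp := h.w_pair i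
    ext i' j
    rcases a with a | a <;> by_cases hab : a = i <;>
      fin_cases i' <;> fin_cases j <;> simp [hp, hab]
  w_anti b b' h1 h2 := by
    rw [Matrix.mul_fin_two, Matrix.mul_fin_two]
    have hp := h.w_anti b b' h1 h2
    ext i' j
    by_cases hab : a = b <;> by_cases hab' : a = b' <;>
      fin_cases i' <;> fin_cases j <;> simp [hp, hab, hab']

include H in
/-- Skew derivations. -/
theorem exists_tau (a : Fin n ⊕ Fin n) : ∃ τ : A →+ A,
    (∀ b, τ (b * w a) = b - τ b * w a) ∧ (∀ a', a ≠ a' → ∀ b, τ (b * w a') = - (τ b * w a')) ∧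
    ∀ c b, τ (b * g c) = τ b * g c := by
  obtain ⟨F, hFe, hFg, hFw⟩ := exists_lift H (H.rels.matRels a)
  have h00 : ∀ b, F b 0 0 = b ∧ F b 1 0 = 0 := by
    intro b
    have hb : b ∈ Algebra.adjoin k (Set.range e ∪ Set.range g ∪ Set.range w) := by
      rw [H.gen]; trivial
    induction hb using Algebra.adjoin_induction with
    | mem x hx =>
      rcases hx with (⟨c, rfl⟩ | ⟨c, rfl⟩) | ⟨a, rfl⟩
      · rw [hFe]; simp
      · rw [hFg]; simp
      · rw [hFw]; simp
    | algebraMap r =>
      rw [AlgHom.commutes]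
      simp [Matrix.algebraMap_matrix_apply]
    | add x y _ _ hx hy =>
      rw [map_add]
      simp [hx.1, hx.2, hy.1, hy.2]
    | mul x y _ _ hx hy =>
      rw [map_mul, Matrix.mul_apply, Matrix.mul_apply]
      simp [hx.1, hx.2, hy.1, hy.2]
  have h01 : ∀ b b', F (b * b') 0 1 = b * F b' 0 1 + F b 0 1 * F b' 1 1 := by
    intro b b'
    rw [map_mul, Matrix.mul_apply]
    simp [(h00 b).1]
  refine ⟨⟨⟨fun b => F b 0 1, by simp⟩, fun b b' => by simp⟩, ?_, ?_, ?_⟩
  · intro b
    change F (b * w a) 0 1 = b - F b 0 1 * w a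
    rw [h01, hFw]
    simp
    abel
  · intro a' ha b
    change F (b * w a') 0 1 = - (F b 0 1 * w a')
    rw [h01, hFw]
    simp [ha]
  · intro c b
    change F (b * g c) 0 1 = F b 0 1 * g c
    rw [h01, hFg]
    simp

end Rels

end

end Pool.Agent.H170_FG
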