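import Pool.Agent.H170_FG.Inst

/-!
# Algebras satisfying the relations, of the right dimension: finite generation
-/

universe u

open Finset Module

namespace Pool.Agent.H170_FG

section

variable {k : Type u} [Field k] {C : Type} [CommGroup C] [Fintype C] [DecidableEq C]
  {n : ℕ} {χ : Fin n → C} {A : Type u} [Ring A] [Algebra k A]
  {e g : C → A} {w : Fin n ⊕ Fin n → A} (H : Rels.Full k χ e g w)
  {L : Type} [Fintype L] [DecidableEq L] {m : L → ℕ} [∀ l, NeZero (m l)]
  (ψ : C ≃* Multiplicative (∀ l, ZMod (m l)))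

namespace Rels

include H in
lemma g_central (c : C) (b : A) : g c * b = b * g c := by
  have hb : b ∈ Algebra.adjoin k (Set.range e ∪ Set.range g ∪ Set.range w) := by
    rw [H.gen]; trivial
  induction hb using Algebra.adjoin_induction with
  | mem x hx =>
    rcases hx with (⟨c', rfl⟩ | ⟨c', rfl⟩) | ⟨a, rfl⟩
    · exact H.rels.g_e c c'
    · rw [H.rels.g_mul, H.rels.g_mul, mul_comm]
    · exact H.rels.g_w c a
  | algebraMap r => exact (Algebra.commutes r _).symm
  | add x y _ _ hx hy => rw [mul_add, add_mul, hx, hy]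
  | mul x y _ _ hx hy => rw [← mul_assoc, hx, mul_assoc, hy, mul_assoc]

/-- The generator of the cyclic factor `l`. -/
def vg (g : C → A) (ψ : C ≃* Multiplicative (∀ l, ZMod (m l))) (l : L) : A :=
  g (ψ.symm (Multiplicative.ofAdd (Pi.single l 1)))

/-- expansion in coordinates -/
noncomputable def PhiF (k : Type u) [Field k] [Algebra k A] (e g : C → A)
    (w : Fin n ⊕ Fin n → A) (ψ : C ≃* Multiplicative (∀ l, ZMod (m l))) :
    FF m (sN k e w) → A := fun f => ∑ c, g (ψ.symm (Multiplicative.ofAdd c)) * (f c : A)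

lemma PhiF_eq (f : FF m (sN k e w)) : PhiF k e g w ψ f =
    PhiN k e g w (fun c => f (Multiplicative.toAdd (ψ c))) := by
  rw [PhiF, PhiN_apply]
  refine Fintype.sum_equiv ((Multiplicative.ofAdd).trans ψ.symm.toEquiv) _ _ fun c => ?_
  simp

include H in
lemma PhiF_bijective : Function.Bijective (PhiF k e g w ψ) := by
  have h1 := H.rels.PhiN_bijective H.gen H.rank
  have h2 : (PhiF k e g w ψ) = (PhiN k e g w) ∘
      (fun (f : FF m (sN k e w)) (c : C) => f (Multiplicative.toAdd (ψ c))) := by
    funext f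
    exact PhiF_eq ψ f
  rw [h2]
  refine h1.comp ?_
  exact (Equiv.arrowCongr (ψ.symm.toEquiv.trans (Equiv.refl C)) (Equiv.refl _)).bijective.comp
    Function.bijective_id

omit [∀ l, NeZero (m l)] in
include H in
lemma g_psi (c c' : ∀ l, ZMod (m l)) : g (ψ.symm (Multiplicative.ofAdd c)) *
    g (ψ.symm (Multiplicative.ofAdd c')) = g (ψ.symm (Multiplicative.ofAdd (c + c'))) := by
  rw [H.rels.g_mul, ← map_mul]
  rfl

include H in
lemma vg_mul_PhiF (l : L) (f : FF m (sN k e w)) :
    PhiF k e g w ψ f * vg g ψ l = PhiF k e g w ψ (VF l f) := by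
  rw [vg, ← g_central H, PhiF, mul_sum]
  refine Fintype.sum_equiv (Equiv.addRight (Pi.single l 1)) _ _ fun c => ?_
  rw [← mul_assoc, g_psi H ψ]
  simp only [Equiv.coe_addRight, VF, add_sub_cancel_right]
  rw [add_comm]

end Rels

end

end Pool.Agent.H170_FG
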