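import Pool.Agent.H170_FG.Tw10
import Pool.Agent.H170_FG.ExtGen2

/-!
# Transfer of the resolution to an overring
-/

set_option linter.unusedSectionVars false

universe u

open Finset CategoryTheory DirectSum

namespace Pool.Agent.H170_FG

/-- `R δ` is a free right module over `R'`, with basis `u γ`. -/
structure Xfer (k : Type u) [Field k] (R' R : Type u) [Ring R'] [Algebra k R'] [Ring R]
    [Algebra k R] (Γ : Type) [Fintype Γ] where
  J : R' →ₐ[k] R
  δ : R
  δ_idem : δ * δ = δ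
  δ_J : ∀ r, δ * J r = J r * δ
  u : Γ → R
  π : Γ → R →ₗ[k] R'
  π_J : ∀ γ b r, π γ (b * J r) = π γ b * r
  π_δ : ∀ γ b, π γ (b * δ) = π γ b
  sum_π : ∀ b, ∑ γ, u γ * (J (π γ b) * δ) = b * δ

namespace Xfer

variable {k : Type u} [Field k] {R' R : Type u} [Ring R'] [Algebra k R'] [Ring R]
    [Algebra k R] {Γ : Type} [Fintype Γ] (X : Xfer k R' R Γ)

/-- the non-unital homomorphism -/
def j (r : R') : R := X.J r * X.δ

lemma j_add (r s : R') : X.j (r + s) = X.j r + X.j s := by rw [j, map_add, add_mul]; rfl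
lemma j_zero : X.j 0 = 0 := by rw [j, map_zero, zero_mul]
lemma j_smul (c : k) (s : R') : X.j (c • s) = c • X.j s := by rw [j, map_smul, smul_mul_assoc]; rfl
lemma j_mul (r s : R') : X.j r * X.j s = X.j (r * s) := by
  rw [j, j, j, map_mul, mul_assoc, ← mul_assoc X.δ, X.δ_J, mul_assoc, X.δ_idem, mul_assoc]
lemma j_J (r s : R') : X.j r * X.J s = X.j (r * s) := by
  rw [j, mul_assoc, X.δ_J, ← mul_assoc, ← map_mul]; rfl
lemma J_j (r s : R') : X.J r * X.j s = X.j (r * s) := by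
  rw [j, ← mul_assoc, ← map_mul]; rfl
lemma j_one : X.j 1 = X.δ := by rw [j, map_one, one_mul]
lemma j_sub (r s : R') : X.j (r - s) = X.j r - X.j s := by rw [j, map_sub, sub_mul]; rfl
lemma j_sum {ι : Type*} (s : Finset ι) (f : ι → R') : X.j (∑ i ∈ s, f i) = ∑ i ∈ s, X.j (f i) := by
  rw [j, map_sum, sum_mul]; rfl

lemma π_j (γ : Γ) (b : R) (r : R') : X.π γ (b * X.j r) = X.π γ b * r := by
  rw [j, ← mul_assoc, X.π_δ, X.π_J]

lemma sum_πj (b : R) : ∑ γ, X.u γ * X.j (X.π γ b) = b * X.δ := X.sum_π b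

/-- extension of an operator -/
noncomputable def hat (τ : R' →ₗ[k] R') : R →ₗ[k] R where
  toFun b := ∑ γ, X.u γ * X.j (τ (X.π γ b))
  map_add' b c := by
    simp only [map_add, j_add, mul_add, sum_add_distrib]
  map_smul' r b := by
    simp only [map_smul, j_smul, mul_smul_comm, smul_sum, RingHom.id_apply]

lemma hat_apply (τ : R' →ₗ[k] R') (b : R) : X.hat τ b = ∑ γ, X.u γ * X.j (τ (X.π γ b)) := rfl

lemma hat_mul_j (τ : R' →ₗ[k] R') (b : R) (r : R') :
    X.hat τ b * X.j r = ∑ γ, X.u γ * X.j (τ (X.π γ b) * r) := by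
  rw [hat_apply, sum_mul]
  refine sum_congr rfl fun γ _ => ?_
  rw [mul_assoc, j_mul]

lemma hat_mul_J (τ : R' →ₗ[k] R') (b : R) (r : R') :
    X.hat τ b * X.J r = ∑ γ, X.u γ * X.j (τ (X.π γ b) * r) := by
  rw [hat_apply, sum_mul]
  refine sum_congr rfl fun γ _ => ?_
  rw [mul_assoc, j_J]

lemma hat_j (τ : R' →ₗ[k] R') (b : R) (r : R') :
    X.hat τ (b * X.j r) = ∑ γ, X.u γ * X.j (τ (X.π γ b * r)) := by
  rw [hat_apply]
  simp only [π_j]

lemma hat_J (τ : R' →ₗ[k] R') (b : R) (r : R') :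
    X.hat τ (b * X.J r) = ∑ γ, X.u γ * X.j (τ (X.π γ b * r)) := by
  rw [hat_apply]
  simp only [X.π_J]

lemma sum_j (b : R) (r : R') : ∑ γ, X.u γ * X.j (X.π γ b * r) = b * X.j r := by
  have h1 : b * X.j r = (b * X.J r) * X.δ := by rw [j, mul_assoc]
  rw [h1, ← sum_πj]
  simp only [X.π_J]

variable {L I : Type}
    [Fintype L] [LinearOrder L] [Fintype I] [DecidableEq I] {C : Type} [CommGroup C]

/-- transfer of the data -/
noncomputable def tw (K : TW k R' L I C) : TW k R L I C where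
  χ := K.χ
  B := K.B
  B_mul := K.B_mul
  B_symm := K.B_symm
  B_wt := K.B_wt
  B_χ := K.B_χ
  h := K.h
  h_two := K.h_two
  ε := X.j K.ε
  ε_idem := by rw [j_mul, K.ε_idem]
  g c := X.J (K.g c)
  g_one := by rw [K.g_one, map_one]
  g_mul c c' := by rw [← map_mul, K.g_mul]
  w a := X.j (K.w a)
  w_ε a := by rw [j_mul, K.w_ε]
  ε_g c := by rw [j_J, J_j, K.ε_g]
  ε_w a := by rw [j_mul, j_mul, K.ε_w]
  w_sq a := by rw [j_mul, K.w_sq, j_zero]
  w_pair i := by
    rw [j_mul, j_mul, ← j_add, K.w_pair, j_smul, mul_sub, j_sub, mul_sub, j_J, j_J]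
  w_anti a b h h' := by rw [j_mul, j_mul, ← j_add, K.w_anti a b h h', j_zero]
  g_y c i := by rw [j_J, J_j, K.g_y]
  x_g i c := by
    rw [j_J, J_j, K.x_g, j_add, j_sum]
    congr 1
    refine sum_congr rfl fun i' _ => ?_
    rw [j_smul, j_J]
  cl := K.cl
  ord := K.ord
  cl_pow := K.cl_pow
  a := K.a
  a_eq := K.a_eq
  a_anti := K.a_anti

variable [Fintype C] [DecidableEq C]

/-- transfer of the data with idempotents -/
noncomputable def twe (K : TWE k R' L I C) : TWE k R L I C where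
  toTW := X.tw K.toTW
  e c := X.j (K.e c)
  e_idem c := by rw [j_mul, K.e_idem]
  g_e c c' := by
    change X.J (K.g c) * X.j (K.e c') = X.j (K.e c') * X.J (K.g c)
    rw [j_J, J_j, K.g_e]
  x_e i c := by
    change X.j _ * X.j _ = X.j _ * X.j _
    rw [j_mul, j_mul, K.x_e]
    rfl
  y_e i c := by
    change X.j _ * X.j _ = X.j _ * X.j _
    rw [j_mul, j_mul, K.y_e]
    rfl
  ε_e c := by
    change X.j _ * X.j _ = X.j _ * X.j _
    rw [j_mul, j_mul, K.ε_e]

lemma isTau {K : TW k R' L I C} {τ : R' →ₗ[k] R'} {a : I ⊕ I} {t : Set (I ⊕ I)}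
    (h : K.IsTau τ a t) : (X.tw K).IsTau (X.hat τ) a t where
  same b := by
    change X.hat τ (b * X.j (K.w a)) + X.hat τ b * X.j (K.w a) = b * X.j K.ε
    rw [hat_j, hat_mul_j, ← sum_add_distrib]
    simp only [← mul_add, ← j_add, h.same]
    rw [sum_j]
  diff a' h1 h2 b := by
    change X.hat τ (b * X.j (K.w a')) + X.hat τ b * X.j (K.w a') = 0
    rw [hat_j, hat_mul_j, ← sum_add_distrib]
    simp only [← mul_add, ← j_add, h.diff a' h1 h2]
    simp [j_zero]
  g c b := by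
    change X.hat τ (b * X.J (K.g c)) = X.hat τ b * X.J (K.g c)
    rw [hat_J, hat_mul_J]
    simp only [h.g]
  ε b := by
    change X.hat τ b * X.j K.ε = X.hat τ b
    rw [hat_mul_j]
    simp only [h.ε]
    rfl
  ε' b := by
    change X.hat τ (b * X.j K.ε) = X.hat τ b
    rw [hat_j]
    simp only [h.ε']
    rfl

lemma J_sum_pow (K : TW k R' L I C) (l : L) :
    ∑ i ∈ range (K.ord l), X.J (K.g (K.cl l)) ^ i =
      X.J (∑ i ∈ range (K.ord l), K.g (K.cl l) ^ i) := by
  rw [map_sum]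
  simp only [map_pow]

/-- transfer of the homotopies -/
noncomputable def htp {K : TW k R' L I C} (H : K.Htp) : (X.tw K).Htp where
  τ a := X.hat (H.τ a)
  τx i := X.isTau (H.τx i)
  τy i := X.isTau (H.τy i)
  s l := X.hat (H.s l)
  s' l := X.hat (H.s' l)
  s_ε l b := by
    change X.hat _ b * X.j K.ε = X.hat _ b
    rw [hat_mul_j]
    simp only [H.s_ε]
    rfl
  s'_ε l b := by
    change X.hat _ b * X.j K.ε = X.hat _ b
    rw [hat_mul_j]
    simp only [H.s'_ε]
    rfl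
  s_eq l b := by
    change X.hat _ b * (X.J (K.g (K.cl l)) - 1) + X.hat _ (b * ∑ i ∈ range (K.ord l),
      X.J (K.g (K.cl l)) ^ i) = b * X.j K.ε
    rw [J_sum_pow, ← map_one X.J, ← map_sub, hat_mul_J, hat_J, ← sum_add_distrib]
    simp only [← mul_add, ← j_add, H.s_eq]
    rw [sum_j]
  s'_eq l b := by
    change X.hat _ b * (∑ i ∈ range (K.ord l), X.J (K.g (K.cl l)) ^ i) +
      X.hat _ (b * (X.J (K.g (K.cl l)) - 1)) = b * X.j K.ε
    rw [J_sum_pow, ← map_one X.J, ← map_sub, hat_mul_J, hat_J, ← sum_add_distrib]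
    simp only [← mul_add, ← j_add, H.s'_eq]
    rw [sum_j]
  s_g l m h b := by
    change X.hat _ (b * X.J (K.g (K.cl m))) = X.hat _ b * X.J (K.g (K.cl m))
    rw [hat_mul_J, hat_J]
    simp only [H.s_g l m h]
  s'_g l m h b := by
    change X.hat _ (b * X.J (K.g (K.cl m))) = X.hat _ b * X.J (K.g (K.cl m))
    rw [hat_mul_J, hat_J]
    simp only [H.s'_g l m h]

/-- transfer of the complete data -/
noncomputable def twd (K : TWD k R' L I C) : TWD k R L I C where
  toTWE := X.twe K.toTWE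
  e_ε t := by
    change X.j (K.ff t) * X.j K.ε = X.j (K.ff t)
    rw [j_mul, K.e_ε]
  H := X.htp K.H

end Xfer

end Pool.Agent.H170_FG
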