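import Pool.Agent.H170_FG.Lr1

/-!
# Finite generation for a retract of the resolved module
-/

set_option linter.unusedSectionVars false

universe u

open Finset CategoryTheory CategoryTheory.Abelian DirectSum

namespace Pool.Agent.H170_FG

lemma trivMod_end {k : Type u} [Field k] {B : Type u} [Ring B] [Algebra k B]
    (eps : B →ₐ[k] k) (f : trivMod eps ⟶ trivMod eps) : ∃ r : k, f = r • 𝟙 (trivMod eps) := by
  let x1 : trivMod eps := (1 : k)
  have hx1 : ∀ c : trivMod eps, c = (algebraMap k B c) • x1 := by
    intro c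
    have key : ∀ c : k, c = eps (algebraMap k B c) * 1 := by
      intro c
      rw [mul_one]
      exact (AlgHom.commutes eps c).symm
    exact key c
  refine ⟨f x1, ?_⟩
  apply ModuleCat.hom_ext
  refine LinearMap.ext fun c => ?_
  have h1 : f.hom c = (algebraMap k B c) • f.hom x1 := by
    conv_lhs => rw [hx1 c]
    exact map_smul f.hom _ _
  rw [h1]
  have key : ∀ c d : k, eps (algebraMap k B c) * d = eps (algebraMap k B d) * c := by
    intro c d
    have h2 : ∀ a, eps (algebraMap k B a) = a := fun a => AlgHom.commutes eps a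
    rw [h2, h2, mul_comm]
  exact key c (f.hom x1)

namespace TWD

variable {k : Type u} [Field k] {R : Type u} [Ring R] [Algebra k R] {L I : Type}
    [Fintype L] [LinearOrder L] [Fintype I] [DecidableEq I] {C : Type} [CommGroup C]
    [Fintype C] [DecidableEq C] (K : TWD k R L I C)

/-- Finite generation when the trivial module is a retract of the resolved module. -/
theorem fgc_corner [Module.Finite k R] (eps : R →ₐ[k] k) {T : ModuleCat.{u} R} (A : K.Aug T)
    (i : trivMod eps ⟶ T) (p : T ⟶ trivMod eps) (hip : i ≫ p = 𝟙 (trivMod eps)) :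
    FGC k eps := by
  refine ⟨?_, ?_⟩
  · have := finite_trivMod eps
    obtain ⟨r, m, hm⟩ := exists_span (k := k) (B := R) (trivMod eps)
    obtain ⟨S, hSA, hS⟩ := (K.fam A (trivMod eps) m hm).exists_finset' (fun w x => K.dE_lam w x)
      (fun n g => (n = 0 → g = 0) ∧ ∃ x : Ext.{u} (trivMod eps) (trivMod eps) n,
        (K.tot A).cut.phi n g = (Ext.mk₀ p).comp x (zero_add _))
      (fun n => ⟨fun _ => rfl, 0, by rw [CutRes.phi_zero, Ext.comp_zero]⟩)
    exact CutRes.algebra_finiteType_corner (K.tot A).cut k _ i p hip (trivMod_end eps) S hSA hS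
  · intro M hM
    obtain ⟨r, m, hm⟩ := exists_span (k := k) (B := R) M
    obtain ⟨S, hSA, hS⟩ := (K.fam A M m hm).exists_finset' (fun w x => K.dE_lam w x)
      (fun n g => ∃ x : Ext.{u} (trivMod eps) M n,
        (K.tot A).cut.phi n g = (Ext.mk₀ p).comp x (zero_add _))
      (fun n => ⟨0, by rw [CutRes.phi_zero, Ext.comp_zero]⟩)
    exact CutRes.module_finite_corner (K.tot A).cut k _ i p hip M S hSA hS

end TWD

end Pool.Agent.H170_FG
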