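import Pool.Agent.H170_FG.Lr2

/-!
# The group algebra as a module, and its augmentation datum
-/

set_option linter.unusedSectionVars false

universe u

open Finset CategoryTheory CategoryTheory.Abelian DirectSum

namespace Pool.Agent.H170_FG

namespace Xfer

section grp

variable (k : Type u) [Field k] (Γ : Type) [Group Γ]

/-- augmentation of the group algebra -/
noncomputable def au : MonoidAlgebra k Γ →ₐ[k] k := MonoidAlgebra.lift k k Γ 1

lemma au_of (γ : Γ) : au k Γ (MonoidAlgebra.of k Γ γ) = 1 := by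
  rw [au, MonoidAlgebra.lift_of]
  rfl

variable [Fintype Γ]

/-- the norm element -/
noncomputable def nrm : MonoidAlgebra k Γ := ∑ γ, MonoidAlgebra.of k Γ γ

lemma mul_nrm (x : MonoidAlgebra k Γ) : x * nrm k Γ = au k Γ x • nrm k Γ := by
  induction x using MonoidAlgebra.induction_on with
  | of γ =>
    rw [au_of, one_smul, nrm, mul_sum]
    refine Fintype.sum_equiv (Equiv.mulLeft γ) _ _ fun γ' => ?_
    rw [← map_mul]
    rfl
  | add x y hx hy => rw [add_mul, hx, hy, map_add, add_smul]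
  | smul r x hx => rw [smul_mul_assoc, hx, map_smul, smul_smul, smul_eq_mul]

lemma au_nrm : au k Γ (nrm k Γ) = Fintype.card Γ := by
  rw [nrm, map_sum]
  simp only [au_of, sum_const, card_univ, nsmul_eq_mul, mul_one]

end grp

variable {k : Type u} [Field k] {R' R : Type u} [Ring R'] [Algebra k R'] [Ring R]
    [Algebra k R] {Γ : Type} [Group Γ] [Fintype Γ] (X : Xfer k R' R Γ)

/-- the group algebra as a module -/
noncomputable def TT (ψ : R →ₐ[k] MonoidAlgebra k Γ) : ModuleCat.{u} R :=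
  (ModuleCat.restrictScalars (ψ : R →+* MonoidAlgebra k Γ)).obj
    (ModuleCat.of (MonoidAlgebra k Γ) (MonoidAlgebra k Γ))

/-- the inclusion of the trivial module -/
noncomputable def iT (ψ : R →ₐ[k] MonoidAlgebra k Γ) (eps : R →ₐ[k] k)
    (he : ∀ r, eps r = au k Γ (ψ r)) : trivMod eps ⟶ TT ψ :=
  ModuleCat.ofHom (X := trivMod eps) (Y := TT ψ)
    { toFun := fun c => ((((Fintype.card Γ : k)⁻¹ * (show k from c) : k) • nrm k Γ :
        MonoidAlgebra k Γ))
      map_add' := fun c d => by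
        change (((Fintype.card Γ : k)⁻¹ * ((show k from c) + (show k from d)) : k) • nrm k Γ :
          MonoidAlgebra k Γ) = _
        rw [mul_add, add_smul]
        rfl
      map_smul' := fun r c => by
        change (((Fintype.card Γ : k)⁻¹ * (eps r * (show k from c)) : k) • nrm k Γ :
          MonoidAlgebra k Γ) = ψ r * (((Fintype.card Γ : k)⁻¹ * (show k from c) : k) • nrm k Γ)
        rw [mul_smul_comm, mul_nrm, smul_smul, he, mul_assoc, mul_comm (show k from c)] }

/-- the projection to the trivial module -/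
noncomputable def pT (ψ : R →ₐ[k] MonoidAlgebra k Γ) (eps : R →ₐ[k] k)
    (he : ∀ r, eps r = au k Γ (ψ r)) : TT ψ ⟶ trivMod eps :=
  ModuleCat.ofHom (X := TT ψ) (Y := trivMod eps)
    { toFun := fun c => au k Γ (show MonoidAlgebra k Γ from c)
      map_add' := fun c d => by
        change au k Γ ((show MonoidAlgebra k Γ from c) + (show MonoidAlgebra k Γ from d)) = _
        rw [map_add]
        rfl
      map_smul' := fun r c => by
        change au k Γ (ψ r * (show MonoidAlgebra k Γ from c)) = eps r * au k Γ _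
        rw [map_mul, he] }

lemma iT_pT (ψ : R →ₐ[k] MonoidAlgebra k Γ) (eps : R →ₐ[k] k)
    (he : ∀ r, eps r = au k Γ (ψ r)) (hΓ : (Fintype.card Γ : k) ≠ 0) :
    iT ψ eps he ≫ pT ψ eps he = 𝟙 (trivMod eps) := by
  apply ModuleCat.hom_ext
  refine LinearMap.ext fun c => ?_
  change au k Γ (((Fintype.card Γ : k)⁻¹ * (show k from c) : k) • nrm k Γ) = c
  rw [map_smul, au_nrm, smul_eq_mul, mul_comm (Fintype.card Γ : k)⁻¹, mul_assoc,
    inv_mul_cancel₀ hΓ, mul_one]

variable {L I : Type}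
    [Fintype L] [LinearOrder L] [Fintype I] [DecidableEq I] {C : Type} [CommGroup C]
    [Fintype C] [DecidableEq C]

lemma of_coeff {f : Γ → k} (h : ∑ γ, f γ • MonoidAlgebra.of k Γ γ = 0) (γ : Γ) : f γ = 0 := by
  classical
  have h1 := congrArg (fun x => x.coeff γ) h
  simp only [MonoidAlgebra.coeff_sum, MonoidAlgebra.of_apply, MonoidAlgebra.coeff_smul,
    MonoidAlgebra.coeff_single, Finsupp.finset_sum_apply, Finsupp.smul_apply,
    Finsupp.single_apply, smul_eq_mul, mul_ite, mul_one, mul_zero, Finset.sum_ite_eq', mem_univ,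
    if_true, MonoidAlgebra.coeff_zero, Finsupp.coe_zero, Pi.zero_apply] at h1
  exact h1

/-- the augmentation datum -/
noncomputable def aug (K : TWD k R' L I C) (ψ : R →ₐ[k] MonoidAlgebra k Γ) (eps' : R' →ₐ[k] k)
    (hJ : ∀ r, ψ (X.J r) = algebraMap k _ (eps' r)) (hδ : ψ X.δ = 1)
    (hu : ∀ γ, ψ (X.u γ) = MonoidAlgebra.of k Γ γ)
    (he : eps' (K.e 1) = 1) (hg : ∀ l, eps' (K.g (K.cl l)) = 1)
    (hw : ∀ a, eps' (K.w a) = 0)
    (hs : ∀ b : R', eps' b = 0 → ∃ (bw : I ⊕ I → R') (bl : L → R'),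
      b * K.e 1 = ∑ l, bl l * (K.g (K.cl l) - 1) + ∑ a, bw a * K.w a) :
    (X.twd K).Aug (TT ψ) where
  t0 := (1 : MonoidAlgebra k Γ)
  e_t0 := by
    change ψ (X.J (K.e 1) * X.δ) * (1 : MonoidAlgebra k Γ) = 1
    rw [map_mul, hJ, hδ, he, map_one, mul_one, mul_one]
  g_t0 l := by
    change ψ (X.J (K.g (K.cl l))) * (1 : MonoidAlgebra k Γ) = 1
    rw [hJ, hg, map_one, mul_one]
  w_t0 a := by
    change ψ (X.J (K.w a) * X.δ) * (1 : MonoidAlgebra k Γ) = 0
    rw [map_mul, hJ, hw, map_zero, zero_mul, zero_mul]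
  surj t := by
    have h1 : Function.Surjective ψ := by
      intro x
      induction x using MonoidAlgebra.induction_on with
      | of γ => exact ⟨X.u γ, hu γ⟩
      | add x y hx hy =>
        obtain ⟨a, rfl⟩ := hx
        obtain ⟨b, rfl⟩ := hy
        exact ⟨a + b, map_add _ _ _⟩
      | smul r x hx =>
        obtain ⟨a, rfl⟩ := hx
        exact ⟨r • a, map_smul _ _ _⟩
    obtain ⟨b, hb⟩ := h1 t
    refine ⟨b, ?_⟩
    change ψ b * (1 : MonoidAlgebra k Γ) = t
    rw [mul_one, hb]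
  span b hb := by
    have hb1 : ψ b = 0 := by
      have : ψ b * (1 : MonoidAlgebra k Γ) = 0 := hb
      rwa [mul_one] at this
    have h1 : ∑ γ, eps' (X.π γ b) • MonoidAlgebra.of k Γ γ = 0 := by
      have h2 := congrArg ψ (X.sum_πj b)
      rw [map_mul, hδ, hb1, zero_mul, map_sum] at h2
      rw [← h2]
      refine sum_congr rfl fun γ _ => ?_
      rw [map_mul, hu, j, map_mul, hJ, hδ, mul_one, ← Algebra.commutes, Algebra.smul_def]
    choose bw bl hbl using fun γ => hs (X.π γ b) (of_coeff h1 γ)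
    refine ⟨fun a => ∑ γ, X.u γ * X.j (bw γ a), fun l => ∑ γ, X.u γ * X.j (bl γ l), ?_⟩
    change b * X.j (K.e 1) = ∑ l, (∑ γ, X.u γ * X.j (bl γ l)) * (X.J (K.g (K.cl l)) - 1) +
      ∑ a, (∑ γ, X.u γ * X.j (bw γ a)) * X.j (K.w a)
    rw [← sum_j]
    simp only [hbl, j_add, j_sum, mul_add, mul_sum, sum_mul, sum_add_distrib]
    rw [sum_comm, sum_comm (s := univ (α := Γ))]
    congr 1
    · refine sum_congr rfl fun l _ => sum_congr rfl fun γ _ => ?_
      rw [mul_assoc, mul_sub (X.j _), mul_one, j_J, ← j_sub, ← mul_sub_one]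
    · refine sum_congr rfl fun l _ => sum_congr rfl fun γ _ => ?_
      rw [mul_assoc, j_mul]

/-- The finite generation theorem for `R`. -/
theorem fgc [Module.Finite k R] (K : TWD k R' L I C) (ψ : R →ₐ[k] MonoidAlgebra k Γ)
    (eps' : R' →ₐ[k] k)
    (hJ : ∀ r, ψ (X.J r) = algebraMap k _ (eps' r)) (hδ : ψ X.δ = 1)
    (hu : ∀ γ, ψ (X.u γ) = MonoidAlgebra.of k Γ γ)
    (he : eps' (K.e 1) = 1) (hg : ∀ l, eps' (K.g (K.cl l)) = 1)
    (hw : ∀ a, eps' (K.w a) = 0)
    (hs : ∀ b : R', eps' b = 0 → ∃ (bw : I ⊕ I → R') (bl : L → R'),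
      b * K.e 1 = ∑ l, bl l * (K.g (K.cl l) - 1) + ∑ a, bw a * K.w a)
    (eps : R →ₐ[k] k) (heps : ∀ r, eps r = au k Γ (ψ r)) (hΓ : (Fintype.card Γ : k) ≠ 0) :
    FGC k eps :=
  (X.twd K).fgc_corner eps (X.aug K ψ eps' hJ hδ hu he hg hw hs) (iT ψ eps heps)
    (pT ψ eps heps) (iT_pT ψ eps heps hΓ)

end Xfer

end Pool.Agent.H170_FG
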