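import Pool.Agent.H170_FG.Dbl3

/-!
# Smash products with groups, and their doubles
-/

set_option linter.unusedSectionVars false

universe u

open Finset TensorProduct Module

namespace Pool.Agent.H170_FG

/-- `H` is the smash product of the bialgebra `H'` with the group `Γ`. -/
structure Sm (k : Type u) [Field k] (H' H : Type u) [Ring H'] [Bialgebra k H'] [Ring H]
    [Bialgebra k H] (Γ : Type) [Group Γ] [Fintype Γ] [DecidableEq Γ] where
  ι : H' →ₐ[k] H
  u : Γ → H
  q : Γ → H →ₗ[k] H'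
  u_one : u 1 = 1
  u_mul : ∀ γ γ', u γ * u γ' = u (γ * γ')
  q_u : ∀ γ γ' y, q γ (u γ' * ι y) = if γ = γ' then y else 0
  sum_q : ∀ h, ∑ γ, u γ * ι (q γ h) = h
  norm : ∀ y γ, ∃ y', ι y * u γ = u γ * ι y'
  comul_ι : ∀ y, Coalgebra.comul (R := k) (ι y) =
    TensorProduct.map ι.toLinearMap ι.toLinearMap (Coalgebra.comul (R := k) y)
  counit_ι : ∀ y, Coalgebra.counit (R := k) (ι y) = Coalgebra.counit (R := k) y
  comul_u : ∀ γ, Coalgebra.comul (R := k) (u γ) = u γ ⊗ₜ[k] u γ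
  counit_u : ∀ γ, Coalgebra.counit (R := k) (u γ) = 1

section cv

variable {k : Type u} [Field k] {H : Type u} [Ring H] [Bialgebra k H]

lemma conv_counit_l (p : Dual k H) : conv Coalgebra.counit p = p := by
  ext y
  have h1 : ∀ t : H ⊗[k] H, LinearMap.mul' k k (TensorProduct.map Coalgebra.counit p t) =
      p (TensorProduct.lid k H ((Coalgebra.counit (R := k) (A := H)).rTensor H t)) := by
    intro t
    induction t using TensorProduct.induction_on with
    | zero => simp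
    | add a b ha hb => simp only [map_add, ha, hb]
    | tmul a b => simp
  change LinearMap.mul' k k (TensorProduct.map Coalgebra.counit p (Coalgebra.comul y)) = p y
  rw [h1, Coalgebra.rTensor_counit_comul, TensorProduct.lid_tmul, one_smul]

lemma conv_counit_r (p : Dual k H) : conv p Coalgebra.counit = p := by
  ext y
  have h1 : ∀ t : H ⊗[k] H, LinearMap.mul' k k (TensorProduct.map p Coalgebra.counit t) =
      p (TensorProduct.rid k H ((Coalgebra.counit (R := k) (A := H)).lTensor H t)) := by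
    intro t
    induction t using TensorProduct.induction_on with
    | zero => simp
    | add a b ha hb => simp only [map_add, ha, hb]
    | tmul a b => simp [mul_comm]
  change LinearMap.mul' k k (TensorProduct.map p Coalgebra.counit (Coalgebra.comul y)) = p y
  rw [h1, Coalgebra.lTensor_counit_comul, TensorProduct.rid_tmul, one_smul]

end cv

namespace Sm

variable {k : Type u} [Field k] {H' H : Type u} [Ring H'] [Bialgebra k H'] [Ring H]
    [Bialgebra k H] {Γ : Type} [Group Γ] [Fintype Γ] [DecidableEq Γ] (X : Sm k H' H Γ)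

/-- the conjugation -/
noncomputable def al (γ : Γ) (y : H') : H' := X.q γ (X.ι y * X.u γ)

lemma ι_u (γ : Γ) (y : H') : X.ι y * X.u γ = X.u γ * X.ι (X.al γ y) := by
  obtain ⟨y', h⟩ := X.norm y γ
  rw [al, h, X.q_u, if_pos rfl]

lemma al_one (y : H') : X.al 1 y = y := by
  have h : X.ι y * X.u 1 = X.u 1 * X.ι y := by rw [X.u_one, mul_one, one_mul]
  rw [al, h, X.q_u, if_pos rfl]

include X in
lemma ind {P : H → Prop} (h0 : P 0) (ha : ∀ a b, P a → P b → P (a + b))
    (hb : ∀ γ y, P (X.u γ * X.ι y)) (h : H) : P h := by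
  rw [← X.sum_q h]
  exact Finset.sum_induction _ P ha h0 fun γ _ => hb γ _

include X in
lemma lext {V : Type*} [AddCommGroup V] [Module k V] {f g : H →ₗ[k] V}
    (h : ∀ γ y, f (X.u γ * X.ι y) = g (X.u γ * X.ι y)) : f = g := by
  ext z
  refine X.ind (P := fun z => f z = g z) (by simp)
    (fun a b ha hb => by rw [map_add, map_add, ha, hb]) h z

lemma u_ι_mul (γ γ' : Γ) (y y' : H') :
    X.u γ * X.ι y * (X.u γ' * X.ι y') = X.u (γ * γ') * X.ι (X.al γ' y * y') := by
  rw [mul_assoc, ← mul_assoc (X.ι y), ι_u, mul_assoc (X.u γ'), ← map_mul, ← mul_assoc, X.u_mul]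

lemma q_mul_ι (γ : Γ) (h : H) (y : H') : X.q γ (h * X.ι y) = X.q γ h * y := by
  refine X.ind (P := fun h => X.q γ (h * X.ι y) = X.q γ h * y) (by simp) ?_ ?_ h
  · intro a b ha hb
    rw [add_mul, map_add, map_add, ha, hb, add_mul]
  · intro γ' y'
    rw [mul_assoc, ← map_mul, X.q_u, X.q_u]
    split_ifs <;> simp

lemma q1_ι_mul (h : H) (y : H') : X.q 1 (X.ι y * h) = y * X.q 1 h := by
  refine X.ind (P := fun h => X.q 1 (X.ι y * h) = y * X.q 1 h) (by simp) ?_ ?_ h
  · intro a b ha hb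
    rw [mul_add, map_add, map_add, ha, hb, mul_add]
  · intro γ' y'
    rw [← mul_assoc, ι_u, mul_assoc, ← map_mul, X.q_u, X.q_u]
    split_ifs with h
    · rw [← h, al_one]
    · rw [mul_zero]

lemma counit_al (γ : Γ) (y : H') :
    Coalgebra.counit (R := k) (X.al γ y) = Coalgebra.counit (R := k) y := by
  have h := congrArg (Coalgebra.counit (R := k)) (X.ι_u γ y)
  rw [Bialgebra.counit_mul, Bialgebra.counit_mul, X.counit_u, X.counit_ι, X.counit_ι, mul_one,
    one_mul] at h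
  exact h.symm

lemma counit_q1_conj (γ : Γ) (z : H) : Coalgebra.counit (R := k) (X.q 1 (X.u γ⁻¹ * z * X.u γ)) =
    Coalgebra.counit (R := k) (X.q 1 z) := by
  refine X.ind (P := fun z => Coalgebra.counit (R := k) (X.q 1 (X.u γ⁻¹ * z * X.u γ)) =
    Coalgebra.counit (R := k) (X.q 1 z)) (by simp) ?_ ?_ z
  · intro a b ha hb
    rw [mul_add, add_mul, map_add, map_add, ha, hb, map_add, map_add]
  · intro γ' y'
    rw [← mul_assoc, X.u_mul, mul_assoc, ι_u, ← mul_assoc, X.u_mul, X.q_u, X.q_u]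
    by_cases h : (1 : Γ) = γ'
    · rw [if_pos h, if_pos (by rw [← h]; group), counit_al]
    · rw [if_neg h, if_neg]
      intro h'
      apply h
      have : γ' = γ * (γ⁻¹ * γ' * γ) * γ⁻¹ := by group
      rw [this, ← h']
      group

/-- extension by zero of a functional -/
noncomputable def ex (p : Dual k H') : Dual k H := p ∘ₗ X.q 1

lemma ex_apply (p : Dual k H') (h : H) : X.ex p h = p (X.q 1 h) := rfl

lemma ex_u (p : Dual k H') (γ : Γ) (y : H') :
    X.ex p (X.u γ * X.ι y) = if (1 : Γ) = γ then p y else 0 := by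
  rw [ex_apply, X.q_u]
  split_ifs <;> simp

lemma ex_ι (p : Dual k H') : X.ex p ∘ₗ X.ι.toLinearMap = p := by
  ext y
  have h : X.ι y = X.u 1 * X.ι y := by rw [X.u_one, one_mul]
  rw [LinearMap.comp_apply, AlgHom.toLinearMap_apply, h, ex_u, if_pos rfl]

lemma ex_mulLeft (p : Dual k H') (b : H') :
    X.ex p ∘ₗ LinearMap.mulLeft k (X.ι b) = X.ex (p ∘ₗ LinearMap.mulLeft k b) := by
  ext z
  change p (X.q 1 (X.ι b * z)) = p (b * X.q 1 z)
  rw [q1_ι_mul]

lemma ex_mulRight (p : Dual k H') (b : H') :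
    X.ex p ∘ₗ LinearMap.mulRight k (X.ι b) = X.ex (p ∘ₗ LinearMap.mulRight k b) := by
  ext z
  change p (X.q 1 (z * X.ι b)) = p (X.q 1 z * b)
  rw [q_mul_ι]

lemma conv_u_ι (p r : Dual k H) (γ : Γ) (y : H') : conv p r (X.u γ * X.ι y) =
    LinearMap.mul' k k (TensorProduct.map (p ∘ₗ LinearMap.mulLeft k (X.u γ) ∘ₗ X.ι.toLinearMap)
      (r ∘ₗ LinearMap.mulLeft k (X.u γ) ∘ₗ X.ι.toLinearMap) (Coalgebra.comul y)) := by
  change LinearMap.mul' k k (TensorProduct.map p r (Coalgebra.comul (X.u γ * X.ι y))) = _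
  rw [Bialgebra.comul_mul, X.comul_u, X.comul_ι]
  generalize Coalgebra.comul (R := k) y = t
  induction t using TensorProduct.induction_on with
  | zero => simp
  | add a b ha hb => rw [map_add, mul_add, map_add, map_add, ha, hb, map_add, map_add]
  | tmul a b => simp

lemma conv_ex (p : Dual k H) (p' : Dual k H') :
    conv p (X.ex p') = X.ex (conv (p ∘ₗ X.ι.toLinearMap) p') := by
  refine X.lext fun γ y => ?_
  rw [conv_u_ι, ex_u]
  have h1 : X.ex p' ∘ₗ LinearMap.mulLeft k (X.u γ) ∘ₗ X.ι.toLinearMap =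
      if (1 : Γ) = γ then p' else 0 := by
    ext z
    change X.ex p' (X.u γ * X.ι z) = _
    rw [ex_u]
    split_ifs <;> rfl
  rw [h1]
  split_ifs with h
  · subst h
    rw [X.u_one]
    have h2 : p ∘ₗ LinearMap.mulLeft k (1 : H) ∘ₗ X.ι.toLinearMap = p ∘ₗ X.ι.toLinearMap := by
      ext z
      simp
    rw [h2]
    rfl
  · simp

lemma ex_conv (p : Dual k H) (p' : Dual k H') :
    conv (X.ex p') p = X.ex (conv p' (p ∘ₗ X.ι.toLinearMap)) := by
  refine X.lext fun γ y => ?_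
  rw [conv_u_ι, ex_u]
  have h1 : X.ex p' ∘ₗ LinearMap.mulLeft k (X.u γ) ∘ₗ X.ι.toLinearMap =
      if (1 : Γ) = γ then p' else 0 := by
    ext z
    change X.ex p' (X.u γ * X.ι z) = _
    rw [ex_u]
    split_ifs <;> rfl
  rw [h1]
  split_ifs with h
  · subst h
    rw [X.u_one]
    have h2 : p ∘ₗ LinearMap.mulLeft k (1 : H) ∘ₗ X.ι.toLinearMap = p ∘ₗ X.ι.toLinearMap := by
      ext z
      simp
    rw [h2]
    rfl
  · simp

lemma ex_conv_ex (p p' : Dual k H') : conv (X.ex p) (X.ex p') = X.ex (conv p p') := by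
  rw [conv_ex, ex_ι]

/-- the functional defining the idempotent -/
noncomputable def d1 : Dual k H := X.ex Coalgebra.counit

lemma conv_d1 (p : Dual k H) : conv p X.d1 = X.ex (p ∘ₗ X.ι.toLinearMap) := by
  rw [d1, conv_ex, conv_counit_r]

lemma d1_conv (p : Dual k H) : conv X.d1 p = X.ex (p ∘ₗ X.ι.toLinearMap) := by
  rw [d1, ex_conv, conv_counit_l]

/-- the idempotent -/
noncomputable def δ : Dbl k H := Dbl.iD k H X.d1

lemma δ_idem : X.δ * X.δ = X.δ := by
  rw [δ, ← Dbl.iD_conv, conv_d1, d1, ex_ι]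

lemma δ_iD (p : Dual k H) : X.δ * Dbl.iD k H p = Dbl.iD k H p * X.δ := by
  rw [δ, ← Dbl.iD_conv, ← Dbl.iD_conv, conv_d1, d1_conv]

lemma iD_δ (p : Dual k H) : Dbl.iD k H p * X.δ = Dbl.iD k H (X.ex (p ∘ₗ X.ι.toLinearMap)) := by
  rw [δ, ← Dbl.iD_conv, conv_d1]

lemma iD_ex_δ (p : Dual k H') : Dbl.iD k H (X.ex p) * X.δ = Dbl.iD k H (X.ex p) := by
  rw [iD_δ, ex_ι]

lemma δ_iD_ex (p : Dual k H') : X.δ * Dbl.iD k H (X.ex p) = Dbl.iD k H (X.ex p) := by
  rw [δ_iD, iD_ex_δ]

lemma cross_u (p : Dual k H) (γ : Γ) :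
    Dbl.iH k H (X.u γ) * Dbl.iD k H (p ∘ₗ LinearMap.mulLeft k (X.u γ)) =
      Dbl.iD k H (p ∘ₗ LinearMap.mulRight k (X.u γ)) * Dbl.iH k H (X.u γ) := by
  have := Dbl.cross k H p (X.u γ) (fun _ : Fin 1 => X.u γ) (fun _ => X.u γ) (by simp [X.comul_u])
  simpa using this

lemma iD_u (p : Dual k H) (γ : Γ) : Dbl.iD k H p * Dbl.iH k H (X.u γ) =
    Dbl.iH k H (X.u γ) * Dbl.iD k H (p ∘ₗ LinearMap.mulRight k (X.u γ⁻¹) ∘ₗ
      LinearMap.mulLeft k (X.u γ)) := by
  have h := X.cross_u (p ∘ₗ LinearMap.mulRight k (X.u γ⁻¹)) γ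
  have h1 : (p ∘ₗ LinearMap.mulRight k (X.u γ⁻¹)) ∘ₗ LinearMap.mulRight k (X.u γ) = p := by
    ext z
    change p (z * X.u γ * X.u γ⁻¹) = p z
    rw [mul_assoc, X.u_mul, mul_inv_cancel, X.u_one, mul_one]
  rw [h1] at h
  rw [← h]
  rfl

lemma δ_u (γ : Γ) : X.δ * Dbl.iH k H (X.u γ) = Dbl.iH k H (X.u γ) * X.δ := by
  rw [δ, iD_u]
  congr 2
  ext z
  change Coalgebra.counit (R := k) (X.q 1 (X.u γ * z * X.u γ⁻¹)) = _
  have := X.counit_q1_conj γ⁻¹ z
  rw [inv_inv] at this
  exact this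

lemma exists_rep (y : H') : ∃ (m : ℕ) (a b : Fin m → H'),
    ∑ i, a i ⊗ₜ[k] b i = Coalgebra.comul (R := k) y := by
  obtain ⟨s, hs⟩ := TensorProduct.exists_finset (R := k) (Coalgebra.comul (R := k) y)
  refine ⟨s.card, fun i => (s.equivFin.symm i).1.1, fun i => (s.equivFin.symm i).1.2, ?_⟩
  rw [hs, ← Finset.sum_coe_sort s]
  exact Fintype.sum_equiv s.equivFin.symm _ _ fun i => rfl

lemma comul_ι_rep {y : H'} {m : ℕ} {a b : Fin m → H'}
    (h : ∑ i, a i ⊗ₜ[k] b i = Coalgebra.comul (R := k) y) :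
    ∑ i, X.ι (a i) ⊗ₜ[k] X.ι (b i) = Coalgebra.comul (R := k) (X.ι y) := by
  rw [X.comul_ι, ← h, map_sum]
  rfl

lemma cross_ex (p : Dual k H') (y : H') {m : ℕ} (a b : Fin m → H')
    (hab : ∑ i, a i ⊗ₜ[k] b i = Coalgebra.comul (R := k) y) :
    ∑ i, Dbl.iH k H (X.ι (a i)) * Dbl.iD k H (X.ex (p ∘ₗ LinearMap.mulLeft k (b i))) =
      ∑ i, Dbl.iD k H (X.ex (p ∘ₗ LinearMap.mulRight k (a i))) * Dbl.iH k H (X.ι (b i)) := by
  have := Dbl.cross k H (X.ex p) (X.ι y) (fun i => X.ι (a i)) (fun i => X.ι (b i))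
    (X.comul_ι_rep hab)
  simpa only [ex_mulLeft, ex_mulRight] using this

lemma sum_counit_l {y : H'} {m : ℕ} {a b : Fin m → H'}
    (hab : ∑ i, a i ⊗ₜ[k] b i = Coalgebra.comul (R := k) y) :
    ∑ i, (Coalgebra.counit (R := k) (a i)) • b i = y := by
  have h1 := congrArg (fun t => (TensorProduct.lid k H'
      ((Coalgebra.counit (R := k) (A := H')).rTensor H' t))) hab
  simp only [map_sum, LinearMap.rTensor_tmul, TensorProduct.lid_tmul,
      Coalgebra.rTensor_counit_comul, one_smul] at h1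
  exact h1

lemma sum_counit_r {y : H'} {m : ℕ} {a b : Fin m → H'}
    (hab : ∑ i, a i ⊗ₜ[k] b i = Coalgebra.comul (R := k) y) :
    ∑ i, (Coalgebra.counit (R := k) (b i)) • a i = y := by
  have h1 := congrArg (fun t => (TensorProduct.rid k H'
      ((Coalgebra.counit (R := k) (A := H')).lTensor H' t))) hab
  simp only [map_sum, LinearMap.lTensor_tmul, TensorProduct.rid_tmul,
      Coalgebra.lTensor_counit_comul, one_smul] at h1
  exact h1

lemma δ_ι (y : H') : X.δ * Dbl.iH k H (X.ι y) = Dbl.iH k H (X.ι y) * X.δ := by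
  obtain ⟨m, a, b, hab⟩ := exists_rep (k := k) y
  have h := X.cross_ex Coalgebra.counit y a b hab
  have h1 : ∀ i, (Coalgebra.counit (R := k) (A := H')) ∘ₗ LinearMap.mulLeft k (b i) =
      (Coalgebra.counit (R := k) (b i)) • Coalgebra.counit := by
    intro i
    ext z
    simp
  have h2 : ∀ i, (Coalgebra.counit (R := k) (A := H')) ∘ₗ LinearMap.mulRight k (a i) =
      (Coalgebra.counit (R := k) (a i)) • Coalgebra.counit := by
    intro i
    ext z
    simp [mul_comm]
  have h3 : ∀ (r : k) (p : Dual k H'), Dbl.iD k H (X.ex (r • p)) = r • Dbl.iD k H (X.ex p) := by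
    intro r p
    rw [← map_smul]
    rfl
  simp only [h1, h2, h3] at h
  have h4 : ∑ i, Dbl.iH k H (X.ι (a i)) * (Coalgebra.counit (R := k) (b i)) • X.δ =
      Dbl.iH k H (X.ι y) * X.δ := by
    conv_rhs => rw [← sum_counit_r hab]
    rw [map_sum, map_sum, sum_mul]
    refine sum_congr rfl fun i _ => ?_
    rw [map_smul, map_smul, mul_smul_comm, smul_mul_assoc]
  have h5 : ∑ i, ((Coalgebra.counit (R := k) (a i)) • X.δ) * Dbl.iH k H (X.ι (b i)) =
      X.δ * Dbl.iH k H (X.ι y) := by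
    conv_rhs => rw [← sum_counit_l hab]
    rw [map_sum, map_sum, mul_sum]
    refine sum_congr rfl fun i _ => ?_
    rw [map_smul, map_smul, mul_smul_comm, smul_mul_assoc]
  rw [← h4, ← h5]
  exact h.symm

lemma δ_iH (h : H) : X.δ * Dbl.iH k H h = Dbl.iH k H h * X.δ := by
  refine X.ind (P := fun h => X.δ * Dbl.iH k H h = Dbl.iH k H h * X.δ) (by simp) ?_ ?_ h
  · intro a b ha hb
    rw [map_add, mul_add, add_mul, ha, hb]
  · intro γ y
    rw [map_mul, ← mul_assoc, δ_u, mul_assoc, δ_ι, mul_assoc]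

/-- the map on `H'` -/
noncomputable def JL (y : H') : Dbl k H :=
  Dbl.iH k H (X.ι y) * X.δ + (Coalgebra.counit (R := k) y) • (1 - X.δ)

/-- the map on the dual of `H'` -/
noncomputable def JR (p : Dual k H') : Dbl k H := Dbl.iD k H (X.ex p) + p 1 • (1 - X.δ)

lemma δδ' : X.δ * (1 - X.δ) = 0 := by rw [mul_sub, mul_one, δ_idem, sub_self]
lemma δ'δ : (1 - X.δ) * X.δ = 0 := by rw [sub_mul, one_mul, δ_idem, sub_self]
lemma δ'δ' : (1 - X.δ) * (1 - X.δ) = 1 - X.δ := by
  rw [mul_sub, mul_one, δ'δ, sub_zero]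

lemma JL_mul_JR (y : H') (p : Dual k H') : X.JL y * X.JR p =
    Dbl.iH k H (X.ι y) * Dbl.iD k H (X.ex p) +
      ((Coalgebra.counit (R := k) y) * p 1) • (1 - X.δ) := by
  have h1 : (1 - X.δ) * Dbl.iD k H (X.ex p) = 0 := by
    rw [sub_mul, one_mul, δ_iD_ex, sub_self]
  rw [JL, JR, add_mul, mul_add, mul_add, mul_assoc, δ_iD_ex, mul_smul_comm, mul_assoc, δδ',
    mul_zero, smul_zero, add_zero, smul_mul_assoc, h1, smul_zero, zero_add, smul_mul_assoc,
    mul_smul_comm, δ'δ', smul_smul]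

lemma JR_mul_JL (y : H') (p : Dual k H') : X.JR p * X.JL y =
    Dbl.iD k H (X.ex p) * Dbl.iH k H (X.ι y) +
      (p 1 * (Coalgebra.counit (R := k) y)) • (1 - X.δ) := by
  have h1 : Dbl.iD k H (X.ex p) * (1 - X.δ) = 0 := by
    rw [mul_sub, mul_one, iD_ex_δ, sub_self]
  rw [JL, JR, add_mul, mul_add, mul_add, ← δ_ι, ← mul_assoc, iD_ex_δ, mul_smul_comm, h1,
    smul_zero, add_zero, smul_mul_assoc, ← mul_assoc, δ'δ, zero_mul, smul_zero, zero_add,
    smul_mul_assoc, mul_smul_comm, δ'δ', smul_smul]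

theorem Jrels : Dbl.DRels (k := k) (H := H') X.JL X.JR where
  l_add y y' := by
    rw [JL, map_add, map_add, add_mul, map_add, add_smul, JL, JL]
    abel
  l_smul r y := by
    rw [JL, map_smul, map_smul, smul_mul_assoc, map_smul, smul_assoc, ← smul_add]
    rfl
  l_mul y y' := by
    rw [JL, JL, JL, map_mul, map_mul, Bialgebra.counit_mul, add_mul, mul_add, mul_add,
      mul_smul_comm, smul_mul_assoc, smul_mul_assoc, mul_smul_comm, δ'δ', smul_smul,
      mul_assoc _ X.δ, ← mul_assoc X.δ, δ_ι, mul_assoc _ X.δ X.δ, δ_idem, mul_assoc _ X.δ, δδ',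
      mul_zero, smul_zero, add_zero, ← mul_assoc (1 - X.δ)]
    have h1 : (1 - X.δ) * Dbl.iH k H (X.ι y') * X.δ = 0 := by
      rw [sub_mul, one_mul, δ_ι, sub_mul, mul_assoc _ X.δ X.δ, δ_idem, sub_self]
    rw [h1, smul_zero, zero_add, mul_assoc]
  l_one := by
    rw [JL, map_one, map_one, one_mul, Bialgebra.counit_one, one_smul]
    abel
  r_add p p' := by
    have h : X.ex (p + p') = X.ex p + X.ex p' := rfl
    rw [JR, h, map_add, LinearMap.add_apply, add_smul, JR, JR]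
    abel
  r_smul r p := by
    have h : X.ex (r • p) = r • X.ex p := rfl
    rw [JR, h, map_smul, LinearMap.smul_apply, smul_assoc, ← smul_add]
    rfl
  r_mul p p' := by
    have h1 : (1 - X.δ) * Dbl.iD k H (X.ex p') = 0 := by
      rw [sub_mul, one_mul, δ_iD_ex, sub_self]
    have h2 : Dbl.iD k H (X.ex p) * (1 - X.δ) = 0 := by
      rw [mul_sub, mul_one, iD_ex_δ, sub_self]
    have h3 : conv p p' 1 = p 1 * p' 1 := by
      change LinearMap.mul' k k (TensorProduct.map p p' (Coalgebra.comul 1)) = _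
      rw [Bialgebra.comul_one, Algebra.TensorProduct.one_def]
      simp
    rw [JR, JR, JR, add_mul, mul_add, mul_add, ← Dbl.iD_conv, ex_conv_ex, mul_smul_comm, h2,
      smul_zero, add_zero, smul_mul_assoc, h1, smul_zero, zero_add, smul_mul_assoc,
      mul_smul_comm, δ'δ', smul_smul, h3]
  r_one := by
    rw [JR, Bialgebra.counit_one, one_smul]
    change X.δ + (1 - X.δ) = 1
    abel
  cross p y m a b hab := by
    simp only [JL_mul_JR, JR_mul_JL, sum_add_distrib]
    rw [X.cross_ex p y a b hab]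
    congr 1
    rw [← sum_smul, ← sum_smul]
    congr 1
    have h1 : ∑ i, (Coalgebra.counit (R := k) (a i)) * (p ∘ₗ LinearMap.mulLeft k (b i)) 1 = p y := by
      conv_rhs => rw [← sum_counit_l hab]
      rw [map_sum]
      refine sum_congr rfl fun i _ => ?_
      rw [map_smul]
      simp
    have h2 : ∑ i, (p ∘ₗ LinearMap.mulRight k (a i)) 1 * (Coalgebra.counit (R := k) (b i)) = p y := by
      conv_rhs => rw [← sum_counit_r hab]
      rw [map_sum]
      refine sum_congr rfl fun i _ => ?_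
      rw [map_smul]
      simp [mul_comm]
    rw [h1, h2]

/-- the homomorphism of doubles -/
noncomputable def J : Dbl k H' →ₐ[k] Dbl k H := Dbl.lift X.Jrels

lemma J_iH (y : H') : X.J (Dbl.iH k H' y) = X.JL y := Dbl.lift_iH _ _

lemma J_iD (p : Dual k H') : X.J (Dbl.iD k H' p) = X.JR p := Dbl.lift_iD _ _

end Sm

end Pool.Agent.H170_FG
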