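import Pool.Agent.H170_FG.Lr4
import Pool.Agent.H170_FG.Lr3

/-!
# The double of a smash product as a module over the small double
-/

set_option linter.unusedSectionVars false

universe u

open Finset TensorProduct Module

namespace Pool.Agent.H170_FG

namespace Dbl

variable {k : Type u} [Field k] {H : Type u} [Ring H] [Bialgebra k H]

/-- The multiplication map. -/
noncomputable def pb (k : Type u) [Field k] (H : Type u) [Ring H] [Bialgebra k H] :
    Dual k H ⊗[k] H →ₗ[k] Dbl k H :=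
  TensorProduct.lift (LinearMap.mk₂ k (fun p h => iD k H p * iH k H h)
    (fun a b c => by rw [map_add, add_mul])
    (fun r a b => by rw [map_smul, smul_mul_assoc])
    (fun a b c => by rw [map_add, mul_add])
    (fun r a b => by rw [map_smul, mul_smul_comm]))

lemma pb_tmul (p : Dual k H) (h : H) : pb k H (p ⊗ₜ[k] h) = iD k H p * iH k H h := by
  simp [pb]

lemma iD_add_left (p : Dual k H) (a b : H) : iD k H (p ∘ₗ LinearMap.mulLeft k (a + b)) =
    iD k H (p ∘ₗ LinearMap.mulLeft k a) + iD k H (p ∘ₗ LinearMap.mulLeft k b) := by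
  rw [← map_add]
  congr 1
  ext y
  simp [add_mul]

lemma iD_smul_left (p : Dual k H) (r : k) (b : H) : iD k H (p ∘ₗ LinearMap.mulLeft k (r • b)) =
    r • iD k H (p ∘ₗ LinearMap.mulLeft k b) := by
  rw [← map_smul]
  congr 1
  ext y
  simp

/-- auxiliary trilinear map -/
noncomputable def G3 (z0 : H →ₗ[k] H) (p : Dual k H) : H ⊗[k] (H ⊗[k] H) →ₗ[k] Dbl k H :=
  TensorProduct.lift (LinearMap.mk₂ k
    (fun a (t : H ⊗[k] H) => iH k H a * iD k H (p ∘ₗ LinearMap.mulLeft k
      (LinearMap.mul' k H (z0.rTensor H (TensorProduct.comm k H H t)))))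
    (fun a b c => by rw [map_add, add_mul])
    (fun r a b => by rw [map_smul, smul_mul_assoc])
    (fun a b c => by rw [map_add, map_add, map_add, iD_add_left, mul_add])
    (fun r a b => by rw [map_smul, map_smul, map_smul, iD_smul_left, mul_smul_comm]))

lemma G3_tmul (z0 : H →ₗ[k] H) (p : Dual k H) (a : H) (t : H ⊗[k] H) :
    G3 z0 p (a ⊗ₜ[k] t) = iH k H a * iD k H (p ∘ₗ LinearMap.mulLeft k
      (LinearMap.mul' k H (z0.rTensor H (TensorProduct.comm k H H t)))) := by
  simp [G3]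

lemma exists_rep' (y : H) : ∃ (m : ℕ) (a b : Fin m → H),
    ∑ i, a i ⊗ₜ[k] b i = Coalgebra.comul (R := k) y := Sm.exists_rep y

lemma G3_mem (z0 : H →ₗ[k] H) (p : Dual k H) (X : H ⊗[k] H) :
    G3 z0 p (TensorProduct.assoc k H H H (Coalgebra.comul.rTensor H X)) ∈
      LinearMap.range (pb k H) := by
  induction X using TensorProduct.induction_on with
  | zero => simp
  | add X X' h h' =>
    rw [map_add, map_add, map_add]
    exact Submodule.add_mem _ h h'
  | tmul a b =>
    obtain ⟨m, c, d, hab⟩ := exists_rep' (k := k) a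
    have h1 := cross k H (p ∘ₗ LinearMap.mulLeft k (z0 b)) a c d hab
    rw [LinearMap.rTensor_tmul, ← hab, sum_tmul, map_sum, map_sum]
    have h2 : ∀ i, G3 z0 p (TensorProduct.assoc k H H H ((c i ⊗ₜ[k] d i) ⊗ₜ[k] b)) =
        iH k H (c i) * iD k H ((p ∘ₗ LinearMap.mulLeft k (z0 b)) ∘ₗ
          LinearMap.mulLeft k (d i)) := by
      intro i
      rw [TensorProduct.assoc_tmul, G3_tmul, TensorProduct.comm_tmul, LinearMap.rTensor_tmul,
        LinearMap.mul'_apply]
      congr 2
      ext y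
      simp [mul_assoc]
    rw [sum_congr rfl fun i _ => h2 i, h1]
    exact Submodule.sum_mem _ fun i _ => ⟨_, pb_tmul _ _⟩

lemma iH_iD_mem (z0 : H →ₗ[k] H) (hz0 : ∀ h : H, LinearMap.mul' k H (z0.rTensor H
    (TensorProduct.comm k H H (Coalgebra.comul h))) = algebraMap k H (Coalgebra.counit h))
    (h : H) (p : Dual k H) : iH k H h * iD k H p ∈ LinearMap.range (pb k H) := by
  have h1 := G3_mem z0 p (Coalgebra.comul h)
  rw [Coalgebra.coassoc_apply] at h1
  have h2 : ∀ X : H ⊗[k] H, G3 z0 p (Coalgebra.comul.lTensor H X) =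
      iH k H (TensorProduct.rid k H ((Coalgebra.counit (R := k) (A := H)).lTensor H X)) *
        iD k H p := by
    intro X
    induction X using TensorProduct.induction_on with
    | zero => simp
    | add X X' h h' => rw [map_add, map_add, h, h', map_add, map_add, map_add, add_mul]
    | tmul a b =>
      rw [LinearMap.lTensor_tmul, G3_tmul, hz0, LinearMap.lTensor_tmul, TensorProduct.rid_tmul,
        Algebra.algebraMap_eq_smul_one, iD_smul_left, map_smul, smul_mul_assoc, mul_smul_comm]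
      congr 3
      ext y
      simp
  rwa [h2, Coalgebra.lTensor_counit_comul, TensorProduct.rid_tmul, one_smul] at h1

theorem pb_surjective (z0 : H →ₗ[k] H) (hz0 : ∀ h : H, LinearMap.mul' k H (z0.rTensor H
    (TensorProduct.comm k H H (Coalgebra.comul h))) = algebraMap k H (Coalgebra.counit h)) :
    Function.Surjective (pb k H) := by
  rw [← LinearMap.range_eq_top, eq_top_iff]
  rintro b -
  have hr : ∀ w ∈ LinearMap.range (pb k H), ∀ h, w * iH k H h ∈ LinearMap.range (pb k H) := by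
    rintro _ ⟨t, rfl⟩ h
    induction t using TensorProduct.induction_on with
    | zero => simp
    | add X X' h h' =>
      rw [map_add, add_mul]
      exact Submodule.add_mem _ h h'
    | tmul p h' =>
      rw [pb_tmul, mul_assoc, ← map_mul]
      exact ⟨_, pb_tmul _ _⟩
  have hl : ∀ w ∈ LinearMap.range (pb k H), ∀ p, iD k H p * w ∈ LinearMap.range (pb k H) := by
    rintro _ ⟨t, rfl⟩ p
    induction t using TensorProduct.induction_on with
    | zero => simp
    | add X X' h h' =>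
      rw [map_add, mul_add]
      exact Submodule.add_mem _ h h'
    | tmul p h' =>
      rw [pb_tmul, ← mul_assoc, ← iD_conv]
      exact ⟨_, pb_tmul _ _⟩
  have hh : ∀ w ∈ LinearMap.range (pb k H), ∀ h, iH k H h * w ∈ LinearMap.range (pb k H) := by
    rintro _ ⟨t, rfl⟩ h
    induction t using TensorProduct.induction_on with
    | zero => simp
    | add X X' h h' =>
      rw [map_add, mul_add]
      exact Submodule.add_mem _ h h'
    | tmul p h' =>
      rw [pb_tmul, ← mul_assoc]
      exact hr _ (iH_iD_mem z0 hz0 h p) h'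
  have hb : b ∈ Algebra.adjoin k (Set.range (iH k H) ∪ Set.range (iD k H)) := by
    rw [adjoin_eq_top]
    trivial
  have key : ∀ w ∈ LinearMap.range (pb k H), b * w ∈ LinearMap.range (pb k H) := by
    induction hb using Algebra.adjoin_induction with
    | mem x hx =>
      rcases hx with ⟨h, rfl⟩ | ⟨p, rfl⟩
      · exact fun w hw => hh w hw h
      · exact fun w hw => hl w hw p
    | algebraMap r =>
      intro w hw
      rw [← Algebra.smul_def]
      exact Submodule.smul_mem _ _ hw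
    | add x y _ _ hx hy =>
      intro w hw
      rw [add_mul]
      exact Submodule.add_mem _ (hx w hw) (hy w hw)
    | mul x y _ _ hx hy =>
      intro w hw
      rw [mul_assoc]
      exact hx _ (hy w hw)
  have h1 : (1 : Dbl k H) ∈ LinearMap.range (pb k H) := by
    refine ⟨Coalgebra.counit ⊗ₜ[k] 1, ?_⟩
    rw [pb_tmul, iD_counit, map_one, one_mul]
  have := key 1 h1
  rwa [mul_one] at this

lemma finite_of (z0 : H →ₗ[k] H) (hz0 : ∀ h : H, LinearMap.mul' k H (z0.rTensor H
    (TensorProduct.comm k H H (Coalgebra.comul h))) = algebraMap k H (Coalgebra.counit h))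
    [FiniteDimensional k H] : FiniteDimensional k (Dbl k H) :=
  Module.Finite.of_surjective (pb k H) (pb_surjective z0 hz0)

lemma finrank_le_of (z0 : H →ₗ[k] H) (hz0 : ∀ h : H, LinearMap.mul' k H (z0.rTensor H
    (TensorProduct.comm k H H (Coalgebra.comul h))) = algebraMap k H (Coalgebra.counit h))
    [FiniteDimensional k H] : finrank k (Dbl k H) ≤ finrank k H ^ 2 := by
  have h1 := LinearMap.finrank_le_finrank_of_surjective (pb_surjective (k := k) z0 hz0)
  rwa [Module.finrank_tensorProduct, Subspace.dual_finrank_eq, ← sq] at h1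

end Dbl

namespace Sm

variable {k : Type u} [Field k] {H' H : Type u} [Ring H'] [Bialgebra k H'] [Ring H]
    [Bialgebra k H] {Γ : Type} [Group Γ] [Fintype Γ] [DecidableEq Γ] (X : Sm k H' H Γ)

lemma JL_δ (y : H') : X.JL y * X.δ = Dbl.iH k H (X.ι y) * X.δ := by
  rw [JL, add_mul, smul_mul_assoc, δ'δ, smul_zero, add_zero, mul_assoc, δ_idem]

lemma JR_δ (p : Dual k H') : X.JR p * X.δ = Dbl.iD k H (X.ex p) := by
  rw [JR, add_mul, smul_mul_assoc, δ'δ, smul_zero, add_zero, iD_ex_δ]

lemma δ_J (r : Dbl k H') : X.δ * X.J r = X.J r * X.δ := by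
  have hr : r ∈ Algebra.adjoin k (Set.range (Dbl.iH k H') ∪ Set.range (Dbl.iD k H')) := by
    rw [Dbl.adjoin_eq_top]
    trivial
  induction hr using Algebra.adjoin_induction with
  | mem x hx =>
    rcases hx with ⟨h, rfl⟩ | ⟨p, rfl⟩
    · rw [J_iH, JL, mul_add, add_mul, ← mul_assoc, δ_ι, mul_smul_comm, smul_mul_assoc, δδ', δ'δ]
    · rw [J_iD, JR, mul_add, add_mul, δ_iD, mul_smul_comm, smul_mul_assoc, δδ', δ'δ]
  | algebraMap r => rw [AlgHom.commutes, Algebra.commutes]
  | add x y _ _ hx hy => rw [map_add, mul_add, add_mul, hx, hy]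
  | mul x y _ _ hx hy => rw [map_mul, ← mul_assoc, hx, mul_assoc, hy, mul_assoc]

/-- the basic elements -/
noncomputable def tm (γ : Γ) (r : Dbl k H') : Dbl k H := Dbl.iH k H (X.u γ) * (X.J r * X.δ)

/-- the coordinate map -/
noncomputable def Ph : (Γ → Dbl k H') →ₗ[k] Dbl k H where
  toFun f := ∑ γ, X.tm γ (f γ)
  map_add' f g := by
    simp only [tm, Pi.add_apply, map_add, add_mul, mul_add, sum_add_distrib]
  map_smul' c f := by
    simp only [tm, Pi.smul_apply, map_smul, smul_mul_assoc, mul_smul_comm, smul_sum,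
      RingHom.id_apply]

lemma Ph_apply (f : Γ → Dbl k H') : X.Ph f = ∑ γ, X.tm γ (f γ) := rfl

lemma tm_zero (γ : Γ) : X.tm γ 0 = 0 := by rw [tm, map_zero, zero_mul, mul_zero]

lemma Ph_single (γ : Γ) (r : Dbl k H') : X.Ph (Pi.single γ r) = X.tm γ r := by
  rw [Ph_apply, Finset.sum_eq_single γ, Pi.single_eq_same]
  · intro γ' _ h
    rw [Pi.single_eq_of_ne h, tm_zero]
  · simp

lemma tm_mem (γ : Γ) (r : Dbl k H') : X.tm γ r ∈ LinearMap.range X.Ph := ⟨_, X.Ph_single γ r⟩

lemma iH_ι_J (y : H') (r : Dbl k H') : Dbl.iH k H (X.ι y) * (X.J r * X.δ) =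
    X.J (Dbl.iH k H' y * r) * X.δ := by
  rw [map_mul, J_iH, ← δ_J, ← mul_assoc, ← JL_δ, mul_assoc, mul_assoc, δ_J]

lemma iD_J (p : Dual k H) (r : Dbl k H') : Dbl.iD k H p * (X.J r * X.δ) =
    X.J (Dbl.iD k H' (p ∘ₗ X.ι.toLinearMap) * r) * X.δ := by
  rw [map_mul, J_iD, ← δ_J, ← mul_assoc, iD_δ, ← JR_δ, mul_assoc, mul_assoc, δ_J]

lemma iH_tm (h : H) (γ : Γ) (r : Dbl k H') : Dbl.iH k H h * X.tm γ r ∈ LinearMap.range X.Ph := by
  refine X.ind (P := fun h => Dbl.iH k H h * X.tm γ r ∈ LinearMap.range X.Ph) ?_ ?_ ?_ h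
  · rw [map_zero, zero_mul]
    exact Submodule.zero_mem _
  · intro a b ha hb
    rw [map_add, add_mul]
    exact Submodule.add_mem _ ha hb
  · intro μ y
    have : Dbl.iH k H (X.u μ * X.ι y) * X.tm γ r =
        X.tm (μ * γ) (Dbl.iH k H' (X.al γ y) * r) := by
      rw [tm, ← mul_assoc, ← map_mul, mul_assoc (X.u μ), ι_u, ← mul_assoc (X.u μ), X.u_mul,
        map_mul, mul_assoc, iH_ι_J, tm]
    rw [this]
    exact X.tm_mem _ _

lemma iD_tm (p : Dual k H) (γ : Γ) (r : Dbl k H') :
    Dbl.iD k H p * X.tm γ r ∈ LinearMap.range X.Ph := by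
  rw [tm, ← mul_assoc, iD_u, mul_assoc, iD_J]
  exact X.tm_mem _ _

lemma mul_mem_range (b : Dbl k H) : ∀ w ∈ LinearMap.range X.Ph, b * w ∈ LinearMap.range X.Ph := by
  have hb : b ∈ Algebra.adjoin k (Set.range (Dbl.iH k H) ∪ Set.range (Dbl.iD k H)) := by
    rw [Dbl.adjoin_eq_top]
    trivial
  induction hb using Algebra.adjoin_induction with
  | mem x hx =>
    rcases hx with ⟨h, rfl⟩ | ⟨p, rfl⟩
    · rintro _ ⟨f, rfl⟩
      rw [Ph_apply, mul_sum]
      exact Submodule.sum_mem _ fun γ _ => X.iH_tm _ _ _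
    · rintro _ ⟨f, rfl⟩
      rw [Ph_apply, mul_sum]
      exact Submodule.sum_mem _ fun γ _ => X.iD_tm _ _ _
  | algebraMap r =>
    intro w hw
    rw [← Algebra.smul_def]
    exact Submodule.smul_mem _ _ hw
  | add x y _ _ hx hy =>
    intro w hw
    rw [add_mul]
    exact Submodule.add_mem _ (hx w hw) (hy w hw)
  | mul x y _ _ hx hy =>
    intro w hw
    rw [mul_assoc]
    exact hx _ (hy w hw)

lemma mul_δ_mem (b : Dbl k H) : b * X.δ ∈ LinearMap.range X.Ph := by
  refine X.mul_mem_range b _ ?_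
  have : X.δ = X.tm 1 1 := by rw [tm, X.u_one, map_one, map_one, one_mul, one_mul]
  rw [this]
  exact X.tm_mem _ _

/-- the coordinates of the evaluation -/
noncomputable def E : Dbl k H →ₗ[k] (Γ → (H' →ₗ[k] H')) :=
  LinearMap.pi fun γ => LinearMap.llcomp k H' H H' (X.q γ) ∘ₗ
    LinearMap.lcomp k H (LinearMap.mulLeft k (X.u γ⁻¹) ∘ₗ X.ι.toLinearMap) ∘ₗ Dbl.ev

lemma E_apply (b : Dbl k H) (γ : Γ) (z : H') :
    X.E b γ z = X.q γ (Dbl.ev b (X.u γ⁻¹ * X.ι z)) := rfl

lemma E_δ (b : Dbl k H) (z0 : H →ₗ[k] H) (hz0 : ∀ h : H, LinearMap.mul' k H (z0.rTensor H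
    (TensorProduct.comm k H H (Coalgebra.comul h))) = algebraMap k H (Coalgebra.counit h)) :
    X.E (b * X.δ) = X.E b := by
  obtain ⟨t, rfl⟩ := Dbl.pb_surjective z0 hz0 b
  induction t using TensorProduct.induction_on with
  | zero => simp
  | add X X' h h' => rw [map_add, add_mul, map_add, h, h', map_add]
  | tmul p h =>
    refine X.ind (P := fun h => X.E (Dbl.pb k H (p ⊗ₜ[k] h) * X.δ) =
      X.E (Dbl.pb k H (p ⊗ₜ[k] h))) ?_ ?_ ?_ h
    · simp
    · intro a b ha hb
      rw [tmul_add, map_add, add_mul, map_add, ha, hb, map_add]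
    · intro μ y
      rw [Dbl.pb_tmul, mul_assoc, ← δ_iH, ← mul_assoc, iD_δ]
      funext γ
      ext z
      rw [E_apply, E_apply, Dbl.ev_apply, Dbl.ev_apply, Bialgebra.comul_mul, X.comul_u, X.comul_ι]
      generalize Coalgebra.comul (R := k) y = t
      induction t using TensorProduct.induction_on with
      | zero => simp
      | add a b ha hb => simp only [map_add, mul_add, add_mul, ha, hb]
      | tmul a b =>
        rw [TensorProduct.map_tmul, Algebra.TensorProduct.tmul_mul_tmul,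
          Algebra.TensorProduct.tmul_mul_tmul, Dbl.idp_tmul, Dbl.idp_tmul, mul_one, map_smul,
          map_smul, AlgHom.toLinearMap_apply, AlgHom.toLinearMap_apply, X.q_u]
        by_cases hγ : γ = μ
        · subst hγ
          rw [u_ι_mul, mul_inv_cancel, ex_u, if_pos rfl, X.u_one, one_mul]
          rfl
        · rw [if_neg hγ, smul_zero, smul_zero]

lemma E_surjective (z0 : H →ₗ[k] H) (hz0 : ∀ h : H, LinearMap.mul' k H (z0.rTensor H
    (TensorProduct.comm k H H (Coalgebra.comul h))) = algebraMap k H (Coalgebra.counit h))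
    [FiniteDimensional k H'] : Function.Surjective X.E := by
  rw [← LinearMap.range_eq_top, eq_top_iff]
  intro f _
  let b := Module.finBasis k H'
  have h1 : f = ∑ γ, ∑ i, Pi.single γ (Dbl.rk (b.coord i) (f γ (b i))) := by
    funext γ
    rw [Finset.sum_apply, Finset.sum_eq_single γ]
    · rw [Finset.sum_apply]
      simp only [Pi.single_eq_same]
      ext z
      rw [LinearMap.sum_apply]
      simp only [Dbl.rk_apply]
      conv_lhs => rw [← b.sum_repr z, map_sum]
      simp
    · intro γ' _ h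
      rw [Finset.sum_apply]
      exact sum_eq_zero fun i _ => Pi.single_eq_of_ne h.symm _
    · simp
  rw [h1]
  refine Submodule.sum_mem _ fun γ _ => Submodule.sum_mem _ fun i _ => ?_
  obtain ⟨d, hd⟩ := Dbl.exists_ev z0 hz0 (b.coord i ∘ₗ X.q γ⁻¹) (X.u γ * X.ι (f γ (b i)))
  refine ⟨d, ?_⟩
  funext μ
  ext z
  rw [E_apply, hd, Dbl.rk_apply, map_smul, LinearMap.comp_apply, X.q_u, X.q_u]
  by_cases h : μ = γ
  · subst h
    rw [if_pos rfl, if_pos rfl, Pi.single_eq_same, Dbl.rk_apply]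
  · rw [if_neg h, smul_zero, Pi.single_eq_of_ne h, LinearMap.zero_apply]

section coords

variable (z0 : H →ₗ[k] H) (hz0 : ∀ h : H, LinearMap.mul' k H (z0.rTensor H
    (TensorProduct.comm k H H (Coalgebra.comul h))) = algebraMap k H (Coalgebra.counit h))
    (z0' : H' →ₗ[k] H') (hz0' : ∀ h : H', LinearMap.mul' k H' (z0'.rTensor H'
    (TensorProduct.comm k H' H' (Coalgebra.comul h))) = algebraMap k H' (Coalgebra.counit h))
    [FiniteDimensional k H']

include z0 hz0 z0' hz0' in
lemma Ph_injective : Function.Injective X.Ph := by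
  have := Dbl.finite_of z0' hz0'
  have h1 := Dbl.finrank_le_of z0' hz0'
  have hs : Function.Surjective (X.E ∘ₗ X.Ph) := by
    intro f
    obtain ⟨b, rfl⟩ := X.E_surjective z0 hz0 f
    obtain ⟨g, hg⟩ := X.mul_δ_mem b
    exact ⟨g, by rw [LinearMap.comp_apply, hg, X.E_δ b z0 hz0]⟩
  have h2 : finrank k (Γ → Dbl k H') = finrank k (Γ → (H' →ₗ[k] H')) := by
    refine le_antisymm ?_ (LinearMap.finrank_le_finrank_of_surjective hs)
    rw [Module.finrank_pi_fintype, Module.finrank_pi_fintype]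
    refine Finset.sum_le_sum fun γ _ => ?_
    rw [Module.finrank_linearMap, ← sq]
    exact h1
  have h3 := (LinearMap.injective_iff_surjective_of_finrank_eq_finrank h2).mpr hs
  intro f g hfg
  apply h3
  rw [LinearMap.comp_apply, LinearMap.comp_apply, hfg]

/-- coordinates -/
noncomputable def Pe : (Γ → Dbl k H') ≃ₗ[k] LinearMap.range X.Ph :=
  LinearEquiv.ofInjective X.Ph (X.Ph_injective z0 hz0 z0' hz0')

/-- coordinates of `b δ` -/
noncomputable def co : Dbl k H →ₗ[k] (Γ → Dbl k H') :=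
  (X.Pe z0 hz0 z0' hz0').symm.toLinearMap ∘ₗ
    LinearMap.codRestrict (LinearMap.range X.Ph) (LinearMap.mulRight k X.δ) X.mul_δ_mem

lemma Ph_co (b : Dbl k H) : X.Ph (X.co z0 hz0 z0' hz0' b) = b * X.δ := by
  have h1 : X.Ph (X.co z0 hz0 z0' hz0' b) =
      ((X.Pe z0 hz0 z0' hz0' (X.co z0 hz0 z0' hz0' b) : LinearMap.range X.Ph) : Dbl k H) := rfl
  rw [h1, co, LinearMap.comp_apply, LinearEquiv.coe_coe, LinearEquiv.apply_symm_apply]
  rfl

lemma co_eq {b : Dbl k H} {f : Γ → Dbl k H'} (h : X.Ph f = b * X.δ) :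
    X.co z0 hz0 z0' hz0' b = f :=
  X.Ph_injective z0 hz0 z0' hz0' ((X.Ph_co z0 hz0 z0' hz0' b).trans h.symm)

/-- The transfer data. -/
noncomputable def xfer : Xfer k (Dbl k H') (Dbl k H) Γ where
  J := X.J
  δ := X.δ
  δ_idem := X.δ_idem
  δ_J := X.δ_J
  u γ := Dbl.iH k H (X.u γ)
  π γ := (LinearMap.proj γ : (Γ → Dbl k H') →ₗ[k] Dbl k H') ∘ₗ X.co z0 hz0 z0' hz0'
  π_J γ b r := by
    have h1 : X.co z0 hz0 z0' hz0' (b * X.J r) = fun γ => X.co z0 hz0 z0' hz0' b γ * r := by
      refine X.co_eq z0 hz0 z0' hz0' ?_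
      rw [mul_assoc, ← δ_J, ← mul_assoc, ← X.Ph_co z0 hz0 z0' hz0' b, Ph_apply, Ph_apply, sum_mul]
      refine sum_congr rfl fun γ _ => ?_
      rw [tm, tm, map_mul, mul_assoc, mul_assoc, mul_assoc, δ_J]
    exact congrFun h1 γ
  π_δ γ b := by
    have h1 : X.co z0 hz0 z0' hz0' (b * X.δ) = X.co z0 hz0 z0' hz0' b := by
      refine X.co_eq z0 hz0 z0' hz0' ?_
      rw [X.Ph_co, mul_assoc, δ_idem]
    exact congrFun h1 γ
  sum_π b := X.Ph_co z0 hz0 z0' hz0' b

end coords

end Sm

end Pool.Agent.H170_FG
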