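import Pool.Agent.H170_FG.DH

/-!
# Transport to abstract Hopf algebras
-/

set_option linter.unusedSectionVars false

universe u

open Finset TensorProduct Module

namespace Pool.Agent.H170_FG

namespace Dbl

section congr

variable {k : Type u} [Field k] {H H' : Type u} [Ring H] [Bialgebra k H] [Ring H'] [Bialgebra k H']
  (φ : H ≃ₐ[k] H')
  (h1 : ∀ y, Coalgebra.comul (R := k) (φ y) =
    TensorProduct.map φ.toLinearMap φ.toLinearMap (Coalgebra.comul (R := k) y))
  (h2 : ∀ y, Coalgebra.counit (R := k) (φ y) = Coalgebra.counit (R := k) y)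

include h1 h2 in
lemma congr_rels : DRels (k := k) (H := H) (fun y => iH k H' (φ y))
    (fun p => iD k H' (p ∘ₗ φ.symm.toLinearMap)) where
  l_add h h' := by simp only [map_add]
  l_smul r h := by simp only [map_smul]
  l_mul h h' := by simp only [map_mul]
  l_one := by simp only [map_one]
  r_add p q := by rw [LinearMap.add_comp, map_add]
  r_smul r p := by rw [LinearMap.smul_comp, map_smul]
  r_mul p q := by
    rw [← iD_conv]
    congr 1
    ext y
    obtain ⟨z, rfl⟩ := φ.surjective y
    have : TensorProduct.map (p ∘ₗ φ.symm.toLinearMap) (q ∘ₗ φ.symm.toLinearMap) ∘ₗ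
        TensorProduct.map φ.toLinearMap φ.toLinearMap = TensorProduct.map p q := by
      rw [← TensorProduct.map_comp]
      congr 1 <;> ext w <;> simp
    simp only [conv, LinearMap.comp_apply, AlgEquiv.toLinearMap_apply, AlgEquiv.symm_apply_apply]
    rw [h1, ← LinearMap.comp_apply (f := TensorProduct.map _ _)
      (g := TensorProduct.map φ.toLinearMap φ.toLinearMap), this]
  r_one := by
    rw [← iD_counit]
    congr 1
    ext y
    obtain ⟨z, rfl⟩ := φ.surjective y
    rw [h2]
    simp
  cross p h m a b hab := by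
    have h3 := cross k H' (p ∘ₗ φ.symm.toLinearMap) (φ h) (fun i => φ (a i)) (fun i => φ (b i)) (by
      rw [h1, ← hab, map_sum]
      simp)
    convert h3 using 1
    · refine sum_congr rfl fun i _ => ?_
      congr 2
      ext y
      simp
    · refine sum_congr rfl fun i _ => ?_
      congr 2
      ext y
      simp

include h1 h2 in
/-- Functoriality. -/
theorem exists_map : ∃ F : Dbl k H →ₐ[k] Dbl k H', (∀ y, F (iH k H y) = iH k H' (φ y)) ∧
    ∀ p, F (iD k H p) = iD k H' (p ∘ₗ φ.symm.toLinearMap) :=
  ⟨lift (congr_rels φ h1 h2), lift_iH _, lift_iD _⟩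

lemma hom_ext {A : Type*} [Ring A] [Algebra k A] {F G : Dbl k H →ₐ[k] A}
    (h : ∀ y, F (iH k H y) = G (iH k H y)) (h' : ∀ p, F (iD k H p) = G (iD k H p)) : F = G := by
  refine AlgHom.ext_of_adjoin_eq_top (adjoin_eq_top k H) ?_
  rintro _ (⟨y, rfl⟩ | ⟨p, rfl⟩)
  · exact h y
  · exact h' p

include h1 h2 in
/-- Functoriality. -/
theorem exists_equiv : ∃ F : Dbl k H ≃ₐ[k] Dbl k H', (∀ y, F (iH k H y) = iH k H' (φ y)) ∧
    ∀ p, F (iD k H p) = iD k H' (p ∘ₗ φ.symm.toLinearMap) := by
  obtain ⟨F, hF1, hF2⟩ := exists_map φ h1 h2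
  have h1' : ∀ y, Coalgebra.comul (R := k) (φ.symm y) =
      TensorProduct.map φ.symm.toLinearMap φ.symm.toLinearMap (Coalgebra.comul (R := k) y) := by
    intro y
    obtain ⟨z, rfl⟩ := φ.surjective y
    rw [h1, ← LinearMap.comp_apply (f := TensorProduct.map _ _)
      (g := TensorProduct.map φ.toLinearMap φ.toLinearMap), ← TensorProduct.map_comp]
    have : φ.symm.toLinearMap ∘ₗ φ.toLinearMap = LinearMap.id := by ext w; simp
    rw [this]
    simp
  have h2' : ∀ y, Coalgebra.counit (R := k) (φ.symm y) = Coalgebra.counit (R := k) y := by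
    intro y
    obtain ⟨z, rfl⟩ := φ.surjective y
    rw [h2]
    simp
  obtain ⟨G, hG1, hG2⟩ := exists_map φ.symm h1' h2'
  refine ⟨AlgEquiv.ofAlgHom F G ?_ ?_, hF1, hF2⟩
  · refine hom_ext ?_ ?_
    · intro y
      simp [hF1, hG1]
    · intro p
      simp only [AlgHom.comp_apply, hG2, hF2, AlgHom.id_apply]
      congr 1
      ext y
      simp
  · refine hom_ext ?_ ?_
    · intro y
      simp [hF1, hG1]
    · intro p
      simp only [AlgHom.comp_apply, hG2, hF2, AlgHom.id_apply]
      congr 1
      ext y
      simp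

end congr

end Dbl

variable {k : Type u} [Field k] {C : Type} [CommGroup C] [Fintype C] [DecidableEq C] {n : ℕ}

/-- Transport of the presentation along an isomorphism. -/
lemma Rels.Full.map {χ : Fin n → C} {A A' : Type u} [Ring A] [Algebra k A] [Ring A'] [Algebra k A']
    {e g : C → A} {w : Fin n ⊕ Fin n → A} (H : Rels.Full k χ e g w) (F : A ≃ₐ[k] A') :
    Rels.Full k χ (fun c => F (e c)) (fun c => F (g c)) (fun a => F (w a)) where
  rels :=
    { ee := fun c c' => by
        rw [← map_mul, H.rels.ee]
        split_ifs <;> simp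
      e_sum := by rw [← map_sum, H.rels.e_sum, map_one]
      g_one := by rw [H.rels.g_one, map_one]
      g_mul := fun c c' => by rw [← map_mul, H.rels.g_mul]
      g_e := fun c c' => by rw [← map_mul, H.rels.g_e, map_mul]
      g_w := fun c a => by rw [← map_mul, H.rels.g_w, map_mul]
      w_e := fun a c => by rw [← map_mul, H.rels.w_e, map_mul]
      w_sq := fun a => by rw [← map_mul, H.rels.w_sq, map_zero]
      w_pair := fun i => by
        rw [← map_mul, ← map_mul, ← map_add, H.rels.w_pair, map_sub, map_one]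
      w_anti := fun a b h h' => by
        rw [← map_mul, ← map_mul, ← map_add, H.rels.w_anti a b h h', map_zero] }
  gen := by
    have h1 : (Algebra.adjoin k (Set.range e ∪ Set.range g ∪ Set.range w)).map
        (F : A →ₐ[k] A') = ⊤ := by
      rw [H.gen, Algebra.map_top, AlgHom.range_eq_top]
      exact F.surjective
    rw [← h1, AlgHom.map_adjoin, Set.image_union, Set.image_union, ← Set.range_comp,
      ← Set.range_comp, ← Set.range_comp]
    rfl
  rank := H.rank.trans F.toLinearEquiv.finrank_eq.le

namespace SGrp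

/-- `H` is the bosonized group superalgebra attached to `D`, with weight idempotents `e c` and odd
elements `x i`. -/
structure Model (D : SGrp k C n) {H : Type u} [Ring H] [Bialgebra k H] (e : C → H)
    (x : Fin n → H) : Prop where
  rels : HRels D e x
  gen : Algebra.adjoin k (Set.range e ∪ Set.range x) = ⊤
  dim : finrank k H = 2 ^ n * Fintype.card C
  comul_e : ∀ c, Coalgebra.comul (R := k) (e c) = ∑ a, e a ⊗ₜ[k] e (a⁻¹ * c)
  comul_x : ∀ i, Coalgebra.comul (R := k) (x i) = x i ⊗ₜ[k] 1 + HRels.sel D e ⊗ₜ[k] x i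
  counit_e : ∀ c, Coalgebra.counit (R := k) (e c) = if c = 1 then 1 else 0
  counit_x : ∀ i, Coalgebra.counit (R := k) (x i) = 0

/-- the standard model -/
theorem model_H (D : SGrp k C n) (hne : ∀ c, D.e c ≠ 0) : Model D D.e D.x where
  rels := D.hrels
  gen := D.adjoin_eq_top
  dim := (D.finrank_eq hne).2
  comul_e c := D.comulA_e c
  comul_x i := D.comulA_x i
  counit_e c := D.counitA_e c
  counit_x i := D.counitA_x i

namespace Model

variable {D : SGrp k C n} {H : Type u} [Ring H] [Bialgebra k H] {e : C → H}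
    {x : Fin n → H} (M : Model D e x)

include M in
lemma finiteDimensional : FiniteDimensional k H := by
  refine Module.finite_of_finrank_pos ?_
  rw [M.dim]
  exact Nat.mul_pos (by positivity) Fintype.card_pos

include M in
/-- A model is isomorphic to the standard one. -/
theorem exists_equiv (hne : ∀ c, D.e c ≠ 0) : ∃ φ : D.H ≃ₐ[k] H,
    (∀ y, Coalgebra.comul (R := k) (φ y) =
      TensorProduct.map φ.toLinearMap φ.toLinearMap (Coalgebra.comul (R := k) y)) ∧
    (∀ y, Coalgebra.counit (R := k) (φ y) = Coalgebra.counit (R := k) y) ∧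
    (∀ c, φ (D.e c) = e c) ∧ ∀ i, φ (D.x i) = x i := by
  have hD := D.finrank_eq hne
  have := hD.1
  have := M.finiteDimensional
  have hs : Function.Surjective (lift M.rels) := by
    rw [← AlgHom.range_eq_top, eq_top_iff, ← M.gen, Algebra.adjoin_le_iff]
    rintro _ (⟨c, rfl⟩ | ⟨i, rfl⟩)
    · exact ⟨_, lift_e M.rels c⟩
    · exact ⟨_, lift_x M.rels i⟩
  have hi : Function.Injective (lift M.rels) :=
    (LinearMap.injective_iff_surjective_of_finrank_eq_finrank
      (f := (lift M.rels).toLinearMap) (hD.2.trans M.dim.symm)).mpr hs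
  let φ : D.H ≃ₐ[k] H := AlgEquiv.ofBijective (lift M.rels) ⟨hi, hs⟩
  have hφ : ∀ y, φ y = lift M.rels y := fun y => rfl
  refine ⟨φ, ?_, ?_, fun c => lift_e M.rels c, fun i => lift_x M.rels i⟩
  · have : (Bialgebra.comulAlgHom k H).comp (lift M.rels) =
        (Algebra.TensorProduct.map (lift M.rels) (lift M.rels)).comp D.comulA := by
      refine hom_ext ?_ ?_
      · intro c
        simp only [AlgHom.comp_apply, lift_e, comulA_e, Bialgebra.comulAlgHom_apply, M.comul_e, de,
          map_sum, Algebra.TensorProduct.map_tmul]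
      · intro i
        simp only [AlgHom.comp_apply, lift_x, comulA_x, Bialgebra.comulAlgHom_apply, M.comul_x, dx,
          map_add, Algebra.TensorProduct.map_tmul, map_one, s, HRels.sel, map_sum, map_smul,
          lift_e]
    intro y
    have h3 := DFunLike.congr_fun this y
    exact h3
  · have : (Bialgebra.counitAlgHom k H).comp (lift M.rels) = D.counitA := by
      refine hom_ext ?_ ?_
      · intro c
        simp only [AlgHom.comp_apply, lift_e, counitA_e, Bialgebra.counitAlgHom_apply, M.counit_e]
      · intro i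
        simp only [AlgHom.comp_apply, lift_x, counitA_x, Bialgebra.counitAlgHom_apply, M.counit_x]
    intro y
    have h3 := DFunLike.congr_fun this y
    exact h3

end Model

/-- Finite generation for the Drinfeld double, trivial bracket. -/
theorem Model.fgc_flat {D : SGrp k C n} (h0 : ∀ i j c, D.β i j c = 0) {H : Type u} [Ring H]
    [Bialgebra k H] {e : C → H} {x : Fin n → H} (M : Model D e x) : FGC k (Double.eps k H) := by
  obtain ⟨φ, h1, h2, h3, h4⟩ := M.exists_equiv (D.ne_zero_flat h0)
  obtain ⟨F, hF1, hF2⟩ := Dbl.exists_equiv φ h1 h2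
  have hF : ∀ y, Dbl.eps k H (F y) = Dbl.eps k D.H y := by
    have : (Dbl.eps k H).comp F.toAlgHom = Dbl.eps k D.H := by
      refine Dbl.hom_ext ?_ ?_
      · intro y
        change Dbl.eps k H (F _) = _
        rw [hF1, Dbl.eps_iH, Dbl.eps_iH, h2]
      · intro p
        change Dbl.eps k H (F _) = _
        rw [hF2, Dbl.eps_iD, Dbl.eps_iD]
        simp
    intro y
    exact DFunLike.congr_fun this y
  obtain ⟨e1, g1, w1⟩ := D.eps_flat h0
  refine ((D.full_flat h0).map (F.trans (Dbl.toDouble k H))).fgc (Double.eps k H) ?_ ?_ ?_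
  · rw [AlgEquiv.trans_apply, Dbl.eps_toDouble, hF]
    exact e1
  · intro c
    rw [AlgEquiv.trans_apply, Dbl.eps_toDouble, hF]
    exact g1 c
  · intro a
    rw [AlgEquiv.trans_apply, Dbl.eps_toDouble, hF]
    exact w1 a

end SGrp

end Pool.Agent.H170_FG
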