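import Pool.Agent.H170_FG.Lr5
import Pool.Agent.H170_FG.Model

/-!
# Finite generation for the double of a smash product
-/

set_option linter.unusedSectionVars false

universe u

open Finset TensorProduct Module

namespace Pool.Agent.H170_FG

namespace Sm

variable {k : Type u} [Field k] {H' H : Type u} [Ring H'] [Bialgebra k H'] [Ring H]
    [Bialgebra k H] {Γ : Type} [Group Γ] [Fintype Γ] [DecidableEq Γ] (X : Sm k H' H Γ)

/-- the quotient map to the group algebra -/
noncomputable def fq : H →ₗ[k] MonoidAlgebra k Γ :=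
  ∑ γ, (LinearMap.toSpanSingleton k (MonoidAlgebra k Γ) (MonoidAlgebra.of k Γ γ)) ∘ₗ
    (Coalgebra.counit (R := k) (A := H')) ∘ₗ X.q γ

lemma fq_apply (h : H) : X.fq h =
    ∑ γ, (Coalgebra.counit (R := k) (X.q γ h)) • MonoidAlgebra.of k Γ γ := by
  rw [fq, LinearMap.sum_apply]
  rfl

lemma fq_u (γ : Γ) (y : H') : X.fq (X.u γ * X.ι y) =
    (Coalgebra.counit (R := k) y) • MonoidAlgebra.of k Γ γ := by
  rw [fq_apply, Finset.sum_eq_single γ, X.q_u, if_pos rfl]
  · intro μ _ h
    rw [X.q_u, if_neg h, map_zero, zero_smul]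
  · simp

lemma fq_mul (h h' : H) : X.fq (h * h') = X.fq h * X.fq h' := by
  refine X.ind (P := fun h => X.fq (h * h') = X.fq h * X.fq h') (by simp) ?_ ?_ h
  · intro a b ha hb
    rw [add_mul, map_add, map_add, ha, hb, add_mul]
  · intro γ y
    refine X.ind (P := fun h' => X.fq (X.u γ * X.ι y * h') = X.fq (X.u γ * X.ι y) * X.fq h')
      (by simp) ?_ ?_ h'
    · intro a b ha hb
      rw [mul_add, map_add, map_add, ha, hb, mul_add]
    · intro γ' y'
      rw [u_ι_mul, fq_u, fq_u, fq_u, Bialgebra.counit_mul, counit_al, smul_mul_smul_comm, map_mul]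

lemma fq_ι (y : H') : X.fq (X.ι y) = (Coalgebra.counit (R := k) y) • 1 := by
  have h : X.ι y = X.u 1 * X.ι y := by rw [X.u_one, one_mul]
  rw [h, fq_u, map_one]

lemma fq_one : X.fq 1 = 1 := by
  rw [← map_one X.ι, fq_ι, Bialgebra.counit_one, one_smul]

/-- first contraction -/
noncomputable def T1 (p : Dual k H) : H ⊗[k] H →ₗ[k] MonoidAlgebra k Γ :=
  (TensorProduct.rid k _).toLinearMap ∘ₗ TensorProduct.map X.fq p

/-- second contraction -/
noncomputable def T2 (p : Dual k H) : H ⊗[k] H →ₗ[k] MonoidAlgebra k Γ :=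
  (TensorProduct.lid k _).toLinearMap ∘ₗ TensorProduct.map p X.fq

lemma T1_tmul (p : Dual k H) (a b : H) : X.T1 p (a ⊗ₜ[k] b) = p b • X.fq a := by
  simp [T1]

lemma T2_tmul (p : Dual k H) (a b : H) : X.T2 p (a ⊗ₜ[k] b) = p a • X.fq b := by
  simp [T2]

lemma T1_comul (p : Dual k H) (h : H) :
    X.T1 p (Coalgebra.comul h) = X.T2 p (Coalgebra.comul h) := by
  refine X.ind (P := fun h => X.T1 p (Coalgebra.comul h) = X.T2 p (Coalgebra.comul h))
    (by simp) ?_ ?_ h
  · intro a b ha hb
    simp only [map_add, ha, hb]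
  · intro γ y
    rw [Bialgebra.comul_mul, X.comul_u, X.comul_ι]
    have h1 : ∀ t : H' ⊗[k] H', X.T1 p ((X.u γ ⊗ₜ[k] X.u γ) *
        TensorProduct.map X.ι.toLinearMap X.ι.toLinearMap t) =
        p (X.u γ * X.ι (TensorProduct.lid k H' ((Coalgebra.counit (R := k) (A := H')).rTensor H' t))) •
          MonoidAlgebra.of k Γ γ := by
      intro t
      induction t using TensorProduct.induction_on with
      | zero => simp
      | add a b ha hb => simp only [map_add, mul_add, add_smul, ha, hb]
      | tmul a b =>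
        simp only [T1, TensorProduct.map_tmul, Algebra.TensorProduct.tmul_mul_tmul,
          AlgHom.toLinearMap_apply, LinearMap.comp_apply, LinearEquiv.coe_coe,
          TensorProduct.rid_tmul, fq_u, LinearMap.rTensor_tmul, TensorProduct.lid_tmul, map_smul,
          mul_smul_comm, smul_smul, smul_eq_mul]
        rw [mul_comm]
    have h2 : ∀ t : H' ⊗[k] H', X.T2 p ((X.u γ ⊗ₜ[k] X.u γ) *
        TensorProduct.map X.ι.toLinearMap X.ι.toLinearMap t) =
        p (X.u γ * X.ι (TensorProduct.rid k H' ((Coalgebra.counit (R := k) (A := H')).lTensor H' t))) •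
          MonoidAlgebra.of k Γ γ := by
      intro t
      induction t using TensorProduct.induction_on with
      | zero => simp
      | add a b ha hb => simp only [map_add, mul_add, add_smul, ha, hb]
      | tmul a b =>
        simp only [T2, TensorProduct.map_tmul, Algebra.TensorProduct.tmul_mul_tmul,
          AlgHom.toLinearMap_apply, LinearMap.comp_apply, LinearEquiv.coe_coe,
          TensorProduct.rid_tmul, fq_u, LinearMap.lTensor_tmul, TensorProduct.lid_tmul, map_smul,
          mul_smul_comm, smul_smul, smul_eq_mul]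
        rw [mul_comm]
    rw [h1, h2, Coalgebra.rTensor_counit_comul, Coalgebra.lTensor_counit_comul]
    simp

lemma psi_rels : Dbl.DRels (k := k) (H := H) X.fq
    (fun p => algebraMap k (MonoidAlgebra k Γ) (p 1)) where
  l_add h h' := map_add _ _ _
  l_smul r h := map_smul _ _ _
  l_mul h h' := X.fq_mul h h'
  l_one := X.fq_one
  r_add p q := by rw [LinearMap.add_apply, map_add]
  r_smul r p := by rw [LinearMap.smul_apply, smul_eq_mul, map_mul, Algebra.smul_def]
  r_mul p q := by
    have h3 : conv p q 1 = p 1 * q 1 := by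
      change LinearMap.mul' k k (TensorProduct.map p q (Coalgebra.comul 1)) = _
      rw [Bialgebra.comul_one, Algebra.TensorProduct.one_def]
      simp
    rw [h3, map_mul]
  r_one := by rw [Bialgebra.counit_one, map_one]
  cross p h m a b hab := by
    have h1 := X.T1_comul p h
    rw [← hab, map_sum, map_sum] at h1
    convert h1 using 1
    · refine sum_congr rfl fun i _ => ?_
      rw [T1_tmul, Algebra.smul_def, Algebra.commutes]
      simp
    · refine sum_congr rfl fun i _ => ?_
      rw [T2_tmul, Algebra.smul_def]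
      simp

/-- the quotient map of the double to the group algebra -/
noncomputable def psi : Dbl k H →ₐ[k] MonoidAlgebra k Γ := Dbl.lift X.psi_rels

lemma psi_iH (h : H) : X.psi (Dbl.iH k H h) = X.fq h := Dbl.lift_iH _ _

lemma psi_iD (p : Dual k H) : X.psi (Dbl.iD k H p) = algebraMap k _ (p 1) := Dbl.lift_iD _ _

lemma q_one_one : X.q 1 1 = 1 := by
  have h : (1 : H) = X.u 1 * X.ι 1 := by rw [X.u_one, map_one, one_mul]
  rw [h, X.q_u, if_pos rfl]

lemma psi_δ : X.psi X.δ = 1 := by
  rw [δ, psi_iD, d1, ex_apply, q_one_one, Bialgebra.counit_one, map_one]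

lemma psi_J (r : Dbl k H') : X.psi (X.J r) = algebraMap k _ (Dbl.eps k H' r) := by
  have : X.psi.comp X.J = (Algebra.ofId k (MonoidAlgebra k Γ)).comp (Dbl.eps k H') := by
    refine Dbl.hom_ext ?_ ?_
    · intro y
      rw [AlgHom.comp_apply, AlgHom.comp_apply, J_iH, JL, map_add, map_mul, psi_δ, psi_iH, fq_ι,
        map_smul, map_sub, map_one, psi_δ, sub_self, smul_zero, add_zero, mul_one, Dbl.eps_iH,
        Algebra.ofId_apply, Algebra.algebraMap_eq_smul_one]
    · intro p
      rw [AlgHom.comp_apply, AlgHom.comp_apply, J_iD, JR, map_add, psi_iD, map_smul, map_sub,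
        map_one X.psi, psi_δ, sub_self, smul_zero, add_zero, Dbl.eps_iD, Algebra.ofId_apply, ex_apply,
        q_one_one]
  exact DFunLike.congr_fun this r

lemma eps_psi (r : Dbl k H) : Dbl.eps k H r = Xfer.au k Γ (X.psi r) := by
  have : Dbl.eps k H = (Xfer.au k Γ).comp X.psi := by
    refine Dbl.hom_ext ?_ ?_
    · intro y
      rw [AlgHom.comp_apply, Dbl.eps_iH, psi_iH]
      refine X.ind (P := fun y => Coalgebra.counit (R := k) y = Xfer.au k Γ (X.fq y)) (by simp)
        ?_ ?_ y
      · intro a b ha hb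
        rw [map_add, map_add, map_add, ha, hb]
      · intro γ z
        rw [fq_u, map_smul, Xfer.au_of, Bialgebra.counit_mul, X.counit_u, X.counit_ι]
        simp
    · intro p
      rw [AlgHom.comp_apply, Dbl.eps_iD, psi_iD, AlgHom.commutes]
      rfl
  exact DFunLike.congr_fun this r

include X in
/-- The finite generation theorem for the double of a smash product with a group of order
invertible in `k`. -/
theorem fgc (z0 : H →ₗ[k] H) (hz0 : ∀ h : H, LinearMap.mul' k H (z0.rTensor H
    (TensorProduct.comm k H H (Coalgebra.comul h))) = algebraMap k H (Coalgebra.counit h))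
    (z0' : H' →ₗ[k] H') (hz0' : ∀ h : H', LinearMap.mul' k H' (z0'.rTensor H'
    (TensorProduct.comm k H' H' (Coalgebra.comul h))) = algebraMap k H' (Coalgebra.counit h))
    [FiniteDimensional k H'] [FiniteDimensional k H] {L I : Type}
    [Fintype L] [LinearOrder L] [Fintype I] [DecidableEq I] {C : Type} [CommGroup C]
    [Fintype C] [DecidableEq C] (K : TWD k (Dbl k H') L I C)
    (he : Dbl.eps k H' (K.e 1) = 1) (hg : ∀ l, Dbl.eps k H' (K.g (K.cl l)) = 1)
    (hw : ∀ a, Dbl.eps k H' (K.w a) = 0)
    (hs : ∀ b : Dbl k H', Dbl.eps k H' b = 0 → ∃ (bw : I ⊕ I → Dbl k H') (bl : L → Dbl k H'),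
      b * K.e 1 = ∑ l, bl l * (K.g (K.cl l) - 1) + ∑ a, bw a * K.w a)
    (hΓ : (Fintype.card Γ : k) ≠ 0) :
    FGC k (Dbl.eps k H) := by
  have := Dbl.finite_of z0 hz0
  exact (X.xfer z0 hz0 z0' hz0').fgc K X.psi (Dbl.eps k H') X.psi_J X.psi_δ
    (fun γ => by
      change X.psi (Dbl.iH k H (X.u γ)) = _
      rw [psi_iH, ← mul_one (X.u γ), ← map_one X.ι, fq_u, Bialgebra.counit_one, one_smul])
    he hg hw hs (Dbl.eps k H) X.eps_psi hΓ

end Sm

end Pool.Agent.H170_FG
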