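import Pool.Agent.H170_FG.Asm
import Pool.Agent.H170_FG.DH2
import Pool.Agent.H170_FG.Model

/-!
# Drinfeld doubles of supergroup schemes with diagonalizable even part
-/

set_option linter.unusedSectionVars false

universe u

open Finset TensorProduct Module

namespace Pool.Agent.H170_FG

variable {k : Type u} [Field k] {C : Type} [CommGroup C] [Fintype C] [DecidableEq C] {n : ℕ}

/-- Transport of the relations along a homomorphism. -/
lemma SGrp.HRels.map {D : SGrp k C n} {A A' : Type u} [Ring A] [Algebra k A] [Ring A']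
    [Algebra k A'] {e : C → A} {x : Fin n → A} (H : SGrp.HRels D e x) (F : A →ₐ[k] A') :
    SGrp.HRels D (fun c => F (e c)) (fun a => F (x a)) where
  ee c c' := by
    rw [← map_mul, H.ee]
    split_ifs <;> simp
  e_sum := by rw [← map_sum, H.e_sum, map_one]
  x_e i a := by rw [← map_mul, H.x_e, map_mul]
  x_sq i := by
    rw [← map_mul, H.x_sq, map_sum]
    simp only [map_smul]
  x_anti i j h := by
    rw [← map_mul, ← map_mul, ← map_add, H.x_anti i j h, map_sum]
    simp only [map_smul]

/-- Transport of the presentation along an isomorphism. -/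
lemma Rels2.Full.map {D : SGrp k C n} {A A' : Type u} [Ring A] [Algebra k A] [Ring A']
    [Algebra k A'] {e g : C → A} {x t : Fin n → A} (H : Rels2.Full k D e g x t) (F : A ≃ₐ[k] A') :
    Rels2.Full k D (fun c => F (e c)) (fun c => F (g c)) (fun a => F (x a)) (fun a => F (t a)) where
  rels :=
    { hr := H.rels.hr.map (F : A →ₐ[k] A')
      g_one := by rw [H.rels.g_one, map_one]
      g_mul := fun c c' => by rw [← map_mul, H.rels.g_mul]
      g_e := fun c c' => by rw [← map_mul, H.rels.g_e, map_mul]
      g_t := fun c a => by rw [← map_mul, H.rels.g_t, map_mul]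
      t_e := fun a c => by rw [← map_mul, H.rels.t_e, map_mul]
      t_sq := fun a => by rw [← map_mul, H.rels.t_sq, map_zero]
      t_anti := fun a b h => by
        rw [← map_mul, ← map_mul, ← map_add, H.rels.t_anti a b h, map_zero]
      x_t := fun i j => by
        rw [← map_mul, ← map_mul, ← map_add, H.rels.x_t]
        split_ifs <;> simp
      x_g := fun i c => by
        rw [← map_mul, H.rels.x_g]
        simp only [map_add, map_mul, map_sum, map_smul, map_one] }
  gen := by
    have h1 : (Algebra.adjoin k (Rels2.gens e g x t)).map (F : A →ₐ[k] A') = ⊤ := by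
      rw [H.gen, Algebra.map_top, AlgHom.range_eq_top]
      exact F.surjective
    rw [← h1, AlgHom.map_adjoin, Rels2.gens, Rels2.gens, Set.image_union, Set.image_union,
      Set.image_union, ← Set.range_comp, ← Set.range_comp, ← Set.range_comp, ← Set.range_comp]
    rfl
  rank := H.rank.trans F.toLinearEquiv.finrank_eq.le

namespace SGrp

theorem full2 (D : SGrp k C n) (h2 : (2 : k) ≠ 0) :
    Rels2.Full k D D.E (D.gg h2) D.X D.tt where
  rels := D.drels2 h2
  gen := D.gen2 h2
  rank := by
    have hfin := D.finrank_eq (D.ne_zero h2)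
    have h1 := hfin.1
    have h2 := ((D.drels2 h2).finrank_le h2 (D.gen2 h2)).1
    have h3 := Dbl.le_finrank (k := k) (H := D.H) D.sant D.sant_left
    rwa [hfin.2] at h3

/-- Finite generation for the Drinfeld double, arbitrary bracket. -/
theorem Model.fgc (h2 : (2 : k) ≠ 0) {D : SGrp k C n} {H : Type u} [Ring H]
    [Bialgebra k H] {e : C → H} {x : Fin n → H} (M : Model D e x) : FGC k (Double.eps k H) := by
  obtain ⟨φ, h1, h2', h3, h4⟩ := M.exists_equiv (D.ne_zero h2)
  obtain ⟨F, hF1, hF2⟩ := Dbl.exists_equiv φ h1 h2'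
  have hF : ∀ y, Dbl.eps k H (F y) = Dbl.eps k D.H y := by
    have : (Dbl.eps k H).comp F.toAlgHom = Dbl.eps k D.H := by
      refine Dbl.hom_ext ?_ ?_
      · intro y
        change Dbl.eps k H (F _) = _
        rw [hF1, Dbl.eps_iH, Dbl.eps_iH, h2']
      · intro p
        change Dbl.eps k H (F _) = _
        rw [hF2, Dbl.eps_iD, Dbl.eps_iD]
        simp
    intro y
    exact DFunLike.congr_fun this y
  obtain ⟨e1, g1, x1, t1⟩ := D.eps2 h2
  refine ((D.full2 h2).map (F.trans (Dbl.toDouble k H))).fgc h2 (Double.eps k H) ?_ ?_ ?_ ?_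
  · rw [AlgEquiv.trans_apply, Dbl.eps_toDouble, hF]
    exact e1
  · intro c
    rw [AlgEquiv.trans_apply, Dbl.eps_toDouble, hF]
    exact g1 c
  · intro a
    rw [AlgEquiv.trans_apply, Dbl.eps_toDouble, hF]
    exact x1 a
  · intro a
    rw [AlgEquiv.trans_apply, Dbl.eps_toDouble, hF]
    exact t1 a

end SGrp

end Pool.Agent.H170_FG
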