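import Pool.Agent.H170_FG.Lr6
import Pool.Agent.H170_FG.Model2

/-!
# Supergroup schemes with linearly reductive even part
-/

set_option linter.unusedSectionVars false

universe u

open Finset TensorProduct Module

namespace Pool.Agent.H170_FG

variable {k : Type u} [Field k] {C : Type} [CommGroup C] [Fintype C] [DecidableEq C] {n : ℕ}

namespace SGrp

/-- An action of the group `Γ` on the supergroup scheme with structure constants `D`: `c` is the
action on the characters, `m` the action on the odd part. -/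
structure Act (D : SGrp k C n) (Γ : Type) [Group Γ] where
  c : Γ →* MulAut C
  m : Γ →* Matrix (Fin n) (Fin n) k
  σ_c : ∀ γ a, D.σ (c γ a) = D.σ a
  m_wt : ∀ γ i j, m γ j i ≠ 0 → D.χ j = c γ (D.χ i)
  β_m : ∀ γ i j a, ∑ i', ∑ j', m γ i' i * m γ j' j * D.β i' j' (c γ a) = D.β i j a

/-- `H` is the bosonized group superalgebra of the semidirect product of the supergroup scheme
attached to `D` with the finite group `Γ`: it has weight idempotents `e c`, odd elements `x i` and
group elements `u γ`. -/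
structure GModel (D : SGrp k C n) {Γ : Type} [Group Γ] [Fintype Γ] (F : D.Act Γ) {H : Type u}
    [Ring H] [Bialgebra k H] (e : C → H) (x : Fin n → H) (u : Γ → H) : Prop where
  rels : HRels D e x
  u_one : u 1 = 1
  u_mul : ∀ γ γ', u γ * u γ' = u (γ * γ')
  u_e : ∀ γ c, u γ * e c = e (F.c γ c) * u γ
  u_x : ∀ γ i, u γ * x i = (∑ j, F.m γ j i • x j) * u γ
  gen : Algebra.adjoin k (Set.range e ∪ Set.range x ∪ Set.range u) = ⊤
  dim : finrank k H = 2 ^ n * Fintype.card C * Fintype.card Γ
  comul_e : ∀ c, Coalgebra.comul (R := k) (e c) = ∑ a, e a ⊗ₜ[k] e (a⁻¹ * c)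
  comul_x : ∀ i, Coalgebra.comul (R := k) (x i) = x i ⊗ₜ[k] 1 + HRels.sel D e ⊗ₜ[k] x i
  comul_u : ∀ γ, Coalgebra.comul (R := k) (u γ) = u γ ⊗ₜ[k] u γ
  counit_e : ∀ c, Coalgebra.counit (R := k) (e c) = if c = 1 then 1 else 0
  counit_x : ∀ i, Coalgebra.counit (R := k) (x i) = 0
  counit_u : ∀ γ, Coalgebra.counit (R := k) (u γ) = 1

namespace GModel

variable {D : SGrp k C n} {Γ : Type} [Group Γ] [Fintype Γ] {F : D.Act Γ} {H : Type u}
    [Ring H] [Bialgebra k H] {e : C → H} {x : Fin n → H} {u : Γ → H} (M : GModel D F e x u)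

/-- the inclusion -/
noncomputable def ι : D.H →ₐ[k] H := lift M.rels

lemma ι_e (c : C) : M.ι (D.e c) = e c := lift_e M.rels c
lemma ι_x (i : Fin n) : M.ι (D.x i) = x i := lift_x M.rels i

include M in
lemma finiteDimensional : FiniteDimensional k H := by
  refine Module.finite_of_finrank_pos ?_
  rw [M.dim]
  exact Nat.mul_pos (Nat.mul_pos (by positivity) Fintype.card_pos) Fintype.card_pos

include M in
lemma x_u (γ : Γ) (i : Fin n) : x i * u γ = u γ * ∑ j, F.m γ⁻¹ j i • x j := by
  have h := M.u_x γ⁻¹ i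
  have h1 : u γ * (u γ⁻¹ * x i) * u γ = u γ * ((∑ j, F.m γ⁻¹ j i • x j) * u γ⁻¹) * u γ := by
    rw [h]
  rw [← mul_assoc, M.u_mul, mul_inv_cancel, M.u_one, one_mul] at h1
  rw [h1, mul_assoc, mul_assoc _ (u γ⁻¹), M.u_mul, inv_mul_cancel, M.u_one, mul_one]

include M in
lemma e_u (γ : Γ) (c : C) : e c * u γ = u γ * e (F.c γ⁻¹ c) := by
  rw [M.u_e, ← MulAut.mul_apply, ← map_mul, mul_inv_cancel, map_one, MulAut.one_apply]

lemma exists_norm (y : D.H) : ∀ γ, ∃ y', M.ι y * u γ = u γ * M.ι y' := by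
  induction y using induction_on with
  | he c =>
    intro γ
    exact ⟨D.e (F.c γ⁻¹ c), by rw [ι_e, ι_e, M.e_u]⟩
  | hx i =>
    intro γ
    refine ⟨∑ j, F.m γ⁻¹ j i • D.x j, ?_⟩
    rw [ι_x, M.x_u, map_sum]
    simp only [map_smul, ι_x]
  | hr r =>
    intro γ
    exact ⟨algebraMap k _ r, by rw [AlgHom.commutes, Algebra.commutes]⟩
  | ha a b h1 h2 =>
    intro γ
    obtain ⟨a', ha'⟩ := h1 γ
    obtain ⟨b', hb'⟩ := h2 γ
    exact ⟨a' + b', by rw [map_add, map_add, add_mul, mul_add, ha', hb']⟩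
  | hm a b h1 h2 =>
    intro γ
    obtain ⟨a', ha'⟩ := h1 γ
    obtain ⟨b', hb'⟩ := h2 γ
    exact ⟨a' * b', by rw [map_mul, map_mul, mul_assoc, hb', ← mul_assoc, ha', mul_assoc]⟩

/-- the coordinate map -/
noncomputable def Ps : (Γ → D.H) →ₗ[k] H where
  toFun f := ∑ γ, u γ * M.ι (f γ)
  map_add' f g := by
    simp only [Pi.add_apply, map_add, mul_add, sum_add_distrib]
  map_smul' c f := by
    simp only [Pi.smul_apply, map_smul, mul_smul_comm, smul_sum, RingHom.id_apply]

lemma Ps_apply (f : Γ → D.H) : M.Ps f = ∑ γ, u γ * M.ι (f γ) := rfl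

lemma Ps_single [DecidableEq Γ] (γ : Γ) (y : D.H) : M.Ps (Pi.single γ y) = u γ * M.ι y := by
  rw [Ps_apply, Finset.sum_eq_single γ, Pi.single_eq_same]
  · intro γ' _ h
    rw [Pi.single_eq_of_ne h, map_zero, mul_zero]
  · simp

lemma Ps_mem (γ : Γ) (y : D.H) : u γ * M.ι y ∈ LinearMap.range M.Ps := by
  classical
  exact ⟨_, M.Ps_single γ y⟩

lemma Ps_surjective : Function.Surjective M.Ps := by
  rw [← LinearMap.range_eq_top, eq_top_iff]
  rintro b -
  have h1 : (1 : H) ∈ LinearMap.range M.Ps := by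
    have := M.Ps_mem 1 1
    rwa [M.u_one, map_one, one_mul] at this
  have hb : b ∈ Algebra.adjoin k (Set.range e ∪ Set.range x ∪ Set.range u) := by
    rw [M.gen]
    trivial
  have key : ∀ w ∈ LinearMap.range M.Ps, b * w ∈ LinearMap.range M.Ps := by
    induction hb using Algebra.adjoin_induction with
    | mem z hz =>
      rintro _ ⟨f, rfl⟩
      rw [Ps_apply, mul_sum]
      refine Submodule.sum_mem _ fun γ _ => ?_
      rcases hz with (⟨c, rfl⟩ | ⟨i, rfl⟩) | ⟨μ, rfl⟩
      · rw [← mul_assoc, M.e_u, mul_assoc, ← M.ι_e, ← map_mul]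
        exact M.Ps_mem _ _
      · obtain ⟨y', hy'⟩ := M.exists_norm (D.x i) γ
        rw [ι_x] at hy'
        rw [← mul_assoc, hy', mul_assoc, ← map_mul]
        exact M.Ps_mem _ _
      · rw [← mul_assoc, M.u_mul]
        exact M.Ps_mem _ _
    | algebraMap r =>
      intro w hw
      rw [← Algebra.smul_def]
      exact Submodule.smul_mem _ _ hw
    | add x y _ _ hx hy =>
      intro w hw
      rw [add_mul]
      exact Submodule.add_mem _ (hx w hw) (hy w hw)
    | mul x y _ _ hx hy =>
      intro w hw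
      rw [mul_assoc]
      exact hx _ (hy w hw)
  have := key 1 h1
  rwa [mul_one] at this

lemma Ps_injective (hne : ∀ c, D.e c ≠ 0) : Function.Injective M.Ps := by
  have hD := D.finrank_eq hne
  have := hD.1
  have := M.finiteDimensional
  refine (LinearMap.injective_iff_surjective_of_finrank_eq_finrank ?_).mpr M.Ps_surjective
  rw [Module.finrank_pi_fintype]
  simp only [hD.2, sum_const, card_univ, smul_eq_mul]
  rw [M.dim, mul_comm]

/-- coordinates -/
noncomputable def Pse (hne : ∀ c, D.e c ≠ 0) : (Γ → D.H) ≃ₗ[k] H :=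
  LinearEquiv.ofBijective M.Ps ⟨M.Ps_injective hne, M.Ps_surjective⟩

lemma comul_ι (y : D.H) : Coalgebra.comul (R := k) (M.ι y) =
    TensorProduct.map M.ι.toLinearMap M.ι.toLinearMap (Coalgebra.comul (R := k) y) := by
  have : (Bialgebra.comulAlgHom k H).comp (lift M.rels) =
      (Algebra.TensorProduct.map (lift M.rels) (lift M.rels)).comp D.comulA := by
    refine hom_ext ?_ ?_
    · intro c
      simp only [AlgHom.comp_apply, lift_e, comulA_e, Bialgebra.comulAlgHom_apply, M.comul_e, de,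
        map_sum, Algebra.TensorProduct.map_tmul]
    · intro i
      simp only [AlgHom.comp_apply, lift_x, comulA_x, Bialgebra.comulAlgHom_apply, M.comul_x, dx,
        map_add, Algebra.TensorProduct.map_tmul, map_one, s, HRels.sel, map_sum, map_smul,
        lift_e]
  have h3 := DFunLike.congr_fun this y
  exact h3

lemma counit_ι (y : D.H) :
    Coalgebra.counit (R := k) (M.ι y) = Coalgebra.counit (R := k) y := by
  have : (Bialgebra.counitAlgHom k H).comp (lift M.rels) = D.counitA := by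
    refine hom_ext ?_ ?_
    · intro c
      simp only [AlgHom.comp_apply, lift_e, counitA_e, Bialgebra.counitAlgHom_apply, M.counit_e]
    · intro i
      simp only [AlgHom.comp_apply, lift_x, counitA_x, Bialgebra.counitAlgHom_apply, M.counit_x]
  have h3 := DFunLike.congr_fun this y
  exact h3

variable [DecidableEq Γ]

/-- the smash product structure -/
noncomputable def sm (hne : ∀ c, D.e c ≠ 0) : Sm k D.H H Γ where
  ι := M.ι
  u := u
  q γ := (LinearMap.proj γ : (Γ → D.H) →ₗ[k] D.H) ∘ₗ (M.Pse hne).symm.toLinearMap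
  u_one := M.u_one
  u_mul := M.u_mul
  q_u γ γ' y := by
    change (M.Pse hne).symm (u γ' * M.ι y) γ = _
    have h1 : u γ' * M.ι y = M.Pse hne (Pi.single γ' y) := (M.Ps_single γ' y).symm
    rw [h1, LinearEquiv.symm_apply_apply, Pi.single_apply]
  sum_q h := (M.Pse hne).apply_symm_apply h
  norm := M.exists_norm
  comul_ι := M.comul_ι
  counit_ι := M.counit_ι
  comul_u := M.comul_u
  counit_u := M.counit_u

end GModel

end SGrp

namespace Sm

variable {H' H : Type u} [Ring H'] [Bialgebra k H'] [Ring H]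
    [Bialgebra k H] {Γ : Type} [Group Γ] [Fintype Γ] [DecidableEq Γ] (X : Sm k H' H Γ)
    (z0' : H' →ₗ[k] H')

/-- the antipode -/
noncomputable def ant : H →ₗ[k] H :=
  ∑ γ, LinearMap.mulRight k (X.u γ⁻¹) ∘ₗ X.ι.toLinearMap ∘ₗ z0' ∘ₗ X.q γ

lemma ant_apply (h : H) : X.ant z0' h = ∑ γ, X.ι (z0' (X.q γ h)) * X.u γ⁻¹ := by
  rw [ant, LinearMap.sum_apply]
  rfl

lemma ant_u (γ : Γ) (y : H') : X.ant z0' (X.u γ * X.ι y) = X.ι (z0' y) * X.u γ⁻¹ := by
  rw [ant_apply, Finset.sum_eq_single γ, X.q_u, if_pos rfl]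
  · intro μ _ h
    rw [X.q_u, if_neg h, map_zero, map_zero, zero_mul]
  · simp

lemma ant_left (hz0' : ∀ h : H', LinearMap.mul' k H' (z0'.rTensor H'
    (TensorProduct.comm k H' H' (Coalgebra.comul h))) = algebraMap k H' (Coalgebra.counit h))
    (h : H) : LinearMap.mul' k H ((X.ant z0').rTensor H
    (TensorProduct.comm k H H (Coalgebra.comul h))) = algebraMap k H (Coalgebra.counit h) := by
  refine X.ind (P := fun h => LinearMap.mul' k H ((X.ant z0').rTensor H
    (TensorProduct.comm k H H (Coalgebra.comul h))) = algebraMap k H (Coalgebra.counit h))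
    (by simp) ?_ ?_ h
  · intro a b ha hb
    simp only [map_add, ha, hb]
  · intro γ y
    have h1 : ∀ t : H' ⊗[k] H', LinearMap.mul' k H ((X.ant z0').rTensor H
        (TensorProduct.comm k H H ((X.u γ ⊗ₜ[k] X.u γ) *
          TensorProduct.map X.ι.toLinearMap X.ι.toLinearMap t))) =
        X.ι (LinearMap.mul' k H' (z0'.rTensor H' (TensorProduct.comm k H' H' t))) := by
      intro t
      induction t using TensorProduct.induction_on with
      | zero => simp
      | add a b ha hb => simp only [map_add, mul_add, ha, hb]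
      | tmul a b =>
        rw [TensorProduct.map_tmul, Algebra.TensorProduct.tmul_mul_tmul, TensorProduct.comm_tmul,
          LinearMap.rTensor_tmul, LinearMap.mul'_apply, AlgHom.toLinearMap_apply,
          AlgHom.toLinearMap_apply, ant_u, TensorProduct.comm_tmul, LinearMap.rTensor_tmul,
          LinearMap.mul'_apply, map_mul, mul_assoc, ← mul_assoc (X.u γ⁻¹), X.u_mul,
          inv_mul_cancel, X.u_one, one_mul]
    rw [Bialgebra.comul_mul, X.comul_u, X.comul_ι, h1, hz0', AlgHom.commutes,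
      Bialgebra.counit_mul, X.counit_u, X.counit_ι, one_mul]

end Sm

namespace SGrp

/-- Finite generation for the Drinfeld double, linearly reductive even part. -/
theorem GModel.fgc (h2 : (2 : k) ≠ 0) {D : SGrp k C n} {Γ : Type} [Group Γ] [Fintype Γ]
    (hΓ : (Fintype.card Γ : k) ≠ 0) {F : D.Act Γ} {H : Type u} [Ring H] [Bialgebra k H]
    {e : C → H} {x : Fin n → H} {u : Γ → H} (M : GModel D F e x u) :
    FGC k (Double.eps k H) := by
  classical
  have hne := D.ne_zero h2
  have hfin := (D.finrank_eq hne).1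
  have hfin' := M.finiteDimensional
  obtain ⟨L, hL, m, hm, ⟨ψ⟩⟩ := exists_psi C
  let _ : LinearOrder L := LinearOrder.lift' (Fintype.equivFin L) (Equiv.injective _)
  have HF := D.full2 h2
  obtain ⟨e1, g1, x1, t1⟩ := D.eps2 h2
  have he := Rels2.eps_ep HF h2 (Dbl.eps k D.H) e1 g1
  have key : FGC k (Dbl.eps k H) := by
    refine (M.sm hne).fgc ((M.sm hne).ant D.sant) ((M.sm hne).ant_left D.sant D.sant_left)
      D.sant D.sant_left (Rels2.twd HF h2 ψ) ?_ (fun l => g1 _) ?_ ?_ hΓ
    · change Dbl.eps k D.H (D.E 1 * Rels2.ep D D.E (D.gg h2)) = 1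
      rw [map_mul, e1, he, one_mul]
    · rintro (i | j)
      · change Dbl.eps k D.H (D.X i * Rels2.ep D D.E (D.gg h2)) = 0
        rw [map_mul, x1, zero_mul]
      · change Dbl.eps k D.H (Rels2.ci D (D.gg h2) j * D.tt j * Rels2.ep D D.E (D.gg h2)) = 0
        rw [map_mul, map_mul, t1, mul_zero, zero_mul]
    · exact Rels2.span_e2 HF h2 ψ (Dbl.eps k D.H) e1 g1 x1 t1
  exact key

end SGrp

end Pool.Agent.H170_FG
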