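import Pool.Agent.H170_FG.Tot

/-!
# Finite generation by a noetherianity argument
-/

universe u

open CategoryTheory

namespace Pool.Agent.H170_FG

namespace TotRes

variable {B : Type u} [Ring B] {T : ModuleCat.{u} B}
    {P : Type u} [AddCommGroup P] [Module B P] (X : TotRes B T P)

/-- Polynomial families of maps from the terms of the resolution to `M`. -/
structure Fam (k : Type u) [Field k] [Algebra k B] {J : Type} (lam : J → P →ₗ[B] P) {a : J → ℕ}
    (ha : ∀ j m n, m = n + a j → ∀ x ∈ X.R m, lam j x ∈ X.R n) (M : ModuleCat.{u} B)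
    (F : Type u) [AddCommGroup F] [Module (MvPolynomial J k) F] where
  psi : ∀ n, F →+ (X.R n →ₗ[B] M)
  psi_C : ∀ n (r : k) q x, psi n ((MvPolynomial.C r : MvPolynomial J k) • q) x = algebraMap k B r • psi n q x
  psi_X : ∀ j m n (h : m = n + a j) q x,
    psi m ((MvPolynomial.X j : MvPolynomial J k) • q) x = psi n q (X.lamR (lam j) (ha j) m n h x)
  psi_X_lt : ∀ j m, m < a j → ∀ q, psi m ((MvPolynomial.X j : MvPolynomial J k) • q) = 0
  bound : ∀ q, ∃ N, ∀ n, N ≤ n → psi n q = 0
  surj : ∀ n (g : X.R n →ₗ[B] M), ∃ q, psi n q = g ∧ ∀ m, m ≠ n → psi m q = 0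

namespace Fam

variable {X} {k : Type u} [Field k] [Algebra k B] {J : Type} {lam : J → P →ₗ[B] P} {a : J → ℕ}
    {ha : ∀ j m n, m = n + a j → ∀ x ∈ X.R m, lam j x ∈ X.R n} {M : ModuleCat.{u} B}
    {F : Type u} [AddCommGroup F] [Module (MvPolynomial J k) F] (Φ : Fam X k lam ha M F)

/-- cocycle condition -/
def IsCo (q : F) : Prop := ∀ n x, Φ.psi n q (X.dR n x) = 0

lemma isCo_X (hd : ∀ j x, lam j (X.d x) = X.d (lam j x)) (j : J) (q : F) (hq : Φ.IsCo q) :
    Φ.IsCo ((MvPolynomial.X j : MvPolynomial J k) • q) := by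
  intro n x
  by_cases h : n < a j
  · rw [Φ.psi_X_lt j n h q]
    rfl
  · obtain ⟨n', rfl⟩ : ∃ n', n = n' + a j := ⟨n - a j, by omega⟩
    rw [Φ.psi_X j _ n' rfl]
    have := hq n' (X.lamR (lam j) (ha j) (n' + a j + 1) (n' + 1) (by omega) x)
    rw [← this]
    congr 1
    exact Subtype.ext (hd j x)

lemma isCo_smul (hd : ∀ j x, lam j (X.d x) = X.d (lam j x)) (p : MvPolynomial J k) :
    ∀ (q : F), Φ.IsCo q → Φ.IsCo (p • q) := by
  induction p using MvPolynomial.induction_on with
  | C r =>
    intro q hq n x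
    rw [Φ.psi_C, hq, smul_zero]
  | add p p' hp hp' =>
    intro q hq n x
    rw [add_smul, map_add, LinearMap.add_apply, hp q hq, hp' q hq, add_zero]
  | mul_X p j hp =>
    intro q hq
    rw [mul_smul]
    exact hp _ (Φ.isCo_X hd j q hq)

/-- the submodule of cocycles -/
def co (hd : ∀ j x, lam j (X.d x) = X.d (lam j x)) : Submodule (MvPolynomial J k) F where
  carrier := {q | Φ.IsCo q}
  add_mem' {q q'} hq hq' n x := by rw [map_add, LinearMap.add_apply, hq, hq', add_zero]
  zero_mem' n x := by rw [map_zero, LinearMap.zero_apply]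
  smul_mem' p q hq := Φ.isCo_smul hd p q hq

/-- the map from the cokernel belonging to a cocycle -/
noncomputable def gb (n : ℕ) (q : F) (hq : Φ.IsCo q) : X.cut.W n ⟶ M :=
  ModuleCat.ofHom ((LinearMap.range (X.dR n)).liftQ (Φ.psi n q) (by
    rintro _ ⟨x, rfl⟩
    exact hq n x))

lemma gb_mk (n : ℕ) (q : F) (hq : Φ.IsCo q) (x : X.R n) :
    (Φ.gb n q hq).hom (Submodule.Quotient.mk x : X.WW n) = Φ.psi n q x := rfl

lemma hom_ext' {n : ℕ} {g g' : X.cut.W n ⟶ M}
    (h : ∀ x : X.R n, g.hom (Submodule.Quotient.mk x : X.WW n) =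
      g'.hom (Submodule.Quotient.mk x : X.WW n)) : g = g' := by
  refine ModuleCat.hom_ext (LinearMap.ext fun x => ?_)
  obtain ⟨x, rfl⟩ := Submodule.Quotient.mk_surjective _ x
  exact h x

include Φ in
theorem exists_finset [Finite J] [Module.Finite (MvPolynomial J k) F]
    (hd : ∀ j x, lam j (X.d x) = X.d (lam j x)) :
    ∃ S : Finset (Σ n, X.cut.W n ⟶ M), ∀ Q : ∀ n, (X.cut.W n ⟶ M) → Prop,
      CutRes.Closed k (fun j => X.op (lam j) (hd j) (ha j)) Q → (∀ s ∈ S, Q s.1 s.2) →
        ∀ n g, Q n g := by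
  classical
  have hN : IsNoetherian (MvPolynomial J k) F := inferInstance
  obtain ⟨A, hA⟩ := hN.noetherian (Φ.co hd)
  choose N hNb using Φ.bound
  have hAco : ∀ q ∈ A, Φ.IsCo q := by
    intro q hq
    have : q ∈ Φ.co hd := by
      rw [← hA]
      exact Submodule.subset_span hq
    exact this
  refine ⟨A.attach.biUnion (fun q => (Finset.range (N q.1)).image
    (fun n => ⟨n, Φ.gb n q.1 (hAco q.1 q.2)⟩)), ?_⟩
  intro Q hQ hS
  have hgb0 : ∀ n q (hq : Φ.IsCo q), Φ.psi n q = 0 → Q n (Φ.gb n q hq) := by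
    intro n q hq h
    have : Φ.gb n q hq = 0 := by
      apply hom_ext'
      intro x
      rw [gb_mk, h]
      rfl
    rw [this]
    exact hQ.zero n
  have hsm : ∀ p : MvPolynomial J k, ∀ q, Φ.IsCo q → (∀ h n, Q n (Φ.gb n q h)) →
      ∀ h n, Q n (Φ.gb n (p • q) h) := by
    intro p
    induction p using MvPolynomial.induction_on with
    | C r =>
      intro q hq hQq h n
      have : Φ.gb n ((MvPolynomial.C r : MvPolynomial J k) • q) h = r • Φ.gb n q hq := by
        apply hom_ext'
        intro x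
        rw [gb_mk, Φ.psi_C]
        rfl
      rw [this]
      exact hQ.smul n r _ (hQq hq n)
    | add p p' hp hp' =>
      intro q hq hQq h n
      have h1 := Φ.isCo_smul hd p q hq
      have h2 := Φ.isCo_smul hd p' q hq
      have : Φ.gb n ((p + p') • q) h = Φ.gb n (p • q) h1 + Φ.gb n (p' • q) h2 := by
        apply hom_ext'
        intro x
        rw [gb_mk, add_smul, map_add]
        rfl
      rw [this]
      exact hQ.add n _ _ (hp q hq hQq h1 n) (hp' q hq hQq h2 n)
    | mul_X p j hp =>
      intro q hq hQq h n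
      have h1 := Φ.isCo_X hd j q hq
      have h2 := Φ.isCo_smul hd p _ h1
      have h3 : Φ.gb n ((p * MvPolynomial.X j) • q) h = Φ.gb n (p • (MvPolynomial.X j :
          MvPolynomial J k) • q) h2 := by
        apply hom_ext'
        intro x
        rw [gb_mk, gb_mk, mul_smul]
      rw [h3]
      refine hp _ h1 ?_ h2 n
      intro h4 m
      by_cases hm : m < a j
      · exact hgb0 m _ h4 (Φ.psi_X_lt j m hm q)
      · obtain ⟨n', rfl⟩ : ∃ n', m = n' + a j := ⟨m - a j, by omega⟩
        have h5 : Φ.gb (n' + a j) ((MvPolynomial.X j : MvPolynomial J k) • q) h4 =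
            (X.op (lam j) (hd j) (ha j)).w (n' + a j) n' rfl ≫ Φ.gb n' q hq := by
          apply hom_ext'
          intro x
          rw [gb_mk, Φ.psi_X j _ n' rfl]
          rfl
        rw [h5]
        exact hQ.op j _ n' rfl _ (hQq hq n')
  have key : ∀ q, q ∈ Submodule.span (MvPolynomial J k) (A : Set F) → ∀ h n,
      Q n (Φ.gb n q h) := by
    intro q hq
    induction hq using Submodule.span_induction with
    | mem q hq =>
      intro h n
      by_cases hn : N q ≤ n
      · exact hgb0 n q h (hNb q n hn)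
      · refine hS ⟨n, Φ.gb n q h⟩ ?_
        simp only [Finset.mem_biUnion, Finset.mem_attach, true_and, Subtype.exists,
          Finset.mem_image, Finset.mem_range]
        exact ⟨q, hq, n, by omega, rfl⟩
    | zero =>
      intro h n
      exact hgb0 n 0 h (map_zero _)
    | add q q' hq hq' ih ih' =>
      intro h n
      have h1 : Φ.IsCo q := by
        have : q ∈ Φ.co hd := by rw [← hA]; exact hq
        exact this
      have h2 : Φ.IsCo q' := by
        have : q' ∈ Φ.co hd := by rw [← hA]; exact hq'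
        exact this
      have : Φ.gb n (q + q') h = Φ.gb n q h1 + Φ.gb n q' h2 := by
        apply hom_ext'
        intro x
        rw [gb_mk, map_add]
        rfl
      rw [this]
      exact hQ.add n _ _ (ih h1 n) (ih' h2 n)
    | smul p q hq ih =>
      have h1 : Φ.IsCo q := by
        have : q ∈ Φ.co hd := by rw [← hA]; exact hq
        exact this
      exact hsm p q h1 ih
  intro n g
  obtain ⟨q, hq, hq'⟩ := Φ.surj n (g.hom.comp (X.gW n))
  have hco : Φ.IsCo q := by
    intro m x
    by_cases hm : m = n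
    · subst hm
      rw [hq]
      change g.hom (X.gW m (X.dR m x)) = 0
      have : X.gW m (X.dR m x) = 0 := (Submodule.Quotient.mk_eq_zero _).mpr ⟨x, rfl⟩
      rw [this]
      exact map_zero _
    · rw [hq' m hm]
      rfl
  have hg : g = Φ.gb n q hco := by
    apply hom_ext'
    intro x
    rw [gb_mk, hq]
    rfl
  rw [hg]
  exact key q (by rw [hA]; exact hco) hco n

end Fam

end TotRes

end Pool.Agent.H170_FG
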