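import Mathlib

/-!
# The algebra presented by orthogonal idempotents, central group-like elements and odd elements
-/

universe u

open Finset

namespace Pool.Agent.H170_FG

/-- Generators: idempotents `e c`, group-like elements `g c`, odd elements `w a`. -/
inductive Gen (C I : Type) : Type
  | e (c : C)
  | g (c : C)
  | w (a : I ⊕ I)

/-- weights of the odd generators -/
def om {C I : Type} [CommGroup C] (χ : I → C) : I ⊕ I → C := Sum.elim χ (fun i => (χ i)⁻¹)

/-- The relations. -/
structure Rels {C I : Type} [CommGroup C] [Fintype C] [DecidableEq C] (χ : I → C)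
    {A : Type u} [Ring A] (e g : C → A) (w : I ⊕ I → A) : Prop where
  ee : ∀ c c', e c * e c' = if c = c' then e c else 0
  e_sum : ∑ c, e c = 1
  g_one : g 1 = 1
  g_mul : ∀ c c', g c * g c' = g (c * c')
  g_e : ∀ c c', g c * e c' = e c' * g c
  g_w : ∀ c a, g c * w a = w a * g c
  w_e : ∀ a c, w a * e c = e (om χ a * c) * w a
  w_sq : ∀ a, w a * w a = 0
  w_pair : ∀ i, w (Sum.inl i) * w (Sum.inr i) + w (Sum.inr i) * w (Sum.inl i) = g (χ i) - 1
  w_anti : ∀ a b, a ≠ b → a ≠ b.swap → w a * w b + w b * w a = 0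

section

variable (k : Type u) [Field k] {C I : Type} [CommGroup C] [Fintype C] [DecidableEq C]
  (χ : I → C)

/-- idempotents in the free algebra -/
def fe (c : C) : FreeAlgebra k (Gen C I) := FreeAlgebra.ι k (Gen.e c)
/-- group-likes in the free algebra -/
def fg (c : C) : FreeAlgebra k (Gen C I) := FreeAlgebra.ι k (Gen.g c)
/-- odd elements in the free algebra -/
def fw (a : I ⊕ I) : FreeAlgebra k (Gen C I) := FreeAlgebra.ι k (Gen.w a)

/-- The defining relations, in the free algebra. -/
inductive BRel : FreeAlgebra k (Gen C I) → FreeAlgebra k (Gen C I) → Prop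
  | ee (c c' : C) : BRel (fe k c * fe k c') (if c = c' then fe k c else 0)
  | e_sum : BRel (∑ c, fe k c) 1
  | g_one : BRel (fg k 1) 1
  | g_mul (c c' : C) : BRel (fg k c * fg k c') (fg k (c * c'))
  | g_e (c c' : C) : BRel (fg k c * fe k c') (fe k c' * fg k c)
  | g_w (c : C) (a : I ⊕ I) : BRel (fg k c * fw k a) (fw k a * fg k c)
  | w_e (a : I ⊕ I) (c : C) : BRel (fw k a * fe k c) (fe k (om χ a * c) * fw k a)
  | w_sq (a : I ⊕ I) : BRel (fw k a * fw k a) 0
  | w_pair (i : I) : BRel (fw k (Sum.inl i) * fw k (Sum.inr i) +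
      fw k (Sum.inr i) * fw k (Sum.inl i)) (fg k (χ i) - 1)
  | w_anti (a b : I ⊕ I) : a ≠ b → a ≠ b.swap → BRel (fw k a * fw k b + fw k b * fw k a) 0

/-- The presented algebra. -/
abbrev BB : Type u := RingQuot (BRel k χ)

namespace BB

/-- idempotents -/
def e (c : C) : BB k χ := RingQuot.mkAlgHom k (BRel k χ) (fe k c)
/-- group-likes -/
def g (c : C) : BB k χ := RingQuot.mkAlgHom k (BRel k χ) (fg k c)
/-- odd elements -/
def w (a : I ⊕ I) : BB k χ := RingQuot.mkAlgHom k (BRel k χ) (fw k a)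

theorem rels : Rels χ (e k χ) (g k χ) (w k χ) where
  ee c c' := by
    have := RingQuot.mkAlgHom_rel k (BRel.ee (k := k) (χ := χ) c c')
    rw [map_mul] at this
    rw [e, e, this]
    split_ifs <;> simp
  e_sum := by
    have := RingQuot.mkAlgHom_rel k (BRel.e_sum (k := k) (χ := χ))
    simpa using! this
  g_one := by
    have := RingQuot.mkAlgHom_rel k (BRel.g_one (k := k) (χ := χ))
    simpa using! this
  g_mul c c' := by
    have := RingQuot.mkAlgHom_rel k (BRel.g_mul (k := k) (χ := χ) c c')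
    simpa using! this
  g_e c c' := by
    have := RingQuot.mkAlgHom_rel k (BRel.g_e (k := k) (χ := χ) c c')
    simpa using! this
  g_w c a := by
    have := RingQuot.mkAlgHom_rel k (BRel.g_w (k := k) (χ := χ) c a)
    simpa using! this
  w_e a c := by
    have := RingQuot.mkAlgHom_rel k (BRel.w_e (k := k) (χ := χ) a c)
    simpa using! this
  w_sq a := by
    have := RingQuot.mkAlgHom_rel k (BRel.w_sq (k := k) (χ := χ) a)
    simpa using! this
  w_pair i := by
    have := RingQuot.mkAlgHom_rel k (BRel.w_pair (k := k) (χ := χ) i)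
    simpa using! this
  w_anti a b h h' := by
    have := RingQuot.mkAlgHom_rel k (BRel.w_anti (k := k) (χ := χ) a b h h')
    simpa using! this

variable {k χ} {A : Type u} [Ring A] [Algebra k A] {e' g' : C → A} {w' : I ⊕ I → A}

/-- values on the generators -/
def genMap (e' g' : C → A) (w' : I ⊕ I → A) : Gen C I → A
  | Gen.e c => e' c
  | Gen.g c => g' c
  | Gen.w a => w' a

/-- The universal property. -/
noncomputable def lift (h : Rels χ e' g' w') : BB k χ →ₐ[k] A :=
  RingQuot.liftAlgHom k ⟨FreeAlgebra.lift k (genMap e' g' w'), by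
    have he : ∀ c, FreeAlgebra.lift k (genMap e' g' w') (fe k c) = e' c := fun c => by
      simp [fe, genMap]
    have hg : ∀ c, FreeAlgebra.lift k (genMap e' g' w') (fg k c) = g' c := fun c => by
      simp [fg, genMap]
    have hw : ∀ a, FreeAlgebra.lift k (genMap e' g' w') (fw k a) = w' a := fun a => by
      simp [fw, genMap]
    intro x y hxy
    cases hxy with
    | ee c c' =>
      rw [map_mul, he, he, h.ee]
      split_ifs <;> simp [he]
    | e_sum => simp [he, h.e_sum]
    | g_one => simp [hg, h.g_one]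
    | g_mul c c' => simp [hg, h.g_mul]
    | g_e c c' => simp [hg, he, h.g_e]
    | g_w c a => simp [hg, hw, h.g_w]
    | w_e a c => simp [he, hw, h.w_e]
    | w_sq a => simp [hw, h.w_sq]
    | w_pair i => simp [hg, hw, h.w_pair]
    | w_anti a b h1 h2 => simp [hw, h.w_anti a b h1 h2]⟩

lemma lift_e (h : Rels χ e' g' w') (c : C) : lift (k := k) h (e k χ c) = e' c := by
  simp [lift, e, fe, genMap]

lemma lift_g (h : Rels χ e' g' w') (c : C) : lift (k := k) h (g k χ c) = g' c := by
  simp [lift, g, fg, genMap]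

lemma lift_w (h : Rels χ e' g' w') (a : I ⊕ I) : lift (k := k) h (w k χ a) = w' a := by
  simp [lift, w, fw, genMap]

/-- the generating set -/
def gens (k : Type u) [Field k] (χ : I → C) : Set (BB k χ) :=
  Set.range (e k χ) ∪ Set.range (g k χ) ∪ Set.range (w k χ)

theorem adjoin_gens : Algebra.adjoin k (gens k χ) = ⊤ := by
  have h1 : Algebra.adjoin k (Set.range (FreeAlgebra.ι k : Gen C I → _)) = ⊤ :=
    FreeAlgebra.adjoin_range_ι k (Gen C I)
  have h2 : Function.Surjective (RingQuot.mkAlgHom k (BRel k χ)) :=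
    RingQuot.mkAlgHom_surjective k _
  have h3 : (Algebra.adjoin k (Set.range (FreeAlgebra.ι k : Gen C I → _))).map
      (RingQuot.mkAlgHom k (BRel k χ)) = ⊤ := by
    rw [h1, Algebra.map_top, AlgHom.range_eq_top]
    exact h2
  rw [← h3, AlgHom.map_adjoin]
  congr 1
  ext x
  constructor
  · rintro ((⟨c, rfl⟩ | ⟨c, rfl⟩) | ⟨a, rfl⟩)
    · exact ⟨_, ⟨Gen.e c, rfl⟩, rfl⟩
    · exact ⟨_, ⟨Gen.g c, rfl⟩, rfl⟩
    · exact ⟨_, ⟨Gen.w a, rfl⟩, rfl⟩
  · rintro ⟨_, ⟨c | c | a, rfl⟩, rfl⟩
    · exact Or.inl (Or.inl ⟨c, rfl⟩)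
    · exact Or.inl (Or.inr ⟨c, rfl⟩)
    · exact Or.inr ⟨a, rfl⟩

end BB

end

end Pool.Agent.H170_FG
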