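import Pool.Agent.H170_FG.DH2

/-!
# The presented algebra, arbitrary bracket
-/

set_option linter.unusedSectionVars false

universe u

open Finset

namespace Pool.Agent.H170_FG

/-- Generators. -/
inductive Gen2 (C : Type) (n : ℕ) : Type
  | e (c : C)
  | g (c : C)
  | x (i : Fin n)
  | t (i : Fin n)

section

variable (k : Type u) [Field k] {C : Type} [CommGroup C] [Fintype C] [DecidableEq C] {n : ℕ}

/-- idempotents in the free algebra -/
def ge (c : C) : FreeAlgebra k (Gen2 C n) := FreeAlgebra.ι k (Gen2.e c)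
/-- group-likes in the free algebra -/
def gp (c : C) : FreeAlgebra k (Gen2 C n) := FreeAlgebra.ι k (Gen2.g c)
/-- odd elements in the free algebra -/
def gx (a : Fin n) : FreeAlgebra k (Gen2 C n) := FreeAlgebra.ι k (Gen2.x a)
/-- odd elements in the free algebra -/
def gt (a : Fin n) : FreeAlgebra k (Gen2 C n) := FreeAlgebra.ι k (Gen2.t a)

variable {k}

/-- The defining relations, in the free algebra. -/
inductive BRel2 (D : SGrp k C n) : FreeAlgebra k (Gen2 C n) → FreeAlgebra k (Gen2 C n) → Prop
  | ee (c c' : C) : BRel2 D (ge k c * ge k c') (if c = c' then ge k c else 0)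
  | e_sum : BRel2 D (∑ c, ge k c) 1
  | x_e (i : Fin n) (c : C) : BRel2 D (gx k i * ge k c) (ge k (D.χ i * c) * gx k i)
  | x_sq (i : Fin n) : BRel2 D (gx k i * gx k i) (∑ c, D.β i i c • ge k c)
  | x_anti (i j : Fin n) : i ≠ j → BRel2 D (gx k i * gx k j + gx k j * gx k i)
      (∑ c, D.β i j c • ge k c)
  | g_one : BRel2 D (gp k 1) 1
  | g_mul (c c' : C) : BRel2 D (gp k c * gp k c') (gp k (c * c'))
  | g_e (c c' : C) : BRel2 D (gp k c * ge k c') (ge k c' * gp k c)
  | g_t (c : C) (j : Fin n) : BRel2 D (gp k c * gt k j) (gt k j * gp k c)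
  | t_e (j : Fin n) (c : C) : BRel2 D (gt k j * ge k c) (ge k ((D.χ j)⁻¹ * c) * gt k j)
  | t_sq (j : Fin n) : BRel2 D (gt k j * gt k j) 0
  | t_anti (i j : Fin n) : i ≠ j → BRel2 D (gt k i * gt k j + gt k j * gt k i) 0
  | x_t (i j : Fin n) : BRel2 D (gx k i * gt k j + gt k j * gx k i)
      (if i = j then gp k (D.χ i) - 1 else 0)
  | x_g (i : Fin n) (c : C) : BRel2 D (gx k i * gp k c) (gp k c * gx k i +
      ∑ m, D.ga i m c • ((1 + gp k (D.χ m)⁻¹) * (gt k m * gp k c)))

variable (D : SGrp k C n)

/-- The presented algebra. -/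
abbrev BB2 : Type u := RingQuot (BRel2 D)

namespace BB2

/-- the quotient map -/
noncomputable def mk : FreeAlgebra k (Gen2 C n) →ₐ[k] BB2 D := RingQuot.mkAlgHom k (BRel2 D)

variable {D} in
lemma mk_rel {a b : FreeAlgebra k (Gen2 C n)} (h : BRel2 D a b) : mk D a = mk D b :=
  RingQuot.mkAlgHom_rel k h

/-- idempotents -/
noncomputable def e (c : C) : BB2 D := mk D (ge k c)
/-- group-likes -/
noncomputable def g (c : C) : BB2 D := mk D (gp k c)
/-- odd elements -/
noncomputable def x (a : Fin n) : BB2 D := mk D (gx k a)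
/-- odd elements -/
noncomputable def t (a : Fin n) : BB2 D := mk D (gt k a)

theorem rels : Rels2 D (e D) (g D) (x D) (t D) where
  hr :=
    { ee := fun c c' => by
        have := mk_rel (BRel2.ee (D := D) c c')
        rw [map_mul] at this
        refine this.trans ?_
        split_ifs <;> simp [e]
      e_sum := by
        have := mk_rel (BRel2.e_sum (D := D))
        rw [map_sum, map_one] at this
        exact this
      x_e := fun i c => by
        have := mk_rel (BRel2.x_e (D := D) i c)
        rw [map_mul, map_mul] at this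
        exact this
      x_sq := fun i => by
        have := mk_rel (BRel2.x_sq (D := D) i)
        rw [map_mul, map_sum] at this
        simp only [map_smul] at this
        exact this
      x_anti := fun i j h => by
        have := mk_rel (BRel2.x_anti (D := D) i j h)
        rw [map_add, map_mul, map_mul, map_sum] at this
        simp only [map_smul] at this
        exact this }
  g_one := by
    have := mk_rel (BRel2.g_one (D := D))
    rw [map_one] at this
    exact this
  g_mul c c' := by
    have := mk_rel (BRel2.g_mul (D := D) c c')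
    rw [map_mul] at this
    exact this
  g_e c c' := by
    have := mk_rel (BRel2.g_e (D := D) c c')
    rw [map_mul, map_mul] at this
    exact this
  g_t c a := by
    have := mk_rel (BRel2.g_t (D := D) c a)
    rw [map_mul, map_mul] at this
    exact this
  t_e a c := by
    have := mk_rel (BRel2.t_e (D := D) a c)
    rw [map_mul, map_mul] at this
    exact this
  t_sq a := by
    have := mk_rel (BRel2.t_sq (D := D) a)
    rw [map_mul, map_zero] at this
    exact this
  t_anti i j h := by
    have := mk_rel (BRel2.t_anti (D := D) i j h)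
    rw [map_add, map_mul, map_mul, map_zero] at this
    exact this
  x_t i j := by
    have := mk_rel (BRel2.x_t (D := D) i j)
    rw [map_add, map_mul, map_mul] at this
    refine this.trans ?_
    split_ifs
    · rw [map_sub, map_one]; rfl
    · rw [map_zero]
  x_g i c := by
    have := mk_rel (BRel2.x_g (D := D) i c)
    rw [map_add, map_mul, map_mul, map_sum] at this
    simp only [map_smul, map_mul, map_add, map_one] at this
    exact this

variable {D} {A : Type u} [Ring A] [Algebra k A] {e' g' : C → A} {x' t' : Fin n → A}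

/-- values on the generators -/
def genMap (e' g' : C → A) (x' t' : Fin n → A) : Gen2 C n → A
  | Gen2.e c => e' c
  | Gen2.g c => g' c
  | Gen2.x a => x' a
  | Gen2.t a => t' a

lemma lift_aux (h : Rels2 D e' g' x' t') ⦃a b : FreeAlgebra k (Gen2 C n)⦄ (hab : BRel2 D a b) :
    FreeAlgebra.lift k (genMap e' g' x' t') a = FreeAlgebra.lift k (genMap e' g' x' t') b := by
  have he : ∀ c, FreeAlgebra.lift k (genMap e' g' x' t') (ge k c) = e' c := fun c => by
    simp [ge, genMap]
  have hg : ∀ c, FreeAlgebra.lift k (genMap e' g' x' t') (gp k c) = g' c := fun c => by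
    simp [gp, genMap]
  have hx : ∀ a, FreeAlgebra.lift k (genMap e' g' x' t') (gx k a) = x' a := fun a => by
    simp [gx, genMap]
  have ht : ∀ a, FreeAlgebra.lift k (genMap e' g' x' t') (gt k a) = t' a := fun a => by
    simp [gt, genMap]
  cases hab with
  | ee c c' =>
    rw [map_mul, he, he, h.hr.ee]
    split_ifs <;> simp [he]
  | e_sum => simp [he, h.hr.e_sum]
  | x_e i c => simp [he, hx, h.hr.x_e]
  | x_sq i => simp [hx, he, h.hr.x_sq]
  | x_anti i j hij => simp [hx, he, h.hr.x_anti i j hij]
  | g_one => simp [hg, h.g_one]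
  | g_mul c c' => simp [hg, h.g_mul]
  | g_e c c' => simp [hg, he, h.g_e]
  | g_t c a => simp [hg, ht, h.g_t]
  | t_e a c => simp [he, ht, h.t_e]
  | t_sq a => simp [ht, h.t_sq]
  | t_anti i j hij => simp [ht, h.t_anti i j hij]
  | x_t i j =>
    rw [map_add, map_mul, map_mul, hx, ht, h.x_t]
    split_ifs <;> simp [hg]
  | x_g i c =>
    rw [map_mul, hx, hg, h.x_g, map_add, map_mul, map_sum, hg, hx]
    congr 1
    refine sum_congr rfl fun m _ => ?_
    rw [map_smul, map_mul, map_mul, map_add, map_one, hg, hg, ht]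

/-- The universal property. -/
noncomputable def lift (h : Rels2 D e' g' x' t') : BB2 D →ₐ[k] A :=
  RingQuot.liftAlgHom k ⟨FreeAlgebra.lift k (genMap e' g' x' t'), lift_aux h⟩

lemma lift_mk (h : Rels2 D e' g' x' t') (a : FreeAlgebra k (Gen2 C n)) :
    lift h (mk D a) = FreeAlgebra.lift k (genMap e' g' x' t') a :=
  RingQuot.liftAlgHom_mkAlgHom_apply k (FreeAlgebra.lift k (genMap e' g' x' t')) (lift_aux h) a

lemma lift_e (h : Rels2 D e' g' x' t') (c : C) : lift h (e D c) = e' c := by
  rw [e, lift_mk]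
  simp [ge, genMap]

lemma lift_g (h : Rels2 D e' g' x' t') (c : C) : lift h (g D c) = g' c := by
  rw [g, lift_mk]
  simp [gp, genMap]

lemma lift_x (h : Rels2 D e' g' x' t') (c : Fin n) : lift h (x D c) = x' c := by
  rw [x, lift_mk]
  simp [gx, genMap]

lemma lift_t (h : Rels2 D e' g' x' t') (c : Fin n) : lift h (t D c) = t' c := by
  rw [t, lift_mk]
  simp [gt, genMap]

theorem adjoin_gens : Algebra.adjoin k
    (Set.range (e D) ∪ Set.range (g D) ∪ Set.range (x D) ∪ Set.range (t D)) = ⊤ := by
  have h1 : Algebra.adjoin k (Set.range (FreeAlgebra.ι k : Gen2 C n → _)) = ⊤ :=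
    FreeAlgebra.adjoin_range_ι k (Gen2 C n)
  have h2 : Function.Surjective (mk D) := RingQuot.mkAlgHom_surjective k _
  have h3 : (Algebra.adjoin k (Set.range (FreeAlgebra.ι k : Gen2 C n → _))).map (mk D) = ⊤ := by
    rw [h1, Algebra.map_top, AlgHom.range_eq_top]
    exact h2
  rw [← h3, AlgHom.map_adjoin]
  congr 1
  ext x
  constructor
  · rintro (((⟨c, rfl⟩ | ⟨c, rfl⟩) | ⟨a, rfl⟩) | ⟨a, rfl⟩)
    · exact ⟨_, ⟨Gen2.e c, rfl⟩, rfl⟩
    · exact ⟨_, ⟨Gen2.g c, rfl⟩, rfl⟩
    · exact ⟨_, ⟨Gen2.x a, rfl⟩, rfl⟩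
    · exact ⟨_, ⟨Gen2.t a, rfl⟩, rfl⟩
  · rintro ⟨_, ⟨c | c | a | a, rfl⟩, rfl⟩
    · exact Or.inl (Or.inl (Or.inl ⟨c, rfl⟩))
    · exact Or.inl (Or.inl (Or.inr ⟨c, rfl⟩))
    · exact Or.inl (Or.inr ⟨a, rfl⟩)
    · exact Or.inr ⟨a, rfl⟩

end BB2

end

end Pool.Agent.H170_FG
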