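import Pool.Agent.H170_FG.Pres
import Pool.Agent.H170_FG.Res

/-!
# A spanning set of the presented algebra
-/

universe u

open Finset Module

namespace Pool.Agent.H170_FG

section

variable {k : Type u} [Field k] {A : Type u} [Ring A] [Algebra k A]

lemma finrank_mul_le' (M N : Submodule k A) [FiniteDimensional k M] [FiniteDimensional k N] :
    FiniteDimensional k (M * N : Submodule k A) ∧
      finrank k (M * N : Submodule k A) ≤ finrank k M * finrank k N := by
  have h := Submodule.mulMap_range M N
  have h1 : FiniteDimensional k (LinearMap.range (Submodule.mulMap M N)) := inferInstance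
  have h2 := LinearMap.finrank_range_le (Submodule.mulMap M N)
  rw [Module.finrank_tensorProduct] at h2
  rw [h] at h1 h2
  exact ⟨h1, h2⟩

/-- The subalgebra generated by anticommuting elements of square zero has dimension at most
`2^n`. -/
lemma finrank_adjoin_le {n : ℕ} (y : Fin n → A) (hsq : ∀ i, y i * y i = 0)
    (hanti : ∀ i j, i ≠ j → y i * y j + y j * y i = 0) :
    FiniteDimensional k (Algebra.adjoin k (Set.range y)) ∧
      finrank k (Algebra.adjoin k (Set.range y)) ≤ 2 ^ n := by
  classical
  let f : (Fin n → k) →ₗ[k] A := Fintype.linearCombination k y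
  have hf : ∀ v, f v * f v = 0 := by
    intro v
    have : f v = ∑ i, v i • y i := by
      simp [f, Fintype.linearCombination_apply]
    rw [this]
    refine KD.sum_sq univ (fun i => v i • y i) ?_ ?_
    · intro i
      simp [hsq]
    · intro i j hij
      rw [smul_mul_smul_comm, smul_mul_smul_comm, mul_comm (v j), ← smul_add, hanti i j hij,
        smul_zero]
  let F : ExteriorAlgebra k (Fin n → k) →ₐ[k] A := ExteriorAlgebra.lift k ⟨f, hf⟩
  have hF : ∀ i, F (ExteriorAlgebra.ι k (Pi.single i 1)) = y i := by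
    intro i
    simp [F, f, Fintype.linearCombination_apply, Pi.single_apply]
  have hle : Algebra.adjoin k (Set.range y) ≤ F.range := by
    rw [Algebra.adjoin_le_iff]
    rintro _ ⟨i, rfl⟩
    exact ⟨_, hF i⟩
  let b := (Pi.basisFun k (Fin n)).ExteriorAlgebra
  have hfin : FiniteDimensional k (ExteriorAlgebra k (Fin n → k)) := Module.Finite.of_basis b
  have hrank : finrank k (ExteriorAlgebra k (Fin n → k)) = 2 ^ n := by
    rw [Module.finrank_eq_card_basis b]
    simp
  have h1 : FiniteDimensional k F.range :=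
    (inferInstance : FiniteDimensional k (LinearMap.range F.toLinearMap))
  have h2 : finrank k F.range ≤ 2 ^ n := by
    rw [← hrank]
    exact LinearMap.finrank_range_le F.toLinearMap
  have hle' : Subalgebra.toSubmodule (Algebra.adjoin k (Set.range y)) ≤
      Subalgebra.toSubmodule F.range := hle
  have h3 : FiniteDimensional k (Subalgebra.toSubmodule F.range) := h1
  exact ⟨Submodule.finiteDimensional_of_le hle', (Submodule.finrank_mono hle').trans h2⟩

end

section

variable {k : Type u} [Field k] {C : Type} [CommGroup C] [Fintype C] [DecidableEq C]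
  {n : ℕ} {χ : Fin n → C} {A : Type u} [Ring A] [Algebra k A]
  {e g : C → A} {w : Fin n ⊕ Fin n → A} (h : Rels χ e g w)

namespace Rels

/-- span of the idempotents -/
def sE (k : Type u) [Field k] [Algebra k A] (e : C → A) : Submodule k A :=
  Submodule.span k (Set.range e)

/-- the subalgebra generated by the elements `x i` -/
def sX (k : Type u) [Field k] [Algebra k A] (w : Fin n ⊕ Fin n → A) : Subalgebra k A :=
  Algebra.adjoin k (Set.range fun i => w (Sum.inl i))

/-- the subalgebra generated by the elements `θ i` -/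
def sT (k : Type u) [Field k] [Algebra k A] (w : Fin n ⊕ Fin n → A) : Subalgebra k A :=
  Algebra.adjoin k (Set.range fun i => w (Sum.inr i))

/-- the product of the last three -/
def sN (k : Type u) [Field k] [Algebra k A] (e : C → A) (w : Fin n ⊕ Fin n → A) :
    Submodule k A :=
  Subalgebra.toSubmodule (sT k w) * Subalgebra.toSubmodule (sX k w) * sE k e

include h in
lemma e_w (a : Fin n ⊕ Fin n) (c : C) : e c * w a = w a * e ((om χ a)⁻¹ * c) := by
  rw [h.w_e, mul_inv_cancel_left]

include h in
lemma sE_mul_sE : sE k e * sE k e ≤ sE k e := by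
  rw [sE, Submodule.span_mul_span, Submodule.span_le]
  rintro _ ⟨_, ⟨c, rfl⟩, _, ⟨c', rfl⟩, rfl⟩
  change e c * e c' ∈ _
  rw [h.ee]
  split_ifs
  · exact Submodule.subset_span ⟨c, rfl⟩
  · exact Submodule.zero_mem _

include h in
lemma one_mem_sE : (1 : A) ∈ sE k e := by
  rw [← h.e_sum]
  exact Submodule.sum_mem _ fun c _ => Submodule.subset_span ⟨c, rfl⟩

omit [CommGroup C] [DecidableEq C] in
lemma finrank_sE : FiniteDimensional k (sE k e) ∧ finrank k (sE k e) ≤ Fintype.card C :=
  ⟨FiniteDimensional.span_of_finite k (Set.finite_range e), finrank_range_le_card e⟩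

include h in
lemma finrank_sT : FiniteDimensional k (sT k w) ∧ finrank k (sT k w) ≤ 2 ^ n :=
  finrank_adjoin_le _ (fun i => h.w_sq _) fun i j hij => h.w_anti _ _ (by simpa using hij) (by simp)

include h in
lemma finrank_sX : FiniteDimensional k (sX k w) ∧ finrank k (sX k w) ≤ 2 ^ n :=
  finrank_adjoin_le _ (fun i => h.w_sq _) fun i j hij => h.w_anti _ _ (by simpa using hij) (by simp)

include h in
lemma finrank_sN : FiniteDimensional k (sN k e w) ∧
    finrank k (sN k e w) ≤ 2 ^ n * 2 ^ n * Fintype.card C := by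
  have h1 : FiniteDimensional k (Subalgebra.toSubmodule (sT k w)) := h.finrank_sT.1
  have h2 : FiniteDimensional k (Subalgebra.toSubmodule (sX k w)) := h.finrank_sX.1
  have h3 := finrank_sE (k := k) (e := e)
  have := h3.1
  have h4 := finrank_mul_le' (Subalgebra.toSubmodule (sT k w)) (Subalgebra.toSubmodule (sX k w))
  have := h4.1
  have h5 := finrank_mul_le' (Subalgebra.toSubmodule (sT k w) * Subalgebra.toSubmodule (sX k w))
    (sE k e)
  refine ⟨h5.1, h5.2.trans ?_⟩
  refine Nat.mul_le_mul (h4.2.trans ?_) h3.2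
  exact Nat.mul_le_mul h.finrank_sT.2 h.finrank_sX.2

/-- expansion in the group-like elements -/
noncomputable def PhiN (k : Type u) [Field k] [Algebra k A] (e g : C → A)
    (w : Fin n ⊕ Fin n → A) : (C → sN k e w) →ₗ[k] A :=
  ∑ c, (LinearMap.mulLeft k (g c)) ∘ₗ (sN k e w).subtype ∘ₗ LinearMap.proj c

omit [CommGroup C] [DecidableEq C] in
lemma PhiN_apply (f : C → sN k e w) : PhiN k e g w f = ∑ c, g c * (f c : A) := by
  simp [PhiN]

/-- the range of the expansion map -/
noncomputable def VV (k : Type u) [Field k] [Algebra k A] (e g : C → A)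
    (w : Fin n ⊕ Fin n → A) : Submodule k A := LinearMap.range (PhiN k e g w)

lemma mem_VV_of (c : C) {y : A} (hy : y ∈ sN k e w) : g c * y ∈ VV k e g w := by
  classical
  refine ⟨Pi.single c ⟨y, hy⟩, ?_⟩
  rw [PhiN_apply, Finset.sum_eq_single c]
  · simp
  · intro b _ hb
    simp [hb]
  · simp

/-- the product of `sX` and `sE` -/
def sXE (k : Type u) [Field k] [Algebra k A] (e : C → A) (w : Fin n ⊕ Fin n → A) :
    Submodule k A := Subalgebra.toSubmodule (sX k w) * sE k e

lemma sN_eq : sN k e w = Subalgebra.toSubmodule (sT k w) * sXE k e w := by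
  rw [sN, sXE, mul_assoc]

lemma mul_mem_sXE {y z : A} (hy : y ∈ sX k w) (hz : z ∈ sXE k e w) : y * z ∈ sXE k e w := by
  have h1 : Subalgebra.toSubmodule (sX k w) * sXE k e w ≤ sXE k e w := by
    rw [sXE, ← mul_assoc]
    exact mul_le_mul_left (Submodule.mul_le.mpr fun a ha b hb => Subalgebra.mul_mem _ ha hb) _
  exact h1 (Submodule.mul_mem_mul hy hz)

lemma mul_mem_sN {y z : A} (hy : y ∈ sT k w) (hz : z ∈ sN k e w) : y * z ∈ sN k e w := by
  rw [sN_eq] at hz ⊢
  have h1 : Subalgebra.toSubmodule (sT k w) * (Subalgebra.toSubmodule (sT k w) *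
      sXE k e w) ≤ Subalgebra.toSubmodule (sT k w) * sXE k e w := by
    rw [← mul_assoc]
    exact mul_le_mul_left (Submodule.mul_le.mpr fun a ha b hb => Subalgebra.mul_mem _ ha hb) _
  exact h1 (Submodule.mul_mem_mul hy hz)

lemma sXE_le_sN : sXE k e w ≤ sN k e w := by
  intro z hz
  rw [sN_eq]
  have := Submodule.mul_mem_mul (show (1 : A) ∈ Subalgebra.toSubmodule (sT k w) from
    (sT k w).one_mem) hz
  rwa [one_mul] at this

lemma sE_le_sXE : sE k e ≤ sXE k e w := by
  intro z hz
  rw [sXE]
  have := Submodule.mul_mem_mul (show (1 : A) ∈ Subalgebra.toSubmodule (sX k w) from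
    (sX k w).one_mem) hz
  rwa [one_mul] at this

include h in
lemma e_mul_mem_sXE (c : C) {z : A} (hz : z ∈ sXE k e w) : e c * z ∈ sXE k e w := by
  have key : ∀ ξ ∈ sX k w, ∀ u, (∀ c', e c' * u ∈ sXE k e w) → ∀ c, e c * (ξ * u) ∈ sXE k e w := by
    intro ξ hξ
    induction hξ using Algebra.adjoin_induction with
    | mem x hx =>
      obtain ⟨i, rfl⟩ := hx
      intro u hu c
      rw [← mul_assoc, h.e_w, mul_assoc]
      exact mul_mem_sXE (Algebra.subset_adjoin ⟨i, rfl⟩) (hu _)
    | algebraMap r =>
      intro u hu c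
      rw [← mul_assoc, ← Algebra.commutes, mul_assoc, ← Algebra.smul_def]
      exact Submodule.smul_mem _ _ (hu c)
    | add x y _ _ hx hy =>
      intro u hu c
      rw [add_mul, mul_add]
      exact Submodule.add_mem _ (hx u hu c) (hy u hu c)
    | mul x y _ _ hx hy =>
      intro u hu c
      rw [mul_assoc]
      exact hx _ (fun c' => hy u hu c') c
  rw [sXE] at hz
  induction hz using Submodule.mul_induction_on' with
  | mem_mul_mem ξ hξ z hz =>
    refine key ξ hξ z (fun c' => ?_) c
    exact sE_le_sXE (h.sE_mul_sE (Submodule.mul_mem_mul (Submodule.subset_span ⟨c', rfl⟩) hz))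
  | add x _ y _ hx hy =>
    rw [mul_add]
    exact Submodule.add_mem _ hx hy

include h in
lemma e_mul_mem_sN (c : C) {z : A} (hz : z ∈ sN k e w) : e c * z ∈ sN k e w := by
  have key : ∀ t ∈ sT k w, ∀ u, (∀ c', e c' * u ∈ sN k e w) → ∀ c, e c * (t * u) ∈ sN k e w := by
    intro ξ hξ
    induction hξ using Algebra.adjoin_induction with
    | mem x hx =>
      obtain ⟨i, rfl⟩ := hx
      intro u hu c
      rw [← mul_assoc, h.e_w, mul_assoc]
      exact mul_mem_sN (Algebra.subset_adjoin ⟨i, rfl⟩) (hu _)
    | algebraMap r =>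
      intro u hu c
      rw [← mul_assoc, ← Algebra.commutes, mul_assoc, ← Algebra.smul_def]
      exact Submodule.smul_mem _ _ (hu c)
    | add x y _ _ hx hy =>
      intro u hu c
      rw [add_mul, mul_add]
      exact Submodule.add_mem _ (hx u hu c) (hy u hu c)
    | mul x y _ _ hx hy =>
      intro u hu c
      rw [mul_assoc]
      exact hx _ (fun c' => hy u hu c') c
  rw [sN_eq] at hz
  induction hz using Submodule.mul_induction_on' with
  | mem_mul_mem ξ hξ z hz =>
    refine key ξ hξ z (fun c' => ?_) c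
    exact sXE_le_sN (h.e_mul_mem_sXE c' hz)
  | add x _ y _ hx hy =>
    rw [mul_add]
    exact Submodule.add_mem _ hx hy

omit [CommGroup C] [DecidableEq C] in
lemma mul_mem_VV {y : A} (hy : ∀ c, ∀ z ∈ sN k e w, y * (g c * z) ∈ VV k e g w) :
    ∀ v ∈ VV k e g w, y * v ∈ VV k e g w := by
  rintro _ ⟨f, rfl⟩
  rw [PhiN_apply, mul_sum]
  exact Submodule.sum_mem _ fun c _ => hy c _ (f c).2

include h in
lemma g_mul_mem (c : C) : ∀ v ∈ VV k e g w, g c * v ∈ VV k e g w :=
  mul_mem_VV fun c' z hz => by
    rw [← mul_assoc, h.g_mul]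
    exact mem_VV_of _ hz

include h in
lemma sN_le_VV : sN k e w ≤ VV k e g w := by
  intro z hz
  have := mem_VV_of (g := g) 1 hz
  rwa [h.g_one, one_mul] at this

include h in
lemma e_mul_mem (c : C) : ∀ v ∈ VV k e g w, e c * v ∈ VV k e g w :=
  mul_mem_VV fun c' z hz => by
    rw [← mul_assoc, ← h.g_e, mul_assoc]
    exact mem_VV_of _ (h.e_mul_mem_sN c hz)

include h in
lemma t_mul_mem {t : A} (ht : t ∈ sT k w) : ∀ v ∈ VV k e g w, t * v ∈ VV k e g w := by
  induction ht using Algebra.adjoin_induction with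
  | mem x hx =>
    obtain ⟨i, rfl⟩ := hx
    refine mul_mem_VV fun c' z hz => ?_
    rw [← mul_assoc, ← h.g_w, mul_assoc]
    exact mem_VV_of _ (mul_mem_sN (Algebra.subset_adjoin ⟨i, rfl⟩) hz)
  | algebraMap r =>
    intro v hv
    rw [← Algebra.smul_def]
    exact Submodule.smul_mem _ _ hv
  | add x y _ _ hx hy =>
    intro v hv
    rw [add_mul]
    exact Submodule.add_mem _ (hx v hv) (hy v hv)
  | mul x y _ _ hx hy =>
    intro v hv
    rw [mul_assoc]
    exact hx _ (hy v hv)

include h in
lemma x_mul_t_mem (i : Fin n) {t : A} (ht : t ∈ sT k w) : ∀ v ∈ VV k e g w,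
    w (Sum.inl i) * v ∈ VV k e g w → w (Sum.inl i) * (t * v) ∈ VV k e g w := by
  induction ht using Algebra.adjoin_induction with
  | mem x hx =>
    obtain ⟨j, rfl⟩ := hx
    intro v hv hxv
    have hθ : (w (Sum.inr j) : A) ∈ sT k w := Algebra.subset_adjoin ⟨j, rfl⟩
    have h1 : w (Sum.inr j) * (w (Sum.inl i) * v) ∈ VV k e g w := h.t_mul_mem hθ _ hxv
    have h2 : ∃ r ∈ VV k e g w, w (Sum.inl i) * (w (Sum.inr j) * v) =
        r - w (Sum.inr j) * (w (Sum.inl i) * v) := by
      by_cases hij : i = j
      · subst hij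
        refine ⟨(g (χ i) - 1) * v, ?_, ?_⟩
        · rw [sub_mul, one_mul]
          exact Submodule.sub_mem _ (h.g_mul_mem _ _ hv) hv
        · rw [← h.w_pair]
          noncomm_ring
      · refine ⟨0, Submodule.zero_mem _, ?_⟩
        have := h.w_anti (Sum.inl i) (Sum.inr j) (by simp) (by simpa using hij)
        rw [← zero_mul v, ← this]
        noncomm_ring
    obtain ⟨r, hr, hr'⟩ := h2
    change w (Sum.inl i) * (w (Sum.inr j) * v) ∈ _
    rw [hr']
    exact Submodule.sub_mem _ hr h1
  | algebraMap r =>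
    intro v hv hxv
    rw [← Algebra.smul_def, mul_smul_comm]
    exact Submodule.smul_mem _ _ hxv
  | add x y _ _ hx hy =>
    intro v hv hxv
    rw [add_mul, mul_add]
    exact Submodule.add_mem _ (hx v hv hxv) (hy v hv hxv)
  | mul x y hx' hy' hx hy =>
    intro v hv hxv
    rw [mul_assoc]
    exact hx _ (h.t_mul_mem hy' _ hv) (hy v hv hxv)

include h in
lemma x_mul_mem (i : Fin n) : ∀ v ∈ VV k e g w, w (Sum.inl i) * v ∈ VV k e g w := by
  refine mul_mem_VV fun c z hz => ?_
  rw [← mul_assoc, ← h.g_w, mul_assoc]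
  refine h.g_mul_mem _ _ ?_
  rw [sN_eq] at hz
  induction hz using Submodule.mul_induction_on' with
  | mem_mul_mem t ht z hz =>
    refine h.x_mul_t_mem i ht z (h.sN_le_VV (sXE_le_sN hz)) ?_
    exact h.sN_le_VV (sXE_le_sN (mul_mem_sXE (Algebra.subset_adjoin ⟨i, rfl⟩) hz))
  | add x _ y _ hx hy =>
    rw [mul_add]
    exact Submodule.add_mem _ hx hy

include h in
lemma one_mem_VV : (1 : A) ∈ VV k e g w :=
  h.sN_le_VV (sXE_le_sN (sE_le_sXE h.one_mem_sE))

include h in
theorem VV_eq_top (hgen : Algebra.adjoin k (Set.range e ∪ Set.range g ∪ Set.range w) = ⊤) :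
    VV k e g w = ⊤ := by
  rw [eq_top_iff]
  rintro x -
  have key : ∀ y ∈ Algebra.adjoin k (Set.range e ∪ Set.range g ∪ Set.range w),
      ∀ v ∈ VV k e g w, y * v ∈ VV k e g w := by
    intro y hy
    induction hy using Algebra.adjoin_induction with
    | mem x hx =>
      rcases hx with (⟨c, rfl⟩ | ⟨c, rfl⟩) | ⟨a, rfl⟩
      · exact h.e_mul_mem c
      · exact h.g_mul_mem c
      · rcases a with i | i
        · exact h.x_mul_mem i
        · exact h.t_mul_mem (Algebra.subset_adjoin ⟨i, rfl⟩)
    | algebraMap r =>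
      intro v hv
      rw [← Algebra.smul_def]
      exact Submodule.smul_mem _ _ hv
    | add x y _ _ hx hy =>
      intro v hv
      rw [add_mul]
      exact Submodule.add_mem _ (hx v hv) (hy v hv)
    | mul x y _ _ hx hy =>
      intro v hv
      rw [mul_assoc]
      exact hx _ (hy v hv)
  have := key x (by rw [hgen]; trivial) 1 h.one_mem_VV
  rwa [mul_one] at this

include h in
theorem finrank_le (hgen : Algebra.adjoin k (Set.range e ∪ Set.range g ∪ Set.range w) = ⊤) :
    FiniteDimensional k A ∧ finrank k A ≤ (2 ^ n * Fintype.card C) ^ 2 := by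
  have h1 : FiniteDimensional k (sN k e w) := h.finrank_sN.1
  have h2 : Function.Surjective (PhiN k e g w) := by
    rw [← LinearMap.range_eq_top]
    exact h.VV_eq_top hgen
  refine ⟨Module.Finite.of_surjective _ h2, ?_⟩
  refine (LinearMap.finrank_le_finrank_of_surjective h2).trans ?_
  rw [Module.finrank_pi_fintype]
  simp only [Finset.sum_const, Finset.card_univ, smul_eq_mul]
  calc Fintype.card C * finrank k (sN k e w) ≤ Fintype.card C * (2 ^ n * 2 ^ n * Fintype.card C) :=
      Nat.mul_le_mul_left _ h.finrank_sN.2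
    _ = (2 ^ n * Fintype.card C) ^ 2 := by ring

include h in
theorem PhiN_bijective (hgen : Algebra.adjoin k (Set.range e ∪ Set.range g ∪ Set.range w) = ⊤)
    (hrank : (2 ^ n * Fintype.card C) ^ 2 ≤ finrank k A) :
    Function.Bijective (PhiN k e g w) := by
  have h1 : FiniteDimensional k (sN k e w) := h.finrank_sN.1
  have h2 : Function.Surjective (PhiN k e g w) := by
    rw [← LinearMap.range_eq_top]
    exact h.VV_eq_top hgen
  have hA := (h.finrank_le hgen).1
  have h3 : finrank k (C → sN k e w) = finrank k A := by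
    refine le_antisymm ?_ (LinearMap.finrank_le_finrank_of_surjective h2)
    refine le_trans ?_ hrank
    rw [Module.finrank_pi_fintype]
    simp only [Finset.sum_const, Finset.card_univ, smul_eq_mul]
    calc Fintype.card C * finrank k (sN k e w) ≤
        Fintype.card C * (2 ^ n * 2 ^ n * Fintype.card C) :=
        Nat.mul_le_mul_left _ h.finrank_sN.2
      _ = (2 ^ n * Fintype.card C) ^ 2 := by ring
  exact ⟨(LinearMap.injective_iff_surjective_of_finrank_eq_finrank h3).mpr h2, h2⟩

end Rels

end

end Pool.Agent.H170_FG
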