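import Pool.Agent.H170_FG.Pres2

/-!
# A spanning set of the presented algebra, arbitrary bracket
-/

set_option linter.unusedSectionVars false

universe u

open Finset Module

namespace Pool.Agent.H170_FG

section

variable {k : Type u} [Field k] {C : Type} [CommGroup C] [Fintype C] [DecidableEq C]
  {n : ℕ} {D : SGrp k C n} {A : Type u} [Ring A] [Algebra k A]
  {e g : C → A} {x t : Fin n → A} (h : Rels2 D e g x t)

instance (k : Type u) [Field k] (n : ℕ) : FiniteDimensional k (Ex k n) :=
  Module.Finite.of_basis (Pi.basisFun k (Fin n)).ExteriorAlgebra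

lemma finrank_Ex (k : Type u) [Field k] (n : ℕ) : finrank k (Ex k n) = 2 ^ n := by
  rw [Module.finrank_eq_card_basis (Pi.basisFun k (Fin n)).ExteriorAlgebra]
  simp

/-- unit vector in the exterior algebra -/
noncomputable def ei (k : Type u) [Field k] {n : ℕ} (i : Fin n) : Ex k n :=
  ExteriorAlgebra.ι k (Pi.single i 1)

namespace Rels2

include h in
lemma lc_sq (v : Fin n → k) : Fintype.linearCombination k t v * Fintype.linearCombination k t v =
    0 := by
  rw [Fintype.linearCombination_apply]
  refine KD.sum_sq univ (fun i => v i • t i) ?_ ?_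
  · intro i
    simp [h.t_sq]
  · intro i j hij
    rw [smul_mul_smul_comm, smul_mul_smul_comm, mul_comm (v j), ← smul_add, h.t_anti i j hij,
      smul_zero]

/-- the homomorphism from the exterior algebra -/
noncomputable def Ft : Ex k n →ₐ[k] A :=
  ExteriorAlgebra.lift k ⟨Fintype.linearCombination k t, h.lc_sq⟩

lemma Ft_ei (i : Fin n) : h.Ft (ei k i) = t i := by
  simp [Ft, ei, Fintype.linearCombination_apply, Pi.single_apply]

lemma Ft_g (c : C) (z : Ex k n) : g c * h.Ft z = h.Ft z * g c := by
  induction z using ExteriorAlgebra.induction with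
  | algebraMap r => rw [AlgHom.commutes, Algebra.commutes]
  | ι v =>
    have : h.Ft (ExteriorAlgebra.ι k v) = ∑ i, v i • t i := by
      simp [Ft, Fintype.linearCombination_apply]
    rw [this, mul_sum, sum_mul]
    refine sum_congr rfl fun i _ => ?_
    rw [mul_smul_comm, smul_mul_assoc, h.g_t]
  | mul a b ha hb => rw [map_mul, ← mul_assoc, ha, mul_assoc, hb, mul_assoc]
  | add a b ha hb => rw [map_add, mul_add, add_mul, ha, hb]

/-- the subalgebra generated by the idempotents and the `x i` -/
noncomputable def sM : Subalgebra k A := (SGrp.lift h.hr).range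

/-- the subalgebra generated by the `t i` and the group-likes -/
def sS (k : Type u) [Field k] [Algebra k A] (g : C → A) (t : Fin n → A) : Subalgebra k A :=
  Algebra.adjoin k (Set.range t ∪ Set.range g)

/-- the expansion map of `sS` -/
noncomputable def PhS : (C → Ex k n) →ₗ[k] A :=
  ∑ c, LinearMap.mulRight k (g c) ∘ₗ h.Ft.toLinearMap ∘ₗ LinearMap.proj c

lemma PhS_apply (f : C → Ex k n) : h.PhS f = ∑ c, h.Ft (f c) * g c := by
  simp [PhS]

lemma sS_le : Subalgebra.toSubmodule (sS k g t) ≤ LinearMap.range h.PhS := by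
  have key : ∀ s ∈ sS k g t, ∀ f, s * h.PhS f ∈ LinearMap.range h.PhS := by
    intro s hs
    induction hs using Algebra.adjoin_induction with
    | mem s hs =>
      intro f
      rcases hs with ⟨j, rfl⟩ | ⟨c, rfl⟩
      · refine ⟨fun c => ei k j * f c, ?_⟩
        rw [PhS_apply, PhS_apply, mul_sum]
        refine sum_congr rfl fun c _ => ?_
        rw [map_mul, Ft_ei, mul_assoc]
      · refine ⟨fun c' => f (c⁻¹ * c'), ?_⟩
        rw [PhS_apply, PhS_apply, mul_sum]
        refine (Fintype.sum_equiv (Equiv.mulLeft c) _ _ fun c' => ?_).symm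
        rw [← mul_assoc, Ft_g, mul_assoc, h.g_mul, Equiv.coe_mulLeft, inv_mul_cancel_left]
    | algebraMap r =>
      intro f
      rw [← Algebra.smul_def]
      exact Submodule.smul_mem _ _ ⟨f, rfl⟩
    | add a b _ _ ha hb =>
      intro f
      rw [add_mul]
      exact Submodule.add_mem _ (ha f) (hb f)
    | mul a b _ _ ha hb =>
      intro f
      rw [mul_assoc]
      obtain ⟨f', hf'⟩ := hb f
      rw [← hf']
      exact ha f'
  intro s hs
  have h1 : h.PhS (Pi.single 1 1) = 1 := by
    rw [PhS_apply, Finset.sum_eq_single 1]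
    · simp [h.g_one]
    · intro b _ hb
      simp [hb]
    · simp
  have := key s hs (Pi.single 1 1)
  rwa [h1, mul_one] at this

include h in
lemma finrank_sS : FiniteDimensional k (sS k g t) ∧
    finrank k (sS k g t) ≤ 2 ^ n * Fintype.card C := by
  have h1 : FiniteDimensional k (LinearMap.range h.PhS) := inferInstance
  refine ⟨Submodule.finiteDimensional_of_le h.sS_le, ?_⟩
  refine (Submodule.finrank_mono h.sS_le).trans ((LinearMap.finrank_range_le _).trans ?_)
  rw [Module.finrank_pi_fintype]
  simp only [finrank_Ex, Finset.sum_const, Finset.card_univ, smul_eq_mul]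
  rw [mul_comm]

lemma finrank_sM (h2 : (2 : k) ≠ 0) : FiniteDimensional k h.sM ∧
    finrank k h.sM ≤ 2 ^ n * Fintype.card C := by
  have hD := D.finrank_eq (D.ne_zero h2)
  have := hD.1
  refine ⟨(inferInstance : FiniteDimensional k (LinearMap.range (SGrp.lift h.hr).toLinearMap)), ?_⟩
  rw [← hD.2]
  exact LinearMap.finrank_range_le (SGrp.lift h.hr).toLinearMap

lemma e_mem_sM (c : C) : e c ∈ h.sM := ⟨D.e c, SGrp.lift_e h.hr c⟩

lemma x_mem_sM (c : Fin n) : x c ∈ h.sM := ⟨D.x c, SGrp.lift_x h.hr c⟩

lemma g_mem_sS (c : C) : g c ∈ sS k g t := Algebra.subset_adjoin (Or.inr ⟨c, rfl⟩)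

lemma t_mem_sS (c : Fin n) : t c ∈ sS k g t := Algebra.subset_adjoin (Or.inl ⟨c, rfl⟩)

/-- the product of the two subalgebras -/
noncomputable def sV : Submodule k A := Subalgebra.toSubmodule h.sM * Subalgebra.toSubmodule (sS k g t)

lemma sM_mul_sV {m v : A} (hm : m ∈ h.sM) (hv : v ∈ h.sV) : m * v ∈ h.sV := by
  have h1 : Subalgebra.toSubmodule h.sM * h.sV ≤ h.sV := by
    rw [sV, ← mul_assoc]
    exact mul_le_mul_left (Submodule.mul_le.mpr fun a ha b hb => Subalgebra.mul_mem _ ha hb) _
  exact h1 (Submodule.mul_mem_mul hm hv)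

lemma sS_le_sV {s : A} (hs : s ∈ sS k g t) : s ∈ h.sV := by
  have := Submodule.mul_mem_mul (show (1 : A) ∈ Subalgebra.toSubmodule h.sM from h.sM.one_mem)
    (show s ∈ Subalgebra.toSubmodule (sS k g t) from hs)
  rwa [one_mul] at this

/-- the span of the idempotents times `sS` -/
def sES (k : Type u) [Field k] [Algebra k A] (e g : C → A) (t : Fin n → A) : Submodule k A :=
  Submodule.span k (Set.range e) * Subalgebra.toSubmodule (sS k g t)

omit [CommGroup C] [Fintype C] [DecidableEq C] in
lemma e_mul_sES (c : C) {s : A} (hs : s ∈ sS k g t) : e c * s ∈ sES k e g t :=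
  Submodule.mul_mem_mul (Submodule.subset_span ⟨c, rfl⟩) hs

include h in
lemma sS_e {s : A} (hs : s ∈ sS k g t) : ∀ a, s * e a ∈ sES k e g t := by
  induction hs using Algebra.adjoin_induction with
  | mem s hs =>
    intro a
    rcases hs with ⟨j, rfl⟩ | ⟨c, rfl⟩
    · rw [h.t_e]
      exact e_mul_sES _ (t_mem_sS j)
    · rw [h.g_e]
      exact e_mul_sES _ (g_mem_sS c)
  | algebraMap r =>
    intro a
    rw [Algebra.commutes]
    exact e_mul_sES a (Subalgebra.algebraMap_mem _ r)
  | add a b _ _ ha hb =>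
    intro c
    rw [add_mul]
    exact Submodule.add_mem _ (ha c) (hb c)
  | mul a b ha' hb' ha hb =>
    intro c
    rw [mul_assoc]
    have key : ∀ v ∈ sES k e g t, a * v ∈ sES k e g t := by
      intro v hv
      have h1 : ∀ u ∈ Submodule.span k (Set.range e), ∀ s ∈ sS k g t,
          a * (u * s) ∈ sES k e g t := by
        intro u hu s hs
        induction hu using Submodule.span_induction with
        | mem u hu =>
          obtain ⟨c', rfl⟩ := hu
          rw [← mul_assoc]
          have h2 : sES k e g t * Subalgebra.toSubmodule (sS k g t) ≤ sES k e g t := by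
            rw [sES, mul_assoc]
            exact mul_le_mul_right (Submodule.mul_le.mpr fun a ha b hb =>
              Subalgebra.mul_mem _ ha hb) _
          exact h2 (Submodule.mul_mem_mul (ha c') hs)
        | zero => rw [zero_mul, mul_zero]; exact Submodule.zero_mem _
        | add u u' _ _ h1 h2 => rw [add_mul, mul_add]; exact Submodule.add_mem _ h1 h2
        | smul r u _ h1 => rw [smul_mul_assoc, mul_smul_comm]; exact Submodule.smul_mem _ _ h1
      rw [sES] at hv
      induction hv using Submodule.mul_induction_on' with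
      | mem_mul_mem u hu s hs => exact h1 u hu s hs
      | add y _ z _ hy hz => rw [mul_add]; exact Submodule.add_mem _ hy hz
    exact key _ (hb c)

include h in
lemma sS_x {s : A} (hs : s ∈ sS k g t) : ∀ i, ∃ s' ∈ sS k g t, ∃ s'' ∈ sS k g t,
    s * x i = x i * s' + s'' := by
  induction hs using Algebra.adjoin_induction with
  | mem s hs =>
    intro i
    rcases hs with ⟨j, rfl⟩ | ⟨c, rfl⟩
    · refine ⟨- t j, neg_mem (t_mem_sS j), if i = j then g (D.χ i) - 1 else 0, ?_, ?_⟩
      · split_ifs
        · exact sub_mem (g_mem_sS _) (one_mem _)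
        · exact zero_mem _
      · rw [← h.x_t]
        noncomm_ring
    · refine ⟨g c, g_mem_sS c, - ∑ m, D.ga i m c • ((1 + g (D.χ m)⁻¹) * (t m * g c)), ?_, ?_⟩
      · refine neg_mem (Subalgebra.sum_mem _ fun m _ => Subalgebra.smul_mem _ ?_ _)
        exact mul_mem (add_mem (one_mem _) (g_mem_sS _)) (mul_mem (t_mem_sS _) (g_mem_sS _))
      · rw [h.x_g]
        abel
  | algebraMap r =>
    intro i
    refine ⟨algebraMap k A r, Subalgebra.algebraMap_mem _ r, 0, zero_mem _, ?_⟩
    rw [Algebra.commutes, add_zero]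
  | add a b _ _ ha hb =>
    intro i
    obtain ⟨a', ha', a'', ha'', h1⟩ := ha i
    obtain ⟨b', hb', b'', hb'', h2⟩ := hb i
    refine ⟨a' + b', add_mem ha' hb', a'' + b'', add_mem ha'' hb'', ?_⟩
    rw [add_mul, h1, h2]
    noncomm_ring
  | mul a b ha0 hb0 ha hb =>
    intro i
    obtain ⟨a', ha', a'', ha'', h1⟩ := ha i
    obtain ⟨b', hb', b'', hb'', h2⟩ := hb i
    refine ⟨a' * b', mul_mem ha' hb', a'' * b' + a * b'', add_mem (mul_mem ha'' hb')
      (mul_mem ha0 hb''), ?_⟩
    rw [mul_assoc, h2, mul_add, ← mul_assoc, h1]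
    noncomm_ring

/-- the elements mapped into `sV` by `sS` -/
def InV (v : A) : Prop := ∀ s ∈ sS k g t, s * v ∈ h.sV

lemma inV_e (a : C) {v : A} (hv : h.InV v) : h.InV (e a * v) := by
  intro s hs
  rw [← mul_assoc]
  have h1 := h.sS_e hs a
  have key : ∀ w ∈ sES k e g t, w * v ∈ h.sV := by
    intro w hw
    rw [sES] at hw
    induction hw using Submodule.mul_induction_on' with
    | mem_mul_mem u hu s hs =>
      rw [mul_assoc]
      induction hu using Submodule.span_induction with
      | mem u hu =>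
        obtain ⟨c', rfl⟩ := hu
        exact h.sM_mul_sV (h.e_mem_sM c') (hv s hs)
      | zero => rw [zero_mul]; exact Submodule.zero_mem _
      | add u u' _ _ h1 h2 => rw [add_mul]; exact Submodule.add_mem _ h1 h2
      | smul r u _ h1 => rw [smul_mul_assoc]; exact Submodule.smul_mem _ _ h1
    | add y _ z _ hy hz => rw [add_mul]; exact Submodule.add_mem _ hy hz
  exact key _ h1

lemma inV_x (i : Fin n) {v : A} (hv : h.InV v) : h.InV (x i * v) := by
  intro s hs
  obtain ⟨s', hs', s'', hs'', h1⟩ := h.sS_x hs i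
  rw [← mul_assoc, h1, add_mul, mul_assoc]
  exact Submodule.add_mem _ (h.sM_mul_sV (h.x_mem_sM i) (hv s' hs')) (hv s'' hs'')

lemma inV_add {v w : A} (hv : h.InV v) (hw : h.InV w) : h.InV (v + w) := by
  intro s hs
  rw [mul_add]
  exact Submodule.add_mem _ (hv s hs) (hw s hs)

lemma inV_smul (r : k) {v : A} (hv : h.InV v) : h.InV (r • v) := by
  intro s hs
  rw [mul_smul_comm]
  exact Submodule.smul_mem _ _ (hv s hs)

lemma inV_sM (y : D.H) : ∀ v, h.InV v → h.InV (SGrp.lift h.hr y * v) := by
  induction y using SGrp.induction_on with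
  | he c =>
    intro v hv
    rw [SGrp.lift_e]
    exact h.inV_e c hv
  | hx i =>
    intro v hv
    rw [SGrp.lift_x]
    exact h.inV_x i hv
  | hr r =>
    intro v hv
    rw [AlgHom.commutes, ← Algebra.smul_def]
    exact h.inV_smul r hv
  | ha a b h1 h2 =>
    intro v hv
    rw [map_add, add_mul]
    exact h.inV_add (h1 v hv) (h2 v hv)
  | hm a b h1 h2 =>
    intro v hv
    rw [map_mul, mul_assoc]
    exact h1 _ (h2 v hv)

lemma inV_of_mem {v : A} (hv : v ∈ h.sV) : h.InV v := by
  rw [sV] at hv
  induction hv using Submodule.mul_induction_on' with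
  | mem_mul_mem m hm s hs =>
    obtain ⟨y, rfl⟩ := hm
    refine h.inV_sM y s ?_
    intro s' hs'
    exact h.sS_le_sV (mul_mem hs' hs)
  | add y _ z _ hy hz => exact h.inV_add hy hz

/-- the generating set -/
def gens (e g : C → A) (x t : Fin n → A) : Set A :=
  Set.range e ∪ Set.range g ∪ Set.range x ∪ Set.range t

theorem sV_eq_top (hgen : Algebra.adjoin k (gens e g x t) = ⊤) : h.sV = ⊤ := by
  rw [eq_top_iff]
  rintro y -
  have key : ∀ y ∈ Algebra.adjoin k (gens e g x t), ∀ v ∈ h.sV, y * v ∈ h.sV := by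
    intro y hy
    induction hy using Algebra.adjoin_induction with
    | mem y hy =>
      intro v hv
      rcases hy with ((⟨c, rfl⟩ | ⟨c, rfl⟩) | ⟨i, rfl⟩) | ⟨i, rfl⟩
      · exact h.sM_mul_sV (h.e_mem_sM c) hv
      · exact h.inV_of_mem hv _ (g_mem_sS c)
      · exact h.sM_mul_sV (h.x_mem_sM i) hv
      · exact h.inV_of_mem hv _ (t_mem_sS i)
    | algebraMap r =>
      intro v hv
      rw [← Algebra.smul_def]
      exact Submodule.smul_mem _ _ hv
    | add a b _ _ ha hb =>
      intro v hv
      rw [add_mul]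
      exact Submodule.add_mem _ (ha v hv) (hb v hv)
    | mul a b _ _ ha hb =>
      intro v hv
      rw [mul_assoc]
      exact ha _ (hb v hv)
  have := key y (by rw [hgen]; trivial) 1 (h.sS_le_sV (one_mem _))
  rwa [mul_one] at this

include h in
theorem finrank_le (h2 : (2 : k) ≠ 0) (hgen : Algebra.adjoin k (gens e g x t) = ⊤) :
    FiniteDimensional k A ∧ finrank k A ≤ (2 ^ n * Fintype.card C) ^ 2 := by
  have h3 := h.finrank_sM h2
  have h4 := h.finrank_sS
  have h3' : FiniteDimensional k (Subalgebra.toSubmodule h.sM) := h3.1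
  have h4' : FiniteDimensional k (Subalgebra.toSubmodule (sS k g t)) := h4.1
  have h5 := finrank_mul_le' (Subalgebra.toSubmodule h.sM) (Subalgebra.toSubmodule (sS k g t))
  have h6 := h.sV_eq_top hgen
  rw [sV] at h6
  rw [h6] at h5
  have := h5.1
  refine ⟨Module.Finite.of_surjective (Submodule.topEquiv (R := k) (M := A)).toLinearMap
    (Submodule.topEquiv (R := k) (M := A)).surjective, ?_⟩
  rw [← (Submodule.topEquiv (R := k) (M := A)).finrank_eq, sq]
  exact h5.2.trans (Nat.mul_le_mul h3.2 h4.2)

end Rels2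

/-- The hypotheses on the algebra. -/
structure Rels2.Full (k : Type u) [Field k] [Algebra k A] (D : SGrp k C n) (e g : C → A)
    (x t : Fin n → A) : Prop where
  rels : Rels2 D e g x t
  gen : Algebra.adjoin k (gens e g x t) = ⊤
  rank : (2 ^ n * Fintype.card C) ^ 2 ≤ finrank k A

end

end Pool.Agent.H170_FG
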