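import Pool.Agent.H170_FG.ExtGen

/-!
# Cut resolutions from total modules
-/

universe u

open CategoryTheory

namespace Pool.Agent.H170_FG

/-- A projective resolution of `T` given by submodules of a total module `P`. -/
structure TotRes (B : Type u) [Ring B] (T : ModuleCat.{u} B) (P : Type u) [AddCommGroup P]
    [Module B P] where
  R : ℕ → Submodule B P
  d : P →ₗ[B] P
  d_mem : ∀ n x, x ∈ R (n + 1) → d x ∈ R n
  d_d : ∀ x, d (d x) = 0
  exact : ∀ n x, x ∈ R (n + 1) → d x = 0 → ∃ y ∈ R (n + 2), d y = x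
  aug : R 0 →ₗ[B] T
  aug_surj : Function.Surjective aug
  aug_exact : ∀ x : R 0, aug x = 0 → ∃ y ∈ R 1, d y = x
  aug_d : ∀ y (hy : y ∈ R 1), aug ⟨d y, d_mem 0 y hy⟩ = 0
  proj : ∀ n, Module.Projective B (R n)

namespace TotRes

variable {B : Type u} [Ring B] {T : ModuleCat.{u} B} {P : Type u} [AddCommGroup P]
    [Module B P] (X : TotRes B T P)

/-- the restricted differential -/
def dR (n : ℕ) : X.R (n + 1) →ₗ[B] X.R n := X.d.restrict (X.d_mem n)

lemma dR_apply (n : ℕ) (x : X.R (n + 1)) : (X.dR n x : P) = X.d x := rfl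

lemma dR_dR (n : ℕ) (x : X.R (n + 2)) : X.dR n (X.dR (n + 1) x) = 0 :=
  Subtype.ext (X.d_d x)

/-- cokernels -/
abbrev WW (n : ℕ) : Type u := X.R n ⧸ LinearMap.range (X.dR n)

/-- the inclusion of the cokernel into the next term -/
def fW (n : ℕ) : X.WW (n + 1) →ₗ[B] X.R n :=
  (LinearMap.range (X.dR (n + 1))).liftQ (X.dR n) (by
    rintro _ ⟨x, rfl⟩
    exact X.dR_dR n x)

lemma fW_mk (n : ℕ) (x : X.R (n + 1)) : X.fW n (Submodule.Quotient.mk x) = X.dR n x := rfl

lemma fW_injective (n : ℕ) : Function.Injective (X.fW n) := by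
  rw [← LinearMap.ker_eq_bot, eq_bot_iff]
  intro x hx
  obtain ⟨x, rfl⟩ := Submodule.Quotient.mk_surjective _ x
  rw [LinearMap.mem_ker, fW_mk] at hx
  obtain ⟨y, hy, hyx⟩ := X.exact n x x.2 (congrArg Subtype.val hx)
  rw [Submodule.mem_bot, Submodule.Quotient.mk_eq_zero]
  exact ⟨⟨y, hy⟩, Subtype.ext hyx⟩

/-- the projection to the cokernel -/
def gW (n : ℕ) : X.R n →ₗ[B] X.WW n := (LinearMap.range (X.dR n)).mkQ

/-- the augmentation on the zeroth cokernel -/
def augW : X.WW 0 →ₗ[B] T :=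
  (LinearMap.range (X.dR 0)).liftQ X.aug (by
    rintro _ ⟨x, rfl⟩
    exact X.aug_d x x.2)

lemma augW_bijective : Function.Bijective X.augW := by
  constructor
  · rw [← LinearMap.ker_eq_bot, eq_bot_iff]
    intro x hx
    obtain ⟨x, rfl⟩ := Submodule.Quotient.mk_surjective _ x
    obtain ⟨y, hy, hyx⟩ := X.aug_exact x hx
    rw [Submodule.mem_bot, Submodule.Quotient.mk_eq_zero]
    exact ⟨⟨y, hy⟩, Subtype.ext hyx⟩
  · intro t
    obtain ⟨x, rfl⟩ := X.aug_surj t
    exact ⟨Submodule.Quotient.mk x, rfl⟩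

/-- the associated cut resolution -/
noncomputable def cut : CutRes T where
  W n := ModuleCat.of B (X.WW n)
  R n := ModuleCat.of B (X.R n)
  f n := ModuleCat.ofHom (X.fW n)
  g n := ModuleCat.ofHom (X.gW n)
  zero n := by
    refine ModuleCat.hom_ext (LinearMap.ext fun x => ?_)
    obtain ⟨x, rfl⟩ := Submodule.Quotient.mk_surjective _ x
    exact (Submodule.Quotient.mk_eq_zero _).mpr ⟨x, rfl⟩
  exact n := by
    refine ModuleCat.shortComplex_shortExact _ ?_ (X.fW_injective n) (Submodule.mkQ_surjective _)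
    intro x
    constructor
    · intro hx
      obtain ⟨y, hy⟩ := (Submodule.Quotient.mk_eq_zero _).mp hx
      exact ⟨Submodule.Quotient.mk y, hy⟩
    · rintro ⟨y, rfl⟩
      obtain ⟨y, rfl⟩ := Submodule.Quotient.mk_surjective _ y
      exact (Submodule.Quotient.mk_eq_zero _).mpr ⟨y, rfl⟩
  proj n := by
    have := X.proj n
    exact ModuleCat.projective_of_categoryTheory_projective _
  iso := (LinearEquiv.toModuleIso (LinearEquiv.ofBijective X.augW X.augW_bijective)).symm

variable (lam : P →ₗ[B] P) (hd : ∀ x, lam (X.d x) = X.d (lam x)) {a : ℕ}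
  (ha : ∀ m n, m = n + a → ∀ x ∈ X.R m, lam x ∈ X.R n)

/-- restriction of an operator -/
def lamR (m n : ℕ) (h : m = n + a) : X.R m →ₗ[B] X.R n := lam.restrict (ha m n h)

include hd in
/-- An operator commuting with the differential gives an operator on the cut resolution. -/
noncomputable def op : X.cut.Op a where
  w m n h := ModuleCat.ofHom (Submodule.mapQ _ _ (X.lamR lam ha m n h) (by
    rintro _ ⟨x, rfl⟩
    exact ⟨X.lamR lam ha (m + 1) (n + 1) (by omega) x, Subtype.ext (hd x).symm⟩))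
  r m n h := ModuleCat.ofHom (X.lamR lam ha m n h)
  commf m n h := by
    refine ModuleCat.hom_ext (LinearMap.ext fun x => ?_)
    obtain ⟨x, rfl⟩ := Submodule.Quotient.mk_surjective _ x
    exact Subtype.ext (hd x)
  commg m n h := by
    refine ModuleCat.hom_ext (LinearMap.ext fun x => ?_)
    rfl

end TotRes

end Pool.Agent.H170_FG
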