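import Pool.Agent.H170_FG.Res

/-!
# The total complex of a family of commuting operators
-/

set_option linter.unusedSectionVars false

universe u

open Finset

namespace Pool.Agent.H170_FG

/-- Commuting operators `V l` of finite order, `D` and `A l` with `D ^ 2 = ∑ (V l - 1) A l`. -/
structure OpD (R : Type u) [Ring R] (N : Type u) [AddCommGroup N] [Module R N] (L : Type)
    [Fintype L] where
  V : L → Module.End R N
  ord : L → ℕ
  D : Module.End R N
  A : L → Module.End R N
  V_pow : ∀ l, V l ^ ord l = 1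
  V_comm : ∀ l m, V l * V m = V m * V l
  VD : ∀ l, V l * D = D * V l
  VA : ∀ l m, V l * A m = A m * V l
  AD : ∀ l, A l * D = D * A l
  AA : ∀ l m, A l * A m = A m * A l
  DD : D * D = ∑ l, (V l - 1) * A l

section idx

variable {L : Type}

/-- unit exponent vector -/
noncomputable abbrev el (l : L) : L →₀ ℕ := Finsupp.single l 1

lemma add_el_same (t : L →₀ ℕ) (l : L) : (t + el l) l = t l + 1 := by
  classical
  simp

lemma add_el_ne (t : L →₀ ℕ) {l m : L} (h : l ≠ m) : (t + el l) m = t m := by
  classical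
  simp [h]

lemma exists_eq_add_el (t : L →₀ ℕ) (l : L) (h : t l ≠ 0) : ∃ t', t = t' + el l := by
  classical
  refine ⟨t - el l, ?_⟩
  rw [tsub_add_cancel_of_le]
  rw [Finsupp.single_le_iff]
  omega

variable [Fintype L]

/-- total degree -/
def tl (t : L →₀ ℕ) : ℕ := ∑ m, t m

lemma tl_add (t : L →₀ ℕ) (l : L) : tl (t + el l) = tl t + 1 := by
  classical
  simp only [tl, Finsupp.add_apply, sum_add_distrib, Finsupp.single_apply, add_right_inj]
  rw [Finset.sum_eq_single l]
  · simp
  · intro b _ hb
    simp [hb.symm]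
  · simp

variable [LinearOrder L]

/-- the number of steps in the directions `m < l` -/
def sl (l : L) (t : L →₀ ℕ) : ℕ := ∑ m with m < l, t m

lemma sl_add_lt {l m : L} (h : m < l) (t : L →₀ ℕ) : sl l (t + el m) = sl l t + 1 := by
  classical
  simp only [sl, Finsupp.add_apply, sum_add_distrib, Finsupp.single_apply, add_right_inj]
  rw [Finset.sum_eq_single m]
  · simp
  · intro b _ hb
    simp [hb.symm]
  · simp [h]

lemma sl_add_not_lt {l m : L} (h : ¬ m < l) (t : L →₀ ℕ) : sl l (t + el m) = sl l t := by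
  classical
  simp only [sl, Finsupp.add_apply, sum_add_distrib, Finsupp.single_apply, add_eq_left]
  refine Finset.sum_eq_zero fun b hb => ?_
  simp only [mem_filter, mem_univ, true_and] at hb
  have : m ≠ b := by rintro rfl; exact h hb
  simp [this]

lemma sl_self (l : L) (t : L →₀ ℕ) : sl l (t + el l) = sl l t :=
  sl_add_not_lt (lt_irrefl l) t

end idx

namespace OpD

open KD (sg sg_add_one sg_mul_self sum_anti sum_sq)

variable {R : Type u} [Ring R] {N : Type u} [AddCommGroup N] [Module R N] {L : Type}
    [Fintype L] [LinearOrder L] (X : OpD R N L)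

/-- norm operator -/
def nm (l : L) : Module.End R N := ∑ i ∈ range (X.ord l), X.V l ^ i

/-- coefficients of the periodic resolution -/
def cf (l : L) (j : ℕ) : Module.End R N := if Even j then X.V l - 1 else X.nm l

lemma cf_comm_of {Y : Module.End R N} {l : L} (h : X.V l * Y = Y * X.V l) (j : ℕ) :
    X.cf l j * Y = Y * X.cf l j := by
  have h' : Commute (X.V l) Y := h
  unfold cf
  split_ifs
  · rw [sub_mul, mul_sub, h, one_mul, mul_one]
  · rw [nm, sum_mul, mul_sum]
    exact sum_congr rfl fun i _ => (h'.pow_left i).eq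

lemma cf_cf (l m : L) (i j : ℕ) : X.cf l i * X.cf m j = X.cf m j * X.cf l i :=
  X.cf_comm_of (X.cf_comm_of (X.V_comm m l) j).symm i

lemma cf_mul_cf (l : L) (j : ℕ) : X.cf l j * X.cf l (j + 1) = 0 := by
  have h1 : (X.V l - 1) * X.nm l = 0 := by rw [nm, mul_geom_sum, X.V_pow, sub_self]
  unfold cf
  rcases Nat.even_or_odd j with h | h
  · rw [if_pos h, if_neg (by rw [Nat.even_add_one]; exact fun h' => h' h)]
    exact h1
  · have h' : ¬ Even j := Nat.not_even_iff_odd.mpr h
    rw [if_neg h', if_pos (by rw [Nat.even_add_one]; exact h')]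
    have h2 := X.cf_comm_of (Y := X.V l) (l := l) rfl 1
    rw [cf, if_neg (by decide)] at h2
    rw [mul_sub, h2, mul_one, ← h1, sub_mul, one_mul]

/-- The total module -/
abbrev PT (L : Type) (N : Type u) : Type u := (L →₀ ℕ) → N

/-- differential in a direction of `L` -/
noncomputable def dl (l : L) : Module.End R (PT L N) where
  toFun z t := sg (sl l t) • X.cf l (t l) (z (t + el l))
  map_add' z z' := by
    funext t
    simp only [Pi.add_apply, map_add, smul_add]
  map_smul' b z := by
    funext t
    simp only [Pi.smul_apply, map_smul, RingHom.id_apply]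
    rw [smul_comm]

/-- internal differential -/
noncomputable def dD : Module.End R (PT L N) where
  toFun z t := sg (tl t) • X.D (z t)
  map_add' z z' := by
    funext t
    simp only [Pi.add_apply, map_add, smul_add]
  map_smul' b z := by
    funext t
    simp only [Pi.smul_apply, map_smul, RingHom.id_apply]
    rw [smul_comm]

/-- correction term -/
noncomputable def dh (l : L) : Module.End R (PT L N) where
  toFun z t := if Odd (t l) then sg (sl l t) • X.A l (z (t - el l)) else 0
  map_add' z z' := by
    funext t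
    by_cases h : Odd (t l) <;> simp only [Pi.add_apply, map_add, smul_add, h, if_true,
      if_false, add_zero]
  map_smul' b z := by
    funext t
    by_cases h : Odd (t l)
    · simp only [Pi.smul_apply, map_smul, RingHom.id_apply, h, if_true]
      rw [smul_comm]
    · simp [h]

lemma dl_apply (l : L) (z : PT L N) (t : L →₀ ℕ) :
    X.dl l z t = sg (sl l t) • X.cf l (t l) (z (t + el l)) := rfl

lemma dD_apply (z : PT L N) (t : L →₀ ℕ) :
    X.dD z t = sg (tl t) • X.D (z t) := rfl

lemma dh_apply (l : L) (z : PT L N) (t : L →₀ ℕ) :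
    X.dh l z t = if Odd (t l) then sg (sl l t) • X.A l (z (t - el l)) else 0 := rfl

lemma dh_apply_add (l : L) (z : PT L N) (t : L →₀ ℕ) :
    X.dh l z (t + el l) = if Even (t l) then sg (sl l t) • X.A l (z t) else 0 := by
  rw [dh_apply, add_tsub_cancel_right, sl_self, add_el_same]
  by_cases h : Even (t l)
  · rw [if_pos (by rw [Nat.odd_add_one, Nat.not_odd_iff_even]; exact h), if_pos h]
  · rw [if_neg (by rw [Nat.odd_add_one, Nat.not_odd_iff_even]; exact h), if_neg h]

lemma end_congr {Y Z : Module.End R N} (h : Y = Z) (x : N) : Y x = Z x := by rw [h]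

lemma dl_dl (l : L) : X.dl l * X.dl l = 0 := by
  refine LinearMap.ext fun z => funext fun t => ?_
  change X.dl l (X.dl l z) t = 0
  simp only [dl_apply, map_zsmul]
  rw [add_el_same, ← Module.End.mul_apply, X.cf_mul_cf]
  simp

lemma dl_dl_anti {l m : L} (h : l ≠ m) : X.dl l * X.dl m + X.dl m * X.dl l = 0 := by
  wlog hlm : l < m generalizing l m
  · rw [add_comm]
    exact this h.symm (lt_of_le_of_ne (not_lt.mp hlm) h.symm)
  refine LinearMap.ext fun z => funext fun t => ?_
  change X.dl l (X.dl m z) t + X.dl m (X.dl l z) t = 0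
  simp only [dl_apply, map_zsmul]
  rw [sl_add_lt hlm, sl_add_not_lt (not_lt.mpr hlm.le), sg_add_one,
    add_el_ne t h, add_el_ne t h.symm, ← Module.End.mul_apply, ← Module.End.mul_apply,
    X.cf_cf m l, add_right_comm t, smul_smul, smul_smul, mul_comm (sg (sl m t)), mul_neg, neg_smul]
  exact neg_add_cancel _

lemma dD_dD : X.dD * X.dD = ∑ l, (X.dl l * X.dh l + X.dh l * X.dl l) := by
  refine LinearMap.ext fun z => funext fun t => ?_
  rw [LinearMap.sum_apply, Finset.sum_apply]
  change X.dD (X.dD z) t = _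
  rw [dD_apply, dD_apply, map_zsmul, smul_smul, sg_mul_self, one_smul, ← Module.End.mul_apply,
    X.DD, LinearMap.sum_apply]
  refine sum_congr rfl fun l _ => ?_
  change _ = X.dl l (X.dh l z) t + X.dh l (X.dl l z) t
  rw [dl_apply, dh_apply_add]
  by_cases h : Even (t l)
  · rw [if_pos h, dh_apply, if_neg (Nat.not_odd_iff_even.mpr h), add_zero, map_zsmul, smul_smul,
      sg_mul_self, one_smul, cf, if_pos h, Module.End.mul_apply]
  · rw [if_neg h, map_zero, smul_zero, zero_add]
    have ho : Odd (t l) := Nat.not_even_iff_odd.mp h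
    obtain ⟨t, rfl⟩ := exists_eq_add_el t l (by intro h0; simp [h0] at ho)
    have he : Even (t l) := by
      rw [add_el_same, Nat.odd_add_one, Nat.not_odd_iff_even] at ho
      exact ho
    rw [dh_apply_add, if_pos he, dl_apply, map_zsmul, smul_smul, sg_mul_self, one_smul, cf,
      if_pos he, ← Module.End.mul_apply, mul_sub, ← X.VA, mul_one, sub_mul, one_mul]

lemma dl_dD (l : L) : X.dl l * X.dD + X.dD * X.dl l = 0 := by
  refine LinearMap.ext fun z => funext fun t => ?_
  change X.dl l (X.dD z) t + X.dD (X.dl l z) t = 0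
  simp only [dl_apply, dD_apply, map_zsmul]
  rw [tl_add, sg_add_one, ← Module.End.mul_apply, ← Module.End.mul_apply,
    X.cf_comm_of (X.VD l), smul_smul, smul_smul, mul_comm, neg_mul, neg_smul]
  exact neg_add_cancel _

lemma dD_dh (l : L) : X.dD * X.dh l + X.dh l * X.dD = 0 := by
  refine LinearMap.ext fun z => funext fun t => ?_
  change X.dD (X.dh l z) t + X.dh l (X.dD z) t = 0
  by_cases ho : Odd (t l)
  · obtain ⟨t, rfl⟩ := exists_eq_add_el t l (by intro h0; simp [h0] at ho)
    have he : Even (t l) := by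
      rw [add_el_same, Nat.odd_add_one, Nat.not_odd_iff_even] at ho
      exact ho
    rw [dD_apply, dh_apply_add, dh_apply_add, if_pos he, if_pos he, dD_apply, map_zsmul,
      map_zsmul, ← Module.End.mul_apply, ← Module.End.mul_apply, X.AD, smul_smul, smul_smul,
      tl_add, sg_add_one, neg_mul, neg_smul, mul_comm (sg (tl t))]
    exact neg_add_cancel _
  · rw [dD_apply, dh_apply, dh_apply, if_neg ho, if_neg ho, map_zero, smul_zero, add_zero]

lemma dh_dh_same (l : L) : X.dh l * X.dh l = 0 := by
  refine LinearMap.ext fun z => funext fun t => ?_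
  change X.dh l (X.dh l z) t = 0
  by_cases ho : Odd (t l)
  · obtain ⟨t, rfl⟩ := exists_eq_add_el t l (by intro h0; simp [h0] at ho)
    have he : Even (t l) := by
      rw [add_el_same, Nat.odd_add_one, Nat.not_odd_iff_even] at ho
      exact ho
    rw [dh_apply_add, if_pos he, dh_apply, if_neg (Nat.not_odd_iff_even.mpr he), map_zero,
      smul_zero]
  · rw [dh_apply, if_neg ho]

lemma dl_dh {m l : L} (h : m ≠ l) : X.dl m * X.dh l + X.dh l * X.dl m = 0 := by
  refine LinearMap.ext fun z => funext fun t => ?_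
  change X.dl m (X.dh l z) t + X.dh l (X.dl m z) t = 0
  by_cases ho : Odd (t l)
  · obtain ⟨t, rfl⟩ := exists_eq_add_el t l (by intro h0; simp [h0] at ho)
    have he : Even (t l) := by
      rw [add_el_same, Nat.odd_add_one, Nat.not_odd_iff_even] at ho
      exact ho
    rw [dl_apply, add_right_comm t, dh_apply_add, dh_apply_add, add_el_ne _ h, if_pos he,
      if_pos he, dl_apply, map_zsmul, map_zsmul, ← Module.End.mul_apply, ← Module.End.mul_apply,
      add_el_ne _ h.symm, X.cf_comm_of (X.VA m l), smul_smul, smul_smul]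
    rcases lt_or_gt_of_ne h with hml | hml
    · rw [sl_add_lt hml, sl_add_not_lt (not_lt.mpr hml.le), sg_add_one,
        mul_neg, neg_smul, mul_comm (sg (sl m t))]
      exact neg_add_cancel _
    · rw [sl_add_lt hml, sl_add_not_lt (not_lt.mpr hml.le), sg_add_one,
        neg_mul, neg_smul, mul_comm (sg (sl l t))]
      exact neg_add_cancel _
  · rw [dl_apply, dh_apply, dh_apply, add_el_ne _ h, if_neg ho, if_neg ho, map_zero, smul_zero,
      add_zero]

lemma dh_dh {l m : L} (h : l ≠ m) : X.dh l * X.dh m + X.dh m * X.dh l = 0 := by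
  wlog hlm : l < m generalizing l m
  · rw [add_comm]
    exact this h.symm (lt_of_le_of_ne (not_lt.mp hlm) h.symm)
  refine LinearMap.ext fun z => funext fun t => ?_
  change X.dh l (X.dh m z) t + X.dh m (X.dh l z) t = 0
  by_cases ho : Odd (t l)
  · obtain ⟨t, rfl⟩ := exists_eq_add_el t l (by intro h0; simp [h0] at ho)
    have he : Even (t l) := by
      rw [add_el_same, Nat.odd_add_one, Nat.not_odd_iff_even] at ho
      exact ho
    rw [dh_apply_add, if_pos he]
    by_cases ho' : Odd (t m)
    · obtain ⟨t, rfl⟩ := exists_eq_add_el t m (by intro h0; simp [h0] at ho')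
      have he' : Even (t m) := by
        rw [add_el_same, Nat.odd_add_one, Nat.not_odd_iff_even] at ho'
        exact ho'
      have he2 : Even (t l) := by rwa [add_el_ne _ h.symm] at he
      rw [dh_apply_add, if_pos he', add_right_comm t, dh_apply_add, add_el_ne _ h, if_pos he',
        dh_apply_add, if_pos he2, map_zsmul, map_zsmul, ← Module.End.mul_apply,
        ← Module.End.mul_apply, X.AA m l, smul_smul, smul_smul, sl_add_not_lt (not_lt.mpr hlm.le),
        sl_add_lt hlm, sg_add_one, neg_mul, neg_smul, mul_comm (sg (sl m t))]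
      exact add_neg_cancel _
    · rw [dh_apply, if_neg ho', dh_apply, add_el_ne _ h, if_neg ho', map_zero, smul_zero, add_zero]
  · rw [dh_apply, if_neg ho]
    by_cases ho' : Odd (t m)
    · obtain ⟨t, rfl⟩ := exists_eq_add_el t m (by intro h0; simp [h0] at ho')
      rw [add_el_ne _ h.symm] at ho
      rw [dh_apply, if_pos ho', add_tsub_cancel_right, dh_apply, if_neg ho, map_zero, smul_zero,
        add_zero]
    · rw [dh_apply, if_neg ho', add_zero]

/-- the differential -/
noncomputable def d : Module.End R (PT L N) := ∑ l, X.dl l + X.dD - ∑ l, X.dh l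

lemma sum_dl_sum_dh : (∑ l, X.dl l) * (∑ l, X.dh l) + (∑ l, X.dh l) * (∑ l, X.dl l) =
    ∑ l, (X.dl l * X.dh l + X.dh l * X.dl l) := by
  classical
  have h1 : ∀ m, X.dl m * (∑ l, X.dh l) + (∑ l, X.dh l) * X.dl m =
      X.dl m * X.dh m + X.dh m * X.dl m := by
    intro m
    rw [← Finset.add_sum_erase univ X.dh (mem_univ m)]
    have := sum_anti (R := Module.End R (PT L N)) (univ.erase m) X.dh (X.dl m)
      (fun l hl => X.dl_dh (Finset.ne_of_mem_erase hl).symm)
    calc X.dl m * (X.dh m + ∑ x ∈ univ.erase m, X.dh x) +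
        (X.dh m + ∑ x ∈ univ.erase m, X.dh x) * X.dl m =
        (X.dl m * X.dh m + X.dh m * X.dl m) +
        (X.dl m * (∑ x ∈ univ.erase m, X.dh x) + (∑ x ∈ univ.erase m, X.dh x) * X.dl m) := by
          noncomm_ring
      _ = _ := by rw [this, add_zero]
  rw [sum_mul, mul_sum, ← sum_add_distrib]
  exact sum_congr rfl fun m _ => h1 m

lemma d_d : X.d * X.d = 0 := by
  have h1 : (∑ l, X.dl l) * (∑ l, X.dl l) = 0 :=
    sum_sq (R := Module.End R (PT L N)) univ X.dl X.dl_dl fun _ _ h => X.dl_dl_anti h
  have h2 : (∑ l, X.dh l) * (∑ l, X.dh l) = 0 :=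
    sum_sq (R := Module.End R (PT L N)) univ X.dh X.dh_dh_same fun _ _ h => X.dh_dh h
  have h3 : X.dD * (∑ l, X.dl l) + (∑ l, X.dl l) * X.dD = 0 :=
    sum_anti (R := Module.End R (PT L N)) univ X.dl X.dD fun l _ => by
      rw [add_comm]; exact X.dl_dD l
  have h4 : X.dD * (∑ l, X.dh l) + (∑ l, X.dh l) * X.dD = 0 :=
    sum_anti (R := Module.End R (PT L N)) univ X.dh X.dD fun l _ => X.dD_dh l
  have h5 := X.sum_dl_sum_dh
  have h6 := X.dD_dD
  rw [← h5] at h6
  rw [d]
  generalize (∑ l, X.dl l) = x at *
  generalize (∑ l, X.dh l) = z at *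
  generalize X.dD = y at *
  refine (KD.ring_id2 (R := Module.End R (PT L N)) x y z).trans ?_
  rw [add_comm (x * y), h1, h2, h3, h4, h6]
  simp

lemma d_d_apply (z : PT L N) : X.d (X.d z) = 0 := LinearMap.congr_fun X.d_d z

lemma d_apply (z : PT L N) (t : L →₀ ℕ) : X.d z t = ∑ l, X.dl l z t + X.dD z t -
    ∑ l, X.dh l z t := by
  simp [d, LinearMap.sum_apply, Finset.sum_apply]

end OpD

end Pool.Agent.H170_FG
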