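import Pool.Agent.H170_FG.Tw1

/-!
# Contractions of the total complex
-/

set_option linter.unusedSectionVars false

universe u

open Finset

namespace Pool.Agent.H170_FG

namespace OpD

open KD (sg sg_add_one sg_mul_self sum_anti sum_sq)

variable {R : Type u} [Ring R] {N : Type u} [AddCommGroup N] [Module R N] {L : Type}
    [Fintype L] [LinearOrder L] (X : OpD R N L)

/-- A direction in which the complex is contractible. -/
structure Phase (S : AddSubgroup N) (σ : N →ₗ[R] N) (T : N →+ N) : Prop where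
  SV : ∀ l, ∀ f ∈ S, X.V l f ∈ S
  SD : ∀ f ∈ S, X.D f ∈ S
  SA : ∀ l, ∀ f ∈ S, X.A l f ∈ S
  ST : ∀ f ∈ S, T f ∈ S
  sV : ∀ l, ∀ f ∈ S, σ (X.V l f) = X.V l (σ f)
  TV : ∀ l, ∀ f ∈ S, σ (X.V l (T f)) = σ (T (X.V l f))
  TD : ∀ f ∈ S, σ (X.D (T f)) + σ (T (X.D f)) = σ f
  TA : ∀ l, ∀ f ∈ S, σ (X.A l (T f)) = σ (T (X.A l f))

/-- extension of a homotopy to the total module -/
def hat (T : N →+ N) : PT L N →+ PT L N where
  toFun z t := sg (tl t) • T (z t)
  map_zero' := by
    funext t
    simp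
  map_add' z z' := by
    funext t
    simp

omit [LinearOrder L] in
lemma hat_apply (T : N →+ N) (z : PT L N) (t : L →₀ ℕ) : hat T z t = sg (tl t) • T (z t) := rfl

section stable

variable {X} {S : AddSubgroup N} (SV : ∀ l, ∀ f ∈ S, X.V l f ∈ S)

include SV in
lemma cf_mem (l : L) (j : ℕ) {f : N} (hf : f ∈ S) : X.cf l j f ∈ S := by
  unfold cf
  split_ifs
  · change X.V l f - f ∈ S
    exact S.sub_mem (SV l f hf) hf
  · rw [nm, LinearMap.sum_apply]
    have h1 : ∀ i, (X.V l ^ i) f ∈ S := by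
      intro i
      induction i with
      | zero => simpa using hf
      | succ i ih =>
        rw [pow_succ']
        exact SV l _ ih
    exact S.sum_mem fun i _ => h1 i

include SV in
lemma d_mem_of (SD : ∀ f ∈ S, X.D f ∈ S) (SA : ∀ l, ∀ f ∈ S, X.A l f ∈ S) {z : PT L N}
    (hz : ∀ t, z t ∈ S) (t : L →₀ ℕ) : X.d z t ∈ S := by
  rw [d_apply]
  refine S.sub_mem (S.add_mem (S.sum_mem fun l _ => ?_) ?_) (S.sum_mem fun l _ => ?_)
  · rw [dl_apply]
    exact S.zsmul_mem (cf_mem SV l _ (hz _)) _
  · rw [dD_apply]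
    exact S.zsmul_mem (SD _ (hz _)) _
  · rw [dh_apply]
    split_ifs
    · exact S.zsmul_mem (SA l _ (hz _)) _
    · exact S.zero_mem

end stable

namespace Phase

variable {X} {S : AddSubgroup N} {σ : N →ₗ[R] N} {T : N →+ N} (H : X.Phase S σ T)

include H in
lemma TVpow (l : L) (i : ℕ) : ∀ f ∈ S, σ ((X.V l ^ i) (T f)) = σ (T ((X.V l ^ i) f)) := by
  induction i with
  | zero => intro f _; simp
  | succ i ih =>
    intro f hf
    have h1 : ∀ g ∈ S, (X.V l ^ i) g ∈ S := by
      intro g hg
      clear ih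
      induction i with
      | zero => simpa using hg
      | succ i ih =>
        rw [pow_succ']
        exact H.SV l _ ih
    rw [pow_succ']
    change σ (X.V l ((X.V l ^ i) (T f))) = σ (T (X.V l ((X.V l ^ i) f)))
    rw [H.sV l _ (h1 _ (H.ST f hf)), ih f hf, ← H.sV l _ (H.ST _ (h1 _ hf)), H.TV l _ (h1 _ hf)]

include H in
lemma Tcf (l : L) (j : ℕ) (f : N) (hf : f ∈ S) : σ (X.cf l j (T f)) = σ (T (X.cf l j f)) := by
  unfold cf
  split_ifs
  · change σ (X.V l (T f) - T f) = σ (T (X.V l f - f))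
    rw [map_sub, map_sub, map_sub, H.TV l f hf]
  · rw [nm, LinearMap.sum_apply, LinearMap.sum_apply, map_sum, map_sum, map_sum]
    exact sum_congr rfl fun i _ => H.TVpow l i f hf

include H in
lemma homotopy (z : PT L N) (hz : ∀ t, z t ∈ S) (t : L →₀ ℕ) :
    σ (X.d (hat T z) t) + σ (hat T (X.d z) t) = σ (z t) := by
  rw [d_apply, hat_apply, d_apply]
  simp only [map_add, map_sub, map_sum, map_zsmul, smul_sub, smul_add, Finset.smul_sum]
  have h1 : ∑ l, σ (X.dl l (hat T z) t) + ∑ l, sg (tl t) • σ (T (X.dl l z t)) = 0 := by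
    rw [← sum_add_distrib]
    refine sum_eq_zero fun l _ => ?_
    rw [dl_apply, dl_apply, hat_apply]
    simp only [map_zsmul]
    rw [H.Tcf l _ _ (hz _), tl_add, sg_add_one, smul_smul, smul_smul, mul_neg, neg_smul,
      mul_comm (sg (tl t))]
    exact neg_add_cancel _
  have h2 : ∑ l, σ (X.dh l (hat T z) t) + ∑ l, sg (tl t) • σ (T (X.dh l z t)) = 0 := by
    rw [← sum_add_distrib]
    refine sum_eq_zero fun l _ => ?_
    by_cases ho : Odd (t l)
    · obtain ⟨t, rfl⟩ := exists_eq_add_el t l (by intro h0; simp [h0] at ho)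
      have he : Even (t l) := by
        rw [add_el_same, Nat.odd_add_one, Nat.not_odd_iff_even] at ho
        exact ho
      rw [dh_apply_add, dh_apply_add, if_pos he, if_pos he, hat_apply]
      simp only [map_zsmul]
      rw [H.TA l _ (hz _), tl_add, sg_add_one, smul_smul, smul_smul, neg_mul, neg_smul,
        mul_comm (sg (tl t))]
      exact add_neg_cancel _
    · rw [dh_apply, dh_apply, if_neg ho, if_neg ho, map_zero, map_zero, map_zero, smul_zero,
        add_zero]
  have h3 : σ (X.dD (hat T z) t) + sg (tl t) • σ (T (X.dD z t)) = σ (z t) := by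
    rw [dD_apply, dD_apply, hat_apply]
    simp only [map_zsmul]
    rw [smul_smul, smul_smul, sg_mul_self, one_smul, one_smul, H.TD _ (hz t)]
  calc ∑ l, σ (X.dl l (hat T z) t) + σ (X.dD (hat T z) t) - ∑ l, σ (X.dh l (hat T z) t) +
      (∑ l, sg (tl t) • σ (T (X.dl l z t)) + sg (tl t) • σ (T (X.dD z t)) -
        ∑ l, sg (tl t) • σ (T (X.dh l z t))) =
      (∑ l, σ (X.dl l (hat T z) t) + ∑ l, sg (tl t) • σ (T (X.dl l z t))) +
      (σ (X.dD (hat T z) t) + sg (tl t) • σ (T (X.dD z t))) -
      (∑ l, σ (X.dh l (hat T z) t) + ∑ l, sg (tl t) • σ (T (X.dh l z t))) := by abel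
    _ = σ (z t) := by rw [h1, h2, h3, zero_add, sub_zero]

include H in
theorem exists_sub (z : PT L N) (hz : ∀ t, z t ∈ S) (hd : X.d z = 0) :
    ∃ y : PT L N, (∀ t, y t ∈ S) ∧ ∀ t, (z - X.d y) t ∈ S ∧ σ ((z - X.d y) t) = 0 := by
  have hy : ∀ t, hat T z t ∈ S := fun t => S.zsmul_mem (H.ST _ (hz t)) _
  refine ⟨hat T z, hy, fun t => ⟨?_, ?_⟩⟩
  · exact S.sub_mem (hz t) (d_mem_of H.SV H.SD H.SA hy t)
  · rw [Pi.sub_apply, map_sub, ← H.homotopy z hz t, hd, map_zero, Pi.zero_apply, map_zero, add_zero,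
      sub_self]

end Phase

/-- The last step of the contraction. -/
structure LPhase (S : AddSubgroup N) (s s' : L → N →+ N) : Prop where
  SV : ∀ l, ∀ f ∈ S, X.V l f ∈ S
  Ss : ∀ l, ∀ f ∈ S, s l f ∈ S
  Ss' : ∀ l, ∀ f ∈ S, s' l f ∈ S
  D0 : ∀ f ∈ S, X.D f = 0
  A0 : ∀ l, ∀ f ∈ S, X.A l f = 0
  s_eq : ∀ l, ∀ f ∈ S, (X.V l - 1) (s l f) + s' l (X.nm l f) = f
  s'_eq : ∀ l, ∀ f ∈ S, X.nm l (s' l f) + s l ((X.V l - 1) f) = f
  s_V : ∀ l m, l ≠ m → ∀ f ∈ S, s l (X.V m f) = X.V m (s l f)
  s'_V : ∀ l m, l ≠ m → ∀ f ∈ S, s' l (X.V m f) = X.V m (s' l f)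

/-- homotopy in the direction of `l` -/
noncomputable def es (s s' : L → N →+ N) (l : L) : PT L N →+ PT L N where
  toFun z t := if t l = 0 then 0 else
    if Odd (t l) then sg (sl l t) • s l (z (t - el l))
    else sg (sl l t) • s' l (z (t - el l))
  map_zero' := by
    funext t
    simp
  map_add' z z' := by
    funext t
    by_cases h : t l = 0
    · simp [h]
    · by_cases h' : Odd (t l) <;> simp [h, h']

lemma es_apply (s s' : L → N →+ N) (l : L) (z : PT L N) (t : L →₀ ℕ) : es s s' l z t =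
    if t l = 0 then 0 else
    if Odd (t l) then sg (sl l t) • s l (z (t - el l))
    else sg (sl l t) • s' l (z (t - el l)) := rfl

lemma es_apply_add (s s' : L → N →+ N) (l : L) (z : PT L N) (t : L →₀ ℕ) :
    es s s' l z (t + el l) =
    if Even (t l) then sg (sl l t) • s l (z t) else sg (sl l t) • s' l (z t) := by
  rw [es_apply, if_neg (by rw [add_el_same]; omega), add_tsub_cancel_right, sl_self, add_el_same]
  by_cases h : Even (t l)
  · rw [if_pos (by rw [Nat.odd_add_one, Nat.not_odd_iff_even]; exact h), if_pos h]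
  · rw [if_neg (by rw [Nat.odd_add_one, Nat.not_odd_iff_even]; exact h), if_neg h]

/-- vanishing on all indices with a positive exponent of `l` -/
def sup1 (l : L) (z : PT L N) : Prop := ∀ t, t l ≠ 0 → z t = 0

omit [Fintype L] [LinearOrder L] in
lemma sup1_sub {l : L} {z z' : PT L N} (h : sup1 l z) (h' : sup1 l z') :
    sup1 l (z - z') := by
  intro t ht
  rw [Pi.sub_apply, h t ht, h' t ht, sub_zero]

namespace LPhase

variable {X} {S : AddSubgroup N} {s s' : L → N →+ N} (H : X.LPhase S s s')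

include H in
lemma es_mem (l : L) {z : PT L N} (hz : ∀ t, z t ∈ S) (t : L →₀ ℕ) : es s s' l z t ∈ S := by
  rw [es_apply]
  split_ifs
  · exact S.zero_mem
  · exact S.zsmul_mem (H.Ss l _ (hz _)) _
  · exact S.zsmul_mem (H.Ss' l _ (hz _)) _

include H in
lemma d_eq {z : PT L N} (hz : ∀ t, z t ∈ S) (t : L →₀ ℕ) : X.d z t = ∑ l, X.dl l z t := by
  have h1 : X.dD z t = 0 := by rw [dD_apply, H.D0 _ (hz _), smul_zero]
  have h2 : ∀ l, X.dh l z t = 0 := by
    intro l
    rw [dh_apply, H.A0 l _ (hz _), smul_zero, ite_self]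
  rw [d_apply, h1, sum_eq_zero fun l _ => h2 l, add_zero, sub_zero]

include H in
lemma sVpow {l m : L} (h : l ≠ m) (i : ℕ) : ∀ f ∈ S, s l ((X.V m ^ i) f) = (X.V m ^ i) (s l f) := by
  induction i with
  | zero => intro f _; simp
  | succ i ih =>
    intro f hf
    rw [pow_succ, Module.End.mul_apply, ih _ (H.SV m f hf), H.s_V l m h f hf]
    rfl

include H in
lemma s'Vpow {l m : L} (h : l ≠ m) (i : ℕ) :
    ∀ f ∈ S, s' l ((X.V m ^ i) f) = (X.V m ^ i) (s' l f) := by
  induction i with
  | zero => intro f _; simp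
  | succ i ih =>
    intro f hf
    rw [pow_succ, Module.End.mul_apply, ih _ (H.SV m f hf), H.s'_V l m h f hf]
    rfl

include H in
lemma scf {l m : L} (h : l ≠ m) (j : ℕ) (f : N) (hf : f ∈ S) :
    s l (X.cf m j f) = X.cf m j (s l f) := by
  unfold cf
  split_ifs
  · change s l (X.V m f - f) = X.V m (s l f) - s l f
    rw [map_sub, H.s_V l m h f hf]
  · rw [nm, LinearMap.sum_apply, LinearMap.sum_apply, map_sum]
    exact sum_congr rfl fun i _ => H.sVpow h i f hf

include H in
lemma s'cf {l m : L} (h : l ≠ m) (j : ℕ) (f : N) (hf : f ∈ S) :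
    s' l (X.cf m j f) = X.cf m j (s' l f) := by
  unfold cf
  split_ifs
  · change s' l (X.V m f - f) = X.V m (s' l f) - s' l f
    rw [map_sub, H.s'_V l m h f hf]
  · rw [nm, LinearMap.sum_apply, LinearMap.sum_apply, map_sum]
    exact sum_congr rfl fun i _ => H.s'Vpow h i f hf

include H in
lemma dl_es_same (l : L) {z : PT L N} (hz : ∀ t, z t ∈ S) (t : L →₀ ℕ) :
    X.dl l (es s s' l z) (t + el l) + es s s' l (X.dl l z) (t + el l) = z (t + el l) := by
  rw [dl_apply, es_apply_add, es_apply_add, dl_apply, add_el_same, sl_self]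
  by_cases h : Even (t l)
  · have h' : ¬ Even (t l + 1) := by rw [Nat.even_add_one]; exact fun h' => h' h
    rw [if_pos h, if_neg h', map_zsmul, map_zsmul, smul_smul, smul_smul, sg_mul_self,
      one_smul, one_smul, cf, cf, if_neg h', if_pos h]
    exact H.s'_eq l _ (hz _)
  · have h' : Even (t l + 1) := by rw [Nat.even_add_one]; exact h
    rw [if_neg h, if_pos h', map_zsmul, map_zsmul, smul_smul, smul_smul, sg_mul_self,
      one_smul, one_smul, cf, cf, if_pos h', if_neg h]
    exact H.s_eq l _ (hz _)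

include H in
lemma dl_es {l m : L} (h : l ≠ m) {z : PT L N} (hz : ∀ t, z t ∈ S) (t : L →₀ ℕ) :
    X.dl m (es s s' l z) (t + el l) + es s s' l (X.dl m z) (t + el l) = 0 := by
  have hsg : ∀ x : N, (sg (sl m (t + el l)) * sg (sl l (t + el m))) • x +
      (sg (sl l t) * sg (sl m t)) • x = 0 := by
    intro x
    rcases lt_or_gt_of_ne h with hml | hml
    · rw [sl_add_lt hml, sl_add_not_lt (not_lt.mpr hml.le), sg_add_one, neg_mul, neg_smul, mul_comm]
      exact neg_add_cancel _
    · rw [sl_add_lt hml, sl_add_not_lt (not_lt.mpr hml.le), sg_add_one, mul_neg, neg_smul, mul_comm]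
      exact neg_add_cancel _
  rw [dl_apply, add_right_comm t, es_apply_add, es_apply_add, dl_apply,
    add_el_ne _ h.symm, add_el_ne _ h]
  by_cases h1 : Even (t l)
  · rw [if_pos h1, if_pos h1, map_zsmul, map_zsmul, H.scf h _ _ (hz _), smul_smul, smul_smul]
    exact hsg _
  · rw [if_neg h1, if_neg h1, map_zsmul, map_zsmul, H.s'cf h _ _ (hz _), smul_smul, smul_smul]
    exact hsg _

include H in
lemma d_es (l : L) {z : PT L N} (hz : ∀ t, z t ∈ S) (t : L →₀ ℕ) :
    X.d (es s s' l z) (t + el l) + es s s' l (X.d z) (t + el l) = z (t + el l) := by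
  classical
  have h1 : X.d z = ∑ m, X.dl m z := by
    funext t
    rw [H.d_eq hz, Finset.sum_apply]
  rw [H.d_eq (H.es_mem l hz), h1, map_sum, Finset.sum_apply, ← sum_add_distrib,
    Finset.sum_eq_single l]
  · exact H.dl_es_same l hz t
  · intro m _ hm
    exact H.dl_es hm.symm hz t
  · simp

include H in
lemma sup1_d {l : L} {z : PT L N} (hz : ∀ t, z t ∈ S) (h : sup1 l z) : sup1 l (X.d z) := by
  intro t ht
  rw [H.d_eq hz]
  refine sum_eq_zero fun m _ => ?_
  rw [dl_apply, h, map_zero, smul_zero]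
  rw [Finsupp.add_apply]
  omega

lemma sup1_es {l m : L} {z : PT L N} (h : sup1 m z) (hlm : l ≠ m) :
    sup1 m (es s s' l z) := by
  intro t ht
  by_cases h0 : t l = 0
  · rw [es_apply, if_pos h0]
  · obtain ⟨t, rfl⟩ := exists_eq_add_el t l h0
    rw [es_apply_add, h, map_zero, map_zero, smul_zero, ite_self]
    rwa [add_el_ne _ hlm] at ht

include H in
theorem exists_sub (z : PT L N) (hz : ∀ t, z t ∈ S) (hd : X.d z = 0) :
    ∃ y : PT L N, (∀ t, y t ∈ S) ∧ ∀ t, t ≠ 0 → (z - X.d y) t = 0 := by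
  classical
  have hdS : ∀ y : PT L N, (∀ t, y t ∈ S) → ∀ t, X.d y t ∈ S := by
    intro y hy t
    rw [H.d_eq hy]
    refine S.sum_mem fun l _ => ?_
    rw [dl_apply]
    exact S.zsmul_mem (cf_mem H.SV l _ (hy _)) _
  have key : ∀ σ : Finset L, ∃ y : PT L N, (∀ t, y t ∈ S) ∧ ∀ l ∈ σ, sup1 l (z - X.d y) := by
    intro σ
    induction σ using Finset.induction_on with
    | empty => exact ⟨0, fun t => S.zero_mem, by simp⟩
    | insert l σ hl ih =>
      obtain ⟨y, hyS, hy⟩ := ih
      set z' := z - X.d y with hz'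
      have hdz' : X.d z' = 0 := by rw [hz', map_sub, hd, X.d_d_apply, sub_zero]
      have hz'S : ∀ t, z' t ∈ S := fun t => S.sub_mem (hz t) (hdS y hyS t)
      have hesS := H.es_mem l hz'S
      refine ⟨y + es s s' l z', fun t => S.add_mem (hyS t) (hesS t), ?_⟩
      intro m hm
      rw [map_add, ← sub_sub, ← hz']
      rcases Finset.mem_insert.mp hm with rfl | hm
      · intro t ht
        obtain ⟨t, rfl⟩ := exists_eq_add_el t m ht
        have := H.d_es m hz'S t
        rw [hdz', map_zero, Pi.zero_apply, add_zero] at this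
        rw [Pi.sub_apply, this, sub_self]
      · refine sup1_sub (hy m hm) (H.sup1_d hesS (sup1_es (hy m hm) ?_))
        rintro rfl
        exact hl hm
  obtain ⟨y, hyS, hy⟩ := key univ
  refine ⟨y, hyS, fun t ht => ?_⟩
  obtain ⟨l, hl⟩ : ∃ l, t l ≠ 0 := by
    by_contra h
    push Not at h
    exact ht (Finsupp.ext h)
  exact hy l (mem_univ l) t hl

end LPhase

/-! ### Gradings and operators -/

/-- Projections to homogeneous components. -/
structure Grd (pr : ℤ → Module.End R N) : Prop where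
  V : ∀ l m, X.V l * pr m = pr m * X.V l
  D : ∀ m, X.D * pr (m + 1) = pr m * X.D
  A : ∀ l m, X.A l * pr (m + 2) = pr m * X.A l

/-- projections on the total module -/
noncomputable def PR (L : Type) [Fintype L] (pr : ℤ → Module.End R N) (n : ℤ) :
    Module.End R (PT L N) where
  toFun z t := pr (n - tl t) (z t)
  map_add' z z' := by
    funext t
    simp
  map_smul' b z := by
    funext t
    simp

omit [LinearOrder L] in
lemma PR_apply (pr : ℤ → Module.End R N) (n : ℤ) (z : PT L N) (t : L →₀ ℕ) :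
    PR L pr n z t = pr (n - tl t) (z t) := rfl

lemma d_PR {pr : ℤ → Module.End R N} (H : X.Grd pr) (n : ℤ) (z : PT L N) :
    X.d (PR L pr (n + 1) z) = PR L pr n (X.d z) := by
  funext t
  rw [d_apply, PR_apply, d_apply, map_sub, map_add, map_sum, map_sum]
  congr 1
  · congr 1
    · refine sum_congr rfl fun l _ => ?_
      rw [dl_apply, dl_apply, PR_apply, map_zsmul, tl_add]
      have h1 : (n + 1 - ((tl t + 1 : ℕ) : ℤ)) = n - tl t := by push_cast; ring
      rw [h1, ← Module.End.mul_apply, X.cf_comm_of (H.V l _)]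
      rfl
    · rw [dD_apply, dD_apply, PR_apply, map_zsmul]
      have h1 : (n + 1 - (tl t : ℤ)) = n - tl t + 1 := by ring
      rw [h1, ← Module.End.mul_apply, H.D]
      rfl
  · refine sum_congr rfl fun l _ => ?_
    by_cases ho : Odd (t l)
    · obtain ⟨t, rfl⟩ := exists_eq_add_el t l (by intro h0; simp [h0] at ho)
      have he : Even (t l) := by
        rw [add_el_same, Nat.odd_add_one, Nat.not_odd_iff_even] at ho
        exact ho
      rw [dh_apply_add, dh_apply_add, if_pos he, if_pos he, PR_apply, map_zsmul, tl_add]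
      have h1 : (n + 1 - (tl t : ℤ)) = n - ((tl t + 1 : ℕ) : ℤ) + 2 := by push_cast; ring
      rw [h1, ← Module.End.mul_apply, H.A]
      rfl
    · rw [dh_apply, dh_apply, if_neg ho, if_neg ho, map_zero]

/-- pointwise application of an operator -/
noncomputable def pw (L : Type) (Y : Module.End R N) : Module.End R (PT L N) where
  toFun z t := Y (z t)
  map_add' z z' := by
    funext t
    simp
  map_smul' b z := by
    funext t
    simp

lemma d_pw {Y : Module.End R N} (hV : ∀ l, X.V l * Y = Y * X.V l) (hD : X.D * Y = Y * X.D)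
    (hA : ∀ l, X.A l * Y = Y * X.A l) (z : PT L N) : X.d (pw L Y z) = pw L Y (X.d z) := by
  funext t
  have h : ∀ z : PT L N, pw L Y z t = Y (z t) := fun _ => rfl
  rw [d_apply, h, d_apply, map_sub, map_add, map_sum, map_sum]
  congr 1
  · congr 1
    · refine sum_congr rfl fun l _ => ?_
      rw [dl_apply, dl_apply, map_zsmul]
      change _ • X.cf l _ (Y _) = _
      rw [← Module.End.mul_apply, X.cf_comm_of (hV l)]
      rfl
    · rw [dD_apply, dD_apply, map_zsmul]
      change _ • X.D (Y _) = _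
      rw [← Module.End.mul_apply, hD]
      rfl
  · refine sum_congr rfl fun l _ => ?_
    rw [dh_apply, dh_apply]
    split_ifs
    · rw [map_zsmul]
      change _ • X.A l (Y _) = _
      rw [← Module.End.mul_apply, hA]
      rfl
    · rw [map_zero]

/-- shift by two in the direction of `l` -/
noncomputable def sh (R : Type u) [Ring R] {N : Type u} [AddCommGroup N] [Module R N] (l : L) :
    Module.End R (PT L N) where
  toFun z t := z (t + el l + el l)
  map_add' _ _ := rfl
  map_smul' _ _ := rfl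

omit [Fintype L] [LinearOrder L] in
lemma sh_apply (l : L) (z : PT L N) (t : L →₀ ℕ) : sh R l z t = z (t + el l + el l) := rfl

omit [Fintype L] [LinearOrder L] in
lemma add_two_odd (t : L →₀ ℕ) (l m : L) : Odd ((t + el l + el l) m) ↔ Odd (t m) := by
  by_cases h : l = m
  · subst h
    rw [add_el_same, add_el_same, Nat.odd_add_one, Nat.odd_add_one, not_not]
  · rw [add_el_ne _ h, add_el_ne _ h]

lemma add_two_sl (t : L →₀ ℕ) (l m : L) : sg (sl m (t + el l + el l)) = sg (sl m t) := by
  by_cases h : l < m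
  · rw [sl_add_lt h, sl_add_lt h, sg_add_one, sg_add_one, neg_neg]
  · rw [sl_add_not_lt h, sl_add_not_lt h]

lemma d_sh (l : L) (z : PT L N) : X.d (sh R l z) = sh R l (X.d z) := by
  funext t
  rw [sh_apply, d_apply, d_apply]
  congr 1
  · congr 1
    · refine sum_congr rfl fun m _ => ?_
      rw [dl_apply, dl_apply, sh_apply, add_two_sl, add_right_comm _ (el m), add_right_comm _ (el m)]
      have : X.cf m ((t + el l + el l) m) = X.cf m (t m) := by
        unfold cf
        have h1 := add_two_odd t l m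
        by_cases h : Even (t m)
        · rw [if_pos h, if_pos]
          rw [← Nat.not_odd_iff_even, h1, Nat.not_odd_iff_even]
          exact h
        · rw [if_neg h, if_neg]
          rw [← Nat.not_odd_iff_even, h1, Nat.not_odd_iff_even]
          exact h
      rw [this]
    · rw [dD_apply, dD_apply, tl_add, tl_add, sg_add_one, sg_add_one, neg_neg]
      rfl
  · refine sum_congr rfl fun m _ => ?_
    rw [dh_apply, dh_apply, add_two_sl]
    by_cases ho : Odd (t m)
    · rw [if_pos ho, if_pos ((add_two_odd t l m).mpr ho)]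
      obtain ⟨t, rfl⟩ := exists_eq_add_el t m (by intro h0; simp [h0] at ho)
      have e1 : t + el m + el l + el l - el m = t + el l + el l := by
        rw [add_right_comm t (el m), add_right_comm _ (el m), add_tsub_cancel_right]
      rw [e1, add_tsub_cancel_right]
      rfl
    · rw [if_neg ho, if_neg (fun h => ho ((add_two_odd t l m).mp h))]

end OpD

end Pool.Agent.H170_FG
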