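import Pool.Agent.H170_FG.Tw2

/-!
# Operators on linear maps from a polynomial ring
-/

set_option linter.unusedSectionVars false

universe u

open Finset MvPolynomial

namespace Pool.Agent.H170_FG

section ops

variable {k : Type u} [Field k] {R : Type u} [Ring R] [Algebra k R] {W : Type}

/-- linear maps from the polynomial ring -/
abbrev NP (k : Type u) [Field k] (R : Type u) [Ring R] [Algebra k R] (W : Type) : Type u :=
  MvPolynomial W k →ₗ[k] R

/-- composition with an endomorphism of the polynomial ring -/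
noncomputable def pre (φ : MvPolynomial W k →ₗ[k] MvPolynomial W k) : Module.End R (NP k R W) where
  toFun f := f ∘ₗ φ
  map_add' _ _ := rfl
  map_smul' _ _ := rfl

/-- right multiplication -/
noncomputable def rr (b : R) : Module.End R (NP k R W) where
  toFun f := LinearMap.mulRight k b ∘ₗ f
  map_add' f g := by
    ext p
    simp [add_mul]
  map_smul' r f := by
    ext p
    simp [mul_assoc]

/-- composition with multiplication by a polynomial -/
noncomputable def shp (p : MvPolynomial W k) : Module.End R (NP k R W) := pre (LinearMap.mulLeft k p)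

lemma pre_apply (φ : MvPolynomial W k →ₗ[k] MvPolynomial W k) (f : NP k R W)
    (p : MvPolynomial W k) : pre φ f p = f (φ p) := rfl

lemma rr_apply (b : R) (f : NP k R W) (p : MvPolynomial W k) : rr b f p = f p * b := rfl

lemma shp_apply (q : MvPolynomial W k) (f : NP k R W) (p : MvPolynomial W k) :
    shp q f p = f (q * p) := rfl

lemma pre_rr (φ : MvPolynomial W k →ₗ[k] MvPolynomial W k) (b : R) :
    (pre φ * rr b : Module.End R (NP k R W)) = rr b * pre φ := rfl

lemma rr_mul (a b : R) : (rr a * rr b : Module.End R (NP k R W)) = rr (b * a) := by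
  refine LinearMap.ext fun f => LinearMap.ext fun p => ?_
  exact mul_assoc (f p) b a

lemma rr_one : (rr 1 : Module.End R (NP k R W)) = 1 := by
  refine LinearMap.ext fun f => LinearMap.ext fun p => ?_
  exact mul_one (f p)

lemma rr_add (a b : R) : (rr (a + b) : Module.End R (NP k R W)) = rr a + rr b := by
  refine LinearMap.ext fun f => LinearMap.ext fun p => ?_
  exact mul_add (f p) a b

lemma rr_sub (a b : R) : (rr (a - b) : Module.End R (NP k R W)) = rr a - rr b := by
  refine LinearMap.ext fun f => LinearMap.ext fun p => ?_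
  exact mul_sub (f p) a b

lemma rr_zero : (rr 0 : Module.End R (NP k R W)) = 0 := by
  refine LinearMap.ext fun f => LinearMap.ext fun p => ?_
  exact mul_zero (f p)

lemma shp_mul (p q : MvPolynomial W k) :
    (shp p * shp q : Module.End R (NP k R W)) = shp (p * q) := by
  ext1 f
  refine LinearMap.ext fun r => ?_
  change f (q * (p * r)) = f (p * q * r)
  congr 1
  ring

lemma shp_comm (p q : MvPolynomial W k) :
    (shp p * shp q : Module.End R (NP k R W)) = shp q * shp p := by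
  rw [shp_mul, shp_mul, mul_comm]

lemma shp_rr (p : MvPolynomial W k) (b : R) :
    (shp p * rr b : Module.End R (NP k R W)) = rr b * shp p := rfl

lemma shp_pre (p : MvPolynomial W k) (ρ : MvPolynomial W k →ₐ[k] MvPolynomial W k) :
    (shp p * pre ρ.toLinearMap : Module.End R (NP k R W)) = pre ρ.toLinearMap * shp (ρ p) := by
  ext1 f
  refine LinearMap.ext fun r => ?_
  change f (ρ (p * r)) = f (ρ p * ρ r)
  rw [map_mul]

lemma neg_mul3 {A : Type*} [Ring A] (a b c : A) : a * b * c + -a * b * c = 0 := by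
  rw [neg_mul, neg_mul, add_neg_cancel]

lemma sum_sq' {A ι : Type*} [Ring A] [DecidableEq ι] (s : Finset ι) (f : ι → A)
    (h2 : ∀ i j, i ≠ j → f i * f j + f j * f i = 0) :
    (∑ i ∈ s, f i) * (∑ i ∈ s, f i) = ∑ i ∈ s, f i * f i := by
  induction s using Finset.induction_on with
  | empty => simp
  | insert a s ha ih =>
    rw [sum_insert ha, sum_insert ha]
    have := KD.sum_anti s f (f a) (fun i hi => h2 a i (by rintro rfl; exact ha hi))
    have h3 : (f a + ∑ i ∈ s, f i) * (f a + ∑ i ∈ s, f i) = f a * f a +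
        (f a * (∑ i ∈ s, f i) + (∑ i ∈ s, f i) * f a) + (∑ i ∈ s, f i) * (∑ i ∈ s, f i) := by
      noncomm_ring
    rw [h3, ih, this, add_zero]

end ops

/-- The data for the twisted resolution. -/
structure TW (k : Type u) [Field k] (R : Type u) [Ring R] [Algebra k R] (L I : Type)
    [Fintype L] [LinearOrder L] [Fintype I] [DecidableEq I] (C : Type) [CommGroup C] where
  χ : I → C
  B : I → I → C → k
  B_mul : ∀ i j c c', B i j (c * c') = B i j c + B i j c'
  B_symm : ∀ i j c, B i j c = B j i c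
  B_wt : ∀ i j, χ i * χ j ≠ 1 → ∀ c, B i j c = 0
  B_χ : ∀ i j l, B i j (χ l) = 0
  h : k
  h_two : h * 2 = 1
  ε : R
  ε_idem : ε * ε = ε
  g : C → R
  g_one : g 1 = 1
  g_mul : ∀ c c', g c * g c' = g (c * c')
  w : I ⊕ I → R
  w_ε : ∀ a, w a * ε = w a
  ε_g : ∀ c, ε * g c = g c * ε
  ε_w : ∀ a, ε * w a = w a * ε
  w_sq : ∀ a, w a * w a = 0
  w_pair : ∀ i, w (Sum.inl i) * w (Sum.inr i) + w (Sum.inr i) * w (Sum.inl i) =
    h • (ε * (g (χ i) - g (χ i)⁻¹))
  w_anti : ∀ a b, a ≠ b → a ≠ b.swap → w a * w b + w b * w a = 0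
  g_y : ∀ c j, g c * w (Sum.inr j) = w (Sum.inr j) * g c
  x_g : ∀ i c, w (Sum.inl i) * g c = g c * w (Sum.inl i) +
    ∑ j, B i j c • (w (Sum.inr j) * g c)
  cl : L → C
  ord : L → ℕ
  cl_pow : ∀ l, cl l ^ ord l = 1
  a : I → L → MonoidAlgebra ℤ C
  a_eq : ∀ i, MonoidAlgebra.of ℤ C (χ i) - MonoidAlgebra.of ℤ C (χ i)⁻¹ =
    ∑ l, (MonoidAlgebra.of ℤ C (cl l) - 1) * a i l
  a_anti : ∀ i j l, χ i * χ j = 1 → a j l = - a i l

namespace TW

variable {k : Type u} [Field k] {R : Type u} [Ring R] [Algebra k R] {L I : Type}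
    [Fintype L] [LinearOrder L] [Fintype I] [DecidableEq I] {C : Type} [CommGroup C]
    (K : TW k R L I C)

/-- variables -/
noncomputable abbrev Xx (k : Type u) [Field k] (i : I) : MvPolynomial (I ⊕ I) k :=
  MvPolynomial.X (Sum.inl i)

/-- variables -/
noncomputable abbrev Xy (k : Type u) [Field k] (i : I) : MvPolynomial (I ⊕ I) k :=
  MvPolynomial.X (Sum.inr i)

/-- the twist -/
noncomputable def ρ (c : C) : MvPolynomial (I ⊕ I) k →ₐ[k] MvPolynomial (I ⊕ I) k :=
  MvPolynomial.aeval (Sum.elim (fun i => Xx k i)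
    (fun j => Xy k j + ∑ i, K.B i j c • Xx k i))

lemma ρ_x (c : C) (i : I) : K.ρ c (Xx k i) = Xx k i := by
  simp [ρ]

lemma ρ_y (c : C) (j : I) : K.ρ c (Xy k j) = Xy k j + ∑ i, K.B i j c • Xx k i := by
  simp [ρ]

lemma ρ_mul (c c' : C) : (K.ρ c).comp (K.ρ c') = K.ρ (c * c') := by
  refine MvPolynomial.algHom_ext fun a => ?_
  rcases a with i | j
  · rw [AlgHom.comp_apply, ρ_x, ρ_x, ρ_x]
  · rw [AlgHom.comp_apply, ρ_y, ρ_y, map_add, ρ_y, map_sum]
    simp only [map_smul, ρ_x, K.B_mul, add_smul, sum_add_distrib]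
    rw [add_assoc]

lemma ρ_eq_id {c : C} (h : ∀ i j, K.B i j c = 0) : K.ρ c = AlgHom.id k _ := by
  refine MvPolynomial.algHom_ext fun a => ?_
  rcases a with i | j
  · rw [ρ_x]; rfl
  · rw [ρ_y]
    simp [h]

lemma B_one (i j : I) : K.B i j 1 = 0 := by
  have := K.B_mul i j 1 1
  rw [mul_one] at this
  simpa using this

lemma B_inv (i j : I) (c : C) : K.B i j c⁻¹ = - K.B i j c := by
  have := K.B_mul i j c c⁻¹
  rw [mul_inv_cancel, K.B_one] at this
  exact (neg_eq_of_add_eq_zero_right this.symm).symm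

/-- the operators belonging to the group elements -/
noncomputable def V : C →* Module.End R (NP k R (I ⊕ I)) where
  toFun c := pre (K.ρ c).toLinearMap * rr (K.g c)
  map_one' := by
    rw [K.ρ_eq_id K.B_one, K.g_one, rr_one]
    rfl
  map_mul' c c' := by
    ext1 f
    refine LinearMap.ext fun p => ?_
    change f (K.ρ (c * c') p) * K.g (c * c') = f (K.ρ c' (K.ρ c p)) * K.g c' * K.g c
    rw [mul_assoc, K.g_mul, mul_comm c c', ← K.ρ_mul]
    rfl

lemma V_apply (c : C) (f : NP k R (I ⊕ I)) (p : MvPolynomial (I ⊕ I) k) :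
    K.V c f p = f (K.ρ c p) * K.g c := rfl

/-- the operators belonging to elements of the group ring -/
noncomputable def Θ : MonoidAlgebra ℤ C →+* Module.End R (NP k R (I ⊕ I)) :=
  (MonoidAlgebra.lift ℤ (Module.End R (NP k R (I ⊕ I))) C K.V : MonoidAlgebra ℤ C →ₐ[ℤ] _)

lemma Θ_of (c : C) : K.Θ (MonoidAlgebra.of ℤ C c) = K.V c := by
  change MonoidAlgebra.lift ℤ (Module.End R (NP k R (I ⊕ I))) C K.V _ = _
  rw [MonoidAlgebra.lift_of]

lemma Θ_comm {T : NP k R (I ⊕ I) →+ NP k R (I ⊕ I)}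
    (hT : ∀ c f, T (K.V c f) = K.V c (T f)) (x : MonoidAlgebra ℤ C) (f : NP k R (I ⊕ I)) :
    T (K.Θ x f) = K.Θ x (T f) := by
  induction x using MonoidAlgebra.induction_on with
  | of c => rw [Θ_of, hT]
  | add x y hx hy =>
    rw [map_add, LinearMap.add_apply, map_add, hx, hy]
    rfl
  | smul n x hx =>
    rw [map_zsmul, LinearMap.smul_apply, map_zsmul, hx]
    rfl

lemma Θ_comm' {T : Module.End R (NP k R (I ⊕ I))} (hT : ∀ c, K.V c * T = T * K.V c)
    (x : MonoidAlgebra ℤ C) : K.Θ x * T = T * K.Θ x := by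
  ext1 f
  exact (K.Θ_comm (T := T.toAddMonoidHom) (fun c f => (LinearMap.congr_fun (hT c) f).symm) x f).symm

lemma Θ_Θ (x y : MonoidAlgebra ℤ C) : K.Θ x * K.Θ y = K.Θ y * K.Θ x := by
  rw [← map_mul, mul_comm, map_mul]

/-- the internal differential -/
noncomputable def D : Module.End R (NP k R (I ⊕ I)) :=
  ∑ a, shp (MvPolynomial.X a) * rr (K.w a)

lemma D_apply (f : NP k R (I ⊕ I)) (p : MvPolynomial (I ⊕ I) k) :
    K.D f p = ∑ a, f (MvPolynomial.X a * p) * K.w a := by
  rw [D, LinearMap.sum_apply, LinearMap.sum_apply]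
  rfl

lemma V_D (c : C) : K.V c * K.D = K.D * K.V c := by
  ext1 f
  refine LinearMap.ext fun p => ?_
  change K.V c (K.D f) p = K.D (K.V c f) p
  rw [V_apply, D_apply, D_apply]
  simp only [V_apply, map_mul, Fintype.sum_sum_type, ρ_x, ρ_y, add_mul, sum_mul, smul_mul_assoc,
    map_add, map_sum, map_smul]
  generalize K.ρ c p = q
  rw [sum_add_distrib, add_comm (∑ i, f (Xy k i * q) * K.g c * K.w (Sum.inr i)), ← add_assoc]
  congr 1
  · have h1 : ∀ i, f (Xx k i * q) * K.w (Sum.inl i) * K.g c = f (Xx k i * q) * K.g c * K.w (Sum.inl i)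
        + ∑ j, K.B i j c • (f (Xx k i * q) * K.g c * K.w (Sum.inr j)) := by
      intro i
      rw [mul_assoc, K.x_g, mul_add, ← mul_assoc, mul_sum]
      congr 1
      refine sum_congr rfl fun j _ => ?_
      rw [mul_smul_comm, ← K.g_y, mul_assoc]
    simp only [h1, sum_add_distrib]
    congr 1
    exact sum_comm
  · refine sum_congr rfl fun j _ => ?_
    rw [mul_assoc, ← K.g_y, ← mul_assoc]

lemma shp_V (p : MvPolynomial (I ⊕ I) k) (c : C) :
    (shp p * K.V c : Module.End R (NP k R (I ⊕ I))) = K.V c * shp (K.ρ c p) := by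
  ext1 f
  refine LinearMap.ext fun r => ?_
  change f (K.ρ c (p * r)) * K.g c = f (K.ρ c p * K.ρ c r) * K.g c
  rw [map_mul]

lemma shp_D (p : MvPolynomial (I ⊕ I) k) :
    (shp p * K.D : Module.End R (NP k R (I ⊕ I))) = K.D * shp p := by
  ext1 f
  refine LinearMap.ext fun r => ?_
  change K.D f (p * r) = K.D (shp p f) r
  rw [D_apply, D_apply]
  refine sum_congr rfl fun a _ => ?_
  rw [shp_apply]
  congr 2
  ring

lemma rr_D {b : R} (hb : ∀ a, K.w a * b = b * K.w a) :
    (rr b * K.D : Module.End R (NP k R (I ⊕ I))) = K.D * rr b := by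
  ext1 f
  refine LinearMap.ext fun r => ?_
  change K.D f r * b = K.D (rr b f) r
  rw [D_apply, D_apply, sum_mul]
  refine sum_congr rfl fun a _ => ?_
  rw [rr_apply, mul_assoc, hb, mul_assoc]

lemma rr_V {b : R} (c : C) (hb : K.g c * b = b * K.g c) :
    (rr b * K.V c : Module.End R (NP k R (I ⊕ I))) = K.V c * rr b := by
  ext1 f
  refine LinearMap.ext fun r => ?_
  change f (K.ρ c r) * K.g c * b = f (K.ρ c r) * b * K.g c
  rw [mul_assoc, hb, mul_assoc]

/-- the central factor -/
noncomputable def hε : R := K.h • K.ε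

lemma hε_comm {b : R} (hb : K.ε * b = b * K.ε) : K.hε * b = b * K.hε := by
  rw [hε, smul_mul_assoc, hb, mul_smul_comm]

/-- double shift -/
noncomputable def S (i : I) : Module.End R (NP k R (I ⊕ I)) := shp (Xx k i * Xy k i)

/-- the correction operators -/
noncomputable def A (l : L) : Module.End R (NP k R (I ⊕ I)) :=
  ∑ i, K.Θ (K.a i l) * rr K.hε * shp (Xx k i * Xy k i)

lemma A_def (l : L) : K.A l = ∑ i, K.Θ (K.a i l) * rr K.hε * shp (Xx k i * Xy k i) := rfl

lemma A_of_comm {T : Module.End R (NP k R (I ⊕ I))} (hV : ∀ c, K.V c * T = T * K.V c)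
    (hr : rr K.hε * T = T * rr K.hε) (hs : ∀ i, shp (Xx k i * Xy k i) * T =
      T * shp (Xx k i * Xy k i)) (l : L) : K.A l * T = T * K.A l := by
  rw [A, sum_mul, mul_sum]
  refine sum_congr rfl fun i _ => ?_
  rw [mul_assoc, hs, mul_assoc (K.Θ (K.a i l)), ← mul_assoc (rr K.hε), hr, mul_assoc T,
    ← mul_assoc (K.Θ (K.a i l)), K.Θ_comm' hV, mul_assoc, mul_assoc]

lemma rr_hε_V (c : C) : (rr K.hε * K.V c : Module.End R (NP k R (I ⊕ I))) = K.V c * rr K.hε :=
  K.rr_V c (K.hε_comm (K.ε_g c)).symm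

lemma A_D (l : L) : K.A l * K.D = K.D * K.A l :=
  K.A_of_comm K.V_D (K.rr_D fun a => (K.hε_comm (K.ε_w a)).symm) (fun _ => K.shp_D _) l

lemma A_rr (l : L) : K.A l * rr K.hε = rr K.hε * K.A l :=
  K.A_of_comm (fun c => (K.rr_hε_V c).symm) rfl (fun _ => shp_rr _ _) l

include K in
lemma two_ne : (2 : k) ≠ 0 := by
  intro h
  have := K.h_two
  rw [h, mul_zero] at this
  exact zero_ne_one this

include K in
lemma smul_two_cancel {x : Module.End R (NP k R (I ⊕ I))} (h : x + x = 0) : x = 0 := by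
  ext1 f
  refine LinearMap.ext fun p => ?_
  have h1 : x f p + x f p = 0 := by
    have := LinearMap.congr_fun (LinearMap.congr_fun h f) p
    exact this
  have h2 : (2 : k) • x f p = 0 := by rw [two_smul]; exact h1
  exact (smul_eq_zero.mp h2).resolve_left K.two_ne

lemma shp_add (p q : MvPolynomial (I ⊕ I) k) :
    (shp (p + q) : Module.End R (NP k R (I ⊕ I))) = shp p + shp q := by
  ext1 f
  refine LinearMap.ext fun r => ?_
  change f ((p + q) * r) = f (p * r) + f (q * r)
  rw [add_mul, map_add]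

lemma shp_sum {ι : Type*} (s : Finset ι) (p : ι → MvPolynomial (I ⊕ I) k) :
    (shp (∑ i ∈ s, p i) : Module.End R (NP k R (I ⊕ I))) = ∑ i ∈ s, shp (p i) := by
  classical
  induction s using Finset.induction_on with
  | empty =>
    ext1 f
    refine LinearMap.ext fun r => ?_
    change f (0 * r) = 0
    rw [zero_mul, map_zero]
  | insert a s ha ih => rw [sum_insert ha, sum_insert ha, shp_add, ih]

lemma S_V (i : I) (c : C) : (shp (Xx k i * Xy k i) * K.V c : Module.End R (NP k R (I ⊕ I))) =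
    K.V c * shp (Xx k i * Xy k i) +
      K.V c * ∑ j, shp (K.B j i c • (Xx k i * Xx k j)) := by
  rw [shp_V, map_mul, ρ_x, ρ_y, mul_add, mul_sum, shp_add, shp_sum, mul_add]
  simp only [mul_smul_comm]

lemma A_V (l : L) (c : C) : K.A l * K.V c = K.V c * K.A l := by
  have h1 : K.A l * K.V c = K.V c * K.A l + K.V c * ∑ i, ∑ j,
      K.Θ (K.a i l) * rr K.hε * shp (K.B j i c • (Xx k i * Xx k j)) := by
    rw [A, sum_mul, mul_sum, mul_sum, ← sum_add_distrib]
    refine sum_congr rfl fun i _ => ?_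
    rw [mul_assoc, S_V, mul_add, ← mul_assoc _ (K.V c), ← mul_assoc _ (K.V c),
      mul_assoc (K.Θ (K.a i l)), rr_hε_V, ← mul_assoc (K.Θ (K.a i l)),
      K.Θ_comm' (T := K.V c) (fun c' => by rw [← map_mul, mul_comm, map_mul]), mul_assoc (K.V c),
      mul_assoc (K.V c), mul_assoc (K.V c), mul_sum]
  have h2 : ∑ i, ∑ j, K.Θ (K.a i l) * rr K.hε * shp (K.B j i c • (Xx k i * Xx k j)) = 0 := by
    apply K.smul_two_cancel
    conv_lhs => rw [← sum_comm]; arg 1; rw [sum_comm]
    rw [← sum_add_distrib]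
    refine sum_eq_zero fun i _ => ?_
    rw [← sum_add_distrib]
    refine sum_eq_zero fun j _ => ?_
    rw [K.B_symm i j, mul_comm (Xx k j)]
    by_cases hij : K.χ i * K.χ j = 1
    · rw [K.a_anti i j l hij, map_neg]
      exact neg_mul3 (A := Module.End R (NP k R (I ⊕ I))) _ _ _
    · rw [K.B_wt j i (by rw [mul_comm]; exact hij), zero_smul]
      have h3 : (shp (0 : MvPolynomial (I ⊕ I) k) : Module.End R (NP k R (I ⊕ I))) = 0 := by
        have := shp_sum (k := k) (R := R) (I := I) (∅ : Finset I) (fun _ => 0)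
        simpa using this
      rw [h3, mul_zero, mul_zero, add_zero]
  rw [h1, h2, mul_zero, add_zero]

lemma A_A (l m : L) : K.A l * K.A m = K.A m * K.A l := by
  have h1 : ∀ l m, K.A l * K.A m = ∑ i, ∑ j, K.Θ (K.a i m) * rr K.hε * (K.Θ (K.a j l) *
      rr K.hε) * (shp (Xx k j * Xy k j) * shp (Xx k i * Xy k i)) := by
    intro l m
    rw [K.A_def m, mul_sum]
    refine sum_congr rfl fun i _ => ?_
    rw [← mul_assoc, ← mul_assoc, ← K.Θ_comm' (fun c => (K.A_V l c).symm), mul_assoc _ (K.A l),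
      K.A_rr, ← mul_assoc, mul_assoc _ (K.A l)]
    rw [K.A_def l, sum_mul, mul_sum]
    refine sum_congr rfl fun j _ => ?_
    simp only [mul_assoc]
  rw [h1, h1, sum_comm]
  refine sum_congr rfl fun i _ => sum_congr rfl fun j _ => ?_
  rw [shp_comm]
  congr 1
  have h2 : ∀ x : MonoidAlgebra ℤ C, K.Θ x * rr K.hε = rr K.hε * K.Θ x := fun x =>
    K.Θ_comm' (fun c => (K.rr_hε_V c).symm) x
  rw [h2, h2, mul_assoc, mul_assoc, ← mul_assoc (K.Θ _), ← mul_assoc (K.Θ _), h2, h2, mul_assoc,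
    mul_assoc, K.Θ_Θ]

end TW

end Pool.Agent.H170_FG
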