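import Pool.Agent.H170_FG.Tw3

/-!
# The twisted complex
-/

set_option linter.unusedSectionVars false

universe u

open Finset MvPolynomial

namespace Pool.Agent.H170_FG

namespace TW

variable {k : Type u} [Field k] {R : Type u} [Ring R] [Algebra k R] {L I : Type}
    [Fintype L] [LinearOrder L] [Fintype I] [DecidableEq I] {C : Type} [CommGroup C]
    (K : TW k R L I C)

/-- summands of the internal differential -/
noncomputable def uu (a : I ⊕ I) : Module.End R (NP k R (I ⊕ I)) :=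
  shp (MvPolynomial.X a) * rr (K.w a)

lemma uu_uu (a b : I ⊕ I) : K.uu a * K.uu b =
    shp (MvPolynomial.X a * MvPolynomial.X b) * rr (K.w b * K.w a) := by
  rw [uu, uu, mul_assoc, ← mul_assoc (rr (K.w a)), ← shp_rr, mul_assoc, rr_mul, ← mul_assoc,
    shp_mul]

lemma uu_sq (a : I ⊕ I) : K.uu a * K.uu a = 0 := by
  rw [uu_uu, K.w_sq, rr_zero, mul_zero]

lemma uu_add (a b : I ⊕ I) : K.uu a * K.uu b + K.uu b * K.uu a =
    shp (MvPolynomial.X a * MvPolynomial.X b) * rr (K.w a * K.w b + K.w b * K.w a) := by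
  rw [uu_uu, uu_uu, mul_comm (MvPolynomial.X b : MvPolynomial (I ⊕ I) k), ← mul_add, ← rr_add,
    add_comm]

lemma uu_anti {a b : I ⊕ I} (h : a ≠ b) (h' : a ≠ b.swap) :
    K.uu a * K.uu b + K.uu b * K.uu a = 0 := by
  rw [uu_add, K.w_anti a b h h', rr_zero, mul_zero]

lemma uu_pair (i : I) : K.uu (Sum.inl i) * K.uu (Sum.inr i) + K.uu (Sum.inr i) * K.uu (Sum.inl i) =
    rr (K.h • (K.ε * (K.g (K.χ i) - K.g (K.χ i)⁻¹))) * shp (Xx k i * Xy k i) := by
  rw [uu_add, K.w_pair, shp_rr]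

/-- pairs of summands of the internal differential -/
noncomputable def G (i : I) : Module.End R (NP k R (I ⊕ I)) := K.uu (Sum.inl i) + K.uu (Sum.inr i)

lemma D_eq_G : K.D = ∑ i, K.G i := by
  rw [D, Fintype.sum_sum_type, ← sum_add_distrib]
  rfl

lemma ring_id4 {A : Type*} [Ring A] (x y x' y' : A) : (x + y) * (x' + y') + (x' + y') * (x + y) =
    (x * x' + x' * x) + (x * y' + y' * x) + (y * x' + x' * y) + (y * y' + y' * y) := by
  noncomm_ring

lemma ring_id5 {A : Type*} [Ring A] (x y : A) : (x + y) * (x + y) =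
    x * x + y * y + (x * y + y * x) := by
  noncomm_ring

lemma G_anti {i j : I} (h : i ≠ j) : K.G i * K.G j + K.G j * K.G i = 0 := by
  refine (ring_id4 (A := Module.End R (NP k R (I ⊕ I))) _ _ _ _).trans ?_
  rw [K.uu_anti (a := Sum.inl i) (b := Sum.inl j) (by simpa using h) (by simp),
    K.uu_anti (a := Sum.inl i) (b := Sum.inr j) (by simp) (by simpa using h),
    K.uu_anti (a := Sum.inr i) (b := Sum.inl j) (by simp) (by simpa using h),
    K.uu_anti (a := Sum.inr i) (b := Sum.inr j) (by simpa using h) (by simp)]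
  simp

lemma V_χ (c : C) (h : ∀ i j, K.B i j c = 0) : K.V c = rr (K.g c) := by
  refine LinearMap.ext fun f => LinearMap.ext fun p => ?_
  rw [V_apply, K.ρ_eq_id h]
  rfl

lemma G_sq (i : I) : K.G i * K.G i =
    ∑ l, (K.V (K.cl l) - 1) * (K.Θ (K.a i l) * rr K.hε * shp (Xx k i * Xy k i)) := by
  refine (ring_id5 (A := Module.End R (NP k R (I ⊕ I))) _ _).trans ?_
  rw [uu_sq, uu_sq, add_zero, zero_add, uu_pair]
  have h1 : K.h • (K.ε * (K.g (K.χ i) - K.g (K.χ i)⁻¹)) =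
      K.hε * (K.g (K.χ i) - K.g (K.χ i)⁻¹) := by
    rw [hε, smul_mul_assoc]
  have h2 : ∀ i' j, K.B i' j (K.χ i)⁻¹ = 0 := by
    intro i' j
    rw [B_inv, K.B_χ, neg_zero]
  have h3 : K.V (K.χ i) - K.V (K.χ i)⁻¹ =
      ∑ l, (K.V (K.cl l) - 1) * K.Θ (K.a i l) := by
    have := congrArg K.Θ (K.a_eq i)
    rw [map_sub K.Θ, map_sum, Θ_of, Θ_of] at this
    rw [this]
    refine sum_congr rfl fun l _ => ?_
    rw [map_mul, map_sub K.Θ, Θ_of, map_one]
  rw [h1, ← rr_mul, rr_sub, ← K.V_χ _ (fun i' j => K.B_χ i' j i), ← K.V_χ _ h2, h3, sum_mul,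
    sum_mul]
  refine sum_congr rfl fun l _ => ?_
  simp only [mul_assoc]

lemma D_D : K.D * K.D = ∑ l, (K.V (K.cl l) - 1) * K.A l := by
  rw [D_eq_G]
  refine (sum_sq' (A := Module.End R (NP k R (I ⊕ I))) univ K.G fun i j h => K.G_anti h).trans ?_
  simp only [G_sq, A_def, mul_sum]
  exact sum_comm

/-- the operators defining the complex -/
noncomputable def opd : OpD R (NP k R (I ⊕ I)) L where
  V l := K.V (K.cl l)
  ord := K.ord
  D := K.D
  A := K.A
  V_pow l := by rw [← map_pow, K.cl_pow, map_one]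
  V_comm l m := by rw [← map_mul, mul_comm, map_mul]
  VD l := K.V_D _
  VA l m := (K.A_V m _).symm
  AD := K.A_D
  AA := K.A_A
  DD := K.D_D

/-! ### Contractions -/

/-- division by a variable -/
noncomputable def dv (a : I ⊕ I) : MvPolynomial (I ⊕ I) k →ₗ[k] MvPolynomial (I ⊕ I) k where
  toFun p := p.divMonomial (Finsupp.single a 1)
  map_add' p q := add_divMonomial p q _
  map_smul' r p := by
    ext t
    rw [coeff_divMonomial, coeff_smul, coeff_smul, coeff_divMonomial]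
    rfl

lemma dv_X_mul (a : I ⊕ I) (p : MvPolynomial (I ⊕ I) k) : dv a (X a * p) = p :=
  X_mul_divMonomial a p

lemma dv_X_mul_ne {a b : I ⊕ I} (h : b ≠ a) (p : MvPolynomial (I ⊕ I) k) :
    dv a (X b * p) = X b * dv a p := by
  classical
  ext t
  change coeff t ((X b * p).divMonomial (Finsupp.single a 1)) =
    coeff t (X b * (p.divMonomial (Finsupp.single a 1)))
  rw [coeff_divMonomial, coeff_X_mul', coeff_X_mul', coeff_divMonomial]
  have h1 : b ∈ (Finsupp.single a 1 + t).support ↔ b ∈ t.support := by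
    simp [h]
  by_cases hb : b ∈ t.support
  · rw [if_pos (h1.mpr hb), if_pos hb]
    congr 1
    rw [add_tsub_assoc_of_le]
    rw [Finsupp.single_le_iff]
    have := Finsupp.mem_support_iff.mp hb
    omega
  · rw [if_neg (fun h' => hb (h1.mp h')), if_neg hb]

/-- homotopy in the direction of a variable -/
noncomputable def Th (τ : R →ₗ[k] R) (a : I ⊕ I) : NP k R (I ⊕ I) →+ NP k R (I ⊕ I) where
  toFun f := τ ∘ₗ f ∘ₗ dv a
  map_zero' := by simp
  map_add' f g := by rw [LinearMap.add_comp, LinearMap.comp_add]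

/-- composition with a linear map -/
noncomputable def post (τ : R →ₗ[k] R) : NP k R (I ⊕ I) →+ NP k R (I ⊕ I) where
  toFun f := τ ∘ₗ f
  map_zero' := by simp
  map_add' f g := by rw [LinearMap.comp_add]

lemma Th_apply (τ : R →ₗ[k] R) (a : I ⊕ I) (f : NP k R (I ⊕ I)) (p : MvPolynomial (I ⊕ I) k) :
    Th τ a f p = τ (f (dv a p)) := rfl

lemma post_apply (τ : R →ₗ[k] R) (f : NP k R (I ⊕ I)) (p : MvPolynomial (I ⊕ I) k) :
    post τ f p = τ (f p) := rfl

lemma shp_Th (τ : R →ₗ[k] R) (a : I ⊕ I) (f : NP k R (I ⊕ I)) :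
    shp (X a) (Th τ a f) = post τ f := by
  refine LinearMap.ext fun p => ?_
  rw [shp_apply, Th_apply, dv_X_mul, post_apply]

lemma shp_Th_ne (τ : R →ₗ[k] R) {a b : I ⊕ I} (h : b ≠ a) (f : NP k R (I ⊕ I)) :
    shp (X b) (Th τ a f) = Th τ a (shp (X b) f) := by
  refine LinearMap.ext fun p => ?_
  rw [shp_apply, Th_apply, dv_X_mul_ne h, Th_apply, shp_apply]

lemma post_shp (τ : R →ₗ[k] R) (q : MvPolynomial (I ⊕ I) k) (f : NP k R (I ⊕ I)) :
    post τ (shp q f) = shp q (post τ f) := rfl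

variable {K} in
lemma post_V {τ : R →ₗ[k] R} (h : ∀ c b, τ (b * K.g c) = τ b * K.g c) (c : C)
    (f : NP k R (I ⊕ I)) : post τ (K.V c f) = K.V c (post τ f) := by
  refine LinearMap.ext fun p => ?_
  rw [post_apply, V_apply, V_apply, h, post_apply]

variable {K} in
lemma post_A {τ : R →ₗ[k] R} (h : ∀ c b, τ (b * K.g c) = τ b * K.g c)
    (h' : ∀ b, τ (b * K.ε) = τ b * K.ε) (l : L)
    (f : NP k R (I ⊕ I)) : post τ (K.A l f) = K.A l (post τ f) := by
  rw [A_def, LinearMap.sum_apply, LinearMap.sum_apply, map_sum]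
  refine sum_congr rfl fun i _ => ?_
  have h1 : ∀ f : NP k R (I ⊕ I), post τ (rr K.hε f) = rr K.hε (post τ f) := by
    intro f
    refine LinearMap.ext fun p => ?_
    rw [post_apply, rr_apply, rr_apply, post_apply, hε, mul_smul_comm, map_smul, h',
      mul_smul_comm]
  change post τ (K.Θ (K.a i l) (rr K.hε (shp _ f))) = K.Θ (K.a i l) (rr K.hε (shp _ (post τ f)))
  rw [K.Θ_comm (fun c f => post_V h c f), h1, post_shp]

/-- the functions vanishing on the multiples of the variables in `s` and fixed by `ε` -/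
def SS (s : Set (I ⊕ I)) : AddSubgroup (NP k R (I ⊕ I)) where
  carrier := {f | (∀ a ∈ s, shp (X a) f = 0) ∧ rr K.ε f = f}
  add_mem' {f g} hf hg := by
    refine ⟨fun a ha => ?_, ?_⟩
    · rw [map_add, hf.1 a ha, hg.1 a ha, add_zero]
    · rw [map_add, hf.2, hg.2]
  zero_mem' := by
    refine ⟨fun a _ => map_zero _, map_zero _⟩
  neg_mem' {f} hf := by
    refine ⟨fun a ha => ?_, ?_⟩
    · rw [map_neg, hf.1 a ha, neg_zero]
    · rw [map_neg, hf.2]

variable {K} in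
lemma mem_SS {s : Set (I ⊕ I)} {f : NP k R (I ⊕ I)} :
    f ∈ K.SS s ↔ (∀ a ∈ s, shp (X a) f = 0) ∧ rr K.ε f = f := Iff.rfl

lemma rr_ε_V (c : C) (f : NP k R (I ⊕ I)) : rr K.ε (K.V c f) = K.V c (rr K.ε f) :=
  LinearMap.congr_fun (K.rr_V c (K.ε_g c).symm) f

lemma rr_ε_D (f : NP k R (I ⊕ I)) : rr K.ε (K.D f) = K.D (rr K.ε f) :=
  LinearMap.congr_fun (K.rr_D fun a => (K.ε_w a).symm) f

lemma rr_ε_A (l : L) (f : NP k R (I ⊕ I)) : rr K.ε (K.A l f) = K.A l (rr K.ε f) :=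
  (LinearMap.congr_fun (K.A_of_comm (T := rr K.ε)
    (fun c => (K.rr_V c (K.ε_g c).symm).symm)
    (by rw [rr_mul, rr_mul, K.hε_comm rfl]) (fun _ => shp_rr _ _) l) f).symm

lemma shpx_V (i : I) (c : C) (f : NP k R (I ⊕ I)) :
    shp (X (Sum.inl i)) (K.V c f) = K.V c (shp (X (Sum.inl i)) f) := by
  have := LinearMap.congr_fun (K.shp_V (Xx k i) c) f
  rw [K.ρ_x] at this
  exact this

lemma shpy_V (j : I) (c : C) (f : NP k R (I ⊕ I)) (hf : ∀ i, shp (X (Sum.inl i)) f = 0) :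
    shp (X (Sum.inr j)) (K.V c f) = K.V c (shp (X (Sum.inr j)) f) := by
  have := LinearMap.congr_fun (K.shp_V (Xy k j) c) f
  rw [K.ρ_y, shp_add, shp_sum, mul_add, LinearMap.add_apply] at this
  refine this.trans ?_
  have h0 : K.V c ((∑ i, shp (K.B i j c • Xx k i)) f) = 0 := by
    rw [LinearMap.sum_apply, sum_eq_zero, map_zero]
    intro i _
    refine LinearMap.ext fun p => ?_
    rw [shp_apply, smul_mul_assoc, map_smul]
    have := LinearMap.congr_fun (hf i) p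
    rw [shp_apply] at this
    rw [this, LinearMap.zero_apply, smul_zero]
  change K.V c (shp (Xy k j) f) + K.V c ((∑ i, shp (K.B i j c • Xx k i)) f) = _
  rw [h0, add_zero]

lemma shpx_A (i : I) (l : L) (f : NP k R (I ⊕ I)) :
    shp (X (Sum.inl i)) (K.A l f) = K.A l (shp (X (Sum.inl i)) f) :=
  (LinearMap.congr_fun (K.A_of_comm (T := shp (X (Sum.inl i)))
    (fun c => by
      have := K.shp_V (Xx k i) c
      rw [K.ρ_x] at this
      exact this.symm)
    (shp_rr _ _).symm (fun _ => shp_comm _ _) l) f).symm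

lemma A_zero (l : L) (f : NP k R (I ⊕ I)) (hf : ∀ i, shp (X (Sum.inl i)) f = 0) :
    K.A l f = 0 := by
  rw [A_def, LinearMap.sum_apply]
  refine sum_eq_zero fun i _ => ?_
  have h1 : shp (Xx k i * Xy k i) f = 0 := by
    rw [← shp_mul, shp_comm]
    change shp (Xy k i) (shp (Xx k i) f) = 0
    rw [hf, map_zero]
  change K.Θ (K.a i l) (rr K.hε (shp (Xx k i * Xy k i) f)) = 0
  rw [h1, map_zero, map_zero]

lemma shp_D_apply (q : MvPolynomial (I ⊕ I) k) (f : NP k R (I ⊕ I)) :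
    shp q (K.D f) = K.D (shp q f) := LinearMap.congr_fun (K.shp_D q) f

/-- The conditions for a contraction in the direction of `a`. -/
structure IsTau (τ : R →ₗ[k] R) (a : I ⊕ I) (t : Set (I ⊕ I)) : Prop where
  same : ∀ b, τ (b * K.w a) + τ b * K.w a = b * K.ε
  diff : ∀ a', a' ∉ t → a' ≠ a → ∀ b, τ (b * K.w a') + τ b * K.w a' = 0
  g : ∀ c b, τ (b * K.g c) = τ b * K.g c
  ε : ∀ b, τ b * K.ε = τ b
  ε' : ∀ b, τ (b * K.ε) = τ b

variable {K} in
lemma IsTau.TD {τ : R →ₗ[k] R} {a : I ⊕ I} {t : Set (I ⊕ I)} (H : K.IsTau τ a t)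
    {f : NP k R (I ⊕ I)} (hf : ∀ a' ∈ t, shp (X a') f = 0) (hε : rr K.ε f = f) :
    K.D (post τ f) + post τ (K.D f) = shp (X a) f := by
  refine LinearMap.ext fun p => ?_
  rw [LinearMap.add_apply, D_apply, post_apply, D_apply, map_sum, ← sum_add_distrib,
    Finset.sum_eq_single a]
  · rw [post_apply, add_comm, H.same, shp_apply]
    have := LinearMap.congr_fun hε (X a * p)
    exact this
  · intro a' _ ha'
    by_cases h : a' ∈ t
    · have h1 : f (X a' * p) = 0 := by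
        have := LinearMap.congr_fun (hf a' h) p
        exact this
      rw [post_apply, h1, zero_mul, map_zero, zero_mul, add_zero]
    · rw [post_apply, add_comm, H.diff a' h ha']
  · simp

variable {K} in
theorem phase_x {τ : R →ₗ[k] R} {i : I} (H : K.IsTau τ (Sum.inl i) ∅) (s : Set I) (hi : i ∉ s) :
    K.opd.Phase (K.SS (Sum.inl '' s)) (shp (X (Sum.inl i))) (Th τ (Sum.inl i)) where
  SV l f hf := by
    refine ⟨?_, ?_⟩
    · rintro _ ⟨j, hj, rfl⟩
      change shp (X (Sum.inl j)) (K.V _ f) = 0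
      rw [K.shpx_V, hf.1 _ ⟨j, hj, rfl⟩, map_zero]
    · change rr K.ε (K.V _ f) = K.V _ f
      rw [K.rr_ε_V, hf.2]
  SD f hf := by
    refine ⟨?_, ?_⟩
    · rintro _ ⟨j, hj, rfl⟩
      change shp (X (Sum.inl j)) (K.D f) = 0
      rw [K.shp_D_apply, hf.1 _ ⟨j, hj, rfl⟩, map_zero]
    · change rr K.ε (K.D f) = K.D f
      rw [K.rr_ε_D, hf.2]
  SA l f hf := by
    refine ⟨?_, ?_⟩
    · rintro _ ⟨j, hj, rfl⟩
      change shp (X (Sum.inl j)) (K.A l f) = 0
      rw [K.shpx_A, hf.1 _ ⟨j, hj, rfl⟩, map_zero]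
    · change rr K.ε (K.A l f) = K.A l f
      rw [K.rr_ε_A, hf.2]
  ST f hf := by
    refine ⟨?_, ?_⟩
    · rintro _ ⟨j, hj, rfl⟩
      rw [shp_Th_ne τ (by simp only [ne_eq, Sum.inl.injEq]; rintro rfl; exact hi hj),
        hf.1 _ ⟨j, hj, rfl⟩, map_zero]
    · refine LinearMap.ext fun p => ?_
      rw [rr_apply, Th_apply, H.ε]
  sV l f hf := K.shpx_V i _ f
  TV l f hf := by
    change shp _ (K.V _ (Th τ _ f)) = shp _ (Th τ _ (K.V _ f))
    rw [K.shpx_V, shp_Th, shp_Th, post_V H.g]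
  TD f hf := by
    change shp _ (K.D (Th τ _ f)) + shp _ (Th τ _ (K.D f)) = _
    rw [K.shp_D_apply, shp_Th, shp_Th]
    exact H.TD (by simp) hf.2
  TA l f hf := by
    change shp _ (K.A l (Th τ _ f)) = shp _ (Th τ _ (K.A l f))
    rw [K.shpx_A, shp_Th, shp_Th, post_A H.g (fun b => by rw [H.ε', H.ε])]

variable {K} in
theorem phase_y {τ : R →ₗ[k] R} {j : I} (H : K.IsTau τ (Sum.inr j) (Set.range Sum.inl))
    (s : Set I) (hj : j ∉ s) :
    K.opd.Phase (K.SS (Set.range Sum.inl ∪ Sum.inr '' s)) (shp (X (Sum.inr j)))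
      (Th τ (Sum.inr j)) where
  SV l f hf := by
    have h0 : ∀ i, shp (X (Sum.inl i)) f = 0 := fun i => hf.1 _ (Or.inl ⟨i, rfl⟩)
    refine ⟨?_, ?_⟩
    · rintro _ (⟨i, rfl⟩ | ⟨j, hj, rfl⟩)
      · change shp (X (Sum.inl i)) (K.V _ f) = 0
        rw [K.shpx_V, h0, map_zero]
      · change shp (X (Sum.inr j)) (K.V _ f) = 0
        rw [K.shpy_V _ _ _ h0, hf.1 _ (Or.inr ⟨j, hj, rfl⟩), map_zero]
    · change rr K.ε (K.V _ f) = K.V _ f
      rw [K.rr_ε_V, hf.2]
  SD f hf := by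
    refine ⟨?_, ?_⟩
    · intro a ha
      change shp (X a) (K.D f) = 0
      rw [K.shp_D_apply, hf.1 _ ha, map_zero]
    · change rr K.ε (K.D f) = K.D f
      rw [K.rr_ε_D, hf.2]
  SA l f hf := by
    have h0 : ∀ i, shp (X (Sum.inl i)) f = 0 := fun i => hf.1 _ (Or.inl ⟨i, rfl⟩)
    change K.A l f ∈ _
    rw [K.A_zero l f h0]
    exact AddSubgroup.zero_mem _
  ST f hf := by
    refine ⟨?_, ?_⟩
    · rintro _ (⟨i, rfl⟩ | ⟨j', hj', rfl⟩)
      · rw [shp_Th_ne τ (by simp), hf.1 _ (Or.inl ⟨i, rfl⟩), map_zero]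
      · rw [shp_Th_ne τ (by simp only [ne_eq, Sum.inr.injEq]; rintro rfl; exact hj hj'),
          hf.1 _ (Or.inr ⟨j', hj', rfl⟩), map_zero]
    · refine LinearMap.ext fun p => ?_
      rw [rr_apply, Th_apply, H.ε]
  sV l f hf := K.shpy_V j _ f (fun i => hf.1 _ (Or.inl ⟨i, rfl⟩))
  TV l f hf := by
    have h0 : ∀ i, shp (X (Sum.inl i)) (Th τ (Sum.inr j) f) = 0 := by
      intro i
      rw [shp_Th_ne τ (by simp), hf.1 _ (Or.inl ⟨i, rfl⟩), map_zero]
    change shp _ (K.V _ (Th τ _ f)) = shp _ (Th τ _ (K.V _ f))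
    rw [K.shpy_V _ _ _ h0, shp_Th, shp_Th, post_V H.g]
  TD f hf := by
    change shp _ (K.D (Th τ _ f)) + shp _ (Th τ _ (K.D f)) = _
    rw [K.shp_D_apply, shp_Th, shp_Th]
    refine H.TD ?_ hf.2
    rintro _ ⟨i, rfl⟩
    exact hf.1 _ (Or.inl ⟨i, rfl⟩)
  TA l f hf := by
    have h0 : ∀ i, shp (X (Sum.inl i)) f = 0 := fun i => hf.1 _ (Or.inl ⟨i, rfl⟩)
    have h1 : ∀ i, shp (X (Sum.inl i)) (Th τ (Sum.inr j) f) = 0 := by
      intro i
      rw [shp_Th_ne τ (by simp), h0, map_zero]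
    change shp _ (K.A l (Th τ _ f)) = shp _ (Th τ _ (K.A l f))
    rw [K.A_zero l _ h0, K.A_zero l _ h1, map_zero, map_zero, map_zero]

end TW

end Pool.Agent.H170_FG
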