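import Pool.Agent.H170_FG.Tw4

/-!
# Exactness of the twisted complex
-/

set_option linter.unusedSectionVars false

universe u

open Finset MvPolynomial

namespace Pool.Agent.H170_FG

namespace TW

open OpD (PT)

variable {k : Type u} [Field k] {R : Type u} [Ring R] [Algebra k R] {L I : Type}
    [Fintype L] [LinearOrder L] [Fintype I] [DecidableEq I] {C : Type} [CommGroup C]
    (K : TW k R L I C)

/-- The homotopies. -/
structure Htp where
  τ : I ⊕ I → R →ₗ[k] R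
  τx : ∀ i, K.IsTau (τ (Sum.inl i)) (Sum.inl i) ∅
  τy : ∀ j, K.IsTau (τ (Sum.inr j)) (Sum.inr j) (Set.range Sum.inl)
  s : L → R →ₗ[k] R
  s' : L → R →ₗ[k] R
  s_ε : ∀ l b, s l b * K.ε = s l b
  s'_ε : ∀ l b, s' l b * K.ε = s' l b
  s_eq : ∀ l b, s l b * (K.g (K.cl l) - 1) +
    s' l (b * ∑ i ∈ range (K.ord l), K.g (K.cl l) ^ i) = b * K.ε
  s'_eq : ∀ l b, s' l b * (∑ i ∈ range (K.ord l), K.g (K.cl l) ^ i) +
    s l (b * (K.g (K.cl l) - 1)) = b * K.ε
  s_g : ∀ l m, l ≠ m → ∀ b, s l (b * K.g (K.cl m)) = s l b * K.g (K.cl m)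
  s'_g : ∀ l m, l ≠ m → ∀ b, s' l (b * K.g (K.cl m)) = s' l b * K.g (K.cl m)

variable {K}

lemma SS_X {f : NP k R (I ⊕ I)} (hf : f ∈ K.SS Set.univ) (a : I ⊕ I)
    (p : MvPolynomial (I ⊕ I) k) : f (X a * p) = 0 :=
  LinearMap.congr_fun (hf.1 a trivial) p

lemma SS_ρ {f : NP k R (I ⊕ I)} (hf : f ∈ K.SS Set.univ) (c : C) (p : MvPolynomial (I ⊕ I) k) :
    f (K.ρ c p) = f p := by
  induction p using MvPolynomial.induction_on with
  | C a =>
    rw [← MvPolynomial.algebraMap_eq, AlgHom.commutes]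
  | add p q hp hq => rw [map_add, map_add, map_add, hp, hq]
  | mul_X p a _ =>
    rw [mul_comm, SS_X hf, map_mul]
    rcases a with i | j
    · rw [K.ρ_x, SS_X hf]
    · rw [K.ρ_y, add_mul, map_add, SS_X hf, sum_mul, map_sum, zero_add]
      refine sum_eq_zero fun i _ => ?_
      rw [smul_mul_assoc, map_smul, SS_X hf, smul_zero]

lemma SS_V {f : NP k R (I ⊕ I)} (hf : f ∈ K.SS Set.univ) (c : C) : K.V c f = rr (K.g c) f := by
  refine LinearMap.ext fun p => ?_
  rw [V_apply, SS_ρ hf, rr_apply]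

lemma SS_rr {f : NP k R (I ⊕ I)} (hf : f ∈ K.SS Set.univ) (c : C) :
    rr (K.g c) f ∈ K.SS Set.univ := by
  refine ⟨fun a _ => ?_, ?_⟩
  · refine LinearMap.ext fun p => ?_
    rw [shp_apply, rr_apply, SS_X hf, zero_mul]
    rfl
  · refine LinearMap.ext fun p => ?_
    have := LinearMap.congr_fun hf.2 p
    rw [rr_apply] at this
    rw [rr_apply, rr_apply, mul_assoc, ← K.ε_g, ← mul_assoc, this]

lemma SS_Vpow {f : NP k R (I ⊕ I)} (hf : f ∈ K.SS Set.univ) (c : C) (i : ℕ) :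
    (K.V c ^ i) f = rr (K.g c ^ i) f ∧ rr (K.g c ^ i) f ∈ K.SS Set.univ := by
  induction i with
  | zero =>
    rw [pow_zero, pow_zero, rr_one]
    exact ⟨rfl, hf⟩
  | succ i ih =>
    have h1 : (rr (K.g c ^ (i + 1)) f : NP k R (I ⊕ I)) = rr (K.g c) (rr (K.g c ^ i) f) := by
      refine LinearMap.ext fun p => ?_
      rw [rr_apply, rr_apply, rr_apply, pow_succ, mul_assoc]
    rw [h1, pow_succ', Module.End.mul_apply, ih.1]
    exact ⟨SS_V ih.2 c, SS_rr ih.2 c⟩

lemma SS_nm {f : NP k R (I ⊕ I)} (hf : f ∈ K.SS Set.univ) (l : L) :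
    K.opd.nm l f = rr (∑ i ∈ range (K.ord l), K.g (K.cl l) ^ i) f := by
  rw [OpD.nm, LinearMap.sum_apply]
  refine LinearMap.ext fun p => ?_
  rw [rr_apply, mul_sum, LinearMap.sum_apply]
  refine sum_congr rfl fun i _ => ?_
  have := (SS_Vpow hf (K.cl l) i).1
  change ((K.V (K.cl l) ^ i) f) p = _
  rw [this, rr_apply]

lemma SS_post {f : NP k R (I ⊕ I)} (hf : f ∈ K.SS Set.univ) {τ : R →ₗ[k] R}
    (hτ : ∀ b, τ b * K.ε = τ b) : post τ f ∈ K.SS Set.univ := by
  refine ⟨fun a _ => ?_, ?_⟩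
  · refine LinearMap.ext fun p => ?_
    rw [shp_apply, post_apply, SS_X hf, map_zero]
    rfl
  · refine LinearMap.ext fun p => ?_
    rw [rr_apply, post_apply, hτ]

lemma SS_ε {f : NP k R (I ⊕ I)} (hf : f ∈ K.SS Set.univ) (p : MvPolynomial (I ⊕ I) k) :
    f p * K.ε = f p := LinearMap.congr_fun hf.2 p

theorem lphase (H : K.Htp) : K.opd.LPhase (K.SS Set.univ) (fun l => post (H.s l))
    (fun l => post (H.s' l)) where
  SV l f hf := by
    change K.V _ f ∈ _
    rw [SS_V hf]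
    exact SS_rr hf _
  Ss l f hf := SS_post hf (H.s_ε l)
  Ss' l f hf := SS_post hf (H.s'_ε l)
  D0 f hf := by
    change K.D f = 0
    refine LinearMap.ext fun p => ?_
    rw [D_apply]
    refine sum_eq_zero fun a _ => ?_
    rw [SS_X hf, zero_mul]
  A0 l f hf := K.A_zero l f fun i => hf.1 _ trivial
  s_eq l f hf := by
    change K.V _ (post (H.s l) f) - post (H.s l) f + post (H.s' l) (K.opd.nm l f) = f
    rw [SS_nm hf, SS_V (SS_post hf (H.s_ε l))]
    refine LinearMap.ext fun p => ?_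
    have := H.s_eq l (f p)
    rw [SS_ε hf, mul_sub, mul_one] at this
    exact this
  s'_eq l f hf := by
    change K.opd.nm l (post (H.s' l) f) + post (H.s l) (K.V _ f - f) = f
    rw [SS_nm (SS_post hf (H.s'_ε l)), SS_V hf]
    refine LinearMap.ext fun p => ?_
    have := H.s'_eq l (f p)
    rw [SS_ε hf, mul_sub, mul_one] at this
    exact this
  s_V l m h f hf := by
    change post (H.s l) (K.V _ f) = K.V _ (post (H.s l) f)
    rw [SS_V hf, SS_V (SS_post hf (H.s_ε l))]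
    exact LinearMap.ext fun p => H.s_g l m h (f p)
  s'_V l m h f hf := by
    change post (H.s' l) (K.V _ f) = K.V _ (post (H.s' l) f)
    rw [SS_V hf, SS_V (SS_post hf (H.s'_ε l))]
    exact LinearMap.ext fun p => H.s'_g l m h (f p)

/-- Exactness. -/
theorem exists_prim (H : K.Htp) (z : PT L (NP k R (I ⊕ I))) (hz : ∀ t, rr K.ε (z t) = z t)
    (hd : K.opd.d z = 0) : ∃ y : PT L (NP k R (I ⊕ I)), (∀ t, t ≠ 0 → (z - K.opd.d y) t = 0) ∧
      ∀ t, (z - K.opd.d y) t ∈ K.SS Set.univ := by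
  classical
  have key1 : ∀ s : Finset I, ∃ y : PT L (NP k R (I ⊕ I)),
      ∀ t, (z - K.opd.d y) t ∈ K.SS (Sum.inl '' (s : Set I)) := by
    intro s
    induction s using Finset.induction_on with
    | empty =>
      refine ⟨0, fun t => ?_⟩
      rw [map_zero, sub_zero]
      exact ⟨by simp, hz t⟩
    | insert i s hi ih =>
      obtain ⟨y, hy⟩ := ih
      obtain ⟨y', hy', hy''⟩ := (phase_x (H.τx i) (s : Set I) (by simpa using hi)).exists_sub
        (z - K.opd.d y) hy (by rw [map_sub, hd, K.opd.d_d_apply, sub_zero])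
      refine ⟨y + y', fun t => ?_⟩
      rw [map_add, ← sub_sub]
      refine ⟨?_, (hy'' t).1.2⟩
      rintro _ ⟨j, hj, rfl⟩
      rw [mem_coe, Finset.mem_insert] at hj
      rcases hj with rfl | hj
      · exact (hy'' t).2
      · exact (hy'' t).1.1 _ ⟨j, hj, rfl⟩
  obtain ⟨y1, hy1⟩ := key1 univ
  have key2 : ∀ s : Finset I, ∃ y : PT L (NP k R (I ⊕ I)),
      ∀ t, (z - K.opd.d y) t ∈ K.SS (Set.range Sum.inl ∪ Sum.inr '' (s : Set I)) := by
    intro s
    induction s using Finset.induction_on with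
    | empty =>
      refine ⟨y1, fun t => ⟨?_, (hy1 t).2⟩⟩
      rintro _ (⟨i, rfl⟩ | ⟨j, hj, rfl⟩)
      · exact (hy1 t).1 _ ⟨i, by simp, rfl⟩
      · simp at hj
    | insert i s hi ih =>
      obtain ⟨y, hy⟩ := ih
      obtain ⟨y', hy', hy''⟩ := (phase_y (H.τy i) (s : Set I) (by simpa using hi)).exists_sub
        (z - K.opd.d y) hy (by rw [map_sub, hd, K.opd.d_d_apply, sub_zero])
      refine ⟨y + y', fun t => ?_⟩
      rw [map_add, ← sub_sub]
      refine ⟨?_, (hy'' t).1.2⟩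
      rintro _ (⟨j, rfl⟩ | ⟨j, hj, rfl⟩)
      · exact (hy'' t).1.1 _ (Or.inl ⟨j, rfl⟩)
      · rw [mem_coe, Finset.mem_insert] at hj
        rcases hj with rfl | hj
        · exact (hy'' t).2
        · exact (hy'' t).1.1 _ (Or.inr ⟨j, hj, rfl⟩)
  obtain ⟨y2, hy2⟩ := key2 univ
  have hy2' : ∀ t, (z - K.opd.d y2) t ∈ K.SS Set.univ := by
    intro t
    refine ⟨?_, (hy2 t).2⟩
    rintro (i | j) _
    · exact (hy2 t).1 _ (Or.inl ⟨i, rfl⟩)
    · exact (hy2 t).1 _ (Or.inr ⟨j, by simp, rfl⟩)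
  obtain ⟨y3, hy3, hy3'⟩ := (lphase H).exists_sub (z - K.opd.d y2) hy2'
    (by rw [map_sub, hd, K.opd.d_d_apply, sub_zero])
  refine ⟨y2 + y3, fun t ht => ?_, fun t => ?_⟩
  · rw [map_add, ← sub_sub]
    exact hy3' t ht
  · rw [map_add, ← sub_sub]
    refine AddSubgroup.sub_mem _ (hy2' t) ?_
    refine OpD.d_mem_of (lphase H).SV ?_ ?_ hy3 t
    · intro f hf
      rw [(lphase H).D0 f hf]
      exact AddSubgroup.zero_mem _
    · intro l f hf
      rw [(lphase H).A0 l f hf]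
      exact AddSubgroup.zero_mem _

end TW

end Pool.Agent.H170_FG
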