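import Pool.Agent.H170_FG.Tw5
import Pool.Agent.H170_FG.Fam

/-!
# The grading of the twisted complex
-/

set_option linter.unusedSectionVars false

universe u

open Finset MvPolynomial

namespace Pool.Agent.H170_FG

section whc

variable {k : Type u} [Field k] {W : Type} {M : Type} [AddCommGroup M] (w : W → M)

lemma whc_monomial [DecidableEq M] (n : M) (s : W →₀ ℕ) (r : k) :
    weightedHomogeneousComponent w n (monomial s r) =
      if n = Finsupp.weight w s then monomial s r else 0 :=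
  weightedHomogeneousComponent_of_mem (isWeightedHomogeneous_monomial w s r rfl)

lemma whc_X_mul (n : M) (a : W) (p : MvPolynomial W k) :
    weightedHomogeneousComponent w n (X a * p) =
      X a * weightedHomogeneousComponent w (n - w a) p := by
  classical
  induction p using MvPolynomial.induction_on' with
  | monomial s r =>
    rw [whc_monomial, X, monomial_mul, whc_monomial, one_mul, map_add, Finsupp.weight_single, one_smul]
    by_cases h : n = w a + Finsupp.weight w s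
    · rw [if_pos h, if_pos (by rw [h]; abel), monomial_mul, one_mul]
    · rw [if_neg h, if_neg (fun h' => h (by rw [← h']; abel)), mul_zero]
  | add p q hp hq => rw [mul_add, map_add, map_add, mul_add, hp, hq]

end whc

/-- The data for the twisted resolution, with idempotents. -/
structure TWE (k : Type u) [Field k] (R : Type u) [Ring R] [Algebra k R] (L I : Type)
    [Fintype L] [LinearOrder L] [Fintype I] [DecidableEq I] (C : Type) [CommGroup C]
    [Fintype C] [DecidableEq C] extends TW k R L I C where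
  e : C → R
  e_idem : ∀ c, e c * e c = e c
  g_e : ∀ c c', g c * e c' = e c' * g c
  x_e : ∀ i c, w (Sum.inl i) * e c = e (χ i * c) * w (Sum.inl i)
  y_e : ∀ i c, w (Sum.inr i) * e c = e ((χ i)⁻¹ * c) * w (Sum.inr i)
  ε_e : ∀ c, ε * e c = e c * ε

namespace TWE

open OpD (PT)
open TW (Xx Xy)

variable {k : Type u} [Field k] {R : Type u} [Ring R] [Algebra k R] {L I : Type}
    [Fintype L] [LinearOrder L] [Fintype I] [DecidableEq I] {C : Type} [CommGroup C]
    [Fintype C] [DecidableEq C] (K : TWE k R L I C)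

/-- weights of the odd variables -/
def wt : I ⊕ I → C := Sum.elim K.χ (fun i => (K.χ i)⁻¹)

lemma w_e (a : I ⊕ I) (c : C) : K.w a * K.e c = K.e (K.wt a * c) * K.w a := by
  rcases a with i | i
  · exact K.x_e i c
  · exact K.y_e i c

/-- bidegrees of the odd variables -/
def bw (a : I ⊕ I) : ℤ × Additive C := (1, Additive.ofMul (K.wt a))

/-- projection to a bidegree -/
noncomputable def wc (m : ℤ) (c : C) : MvPolynomial (I ⊕ I) k →ₗ[k] MvPolynomial (I ⊕ I) k :=
  weightedHomogeneousComponent K.bw (m, Additive.ofMul c)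

lemma wc_X_mul (m : ℤ) (c : C) (a : I ⊕ I) (p : MvPolynomial (I ⊕ I) k) :
    K.wc m c (X a * p) = X a * K.wc (m - 1) ((K.wt a)⁻¹ * c) p := by
  rw [wc, whc_X_mul, wc]
  congr 3
  rw [bw]
  refine Prod.ext ?_ ?_
  · rfl
  · change Additive.ofMul c - Additive.ofMul (K.wt a) = _
    rw [← ofMul_div, div_eq_inv_mul]

lemma wc_ρ (c' : C) (p : MvPolynomial (I ⊕ I) k) : ∀ (m : ℤ) (c : C),
    K.wc m c (K.ρ c' p) = K.ρ c' (K.wc m c p) := by
  induction p using MvPolynomial.induction_on with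
  | C r =>
    intro m c
    rw [← MvPolynomial.algebraMap_eq, AlgHom.commutes, MvPolynomial.algebraMap_eq, wc]
    by_cases h : (m, Additive.ofMul c) = (0 : ℤ × Additive C)
    · rw [h]
      have := (isWeightedHomogeneous_C (R := k) K.bw r).weightedHomogeneousComponent_same
      rw [this, ← MvPolynomial.algebraMap_eq, AlgHom.commutes]
    · have := (isWeightedHomogeneous_C (R := k) K.bw r).weightedHomogeneousComponent_ne _
        (fun h' => h h')
      rw [this, map_zero]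
  | add p q hp hq =>
    intro m c
    rw [map_add, map_add, hp, hq, map_add, map_add]
  | mul_X p a hp =>
    intro m c
    rw [mul_comm, map_mul (K.ρ c'), wc_X_mul, map_mul (K.ρ c')]
    rcases a with i | j
    · rw [K.ρ_x, wc_X_mul, hp]
    · rw [K.ρ_y, add_mul, map_add, wc_X_mul, hp, add_mul, sum_mul, sum_mul, map_sum]
      congr 1
      refine sum_congr rfl fun i _ => ?_
      rw [smul_mul_assoc, map_smul, wc_X_mul, smul_mul_assoc, hp]
      by_cases h : K.χ i * K.χ j = 1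
      · have : K.wt (Sum.inl i) = K.wt (Sum.inr j) := by
          change K.χ i = (K.χ j)⁻¹
          exact eq_inv_of_mul_eq_one_left h
        rw [this]
      · rw [K.B_wt i j h, zero_smul, zero_smul]

/-- projection to a degree, combined with the idempotents -/
noncomputable def pr (m : ℤ) : Module.End R (NP k R (I ⊕ I)) := ∑ c, rr (K.e c) * pre (K.wc m c)

lemma pr_apply (m : ℤ) (f : NP k R (I ⊕ I)) (p : MvPolynomial (I ⊕ I) k) :
    K.pr m f p = ∑ c, f (K.wc m c p) * K.e c := by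
  rw [pr, LinearMap.sum_apply, LinearMap.sum_apply]
  rfl

lemma V_pr (c : C) (m : ℤ) : K.V c * K.pr m = K.pr m * K.V c := by
  refine LinearMap.ext fun f => LinearMap.ext fun p => ?_
  change K.V c (K.pr m f) p = K.pr m (K.V c f) p
  rw [TW.V_apply, pr_apply, pr_apply, sum_mul]
  refine sum_congr rfl fun c' _ => ?_
  rw [TW.V_apply, wc_ρ, mul_assoc, mul_assoc, K.g_e]

lemma D_pr (m : ℤ) : K.D * K.pr (m + 1) = K.pr m * K.D := by
  refine LinearMap.ext fun f => LinearMap.ext fun p => ?_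
  change K.D (K.pr (m + 1) f) p = K.pr m (K.D f) p
  rw [TW.D_apply, pr_apply]
  have h1 : ∀ c, K.D f (K.wc m c p) * K.e c = ∑ a, f (X a * K.wc m c p) * K.e (K.wt a * c) * K.w a := by
    intro c
    rw [TW.D_apply, sum_mul]
    refine sum_congr rfl fun a _ => ?_
    rw [mul_assoc, w_e, mul_assoc]
  simp only [h1]
  rw [sum_comm]
  refine sum_congr rfl fun a _ => ?_
  rw [pr_apply, sum_mul]
  refine Fintype.sum_equiv (Equiv.mulLeft (K.wt a)⁻¹) _ _ fun c => ?_
  rw [wc_X_mul, add_sub_cancel_right, Equiv.coe_mulLeft, mul_inv_cancel_left]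

lemma shp_pr (m : ℤ) (i : I) : shp (Xx k i * Xy k i) * K.pr (m + 2) =
    K.pr m * shp (Xx k i * Xy k i) := by
  refine LinearMap.ext fun f => LinearMap.ext fun p => ?_
  change K.pr (m + 2) f (Xx k i * Xy k i * p) = K.pr m (shp (Xx k i * Xy k i) f) p
  rw [pr_apply, pr_apply]
  refine sum_congr rfl fun c _ => ?_
  rw [shp_apply, mul_assoc, wc_X_mul, wc_X_mul]
  have h1 : m + 2 - 1 - 1 = m := by ring
  have h2 : (K.wt (Sum.inr i))⁻¹ * ((K.wt (Sum.inl i))⁻¹ * c) = c := by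
    change ((K.χ i)⁻¹)⁻¹ * ((K.χ i)⁻¹ * c) = c
    rw [inv_inv, mul_inv_cancel_left]
  rw [h1, h2, mul_assoc]

lemma A_pr (l : L) (m : ℤ) : K.A l * K.pr (m + 2) = K.pr m * K.A l := by
  rw [TW.A_def, sum_mul, mul_sum]
  refine sum_congr rfl fun i _ => ?_
  rw [mul_assoc, shp_pr, ← mul_assoc, ← mul_assoc, ← mul_assoc]
  congr 1
  have h1 : (rr K.hε * K.pr m : Module.End R (NP k R (I ⊕ I))) = K.pr m * rr K.hε := by
    refine LinearMap.ext fun f => LinearMap.ext fun p => ?_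
    change K.pr m f p * K.hε = K.pr m (rr K.hε f) p
    rw [pr_apply, pr_apply, sum_mul]
    refine sum_congr rfl fun c _ => ?_
    rw [rr_apply, mul_assoc, mul_assoc, K.hε_comm (K.ε_e c)]
  rw [mul_assoc, h1, ← mul_assoc, K.Θ_comm' (fun c => K.V_pr c m)]

lemma grd : K.opd.Grd K.pr where
  V _ m := K.V_pr _ m
  D := K.D_pr
  A := K.A_pr

/-! ### Functions on exponents -/

/-- splitting of exponents -/
noncomputable def sp : ((L ⊕ (I ⊕ I)) →₀ ℕ) ≃+ (L →₀ ℕ) × ((I ⊕ I) →₀ ℕ) :=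
  Finsupp.sumFinsuppAddEquivProdFinsupp

/-- from functions on exponents to the total module -/
noncomputable def EE (k : Type u) [Field k] (R : Type u) [Ring R] [Algebra k R] (L I : Type) :
    (((L ⊕ (I ⊕ I)) →₀ ℕ) → R) ≃ₗ[R] PT L (NP k R (I ⊕ I)) where
  toFun z ν := (basisMonomials (I ⊕ I) k).constr R (fun s => z (sp.symm (ν, s)))
  map_add' z z' := by
    funext ν
    rw [Pi.add_apply, ← map_add]
    rfl
  map_smul' r z := by
    funext ν
    rw [Pi.smul_apply, RingHom.id_apply, ← map_smul]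
    rfl
  invFun Z t := Z (sp t).1 (monomial (sp t).2 1)
  left_inv z := by
    funext t
    change (basisMonomials (I ⊕ I) k).constr R (fun s => z (sp.symm ((sp t).1, s)))
      (monomial (sp t).2 1) = z t
    have h : (monomial (sp t).2 (1 : k) : MvPolynomial (I ⊕ I) k) =
        basisMonomials (I ⊕ I) k (sp t).2 := by rw [coe_basisMonomials]
    rw [h, Module.Basis.constr_basis]
    exact congrArg z (sp.symm_apply_apply t)
  right_inv Z := by
    funext ν
    refine (basisMonomials (I ⊕ I) k).ext fun s => ?_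
    rw [Module.Basis.constr_basis]
    change Z (sp (sp.symm (ν, s))).1 (monomial (sp (sp.symm (ν, s))).2 1) = _
    rw [AddEquiv.apply_symm_apply, coe_basisMonomials]

lemma EE_monomial (z : ((L ⊕ (I ⊕ I)) →₀ ℕ) → R) (ν : L →₀ ℕ) (s : (I ⊕ I) →₀ ℕ) :
    EE k R L I z ν (monomial s 1) = z (sp.symm (ν, s)) := by
  have h : (monomial s (1 : k) : MvPolynomial (I ⊕ I) k) =
      basisMonomials (I ⊕ I) k s := by rw [coe_basisMonomials]
  change (basisMonomials (I ⊕ I) k).constr R (fun s => z (sp.symm (ν, s))) _ = _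
  rw [h, Module.Basis.constr_basis]

lemma EE_symm (Z : PT L (NP k R (I ⊕ I))) (t : (L ⊕ (I ⊕ I)) →₀ ℕ) :
    (EE k R L I).symm Z t = Z (sp t).1 (monomial (sp t).2 1) := rfl

lemma sp_inl (ν : L →₀ ℕ) (s : (I ⊕ I) →₀ ℕ) (l : L) :
    (sp.symm (ν, s) : (L ⊕ (I ⊕ I)) →₀ ℕ) (Sum.inl l) = ν l := rfl

lemma sp_inr (ν : L →₀ ℕ) (s : (I ⊕ I) →₀ ℕ) (a : I ⊕ I) :
    (sp.symm (ν, s) : (L ⊕ (I ⊕ I)) →₀ ℕ) (Sum.inr a) = s a := rfl

lemma dg_sp (ν : L →₀ ℕ) (s : (I ⊕ I) →₀ ℕ) :
    dg (sp.symm (ν, s) : (L ⊕ (I ⊕ I)) →₀ ℕ) = tl ν + dg s := by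
  rw [dg, Fintype.sum_sum_type]
  simp only [sp_inl, sp_inr]
  rfl

/-- weight of an exponent -/
def wtt (t : (L ⊕ (I ⊕ I)) →₀ ℕ) : C := ∏ a, K.wt a ^ t (Sum.inr a)

/-- weight of an exponent -/
def wts (s : (I ⊕ I) →₀ ℕ) : C := ∏ a, K.wt a ^ s a

lemma wtt_sp (ν : L →₀ ℕ) (s : (I ⊕ I) →₀ ℕ) : K.wtt (sp.symm (ν, s)) = K.wts s := rfl

lemma wts_add (s s' : (I ⊕ I) →₀ ℕ) : K.wts (s + s') = K.wts s * K.wts s' := by
  simp [wts, pow_add, prod_mul_distrib]

lemma wtt_add (s s' : (L ⊕ (I ⊕ I)) →₀ ℕ) : K.wtt (s + s') = K.wtt s * K.wtt s' := by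
  simp [wtt, pow_add, prod_mul_distrib]

lemma weight_bw (s : (I ⊕ I) →₀ ℕ) :
    Finsupp.weight K.bw s = ((dg s : ℤ), Additive.ofMul (K.wts s)) := by
  rw [Finsupp.weight_apply, Finsupp.sum_fintype _ _ (by simp)]
  refine Prod.ext ?_ ?_
  · rw [Prod.fst_sum]
    simp [bw, dg]
  · rw [Prod.snd_sum]
    simp [bw, wts, ofMul_prod]

/-- the idempotents belonging to exponents -/
def ff (t : (L ⊕ (I ⊕ I)) →₀ ℕ) : R := K.e (K.wtt t)

lemma ff_idem (t : (L ⊕ (I ⊕ I)) →₀ ℕ) : K.ff t * K.ff t = K.ff t := K.e_idem _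

lemma EE_phi_hom (n : ℕ) (z : ((L ⊕ (I ⊕ I)) →₀ ℕ) → R) :
    EE k R L I (phi K.ff (hom n z)) = OpD.PR L K.pr n (EE k R L I z) := by
  funext ν
  refine (basisMonomials (I ⊕ I) k).ext fun s => ?_
  rw [coe_basisMonomials, EE_monomial, phi_apply, hom_apply, OpD.PR_apply, pr_apply, dg_sp]
  simp only [wc, whc_monomial, weight_bw]
  by_cases h : tl ν + dg s = n
  · rw [if_pos h, Finset.sum_eq_single (K.wts s)]
    · rw [if_pos (by rw [← h]; push_cast; rw [add_sub_cancel_left]), EE_monomial]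
      rfl
    · intro c _ hc
      rw [if_neg, map_zero, zero_mul]
      intro h'
      exact hc (Additive.ofMul.injective (congrArg Prod.snd h'))
    · simp
  · rw [if_neg h, zero_mul, Finset.sum_eq_zero]
    intro c _
    rw [if_neg, map_zero, zero_mul]
    intro h'
    have h2 := congrArg Prod.fst h'
    simp only at h2
    omega

/-- the differential on functions on exponents -/
noncomputable def dE : (((L ⊕ (I ⊕ I)) →₀ ℕ) → R) →ₗ[R] (((L ⊕ (I ⊕ I)) →₀ ℕ) → R) :=
  (EE k R L I).symm.toLinearMap ∘ₗ K.opd.d ∘ₗ (EE k R L I).toLinearMap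

lemma EE_dE (z : ((L ⊕ (I ⊕ I)) →₀ ℕ) → R) :
    EE k R L I (K.dE z) = K.opd.d (EE k R L I z) := by
  change EE k R L I ((EE k R L I).symm _) = _
  rw [LinearEquiv.apply_symm_apply]
  rfl

lemma dE_dE (z : ((L ⊕ (I ⊕ I)) →₀ ℕ) → R) : K.dE (K.dE z) = 0 := by
  apply (EE k R L I).injective
  rw [EE_dE, EE_dE, K.opd.d_d_apply, map_zero]

lemma dE_phi_hom (n : ℕ) (z : ((L ⊕ (I ⊕ I)) →₀ ℕ) → R) :
    K.dE (phi K.ff (hom (n + 1) z)) = phi K.ff (hom n (K.dE z)) := by
  apply (EE k R L I).injective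
  rw [EE_dE, EE_phi_hom, EE_phi_hom, EE_dE]
  exact K.opd.d_PR K.grd n _

lemma phi_hom_eq {n : ℕ} {z : ((L ⊕ (I ⊕ I)) →₀ ℕ) → R} (hz : z ∈ RR K.ff n) :
    phi K.ff (hom n z) = z := by
  funext t
  rw [phi_apply, hom_apply]
  by_cases h : dg t = n
  · rw [if_pos h, (hz t).1]
  · rw [if_neg h, zero_mul, (hz t).2 h]

lemma dE_mem (n : ℕ) (z : ((L ⊕ (I ⊕ I)) →₀ ℕ) → R) (hz : z ∈ RR K.ff (n + 1)) :
    K.dE z ∈ RR K.ff n := by
  rw [← K.phi_hom_eq hz, dE_phi_hom]
  exact phi_hom_mem K.ff K.ff_idem n _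

lemma dE_zero_apply (z : ((L ⊕ (I ⊕ I)) →₀ ℕ) → R) : K.dE z 0 =
    ∑ l, z (Finsupp.single (Sum.inl l) 1) * (K.g (K.cl l) - 1) +
      ∑ a, z (Finsupp.single (Sum.inr a) 1) * K.w a := by
  classical
  have h0 : (1 : MvPolynomial (I ⊕ I) k) = monomial 0 1 := rfl
  have hz : ∀ (ν : L →₀ ℕ) (a : I ⊕ I), EE k R L I z ν (X a) =
      z (sp.symm (ν, Finsupp.single a 1)) := fun ν a => EE_monomial z ν _
  have h1 : K.dE z 0 = K.opd.d (EE k R L I z) 0 1 := by
    change (EE k R L I).symm _ 0 = _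
    rw [EE_symm, map_zero]
    rfl
  rw [h1, OpD.d_apply]
  change (∑ l, K.opd.dl l (EE k R L I z) 0 + K.opd.dD (EE k R L I z) 0 -
    ∑ l, K.opd.dh l (EE k R L I z) 0) 1 = _
  have h2 : ∀ l, K.opd.dh l (EE k R L I z) 0 = 0 := by
    intro l
    rw [OpD.dh_apply, if_neg (by simp)]
  rw [sum_eq_zero fun l _ => h2 l, sub_zero, LinearMap.add_apply, LinearMap.sum_apply]
  congr 1
  · refine sum_congr rfl fun l _ => ?_
    rw [OpD.dl_apply, OpD.cf, if_pos (by simp), zero_add]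
    have h3 : KD.sg (sl l (0 : L →₀ ℕ)) = 1 := by simp [sl, KD.sg]
    rw [h3, one_smul]
    change K.V (K.cl l) (EE k R L I z (el l)) 1 - EE k R L I z (el l) 1 = _
    rw [TW.V_apply, map_one, mul_sub, mul_one, h0, EE_monomial]
    have h4 : (sp.symm (el l, 0) : (L ⊕ (I ⊕ I)) →₀ ℕ) = Finsupp.single (Sum.inl l) 1 := by
      ext (m | a)
      · rw [sp_inl, Finsupp.single_apply, Finsupp.single_apply]
        simp
      · rw [sp_inr, Finsupp.single_apply]
        simp
    rw [h4]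
  · rw [OpD.dD_apply]
    have h3 : KD.sg (tl (0 : L →₀ ℕ)) = 1 := by simp [tl, KD.sg]
    rw [h3, one_smul]
    change K.D (EE k R L I z 0) 1 = _
    rw [TW.D_apply]
    refine sum_congr rfl fun a _ => ?_
    rw [mul_one, hz]
    have h4 : (sp.symm (0, Finsupp.single a 1) : (L ⊕ (I ⊕ I)) →₀ ℕ) =
        Finsupp.single (Sum.inr a) 1 := by
      ext (m | b)
      · rw [sp_inl, Finsupp.single_apply]
        simp
      · rw [sp_inr, Finsupp.single_apply, Finsupp.single_apply]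
        simp
    rw [h4]

end TWE

end Pool.Agent.H170_FG
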