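import Pool.Agent.H170_FG.Tw6
import Pool.Agent.H170_FG.Tot

/-!
# The projective resolution
-/

set_option linter.unusedSectionVars false

universe u

open Finset MvPolynomial

namespace Pool.Agent.H170_FG

/-- The data for the twisted resolution, with homotopies. -/
structure TWD (k : Type u) [Field k] (R : Type u) [Ring R] [Algebra k R] (L I : Type)
    [Fintype L] [LinearOrder L] [Fintype I] [DecidableEq I] (C : Type) [CommGroup C]
    [Fintype C] [DecidableEq C] extends TWE k R L I C where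
  e_ε : ∀ t, toTWE.ff t * ε = toTWE.ff t
  H : toTW.Htp

namespace TWD

open OpD (PT)
open TW (Xx Xy)
open TWE (EE sp)

variable {k : Type u} [Field k] {R : Type u} [Ring R] [Algebra k R] {L I : Type}
    [Fintype L] [LinearOrder L] [Fintype I] [DecidableEq I] {C : Type} [CommGroup C]
    [Fintype C] [DecidableEq C] (K : TWD k R L I C)

/-- A module with a generator which is killed by the odd variables. -/
structure Aug (T : ModuleCat.{u} R) where
  t0 : T
  e_t0 : K.e 1 • t0 = t0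
  g_t0 : ∀ l, K.g (K.cl l) • t0 = t0
  w_t0 : ∀ a, K.w a • t0 = 0
  surj : ∀ t : T, ∃ b : R, b • t0 = t
  span : ∀ b : R, b • t0 = 0 → ∃ (bw : I ⊕ I → R) (bl : L → R),
    b * K.e 1 = ∑ l, bl l * (K.g (K.cl l) - 1) + ∑ a, bw a * K.w a

lemma wtt_zero : K.wtt 0 = 1 := by simp [TWE.wtt]

lemma exact (n : ℕ) (z : ((L ⊕ (I ⊕ I)) →₀ ℕ) → R) (hz : z ∈ RR K.ff (n + 1)) (hd : K.dE z = 0) :
    ∃ y ∈ RR K.ff (n + 2), K.dE y = z := by
  have hz1 : ∀ t, rr K.ε (EE k R L I z t) = EE k R L I z t := by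
    intro ν
    refine (basisMonomials (I ⊕ I) k).ext fun s => ?_
    rw [coe_basisMonomials, rr_apply, TWE.EE_monomial, ← (hz _).1, mul_assoc, K.e_ε]
  have hz2 : K.opd.d (EE k R L I z) = 0 := by
    rw [← TWE.EE_dE, hd, map_zero]
  obtain ⟨y, hy1, hy2⟩ := TW.exists_prim K.H (EE k R L I z) hz1 hz2
  set y' := (EE k R L I).symm y with hy'
  have hyE : EE k R L I y' = y := LinearEquiv.apply_symm_apply _ _
  have key : ∀ t, t ≠ 0 → z t = K.dE y' t := by
    intro t ht
    obtain ⟨⟨ν, s⟩, rfl⟩ := (sp (L := L) (I := I)).symm.surjective t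
    rw [← TWE.EE_monomial (k := k) z, ← TWE.EE_monomial (k := k) (K.dE y'), TWE.EE_dE, hyE, ← sub_eq_zero]
    change (EE k R L I z - K.opd.d y) ν (monomial s 1) = 0
    by_cases hν : ν = 0
    · have hs : s ≠ 0 := by
        rintro rfl
        subst hν
        exact ht (map_zero _)
      obtain ⟨a, ha⟩ : ∃ a, s a ≠ 0 := by
        by_contra h
        push Not at h
        exact hs (Finsupp.ext h)
      obtain ⟨s', rfl⟩ := exists_eq_add_el s a ha
      have h1 : (monomial (s' + el a) (1 : k) : MvPolynomial (I ⊕ I) k) =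
          X a * monomial s' 1 := by
        rw [X, monomial_mul, one_mul, add_comm]
      rw [h1]
      exact TW.SS_X (hy2 ν) a _
    · rw [hy1 ν hν]
      rfl
  refine ⟨phi K.ff (hom (n + 2) y'), phi_hom_mem K.ff K.ff_idem _ _, ?_⟩
  rw [K.dE_phi_hom]
  rw [← K.phi_hom_eq hz]
  congr 1
  funext t
  rw [hom_apply, hom_apply]
  by_cases h : dg t = n + 1
  · rw [if_pos h, if_pos h]
    exact (key t (by rintro rfl; rw [dg_zero] at h; omega)).symm
  · rw [if_neg h, if_neg h]

variable {T : ModuleCat.{u} R} (A : K.Aug T)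

/-- augmentation -/
noncomputable def aug : RR K.ff 0 →ₗ[R] T where
  toFun z := z.1 0 • A.t0
  map_add' z z' := by
    change (z.1 0 + z'.1 0) • A.t0 = _
    rw [add_smul]
  map_smul' b z := by
    change (b * z.1 0) • A.t0 = b • (z.1 0 • A.t0)
    rw [mul_smul]

lemma aug_surj : Function.Surjective (K.aug A) := by
  intro t
  obtain ⟨b, rfl⟩ := A.surj t
  refine ⟨⟨b • kap K.ff 0, (RR K.ff 0).smul_mem _ (kap_mem K.ff K.ff_idem dg_zero)⟩, ?_⟩
  change (b * kap K.ff 0 0) • A.t0 = _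
  rw [kap_same, TWE.ff, wtt_zero, mul_smul, A.e_t0]

lemma aug_exact (z : RR K.ff 0) (hz : K.aug A z = 0) : ∃ y ∈ RR K.ff 1, K.dE y = z := by
  classical
  have hz' : z.1 0 • A.t0 = 0 := hz
  obtain ⟨bw, bl, hb⟩ := A.span _ hz'
  let y0 : ((L ⊕ (I ⊕ I)) →₀ ℕ) → R := fun t =>
    (∑ l, if t = Finsupp.single (Sum.inl l) 1 then bl l else 0) +
    ∑ a, if t = Finsupp.single (Sum.inr a) 1 then bw a else 0
  have hinj : ∀ w w' : L ⊕ (I ⊕ I), (Finsupp.single w 1 : (L ⊕ (I ⊕ I)) →₀ ℕ) =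
      Finsupp.single w' 1 ↔ w = w' := fun w w' =>
    ⟨fun h => Finsupp.single_left_injective one_ne_zero h, fun h => by rw [h]⟩
  have h1 : ∀ l, y0 (Finsupp.single (Sum.inl l) 1) = bl l := by
    intro l
    simp only [y0, hinj, Sum.inl.injEq, reduceCtorEq, if_false, Finset.sum_const_zero,
      add_zero, Finset.sum_ite_eq, mem_univ, if_true]
  have h2 : ∀ a, y0 (Finsupp.single (Sum.inr a) 1) = bw a := by
    intro l
    simp only [y0, hinj, Sum.inr.injEq, reduceCtorEq, if_false, Finset.sum_const_zero,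
      zero_add, Finset.sum_ite_eq, mem_univ, if_true]
  refine ⟨phi K.ff (hom 1 y0), phi_hom_mem K.ff K.ff_idem _ _, ?_⟩
  rw [K.dE_phi_hom 0]
  rw [← K.phi_hom_eq z.2]
  congr 1
  funext t
  rw [hom_apply, hom_apply]
  by_cases h : dg t = 0
  · rw [if_pos h, if_pos h, dg_eq_zero h, K.dE_zero_apply]
    simp only [h1, h2]
    rw [← hb]
    have := (z.2 0).1
    rw [TWE.ff, wtt_zero] at this
    exact this
  · rw [if_neg h, if_neg h]

lemma aug_d (y : ((L ⊕ (I ⊕ I)) →₀ ℕ) → R) (hy : y ∈ RR K.ff 1) :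
    K.aug A ⟨K.dE y, K.dE_mem 0 y hy⟩ = 0 := by
  change K.dE y 0 • A.t0 = 0
  rw [K.dE_zero_apply, add_smul, sum_smul, sum_smul, sum_eq_zero, sum_eq_zero, add_zero]
  · intro a _
    rw [mul_smul, A.w_t0, smul_zero]
  · intro l _
    rw [mul_smul, sub_smul, A.g_t0, one_smul, sub_self, smul_zero]

/-- the projective resolution -/
noncomputable def tot : TotRes R T (((L ⊕ (I ⊕ I)) →₀ ℕ) → R) where
  R := RR K.ff
  d := K.dE
  d_mem n x hx := K.dE_mem n x hx
  d_d x := K.dE_dE x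
  exact n x hx hd := K.exact n x hx hd
  aug := K.aug A
  aug_surj := K.aug_surj A
  aug_exact x hx := K.aug_exact A x hx
  aug_d y hy := K.aug_d A y hy
  proj n := projective_RR K.ff K.ff_idem n

end TWD

end Pool.Agent.H170_FG
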