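import Pool.Agent.H170_FG.Tw7
import Pool.Agent.H170_FG.Noeth

/-!
# Operators given by polynomials
-/

set_option linter.unusedSectionVars false

universe u

open Finset MvPolynomial

namespace Pool.Agent.H170_FG

/-- Vectors of polynomials; a polynomial acts through the algebra homomorphism `φ`. -/
def PMod {k : Type u} [Field k] {J V : Type} (r : ℕ)
    (_φ : MvPolynomial J k →ₐ[k] MvPolynomial V k) : Type u := ExpMod k V r 1

namespace PMod

variable {k : Type u} [Field k] {J V : Type} {r : ℕ} (φ : MvPolynomial J k →ₐ[k] MvPolynomial V k)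

noncomputable instance : AddCommGroup (PMod r φ) :=
  inferInstanceAs (AddCommGroup (Fin r → MvPolynomial V k))

noncomputable instance : Module (MvPolynomial J k) (PMod r φ) :=
  Module.compHom (Fin r → MvPolynomial V k)
    ((φ : MvPolynomial J k →ₐ[k] MvPolynomial V k) : MvPolynomial J k →+* MvPolynomial V k)

lemma smul_apply (p : MvPolynomial J k) (q : PMod r φ) (i : Fin r) :
    (p • q) i = φ p * q i := rfl

theorem finite (hφ : ((φ : MvPolynomial J k →ₐ[k] MvPolynomial V k) :
    MvPolynomial J k →+* MvPolynomial V k).Finite) :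
    Module.Finite (MvPolynomial J k) (PMod r φ) :=
  ExpMod.finite_pi _ hφ r

end PMod

section ops

variable {k : Type u} [Field k] {V : Type} [Fintype V] {B : Type u} [Ring B] [Algebra k B]
  (f : (V →₀ ℕ) → B)

/-- the linear map belonging to a function on exponents -/
noncomputable def c1 (k : Type u) [Field k] [Algebra k B] (z : (V →₀ ℕ) → B) :
    MvPolynomial V k →ₗ[k] B :=
  (basisMonomials V k).constr B z

omit [Fintype V] in
lemma c1_monomial (z : (V →₀ ℕ) → B) (s : V →₀ ℕ) (r : k) :
    c1 k z (monomial s r) = r • z s := by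
  have h : (monomial s r : MvPolynomial V k) = r • basisMonomials V k s := by
    rw [coe_basisMonomials, smul_monomial, smul_eq_mul, mul_one]
  rw [h, map_smul, c1, Module.Basis.constr_basis]

omit [Fintype V] in
lemma c1_apply (z : (V →₀ ℕ) → B) (p : MvPolynomial V k) :
    c1 k z p = ∑ s ∈ p.support, algebraMap k B (coeff s p) * z s := by
  conv_lhs => rw [p.as_sum]
  rw [map_sum]
  refine sum_congr rfl fun s _ => ?_
  rw [c1_monomial, Algebra.smul_def]

/-- the operator belonging to a polynomial -/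
noncomputable def lamP (B : Type u) [Ring B] [Algebra k B] (P : MvPolynomial V k) :
    ((V →₀ ℕ) → B) →ₗ[B] ((V →₀ ℕ) → B) where
  toFun z t := c1 k z (P * monomial t 1)
  map_add' z z' := by
    funext t
    simp only [c1, map_add]
    rfl
  map_smul' b z := by
    funext t
    simp only [c1, map_smul]
    rfl

omit [Fintype V] in
lemma lamP_apply (P : MvPolynomial V k) (z : (V →₀ ℕ) → B) (t : V →₀ ℕ) :
    lamP B P z t = c1 k z (P * monomial t 1) := rfl

omit [Fintype V] in
lemma lamP_apply' (P : MvPolynomial V k) (z : (V →₀ ℕ) → B) (t : V →₀ ℕ) :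
    lamP B P z t = ∑ s ∈ P.support, algebraMap k B (coeff s P) * z (s + t) := by
  rw [lamP_apply]
  conv_lhs => rw [P.as_sum]
  rw [sum_mul, map_sum]
  refine sum_congr rfl fun s _ => ?_
  rw [monomial_mul, mul_one, c1_monomial, Algebra.smul_def]

omit [Fintype V] in
lemma c1_lamP (P : MvPolynomial V k) (z : (V →₀ ℕ) → B) (q : MvPolynomial V k) :
    c1 k (lamP B P z) q = c1 k z (P * q) := by
  induction q using MvPolynomial.induction_on' with
  | monomial s r =>
    rw [c1_monomial, lamP_apply]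
    have h : (monomial s r : MvPolynomial V k) = r • monomial s 1 := by
      rw [smul_monomial, smul_eq_mul, mul_one]
    rw [h, mul_smul_comm, map_smul]
  | add p q hp hq => rw [mul_add, map_add, map_add, hp, hq]

lemma lamP_mem {P : MvPolynomial V k} {a : ℕ} (hP : ∀ s ∈ P.support, dg s = a)
    (hf : ∀ s ∈ P.support, ∀ t, f (s + t) = f t) (m n : ℕ)
    (h : m = n + a) (z : (V →₀ ℕ) → B) (hz : z ∈ RR f m) : lamP B P z ∈ RR f n := by
  intro t
  rw [lamP_apply']
  refine ⟨?_, fun ht => ?_⟩
  · rw [sum_mul]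
    refine sum_congr rfl fun s hs => ?_
    rw [mul_assoc, ← hf s hs t, (hz _).1]
  · refine sum_eq_zero fun s hs => ?_
    rw [(hz _).2, mul_zero]
    rw [dg_add, hP s hs]
    omega

lemma lamP_eq_zero {P : MvPolynomial V k} {a : ℕ} (hP : ∀ s ∈ P.support, dg s = a)
    (m : ℕ) (h : m < a) (z : (V →₀ ℕ) → B) (hz : z ∈ RR f m) : lamP B P z = 0 := by
  funext t
  rw [lamP_apply']
  refine sum_eq_zero fun s hs => ?_
  rw [(hz _).2, mul_zero]
  rw [dg_add, hP s hs]
  omega

variable {M : Type u} [AddCommGroup M] [Module B M] {r : ℕ} (m : Fin r → M)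

lemma psi_eq (n : ℕ) (q : ExpMod k V r 1) (z : RR f n) :
    psi f m n q z = ∑ i, c1 k z.1 (q i) • m i := by
  classical
  rw [psi_apply]
  simp only [cval, smul_sum]
  rw [sum_comm]
  refine sum_congr rfl fun i _ => ?_
  rw [c1_apply, sum_smul]
  have h1 : ∀ t : V →₀ ℕ, z.1 t • algebraMap k B (coeff t (q i)) • m i =
      (algebraMap k B (coeff t (q i)) * z.1 t) • m i := by
    intro t
    rw [smul_smul, Algebra.commutes]
  simp only [h1]
  have h2 : ∀ s : Finset (V →₀ ℕ), (∀ t, t ∈ DG V n → coeff t (q i) ≠ 0 → t ∈ s) →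
      (∀ t ∈ s, coeff t (q i) ≠ 0) →
      ∑ t ∈ DG V n, (algebraMap k B (coeff t (q i)) * z.1 t) • m i =
      ∑ t ∈ s, (algebraMap k B (coeff t (q i)) * z.1 t) • m i := by
    intro s hs hs'
    have h3 : ∑ t ∈ DG V n, (algebraMap k B (coeff t (q i)) * z.1 t) • m i =
        ∑ t ∈ DG V n ∩ s, (algebraMap k B (coeff t (q i)) * z.1 t) • m i := by
      refine (Finset.sum_subset Finset.inter_subset_left fun t ht ht' => ?_).symm
      by_cases hc : coeff t (q i) = 0
      · rw [hc, map_zero, zero_mul, zero_smul]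
      · exact absurd (Finset.mem_inter.mpr ⟨ht, hs t ht hc⟩) ht'
    rw [h3]
    refine Finset.sum_subset Finset.inter_subset_right fun t ht ht' => ?_
    rw [(z.2 t).2, mul_zero, zero_smul]
    intro hn
    exact ht' (Finset.mem_inter.mpr ⟨mem_DG.mpr hn, ht⟩)
  exact h2 _ (fun t _ h => MvPolynomial.mem_support_iff.mpr h)
    (fun t ht => MvPolynomial.mem_support_iff.mp ht)

variable {J : Type} (φ : MvPolynomial J k →ₐ[k] MvPolynomial V k)

/-- the homomorphisms belonging to vectors of polynomials -/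
noncomputable def psiP (n : ℕ) : PMod r φ →+ (RR f n →ₗ[B] M) := psi f (N := 1) m n

lemma psiP_eq (n : ℕ) (q : PMod r φ) (z : RR f n) :
    psiP f m φ n q z = ∑ i, c1 k z.1 (q i) • m i := psi_eq f m n q z

lemma psiP_C (n : ℕ) (c : k) (q : PMod r φ) (z : RR f n) :
    psiP f m φ n ((MvPolynomial.C c : MvPolynomial J k) • q) z =
      algebraMap k B c • psiP f m φ n q z := by
  have h1 : ∀ i, ((MvPolynomial.C c : MvPolynomial J k) • q) i = MvPolynomial.C c * q i := by
    intro i
    rw [PMod.smul_apply, ← algebraMap_eq, AlgHom.commutes, algebraMap_eq]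
  rw [psiP_eq, psiP_eq, smul_sum]
  refine sum_congr rfl fun i _ => ?_
  rw [h1, C_mul', map_smul, Algebra.smul_def, mul_smul]

lemma psiP_X (j : J) (n n' : ℕ) (q : PMod r φ) (z : RR f n') (z' : RR f n)
    (h : z'.1 = lamP B (φ (X j)) z.1) :
    psiP f m φ n' ((MvPolynomial.X j : MvPolynomial J k) • q) z = psiP f m φ n q z' := by
  rw [psiP_eq, psiP_eq]
  refine sum_congr rfl fun i _ => ?_
  rw [PMod.smul_apply, ← c1_lamP, h]

lemma psiP_X_lt (j : J) {a : ℕ} (hP : ∀ s ∈ (φ (X j)).support, dg s = a) (n : ℕ) (h : n < a)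
    (q : PMod r φ) : psiP f m φ n ((MvPolynomial.X j : MvPolynomial J k) • q) = 0 := by
  ext z
  rw [psiP_eq]
  refine sum_eq_zero fun i _ => ?_
  rw [PMod.smul_apply, ← c1_lamP, lamP_eq_zero f hP n h z.1 z.2]
  have h2 : c1 k (0 : (V →₀ ℕ) → B) (q i) = 0 := by
    rw [c1, map_zero, LinearMap.zero_apply]
  rw [h2, zero_smul]

end ops

end Pool.Agent.H170_FG
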