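import Pool.Agent.H170_FG.Tw8

/-!
# The operators on the twisted resolution
-/

set_option linter.unusedSectionVars false

universe u

open Finset MvPolynomial

namespace Pool.Agent.H170_FG

section integral

lemma isIntegral_of_prod {A S : Type*} [CommRing A] [CommRing S] [Algebra A S] {ι : Type*}
    (s : Finset ι) (hs : s.Nonempty) (x : S) (b : ι → S) (hb : ∀ i, IsIntegral A (b i))
    (hP : IsIntegral A (∏ i ∈ s, (x + b i))) : IsIntegral A x := by
  nontriviality S
  let O := integralClosure A S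
  let b' : ι → O := fun i => ⟨b i, hb i⟩
  let P' : O := ⟨_, hP⟩
  refine isIntegral_trans (A := O) x ?_
  have hm : (∏ i ∈ s, (Polynomial.X + Polynomial.C (b' i)) : Polynomial O).Monic :=
    Polynomial.monic_prod_of_monic _ _ fun i _ => Polynomial.monic_X_add_C _
  refine ⟨∏ i ∈ s, (Polynomial.X + Polynomial.C (b' i)) - Polynomial.C P', ?_, ?_⟩
  · refine Polynomial.Monic.sub_of_left hm ?_
    refine lt_of_le_of_lt Polynomial.degree_C_le ?_
    rw [Polynomial.degree_eq_natDegree hm.ne_zero,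
      Polynomial.natDegree_prod_of_monic _ _ (fun i _ => Polynomial.monic_X_add_C _)]
    simp only [Polynomial.natDegree_X_add_C, sum_const, smul_eq_mul, mul_one]
    have := hs.card_pos
    exact_mod_cast this
  · rw [Polynomial.eval₂_sub, Polynomial.eval₂_finsetProd, Polynomial.eval₂_C]
    simp only [Polynomial.eval₂_add, Polynomial.eval₂_X, Polynomial.eval₂_C]
    exact sub_self _

lemma isIntegralElem_of_prod {A S : Type*} [CommRing A] [CommRing S] (f : A →+* S) {ι : Type*}
    (s : Finset ι) (hs : s.Nonempty) (x : S) (b : ι → S) (hb : ∀ i, f.IsIntegralElem (b i))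
    (hP : f.IsIntegralElem (∏ i ∈ s, (x + b i))) : f.IsIntegralElem x := by
  let _ := f.toAlgebra
  exact isIntegral_of_prod s hs x b hb hP

lemma isIntegralElem_of_pow {A S : Type*} [CommRing A] [CommRing S] (f : A →+* S)
    (x : S) (n : ℕ) (hn : n ≠ 0) (hP : f.IsIntegralElem (x ^ n)) : f.IsIntegralElem x := by
  refine isIntegralElem_of_prod f (range n) (by simpa using hn) x (fun _ => 0)
    (fun _ => f.isIntegralElem_zero) ?_
  simpa using hP

lemma finite_of_isIntegralElem {k : Type*} [Field k] {J V : Type*} [Finite V]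
    (φ : MvPolynomial J k →ₐ[k] MvPolynomial V k)
    (h : ∀ v : V, (φ : MvPolynomial J k →+* MvPolynomial V k).IsIntegralElem (X v)) :
    (φ : MvPolynomial J k →+* MvPolynomial V k).Finite := by
  refine RingHom.IsIntegral.to_finite ?_ ?_
  · intro p
    induction p using MvPolynomial.induction_on with
    | C a =>
      have : MvPolynomial.C a = (φ : MvPolynomial J k →+* MvPolynomial V k)
          (MvPolynomial.C a) := by
        simp
      rw [this]
      exact RingHom.isIntegralElem_map _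
    | add p q hp hq => exact hp.add _ hq
    | mul_X p j hp => exact hp.mul _ (h j)
  · have h : (MvPolynomial.C : k →+* MvPolynomial V k).FiniteType :=
      (RingHom.finiteType_algebraMap (A := k) (B := MvPolynomial V k)).mpr inferInstance
    have h2 : (((φ : MvPolynomial J k →+* MvPolynomial V k)).comp MvPolynomial.C) =
        MvPolynomial.C := by
      ext <;> simp
    refine RingHom.FiniteType.of_comp_finiteType (f := MvPolynomial.C) ?_
    rw [h2]
    exact h

end integral

namespace TWD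

open OpD (PT)
open TW (Xx Xy)
open TWE (EE sp)
open CategoryTheory

variable {k : Type u} [Field k] {R : Type u} [Ring R] [Algebra k R] {L I : Type}
    [Fintype L] [LinearOrder L] [Fintype I] [DecidableEq I] {C : Type} [CommGroup C]
    [Fintype C] [DecidableEq C] (K : TWD k R L I C)

/-- invariant polynomials in the odd variables -/
noncomputable def pi' (a : I ⊕ I) : MvPolynomial (I ⊕ I) k := ∏ c, K.ρ c (X a)

lemma ρ_pi (c : C) (a : I ⊕ I) : K.ρ c (K.pi' a) = K.pi' a := by
  rw [pi', map_prod]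
  refine Fintype.prod_equiv (Equiv.mulLeft c) _ _ fun c' => ?_
  rw [← AlgHom.comp_apply, K.ρ_mul]
  rfl

lemma ρ_wh (c : C) (a : I ⊕ I) : IsWeightedHomogeneous K.bw (K.ρ c (X a)) (K.bw a) := by
  rcases a with i | j
  · rw [K.ρ_x]
    exact isWeightedHomogeneous_X _ _ _
  · rw [K.ρ_y]
    refine IsWeightedHomogeneous.add (isWeightedHomogeneous_X _ _ _) ?_
    refine IsWeightedHomogeneous.sum _ _ _ fun i _ => ?_
    by_cases h : K.χ i * K.χ j = 1
    · have h1 : K.bw (Sum.inr j) = K.bw (Sum.inl i) := by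
        change ((1 : ℤ), Additive.ofMul ((K.χ j)⁻¹)) = ((1 : ℤ), Additive.ofMul (K.χ i))
        rw [eq_inv_of_mul_eq_one_left h]
      rw [h1, smul_eq_C_mul]
      exact (isWeightedHomogeneous_X _ _ _).C_mul _
    · rw [K.B_wt i j h, zero_smul]
      exact isWeightedHomogeneous_zero _ _ _

lemma pi_support (a : I ⊕ I) (s : (I ⊕ I) →₀ ℕ) (hs : s ∈ (K.pi' a).support) :
    dg s = Fintype.card C ∧ K.wts s = 1 := by
  have h1 : IsWeightedHomogeneous K.bw (K.pi' a) (∑ _c : C, K.bw a) :=
    IsWeightedHomogeneous.prod _ _ _ fun c _ => K.ρ_wh c a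
  have h2 := h1 (MvPolynomial.mem_support_iff.mp hs)
  rw [K.weight_bw, sum_const, TWE.bw, Prod.smul_mk, Finset.card_univ] at h2
  have h3 := congrArg Prod.fst h2
  have h4 := congrArg Prod.snd h2
  simp only at h3 h4
  refine ⟨?_, ?_⟩
  · have : (dg s : ℤ) = Fintype.card C := by simpa using h3
    exact_mod_cast this
  · rw [← ofMul_pow, pow_card_eq_one] at h4
    exact Additive.ofMul.injective h4

/-- the polynomials defining the operators -/
noncomputable def Pp : L ⊕ (I ⊕ I) → MvPolynomial (L ⊕ (I ⊕ I)) k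
  | Sum.inl l => X (Sum.inl l) ^ 2
  | Sum.inr a => rename Sum.inr (K.pi' a)

/-- the degrees of the operators -/
def aa : L ⊕ (I ⊕ I) → ℕ
  | Sum.inl _ => 2
  | Sum.inr _ => Fintype.card C

include K in
lemma aa_ne (v : L ⊕ (I ⊕ I)) : aa (C := C) v ≠ 0 := by
  rcases v with l | a
  · exact two_ne_zero
  · exact Fintype.card_ne_zero

lemma mapDomain_inr (s : (I ⊕ I) →₀ ℕ) :
    (Finsupp.mapDomain Sum.inr s : (L ⊕ (I ⊕ I)) →₀ ℕ) = sp.symm (0, s) := by
  ext (l | a)
  · rw [TWE.sp_inl, Finsupp.mapDomain_notin_range]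
    · rfl
    · simp
  · rw [TWE.sp_inr, Finsupp.mapDomain_apply Sum.inr_injective]

lemma Pp_support (v : L ⊕ (I ⊕ I)) (s : (L ⊕ (I ⊕ I)) →₀ ℕ) (hs : s ∈ (K.Pp v).support) :
    dg s = aa (C := C) v ∧ K.wtt s = 1 := by
  classical
  rcases v with l | a
  · rw [Pp, X_pow_eq_monomial] at hs
    have h1 := support_monomial_subset hs
    rw [Finset.mem_singleton] at h1
    subst h1
    refine ⟨dg_single _ _, ?_⟩
    simp [TWE.wtt]
  · rw [Pp, support_rename_of_injective Sum.inr_injective, Finset.mem_image] at hs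
    obtain ⟨s, hs, rfl⟩ := hs
    rw [mapDomain_inr, TWE.dg_sp, K.wtt_sp]
    have h1 := K.pi_support a s hs
    have h2 : tl (0 : L →₀ ℕ) = 0 := by simp [tl]
    rw [h2, zero_add]
    exact h1

lemma lam_mem' (v : L ⊕ (I ⊕ I)) (m n : ℕ) (h : m = n + aa (C := C) v)
    (z : ((L ⊕ (I ⊕ I)) →₀ ℕ) → R) (hz : z ∈ RR K.ff m) : lamP R (K.Pp v) z ∈ RR K.ff n := by
  refine lamP_mem K.ff (fun s hs => (K.Pp_support v s hs).1) (fun s hs t => ?_) m n h z hz
  rw [TWE.ff, K.wtt_add, (K.Pp_support v s hs).2, one_mul, TWE.ff]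

lemma c1_single (z : ((L ⊕ (I ⊕ I)) →₀ ℕ) → R) (ν : L →₀ ℕ) (p : MvPolynomial (I ⊕ I) k) :
    EE k R L I z ν p = c1 k z (rename Sum.inr p * monomial (sp.symm (ν, 0)) 1) := by
  induction p using MvPolynomial.induction_on' with
  | monomial s r =>
    have h : (monomial s r : MvPolynomial (I ⊕ I) k) = r • monomial s 1 := by
      rw [smul_monomial, smul_eq_mul, mul_one]
    rw [h, map_smul, TWE.EE_monomial, map_smul, smul_mul_assoc, map_smul, rename_monomial,
      monomial_mul, mul_one, c1_monomial, one_smul, mapDomain_inr, ← map_add, Prod.mk_add_mk,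
      zero_add, add_zero]
  | add p q hp hq => rw [map_add, map_add, add_mul, map_add, hp, hq]

lemma EE_lam_inr (q : MvPolynomial (I ⊕ I) k) (z : ((L ⊕ (I ⊕ I)) →₀ ℕ) → R) :
    EE k R L I (lamP R (rename Sum.inr q) z) = OpD.pw L (shp q) (EE k R L I z) := by
  funext ν
  refine LinearMap.ext fun p => ?_
  change _ = EE k R L I z ν (q * p)
  rw [c1_single, c1_lamP, c1_single, map_mul (rename Sum.inr), mul_assoc]

lemma EE_lam_inl (l : L) (z : ((L ⊕ (I ⊕ I)) →₀ ℕ) → R) :
    EE k R L I (lamP R (X (Sum.inl l) ^ 2 : MvPolynomial (L ⊕ (I ⊕ I)) k) z) =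
      OpD.sh R l (EE k R L I z) := by
  funext ν
  refine LinearMap.ext fun p => ?_
  have h2 : (Finsupp.single (Sum.inl l) 2 + sp.symm (ν, 0) : (L ⊕ (I ⊕ I)) →₀ ℕ) =
      sp.symm (ν + el l + el l, 0) := by
    ext (m | a)
    · rw [Finsupp.add_apply, TWE.sp_inl, TWE.sp_inl, Finsupp.add_apply, Finsupp.add_apply,
        Finsupp.single_apply, Finsupp.single_apply]
      by_cases h : l = m
      · subst h
        simp
        omega
      · simp [h]
    · rw [Finsupp.add_apply, TWE.sp_inr, TWE.sp_inr, Finsupp.single_apply]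
      simp
  have h1 : (X (Sum.inl l) ^ 2 * (rename Sum.inr p * monomial (sp.symm (ν, 0)) 1) :
      MvPolynomial (L ⊕ (I ⊕ I)) k) =
      rename Sum.inr p * monomial (sp.symm (ν + el l + el l, 0)) 1 := by
    rw [mul_left_comm, X_pow_eq_monomial, monomial_mul, mul_one, h2]
  rw [OpD.sh_apply, c1_single, c1_lamP, c1_single, h1]

lemma dE_lam (v : L ⊕ (I ⊕ I)) (z : ((L ⊕ (I ⊕ I)) →₀ ℕ) → R) :
    lamP R (K.Pp v) (K.dE z) = K.dE (lamP R (K.Pp v) z) := by
  apply (EE k R L I).injective
  rcases v with l | a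
  · rw [Pp, EE_lam_inl, K.EE_dE, K.EE_dE, EE_lam_inl, K.opd.d_sh]
  · rw [Pp, EE_lam_inr, K.EE_dE, K.EE_dE, EE_lam_inr]
    have hV : ∀ c, K.V c * shp (K.pi' a) = shp (K.pi' a) * K.V c := by
      intro c
      rw [K.shp_V, K.ρ_pi]
    exact (K.opd.d_pw (fun l => hV _) (K.shp_D _).symm
      (fun l => K.A_of_comm hV (shp_rr _ _).symm (fun _ => shp_comm _ _) l) _).symm

/-- the algebra homomorphism defining the operators -/
noncomputable def φ : MvPolynomial (L ⊕ (I ⊕ I)) k →ₐ[k] MvPolynomial (L ⊕ (I ⊕ I)) k := aeval K.Pp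

lemma φ_X (v : L ⊕ (I ⊕ I)) : K.φ (X v) = K.Pp v := by
  rw [φ, aeval_X]

lemma pi_inl (i : I) : K.pi' (Sum.inl i) = X (Sum.inl i) ^ Fintype.card C := by
  rw [pi']
  simp only [TW.ρ_x]
  rw [prod_const, Finset.card_univ]

lemma φ_finite : ((K.φ : MvPolynomial (L ⊕ (I ⊕ I)) k →ₐ[k] MvPolynomial (L ⊕ (I ⊕ I)) k) :
    MvPolynomial (L ⊕ (I ⊕ I)) k →+* MvPolynomial (L ⊕ (I ⊕ I)) k).Finite := by
  have hP : ∀ v, (K.φ : MvPolynomial (L ⊕ (I ⊕ I)) k →+* MvPolynomial (L ⊕ (I ⊕ I))
      k).IsIntegralElem (K.Pp v) := by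
    intro v
    have : K.Pp v = (K.φ : MvPolynomial (L ⊕ (I ⊕ I)) k →+* MvPolynomial (L ⊕ (I ⊕ I)) k) (X v) :=
      (K.φ_X v).symm
    rw [this]
    exact RingHom.isIntegralElem_map _
  have hx : ∀ i, (K.φ : MvPolynomial (L ⊕ (I ⊕ I)) k →+* MvPolynomial (L ⊕ (I ⊕ I))
      k).IsIntegralElem (X (Sum.inr (Sum.inl i))) := by
    intro i
    refine isIntegralElem_of_pow _ _ (Fintype.card C) Fintype.card_ne_zero ?_
    have := hP (Sum.inr (Sum.inl i))
    rw [Pp, pi_inl, map_pow, rename_X] at this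
    exact this
  refine finite_of_isIntegralElem _ ?_
  rintro (l | i | j)
  · exact isIntegralElem_of_pow _ _ 2 two_ne_zero (hP (Sum.inl l))
  · exact hx i
  · have := hP (Sum.inr (Sum.inr j))
    rw [Pp, pi', map_prod] at this
    refine isIntegralElem_of_prod _ univ univ_nonempty _
      (fun c => ∑ i, K.B i j c • X (Sum.inr (Sum.inl i))) ?_ ?_
    · intro c
      have h1 : ∀ s : Finset I, (K.φ : MvPolynomial (L ⊕ (I ⊕ I)) k →+* MvPolynomial (L ⊕ (I ⊕ I))
          k).IsIntegralElem (∑ i ∈ s, K.B i j c • X (Sum.inr (Sum.inl i))) := by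
        intro s
        classical
        induction s using Finset.induction_on with
        | empty =>
          rw [sum_empty]
          exact RingHom.isIntegralElem_zero _
        | insert i s hi ih =>
          rw [sum_insert hi]
          refine RingHom.IsIntegralElem.add _ ?_ ih
          rw [smul_eq_C_mul]
          refine RingHom.IsIntegralElem.mul _ ?_ (hx i)
          have : (MvPolynomial.C (K.B i j c) : MvPolynomial (L ⊕ (I ⊕ I)) k) =
              (K.φ : MvPolynomial (L ⊕ (I ⊕ I)) k →+* MvPolynomial (L ⊕ (I ⊕ I)) k)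
                (MvPolynomial.C (K.B i j c)) := by
            simp
          rw [this]
          exact RingHom.isIntegralElem_map _
      exact h1 univ
    · refine (congrArg _ ?_).mp this
      refine prod_congr rfl fun c _ => ?_
      rw [K.ρ_y, map_add, rename_X, map_sum]
      simp only [map_smul, rename_X]

variable {T : ModuleCat.{u} R} (A : K.Aug T)

/-- The polynomial family of maps to a module. -/
noncomputable def fam (M : ModuleCat.{u} R) {r : ℕ} (m : Fin r → M)
    (hm : ∀ x : M, ∃ c : Fin r → k, x = ∑ i, algebraMap k R (c i) • m i) :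
    TotRes.Fam (K.tot A) k (fun v => lamP R (K.Pp v)) (a := aa (C := C))
      (fun v m n h x hx => K.lam_mem' v m n h x hx) M (PMod r K.φ) where
  psi n := psiP K.ff m K.φ n
  psi_C n c q x := psiP_C K.ff m K.φ n c q x
  psi_X v m' n h q x := by
    refine psiP_X K.ff m K.φ v n m' q x _ ?_
    rw [φ_X]
    rfl
  psi_X_lt v n h q := psiP_X_lt K.ff m K.φ v (fun s hs => (K.Pp_support v s (by
    rwa [φ_X] at hs)).1) n h q
  bound q := psi_bound K.ff (N := 1) m q
  surj n g := psi_surj K.ff (N := 1) m K.ff_idem hm n g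

instance (r : ℕ) : Module.Finite (MvPolynomial (L ⊕ (I ⊕ I)) k) (PMod r K.φ) :=
  PMod.finite _ K.φ_finite

theorem exists_gen [Module.Finite k R] (M : ModuleCat.{u} R) (hM : Module.Finite R M) :
    ∃ S : Finset (Σ n, (K.tot A).cut.W n ⟶ M), ∀ Q : ∀ n, ((K.tot A).cut.W n ⟶ M) → Prop,
      CutRes.Closed k (fun v => (K.tot A).op (a := aa (C := C) v) (lamP R (K.Pp v))
        (fun x => K.dE_lam v x) (fun m n h x hx => K.lam_mem' v m n h x hx)) Q →
        (∀ s ∈ S, Q s.1 s.2) → ∀ n g, Q n g := by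
  obtain ⟨r, m, hm⟩ := exists_span (k := k) (B := R) M
  exact (K.fam A M m hm).exists_finset (fun w x => K.dE_lam w x)

end TWD

end Pool.Agent.H170_FG
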